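import Pool.Agent.Lib.MP_f4742e_al.X.Frame

/-!
Data of a symmetric matrix with two blocks of size `m`; no hypothesis on the size.
-/

set_option autoImplicit false

namespace Pool.Agent.MP_f4742e_al.XN

open Matrix

/-- Data of a symmetric matrix `a` of type `(m, m, 1, ..., 1)`. -/
structure AD {F : Type*} [Field F] {n : ℕ} (a : Matrix (Fin n) (Fin n) F) (m : ℕ)
    (v w v1 w1 v0 w0 : Fin n → F) : Prop where
  hm : 3 ≤ m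
  tr : aᵀ = a
  am : a ^ m = 0
  e : a ^ (m - 1) = vecMulVec v w + vecMulVec w v
  b : a ^ (m - 2) = vecMulVec v w1 + vecMulVec w1 v + vecMulVec w v1 + vecMulVec v1 w
  av : a *ᵥ v = 0
  aw : a *ᵥ w = 0
  av1 : a *ᵥ v1 = v
  aw1 : a *ᵥ w1 = w
  v0v : v0 ⬝ᵥ v = 1
  v0w : v0 ⬝ᵥ w = 0
  w0v : w0 ⬝ᵥ v = 0
  w0w : w0 ⬝ᵥ w = 1

namespace AD

variable {F : Type*} [Field F] {n : ℕ} {a : Matrix (Fin n) (Fin n) F} {m : ℕ}
  {v w v1 w1 v0 w0 : Fin n → F} (D : AD a m v w v1 w1 v0 w0)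

include D

/-- Exchange of `v` and `w`. -/
theorem swap : AD a m w v w1 v1 w0 v0 where
  hm := D.hm
  tr := D.tr
  am := D.am
  e := by rw [D.e, add_comm]
  b := by
    rw [D.b]
    abel
  av := D.aw
  aw := D.av
  av1 := D.aw1
  aw1 := D.av1
  v0v := D.w0w
  v0w := D.w0v
  w0v := D.v0w
  w0w := D.v0v

/-- `e v0 = w`. -/
theorem e_v0 : a ^ (m - 1) *ᵥ v0 = w := by
  rw [D.e, add_mulVec, vmv_mulVec, vmv_mulVec, dotProduct_comm w v0, dotProduct_comm v v0, D.v0w,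
    D.v0v, zero_smul, one_smul, zero_add]

theorem e_w0 : a ^ (m - 1) *ᵥ w0 = v := D.swap.e_v0

/-- `a^j v = 0` for `j ≥ 1`. -/
theorem pow_v {j : ℕ} (hj : 1 ≤ j) : a ^ j *ᵥ v = 0 := by
  obtain ⟨l, rfl⟩ : ∃ l, j = l + 1 := ⟨j - 1, by omega⟩
  rw [pow_succ, ← mulVec_mulVec, D.av, mulVec_zero]

theorem pow_w {j : ℕ} (hj : 1 ≤ j) : a ^ j *ᵥ w = 0 := D.swap.pow_v hj

/-- `a^j v1 = 0` for `j ≥ 2`. -/
theorem pow_v1 {j : ℕ} (hj : 2 ≤ j) : a ^ j *ᵥ v1 = 0 := by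
  obtain ⟨l, rfl⟩ : ∃ l, j = l + 1 := ⟨j - 1, by omega⟩
  rw [pow_succ, ← mulVec_mulVec, D.av1, D.pow_v (by omega)]

theorem pow_w1 {j : ℕ} (hj : 2 ≤ j) : a ^ j *ᵥ w1 = 0 := D.swap.pow_v1 hj

/-- The vector `v` is orthogonal to the kernel of `a^(m-1)`. -/
theorem v_dot {y : Fin n → F} (hy : a ^ (m - 1) *ᵥ y = 0) : v ⬝ᵥ y = 0 := by
  rw [← D.e_w0, dot_symm (pow_tr D.tr _), hy, dotProduct_zero]

theorem w_dot {y : Fin n → F} (hy : a ^ (m - 1) *ᵥ y = 0) : w ⬝ᵥ y = 0 := D.swap.v_dot hy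

theorem vv : v ⬝ᵥ v = 0 := D.v_dot (D.pow_v (by have := D.hm; omega))

theorem vw : v ⬝ᵥ w = 0 := D.v_dot (D.pow_w (by have := D.hm; omega))

theorem wv : w ⬝ᵥ v = 0 := D.w_dot (D.pow_v (by have := D.hm; omega))

theorem ww : w ⬝ᵥ w = 0 := D.w_dot (D.pow_w (by have := D.hm; omega))

theorem vv1 : v ⬝ᵥ v1 = 0 := D.v_dot (D.pow_v1 (by have := D.hm; omega))

theorem vw1 : v ⬝ᵥ w1 = 0 := D.v_dot (D.pow_w1 (by have := D.hm; omega))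

theorem wv1 : w ⬝ᵥ v1 = 0 := D.w_dot (D.pow_v1 (by have := D.hm; omega))

theorem ww1 : w ⬝ᵥ w1 = 0 := D.w_dot (D.pow_w1 (by have := D.hm; omega))

/-- `b y`. -/
theorem b_mulVec (y : Fin n → F) : a ^ (m - 2) *ᵥ y =
    (w1 ⬝ᵥ y) • v + (v ⬝ᵥ y) • w1 + (v1 ⬝ᵥ y) • w + (w ⬝ᵥ y) • v1 := by
  rw [D.b, add_mulVec, add_mulVec, add_mulVec, vmv_mulVec, vmv_mulVec, vmv_mulVec, vmv_mulVec]

theorem e_mulVec (y : Fin n → F) : a ^ (m - 1) *ᵥ y = (w ⬝ᵥ y) • v + (v ⬝ᵥ y) • w := by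
  rw [D.e, add_mulVec, vmv_mulVec, vmv_mulVec]

end AD

end Pool.Agent.MP_f4742e_al.XN
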