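import Pool.Agent.Lib.MP_f4742e_al.X.Frame
import Pool.Agent.Lib.MP_f4742e_al.HLA

/-!
Counting isotropic families of rational vectors.
-/

set_option autoImplicit false

namespace Pool.Agent.MP_f4742e_al

open Matrix

namespace Frame

variable {F K : Type*} [Field F] [Field K] [Algebra F K] {n : ℕ}
  {R : Matrix (Fin n) (Fin n) K →ₗ[K] Matrix (Fin n) (Fin n) K} {w : ℕ} (Φ : Frame F R w)

include Φ

/-- Isotropic families which are rational up to scalars. -/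
theorem wiS {ι : Type*} [Fintype ι] {g : ι → (Fin n → K)} {κ : ι → K} (hκ : ∀ i, κ i ≠ 0)
    (hg : ∀ i, κ i • g i ∈ Φ.V) (h0 : ∀ i j, g i ⬝ᵥ g j = 0) (h1 : LinearIndependent K g) :
    Fintype.card ι ≤ w := by
  classical
  have h2 : LinearIndependent K fun i => κ i • g i := by
    have h3 := h1.units_smul fun i => Units.mk0 (κ i) (hκ i)
    exact h3
  refine Φ.wi (Fintype.card ι)
    (fun i => κ ((Fintype.equivFin ι).symm i) • g ((Fintype.equivFin ι).symm i)) ?_ ?_ ?_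
  · intro i
    exact hg _
  · intro i j
    rw [smul_dotProduct, dotProduct_smul, h0, smul_zero, smul_zero]
  · exact h2.comp _ (Fintype.equivFin ι).symm.injective

theorem wiE {ι : Type*} [Fintype ι] {g : ι → (Fin n → K)}
    (hg : ∀ i, ∃ c : K, c ≠ 0 ∧ c • g i ∈ Φ.V) (h0 : ∀ i j, g i ⬝ᵥ g j = 0)
    (h1 : LinearIndependent K g) : Fintype.card ι ≤ w := by
  choose κ hκ hκ' using hg
  exact Φ.wiS hκ hκ' h0 h1

theorem wi' {ι : Type*} [Fintype ι] {g : ι → (Fin n → K)}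
    (hg : ∀ i, g i ∈ Φ.V) (h0 : ∀ i j, g i ⬝ᵥ g j = 0) (h1 : LinearIndependent K g) :
    Fintype.card ι ≤ w :=
  Φ.wiS (κ := fun _ => 1) (fun _ => one_ne_zero) (fun i => by rw [one_smul]; exact hg i) h0 h1

/-- Chains of rational vectors: the upper halves are isotropic. -/
theorem count {a : Matrix (Fin n) (Fin n) K} (ha : aᵀ = a) (haM : a ∈ Φ.M) {ι : Type*} [Fintype ι]
    {y : ι → (Fin n → K)} {l : ι → ℕ} (hy : ∀ j, y j ∈ Φ.V) (h1 : ∀ j, a ^ (l j + 1) *ᵥ y j = 0)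
    (h2 : LinearIndependent K fun j => a ^ (l j) *ᵥ y j) : ∑ j, (l j + 1) / 2 ≤ w := by
  have h3 := chain_indep h1 h2
  have hkill : ∀ (j : ι) (e : ℕ), l j + 1 ≤ e → a ^ e *ᵥ y j = 0 := by
    intro j e he
    obtain ⟨f, rfl⟩ := Nat.exists_eq_add_of_le' he
    rw [pow_add, ← Matrix.mulVec_mulVec, h1, Matrix.mulVec_zero]
  let s : (Σ j : ι, Fin ((l j + 1) / 2)) → (Σ j : ι, Fin (l j + 1)) := fun p =>
    ⟨p.1, ⟨l p.1 - (p.2 : ℕ), by omega⟩⟩
  have hs : Function.Injective s := by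
    rintro ⟨j, p⟩ ⟨j', p'⟩ h
    have h4 := Sigma.mk.inj_iff.1 h
    obtain ⟨h5, h6⟩ := h4
    have h5' : j = j' := h5
    subst h5'
    have h7 := congrArg Fin.val (eq_of_heq h6)
    have h8 : l j - (p : ℕ) = l j - (p' : ℕ) := h7
    have hp := p.2
    have hp' := p'.2
    have h9 : (p : ℕ) = (p' : ℕ) := by omega
    rw [Fin.ext h9]
  have h4 := h3.comp s hs
  have h5 := Φ.wi' (g := fun p : (Σ j : ι, Fin ((l j + 1) / 2)) =>
    a ^ (l p.1 - (p.2 : ℕ)) *ᵥ y p.1) (fun p => Φ.act _ (Φ.pow haM _) _ (hy _)) (by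
      rintro ⟨j, p⟩ ⟨k, q⟩
      change (a ^ (l j - (p : ℕ)) *ᵥ y j) ⬝ᵥ (a ^ (l k - (q : ℕ)) *ᵥ y k) = 0
      have hp := p.2
      have hq := q.2
      rw [dot_symm (pow_tr ha _), mulVec_mulVec, ← pow_add]
      rcases le_total (l j) (l k) with h6 | h6
      · rw [← dot_symm (pow_tr ha _), hkill j _ (by omega), zero_dotProduct]
      · rw [hkill k _ (by omega), dotProduct_zero]) h4
  rw [Fintype.card_sigma] at h5
  simpa using h5

/-- Rational up to a scalar. -/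
def RV (u : Fin n → K) : Prop := ∃ c : K, c ≠ 0 ∧ c • u ∈ Φ.V

/-- Rational up to a scalar. -/
def RM (x : Matrix (Fin n) (Fin n) K) : Prop := ∃ c : K, c ≠ 0 ∧ c • x ∈ Φ.M

theorem RV_of_mem {u : Fin n → K} (hu : u ∈ Φ.V) : Φ.RV u :=
  ⟨1, one_ne_zero, by rwa [one_smul]⟩

theorem RM_of_mem {x : Matrix (Fin n) (Fin n) K} (hx : x ∈ Φ.M) : Φ.RM x :=
  ⟨1, one_ne_zero, by rwa [one_smul]⟩

theorem RV_mulVec {x : Matrix (Fin n) (Fin n) K} (hx : Φ.RM x) {u : Fin n → K} (hu : Φ.RV u) :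
    Φ.RV (x *ᵥ u) := by
  obtain ⟨c, hc, hc'⟩ := hx
  obtain ⟨d, hd, hd'⟩ := hu
  refine ⟨c * d, mul_ne_zero hc hd, ?_⟩
  have h1 := Φ.act _ hc' _ hd'
  rwa [smul_mulVec, mulVec_smul, smul_smul] at h1

theorem RM_map {x : Matrix (Fin n) (Fin n) K} (hx : Φ.RM x) : Φ.RM (R x) := by
  obtain ⟨c, hc, hc'⟩ := hx
  exact ⟨c, hc, by rw [← map_smul]; exact Φ.map _ hc'⟩

theorem RM_mapPow {x : Matrix (Fin n) (Fin n) K} (hx : Φ.RM x) (j : ℕ) : Φ.RM ((R ^ j) x) := by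
  induction j with
  | zero => exact hx
  | succ j ih =>
    rw [pow_succ', Module.End.mul_apply]
    exact Φ.RM_map ih

theorem RM_pow (j : ℕ) : Φ.RM ((R 1) ^ j) := Φ.RM_of_mem (Φ.a_pow j)

theorem RM_vmv2 {u v : Fin n → K} (hu : Φ.RV u) (hv : Φ.RV v) :
    Φ.RM (vecMulVec u v + vecMulVec v u) := by
  obtain ⟨c, hc, hc'⟩ := hu
  obtain ⟨d, hd, hd'⟩ := hv
  refine ⟨c * d, mul_ne_zero hc hd, ?_⟩
  have h1 := Φ.M.add_mem (Φ.vmv _ hc' _ hd') (Φ.vmv _ hd' _ hc')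
  have h2 : (c * d) • (vecMulVec u v + vecMulVec v u) =
      vecMulVec (c • u) (d • v) + vecMulVec (d • v) (c • u) := by
    rw [smul_vecMulVec, smul_vecMulVec, vecMulVec_smul, vecMulVec_smul]
    module
  rw [h2]
  exact h1

theorem RM_vmv {u : Fin n → K} (hu : Φ.RV u) : Φ.RM (vecMulVec u u) := by
  obtain ⟨c, hc, hc'⟩ := hu
  refine ⟨c * c, mul_ne_zero hc hc, ?_⟩
  have h1 := Φ.vmv _ hc' _ hc'
  have h2 : (c * c) • vecMulVec u u = vecMulVec (c • u) (c • u) := by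
    rw [smul_vecMulVec, vecMulVec_smul]
    module
  rw [h2]
  exact h1

end Frame

end Pool.Agent.MP_f4742e_al
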