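import Pool.Agent.Lib.MP_f4742e_al.HLA
import Pool.Agent.Lib.MP_f4742e_al.X.AD
import Pool.Agent.Lib.MP_f4742e_al.X.Count

/-!
MP_f4742e_al, module A5: `R^(2m-1) = 0` from the normal form of the top forms.
-/

set_option autoImplicit false

namespace Pool.Agent.MP_f4742e_al.XN

open Matrix

namespace A5

variable {F : Type*} [Field F] [CharZero F] {n : ℕ}
  {R : Matrix (Fin n) (Fin n) F →ₗ[F] Matrix (Fin n) (Fin n) F} (hR : SRB R) {m : ℕ}
  {v w v1 w1 v0 w0 : Fin n → F}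

include hR

/-- `e s e = 0`. -/
theorem ese (D : AD (R 1) m v w v1 w1 v0 w0) (h1 : R (vecMulVec v v) = 0)
    (h2 : R (vecMulVec w w) = 0) (x : Matrix (Fin n) (Fin n) F) :
    (R 1) ^ (m - 1) * R x * (R 1) ^ (m - 1) = 0 := by
  have hm := D.hm
  have h3 := R_exe hR.rb (by omega) D.am x
  rw [← h3]
  have h4 : R ((R 1) ^ (m - 1)) = 0 := R_e hR.rb (by omega) D.am
  have h5 : R (vecMulVec v w) = 0 := by
    rw [D.e, map_add] at h4
    have h6 : R (vecMulVec w v) = R (vecMulVec v w) := by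
      rw [← hR.ti, transpose_vecMulVec]
    rw [h6, ← two_smul F] at h4
    exact (smul_eq_zero.1 h4).resolve_left two_ne_zero
  have h6 : R (vecMulVec w v) = 0 := by
    rw [← hR.ti, transpose_vecMulVec, h5]
  have h7 : (R 1) ^ (m - 1) * x * (R 1) ^ (m - 1) =
      (w ⬝ᵥ (x *ᵥ v)) • vecMulVec v w + (w ⬝ᵥ (x *ᵥ w)) • vecMulVec v v +
      (v ⬝ᵥ (x *ᵥ v)) • vecMulVec w w + (v ⬝ᵥ (x *ᵥ w)) • vecMulVec w v := by
    have h8 : ∀ y z y' z' : Fin n → F, vecMulVec y z * x * vecMulVec y' z' =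
        (z ⬝ᵥ (x *ᵥ y')) • vecMulVec y z' := by
      intro y z y' z'
      rw [Matrix.mul_assoc, mul_vecMulVec, vecMulVec_mul_vecMulVec]
      first
        | rw [smul_vecMulVec]
        | rfl
        | (rw [vecMulVec_smul])
    rw [D.e, Matrix.add_mul, Matrix.add_mul, Matrix.mul_add, Matrix.mul_add, h8, h8, h8, h8]
    abel
  rw [h7, map_add, map_add, map_add, map_smul, map_smul, map_smul, map_smul, h1, h2, h5, h6]
  simp

/-- Isotropy of `E` for the images. -/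
theorem iso (D : AD (R 1) m v w v1 w1 v0 w0) (h1 : R (vecMulVec v v) = 0)
    (h2 : R (vecMulVec w w) = 0) (x : Matrix (Fin n) (Fin n) F) :
    v ⬝ᵥ (R x *ᵥ v) = 0 ∧ v ⬝ᵥ (R x *ᵥ w) = 0 ∧ w ⬝ᵥ (R x *ᵥ w) = 0 ∧
      w ⬝ᵥ (R x *ᵥ v) = 0 := by
  have h3 := ese hR D h1 h2 x
  have h4 := congrArg (fun M => M *ᵥ v0) h3
  have h5 := congrArg (fun M => M *ᵥ w0) h3
  simp only [zero_mulVec] at h4 h5
  rw [← mulVec_mulVec, ← mulVec_mulVec, D.e_v0, D.e_mulVec] at h4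
  rw [← mulVec_mulVec, ← mulVec_mulVec, D.e_w0, D.e_mulVec] at h5
  have h6 := congrArg (fun y => v0 ⬝ᵥ y) h4
  have h7 := congrArg (fun y => w0 ⬝ᵥ y) h4
  have h8 := congrArg (fun y => v0 ⬝ᵥ y) h5
  have h9 := congrArg (fun y => w0 ⬝ᵥ y) h5
  simp only [dotProduct_add, dotProduct_smul, D.v0v, D.v0w, D.w0v, D.w0w, smul_eq_mul, mul_one,
    mul_zero, add_zero, zero_add, dotProduct_zero] at h6 h7 h8 h9
  exact ⟨h9, h7, h6, h8⟩

omit [CharZero F] in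
/-- `jp (R 1)` preserves the image of `R^m`. -/
theorem jp_a_mem (m : ℕ) (x : Matrix (Fin n) (Fin n) F) :
    ∃ z, jp (R 1) ((R ^ m) x) = (R ^ m) z := by
  refine ⟨(2 * m : F) • R x + jp (R 1) x, ?_⟩
  rw [rel_pow hR.rb, map_add, map_smul, pow_succ, Module.End.mul_apply]

/-- Step (i). -/
theorem stepI (D : AD (R 1) m v w v1 w1 v0 w0) (h1 : R (vecMulVec v v) = 0)
    (h2 : R (vecMulVec w w) = 0) {ν : F}
    (h3 : ∀ x, xᵀ = x → (R 1) ^ (m - 2) *ᵥ (R x *ᵥ w) = 0 ∧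
      (R 1) ^ (m - 2) *ᵥ (R x *ᵥ v) = (ν * (v ⬝ᵥ (x *ᵥ w))) • v)
    (z : Matrix (Fin n) (Fin n) F) {α β c : F} (hv : (R ^ m) z *ᵥ v = α • v + c • w)
    (hw : (R ^ m) z *ᵥ w = β • v + α • w) {x : Matrix (Fin n) (Fin n) F} (hx : xᵀ = x) :
    w1 ⬝ᵥ ((R ^ m) z *ᵥ (R x *ᵥ v)) =
      ν * (α * (v ⬝ᵥ (x *ᵥ w)) + c * (w ⬝ᵥ (x *ᵥ w)) + β * (v ⬝ᵥ (x *ᵥ v))) := by
  have hm := D.hm
  obtain ⟨l, rfl⟩ : ∃ l, m = l + 2 := ⟨m - 2, by omega⟩
  set q := (R ^ (l + 2)) z with hq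
  set q' := (R ^ (l + 1)) z with hq'
  have hqq : q = R q' := by rw [hq, hq', pow_succ', Module.End.mul_apply]
  have hqr : q' = R ((R ^ l) z) := by rw [hq', pow_succ', Module.End.mul_apply]
  have hqs : qᵀ = q := by rw [hqq, hR.tr]
  have hqs' : q'ᵀ = q' := by rw [hqr, hR.tr]
  have hs := hR.tr x
  -- the symmetric element
  have h4 : jp q (R x) = R (jp q x + jp q' (R x)) := by
    rw [hqq, hR.rb]
  have h5 : (jp q x + jp q' (R x))ᵀ = jp q x + jp q' (R x) := by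
    unfold jp
    rw [transpose_add, transpose_add, transpose_add, transpose_mul, transpose_mul, transpose_mul,
      transpose_mul, hqs, hqs', hs, hx]
    abel
  have h6 := (h3 _ h5).2
  rw [← h4] at h6
  have h7 : v ⬝ᵥ (jp q' (R x) *ᵥ w) = 0 := by
    rw [hqr, hR.rb]
    exact (iso hR D h1 h2 _).2.1
  have h8 : v ⬝ᵥ ((jp q x + jp q' (R x)) *ᵥ w) =
      2 * α * (v ⬝ᵥ (x *ᵥ w)) + c * (w ⬝ᵥ (x *ᵥ w)) + β * (v ⬝ᵥ (x *ᵥ v)) := by
    rw [add_mulVec, dotProduct_add, h7, add_zero]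
    unfold jp
    rw [add_mulVec, dotProduct_add, ← mulVec_mulVec, ← mulVec_mulVec, ← dot_symm hqs, hv, hw,
      mulVec_add, mulVec_smul, mulVec_smul, add_dotProduct, smul_dotProduct, smul_dotProduct,
      dotProduct_add, dotProduct_smul, dotProduct_smul]
    simp only [smul_eq_mul]
    ring
  rw [h8] at h6
  have h9 : (R 1) ^ (l + 2 - 2) *ᵥ (R x *ᵥ (q *ᵥ v)) = (α * (ν * (v ⬝ᵥ (x *ᵥ w)))) • v := by
    rw [hv, mulVec_add, mulVec_smul, mulVec_smul, mulVec_add, mulVec_smul, mulVec_smul,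
      (h3 x hx).1, (h3 x hx).2, smul_zero, add_zero, smul_smul]
  have h10 : (R 1) ^ (l + 2 - 2) *ᵥ (q *ᵥ (R x *ᵥ v)) =
      (ν * (α * (v ⬝ᵥ (x *ᵥ w)) + c * (w ⬝ᵥ (x *ᵥ w)) + β * (v ⬝ᵥ (x *ᵥ v)))) • v := by
    have h11 : (R 1) ^ (l + 2 - 2) *ᵥ (jp q (R x) *ᵥ v) =
        (R 1) ^ (l + 2 - 2) *ᵥ (q *ᵥ (R x *ᵥ v)) +
          (R 1) ^ (l + 2 - 2) *ᵥ (R x *ᵥ (q *ᵥ v)) := by
      unfold jp
      rw [add_mulVec, mulVec_add, ← mulVec_mulVec, ← mulVec_mulVec]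
    rw [h11, h9] at h6
    rw [← eq_sub_iff_add_eq] at h6
    rw [h6, ← sub_smul]
    congr 1
    ring
  have hi := iso hR D h1 h2 x
  have h12 : v ⬝ᵥ (q *ᵥ (R x *ᵥ v)) = 0 := by
    rw [← dot_symm hqs, hv, add_dotProduct, smul_dotProduct, smul_dotProduct, hi.1, hi.2.2.2]
    simp
  have h13 : w ⬝ᵥ (q *ᵥ (R x *ᵥ v)) = 0 := by
    rw [← dot_symm hqs, hw, add_dotProduct, smul_dotProduct, smul_dotProduct, hi.1, hi.2.2.2]
    simp
  rw [D.b_mulVec, h12, h13, zero_smul, zero_smul, add_zero, add_zero] at h10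
  have h14 := congrArg (fun y => v0 ⬝ᵥ y) h10
  simp only [dotProduct_add, dotProduct_smul, D.v0v, D.v0w, smul_eq_mul, mul_one,
    mul_zero, add_zero] at h14
  exact h14

/-- Orthogonality relations along the chain, for images with zero `E`-part. -/
theorem chain0 (D : AD (R 1) m v w v1 w1 v0 w0) (h1 : R (vecMulVec v v) = 0)
    (h2 : R (vecMulVec w w) = 0) {ν : F}
    (h3 : ∀ x, xᵀ = x → (R 1) ^ (m - 2) *ᵥ (R x *ᵥ w) = 0 ∧
      (R 1) ^ (m - 2) *ᵥ (R x *ᵥ v) = (ν * (v ⬝ᵥ (x *ᵥ w))) • v)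
    {x : Matrix (Fin n) (Fin n) F} (hx : xᵀ = x) (i : ℕ) :
    ∀ z : Matrix (Fin n) (Fin n) F, (R ^ m) z *ᵥ v = 0 → (R ^ m) z *ᵥ w = 0 →
      w1 ⬝ᵥ ((R ^ m) z *ᵥ ((R 1) ^ i *ᵥ (R x *ᵥ v))) = 0 := by
  have hm := D.hm
  have hsym : ∀ z, ((R ^ m) z)ᵀ = (R ^ m) z := by
    intro z
    obtain ⟨l, hl⟩ : ∃ l, m = l + 1 := ⟨m - 1, by omega⟩
    rw [hl, pow_succ', Module.End.mul_apply, hR.tr]
  induction i with
  | zero =>
    intro z hv hw
    have h4 := stepI hR D h1 h2 h3 z (α := 0) (β := 0) (c := 0) (by rw [hv]; simp)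
      (by rw [hw]; simp) hx
    rw [pow_zero, one_mulVec, h4]
    ring
  | succ i ih =>
    intro z hv hw
    obtain ⟨z', hz'⟩ := jp_a_mem hR m z
    have h4 := ih z' (by
      rw [← hz']
      unfold jp
      rw [add_mulVec, ← mulVec_mulVec, ← mulVec_mulVec, hv, D.av, mulVec_zero, mulVec_zero,
        add_zero]) (by
      rw [← hz']
      unfold jp
      rw [add_mulVec, ← mulVec_mulVec, ← mulVec_mulVec, hw, D.aw, mulVec_zero, mulVec_zero,
        add_zero])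
    rw [← hz'] at h4
    unfold jp at h4
    rw [add_mulVec, dotProduct_add, ← mulVec_mulVec, ← mulVec_mulVec, ← dot_symm (hR.tr 1), D.aw1,
      ← dot_symm (hsym z), hw, zero_dotProduct, zero_add] at h4
    rw [pow_succ', ← mulVec_mulVec]
    exact h4

/-- Orthogonality relations along the chain: general images. -/
theorem chain1 (D : AD (R 1) m v w v1 w1 v0 w0) (h1 : R (vecMulVec v v) = 0)
    (h2 : R (vecMulVec w w) = 0) {ν : F}
    (h3 : ∀ x, xᵀ = x → (R 1) ^ (m - 2) *ᵥ (R x *ᵥ w) = 0 ∧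
      (R 1) ^ (m - 2) *ᵥ (R x *ᵥ v) = (ν * (v ⬝ᵥ (x *ᵥ w))) • v)
    {x : Matrix (Fin n) (Fin n) F} (hx : xᵀ = x) {i : ℕ} (hi : 1 ≤ i)
    (z : Matrix (Fin n) (Fin n) F) {α β c : F} (hv : (R ^ m) z *ᵥ v = α • v + c • w)
    (hw : (R ^ m) z *ᵥ w = β • v + α • w) :
      w1 ⬝ᵥ ((R ^ m) z *ᵥ ((R 1) ^ i *ᵥ (R x *ᵥ v))) = 0 := by
  have hm := D.hm
  have hsym : ∀ z, ((R ^ m) z)ᵀ = (R ^ m) z := by
    intro z
    obtain ⟨l, hl⟩ : ∃ l, m = l + 1 := ⟨m - 1, by omega⟩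
    rw [hl, pow_succ', Module.End.mul_apply, hR.tr]
  obtain ⟨i, rfl⟩ : ∃ l, i = l + 1 := ⟨i - 1, by omega⟩
  obtain ⟨z', hz'⟩ := jp_a_mem hR m z
  have h4 := chain0 hR D h1 h2 h3 hx i z' (by
      rw [← hz']
      unfold jp
      rw [add_mulVec, ← mulVec_mulVec, ← mulVec_mulVec, hv, D.av, mulVec_zero, mulVec_add,
        mulVec_smul, mulVec_smul, D.av, D.aw]
      simp) (by
      rw [← hz']
      unfold jp
      rw [add_mulVec, ← mulVec_mulVec, ← mulVec_mulVec, hw, D.aw, mulVec_zero, mulVec_add,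
        mulVec_smul, mulVec_smul, D.av, D.aw]
      simp)
  have hiso := iso hR D h1 h2 x
  -- `v`, `w` are orthogonal to the chain
  have h5 : ∀ y : Fin n → F, (R 1) *ᵥ y = 0 → y ⬝ᵥ (R x *ᵥ v) = 0 →
      y ⬝ᵥ ((R 1) ^ i *ᵥ (R x *ᵥ v)) = 0 := by
    intro y hy hy2
    cases i with
    | zero => rw [pow_zero, one_mulVec, hy2]
    | succ k => rw [pow_succ', ← mulVec_mulVec, ← dot_symm (hR.tr 1), hy, zero_dotProduct]
  rw [← hz'] at h4
  unfold jp at h4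
  rw [add_mulVec, dotProduct_add, ← mulVec_mulVec, ← mulVec_mulVec, ← dot_symm (hR.tr 1), D.aw1,
    ← dot_symm (hsym z), hw, add_dotProduct, smul_dotProduct, smul_dotProduct,
    h5 v D.av hiso.1, h5 w D.aw hiso.2.2.2] at h4
  rw [pow_succ', ← mulVec_mulVec]
  simpa using h4

/-- Step (ii): for `X_e = 0`, the vector `s v` is in the span of the tail of the chain. -/
theorem stepII {F₀ : Type*} [Field F₀] [Algebra F₀ F] (Φ : Frame F₀ R m) (rv : Φ.RV v)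
    (rw' : Φ.RV w) (rv0 : Φ.RV v0) (rw0 : Φ.RV w0)
    (D : AD (R 1) m v w v1 w1 v0 w0) (h1 : R (vecMulVec v v) = 0)
    (h2 : R (vecMulVec w w) = 0) {ν : F} (hν : ν ≠ 0)
    (h3 : ∀ x, xᵀ = x → (R 1) ^ (m - 2) *ᵥ (R x *ᵥ w) = 0 ∧
      (R 1) ^ (m - 2) *ᵥ (R x *ᵥ v) = (ν * (v ⬝ᵥ (x *ᵥ w))) • v)
    {x : Matrix (Fin n) (Fin n) F} (rx : Φ.RM x) (hx : xᵀ = x) (hxe : v ⬝ᵥ (x *ᵥ w) = 0)
    (z : Matrix (Fin n) (Fin n) F) {α β c : F} (hv : (R ^ m) z *ᵥ v = α • v + c • w)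
    (hw : (R ^ m) z *ᵥ w = β • v + α • w) :
      w1 ⬝ᵥ ((R ^ m) z *ᵥ (R x *ᵥ v)) = 0 := by
  have hm := D.hm
  set x0 : Matrix (Fin n) (Fin n) F := vecMulVec v0 w0 + vecMulVec w0 v0 with hx0
  have hx0s : x0ᵀ = x0 := by
    rw [hx0, transpose_add, transpose_vecMulVec, transpose_vecMulVec, add_comm]
  have hx0e : v ⬝ᵥ (x0 *ᵥ w) = 1 := by
    rw [hx0, add_mulVec, vmv_mulVec, vmv_mulVec, D.w0w, D.v0w, one_smul, zero_smul, add_zero,
      dotProduct_comm, D.v0v]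
  set l := R x0 *ᵥ v with hl
  have hbl : (R 1) ^ (m - 2) *ᵥ l = ν • v := by
    rw [hl, (h3 x0 hx0s).2, hx0e, mul_one]
  have hbs : (R 1) ^ (m - 2) *ᵥ (R x *ᵥ v) = 0 := by
    rw [(h3 x hx).2, hxe, mul_zero, zero_smul]
  have hbl1 : (R 1) ^ (m - 2 + 1) *ᵥ l = 0 := by
    rw [pow_succ', ← mulVec_mulVec, hbl, mulVec_smul, D.av, smul_zero]
  -- the chain family
  let Y : Fin 2 → (Fin n → F) := ![l, w]
  let L : Fin 2 → ℕ := ![m - 2, 0]
  have hY1 : ∀ j, (R 1) ^ (L j + 1) *ᵥ Y j = 0 := by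
    intro j
    fin_cases j
    · exact hbl1
    · change (R 1) ^ (0 + 1) *ᵥ w = 0
      rw [zero_add, pow_one, D.aw]
  have hY2 : LinearIndependent F fun j => (R 1) ^ (L j) *ᵥ Y j := by
    rw [Fintype.linearIndependent_iff]
    intro g hg
    rw [Fin.sum_univ_two] at hg
    change g 0 • ((R 1) ^ (m - 2) *ᵥ l) + g 1 • ((R 1) ^ 0 *ᵥ w) = 0 at hg
    rw [hbl, pow_zero, one_mulVec] at hg
    have h6 := congrArg (fun y => v0 ⬝ᵥ y) hg
    have h7 := congrArg (fun y => w0 ⬝ᵥ y) hg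
    simp only [dotProduct_add, dotProduct_smul, D.v0v, D.v0w, D.w0v, D.w0w, smul_eq_mul, mul_one,
      mul_zero, add_zero, zero_add, dotProduct_zero] at h6 h7
    intro j
    fin_cases j
    · exact (mul_eq_zero.1 h6).resolve_right hν
    · exact h7
  have hind := chain_indep hY1 hY2
  -- isotropy
  have hd : ∀ x, v ⬝ᵥ (R x *ᵥ v) = 0 := fun x => (iso hR D h1 h2 x).1
  have hwR : ∀ x, w ⬝ᵥ (R x *ᵥ v) = 0 := fun x => (iso hR D h1 h2 x).2.2.2
  have hwa : ∀ (i : ℕ) (x : Matrix (Fin n) (Fin n) F), w ⬝ᵥ ((R 1) ^ i *ᵥ (R x *ᵥ v)) = 0 := by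
    intro i x
    cases i with
    | zero => rw [pow_zero, one_mulVec, hwR]
    | succ k => rw [pow_succ', ← mulVec_mulVec, ← dot_symm (hR.tr 1), D.aw, zero_dotProduct]
  let fam : (Σ j : Fin 2, Fin (L j + 1)) → (Fin n → F) :=
    fun p => (R 1) ^ (p.2 : ℕ) *ᵥ Y p.1
  have hfam : ∀ p, fam p = (R 1) ^ (p.2 : ℕ) *ᵥ Y p.1 := fun p => rfl
  have hfamw : ∀ p : (Σ j : Fin 2, Fin (L j + 1)), fam p = w ∨
      ∃ i : ℕ, fam p = (R 1) ^ i *ᵥ l := by
    rintro ⟨j, i⟩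
    fin_cases j
    · right
      exact ⟨i, rfl⟩
    · left
      have hi : (i : ℕ) = 0 := by
        have := i.2
        change (i : ℕ) < 0 + 1 at this
        omega
      rw [hfam]
      change (R 1) ^ (i : ℕ) *ᵥ w = w
      rw [hi, pow_zero, one_mulVec]
  have rl : Φ.RV l := Φ.RV_mulVec (Φ.RM_map (Φ.RM_vmv2 rv0 rw0)) rv
  have rs : Φ.RV (R x *ᵥ v) := Φ.RV_mulVec (Φ.RM_map rx) rv
  have rfam : ∀ p, Φ.RV (fam p) := by
    intro p
    rcases hfamw p with h | ⟨i, h⟩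
    · rw [h]
      exact rw'
    · rw [h]
      exact Φ.RV_mulVec (Φ.RM_pow i) rl
  have hs_l : ∀ i : ℕ, (R x *ᵥ v) ⬝ᵥ ((R 1) ^ i *ᵥ l) = 0 := fun i => hR.S1_diag hd i x0 x
  have hfs : ∀ p, fam p ⬝ᵥ (R x *ᵥ v) = 0 := by
    intro p
    rcases hfamw p with h | ⟨i, h⟩
    · rw [h, hwR]
    · rw [h, dotProduct_comm, hs_l]
  have hff : ∀ p p', fam p ⬝ᵥ fam p' = 0 := by
    intro p p'
    rcases hfamw p with h | ⟨i, h⟩ <;> rcases hfamw p' with h' | ⟨i', h'⟩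
    · rw [h, h', D.ww]
    · rw [h, h', hwa]
    · rw [h, h', dotProduct_comm, hwa]
    · rw [h, h', dot_symm (hR.a_tr i), mulVec_mulVec, ← pow_add]
      exact hR.S1_diag hd (i + i') x0 x0
  -- membership in the span
  have hmem : (R x *ᵥ v) ∈ Submodule.span F (Set.range fam) := by
    by_contra hcon
    have hind2 : LinearIndependent F
        (fun o : Option (Σ j : Fin 2, Fin (L j + 1)) => o.elim (R x *ᵥ v) fam) := by
      rw [linearIndependent_option]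
      exact ⟨hind, hcon⟩
    have h8 := Φ.wiE (by
      rintro (_ | p)
      · exact rs
      · exact rfam p) (by
      rintro (_ | p) (_ | p')
      · have := hR.S1_diag hd 0 x x
        rw [pow_zero, one_mulVec] at this
        exact this
      · change (R x *ᵥ v) ⬝ᵥ fam p' = 0
        rw [dotProduct_comm, hfs]
      · exact hfs p
      · exact hff p p') hind2
    rw [Fintype.card_option, Fintype.card_sigma, Fin.sum_univ_two, Fintype.card_fin,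
      Fintype.card_fin] at h8
    change m - 2 + 1 + (0 + 1) + 1 ≤ m at h8
    omega
  rw [Submodule.mem_span_range_iff_exists_fun] at hmem
  obtain ⟨g, hg⟩ := hmem
  rw [Fintype.sum_sigma, Fin.sum_univ_two] at hg
  have hg2 : ∑ i : Fin (m - 2 + 1), g ⟨0, i⟩ • ((R 1) ^ (i : ℕ) *ᵥ l) +
      ∑ i : Fin (0 + 1), g ⟨1, i⟩ • ((R 1) ^ (i : ℕ) *ᵥ w) = R x *ᵥ v := hg
  rw [Fin.sum_univ_succ, Fin.sum_univ_one] at hg2
  have hg3 : g ⟨0, 0⟩ • l + ∑ i : Fin (m - 2), g ⟨0, i.succ⟩ • ((R 1) ^ ((i : ℕ) + 1) *ᵥ l) +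
      g ⟨1, 0⟩ • w = R x *ᵥ v := by
    rw [← hg2]
    simp only [Fin.val_zero, pow_zero, one_mulVec, Fin.val_succ]
    rfl
  -- the leading coefficient vanishes
  have hg0 : g ⟨0, 0⟩ = 0 := by
    have h9 := congrArg (fun y => (R 1) ^ (m - 2) *ᵥ y) hg3
    simp only [mulVec_add, mulVec_smul, mulVec_sum] at h9
    rw [hbs, hbl, D.pow_w (by omega), smul_zero, add_zero, Finset.sum_eq_zero, add_zero] at h9
    · have h10 := congrArg (fun y => v0 ⬝ᵥ y) h9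
      simp only [dotProduct_smul, D.v0v, smul_eq_mul, mul_one, dotProduct_zero] at h10
      exact (mul_eq_zero.1 h10).resolve_right hν
    · intro i _
      have h11 : m - 2 + ((i : ℕ) + 1) = (i : ℕ) + (m - 2 + 1) := by omega
      rw [mulVec_mulVec, ← pow_add, h11, pow_add, ← mulVec_mulVec, hbl1, mulVec_zero, smul_zero]
  rw [← hg3, hg0, zero_smul, zero_add, mulVec_add, mulVec_sum, mulVec_smul, dotProduct_add,
    dotProduct_smul, hw, dotProduct_add, dotProduct_smul, dotProduct_smul, dotProduct_comm w1 v,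
    dotProduct_comm w1 w, D.vw1, D.ww1, dotProduct_sum, Finset.sum_eq_zero]
  · simp
  · intro i _
    rw [mulVec_smul, dotProduct_smul, hl, chain1 hR D h1 h2 h3 hx0s (by omega) z hv hw, smul_zero]

end A5

/-- Module A5 with the action of the images on `E` as a hypothesis. -/
theorem a5_of {F₀ : Type*} [Field F₀] {F : Type*} [Field F] [CharZero F] [Algebra F₀ F] {n : ℕ}
    {R : Matrix (Fin n) (Fin n) F →ₗ[F] Matrix (Fin n) (Fin n) F} (hR : SRB R) {m : ℕ}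
    (Φ : Frame F₀ R m)
    {v w v1 w1 v0 w0 : Fin n → F} (rv : Φ.RV v) (rw' : Φ.RV w) (rv0 : Φ.RV v0) (rw0 : Φ.RV w0)
    (hq : ∀ x ∈ Φ.M, ∃ α β c : F, (R ^ m) x *ᵥ v = α • v + c • w ∧
      (R ^ m) x *ᵥ w = β • v + α • w ∧ α * α = β * c ∧
        ((α = 0 ∧ β = 0 ∧ c = 0) → (R ^ (2 * m - 1)) x = 0))
    (D : AD (R 1) m v w v1 w1 v0 w0) (h1 : R (vecMulVec v v) = 0)
    (h2 : R (vecMulVec w w) = 0) {ν : F} (hν : ν ≠ 0)
    (h3 : ∀ x, xᵀ = x → (R 1) ^ (m - 2) *ᵥ (R x *ᵥ w) = 0 ∧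
      (R 1) ^ (m - 2) *ᵥ (R x *ᵥ v) = (ν * (v ⬝ᵥ (x *ᵥ w))) • v) : R ^ (2 * m - 1) = 0 := by
  have hm := D.hm
  have h0 : ∀ z : Matrix (Fin n) (Fin n) F, zᵀ = z → (R ^ (2 * m - 1)) z = 0 := by
    refine Φ.sym_ind ?_ ?_ ?_
    · intro z hzM _
      obtain ⟨α, β, c, hv, hw, h4, h5⟩ := hq z hzM
      have h6 : ∀ y : Fin n → F, (vecMulVec y y)ᵀ = vecMulVec y y := by
        intro y
        rw [transpose_vecMulVec]
      have h7 : c = 0 := by
        have hxe : v ⬝ᵥ (vecMulVec w0 w0 *ᵥ w) = 0 := by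
          rw [vmv_mulVec, dotProduct_smul, dotProduct_comm v, D.w0v, smul_zero]
        have h8 := A5.stepI hR D h1 h2 h3 z hv hw (h6 w0)
        rw [A5.stepII hR Φ rv rw' rv0 rw0 D h1 h2 hν h3 (Φ.RM_vmv rw0) (h6 w0) hxe z hv hw, hxe,
          vmv_mulVec, vmv_mulVec, D.w0w, D.w0v,
          one_smul, zero_smul, dotProduct_zero, dotProduct_comm, D.w0w, mul_zero, mul_zero,
          zero_add, mul_one, add_zero] at h8
        exact (mul_eq_zero.1 h8.symm).resolve_left hν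
      have h9 : β = 0 := by
        have hxe : v ⬝ᵥ (vecMulVec v0 v0 *ᵥ w) = 0 := by
          rw [vmv_mulVec, D.v0w, zero_smul, dotProduct_zero]
        have h8 := A5.stepI hR D h1 h2 h3 z hv hw (h6 v0)
        rw [A5.stepII hR Φ rv rw' rv0 rw0 D h1 h2 hν h3 (Φ.RM_vmv rv0) (h6 v0) hxe z hv hw, hxe,
          vmv_mulVec, vmv_mulVec, D.v0w, D.v0v,
          one_smul, zero_smul, dotProduct_zero, dotProduct_comm, D.v0v, mul_zero, mul_zero,
          zero_add, mul_one, zero_add] at h8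
        exact (mul_eq_zero.1 h8.symm).resolve_left hν
      refine h5 ⟨?_, h9, h7⟩
      rw [h9, zero_mul] at h4
      exact mul_self_eq_zero.1 h4
    · intro x y hx hy
      rw [map_add, hx, hy, add_zero]
    · intro c x hx
      rw [map_smul, hx, smul_zero]
  apply LinearMap.ext
  intro z
  rw [LinearMap.zero_apply]
  have h4 := h0 ((2⁻¹ : F) • (z + zᵀ)) (by
    rw [transpose_smul, transpose_add, transpose_transpose, add_comm])
  obtain ⟨l, hl⟩ : ∃ l, 2 * m - 1 = l + 1 := ⟨2 * m - 2, by omega⟩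
  rw [hl, pow_succ, Module.End.mul_apply] at h4 ⊢
  rw [map_smul, map_add, hR.ti, ← two_smul F, smul_smul, inv_mul_cancel₀ two_ne_zero,
    one_smul] at h4
  exact h4

end Pool.Agent.MP_f4742e_al.XN
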