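import Pool.Agent.Lib.MP_f4742e_al.HLA
import Pool.Agent.Lib.MP_f4742e_al.X.AD
import Pool.Agent.Lib.MP_f4742e_al.X.Count

/-!
Module Gamma: the form of `b s v` and `b s w`.
-/

set_option autoImplicit false

namespace Pool.Agent.MP_f4742e_al.XN

open Matrix

section Gamma

variable {F : Type*} [Field F] {n : ℕ}

/-- The symmetric matrices supported on `span (v, w)`. -/
def E3 (v w : Fin n → F) (a b c : F) : Matrix (Fin n) (Fin n) F :=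
  a • vecMulVec v v + b • vecMulVec w w + c • (vecMulVec v w + vecMulVec w v)

theorem E3_add (v w : Fin n → F) (a b c a' b' c' : F) :
    E3 v w a b c + E3 v w a' b' c' = E3 v w (a + a') (b + b') (c + c') := by
  unfold E3
  module

theorem E3_smul (v w : Fin n → F) (t a b c : F) :
    t • E3 v w a b c = E3 v w (t * a) (t * b) (t * c) := by
  unfold E3
  module

theorem E3_tr (v w : Fin n → F) (a b c : F) : (E3 v w a b c)ᵀ = E3 v w a b c := by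
  unfold E3
  simp only [transpose_add, transpose_smul, transpose_vecMulVec]
  rw [add_comm (vecMulVec w v)]

theorem E3_inj {v w v0 w0 : Fin n → F} (h1 : v0 ⬝ᵥ v = 1) (h2 : v0 ⬝ᵥ w = 0) (h3 : w0 ⬝ᵥ v = 0)
    (h4 : w0 ⬝ᵥ w = 1) {a b c a' b' c' : F} (h : E3 v w a b c = E3 v w a' b' c') :
    a = a' ∧ b = b' ∧ c = c' := by
  have h5 : v ⬝ᵥ v0 = 1 := by rw [dotProduct_comm, h1]
  have h6 : w ⬝ᵥ v0 = 0 := by rw [dotProduct_comm, h2]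
  have h7 : v ⬝ᵥ w0 = 0 := by rw [dotProduct_comm, h3]
  have h8 : w ⬝ᵥ w0 = 1 := by rw [dotProduct_comm, h4]
  refine ⟨?_, ?_, ?_⟩
  · have := congrArg (fun M => v0 ⬝ᵥ (M *ᵥ v0)) h
    simpa [E3, add_mulVec, smul_mulVec, vmv_mulVec, dotProduct_add, h1, h2, h3, h4, h5, h6, h7, h8]
      using this
  · have := congrArg (fun M => w0 ⬝ᵥ (M *ᵥ w0)) h
    simpa [E3, add_mulVec, smul_mulVec, vmv_mulVec, dotProduct_add, h1, h2, h3, h4, h5, h6, h7, h8]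
      using this
  · have := congrArg (fun M => v0 ⬝ᵥ (M *ᵥ w0)) h
    simpa [E3, add_mulVec, smul_mulVec, vmv_mulVec, dotProduct_add, h1, h2, h3, h4, h5, h6, h7, h8]
      using this

end Gamma

section Gamma2

variable {F : Type*} [Field F] [CharZero F] {n : ℕ}
  {R : Matrix (Fin n) (Fin n) F →ₗ[F] Matrix (Fin n) (Fin n) F} (hR : SRB R) {m : ℕ}
  {v w v1 w1 v0 w0 : Fin n → F}

include hR

/-- `R (v wᵀ) = 0`. -/
theorem Bf_vw (D : AD (R 1) m v w v1 w1 v0 w0) : R (vecMulVec v w) = 0 := by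
  have hm := D.hm
  have h1 := R_e hR.rb (m := m) (by omega) D.am
  rw [D.e, map_add, ← Bf_apply, ← Bf_apply, Bf_comm hR w v, ← two_smul F] at h1
  exact (smul_eq_zero.1 h1).resolve_left two_ne_zero

/-- The images are isotropic on `E`. -/
theorem iso_E (D : AD (R 1) m v w v1 w1 v0 w0) (h1 : R (vecMulVec v v) = 0)
    (h2 : R (vecMulVec w w) = 0) (x : Matrix (Fin n) (Fin n) F) :
    v ⬝ᵥ (R x *ᵥ v) = 0 ∧ v ⬝ᵥ (R x *ᵥ w) = 0 ∧ w ⬝ᵥ (R x *ᵥ w) = 0 := by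
  have hm := D.hm
  have h3 := Bf_vw hR D
  have h3' : R (vecMulVec w v) = 0 := by rw [← Bf_apply, Bf_comm hR, Bf_apply, h3]
  have h4 := R_exe hR.rb (m := m) (by omega) D.am x
  have h5 : R ((R 1) ^ (m - 1) * x * (R 1) ^ (m - 1)) = 0 := by
    have h6 : (R 1) ^ (m - 1) * x * (R 1) ^ (m - 1) =
        (w ⬝ᵥ (x *ᵥ v)) • vecMulVec v w + (v ⬝ᵥ (x *ᵥ v)) • vecMulVec w w +
        ((w ⬝ᵥ (x *ᵥ w)) • vecMulVec v v + (v ⬝ᵥ (x *ᵥ w)) • vecMulVec w v) := by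
      conv_lhs => rw [D.e]
      rw [mul_add, mul_vecMulVec, mul_vecMulVec]
      have h7 : ∀ y : Fin n → F, ((vecMulVec v w + vecMulVec w v) * x) *ᵥ y =
          (w ⬝ᵥ (x *ᵥ y)) • v + (v ⬝ᵥ (x *ᵥ y)) • w := by
        intro y
        rw [← mulVec_mulVec, add_mulVec, vmv_mulVec, vmv_mulVec]
      rw [h7, h7, add_vecMulVec, add_vecMulVec, smul_vecMulVec, smul_vecMulVec, smul_vecMulVec,
        smul_vecMulVec]
    rw [h6]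
    simp only [map_add, map_smul, h1, h2, h3, h3', smul_zero, add_zero]
  rw [h5] at h4
  have h8 : ∀ y z : Fin n → F, ((R 1) ^ (m - 1) *ᵥ y) ⬝ᵥ (R x *ᵥ ((R 1) ^ (m - 1) *ᵥ z)) = 0 := by
    intro y z
    rw [dot_symm (hR.a_tr _), mulVec_mulVec, mulVec_mulVec, ← h4, zero_mulVec, dotProduct_zero]
  refine ⟨?_, ?_, ?_⟩
  · have := h8 w0 w0
    rwa [D.e_w0] at this
  · have := h8 w0 v0
    rwa [D.e_w0, D.e_v0] at this
  · have := h8 v0 v0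
    rwa [D.e_v0] at this


omit [CharZero F] hR in
theorem symm_dot {x : Matrix (Fin n) (Fin n) F} (hx : xᵀ = x) (y z : Fin n → F) :
    y ⬝ᵥ (x *ᵥ z) = z ⬝ᵥ (x *ᵥ y) := dot_symm' hx y z

/-- `b s v` and `b s w`. -/
theorem b_s_v (D : AD (R 1) m v w v1 w1 v0 w0) (h1 : R (vecMulVec v v) = 0)
    (h2 : R (vecMulVec w w) = 0) (x : Matrix (Fin n) (Fin n) F) :
    (R 1) ^ (m - 2) *ᵥ (R x *ᵥ v) = (w1 ⬝ᵥ (R x *ᵥ v)) • v + (v1 ⬝ᵥ (R x *ᵥ v)) • w := by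
  obtain ⟨h3, h4, h5⟩ := iso_E hR D h1 h2 x
  rw [D.b_mulVec, h3, symm_dot (hR.tr x) w v, h4]
  module

theorem b_s_w (D : AD (R 1) m v w v1 w1 v0 w0) (h1 : R (vecMulVec v v) = 0)
    (h2 : R (vecMulVec w w) = 0) (x : Matrix (Fin n) (Fin n) F) :
    (R 1) ^ (m - 2) *ᵥ (R x *ᵥ w) = (w1 ⬝ᵥ (R x *ᵥ w)) • v + (v1 ⬝ᵥ (R x *ᵥ w)) • w := by
  obtain ⟨h3, h4, h5⟩ := iso_E hR D h1 h2 x
  rw [D.b_mulVec, h4, h5]
  module

omit [CharZero F] hR in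
theorem R_mul_vmv (c x : Matrix (Fin n) (Fin n) F) (y z : Fin n → F) :
    R (c * x * vecMulVec y z) = Bf R (c *ᵥ (x *ᵥ y)) z := by
  rw [mul_vecMulVec, ← mulVec_mulVec, Bf_apply]

/-- The left-hand side of the main identity. -/
theorem lhs_form (D : AD (R 1) m v w v1 w1 v0 w0) (h1 : R (vecMulVec v v) = 0)
    (h2 : R (vecMulVec w w) = 0) (x : Matrix (Fin n) (Fin n) F) (a b c : F) :
    (R 1) ^ (m - 2) * R x * E3 v w a b c + E3 v w a b c * R x * (R 1) ^ (m - 2) =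
      E3 v w (2 * (a * (w1 ⬝ᵥ (R x *ᵥ v)) + c * (w1 ⬝ᵥ (R x *ᵥ w))))
        (2 * (b * (v1 ⬝ᵥ (R x *ᵥ w)) + c * (v1 ⬝ᵥ (R x *ᵥ v))))
        (b * (w1 ⬝ᵥ (R x *ᵥ w)) + c * (w1 ⬝ᵥ (R x *ᵥ v) + v1 ⬝ᵥ (R x *ᵥ w)) +
          a * (v1 ⬝ᵥ (R x *ᵥ v))) := by
  have h3 := b_s_v hR D h1 h2 x
  have h4 := b_s_w hR D h1 h2 x
  have h5 : ∀ y z : Fin n → F, (R 1) ^ (m - 2) * R x * vecMulVec y z =
      vecMulVec ((R 1) ^ (m - 2) *ᵥ (R x *ᵥ y)) z := by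
    intro y z
    rw [mul_vecMulVec, ← mulVec_mulVec]
  have h6 : ∀ y z : Fin n → F, vecMulVec y z * R x * (R 1) ^ (m - 2) =
      vecMulVec y ((R 1) ^ (m - 2) *ᵥ (R x *ᵥ z)) := by
    intro y z
    rw [vmv_mul (hR.tr x), vmv_mul (hR.a_tr _)]
  unfold E3
  simp only [mul_add, add_mul, Matrix.mul_smul, Matrix.smul_mul, h5, h6, h3, h4, add_vecMulVec,
    vecMulVec_add, smul_vecMulVec, vecMulVec_smul]
  module

/-- The term `R (b x z)`. -/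
theorem Rbxz (D : AD (R 1) m v w v1 w1 v0 w0) (h1 : R (vecMulVec v v) = 0)
    (h2 : R (vecMulVec w w) = 0) {x : Matrix (Fin n) (Fin n) F} (hx : xᵀ = x) (a b c : F) :
    R ((R 1) ^ (m - 2) * x * E3 v w a b c) =
      a • ((v ⬝ᵥ (x *ᵥ v)) • Bf R v w1 + (v ⬝ᵥ (x *ᵥ w)) • Bf R v v1) +
      b • ((v ⬝ᵥ (x *ᵥ w)) • Bf R w w1 + (w ⬝ᵥ (x *ᵥ w)) • Bf R w v1) +
      c • ((v ⬝ᵥ (x *ᵥ v)) • Bf R w w1 + (v ⬝ᵥ (x *ᵥ w)) • (Bf R w v1 + Bf R v w1) +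
        (w ⬝ᵥ (x *ᵥ w)) • Bf R v v1) := by
  have h3 := Bf_vw hR D
  have h3' : R (vecMulVec w v) = 0 := by rw [← Bf_apply, Bf_comm hR, Bf_apply, h3]
  rw [← Bf_apply] at h1 h2 h3 h3'
  unfold E3
  simp only [mul_add, Matrix.mul_smul, map_add, map_smul, R_mul_vmv, D.b_mulVec,
    LinearMap.add_apply, LinearMap.smul_apply, h1, h2, h3, h3', symm_dot hx w v,
    Bf_comm hR v1 _, Bf_comm hR w1 _]
  module

/-- The term `R (b s ζ)`. -/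
theorem Rbsz (D : AD (R 1) m v w v1 w1 v0 w0) (h1 : R (vecMulVec v v) = 0)
    (h2 : R (vecMulVec w w) = 0) (x : Matrix (Fin n) (Fin n) F) (c1 c2 c3 c4 : F) :
    R ((R 1) ^ (m - 2) * R x * (c1 • (vecMulVec v v1 + vecMulVec v1 v) +
      c2 • (vecMulVec w w1 + vecMulVec w1 w) + c3 • (vecMulVec v w1 + vecMulVec w1 v) +
      c4 • (vecMulVec w v1 + vecMulVec v1 w))) =
      c1 • ((w1 ⬝ᵥ (R x *ᵥ v) + v1 ⬝ᵥ (R x *ᵥ w)) • Bf R v v1 +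
        (v1 ⬝ᵥ (R x *ᵥ v)) • (Bf R v w1 + Bf R w v1)) +
      c2 • ((w1 ⬝ᵥ (R x *ᵥ v) + v1 ⬝ᵥ (R x *ᵥ w)) • Bf R w w1 +
        (w1 ⬝ᵥ (R x *ᵥ w)) • (Bf R v w1 + Bf R w v1)) +
      c3 • ((2 * (w1 ⬝ᵥ (R x *ᵥ v))) • Bf R v w1 + (w1 ⬝ᵥ (R x *ᵥ w)) • Bf R v v1 +
        (v1 ⬝ᵥ (R x *ᵥ v)) • Bf R w w1) +
      c4 • ((2 * (v1 ⬝ᵥ (R x *ᵥ w))) • Bf R w v1 + (w1 ⬝ᵥ (R x *ᵥ w)) • Bf R v v1 +
        (v1 ⬝ᵥ (R x *ᵥ v)) • Bf R w w1) := by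
  have h3 := Bf_vw hR D
  have h3' : R (vecMulVec w v) = 0 := by rw [← Bf_apply, Bf_comm hR, Bf_apply, h3]
  obtain ⟨h4, h5, h6⟩ := iso_E hR D h1 h2 x
  rw [← Bf_apply] at h1 h2 h3 h3'
  simp only [mul_add, Matrix.mul_smul, map_add, map_smul, R_mul_vmv, D.b_mulVec,
    LinearMap.add_apply, LinearMap.smul_apply, h1, h2, h3, h3', h4, h5, h6,
    symm_dot (hR.tr x) w v, symm_dot (hR.tr x) v v1, symm_dot (hR.tr x) v w1,
    symm_dot (hR.tr x) w v1, symm_dot (hR.tr x) w w1, Bf_comm hR v1 v, Bf_comm hR v1 w,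
    Bf_comm hR w1 v, Bf_comm hR w1 w]
  module

/-- The master identity. -/
theorem master (D : AD (R 1) m v w v1 w1 v0 w0) (h1 : R (vecMulVec v v) = 0)
    (h2 : R (vecMulVec w w) = 0) {x : Matrix (Fin n) (Fin n) F} (hx : xᵀ = x)
    (a b c c1 c2 c3 c4 : F)
    (hz : E3 v w a b c = (2 : F) • (c1 • Bf R v v1 + c2 • Bf R w w1 + c3 • Bf R v w1 +
      c4 • Bf R w v1)) :
    E3 v w (2 * (a * (w1 ⬝ᵥ (R x *ᵥ v)) + c * (w1 ⬝ᵥ (R x *ᵥ w))))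
        (2 * (b * (v1 ⬝ᵥ (R x *ᵥ w)) + c * (v1 ⬝ᵥ (R x *ᵥ v))))
        (b * (w1 ⬝ᵥ (R x *ᵥ w)) + c * (w1 ⬝ᵥ (R x *ᵥ v) + v1 ⬝ᵥ (R x *ᵥ w)) +
          a * (v1 ⬝ᵥ (R x *ᵥ v))) =
      (2 : F) • (a • ((v ⬝ᵥ (x *ᵥ v)) • Bf R v w1 + (v ⬝ᵥ (x *ᵥ w)) • Bf R v v1) +
      b • ((v ⬝ᵥ (x *ᵥ w)) • Bf R w w1 + (w ⬝ᵥ (x *ᵥ w)) • Bf R w v1) +
      c • ((v ⬝ᵥ (x *ᵥ v)) • Bf R w w1 + (v ⬝ᵥ (x *ᵥ w)) • (Bf R w v1 + Bf R v w1) +
        (w ⬝ᵥ (x *ᵥ w)) • Bf R v v1) +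
      (c1 • ((w1 ⬝ᵥ (R x *ᵥ v) + v1 ⬝ᵥ (R x *ᵥ w)) • Bf R v v1 +
        (v1 ⬝ᵥ (R x *ᵥ v)) • (Bf R v w1 + Bf R w v1)) +
      c2 • ((w1 ⬝ᵥ (R x *ᵥ v) + v1 ⬝ᵥ (R x *ᵥ w)) • Bf R w w1 +
        (w1 ⬝ᵥ (R x *ᵥ w)) • (Bf R v w1 + Bf R w v1)) +
      c3 • ((2 * (w1 ⬝ᵥ (R x *ᵥ v))) • Bf R v w1 + (w1 ⬝ᵥ (R x *ᵥ w)) • Bf R v v1 +
        (v1 ⬝ᵥ (R x *ᵥ v)) • Bf R w w1) +
      c4 • ((2 * (v1 ⬝ᵥ (R x *ᵥ w))) • Bf R w v1 + (w1 ⬝ᵥ (R x *ᵥ w)) • Bf R v v1 +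
        (v1 ⬝ᵥ (R x *ᵥ v)) • Bf R w w1))) := by
  have h3 := Bf_vw hR D
  have h3' : R (vecMulVec w v) = 0 := by rw [← Bf_apply, Bf_comm hR, Bf_apply, h3]
  have h4 : R (E3 v w a b c) = 0 := by
    unfold E3
    simp only [map_add, map_smul, h1, h2, h3, h3', smul_zero, add_zero]
  have h5 : (c1 • (vecMulVec v v1 + vecMulVec v1 v) +
      c2 • (vecMulVec w w1 + vecMulVec w1 w) + c3 • (vecMulVec v w1 + vecMulVec w1 v) +
      c4 • (vecMulVec w v1 + vecMulVec v1 w))ᵀ = c1 • (vecMulVec v v1 + vecMulVec v1 v) +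
      c2 • (vecMulVec w w1 + vecMulVec w1 w) + c3 • (vecMulVec v w1 + vecMulVec w1 v) +
      c4 • (vecMulVec w v1 + vecMulVec v1 w) := by
    simp only [transpose_add, transpose_smul, transpose_vecMulVec]
    module
  have h6 : R (c1 • (vecMulVec v v1 + vecMulVec v1 v) +
      c2 • (vecMulVec w w1 + vecMulVec w1 w) + c3 • (vecMulVec v w1 + vecMulVec w1 v) +
      c4 • (vecMulVec w v1 + vecMulVec v1 w)) = E3 v w a b c := by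
    rw [hz]
    simp only [map_add, map_smul, ← Bf_apply, Bf_comm hR v1 v, Bf_comm hR v1 w,
      Bf_comm hR w1 v, Bf_comm hR w1 w]
    module
  have h7 := hR.T1 (m - 2) hx h4 h5 h6
  rw [lhs_form hR D h1 h2, Rbxz hR D h1 h2 hx, Rbsz hR D h1 h2] at h7
  exact h7


/-- The sum `B(v, w1) + B(w, v1)`. -/
theorem sum_vw (D : AD (R 1) m v w v1 w1 v0 w0) :
    (2 * ((m : F) - 1)) • (Bf R v w1 + Bf R w v1) = E3 v w 0 0 1 := by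
  have hm := D.hm
  have h1 := R_b hR.rb (m := m) (by omega)
  have h3 : ((m : F) - 1) ≠ 0 := by
    have h4 : ((m - 1 : ℕ) : F) ≠ 0 := Nat.cast_ne_zero.2 (by omega)
    rwa [Nat.cast_sub (by omega), Nat.cast_one] at h4
  have h2 : ((m : F) - 1) • R ((R 1) ^ (m - 2)) = (R 1) ^ (m - 1) := by
    rw [h1, smul_smul, mul_inv_cancel₀ h3, one_smul]
  rw [D.e] at h2
  rw [D.b] at h2
  simp only [map_add, ← Bf_apply, Bf_comm hR v1 w, Bf_comm hR w1 v] at h2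
  unfold E3
  linear_combination (norm := module) h2

/-- The identity (T1b). -/
theorem t1b (D : AD (R 1) m v w v1 w1 v0 w0) (h1 : R (vecMulVec v v) = 0)
    (h2 : R (vecMulVec w w) = 0) {x : Matrix (Fin n) (Fin n) F} (hx : xᵀ = x) {κ : F}
    (hκ : κ = 2 * ((m : F) - 1)) :
    E3 v w (κ * (w1 ⬝ᵥ (R x *ᵥ w))) (κ * (v1 ⬝ᵥ (R x *ᵥ v))) (-(v ⬝ᵥ (x *ᵥ w))) =
      (w ⬝ᵥ (x *ᵥ w) + κ * (w1 ⬝ᵥ (R x *ᵥ w))) • (κ • Bf R v v1) +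
      (v ⬝ᵥ (x *ᵥ v) + κ * (v1 ⬝ᵥ (R x *ᵥ v))) • (κ • Bf R w w1) +
      (κ * (w1 ⬝ᵥ (R x *ᵥ v) - v1 ⬝ᵥ (R x *ᵥ w)) / 2) • (κ • (Bf R v w1 - Bf R w v1)) := by
  have h3 := sum_vw hR D
  rw [← hκ] at h3
  have h4 := master hR D h1 h2 hx 0 0 1 0 0 (κ / 2) (κ / 2) (by
    rw [← h3]
    module)
  unfold E3 at h3 h4 ⊢
  linear_combination (norm := module) (κ / 2) • h4 + (v ⬝ᵥ (x *ᵥ w) +
    κ * (w1 ⬝ᵥ (R x *ᵥ v) + v1 ⬝ᵥ (R x *ᵥ w)) / 2) • h3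

/-- The matrix coefficient functionals. -/
def fnl (y z : Fin n → F) : Matrix (Fin n) (Fin n) F →ₗ[F] F where
  toFun M := y ⬝ᵥ (M *ᵥ z)
  map_add' M N := by rw [add_mulVec, dotProduct_add]
  map_smul' c M := by rw [smul_mulVec, dotProduct_smul, RingHom.id_apply]

/-- Surjectivity. -/
theorem surj (D : AD (R 1) m v w v1 w1 v0 w0) (h1 : R (vecMulVec v v) = 0)
    (h2 : R (vecMulVec w w) = 0) {κ : F} (hκ : κ = 2 * ((m : F) - 1)) (t1 t2 t0 : F) :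
    ∃ x : Matrix (Fin n) (Fin n) F, xᵀ = x ∧ w ⬝ᵥ (x *ᵥ w) + κ * (w1 ⬝ᵥ (R x *ᵥ w)) = t1 ∧
      v ⬝ᵥ (x *ᵥ v) + κ * (v1 ⬝ᵥ (R x *ᵥ v)) = t2 ∧
      κ * (w1 ⬝ᵥ (R x *ᵥ v) - v1 ⬝ᵥ (R x *ᵥ w)) / 2 = t0 := by
  let X : (Fin 3 → F) →ₗ[F] Matrix (Fin n) (Fin n) F :=
    { toFun := fun c => c 0 • vecMulVec w0 w0 + c 1 • vecMulVec v0 v0 +
        c 2 • (vecMulVec v0 w0 + vecMulVec w0 v0)
      map_add' := by
        intro c d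
        simp only [Pi.add_apply]
        module
      map_smul' := by
        intro c d
        simp only [Pi.smul_apply, smul_eq_mul, RingHom.id_apply]
        module }
  have hXs : ∀ c, (X c)ᵀ = X c := by
    intro c
    change (c 0 • vecMulVec w0 w0 + c 1 • vecMulVec v0 v0 +
        c 2 • (vecMulVec v0 w0 + vecMulVec w0 v0))ᵀ = c 0 • vecMulVec w0 w0 +
        c 1 • vecMulVec v0 v0 + c 2 • (vecMulVec v0 w0 + vecMulVec w0 v0)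
    simp only [transpose_add, transpose_smul, transpose_vecMulVec]
    module
  have e1 : v ⬝ᵥ v0 = 1 := by rw [dotProduct_comm, D.v0v]
  have e2 : w ⬝ᵥ v0 = 0 := by rw [dotProduct_comm, D.v0w]
  have e3 : v ⬝ᵥ w0 = 0 := by rw [dotProduct_comm, D.w0v]
  have e4 : w ⬝ᵥ w0 = 1 := by rw [dotProduct_comm, D.w0w]
  have hX : ∀ c, w ⬝ᵥ (X c *ᵥ w) = c 0 ∧ v ⬝ᵥ (X c *ᵥ v) = c 1 ∧ v ⬝ᵥ (X c *ᵥ w) = c 2 := by
    intro c
    change w ⬝ᵥ ((c 0 • vecMulVec w0 w0 + c 1 • vecMulVec v0 v0 +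
        c 2 • (vecMulVec v0 w0 + vecMulVec w0 v0)) *ᵥ w) = c 0 ∧
      v ⬝ᵥ ((c 0 • vecMulVec w0 w0 + c 1 • vecMulVec v0 v0 +
        c 2 • (vecMulVec v0 w0 + vecMulVec w0 v0)) *ᵥ v) = c 1 ∧
      v ⬝ᵥ ((c 0 • vecMulVec w0 w0 + c 1 • vecMulVec v0 v0 +
        c 2 • (vecMulVec v0 w0 + vecMulVec w0 v0)) *ᵥ w) = c 2
    simp [add_mulVec, smul_mulVec, vmv_mulVec, dotProduct_add, e1, e2, e3, e4, D.v0v, D.v0w,
      D.w0v, D.w0w]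
  let L : (Fin 3 → F) →ₗ[F] (Fin 3 → F) := LinearMap.pi ![
    (fnl w w).comp X + κ • ((fnl w1 w).comp (R.comp X)),
    (fnl v v).comp X + κ • ((fnl v1 v).comp (R.comp X)),
    (κ / 2) • ((fnl w1 v).comp (R.comp X) - (fnl v1 w).comp (R.comp X))]
  have hL0 : ∀ c, L c 0 = w ⬝ᵥ (X c *ᵥ w) + κ * (w1 ⬝ᵥ (R (X c) *ᵥ w)) := fun c => rfl
  have hL1 : ∀ c, L c 1 = v ⬝ᵥ (X c *ᵥ v) + κ * (v1 ⬝ᵥ (R (X c) *ᵥ v)) := fun c => rfl
  have hL2 : ∀ c, L c 2 = (κ / 2) * (w1 ⬝ᵥ (R (X c) *ᵥ v) - v1 ⬝ᵥ (R (X c) *ᵥ w)) := fun c => rfl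
  have hinj : Function.Injective L := by
    rw [← LinearMap.ker_eq_bot, LinearMap.ker_eq_bot']
    intro c hc
    have g0 := hL0 c
    have g1 := hL1 c
    have g2 := hL2 c
    rw [hc, Pi.zero_apply] at g0 g1 g2
    have h3 := t1b hR D h1 h2 (hXs c) hκ
    rw [← g0, ← g1, show κ * (w1 ⬝ᵥ (R (X c) *ᵥ v) - v1 ⬝ᵥ (R (X c) *ᵥ w)) / 2 = 0 by
      rw [g2]; ring, zero_smul, zero_smul, zero_smul, add_zero, add_zero] at h3
    have h4 : E3 v w (κ * (w1 ⬝ᵥ (R (X c) *ᵥ w))) (κ * (v1 ⬝ᵥ (R (X c) *ᵥ v)))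
        (-(v ⬝ᵥ (X c *ᵥ w))) = E3 v w 0 0 0 := by
      rw [h3]
      unfold E3
      module
    obtain ⟨h5, h6, h7⟩ := E3_inj D.v0v D.v0w D.w0v D.w0w h4
    obtain ⟨h8, h9, h10⟩ := hX c
    rw [h5, h8, add_zero] at g0
    rw [h6, h9, add_zero] at g1
    rw [h10, neg_eq_zero] at h7
    funext i
    fin_cases i
    · exact g0.symm
    · exact g1.symm
    · exact h7
  have hsurj := LinearMap.injective_iff_surjective.1 hinj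
  obtain ⟨c, hc⟩ := hsurj ![t1, t2, t0]
  refine ⟨X c, hXs c, ?_, ?_, ?_⟩
  · rw [← hL0, hc]
    rfl
  · rw [← hL1, hc]
    rfl
  · have := hL2 c
    rw [hc] at this
    have h8 : (![t1, t2, t0] : Fin 3 → F) 2 = t0 := rfl
    rw [h8] at this
    rw [this]
    ring


/-- The scalar equations for a general `z`. -/
theorem eqs (D : AD (R 1) m v w v1 w1 v0 w0) (h1 : R (vecMulVec v v) = 0)
    (h2 : R (vecMulVec w w) = 0) {κ : F} (hκ : κ = 2 * ((m : F) - 1))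
    {p1 p2 p0 q1 q2 q0 j1 j2 j0 : F} (hP : κ • Bf R v v1 = E3 v w p1 p2 p0)
    (hQ : κ • Bf R w w1 = E3 v w q1 q2 q0)
    (hJ : κ • (Bf R v w1 - Bf R w v1) = E3 v w j1 j2 j0)
    (a b c c1 c2 c3 : F)
    (hz : E3 v w a b c = c1 • E3 v w p1 p2 p0 + c2 • E3 v w q1 q2 q0 + c3 • E3 v w j1 j2 j0)
    (t1 t2 t0 : F) : ∃ G12 G21 Xe X12 X21 : F,
      G12 = t1 * p1 + t2 * q1 + t0 * j1 ∧ G21 = t1 * p2 + t2 * q2 + t0 * j2 ∧
      Xe = -(t1 * p0 + t2 * q0 + t0 * j0) ∧ X12 = t1 - G12 ∧ X21 = t2 - G21 ∧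
      a * t0 + c * G12 = a * (X21 * j1 / 2 + Xe * p1) + b * (Xe * q1 - X12 * j1 / 2) +
        c * (X21 * q1 + X12 * p1) ∧
      -(b * t0) + c * G21 = a * (X21 * j2 / 2 + Xe * p2) + b * (Xe * q2 - X12 * j2 / 2) +
        c * (X21 * q2 + X12 * p2) ∧
      (b * G12 + a * G21) / 2 = a * (X21 * (1 + j0) / 2 + Xe * p0) +
        b * (Xe * q0 + X12 * (1 - j0) / 2) + c * (X21 * q0 + Xe + X12 * p0) +
        (c1 * (G21 / 2) + c2 * (G12 / 2) + c3 * t0) := by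
  obtain ⟨x, hx, hx1, hx2, hx3⟩ := surj hR D h1 h2 hκ t1 t2 t0
  have h3 := sum_vw hR D
  rw [← hκ] at h3
  have h4 := t1b hR D h1 h2 hx hκ
  rw [hx1, hx2, hx3, hP, hQ, hJ, E3_smul, E3_smul, E3_smul, E3_add, E3_add] at h4
  obtain ⟨h5, h6, h7⟩ := E3_inj D.v0v D.v0w D.w0v D.w0w h4
  have hz' : E3 v w a b c = (2 : F) • ((c1 * κ / 2) • Bf R v v1 + (c2 * κ / 2) • Bf R w w1 +
      (c3 * κ / 2) • Bf R v w1 + (-(c3 * κ / 2)) • Bf R w v1) := by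
    rw [hz, ← hP, ← hQ, ← hJ]
    module
  have h8 := master hR D h1 h2 hx a b c _ _ _ _ hz'
  have hVW : κ • Bf R v w1 = E3 v w (j1 / 2) (j2 / 2) ((1 + j0) / 2) := by
    have : κ • Bf R v w1 = (2⁻¹ : F) • (κ • (Bf R v w1 + Bf R w v1) +
        κ • (Bf R v w1 - Bf R w v1)) := by
      module
    rw [this, h3, hJ, E3_add, E3_smul]
    congr 1 <;> ring
  have hWV : κ • Bf R w v1 = E3 v w (-j1 / 2) (-j2 / 2) ((1 - j0) / 2) := by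
    have : κ • Bf R w v1 = (2⁻¹ : F) • (κ • (Bf R v w1 + Bf R w v1) +
        (-1 : F) • (κ • (Bf R v w1 - Bf R w v1))) := by
      module
    rw [this, h3, hJ, E3_smul, E3_add, E3_smul]
    congr 1 <;> ring
  refine ⟨κ * (w1 ⬝ᵥ (R x *ᵥ w)), κ * (v1 ⬝ᵥ (R x *ᵥ v)), v ⬝ᵥ (x *ᵥ w), w ⬝ᵥ (x *ᵥ w),
    v ⬝ᵥ (x *ᵥ v), h5, h6, ?_, ?_, ?_, ?_⟩
  · linear_combination -h7
  · rw [← hx1]
    ring
  · rw [← hx2]
    ring
  generalize hg11 : w1 ⬝ᵥ (R x *ᵥ v) = g11 at *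
  generalize hg12 : w1 ⬝ᵥ (R x *ᵥ w) = g12 at *
  generalize hg21 : v1 ⬝ᵥ (R x *ᵥ v) = g21 at *
  generalize hg22 : v1 ⬝ᵥ (R x *ᵥ w) = g22 at *
  generalize hXe : v ⬝ᵥ (x *ᵥ w) = Xe at *
  generalize hX12 : w ⬝ᵥ (x *ᵥ w) = X12 at *
  generalize hX21 : v ⬝ᵥ (x *ᵥ v) = X21 at *
  have h9 : E3 v w (κ * (2 * (a * g11 + c * g12))) (κ * (2 * (b * g22 + c * g21)))
      (κ * (b * g12 + c * (g11 + g22) + a * g21)) =
      (2 * a * X21) • (κ • Bf R v w1) + (2 * a * Xe) • (κ • Bf R v v1) +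
      (2 * b * Xe) • (κ • Bf R w w1) + (2 * b * X12) • (κ • Bf R w v1) +
      (2 * c * X21) • (κ • Bf R w w1) + (2 * c * Xe) • (κ • Bf R w v1) +
      (2 * c * Xe) • (κ • Bf R v w1) + (2 * c * X12) • (κ • Bf R v v1) +
      (κ * (g11 + g22)) • (c1 • (κ • Bf R v v1) + c2 • (κ • Bf R w w1)) +
      (κ * (c1 * g21 + c2 * g12)) • (κ • Bf R v w1 + κ • Bf R w v1) +
      (c3 * κ * (2 * g11)) • (κ • Bf R v w1) - (c3 * κ * (2 * g22)) • (κ • Bf R w v1) := by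
    rw [← E3_smul, h8]
    module
  rw [hP, hQ, hVW, hWV, E3_smul, E3_smul] at h9
  have h10 : E3 v w a b c = E3 v w (c1 * p1 + c2 * q1 + c3 * j1) (c1 * p2 + c2 * q2 + c3 * j2)
      (c1 * p0 + c2 * q0 + c3 * j0) := by
    rw [hz, E3_smul, E3_smul, E3_smul, E3_add, E3_add]
  obtain ⟨ea, eb, ec⟩ := E3_inj D.v0v D.v0w D.w0v D.w0w h10
  have h11 : E3 v w (κ * (2 * (a * g11 + c * g12))) (κ * (2 * (b * g22 + c * g21)))
      (κ * (b * g12 + c * (g11 + g22) + a * g21)) = E3 v w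
      ((2 * a * X21) * (j1 / 2) + (2 * a * Xe) * p1 + (2 * b * Xe) * q1 +
        (2 * b * X12) * (-j1 / 2) + (2 * c * X21) * q1 + (2 * c * X12) * p1 +
        (κ * (g11 + g22)) * (c1 * p1 + c2 * q1) + (c3 * κ * (g11 + g22)) * j1)
      ((2 * a * X21) * (j2 / 2) + (2 * a * Xe) * p2 + (2 * b * Xe) * q2 +
        (2 * b * X12) * (-j2 / 2) + (2 * c * X21) * q2 + (2 * c * X12) * p2 +
        (κ * (g11 + g22)) * (c1 * p2 + c2 * q2) + (c3 * κ * (g11 + g22)) * j2)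
      ((2 * a * X21) * ((1 + j0) / 2) + (2 * a * Xe) * p0 + (2 * b * Xe) * q0 +
        (2 * b * X12) * ((1 - j0) / 2) + (2 * c * X21) * q0 + 2 * c * Xe + (2 * c * X12) * p0 +
        (κ * (g11 + g22)) * (c1 * p0 + c2 * q0) + κ * (c1 * g21 + c2 * g12) +
        (c3 * κ * (g11 + g22)) * j0 + c3 * κ * (g11 - g22)) := by
    rw [h9]
    unfold E3
    module
  obtain ⟨k1, k2, k0⟩ := E3_inj D.v0v D.v0w D.w0v D.w0w h11
  refine ⟨?_, ?_, ?_⟩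
  · linear_combination (1 / 2) * k1 - (κ * (g11 + g22) / 2) * ea - a * hx3
  · linear_combination (1 / 2) * k2 - (κ * (g11 + g22) / 2) * eb + b * hx3
  · linear_combination (1 / 2) * k0 - (κ * (g11 + g22) / 2) * ec + c3 * hx3


/-- The structure constants. -/
theorem consts (D : AD (R 1) m v w v1 w1 v0 w0) (h1 : R (vecMulVec v v) = 0)
    (h2 : R (vecMulVec w w) = 0) {κ : F} (hκ : κ = 2 * ((m : F) - 1)) :
    ∃ j0 : F, j0 * j0 = 1 ∧ ∀ x : Matrix (Fin n) (Fin n) F, xᵀ = x →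
      κ * (w1 ⬝ᵥ (R x *ᵥ w)) = 0 ∧ κ * (v1 ⬝ᵥ (R x *ᵥ v)) = 0 ∧
      κ * (w1 ⬝ᵥ (R x *ᵥ v) - v1 ⬝ᵥ (R x *ᵥ w)) / 2 = -(j0 * (v ⬝ᵥ (x *ᵥ w))) := by
  have key : ∀ t1 t2 t0 : F, ∃ a b c : F, E3 v w a b c = t1 • (κ • Bf R v v1) +
      t2 • (κ • Bf R w w1) + t0 • (κ • (Bf R v w1 - Bf R w v1)) := by
    intro t1 t2 t0
    obtain ⟨x, hx, hx1, hx2, hx3⟩ := surj hR D h1 h2 hκ t1 t2 t0
    have h4 := t1b hR D h1 h2 hx hκ
    rw [hx1, hx2, hx3] at h4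
    exact ⟨_, _, _, h4⟩
  obtain ⟨p1, p2, p0, hP⟩ := key 1 0 0
  obtain ⟨q1, q2, q0, hQ⟩ := key 0 1 0
  obtain ⟨j1, j2, j0, hJ⟩ := key 0 0 1
  rw [one_smul, zero_smul, zero_smul, add_zero, add_zero] at hP
  rw [one_smul, zero_smul, zero_smul, add_zero, zero_add] at hQ
  rw [one_smul, zero_smul, zero_smul, zero_add, zero_add] at hJ
  have hE := eqs hR D h1 h2 hκ hP.symm hQ.symm hJ.symm
  -- `(J, J)`
  obtain ⟨G12, G21, Xe, X12, X21, e1, e2, e3, e4, e5, a1, a2, a3⟩ :=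
    hE j1 j2 j0 0 0 1 (by module) 0 0 1
  have r1 : j0 ≠ 0 := by
    intro h0
    subst h0
    have k1 : j1 = 0 := by
      rw [e4, e5, e3, e2, e1] at a1
      linear_combination a1
    rw [e4, e5, e3, e2, e1, k1] at a3
    have : (1 : F) = 0 := by linear_combination -a3
    exact one_ne_zero this
  have r2 : j0 * j0 + 2 * j1 * j2 + 2 * j0 * (j1 * p0 + j2 * q0) = 1 := by
    rw [e4, e5, e3, e2, e1] at a3
    linear_combination a3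
  clear e1 e2 e3 e4 e5 a1 a2 a3 G12 G21 Xe X12 X21
  -- `(E12, J)` and `(J, E12)`
  obtain ⟨G12, G21, Xe, X12, X21, e1, e2, e3, e4, e5, a1, a2, a3⟩ :=
    hE p1 p2 p0 1 0 0 (by module) 0 0 1
  rw [e4, e5, e3, e2, e1] at a1 a2 a3
  clear e1 e2 e3 e4 e5 G12 G21 Xe X12 X21
  obtain ⟨G12, G21, Xe, X12, X21, e1, e2, e3, e4, e5, b1, b2, b3⟩ :=
    hE j1 j2 j0 0 0 1 (by module) 1 0 0
  rw [e4, e5, e3, e2, e1] at b1 b2 b3
  clear e1 e2 e3 e4 e5 G12 G21 Xe X12 X21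
  have r3 : (j1 * p2 - j2 * p1) + j2 / 2 - p0 = 0 := by
    have : ((j1 * p2 - j2 * p1) + j2 / 2 - p0) * j0 = 0 := by
      linear_combination b3 - a3
    exact (mul_eq_zero.1 this).resolve_right r1
  have r4 : p1 = 0 := by
    linear_combination a1 - b1 + j1 * r3
  have r5 : p2 = 0 := by
    linear_combination -a2 + b2 - j2 * r3
  have r6 : p0 = j2 / 2 := by
    rw [r4, r5] at r3
    linear_combination -r3
  -- `(E21, J)` and `(J, E21)`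
  obtain ⟨G12, G21, Xe, X12, X21, e1, e2, e3, e4, e5, c1, c2, c3⟩ :=
    hE q1 q2 q0 0 1 0 (by module) 0 0 1
  rw [e4, e5, e3, e2, e1] at c1 c2 c3
  clear e1 e2 e3 e4 e5 G12 G21 Xe X12 X21
  obtain ⟨G12, G21, Xe, X12, X21, e1, e2, e3, e4, e5, d1, d2, d3⟩ :=
    hE j1 j2 j0 0 0 1 (by module) 0 1 0
  rw [e4, e5, e3, e2, e1] at d1 d2 d3
  clear e1 e2 e3 e4 e5 G12 G21 Xe X12 X21
  have r7 : (j1 * q2 - j2 * q1) - j1 / 2 - q0 = 0 := by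
    have : ((j1 * q2 - j2 * q1) - j1 / 2 - q0) * j0 = 0 := by
      linear_combination d3 - c3
    exact (mul_eq_zero.1 this).resolve_right r1
  have r8 : q1 = 0 := by
    linear_combination c1 - d1 + j1 * r7
  have r9 : q2 = 0 := by
    linear_combination -c2 + d2 - j2 * r7
  have r10 : q0 = -(j1 / 2) := by
    rw [r8, r9] at r7
    linear_combination -r7
  have r11 : j2 = 0 := by
    rw [r4, r5, r6, r8, r9, r10] at b2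
    have : j2 * j2 = 0 := by linear_combination 2 * b2
    exact mul_self_eq_zero.1 this
  have r12 : j1 = 0 := by
    rw [r4, r5, r6, r8, r9, r10] at d1
    have : j1 * j1 = 0 := by linear_combination (-2) * d1
    exact mul_self_eq_zero.1 this
  have r13 : j0 * j0 = 1 := by
    rw [r11, r12] at r2
    linear_combination r2
  refine ⟨j0, r13, ?_⟩
  intro x hx
  have h4 := t1b hR D h1 h2 hx hκ
  rw [← hP, ← hQ, ← hJ, E3_smul, E3_smul, E3_smul, E3_add, E3_add] at h4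
  obtain ⟨h5, h6, h7⟩ := E3_inj D.v0v D.v0w D.w0v D.w0w h4
  have r14 : p0 = 0 := by rw [r6, r11, zero_div]
  have r15 : q0 = 0 := by rw [r10, r12, zero_div, neg_zero]
  rw [r4, r8, r12, mul_zero, mul_zero, mul_zero, add_zero, add_zero] at h5
  rw [r5, r9, r11, mul_zero, mul_zero, mul_zero, add_zero, add_zero] at h6
  rw [r14, r15, mul_zero, mul_zero, zero_add, zero_add] at h7
  refine ⟨h5, h6, ?_⟩
  linear_combination (-j0) * h7 - (κ * (w1 ⬝ᵥ (R x *ᵥ v) - v1 ⬝ᵥ (R x *ᵥ w)) / 2) * r13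


/-- The isotropy argument. -/
theorem iso_prod {F₀ : Type*} [Field F₀] [Algebra F₀ F] (Φ : Frame F₀ R m)
    (D : AD (R 1) m v w v1 w1 v0 w0) (h1 : R (vecMulVec v v) = 0)
    (h2 : R (vecMulVec w w) = 0) {f1 f2 : Fin n → F} (hf1 : f1 ∈ Φ.V) (hf2 : f2 ∈ Φ.V)
    {α1 β1 α2 β2 : F} (e1 : f1 = α1 • v + β1 • w) (e2 : f2 = α2 • v + β2 • w)
    (hdet : α1 * β2 - α2 * β1 ≠ 0) {x : Matrix (Fin n) (Fin n) F} (hxM : x ∈ Φ.M)
    (h12 : w1 ⬝ᵥ (R x *ᵥ w) = 0) (h21 : v1 ⬝ᵥ (R x *ᵥ v) = 0) :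
    (w1 ⬝ᵥ (R x *ᵥ v)) * (v1 ⬝ᵥ (R x *ᵥ w)) = 0 := by
  have hm := D.hm
  by_contra hne
  obtain ⟨h11, h22⟩ := mul_ne_zero_iff.1 hne
  have hI := iso_E hR D h1 h2
  have hv := b_s_v hR D h1 h2 x
  have hw := b_s_w hR D h1 h2 x
  rw [h21, zero_smul, add_zero] at hv
  rw [h12, zero_smul, zero_add] at hw
  have hwv : w ⬝ᵥ (R x *ᵥ v) = 0 := by
    rw [symm_dot (hR.tr x) w v]
    exact (hI x).2.1
  have hev : (R 1) ^ (m - 2 + 1) *ᵥ (R x *ᵥ v) = 0 := by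
    rw [show m - 2 + 1 = m - 1 by omega, D.e_mulVec, hwv, (hI x).1, zero_smul, zero_smul, add_zero]
  have hew : (R 1) ^ (m - 2 + 1) *ᵥ (R x *ᵥ w) = 0 := by
    rw [show m - 2 + 1 = m - 1 by omega, D.e_mulVec, (hI x).2.1, (hI x).2.2, zero_smul, zero_smul,
      add_zero]
  have k1 : ∀ j : Fin 2, (R 1) ^ ((fun _ : Fin 2 => m - 2) j + 1) *ᵥ
      (![R x *ᵥ f1, R x *ᵥ f2] : Fin 2 → (Fin n → F)) j = 0 := by
    intro j
    fin_cases j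
    · change (R 1) ^ (m - 2 + 1) *ᵥ (R x *ᵥ f1) = 0
      rw [e1, mulVec_add, mulVec_add, mulVec_smul, mulVec_smul, mulVec_smul, mulVec_smul, hev, hew,
        smul_zero, smul_zero, add_zero]
    · change (R 1) ^ (m - 2 + 1) *ᵥ (R x *ᵥ f2) = 0
      rw [e2, mulVec_add, mulVec_add, mulVec_smul, mulVec_smul, mulVec_smul, mulVec_smul, hev, hew,
        smul_zero, smul_zero, add_zero]
  have k2 : LinearIndependent F fun j : Fin 2 => (R 1) ^ ((fun _ : Fin 2 => m - 2) j) *ᵥ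
      (![R x *ᵥ f1, R x *ᵥ f2] : Fin 2 → (Fin n → F)) j := by
    rw [Fintype.linearIndependent_iff]
    intro g hg
    rw [Fin.sum_univ_two] at hg
    change g 0 • ((R 1) ^ (m - 2) *ᵥ (R x *ᵥ f1)) + g 1 • ((R 1) ^ (m - 2) *ᵥ (R x *ᵥ f2)) = 0 at hg
    rw [e1, e2] at hg
    simp only [mulVec_add, mulVec_smul, hv, hw] at hg
    have g0 := congrArg (fun y => v0 ⬝ᵥ y) hg
    have g1 := congrArg (fun y => w0 ⬝ᵥ y) hg
    simp only [dotProduct_add, dotProduct_smul, D.v0v, D.v0w, D.w0v, D.w0w, dotProduct_zero,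
      smul_eq_mul, mul_one, mul_zero, add_zero, zero_add] at g0 g1
    have g0' : g 0 * α1 + g 1 * α2 = 0 := by
      have h5 : (g 0 * α1 + g 1 * α2) * (w1 ⬝ᵥ (R x *ᵥ v)) = 0 := by linear_combination g0
      exact (mul_eq_zero.1 h5).resolve_right h11
    have g1' : g 0 * β1 + g 1 * β2 = 0 := by
      have h5 : (g 0 * β1 + g 1 * β2) * (v1 ⬝ᵥ (R x *ᵥ w)) = 0 := by linear_combination g1
      exact (mul_eq_zero.1 h5).resolve_right h22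
    intro i
    fin_cases i
    · have h5 : (α1 * β2 - α2 * β1) * g 0 = 0 := by linear_combination β2 * g0' - α2 * g1'
      exact (mul_eq_zero.1 h5).resolve_left hdet
    · have h5 : (α1 * β2 - α2 * β1) * g 1 = 0 := by linear_combination α1 * g1' - β1 * g0'
      exact (mul_eq_zero.1 h5).resolve_left hdet
  have k3 := chain_indep k1 k2
  have z1 : ∀ j, (R x *ᵥ v) ⬝ᵥ ((R 1) ^ j *ᵥ (R x *ᵥ v)) = 0 := fun j =>
    hR.S1_diag (fun x => (hI x).1) _ x x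
  have z2 : ∀ j, (R x *ᵥ v) ⬝ᵥ ((R 1) ^ j *ᵥ (R x *ᵥ w)) = 0 := fun j =>
    hR.S1_same (fun x => (hI x).2.1) _ x
  have z3 : ∀ j, (R x *ᵥ w) ⬝ᵥ ((R 1) ^ j *ᵥ (R x *ᵥ v)) = 0 := fun j =>
    hR.S1_same (fun x => by
        rw [symm_dot (hR.tr x) w v]
        exact (hI x).2.1) _ x
  have z4 : ∀ j, (R x *ᵥ w) ⬝ᵥ ((R 1) ^ j *ᵥ (R x *ᵥ w)) = 0 := fun j =>
    hR.S1_diag (fun x => (hI x).2.2) _ x x
  have z5 : ∀ (j : ℕ) (a b c d : F), (R x *ᵥ (a • v + b • w)) ⬝ᵥ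
      ((R 1) ^ j *ᵥ (R x *ᵥ (c • v + d • w))) = 0 := by
    intro j a b c d
    simp only [mulVec_add, mulVec_smul, add_dotProduct, dotProduct_add, smul_dotProduct,
      dotProduct_smul, z1, z2, z3, z4, smul_zero, add_zero]
  have hRx := Φ.map x hxM
  have k4 := Φ.wi' (g := fun p : (Σ j : Fin 2, Fin ((fun _ : Fin 2 => m - 2) j + 1)) =>
      (R 1) ^ (p.2 : ℕ) *ᵥ (![R x *ᵥ f1, R x *ᵥ f2] : Fin 2 → (Fin n → F)) p.1) (by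
    rintro ⟨i, p⟩
    fin_cases i
    · exact Φ.act _ (Φ.a_pow _) _ (Φ.act _ hRx _ hf1)
    · exact Φ.act _ (Φ.a_pow _) _ (Φ.act _ hRx _ hf2)) (by
    rintro ⟨i, p⟩ ⟨j, q⟩
    change ((R 1) ^ (p : ℕ) *ᵥ _) ⬝ᵥ ((R 1) ^ (q : ℕ) *ᵥ _) = 0
    rw [dot_symm (hR.a_tr _), mulVec_mulVec, ← pow_add, e1, e2]
    fin_cases i <;> fin_cases j
    · exact z5 _ _ _ _ _
    · exact z5 _ _ _ _ _
    · exact z5 _ _ _ _ _
    · exact z5 _ _ _ _ _) k3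
  rw [Fintype.card_sigma] at k4
  simp only [Fintype.card_fin, Finset.sum_const, Finset.card_univ, smul_eq_mul] at k4
  omega

theorem gamma_form {F₀ : Type*} [Field F₀] [Algebra F₀ F] (Φ : Frame F₀ R m)
    (D : AD (R 1) m v w v1 w1 v0 w0) (h1 : R (vecMulVec v v) = 0)
    (h2 : R (vecMulVec w w) = 0) {f1 f2 : Fin n → F} (hf1 : f1 ∈ Φ.V) (hf2 : f2 ∈ Φ.V)
    {α1 β1 α2 β2 : F} (e1 : f1 = α1 • v + β1 • w) (e2 : f2 = α2 • v + β2 • w)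
    (hdet : α1 * β2 - α2 * β1 ≠ 0) :
    (∃ ν : F, ν ≠ 0 ∧ ∀ x, xᵀ = x → (R 1) ^ (m - 2) *ᵥ (R x *ᵥ w) = 0 ∧
      (R 1) ^ (m - 2) *ᵥ (R x *ᵥ v) = (ν * (v ⬝ᵥ (x *ᵥ w))) • v) ∨
    (∃ ν : F, ν ≠ 0 ∧ ∀ x, xᵀ = x → (R 1) ^ (m - 2) *ᵥ (R x *ᵥ v) = 0 ∧
      (R 1) ^ (m - 2) *ᵥ (R x *ᵥ w) = (ν * (v ⬝ᵥ (x *ᵥ w))) • w) := by
  have hm := D.hm
  obtain ⟨j0, hj, hc⟩ := consts hR D h1 h2 rfl
  have h3 : ((m : F) - 1) ≠ 0 := by
    have h4 : ((m - 1 : ℕ) : F) ≠ 0 := Nat.cast_ne_zero.2 (by omega)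
    rwa [Nat.cast_sub (by omega), Nat.cast_one] at h4
  have hκ : 2 * ((m : F) - 1) ≠ 0 := mul_ne_zero two_ne_zero h3
  generalize 2 * ((m : F) - 1) = κ at hc hκ
  have hj0 : j0 ≠ 0 := by
    rintro rfl
    rw [mul_zero] at hj
    exact zero_ne_one hj
  have g12 : ∀ x : Matrix (Fin n) (Fin n) F, xᵀ = x → w1 ⬝ᵥ (R x *ᵥ w) = 0 := fun x hx =>
    (mul_eq_zero.1 (hc x hx).1).resolve_left hκ
  have g21 : ∀ x : Matrix (Fin n) (Fin n) F, xᵀ = x → v1 ⬝ᵥ (R x *ᵥ v) = 0 := fun x hx =>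
    (mul_eq_zero.1 (hc x hx).2.1).resolve_left hκ
  have hd : ∀ x : Matrix (Fin n) (Fin n) F, xᵀ = x → w1 ⬝ᵥ (R x *ᵥ v) - v1 ⬝ᵥ (R x *ᵥ w) =
      -(2 * j0 / κ) * (v ⬝ᵥ (x *ᵥ w)) := by
    intro x hx
    have := (hc x hx).2.2
    field_simp
    linear_combination 2 * this
  have hor : (∀ x : Matrix (Fin n) (Fin n) F, xᵀ = x → v1 ⬝ᵥ (R x *ᵥ w) = 0) ∨
      (∀ x : Matrix (Fin n) (Fin n) F, xᵀ = x → w1 ⬝ᵥ (R x *ᵥ v) = 0) := by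
    let fl : Matrix (Fin n) (Fin n) F →ₗ[F] F :=
      { toFun := fun x => v1 ⬝ᵥ (R x *ᵥ w)
        map_add' := fun x y => by rw [map_add, add_mulVec, dotProduct_add]
        map_smul' := fun c x => by rw [map_smul, smul_mulVec, dotProduct_smul, RingHom.id_apply] }
    let gl : Matrix (Fin n) (Fin n) F →ₗ[F] F :=
      { toFun := fun x => w1 ⬝ᵥ (R x *ᵥ v)
        map_add' := fun x y => by rw [map_add, add_mulVec, dotProduct_add]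
        map_smul' := fun c x => by rw [map_smul, smul_mulVec, dotProduct_smul, RingHom.id_apply] }
    exact Φ.prod_zero fl gl fun x hxM hx => by
      change (v1 ⬝ᵥ (R x *ᵥ w)) * (w1 ⬝ᵥ (R x *ᵥ v)) = 0
      rw [mul_comm]
      exact iso_prod hR Φ D h1 h2 hf1 hf2 e1 e2 hdet hxM (g12 x hx) (g21 x hx)
  rcases hor with h22 | h11
  · left
    refine ⟨-(2 * j0 / κ), neg_ne_zero.2 (div_ne_zero (mul_ne_zero two_ne_zero hj0) hκ), ?_⟩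
    intro x hx
    have h5 := hd x hx
    rw [h22 x hx, sub_zero] at h5
    refine ⟨?_, ?_⟩
    · rw [b_s_w hR D h1 h2, g12 x hx, h22 x hx, zero_smul, zero_smul, add_zero]
    · rw [b_s_v hR D h1 h2, g21 x hx, zero_smul, add_zero, h5]
  · right
    refine ⟨2 * j0 / κ, div_ne_zero (mul_ne_zero two_ne_zero hj0) hκ, ?_⟩
    intro x hx
    have h5 := hd x hx
    rw [h11 x hx, zero_sub] at h5
    refine ⟨?_, ?_⟩
    · rw [b_s_v hR D h1 h2, g21 x hx, h11 x hx, zero_smul, zero_smul, add_zero]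
    · rw [b_s_w hR D h1 h2, g12 x hx, zero_smul, zero_add]
      congr 1
      linear_combination -h5

end Gamma2

end Pool.Agent.MP_f4742e_al.XN
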