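import Pool.Agent.Lib.MP_f4742e_al.X.AD

/-!
Module Theta: `R (v vᵀ) = R (w wᵀ) = 0`.
-/

set_option autoImplicit false
set_option linter.unusedSectionVars false
set_option linter.unusedSimpArgs false

namespace Pool.Agent.MP_f4742e_al.XN

open Matrix

namespace Theta

section

variable {F : Type*} [Field F] {n : ℕ}

theorem vmv_sandwich (x : Matrix (Fin n) (Fin n) F) (p q r t : Fin n → F) :
    vecMulVec p q * x * vecMulVec r t = (q ⬝ᵥ (x *ᵥ r)) • vecMulVec p t := by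
  rw [Matrix.mul_assoc, mul_vecMulVec, vecMulVec_mul_vecMulVec, vecMulVec_smul]

theorem ev_vmv (p q y z : Fin n → F) :
    y ⬝ᵥ (vecMulVec p q *ᵥ z) = (q ⬝ᵥ z) * (y ⬝ᵥ p) := by
  rw [vmv_mulVec, dotProduct_smul, smul_eq_mul]

end

section Main

variable {F : Type*} [Field F] [CharZero F] {n : ℕ}
  {R : Matrix (Fin n) (Fin n) F →ₗ[F] Matrix (Fin n) (Fin n) F} (hR : SRB R) {m : ℕ}
  {v w v1 w1 v0 w0 : Fin n → F}

include hR

theorem Re (D : AD (R 1) m v w v1 w1 v0 w0) : R ((R 1) ^ (m - 1)) = 0 :=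
  R_e hR.rb (by have := D.hm; omega) D.am

theorem Bvw (D : AD (R 1) m v w v1 w1 v0 w0) : Bf R v w = 0 := by
  have h1 := Re hR D
  rw [D.e, map_add, ← Bf_apply, ← Bf_apply, Bf_comm hR w v, ← two_smul F] at h1
  exact (smul_eq_zero.1 h1).resolve_left two_ne_zero

theorem Bwv (D : AD (R 1) m v w v1 w1 v0 w0) : Bf R w v = 0 := by
  rw [Bf_comm hR, Bvw hR D]

/-- `e s e`. -/
theorem ese (D : AD (R 1) m v w v1 w1 v0 w0) (x : Matrix (Fin n) (Fin n) F) :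
    (R 1) ^ (m - 1) * R x * (R 1) ^ (m - 1) =
      (w ⬝ᵥ (x *ᵥ w)) • Bf R v v + (v ⬝ᵥ (x *ᵥ v)) • Bf R w w := by
  rw [← R_exe hR.rb (by have := D.hm; omega) D.am, D.e, Matrix.add_mul, Matrix.add_mul,
    Matrix.mul_add, Matrix.mul_add, vmv_sandwich, vmv_sandwich, vmv_sandwich, vmv_sandwich,
    map_add, map_add, map_add, map_smul, map_smul, map_smul, map_smul, ← Bf_apply, ← Bf_apply,
    ← Bf_apply, ← Bf_apply, Bvw hR D, Bwv hR D, smul_zero, smul_zero]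
  abel

omit [CharZero F] in
theorem ev_ese (s : Matrix (Fin n) (Fin n) F) (y z : Fin n → F) :
    y ⬝ᵥ (((R 1) ^ (m - 1) * s * (R 1) ^ (m - 1)) *ᵥ z) =
      ((R 1) ^ (m - 1) *ᵥ y) ⬝ᵥ (s *ᵥ ((R 1) ^ (m - 1) *ᵥ z)) := by
  rw [← mulVec_mulVec, ← mulVec_mulVec, dot_symm (hR.a_tr _)]

theorem coef_ww (D : AD (R 1) m v w v1 w1 v0 w0) (x : Matrix (Fin n) (Fin n) F) :
    w ⬝ᵥ (R x *ᵥ w) = (w ⬝ᵥ (x *ᵥ w)) * (v0 ⬝ᵥ (Bf R v v *ᵥ v0)) +
      (v ⬝ᵥ (x *ᵥ v)) * (v0 ⬝ᵥ (Bf R w w *ᵥ v0)) := by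
  have h1 := ev_ese hR (m := m) (R x) v0 v0
  rw [ese hR D, D.e_v0, add_mulVec, smul_mulVec, smul_mulVec, dotProduct_add, dotProduct_smul,
    dotProduct_smul, smul_eq_mul, smul_eq_mul] at h1
  exact h1.symm

theorem coef_vv (D : AD (R 1) m v w v1 w1 v0 w0) (x : Matrix (Fin n) (Fin n) F) :
    v ⬝ᵥ (R x *ᵥ v) = (w ⬝ᵥ (x *ᵥ w)) * (w0 ⬝ᵥ (Bf R v v *ᵥ w0)) +
      (v ⬝ᵥ (x *ᵥ v)) * (w0 ⬝ᵥ (Bf R w w *ᵥ w0)) := by
  have h1 := ev_ese hR (m := m) (R x) w0 w0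
  rw [ese hR D, D.e_w0, add_mulVec, smul_mulVec, smul_mulVec, dotProduct_add, dotProduct_smul,
    dotProduct_smul, smul_eq_mul, smul_eq_mul] at h1
  exact h1.symm

theorem coef_vw (D : AD (R 1) m v w v1 w1 v0 w0) (x : Matrix (Fin n) (Fin n) F) :
    v ⬝ᵥ (R x *ᵥ w) = (w ⬝ᵥ (x *ᵥ w)) * (w0 ⬝ᵥ (Bf R v v *ᵥ v0)) +
      (v ⬝ᵥ (x *ᵥ v)) * (w0 ⬝ᵥ (Bf R w w *ᵥ v0)) := by
  have h1 := ev_ese hR (m := m) (R x) w0 v0
  rw [ese hR D, D.e_w0, D.e_v0, add_mulVec, smul_mulVec, smul_mulVec, dotProduct_add,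
    dotProduct_smul, dotProduct_smul, smul_eq_mul, smul_eq_mul] at h1
  exact h1.symm

theorem coef_wv (D : AD (R 1) m v w v1 w1 v0 w0) (x : Matrix (Fin n) (Fin n) F) :
    w ⬝ᵥ (R x *ᵥ v) = (w ⬝ᵥ (x *ᵥ w)) * (w0 ⬝ᵥ (Bf R v v *ᵥ v0)) +
      (v ⬝ᵥ (x *ᵥ v)) * (w0 ⬝ᵥ (Bf R w w *ᵥ v0)) := by
  rw [dot_symm' (hR.tr x), coef_vw hR D]

theorem cast_ne (D : AD (R 1) m v w v1 w1 v0 w0) : ((m : F) - 1) ≠ 0 := by
  have h1 : m ≠ 1 := by have := D.hm; omega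
  intro h2
  apply h1
  have h3 : (m : F) = ((1 : ℕ) : F) := by
    rw [Nat.cast_one]; exact sub_eq_zero.1 h2
  exact_mod_cast h3

/-- `R b`. -/
theorem Rb_eq (D : AD (R 1) m v w v1 w1 v0 w0) :
    (2 : F) • (Bf R w1 v + Bf R v1 w) = ((m : F) - 1)⁻¹ • (vecMulVec v w + vecMulVec w v) := by
  have h1 := R_b hR.rb (m := m) (by have := D.hm; omega)
  rw [D.b, D.e, map_add, map_add, map_add, ← Bf_apply, ← Bf_apply, ← Bf_apply, ← Bf_apply,
    Bf_comm hR v w1, Bf_comm hR w v1] at h1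
  rw [← h1, two_smul]
  abel

/-- Case I. -/
theorem thetaI (D : AD (R 1) m v w v1 w1 v0 w0) (l : F) (hl : l ≠ 0)
    (hP : Bf R v v = 0) (hQ : Bf R w w = l • vecMulVec v v) : False := by
  have hvv0 : v ⬝ᵥ v0 = 1 := by rw [dotProduct_comm]; exact D.v0v
  have hvw0 : v ⬝ᵥ w0 = 0 := by rw [dotProduct_comm]; exact D.w0v
  have hwv0 : w ⬝ᵥ v0 = 0 := by rw [dotProduct_comm]; exact D.v0w
  have hww0 : w ⬝ᵥ w0 = 1 := by rw [dotProduct_comm]; exact D.w0w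
  set x : Matrix (Fin n) (Fin n) F := vecMulVec v0 v0 with hx
  have hxs : xᵀ = x := by rw [hx, transpose_vecMulVec]
  have hxv : x *ᵥ v = v0 := by rw [hx, vmv_mulVec, D.v0v, one_smul]
  have hxw : x *ᵥ w = 0 := by rw [hx, vmv_mulVec, D.v0w, zero_smul]
  have hvv : ∀ y, v ⬝ᵥ (R y *ᵥ v) = 0 := by
    intro y
    rw [coef_vv hR D, hP, hQ]
    simp [smul_mulVec, ev_vmv, hvw0]
  have hvw : ∀ y, v ⬝ᵥ (R y *ᵥ w) = 0 := by
    intro y
    rw [coef_vw hR D, hP, hQ]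
    simp [smul_mulVec, ev_vmv, D.w0v]
  have hwv : ∀ y, w ⬝ᵥ (R y *ᵥ v) = 0 := by
    intro y
    rw [dot_symm' (hR.tr y), hvw]
  have hww : w ⬝ᵥ (R x *ᵥ w) = l := by
    rw [coef_ww hR D, hP, hQ, hxv, hxw]
    simp [smul_mulVec, ev_vmv, hvv0, D.v0v]
  have hbsv := D.b_mulVec (R x *ᵥ v)
  have hbsw := D.b_mulVec (R x *ᵥ w)
  rw [hvv, hwv, zero_smul, zero_smul, add_zero, add_zero] at hbsv
  rw [hvw, hww, zero_smul, add_zero] at hbsw
  set g11 := w1 ⬝ᵥ (R x *ᵥ v)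
  set g21 := v1 ⬝ᵥ (R x *ᵥ v)
  set g12 := w1 ⬝ᵥ (R x *ᵥ w)
  set g22 := v1 ⬝ᵥ (R x *ᵥ w)
  have h21 : g21 = 0 := by
    have h1 := hR.S1_same (ε := w) (ε' := v) hvw (m - 2) x
    rw [← dot_symm (hR.a_tr _), hbsv, add_dotProduct, smul_dotProduct, smul_dotProduct, hvw, hww,
      smul_zero, zero_add, smul_eq_mul] at h1
    exact (mul_eq_zero.1 h1).resolve_right hl
  rw [h21, zero_smul, add_zero] at hbsv
  have hz : R (l • vecMulVec v v) = 0 := by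
    rw [map_smul, ← Bf_apply, hP, smul_zero]
  have hT := hR.T1 (m - 2) hxs hz (ζ := vecMulVec w w) (by rw [transpose_vecMulVec])
    (by rw [← Bf_apply, hQ])
  have e1 : (R 1) ^ (m - 2) * R x * (l • vecMulVec v v) = (l * g11) • vecMulVec v v := by
    rw [Matrix.mul_smul, Matrix.mul_assoc, mul_vecMulVec, mul_vecMulVec, hbsv, smul_vecMulVec,
      smul_smul]
  have e2 : (l • vecMulVec v v) * R x * (R 1) ^ (m - 2) = (l * g11) • vecMulVec v v := by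
    rw [Matrix.smul_mul, Matrix.smul_mul, vmv_mul (hR.tr x), vmv_mul (hR.a_tr _), hbsv,
      vecMulVec_smul, smul_smul]
  have hbv0 := D.b_mulVec v0
  rw [hvv0, hwv0, zero_smul, add_zero, one_smul] at hbv0
  have e3 : R ((R 1) ^ (m - 2) * x * (l • vecMulVec v v)) = l • Bf R w1 v := by
    rw [Matrix.mul_smul, Matrix.mul_assoc, mul_vecMulVec, mul_vecMulVec, hxv, hbv0, map_smul,
      ← Bf_apply, map_add, map_add, map_smul, map_smul, LinearMap.add_apply, LinearMap.add_apply,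
      LinearMap.smul_apply, LinearMap.smul_apply, hP, Bwv hR D, smul_zero, smul_zero, zero_add,
      add_zero]
  have e4 : R ((R 1) ^ (m - 2) * R x * vecMulVec w w) = (g22 * l) • vecMulVec v v +
      l • Bf R v1 w := by
    rw [Matrix.mul_assoc, mul_vecMulVec, mul_vecMulVec, hbsw,
      ← Bf_apply, map_add, map_add, map_smul, map_smul, map_smul, LinearMap.add_apply,
      LinearMap.add_apply, LinearMap.smul_apply, LinearMap.smul_apply, LinearMap.smul_apply, hQ,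
      Bvw hR D, smul_zero, zero_add, smul_smul]
  rw [e1, e2, e3, e4] at hT
  have hb := Rb_eq hR D
  have hT' := congrArg (fun M => v0 ⬝ᵥ (M *ᵥ w0)) hT
  have hb' := congrArg (fun M => v0 ⬝ᵥ (M *ᵥ w0)) hb
  simp only [smul_mulVec, add_mulVec, dotProduct_add, dotProduct_smul, ev_vmv, hvw0, hww0,
    D.v0v, D.v0w, smul_eq_mul, mul_zero, zero_mul, add_zero, zero_add, mul_one] at hT' hb'
  have hm1 := cast_ne hR D
  have h5 : ((m : F) - 1)⁻¹ = 0 := by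
    have h6 : l * (2 * (v0 ⬝ᵥ (Bf R w1 v *ᵥ w0) + v0 ⬝ᵥ (Bf R v1 w *ᵥ w0))) = 0 := by
      linear_combination -hT'
    rw [hb'] at h6
    exact (mul_eq_zero.1 h6).resolve_left hl
  exact inv_ne_zero hm1 h5

/-- Case II. -/
theorem thetaII (D : AD (R 1) m v w v1 w1 v0 w0) (β κ : F) (hβ : β ≠ 0) (hκ : κ ≠ 0)
    (hP : Bf R v v = (β ^ 2 * κ) • vecMulVec (v + β • w) (v + β • w))
    (hQ : Bf R w w = (-κ) • vecMulVec (v + β • w) (v + β • w)) : False := by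
  have hm := D.hm
  have hvv0 : v ⬝ᵥ v0 = 1 := by rw [dotProduct_comm]; exact D.v0v
  have hvw0 : v ⬝ᵥ w0 = 0 := by rw [dotProduct_comm]; exact D.w0v
  have hwv0 : w ⬝ᵥ v0 = 0 := by rw [dotProduct_comm]; exact D.v0w
  have hww0 : w ⬝ᵥ w0 = 1 := by rw [dotProduct_comm]; exact D.w0w
  set f1 : Fin n → F := v + β • w with hf1
  set f2 : Fin n → F := v - β • w with hf2
  have f1v0 : f1 ⬝ᵥ v0 = 1 := by
    rw [hf1, add_dotProduct, smul_dotProduct, hvv0, hwv0, smul_zero, add_zero]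
  have f1w0 : f1 ⬝ᵥ w0 = β := by
    rw [hf1, add_dotProduct, smul_dotProduct, hvw0, hww0, zero_add, smul_eq_mul, mul_one]
  have v0f1 : v0 ⬝ᵥ f1 = 1 := by rw [dotProduct_comm, f1v0]
  have w0f1 : w0 ⬝ᵥ f1 = β := by rw [dotProduct_comm, f1w0]
  have f2v0 : f2 ⬝ᵥ v0 = 1 := by
    rw [hf2, sub_dotProduct, smul_dotProduct, hvv0, hwv0, smul_zero, sub_zero]
  have f2w0 : f2 ⬝ᵥ w0 = -β := by
    rw [hf2, sub_dotProduct, smul_dotProduct, hvw0, hww0, zero_sub, smul_eq_mul, mul_one]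
  obtain ⟨Yt, hYt⟩ : ∃ Yt : Matrix (Fin n) (Fin n) F → F,
      ∀ y, Yt y = v ⬝ᵥ (y *ᵥ v) - β ^ 2 * (w ⬝ᵥ (y *ᵥ w)) := ⟨_, fun _ => rfl⟩
  have hYadd : ∀ y z, Yt (y + z) = Yt y + Yt z := by
    intro y z
    rw [hYt, hYt, hYt, add_mulVec, add_mulVec, dotProduct_add, dotProduct_add]
    ring
  have hY2 : ∀ y, 2 * Yt y = f1 ⬝ᵥ (y *ᵥ f2) + f2 ⬝ᵥ (y *ᵥ f1) := by
    intro y
    rw [hYt, hf1, hf2]
    simp only [mulVec_add, mulVec_sub, mulVec_smul, add_dotProduct, sub_dotProduct,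
      smul_dotProduct, dotProduct_add, dotProduct_sub, dotProduct_smul, smul_eq_mul]
    ring
  have hvv : ∀ y, v ⬝ᵥ (R y *ᵥ v) = -(β ^ 2 * κ) * Yt y := by
    intro y
    rw [coef_vv hR D, hP, hQ, hYt]
    simp only [smul_mulVec, dotProduct_smul, ev_vmv, f1w0, w0f1, smul_eq_mul]
    ring
  have hvw : ∀ y, v ⬝ᵥ (R y *ᵥ w) = -(β * κ) * Yt y := by
    intro y
    rw [coef_vw hR D, hP, hQ, hYt]
    simp only [smul_mulVec, dotProduct_smul, ev_vmv, f1v0, w0f1, smul_eq_mul]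
    ring
  have hww : ∀ y, w ⬝ᵥ (R y *ᵥ w) = -κ * Yt y := by
    intro y
    rw [coef_ww hR D, hP, hQ, hYt]
    simp only [smul_mulVec, dotProduct_smul, ev_vmv, f1v0, v0f1, smul_eq_mul]
    ring
  have hwv : ∀ y, w ⬝ᵥ (R y *ᵥ v) = -(β * κ) * Yt y := by
    intro y
    rw [dot_symm' (hR.tr y), hvw]
  have hvf1 : ∀ y, v ⬝ᵥ (R y *ᵥ f1) = -(2 * β ^ 2 * κ) * Yt y := by
    intro y
    rw [hf1, mulVec_add, mulVec_smul, dotProduct_add, dotProduct_smul, hvv, hvw, smul_eq_mul]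
    ring
  have hwf1 : ∀ y, w ⬝ᵥ (R y *ᵥ f1) = -(2 * β * κ) * Yt y := by
    intro y
    rw [hf1, mulVec_add, mulVec_smul, dotProduct_add, dotProduct_smul, hwv, hww, smul_eq_mul]
    ring
  have hvf2 : ∀ y, v ⬝ᵥ (R y *ᵥ f2) = 0 := by
    intro y
    rw [hf2, mulVec_sub, mulVec_smul, dotProduct_sub, dotProduct_smul, hvv, hvw, smul_eq_mul]
    ring
  have hwf2 : ∀ y, w ⬝ᵥ (R y *ᵥ f2) = 0 := by
    intro y
    rw [hf2, mulVec_sub, mulVec_smul, dotProduct_sub, dotProduct_smul, hwv, hww, smul_eq_mul]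
    ring
  have hf1f1 : ∀ y, f1 ⬝ᵥ (R y *ᵥ f1) = -(4 * β ^ 2 * κ) * Yt y := by
    intro y
    conv_lhs => rw [hf1, add_dotProduct, smul_dotProduct, ← hf1]
    rw [hvf1, hwf1, smul_eq_mul]
    ring
  have hf1f2 : ∀ y, f1 ⬝ᵥ (R y *ᵥ f2) = 0 := by
    intro y
    rw [hf1, add_dotProduct, smul_dotProduct, hvf2, hwf2, smul_zero, add_zero]
  -- the form `γ`
  have hγ0 : ∀ y, Yt y * (β * (w1 ⬝ᵥ (R y *ᵥ f2)) + v1 ⬝ᵥ (R y *ᵥ f2)) = 0 := by
    intro y
    have h1 := hR.S1_same (ε := f2) (ε' := f1) hf1f2 (m - 2) y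
    rw [D.b_mulVec, hvf2, hwf2, zero_smul, zero_smul, add_zero, add_zero, dotProduct_add,
      dotProduct_smul, dotProduct_smul, dotProduct_comm _ v, dotProduct_comm _ w, hvf1, hwf1,
      smul_eq_mul, smul_eq_mul] at h1
    have h2 : (2 * β * κ) * (Yt y * (β * (w1 ⬝ᵥ (R y *ᵥ f2)) + v1 ⬝ᵥ (R y *ᵥ f2))) = 0 := by
      linear_combination -h1
    exact (mul_eq_zero.1 h2).resolve_left (mul_ne_zero (mul_ne_zero two_ne_zero hβ) hκ)
  set x' : Matrix (Fin n) (Fin n) F := vecMulVec v0 v0 with hx'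
  have hx's : x'ᵀ = x' := by rw [hx', transpose_vecMulVec]
  have hYx' : Yt x' = 1 := by
    rw [hYt, hx', ev_vmv, ev_vmv, D.v0v, hvv0, D.v0w]
    ring
  have hγ : ∀ y, β * (w1 ⬝ᵥ (R y *ᵥ f2)) + v1 ⬝ᵥ (R y *ᵥ f2) = 0 := by
    intro y
    by_cases h1 : Yt y = 0
    · have h2 := hγ0 x'
      have h3 := hγ0 (y + x')
      rw [hYx', one_mul] at h2
      rw [hYadd, h1, hYx', zero_add, one_mul, map_add, add_mulVec, dotProduct_add,
        dotProduct_add] at h3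
      linear_combination h3 - h2
    · exact (mul_eq_zero.1 (hγ0 y)).resolve_left h1
  have hbf2 : ∀ y, (R 1) ^ (m - 2) *ᵥ (R y *ᵥ f2) = (w1 ⬝ᵥ (R y *ᵥ f2)) • f2 := by
    intro y
    have h1 : v1 ⬝ᵥ (R y *ᵥ f2) = -(β * (w1 ⬝ᵥ (R y *ᵥ f2))) := by
      linear_combination hγ y
    rw [D.b_mulVec, hvf2, hwf2, zero_smul, zero_smul, add_zero, add_zero, h1, hf2]
    module
  -- the test element
  set y0 : Fin n → F := R 1 *ᵥ (w0 + β • v0) with hy0
  set t : Fin n → F := β • v0 - w0 with ht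
  have hby : (R 1) ^ (m - 2) *ᵥ y0 = f1 := by
    have h1 : m - 2 + 1 = m - 1 := by omega
    rw [hy0, mulVec_mulVec, ← pow_succ, h1, mulVec_add, mulVec_smul, D.e_w0, D.e_v0]
  have hvy : v ⬝ᵥ y0 = 0 := by
    rw [hy0, ← dot_symm (hR.tr 1), D.av, zero_dotProduct]
  have hwy : w ⬝ᵥ y0 = 0 := by
    rw [hy0, ← dot_symm (hR.tr 1), D.aw, zero_dotProduct]
  have hyv : y0 ⬝ᵥ v = 0 := by rw [dotProduct_comm, hvy]
  have hyw : y0 ⬝ᵥ w = 0 := by rw [dotProduct_comm, hwy]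
  have hyf1 : y0 ⬝ᵥ f1 = 0 := by
    rw [hf1, dotProduct_add, dotProduct_smul, hyv, hyw, smul_zero, add_zero]
  have hyf2 : y0 ⬝ᵥ f2 = 0 := by
    rw [hf2, dotProduct_sub, dotProduct_smul, hyv, hyw, smul_zero, sub_zero]
  have htf1 : t ⬝ᵥ f1 = 0 := by
    rw [ht, sub_dotProduct, smul_dotProduct, v0f1, w0f1, smul_eq_mul, mul_one, sub_self]
  have htf2 : t ⬝ᵥ f2 = 2 * β := by
    rw [ht, sub_dotProduct, smul_dotProduct, dotProduct_comm v0, dotProduct_comm w0, f2v0, f2w0,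
      smul_eq_mul]
    ring
  set x0 : Matrix (Fin n) (Fin n) F := vecMulVec y0 t + vecMulVec t y0 with hx0
  have hx0s : x0ᵀ = x0 := by
    rw [hx0, transpose_add, transpose_vecMulVec, transpose_vecMulVec, add_comm]
  have hx0f1 : x0 *ᵥ f1 = 0 := by
    rw [hx0, add_mulVec, vmv_mulVec, vmv_mulVec, htf1, hyf1, zero_smul, zero_smul, add_zero]
  have hx0f2 : x0 *ᵥ f2 = (2 * β) • y0 := by
    rw [hx0, add_mulVec, vmv_mulVec, vmv_mulVec, htf2, hyf2, zero_smul, add_zero]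
  have hYx0 : Yt x0 = 0 := by
    rw [hYt, hx0, add_mulVec, add_mulVec, dotProduct_add, dotProduct_add, ev_vmv, ev_vmv, ev_vmv,
      ev_vmv, hvy, hwy, hyv, hyw]
    ring
  have hbs0f1 := D.b_mulVec (R x0 *ᵥ f1)
  rw [hvf1, hwf1, hYx0, mul_zero, mul_zero, zero_smul, zero_smul, add_zero, add_zero] at hbs0f1
  have hbs0f2 := hbf2 x0
  set A1 := w1 ⬝ᵥ (R x0 *ᵥ f1) with hA1
  set C1 := v1 ⬝ᵥ (R x0 *ᵥ f1) with hC1
  set A2 := w1 ⬝ᵥ (R x0 *ᵥ f2) with hA2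
  have hBvf1 : Bf R v f1 = (β ^ 2 * κ) • vecMulVec f1 f1 := by
    conv_lhs => rw [hf1, map_add, map_smul, Bvw hR D, smul_zero, add_zero, hP]
  have hBwf1 : Bf R w f1 = (-(β * κ)) • vecMulVec f1 f1 := by
    conv_lhs => rw [hf1, map_add, map_smul, Bwv hR D, zero_add, hQ, smul_smul]
    congr 1
    ring
  have hBvf2 : Bf R v f2 = (β ^ 2 * κ) • vecMulVec f1 f1 := by
    rw [hf2, map_sub, map_smul, Bvw hR D, smul_zero, sub_zero, hP]
  have hBwf2 : Bf R w f2 = (β * κ) • vecMulVec f1 f1 := by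
    rw [hf2, map_sub, map_smul, Bwv hR D, zero_sub, hQ, smul_smul, ← neg_smul]
    congr 1
    ring
  have hBf1f1 : Bf R f1 f1 = 0 := by
    have h1 : ∀ y, Bf R f1 y = Bf R v y + β • Bf R w y := by
      intro y
      rw [hf1, map_add, map_smul]
      rfl
    rw [h1, hBvf1, hBwf1, smul_smul, ← add_smul]
    have : β ^ 2 * κ + β * -(β * κ) = 0 := by ring
    rw [this, zero_smul]
  have hBf2f1 : Bf R f2 f1 = (2 * β ^ 2 * κ) • vecMulVec f1 f1 := by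
    rw [hf2, map_sub, map_smul, LinearMap.sub_apply, LinearMap.smul_apply, hBvf1, hBwf1,
      smul_smul, ← sub_smul]
    congr 1
    ring
  have hz : R ((4 * β ^ 2 * κ) • vecMulVec f1 f1) = 0 := by
    rw [map_smul, ← Bf_apply, hBf1f1, smul_zero]
  have hζ : R (vecMulVec f1 f2 + vecMulVec f2 f1) = (4 * β ^ 2 * κ) • vecMulVec f1 f1 := by
    rw [map_add, ← Bf_apply, ← Bf_apply, Bf_comm hR f1 f2, hBf2f1, ← add_smul]
    congr 1
    ring
  have hT := hR.T1 (m - 2) hx0s hz (ζ := vecMulVec f1 f2 + vecMulVec f2 f1)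
    (by rw [transpose_add, transpose_vecMulVec, transpose_vecMulVec, add_comm]) hζ
  have e1 : (R 1) ^ (m - 2) * R x0 * ((4 * β ^ 2 * κ) • vecMulVec f1 f1) =
      (4 * β ^ 2 * κ) • vecMulVec (A1 • v + C1 • w) f1 := by
    rw [Matrix.mul_smul, Matrix.mul_assoc, mul_vecMulVec, mul_vecMulVec, hbs0f1]
  have e2 : ((4 * β ^ 2 * κ) • vecMulVec f1 f1) * R x0 * (R 1) ^ (m - 2) =
      (4 * β ^ 2 * κ) • vecMulVec f1 (A1 • v + C1 • w) := by
    rw [Matrix.smul_mul, Matrix.smul_mul, vmv_mul (hR.tr x0), vmv_mul (hR.a_tr _), hbs0f1]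
  have e3 : R ((R 1) ^ (m - 2) * x0 * ((4 * β ^ 2 * κ) • vecMulVec f1 f1)) = 0 := by
    rw [Matrix.mul_smul, Matrix.mul_assoc, mul_vecMulVec, mul_vecMulVec, hx0f1, mulVec_zero,
      zero_vecMulVec, smul_zero, map_zero]
  have e4 : R ((R 1) ^ (m - 2) * R x0 * (vecMulVec f1 f2 + vecMulVec f2 f1)) =
      (β ^ 2 * κ * A1 + β * κ * C1 + 2 * β ^ 2 * κ * A2) • vecMulVec f1 f1 := by
    rw [Matrix.mul_assoc, Matrix.mul_add, Matrix.mul_add, mul_vecMulVec, mul_vecMulVec,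
      mul_vecMulVec, mul_vecMulVec, hbs0f1, hbs0f2, map_add, ← Bf_apply, ← Bf_apply, map_add,
      map_smul, map_smul, map_smul, LinearMap.add_apply, LinearMap.smul_apply,
      LinearMap.smul_apply, LinearMap.smul_apply, hBvf2, hBwf2, hBf2f1, smul_smul, smul_smul,
      smul_smul, ← add_smul, ← add_smul]
    congr 1
    ring
  rw [e1, e2, e3, e4, zero_add] at hT
  have hTv := congrArg (fun M => v0 ⬝ᵥ (M *ᵥ v0)) hT
  have hTw := congrArg (fun M => w0 ⬝ᵥ (M *ᵥ w0)) hT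
  simp only [smul_mulVec, add_mulVec, dotProduct_add, dotProduct_smul, ev_vmv, add_dotProduct,
    smul_dotProduct, hvv0, hwv0, hvw0, hww0, f1v0, f1w0, v0f1, w0f1,
    D.v0v, D.v0w, D.w0v, D.w0w, smul_eq_mul, mul_zero, add_zero, zero_add, mul_one,
    one_mul] at hTv hTw
  have hC1A1 : C1 = β * A1 := by
    have h1 : (8 * β ^ 4 * κ) * (β * A1 - C1) = 0 := by
      linear_combination β ^ 3 * hTv - β * hTw
    have h2 : (8 * β ^ 4 * κ) ≠ 0 :=
      mul_ne_zero (mul_ne_zero (by norm_num) (pow_ne_zero _ hβ)) hκ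
    have h3 := (mul_eq_zero.1 h1).resolve_left h2
    linear_combination -h3
  have hA12 : A2 = A1 := by
    rw [hC1A1] at hTv
    have h1 : (4 * β ^ 2 * κ) * (A1 - A2) = 0 := by
      linear_combination hTv
    have h2 : (4 * β ^ 2 * κ) ≠ 0 :=
      mul_ne_zero (mul_ne_zero (by norm_num) (pow_ne_zero _ hβ)) hκ
    have h3 := (mul_eq_zero.1 h1).resolve_left h2
    linear_combination -h3
  have hbs0f1' : (R 1) ^ (m - 2) *ᵥ (R x0 *ᵥ f1) = A1 • f1 := by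
    rw [hbs0f1, hC1A1, hf1]
    module
  rw [hA12] at hbs0f2
  -- the square identity
  have hcl := hR.cl (m - 2) hx0s hx's
  have hcl' := congrArg (fun M => f1 ⬝ᵥ (M *ᵥ f1)) hcl
  simp only [smul_mulVec, add_mulVec, dotProduct_add, dotProduct_smul, hf1f1, smul_eq_mul]
    at hcl'
  have c1 : f1 ⬝ᵥ ((R x0 * (R 1) ^ (m - 2) * R x') *ᵥ f1) = A1 * (-(4 * β ^ 2 * κ)) := by
    rw [← mulVec_mulVec, ← mulVec_mulVec, ← dot_symm (hR.tr x0), ← dot_symm (hR.a_tr _), hbs0f1',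
      smul_dotProduct, hf1f1, hYx', smul_eq_mul, mul_one]
  have c2 : f1 ⬝ᵥ ((R x' * (R 1) ^ (m - 2) * R x0) *ᵥ f1) = A1 * (-(4 * β ^ 2 * κ)) := by
    rw [← mulVec_mulVec, ← mulVec_mulVec, hbs0f1', mulVec_smul, dotProduct_smul, hf1f1, hYx',
      smul_eq_mul, mul_one]
  have c3 : 2 * Yt (x0 * (R 1) ^ (m - 2) * R x') = 2 * β * (-(4 * β ^ 2 * κ)) := by
    rw [hY2, ← mulVec_mulVec, ← mulVec_mulVec, ← mulVec_mulVec, ← mulVec_mulVec, ← dot_symm hx0s,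
      hx0f1, zero_dotProduct, zero_add, ← dot_symm hx0s, hx0f2, smul_dotProduct,
      ← dot_symm (hR.a_tr _), hby, hf1f1, hYx', smul_eq_mul, mul_one]
  have c4 : 2 * Yt (R x0 * (R 1) ^ (m - 2) * x') = 2 * A1 := by
    rw [hY2, ← mulVec_mulVec, ← mulVec_mulVec, ← mulVec_mulVec, ← mulVec_mulVec,
      ← dot_symm (hR.tr x0), ← dot_symm (hR.a_tr _), hbs0f1', smul_dotProduct,
      ← dot_symm (hR.tr x0), ← dot_symm (hR.a_tr _), hbs0f2, smul_dotProduct, smul_eq_mul,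
      smul_eq_mul, ← mul_add, ← hY2, hYx']
    ring
  have c5 : 2 * Yt (R x0 * (R 1) ^ (m - 2 - 1) * R x') = 0 := by
    have h1 := hR.S1 (ε := f2) (ε' := f1) hf1f2 (m - 2 - 1) x' x0
    rw [hY2, ← mulVec_mulVec, ← mulVec_mulVec, ← mulVec_mulVec, ← mulVec_mulVec,
      ← dot_symm (hR.tr x0), ← dot_symm (hR.tr x0)]
    rw [← h1]
    congr 1
    rw [← dot_symm (hR.a_tr _), dotProduct_comm]
  rw [c1, c2] at hcl'
  have h9 : (β * (4 * β ^ 2 * κ)) * (4 * β ^ 2 * κ) = 0 := by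
    linear_combination (-1 / 2 : F) * hcl' + (1 / 2 : F) * (4 * β ^ 2 * κ) * c3 +
      (1 / 2 : F) * (4 * β ^ 2 * κ) * c4 +
      (1 / 2 : F) * ((m - 2 : ℕ) : F) * (4 * β ^ 2 * κ) * c5
  have h10 : (4 * β ^ 2 * κ) ≠ 0 :=
    mul_ne_zero (mul_ne_zero (by norm_num) (pow_ne_zero _ hβ)) hκ
  exact (mul_ne_zero (mul_ne_zero hβ h10) h10) h9

theorem K_e (D : AD (R 1) m v w v1 w1 v0 w0) (x : Matrix (Fin n) (Fin n) F) :
    R ((R 1) ^ (m - 1) * R x * (R 1) ^ (m - 1)) = 0 :=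
  hR.K (hR.a_tr _) (Re hR D) _ x

/-- The shape of `R (v vᵀ)`. -/
theorem Pform (D : AD (R 1) m v w v1 w1 v0 w0) : ∃ p1 p2 p0 : F,
    Bf R v v = p1 • vecMulVec v v + p2 • vecMulVec w w +
      p0 • (vecMulVec v w + vecMulVec w v) ∧ R (Bf R v v) = 0 := by
  have hwv0 : w ⬝ᵥ v0 = 0 := by rw [dotProduct_comm]; exact D.v0w
  have hvw0 : v ⬝ᵥ w0 = 0 := by rw [dotProduct_comm]; exact D.w0v
  have hww0 : w ⬝ᵥ w0 = 1 := by rw [dotProduct_comm]; exact D.w0w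
  have h1 := ese hR D (vecMulVec w0 w0)
  have h2 := K_e hR D (vecMulVec w0 w0)
  rw [ev_vmv, ev_vmv, D.w0w, hww0, D.w0v, mul_one, zero_mul, one_smul, zero_smul, add_zero] at h1
  rw [h1] at h2
  refine ⟨w ⬝ᵥ (R (vecMulVec w0 w0) *ᵥ w), v ⬝ᵥ (R (vecMulVec w0 w0) *ᵥ v),
    v ⬝ᵥ (R (vecMulVec w0 w0) *ᵥ w), ?_, h2⟩
  rw [← h1, D.e, Matrix.add_mul, Matrix.add_mul, Matrix.mul_add, Matrix.mul_add, vmv_sandwich,
    vmv_sandwich, vmv_sandwich, vmv_sandwich, dot_symm' (hR.tr _) w v]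
  module

/-- The discriminant of `R (v vᵀ)` vanishes. -/
theorem quad (D : AD (R 1) m v w v1 w1 v0 w0) {p1 p2 p0 : F}
    (hP : Bf R v v = p1 • vecMulVec v v + p2 • vecMulVec w w +
      p0 • (vecMulVec v w + vecMulVec w v)) (hRP : R (Bf R v v) = 0) : p1 * p2 = p0 ^ 2 := by
  have hvv0 : v ⬝ᵥ v0 = 1 := by rw [dotProduct_comm]; exact D.v0v
  have hvw0 : v ⬝ᵥ w0 = 0 := by rw [dotProduct_comm]; exact D.w0v
  have hwv0 : w ⬝ᵥ v0 = 0 := by rw [dotProduct_comm]; exact D.v0w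
  have hww0 : w ⬝ᵥ w0 = 1 := by rw [dotProduct_comm]; exact D.w0w
  set x : Matrix (Fin n) (Fin n) F := vecMulVec w0 w0 with hx
  have hxs : xᵀ = x := by rw [hx, transpose_vecMulVec]
  have hxv : v ⬝ᵥ (x *ᵥ v) = 0 := by rw [hx, ev_vmv, D.w0v, zero_mul]
  have hxw : w ⬝ᵥ (x *ᵥ w) = 1 := by rw [hx, ev_vmv, D.w0w, hww0, mul_one]
  have hPw0 : Bf R v v *ᵥ w0 = p2 • w + p0 • v := by
    rw [hP]
    simp only [add_mulVec, smul_mulVec, vmv_mulVec, hvw0, hww0, zero_smul, one_smul, smul_zero,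
      add_zero, zero_add]
  have hPv0 : Bf R v v *ᵥ v0 = p1 • v + p0 • w := by
    rw [hP]
    simp only [add_mulVec, smul_mulVec, vmv_mulVec, hvv0, hwv0, zero_smul, one_smul, smul_zero,
      add_zero, zero_add]
  have sww : w ⬝ᵥ (R x *ᵥ w) = p1 := by
    rw [coef_ww hR D, hxv, hxw, hPv0, one_mul, zero_mul, add_zero, dotProduct_add,
      dotProduct_smul, dotProduct_smul, D.v0v, D.v0w]
    simp
  have svv : v ⬝ᵥ (R x *ᵥ v) = p2 := by
    rw [coef_vv hR D, hxv, hxw, hPw0, one_mul, zero_mul, add_zero, dotProduct_add,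
      dotProduct_smul, dotProduct_smul, D.w0v, D.w0w]
    simp
  have swv : w ⬝ᵥ (R x *ᵥ v) = p0 := by
    rw [coef_wv hR D, hxv, hxw, hPv0, one_mul, zero_mul, add_zero, dotProduct_add,
      dotProduct_smul, dotProduct_smul, D.w0v, D.w0w]
    simp
  have hPs : (Bf R v v)ᵀ = Bf R v v := hR.tr _
  have hT := hR.T1 (m - 1) hxs hRP (ζ := vecMulVec v v) (by rw [transpose_vecMulVec]) rfl
  have e3 : R ((R 1) ^ (m - 1) * x * Bf R v v) = p0 • Bf R v v := by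
    rw [hx, mul_vecMulVec, D.e_w0, vmv_mul hPs, hPw0, ← Bf_apply, map_add, map_smul, map_smul,
      Bvw hR D, smul_zero, zero_add]
  have e4 : R ((R 1) ^ (m - 1) * R x * vecMulVec v v) = p0 • Bf R v v := by
    rw [Matrix.mul_assoc, mul_vecMulVec, mul_vecMulVec, D.e_mulVec, swv, ← Bf_apply, map_add,
      map_smul, map_smul, LinearMap.add_apply, LinearMap.smul_apply, LinearMap.smul_apply,
      Bwv hR D, smul_zero, add_zero]
  rw [e3, e4] at hT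
  have hT' := congrArg (fun M => v0 ⬝ᵥ (M *ᵥ w0)) hT
  simp only [add_mulVec, smul_mulVec, dotProduct_add, dotProduct_smul, ← mulVec_mulVec, hPw0,
    D.e_w0] at hT'
  rw [← dot_symm (hR.a_tr _), D.e_v0, ← dot_symm hPs, hPv0, add_dotProduct, smul_dotProduct,
    smul_dotProduct, svv, swv, mulVec_add, mulVec_smul, mulVec_smul, dotProduct_add,
    dotProduct_smul, dotProduct_smul, sww, swv, D.v0w, D.v0v] at hT'
  simp only [smul_eq_mul, mul_zero, mul_one, zero_add] at hT'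
  have h1 : (2 : F) * (p1 * p2 - p0 ^ 2) = 0 := by linear_combination hT'
  have h2 := (mul_eq_zero.1 h1).resolve_left two_ne_zero
  linear_combination h2

omit [CharZero F] hR in
theorem vv_ne (D : AD (R 1) m v w v1 w1 v0 w0) : vecMulVec v v ≠ 0 := by
  intro h
  have h1 := congrArg (fun M => v0 ⬝ᵥ (M *ᵥ v0)) h
  simp only [ev_vmv, zero_mulVec, dotProduct_zero, D.v0v, dotProduct_comm v v0] at h1
  norm_num at h1

end Main

end Theta

section Main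

variable {F : Type*} [Field F] [CharZero F] {n : ℕ}
  {R : Matrix (Fin n) (Fin n) F →ₗ[F] Matrix (Fin n) (Fin n) F} (hR : SRB R) {m : ℕ}
  {v w v1 w1 v0 w0 : Fin n → F}

include hR

open Theta in
theorem theta_zero (D : AD (R 1) m v w v1 w1 v0 w0) :
    R (vecMulVec v v) = 0 ∧ R (vecMulVec w w) = 0 := by
  obtain ⟨p1, p2, p0, hP, hRP⟩ := Pform hR D
  obtain ⟨q1, q2, q0, hQ, hRQ⟩ := Pform hR D.swap
  have hp := quad hR D hP hRP
  have hq := quad hR D.swap hQ hRQ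
  have hPQ : p1 • Bf R v v + p2 • Bf R w w = 0 := by
    have h1 : R (vecMulVec v w + vecMulVec w v) = 0 := by
      rw [← D.e]; exact Re hR D
    rw [hP] at hRP
    rw [map_add, map_add, map_smul, map_smul, map_smul, h1, smul_zero, add_zero] at hRP
    exact hRP
  have hQP : q1 • Bf R w w + q2 • Bf R v v = 0 := by
    have h1 : R (vecMulVec w v + vecMulVec v w) = 0 := by
      rw [add_comm, ← D.e]; exact Re hR D
    rw [hQ] at hRQ
    rw [map_add, map_add, map_smul, map_smul, map_smul, h1, smul_zero, add_zero] at hRQ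
    exact hRQ
  rw [← Bf_apply, ← Bf_apply]
  by_cases hP0 : Bf R v v = 0
  · by_cases hQ0 : Bf R w w = 0
    · exact ⟨hP0, hQ0⟩
    · exfalso
      rw [hP0, smul_zero, add_zero] at hQP
      have hq1 : q1 = 0 := (smul_eq_zero.1 hQP).resolve_right hQ0
      have hq0 : q0 = 0 := by
        rw [hq1, zero_mul] at hq
        exact pow_eq_zero_iff (two_ne_zero) |>.1 hq.symm
      have hQ' : Bf R w w = q2 • vecMulVec v v := by
        rw [hQ, hq1, hq0, zero_smul, zero_smul, zero_add, add_zero]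
      have hq2 : q2 ≠ 0 := by
        rintro rfl
        exact hQ0 (by rw [hQ', zero_smul])
      exact thetaI hR D q2 hq2 hP0 hQ'
  · exfalso
    by_cases hQ0 : Bf R w w = 0
    · rw [hQ0, smul_zero, add_zero] at hPQ
      have hp1 : p1 = 0 := (smul_eq_zero.1 hPQ).resolve_right hP0
      have hp0 : p0 = 0 := by
        rw [hp1, zero_mul] at hp
        exact pow_eq_zero_iff (two_ne_zero) |>.1 hp.symm
      have hP' : Bf R v v = p2 • vecMulVec w w := by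
        rw [hP, hp1, hp0, zero_smul, zero_smul, zero_add, add_zero]
      have hp2 : p2 ≠ 0 := by
        rintro rfl
        exact hP0 (by rw [hP', zero_smul])
      exact thetaI hR D.swap p2 hp2 hQ0 hP'
    · have hp1 : p1 ≠ 0 := by
        rintro rfl
        have h0 : p0 = 0 := by
          rw [zero_mul] at hp
          exact pow_eq_zero_iff (two_ne_zero) |>.1 hp.symm
        rw [zero_smul, zero_add] at hPQ
        have h2 : p2 = 0 := (smul_eq_zero.1 hPQ).resolve_right hQ0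
        exact hP0 (by rw [hP, h2, h0, zero_smul, zero_smul, zero_smul, add_zero, add_zero])
      have hp2 : p2 ≠ 0 := by
        rintro rfl
        rw [zero_smul, add_zero] at hPQ
        exact hp1 ((smul_eq_zero.1 hPQ).resolve_right hP0)
      have hp0 : p0 ≠ 0 := by
        rintro rfl
        rw [zero_pow two_ne_zero] at hp
        exact (mul_ne_zero hp1 hp2) hp
      have hβ : p0 / p1 ≠ 0 := div_ne_zero hp0 hp1
      have hβ2 : (p0 / p1) ^ 2 = p2 / p1 := by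
        rw [div_pow, ← hp]
        field_simp
      have hff : vecMulVec (v + (p0 / p1) • w) (v + (p0 / p1) • w) =
          p1⁻¹ • Bf R v v := by
        rw [hP, smul_add, smul_add, smul_smul, smul_smul, smul_smul, inv_mul_cancel₀ hp1]
        have h1 : p1⁻¹ * p2 = (p0 / p1) ^ 2 := by rw [hβ2]; field_simp
        have h2 : p1⁻¹ * p0 = p0 / p1 := by field_simp
        rw [h1, h2]
        simp only [add_vecMulVec, vecMulVec_add, smul_vecMulVec, vecMulVec_smul]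
        module
      refine thetaII hR D (p0 / p1) (p1 / (p0 / p1) ^ 2) hβ
        (div_ne_zero hp1 (pow_ne_zero _ hβ)) ?_ ?_
      · rw [hff, smul_smul]
        have : (p0 / p1) ^ 2 * (p1 / (p0 / p1) ^ 2) * p1⁻¹ = 1 := by
          field_simp
        rw [this, one_smul]
      · rw [hff, smul_smul, hβ2]
        have h1 : -(p1 / (p2 / p1)) * p1⁻¹ = -(p1 / p2) := by
          field_simp
        rw [h1]
        have h2 : Bf R w w = p2⁻¹ • (p2 • Bf R w w) := by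
          rw [smul_smul, inv_mul_cancel₀ hp2, one_smul]
        have h3 : p2 • Bf R w w = -(p1 • Bf R v v) := by
          rw [eq_neg_iff_add_eq_zero, add_comm]
          exact hPQ
        rw [h2, h3, smul_neg, smul_smul, neg_smul]
        congr 2
        field_simp

end Main

end Pool.Agent.MP_f4742e_al.XN
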