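import Pool.Agent.Lib.MP_f4742e_al.X.AQE
import Pool.Agent.Lib.MP_f4742e_al.X.AFive
import Pool.Agent.Lib.MP_f4742e_al.X.AGamma
import Pool.Agent.Lib.MP_f4742e_al.X.ATheta
import Pool.Agent.Lib.MP_f4742e_al.HStructA

/-!
The type `(m, m, 1, ..., 1)` with Witt index `m`.
-/

set_option autoImplicit false

namespace Pool.Agent.MP_f4742e_al

open Matrix

namespace Frame

variable {F K : Type*} [Field F] [Field K] [Algebra F K] {n : ℕ}
  {R : Matrix (Fin n) (Fin n) K →ₗ[K] Matrix (Fin n) (Fin n) K} {w : ℕ} (Φ : Frame F R w)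

include Φ

/-- A nonzero vector has a rational vector which is not orthogonal to it. -/
theorem exists_dot_ne {p : Fin n → K} (hp : p ≠ 0) : ∃ t ∈ Φ.V, t ⬝ᵥ p ≠ 0 := by
  by_contra hcon
  push Not at hcon
  apply hp
  have h1 : ∀ t : Fin n → K, t ⬝ᵥ p = 0 := by
    refine Φ.vec_ind (P := fun t => t ⬝ᵥ p = 0) hcon ?_ ?_
    · intro u v hu hv
      change (u + v) ⬝ᵥ p = 0
      rw [add_dotProduct, hu, hv, add_zero]
    · intro c u hu
      change (c • u) ⬝ᵥ p = 0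
      rw [smul_dotProduct, hu, smul_zero]
  funext i
  have h2 := h1 (Pi.single i 1)
  rw [single_dotProduct, one_mul] at h2
  exact h2

/-- The ratio of two proportional rational vectors is rational. -/
theorem ratio {p q : Fin n → K} (hp : p ∈ Φ.V) (hq : q ∈ Φ.V) (hp0 : p ≠ 0) {ρ : K}
    (h : q = ρ • p) : ∃ c : F, ρ = algebraMap F K c := by
  obtain ⟨t, ht, h1⟩ := Φ.exists_dot_ne hp0
  obtain ⟨c, hc⟩ := Φ.dot t ht p hp
  obtain ⟨d, hd⟩ := Φ.dot t ht q hq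
  refine ⟨d / c, ?_⟩
  rw [h, dotProduct_smul, smul_eq_mul, hc] at hd
  rw [hc] at h1
  rw [map_div₀, ← hd]
  field_simp

theorem smul_mem' {u : Fin n → K} (hu : u ∈ Φ.V) (c : F) : algebraMap F K c • u ∈ Φ.V := by
  rw [algebraMap_smul]
  exact Φ.V.smul_mem c hu

/-- Rational dual vectors. -/
theorem dual2 {p q : Fin n → K} (hp : p ∈ Φ.V) (hq : q ∈ Φ.V) (hq0 : q ≠ 0)
    (hpq : ∀ c : K, p ≠ c • q) : ∃ t ∈ Φ.V, t ⬝ᵥ p = 1 ∧ t ⬝ᵥ q = 0 := by
  have h0 : ∃ t ∈ Φ.V, t ⬝ᵥ q = 0 ∧ t ⬝ᵥ p ≠ 0 := by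
    by_contra hcon
    push Not at hcon
    obtain ⟨s, hs, h1⟩ := Φ.exists_dot_ne hq0
    apply hpq ((s ⬝ᵥ p) / (s ⬝ᵥ q))
    by_contra hne
    have hne' : p - ((s ⬝ᵥ p) / (s ⬝ᵥ q)) • q ≠ 0 := sub_ne_zero.2 hne
    obtain ⟨t, ht, h2⟩ := Φ.exists_dot_ne hne'
    apply h2
    obtain ⟨c, hc⟩ := Φ.dot t ht q hq
    obtain ⟨d, hd⟩ := Φ.dot s hs q hq
    rw [hd] at h1
    have h3 := hcon (t - algebraMap F K (c / d) • s) (Φ.V.sub_mem ht (Φ.smul_mem' hs _)) (by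
      rw [sub_dotProduct, smul_dotProduct, hc, hd, smul_eq_mul, map_div₀]
      field_simp
      ring)
    rw [sub_dotProduct, smul_dotProduct, smul_eq_mul, map_div₀] at h3
    rw [dotProduct_sub, dotProduct_smul, smul_eq_mul, hc, hd]
    linear_combination h3
  obtain ⟨t, ht, h1, h2⟩ := h0
  obtain ⟨c, hc⟩ := Φ.dot t ht p hp
  rw [hc] at h2
  refine ⟨algebraMap F K c⁻¹ • t, Φ.smul_mem' ht _, ?_, ?_⟩
  · rw [smul_dotProduct, hc, smul_eq_mul, map_inv₀, inv_mul_cancel₀ h2]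
  · rw [smul_dotProduct, h1, smul_zero]

theorem dualS {p q : Fin n → K} (hp : Φ.RV p) (hq : Φ.RV q) (hq0 : q ≠ 0)
    (hpq : ∀ c : K, p ≠ c • q) : ∃ t, Φ.RV t ∧ t ⬝ᵥ p = 1 ∧ t ⬝ᵥ q = 0 := by
  obtain ⟨c, hc, hc'⟩ := hp
  obtain ⟨d, hd, hd'⟩ := hq
  obtain ⟨t, ht, h1, h2⟩ := Φ.dual2 hc' hd' (smul_ne_zero hd hq0) (by
    intro r hr
    apply hpq (c⁻¹ * (r * d))
    rw [← smul_smul, ← smul_smul, ← hr, smul_smul, inv_mul_cancel₀ hc, one_smul])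
  refine ⟨c • t, ⟨c⁻¹, inv_ne_zero hc, ?_⟩, ?_, ?_⟩
  · rw [smul_smul, inv_mul_cancel₀ hc, one_smul]
    exact ht
  · rw [dotProduct_smul, smul_eq_mul] at h1
    rw [smul_dotProduct, smul_eq_mul, h1]
  · rw [dotProduct_smul, smul_eq_mul] at h2
    rw [smul_dotProduct, smul_eq_mul, (mul_eq_zero.1 h2).resolve_left hd, mul_zero]

end Frame

namespace XN

variable {F₀ : Type*} [Field F₀] {F : Type*} [Field F] [CharZero F] [Algebra F₀ F] {n : ℕ}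
    {R : Matrix (Fin n) (Fin n) F →ₗ[F] Matrix (Fin n) (Fin n) F} (hR : SRB R) {m : ℕ}
    (Φ : Frame F₀ R m)
    {v w v1 w1 v0 w0 : Fin n → F}

omit [CharZero F] [Algebra F₀ F] in
theorem AD.redual {a : Matrix (Fin n) (Fin n) F} (D : AD a m v w v1 w1 v0 w0)
    {v0' w0' : Fin n → F} (h1 : v0' ⬝ᵥ v = 1) (h2 : v0' ⬝ᵥ w = 0) (h3 : w0' ⬝ᵥ v = 0)
    (h4 : w0' ⬝ᵥ w = 1) : AD a m v w v1 w1 v0' w0' :=
  ⟨D.hm, D.tr, D.am, D.e, D.b, D.av, D.aw, D.av1, D.aw1, h1, h2, h3, h4⟩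

include hR

theorem anis (rv0 : Φ.RV v0) (rw0 : Φ.RV w0)
    (D : AD (R 1) m v w v1 w1 v0 w0) {k : Fin n → F} (rk : Φ.RV k) (hak : R 1 *ᵥ k = 0)
    (hkk : k ⬝ᵥ k = 0) : ∃ α β : F, k = α • v + β • w := by
  have hm := D.hm
  by_contra hno
  push Not at hno
  have hli : LinearIndependent F ![w, v, k] := indep_vwu D.v0v D.v0w D.w0v D.w0w hno
  have h3 := chain_indep (a := R 1) (y := ![v0, w0, k]) (l := ![m - 1, m - 1, 0])
    (by
      intro j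
      fin_cases j
      · change (R 1) ^ (m - 1 + 1) *ᵥ v0 = 0
        rw [show m - 1 + 1 = m by omega, D.am, zero_mulVec]
      · change (R 1) ^ (m - 1 + 1) *ᵥ w0 = 0
        rw [show m - 1 + 1 = m by omega, D.am, zero_mulVec]
      · change (R 1) ^ (0 + 1) *ᵥ k = 0
        rw [zero_add, pow_one, hak])
    (by
      have h6 : (fun j : Fin 3 => (R 1) ^ ((![m - 1, m - 1, 0] : Fin 3 → ℕ) j) *ᵥ
          (![v0, w0, k] : Fin 3 → Fin n → F) j) = ![w, v, k] := by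
        funext j
        fin_cases j
        · exact D.e_v0
        · exact D.e_w0
        · change (R 1) ^ 0 *ᵥ k = k
          rw [pow_zero, one_mulVec]
      rw [h6]
      exact hli)
  let L : Fin 3 → ℕ := ![m - m / 2, m - (m + 1) / 2, 1]
  let l : Fin 3 → ℕ := ![m - 1, m - 1, 0]
  have hLl : ∀ j, L j ≤ l j + 1 := by
    intro j
    fin_cases j
    · change m - m / 2 ≤ m - 1 + 1
      omega
    · change m - (m + 1) / 2 ≤ m - 1 + 1
      omega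
    · change 1 ≤ 0 + 1
      omega
  let s : (Σ j : Fin 3, Fin (L j)) → (Σ j : Fin 3, Fin (l j + 1)) := fun p =>
    ⟨p.1, ⟨l p.1 - (p.2 : ℕ), by omega⟩⟩
  have hs : Function.Injective s := by
    rintro ⟨j, p⟩ ⟨j', p'⟩ h
    have h4 := Sigma.mk.inj_iff.1 h
    obtain ⟨h5, h6⟩ := h4
    have h5' : j = j' := h5
    subst h5'
    have h7 := congrArg Fin.val (eq_of_heq h6)
    have h8 : l j - (p : ℕ) = l j - (p' : ℕ) := h7
    have hp := p.2
    have hp' := p'.2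
    have h10 := hLl j
    have h9 : (p : ℕ) = (p' : ℕ) := by omega
    rw [Fin.ext h9]
  have h4 := h3.comp s hs
  have hz : ∀ (i : ℕ) (y y' : Fin n → F), m ≤ i → y ⬝ᵥ ((R 1) ^ i *ᵥ y') = 0 := by
    intro i y y' hi
    obtain ⟨f, rfl⟩ := Nat.exists_eq_add_of_le' hi
    rw [pow_add, D.am, mul_zero, zero_mulVec, dotProduct_zero]
  have hk : ∀ (i : ℕ) (y : Fin n → F), 1 ≤ i → k ⬝ᵥ ((R 1) ^ i *ᵥ y) = 0 := by
    intro i y hi
    obtain ⟨f, rfl⟩ := Nat.exists_eq_add_of_le' hi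
    rw [← dot_symm (hR.a_tr _), pow_succ, ← mulVec_mulVec, hak, mulVec_zero, zero_dotProduct]
  have hk' : ∀ (i : ℕ) (y : Fin n → F), 1 ≤ i → y ⬝ᵥ ((R 1) ^ i *ᵥ k) = 0 := by
    intro i y hi
    rw [dot_symm' (hR.a_tr _), hk i y hi]
  have hv : ∀ i : ℕ, m - 1 ≤ i → v0 ⬝ᵥ ((R 1) ^ i *ᵥ v0) = 0 := by
    intro i hi
    rcases Nat.eq_or_lt_of_le hi with h | h
    · rw [← h, D.e_v0, D.v0w]
    · exact hz i _ _ (by omega)
  have h5 := Φ.wiE (g := fun p : (Σ j : Fin 3, Fin (L j)) =>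
    (R 1) ^ (l p.1 - (p.2 : ℕ)) *ᵥ (![v0, w0, k] : Fin 3 → Fin n → F) p.1) (by
      rintro ⟨j, p⟩
      fin_cases j
      · exact Φ.RV_mulVec (Φ.RM_pow _) rv0
      · exact Φ.RV_mulVec (Φ.RM_pow _) rw0
      · exact Φ.RV_mulVec (Φ.RM_pow _) rk) (by
      rintro ⟨j, p⟩ ⟨j', q⟩
      have hp := p.2
      have hq := q.2
      change ((R 1) ^ (l j - (p : ℕ)) *ᵥ (![v0, w0, k] : Fin 3 → Fin n → F) j) ⬝ᵥ
        ((R 1) ^ (l j' - (q : ℕ)) *ᵥ (![v0, w0, k] : Fin 3 → Fin n → F) j') = 0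
      rw [dot_symm (hR.a_tr _), mulVec_mulVec, ← pow_add]
      fin_cases j <;> fin_cases j'
      · change (p : ℕ) < m - m / 2 at hp
        change (q : ℕ) < m - m / 2 at hq
        exact hv (m - 1 - (p : ℕ) + (m - 1 - (q : ℕ))) (by omega)
      · change (p : ℕ) < m - m / 2 at hp
        change (q : ℕ) < m - (m + 1) / 2 at hq
        exact hz (m - 1 - (p : ℕ) + (m - 1 - (q : ℕ))) v0 w0 (by omega)
      · change (p : ℕ) < m - m / 2 at hp
        exact hk' (m - 1 - (p : ℕ) + (0 - (q : ℕ))) v0 (by omega)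
      · change (p : ℕ) < m - (m + 1) / 2 at hp
        change (q : ℕ) < m - m / 2 at hq
        exact hz (m - 1 - (p : ℕ) + (m - 1 - (q : ℕ))) w0 v0 (by omega)
      · change (p : ℕ) < m - (m + 1) / 2 at hp
        change (q : ℕ) < m - (m + 1) / 2 at hq
        exact hz (m - 1 - (p : ℕ) + (m - 1 - (q : ℕ))) w0 w0 (by omega)
      · change (p : ℕ) < m - (m + 1) / 2 at hp
        exact hk' (m - 1 - (p : ℕ) + (0 - (q : ℕ))) w0 (by omega)
      · change (q : ℕ) < m - m / 2 at hq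
        exact hk (0 - (p : ℕ) + (m - 1 - (q : ℕ))) v0 (by omega)
      · change (q : ℕ) < m - (m + 1) / 2 at hq
        exact hk (0 - (p : ℕ) + (m - 1 - (q : ℕ))) w0 (by omega)
      · change k ⬝ᵥ ((R 1) ^ (0 - (p : ℕ) + (0 - (q : ℕ))) *ᵥ k) = 0
        rw [Nat.zero_sub, Nat.zero_sub, pow_zero, one_mulVec, hkk]) h4
  rw [Fintype.card_sigma, Fin.sum_univ_three, Fintype.card_fin, Fintype.card_fin,
    Fintype.card_fin] at h5
  change m - m / 2 + (m - (m + 1) / 2) + 1 ≤ m at h5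
  omega

/-- The end of the proof, once the form of `b s` is known. -/
theorem aux_main (D : AD (R 1) m v w v1 w1 v0 w0) (h1 : R (vecMulVec v v) = 0)
    (h2 : R (vecMulVec w w) = 0) {f1 f2 : Fin n → F} (hf1 : f1 ∈ Φ.V) (hf2 : f2 ∈ Φ.V)
    {α1 β1 α2 β2 : F} (e1 : f1 = α1 • v + β1 • w) (e2 : f2 = α2 • v + β2 • w)
    (hdet : α1 * β2 - α2 * β1 ≠ 0) {ν : F} (hν : ν ≠ 0)
    (h3 : ∀ x, xᵀ = x → (R 1) ^ (m - 2) *ᵥ (R x *ᵥ w) = 0 ∧
      (R 1) ^ (m - 2) *ᵥ (R x *ᵥ v) = (ν * (v ⬝ᵥ (x *ᵥ w))) • v) : R ^ (2 * m - 1) = 0 := by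
  have hv : v ≠ 0 := by
    rintro rfl
    have := D.v0v
    rw [dotProduct_zero] at this
    exact zero_ne_one this
  have hw : w ≠ 0 := by
    rintro rfl
    have := D.w0w
    rw [dotProduct_zero] at this
    exact zero_ne_one this
  have hex : ∃ x ∈ Φ.M, xᵀ = x ∧ v ⬝ᵥ (x *ᵥ w) ≠ 0 := by
    by_contra hcon
    push Not at hcon
    have h4 := Φ.sym_ind (P := fun x => v ⬝ᵥ (x *ᵥ w) = 0) hcon (by
      intro x y hx hy
      change v ⬝ᵥ ((x + y) *ᵥ w) = 0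
      rw [add_mulVec, dotProduct_add, hx, hy, add_zero]) (by
      intro c x hx
      change v ⬝ᵥ ((c • x) *ᵥ w) = 0
      rw [smul_mulVec, dotProduct_smul, hx, smul_zero]) (vecMulVec v0 w0 + vecMulVec w0 v0) (by
      rw [transpose_add, transpose_vecMulVec, transpose_vecMulVec, add_comm])
    rw [add_mulVec, vmv_mulVec, vmv_mulVec, D.w0w, D.v0w, one_smul, zero_smul, add_zero,
      dotProduct_comm, D.v0v] at h4
    exact one_ne_zero h4
  obtain ⟨x, hxM, hx, hx0⟩ := hex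
  obtain ⟨hxw, hxv⟩ := h3 x hx
  set θ := ν * (v ⬝ᵥ (x *ᵥ w)) with hθ
  have hθ0 : θ ≠ 0 := mul_ne_zero hν hx0
  have g1 : (α1 * θ) • v ∈ Φ.V := by
    have h4 := Φ.act _ (Φ.a_pow (m - 2)) _ (Φ.act _ (Φ.map x hxM) _ hf1)
    rw [e1, mulVec_add, mulVec_add, mulVec_smul, mulVec_smul, mulVec_smul, mulVec_smul, hxw, hxv,
      smul_zero, add_zero, smul_smul] at h4
    exact h4
  have g2 : (α2 * θ) • v ∈ Φ.V := by
    have h4 := Φ.act _ (Φ.a_pow (m - 2)) _ (Φ.act _ (Φ.map x hxM) _ hf2)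
    rw [e2, mulVec_add, mulVec_add, mulVec_smul, mulVec_smul, mulVec_smul, mulVec_smul, hxw, hxv,
      smul_zero, add_zero, smul_smul] at h4
    exact h4
  have key : Φ.RV v ∧ Φ.RV w := by
    by_cases ha : α1 = 0
    · have ha2 : α2 ≠ 0 := by
        rintro rfl
        apply hdet
        rw [ha]
        ring
      have hb1 : β1 ≠ 0 := by
        rintro rfl
        apply hdet
        rw [ha]
        ring
      refine ⟨⟨_, mul_ne_zero ha2 hθ0, g2⟩, ⟨β1, hb1, ?_⟩⟩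
      rw [ha, zero_smul, zero_add] at e1
      rw [← e1]
      exact hf1
    · refine ⟨⟨_, mul_ne_zero ha hθ0, g1⟩, ?_⟩
      obtain ⟨c, hc⟩ := Φ.ratio g1 g2 (smul_ne_zero (mul_ne_zero ha hθ0) hv) (ρ := α2 / α1) (by
        rw [smul_smul]
        congr 1
        field_simp)
      refine ⟨β2 - α2 / α1 * β1, ?_, ?_⟩
      · intro h4
        apply hdet
        have h5 : α1 * β2 - α2 * β1 = α1 * (β2 - α2 / α1 * β1) := by field_simp
        rw [h5, h4, mul_zero]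
      · have h5 : (β2 - α2 / α1 * β1) • w = f2 - algebraMap F₀ F c • f1 := by
          rw [← hc, e1, e2, smul_add, smul_smul, div_mul_cancel₀ _ ha, smul_smul]
          module
        rw [h5]
        exact Φ.V.sub_mem hf2 (Φ.smul_mem' hf1 _)
  obtain ⟨rv, rw'⟩ := key
  obtain ⟨v0', rv0, k1, k2⟩ := Φ.dualS rv rw' hw (by
    rintro c hc
    have h4 := D.v0v
    rw [hc, dotProduct_smul, D.v0w, smul_zero] at h4
    exact zero_ne_one h4)
  obtain ⟨w0', rw0, k3, k4⟩ := Φ.dualS rw' rv hv (by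
    rintro c hc
    have h4 := D.w0w
    rw [hc, dotProduct_smul, D.w0v, smul_zero] at h4
    exact zero_ne_one h4)
  have D' := D.redual k1 k2 k4 k3
  refine a5_of hR Φ rv rw' rv0 rw0 (fun y hy => qE hR D' y ?_) D' h1 h2 hν h3
  rintro t (rfl | rfl) h4 h5
  · exact anis hR Φ rv0 rw0 D' (Φ.RV_mulVec (Φ.RM_mapPow (Φ.RM_of_mem hy) m) rv) h4 h5
  · exact anis hR Φ rv0 rw0 D' (Φ.RV_mulVec (Φ.RM_mapPow (Φ.RM_of_mem hy) m) rw') h4 h5

/-- (A): the type `(m, m, 1, ..., 1)` with Witt index `m`. -/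
theorem a_zero (D : AD (R 1) m v w v1 w1 v0 w0) {f1 f2 : Fin n → F} (hf1 : f1 ∈ Φ.V)
    (hf2 : f2 ∈ Φ.V) {α1 β1 α2 β2 : F} (e1 : f1 = α1 • v + β1 • w) (e2 : f2 = α2 • v + β2 • w)
    (hdet : α1 * β2 - α2 * β1 ≠ 0) : R ^ (2 * m - 1) = 0 := by
  obtain ⟨h2, h3⟩ := theta_zero hR D
  rcases gamma_form hR Φ D h2 h3 hf1 hf2 e1 e2 hdet with ⟨ν, hν, h4⟩ | ⟨ν, hν, h4⟩
  · exact aux_main hR Φ D h2 h3 hf1 hf2 e1 e2 hdet hν h4
  · refine aux_main hR Φ D.swap h3 h2 hf1 hf2 (e1.trans (add_comm _ _)) (e2.trans (add_comm _ _))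
      (by
        intro h5
        apply hdet
        linear_combination -h5) hν ?_
    intro x hx
    rw [dot_symm' hx w v]
    exact h4 x hx

end XN

end Pool.Agent.MP_f4742e_al
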