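import Pool.Agent.Lib.MP_f4742e_al.X.BData

/-!
The type `(m, m - 1, 1, ..., 1)` with `m ≥ 4` and Witt index `m - 1` is impossible.
-/

set_option autoImplicit false

namespace Pool.Agent.MP_f4742e_al

open Matrix

/-- `BBData` without the description of the range. -/
structure BBr {K : Type*} [Field K] {n : ℕ} (a : Matrix (Fin n) (Fin n) K) (m : ℕ)
    (v v1 v2 u u1 v0 u0 : Fin n → K) : Prop where
  hm : 4 ≤ m
  tr : aᵀ = a
  am : a ^ m = 0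
  e : a ^ (m - 1) = vecMulVec v v
  b : a ^ (m - 2) = vecMulVec v v1 + vecMulVec v1 v + vecMulVec u u
  b3 : a ^ (m - 3) = vecMulVec v v2 + vecMulVec v2 v + vecMulVec v1 v1 + vecMulVec u u1 +
    vecMulVec u1 u
  av : a *ᵥ v = 0
  au : a *ᵥ u = 0
  av1 : a *ᵥ v1 = v
  au1 : a *ᵥ u1 = u
  v0v : v0 ⬝ᵥ v = 1
  v0u : v0 ⬝ᵥ u = 0
  u0v : u0 ⬝ᵥ v = 0
  u0u : u0 ⬝ᵥ u = 1

section

variable {K : Type*} [Field K] [CharZero K] {n : ℕ}
  {R : Matrix (Fin n) (Fin n) K →ₗ[K] Matrix (Fin n) (Fin n) K} (hR : SRB R) {m : ℕ}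
  {v v1 v2 u u1 v0 u0 : Fin n → K} (D : BBr (R 1) m v v1 v2 u u1 v0 u0)

namespace BBr

include D

omit [CharZero K] in
theorem b_mulVec (y : Fin n → K) : (R 1) ^ (m - 2) *ᵥ y =
    (v1 ⬝ᵥ y) • v + (v ⬝ᵥ y) • v1 + (u ⬝ᵥ y) • u := by
  rw [D.b, add_mulVec, add_mulVec, vmv_mulVec, vmv_mulVec, vmv_mulVec]

omit [CharZero K] in
theorem b3_mulVec (y : Fin n → K) : (R 1) ^ (m - 3) *ᵥ y =
    (v2 ⬝ᵥ y) • v + (v ⬝ᵥ y) • v2 + (v1 ⬝ᵥ y) • v1 + (u1 ⬝ᵥ y) • u + (u ⬝ᵥ y) • u1 := by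
  rw [D.b3, add_mulVec, add_mulVec, add_mulVec, add_mulVec, vmv_mulVec, vmv_mulVec, vmv_mulVec,
    vmv_mulVec, vmv_mulVec]

omit [CharZero K] in
theorem v_ne : v ≠ 0 := by
  rintro rfl
  have := D.v0v
  rw [dotProduct_zero] at this
  exact zero_ne_one this

omit [CharZero K] in
theorem e_ne : vecMulVec v v ≠ (0 : Matrix (Fin n) (Fin n) K) :=
  vecMulVec_ne_zero D.v_ne D.v_ne

theorem M_ne : (m : K) - 1 ≠ 0 := by
  have : (m : K) ≠ 1 := by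
    have := D.hm
    have : m ≠ 1 := by omega
    exact_mod_cast this
  exact sub_ne_zero.2 this

include hR

theorem Re : R (vecMulVec v v) = 0 := by
  have hm := D.hm
  have h := R_e hR.rb (by omega : 1 ≤ m) D.am
  rwa [D.e] at h

/-- `v ⬝ s v = 0`. -/
theorem vsv (x : Matrix (Fin n) (Fin n) K) : v ⬝ᵥ (R x *ᵥ v) = 0 := by
  have hm := D.hm
  have h3 := R_exe hR.rb (by omega) D.am x
  rw [D.e, mul_assoc, mul_vecMulVec, vecMulVec_mul_vecMulVec, vecMulVec_smul, map_smul, D.Re hR,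
    smul_zero, mul_assoc, mul_vecMulVec, vecMulVec_mul_vecMulVec, vecMulVec_smul] at h3
  rcases smul_eq_zero.1 h3.symm with h5 | h5
  · exact h5
  · exact absurd h5 D.e_ne

/-- `u ⬝ s v = 0`. -/
theorem usv (x : Matrix (Fin n) (Fin n) K) : u ⬝ᵥ (R x *ᵥ v) = 0 := by
  have h1 := hR.S1_diag (D.vsv hR) (m - 2) x x
  rw [D.b_mulVec] at h1
  simp only [dotProduct_add, dotProduct_smul, smul_eq_mul] at h1
  rw [dotProduct_comm _ v, dotProduct_comm _ u, D.vsv hR x] at h1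
  have h2 : (u ⬝ᵥ (R x *ᵥ v)) ^ 2 = 0 := by linear_combination h1
  exact pow_eq_zero_iff (two_ne_zero) |>.1 h2

/-- `v1 ⬝ s v = 0`. -/
theorem v1sv (x : Matrix (Fin n) (Fin n) K) : v1 ⬝ᵥ (R x *ᵥ v) = 0 := by
  have h1 := hR.S1_diag (D.vsv hR) (m - 3) x x
  rw [D.b3_mulVec] at h1
  simp only [dotProduct_add, dotProduct_smul, smul_eq_mul] at h1
  rw [dotProduct_comm _ v, dotProduct_comm _ u, dotProduct_comm _ v1, D.vsv hR x,
    D.usv hR x] at h1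
  have h2 : (v1 ⬝ᵥ (R x *ᵥ v)) ^ 2 = 0 := by linear_combination h1
  exact pow_eq_zero_iff (two_ne_zero) |>.1 h2

theorem vsu (x : Matrix (Fin n) (Fin n) K) : v ⬝ᵥ (R x *ᵥ u) = 0 := by
  rw [dot_symm' (hR.tr x), D.usv hR]

theorem vsv1 (x : Matrix (Fin n) (Fin n) K) : v ⬝ᵥ (R x *ᵥ v1) = 0 := by
  rw [dot_symm' (hR.tr x), D.v1sv hR]

theorem bsv (x : Matrix (Fin n) (Fin n) K) : (R 1) ^ (m - 2) *ᵥ (R x *ᵥ v) = 0 := by
  rw [D.b_mulVec, D.vsv hR, D.usv hR, D.v1sv hR]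
  simp

theorem bsu (x : Matrix (Fin n) (Fin n) K) : (R 1) ^ (m - 2) *ᵥ (R x *ᵥ u) =
    (v1 ⬝ᵥ (R x *ᵥ u)) • v + (u ⬝ᵥ (R x *ᵥ u)) • u := by
  rw [D.b_mulVec, D.vsu hR, zero_smul, add_zero]

/-- `R b = e / (m-1)`. -/
theorem Rb : (2 : K) • Bf R v v1 + Bf R u u = ((m : K) - 1)⁻¹ • vecMulVec v v := by
  have hm := D.hm
  have h := R_b hR.rb (by omega : 2 ≤ m)
  rw [D.e, D.b, map_add, map_add, ← Bf_apply, ← Bf_apply, ← Bf_apply, Bf_comm hR v1 v,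
    ← two_smul K] at h
  exact h

/-- The value `R (b s b)`. -/
theorem Rbsb (x : Matrix (Fin n) (Fin n) K) :
    R ((R 1) ^ (m - 2) * R x * (R 1) ^ (m - 2)) =
      (2 * (v1 ⬝ᵥ (R x *ᵥ u))) • Bf R u v + (u ⬝ᵥ (R x *ᵥ u)) • Bf R u u := by
  have h1 : (R 1) ^ (m - 2) * R x * (R 1) ^ (m - 2) =
      vecMulVec ((R 1) ^ (m - 2) *ᵥ (R x *ᵥ v)) v1 +
        vecMulVec ((R 1) ^ (m - 2) *ᵥ (R x *ᵥ v1)) v +
        vecMulVec ((R 1) ^ (m - 2) *ᵥ (R x *ᵥ u)) u := by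
    nth_rw 2 [D.b]
    rw [Matrix.mul_add, Matrix.mul_add, mul_vecMulVec, mul_vecMulVec, mul_vecMulVec,
      ← mulVec_mulVec, ← mulVec_mulVec, ← mulVec_mulVec]
  have h2 : u ⬝ᵥ (R x *ᵥ v1) = v1 ⬝ᵥ (R x *ᵥ u) := dot_symm' (hR.tr x) _ _
  rw [h1, D.bsv hR, D.bsu hR, D.b_mulVec, D.vsv1 hR, h2, zero_vecMulVec, zero_add, map_add,
    ← Bf_apply, ← Bf_apply]
  have h3 : Bf R v v = 0 := D.Re hR
  simp only [map_add, map_smul, LinearMap.add_apply, LinearMap.smul_apply, zero_smul, h3,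
    smul_zero, zero_add, add_zero, Bf_comm hR v u]
  module

/-- The linear relation (LB). -/
theorem LB {x : Matrix (Fin n) (Fin n) K} (hx : xᵀ = x) :
    (v ⬝ᵥ (x *ᵥ v)) • Bf R v v1 + (u ⬝ᵥ (x *ᵥ v)) • Bf R u v +
      ((m : K) - 1) • ((2 * (v1 ⬝ᵥ (R x *ᵥ u))) • Bf R u v +
        (u ⬝ᵥ (R x *ᵥ u)) • Bf R u u) = 0 := by
  have hm := D.hm
  have hM := D.M_ne
  have hζ : R (((m : K) - 1) • (R 1) ^ (m - 2)) = (R 1) ^ (m - 1) := by
    rw [map_smul, R_b hR.rb (by omega : 2 ≤ m), smul_smul, mul_inv_cancel₀ hM, one_smul]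
  have h5 := hR.T1 (m - 2) hx (R_e hR.rb (by omega : 1 ≤ m) D.am)
    (by rw [transpose_smul, hR.a_tr]) hζ
  have e1 : (R 1) ^ (m - 2) * R x * (R 1) ^ (m - 1) = 0 := by
    rw [D.e, mul_vecMulVec, ← mulVec_mulVec, D.bsv hR, zero_vecMulVec]
  have e2 : (R 1) ^ (m - 1) * R x * (R 1) ^ (m - 2) = 0 := by
    have h6 : (R 1) ^ (m - 1) * R x * (R 1) ^ (m - 2) =
        ((R 1) ^ (m - 2) * R x * (R 1) ^ (m - 1))ᵀ := by
      rw [transpose_mul, transpose_mul, hR.a_tr, hR.a_tr, hR.tr, Matrix.mul_assoc]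
    rw [h6, e1, transpose_zero]
  have hvv : Bf R v v = 0 := D.Re hR
  have e3 : R ((R 1) ^ (m - 2) * x * (R 1) ^ (m - 1)) =
      (v ⬝ᵥ (x *ᵥ v)) • Bf R v v1 + (u ⬝ᵥ (x *ᵥ v)) • Bf R u v := by
    rw [D.e, mul_vecMulVec, ← mulVec_mulVec, D.b_mulVec, ← Bf_apply]
    simp only [map_add, map_smul, LinearMap.add_apply, LinearMap.smul_apply, hvv, smul_zero,
      zero_add, Bf_comm hR v1 v]
  rw [e1, e2, e3, mul_smul_comm, map_smul, D.Rbsb hR, add_zero] at h5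
  exact (smul_eq_zero.1 h5.symm).resolve_left two_ne_zero

/-- The quadratic relation. -/
theorem QR {x : Matrix (Fin n) (Fin n) K} (hx : xᵀ = x) (x' : Matrix (Fin n) (Fin n) K) :
    (((m : K) - 1) * (u ⬝ᵥ (R x *ᵥ u)) * (u ⬝ᵥ (R x' *ᵥ u))) • Bf R u u +
      ((v ⬝ᵥ (x *ᵥ v)) / 2 * (v1 ⬝ᵥ (R x' *ᵥ u)) + (u ⬝ᵥ (x *ᵥ v)) / 2 * (u ⬝ᵥ (R x' *ᵥ u)) +
        ((m : K) - 1) * ((v1 ⬝ᵥ (R x *ᵥ u)) * (u ⬝ᵥ (R x' *ᵥ u)) +
          (u ⬝ᵥ (R x *ᵥ u)) * (v1 ⬝ᵥ (R x' *ᵥ u)))) • Bf R u v = 0 := by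
  have hL := D.LB hR hx
  obtain ⟨g, hg⟩ : ∃ g, g = v ⬝ᵥ (x *ᵥ v) := ⟨_, rfl⟩
  obtain ⟨d, hd⟩ : ∃ d, d = u ⬝ᵥ (x *ᵥ v) := ⟨_, rfl⟩
  obtain ⟨C, hC⟩ : ∃ C, C = v1 ⬝ᵥ (R x *ᵥ u) := ⟨_, rfl⟩
  obtain ⟨G, hG⟩ : ∃ G, G = u ⬝ᵥ (R x *ᵥ u) := ⟨_, rfl⟩
  rw [← hg, ← hd, ← hC, ← hG] at hL ⊢
  obtain ⟨k, hk⟩ : ∃ k : Matrix (Fin n) (Fin n) K, k = (g / 2) • (vecMulVec v v1 + vecMulVec v1 v) +
      (d / 2 + ((m : K) - 1) * C) • (vecMulVec u v + vecMulVec v u) +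
      (((m : K) - 1) * G) • vecMulVec u u := ⟨_, rfl⟩
  have hkt : kᵀ = k := by
    rw [hk]
    simp only [transpose_add, transpose_smul, transpose_vecMulVec]
    abel_nf
  have hRk : R k = 0 := by
    rw [← hL, hk]
    simp only [map_add, map_smul, ← Bf_apply, Bf_comm hR v1 v, Bf_comm hR v u]
    module
  have h1 := hR.K hkt hRk (m - 2) x'
  have h2 : u ⬝ᵥ (R x' *ᵥ v1) = v1 ⬝ᵥ (R x' *ᵥ u) := dot_symm' (hR.tr x') _ _
  have hvv : Bf R v v = 0 := D.Re hR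
  have hbv1 : (R 1) ^ (m - 2) *ᵥ (R x' *ᵥ v1) =
      (v1 ⬝ᵥ (R x' *ᵥ v1)) • v + (v1 ⬝ᵥ (R x' *ᵥ u)) • u := by
    rw [D.b_mulVec, D.vsv1 hR, h2, zero_smul, add_zero]
  rw [hk] at h1
  simp only [Matrix.mul_add, mul_smul_comm, mul_vecMulVec, ← mulVec_mulVec, D.bsv hR, D.bsu hR,
    hbv1, map_add, map_smul, ← Bf_apply, LinearMap.add_apply, LinearMap.smul_apply, map_zero,
    LinearMap.zero_apply, hvv, smul_zero, zero_add, add_zero, Bf_comm hR v u] at h1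
  rw [← h1]
  module

omit [CharZero K] hR in
/-- The element `x1 = v0 u0ᵀ + u0 v0ᵀ`. -/
theorem x1_spec : ∃ x : Matrix (Fin n) (Fin n) K, xᵀ = x ∧ v ⬝ᵥ (x *ᵥ v) = 0 ∧
    u ⬝ᵥ (x *ᵥ v) = 1 := by
  refine ⟨vecMulVec v0 u0 + vecMulVec u0 v0, ?_, ?_, ?_⟩
  · rw [transpose_add, transpose_vecMulVec, transpose_vecMulVec, add_comm]
  · rw [add_mulVec, vmv_mulVec, vmv_mulVec, D.u0v, dotProduct_add, dotProduct_smul,
      dotProduct_smul, dotProduct_comm v u0, D.u0v]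
    simp
  · rw [add_mulVec, vmv_mulVec, vmv_mulVec, D.u0v, D.v0v, dotProduct_add, dotProduct_smul,
      dotProduct_smul, dotProduct_comm u u0, D.u0u]
    simp

omit [CharZero K] hR in
theorem x2_spec : ∃ x : Matrix (Fin n) (Fin n) K, xᵀ = x ∧ v ⬝ᵥ (x *ᵥ v) = 1 ∧
    u ⬝ᵥ (x *ᵥ v) = 0 := by
  refine ⟨vecMulVec v0 v0, ?_, ?_, ?_⟩
  · rw [transpose_vecMulVec]
  · rw [vmv_mulVec, D.v0v, dotProduct_smul, dotProduct_comm v v0, D.v0v]
    simp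
  · rw [vmv_mulVec, D.v0v, dotProduct_smul, dotProduct_comm u v0, D.v0u]
    simp

/-- `R (u vᵀ) = 0`. -/
theorem y2_zero : Bf R u v = 0 := by
  by_contra hy
  have hM := D.M_ne
  -- (i)
  have hi : ∀ x : Matrix (Fin n) (Fin n) K, xᵀ = x → v ⬝ᵥ (x *ᵥ v) = 0 →
      (u ⬝ᵥ (x *ᵥ v)) * (u ⬝ᵥ (R x *ᵥ u)) = 0 := by
    intro x hx hg
    have h1 := D.LB hR hx
    have h2 := D.QR hR hx x
    rw [hg] at h1 h2
    generalize u ⬝ᵥ (x *ᵥ v) = d at h1 h2 ⊢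
    generalize u ⬝ᵥ (R x *ᵥ u) = G at h1 h2 ⊢
    generalize v1 ⬝ᵥ (R x *ᵥ u) = C at h1 h2 ⊢
    have h3 : (2⁻¹ * (d * G)) • Bf R u v = 0 := by
      have h4 : (2⁻¹ * (d * G)) • Bf R u v = G • ((0 : K) • Bf R v v1 + d • Bf R u v +
          ((m : K) - 1) • ((2 * C) • Bf R u v + G • Bf R u u)) -
          ((((m : K) - 1) * G * G) • Bf R u u + (0 / 2 * C + d / 2 * G +
            ((m : K) - 1) * (C * G + G * C)) • Bf R u v) := by
        module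
      rw [h4, h1, h2, smul_zero, sub_zero]
    have h4 := (smul_eq_zero.1 h3).resolve_right hy
    exact (mul_eq_zero.1 h4).resolve_left (inv_ne_zero two_ne_zero)
  obtain ⟨x1, hx1, hg1, hd1⟩ := D.x1_spec
  obtain ⟨x2, hx2, hg2, hd2⟩ := D.x2_spec
  have hG1 : u ⬝ᵥ (R x1 *ᵥ u) = 0 := by
    have h1 := hi x1 hx1 hg1
    rwa [hd1, one_mul] at h1
  have hC1 : ((m : K) - 1) * (2 * (v1 ⬝ᵥ (R x1 *ᵥ u))) = -1 := by
    have h1 := D.LB hR hx1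
    rw [hg1, hd1, hG1] at h1
    have h2 : (1 + ((m : K) - 1) * (2 * (v1 ⬝ᵥ (R x1 *ᵥ u)))) • Bf R u v = 0 := by
      rw [← h1]
      module
    have h3 := (smul_eq_zero.1 h2).resolve_right hy
    linear_combination h3
  have h1 := D.QR hR hx2 x1
  have h2 := D.QR hR hx2 x2
  have h3 := D.LB hR hx2
  have h4 := D.Rb hR
  rw [hg2, hd2, hG1] at h1
  rw [hg2, hd2] at h2 h3
  generalize u ⬝ᵥ (R x2 *ᵥ u) = τ at h1 h2 h3
  generalize v1 ⬝ᵥ (R x2 *ᵥ u) = σ at h1 h2 h3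
  generalize v1 ⬝ᵥ (R x1 *ᵥ u) = C at hC1 h1
  have h5 : (1 / 2 * C + ((m : K) - 1) * (τ * C)) • Bf R u v = 0 := by
    rw [← h1]
    module
  have h6 := (smul_eq_zero.1 h5).resolve_right hy
  have h7 : ((m : K) - 1) * (2 * τ) = -1 := by
    linear_combination (-(2 * ((m : K) - 1) * 2) * h6 + (1 + 2 * ((m : K) - 1) * τ) * hC1)
  apply D.e_ne
  have h8 : ((m : K) - 1)⁻¹ • vecMulVec v v = (0 : Matrix (Fin n) (Fin n) K) := by
    rw [← h4]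
    have h9 : (2 : K) • Bf R v v1 + Bf R u u = (2 : K) • ((1 : K) • Bf R v v1 +
        (0 : K) • Bf R u v + ((m : K) - 1) • ((2 * σ) • Bf R u v + τ • Bf R u u)) +
        (1 - 2 * ((m : K) - 1) * τ) • Bf R u u - (4 * ((m : K) - 1) * σ) • Bf R u v := by
      module
    have h10 : (1 - 2 * ((m : K) - 1) * τ) • Bf R u u - (4 * ((m : K) - 1) * σ) • Bf R u v =
        (8 * ((m : K) - 1)) • ((((m : K) - 1) * τ * τ) • Bf R u u + (1 / 2 * σ + 0 / 2 * τ +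
            ((m : K) - 1) * (σ * τ + τ * σ)) • Bf R u v) := by
      have e1 : (8 * ((m : K) - 1)) * (((m : K) - 1) * τ * τ) = 1 - 2 * ((m : K) - 1) * τ := by
        linear_combination (4 * ((m : K) - 1) * τ - 1) * h7
      have e2 : (8 * ((m : K) - 1)) * (1 / 2 * σ + 0 / 2 * τ +
            ((m : K) - 1) * (σ * τ + τ * σ)) = -(4 * ((m : K) - 1) * σ) := by
        linear_combination (8 * ((m : K) - 1) * σ) * h7
      rw [smul_add, smul_smul, smul_smul, e1, e2, neg_smul, sub_eq_add_neg]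
    rw [h9, h3, smul_zero, zero_add, h10, h2, smul_zero]
  exact (smul_eq_zero.1 h8).resolve_left (inv_ne_zero hM)

theorem QR0 {x : Matrix (Fin n) (Fin n) K} (hx : xᵀ = x) :
    (v ⬝ᵥ (x *ᵥ v)) • Bf R v v1 + (((m : K) - 1) * (u ⬝ᵥ (R x *ᵥ u))) • Bf R u u = 0 := by
  have h1 := D.LB hR hx
  rw [D.y2_zero hR, smul_zero, smul_zero, zero_add, add_zero, smul_smul] at h1
  exact h1

theorem usu_symm {x : Matrix (Fin n) (Fin n) K} (hx : xᵀ = x) : u ⬝ᵥ (R x *ᵥ u) = 0 := by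
  have hM := D.M_ne
  have h1 := D.QR hR hx x
  rw [D.y2_zero hR, smul_zero, add_zero] at h1
  rcases smul_eq_zero.1 h1 with h2 | h2
  · have h3 : (u ⬝ᵥ (R x *ᵥ u)) ^ 2 = 0 := by
      rw [mul_assoc] at h2
      have h4 := (mul_eq_zero.1 h2).resolve_left hM
      rw [pow_two, h4]
    exact pow_eq_zero_iff (two_ne_zero) |>.1 h3
  · exfalso
    obtain ⟨x2, hx2, hg2, -⟩ := D.x2_spec
    have h3 := D.QR0 hR hx2
    have h4 := D.Rb hR
    rw [hg2, one_smul, h2, smul_zero, add_zero] at h3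
    rw [h3, h2, smul_zero, add_zero] at h4
    rcases smul_eq_zero.1 h4.symm with h5 | h5
    · exact (inv_ne_zero hM) h5
    · exact D.e_ne h5

theorem usu (x : Matrix (Fin n) (Fin n) K) : u ⬝ᵥ (R x *ᵥ u) = 0 := by
  have h1 : u ⬝ᵥ (R (x + xᵀ) *ᵥ u) = 0 := D.usu_symm hR (by
    rw [transpose_add, transpose_transpose, add_comm])
  rw [map_add, hR.ti, ← two_smul K, smul_mulVec, dotProduct_smul, smul_eq_mul] at h1
  exact (mul_eq_zero.1 h1).resolve_left two_ne_zero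

theorem vv1_zero : Bf R v v1 = 0 := by
  obtain ⟨x2, hx2, hg2, -⟩ := D.x2_spec
  have h3 := D.QR0 hR hx2
  rw [hg2, one_smul, D.usu hR, mul_zero, zero_smul, add_zero] at h3
  exact h3

theorem y1_eq : Bf R u u = ((m : K) - 1)⁻¹ • vecMulVec v v := by
  have h1 := D.Rb hR
  rw [D.vv1_zero hR, smul_zero, zero_add] at h1
  exact h1

theorem v1su (x : Matrix (Fin n) (Fin n) K) : v1 ⬝ᵥ (R x *ᵥ u) = 0 := by
  have h1 := hR.S1_diag (D.usu hR) (m - 3) x x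
  rw [D.b3_mulVec] at h1
  simp only [dotProduct_add, dotProduct_smul, smul_eq_mul] at h1
  rw [dotProduct_comm _ v, dotProduct_comm _ u, dotProduct_comm _ v1, D.vsu hR x,
    D.usu hR x] at h1
  have h2 : (v1 ⬝ᵥ (R x *ᵥ u)) ^ 2 = 0 := by linear_combination h1
  exact pow_eq_zero_iff (two_ne_zero) |>.1 h2

theorem usv1 (x : Matrix (Fin n) (Fin n) K) : u ⬝ᵥ (R x *ᵥ v1) = 0 := by
  rw [dot_symm' (hR.tr x), D.v1su hR]

theorem b3sv' (x : Matrix (Fin n) (Fin n) K) : (R 1) ^ (m - 3) *ᵥ (R x *ᵥ v) =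
    (v2 ⬝ᵥ (R x *ᵥ v)) • v + (u1 ⬝ᵥ (R x *ᵥ v)) • u := by
  rw [D.b3_mulVec, D.vsv hR, D.v1sv hR, D.usv hR]
  module

theorem b3su (x : Matrix (Fin n) (Fin n) K) : (R 1) ^ (m - 3) *ᵥ (R x *ᵥ u) =
    (v2 ⬝ᵥ (R x *ᵥ u)) • v + (u1 ⬝ᵥ (R x *ᵥ u)) • u := by
  rw [D.b3_mulVec, D.vsu hR, D.v1su hR, D.usu hR]
  module

/-- `u1 ⬝ s v = 0`. -/
theorem u1sv (x : Matrix (Fin n) (Fin n) K) : u1 ⬝ᵥ (R x *ᵥ v) = 0 := by
  have hk : (vecMulVec u v + vecMulVec v u)ᵀ = vecMulVec u v + vecMulVec v u := by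
    rw [transpose_add, transpose_vecMulVec, transpose_vecMulVec, add_comm]
  have hRk : R (vecMulVec u v + vecMulVec v u) = 0 := by
    rw [map_add, ← Bf_apply, ← Bf_apply, Bf_comm hR v u, D.y2_zero hR, add_zero]
  have h1 := hR.K hk hRk (m - 3) x
  have hvv : Bf R v v = 0 := D.Re hR
  simp only [Matrix.mul_add, mul_vecMulVec, ← mulVec_mulVec, D.b3sv' hR, D.b3su hR, map_add,
    ← Bf_apply, LinearMap.add_apply, map_smul, LinearMap.smul_apply, hvv, Bf_comm hR v u,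
    D.y2_zero hR, smul_zero, zero_add, D.y1_eq hR] at h1
  rw [smul_smul] at h1
  have h2 := (smul_eq_zero.1 h1).resolve_right D.e_ne
  exact (mul_eq_zero.1 h2).resolve_right (inv_ne_zero D.M_ne)

theorem b3sv (x : Matrix (Fin n) (Fin n) K) : (R 1) ^ (m - 3) *ᵥ (R x *ᵥ v) =
    (v2 ⬝ᵥ (R x *ᵥ v)) • v := by
  rw [D.b3sv' hR, D.u1sv hR, zero_smul, add_zero]

/-- (E5) for `x` killing `v`. -/
theorem E5 {x : Matrix (Fin n) (Fin n) K} (hx : xᵀ = x) (hxv : x *ᵥ v = 0) :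
    v2 ⬝ᵥ (R x *ᵥ v) = u1 ⬝ᵥ (R x *ᵥ u) := by
  have hm := D.hm
  have hM := D.M_ne
  have hζ : R (((m : K) - 1) • vecMulVec u u) = (R 1) ^ (m - 1) := by
    rw [map_smul, ← Bf_apply, D.y1_eq hR, smul_smul, mul_inv_cancel₀ hM, one_smul, D.e]
  have h5 := hR.T1 (m - 3) hx (R_e hR.rb (by omega : 1 ≤ m) D.am)
    (by rw [transpose_smul, transpose_vecMulVec]) hζ
  have e1 : (R 1) ^ (m - 3) * R x * (R 1) ^ (m - 1) = (v2 ⬝ᵥ (R x *ᵥ v)) • vecMulVec v v := by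
    rw [D.e, mul_vecMulVec, ← mulVec_mulVec, D.b3sv hR, smul_vecMulVec]
  have e2 : (R 1) ^ (m - 1) * R x * (R 1) ^ (m - 3) = (v2 ⬝ᵥ (R x *ᵥ v)) • vecMulVec v v := by
    have h6 : (R 1) ^ (m - 1) * R x * (R 1) ^ (m - 3) =
        ((R 1) ^ (m - 3) * R x * (R 1) ^ (m - 1))ᵀ := by
      rw [transpose_mul, transpose_mul, hR.a_tr, hR.a_tr, hR.tr, Matrix.mul_assoc]
    rw [h6, e1, transpose_smul, transpose_vecMulVec]
  have e3 : R ((R 1) ^ (m - 3) * x * (R 1) ^ (m - 1)) = 0 := by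
    rw [D.e, mul_vecMulVec, ← mulVec_mulVec, hxv, mulVec_zero, zero_vecMulVec, map_zero]
  have e4 : R ((R 1) ^ (m - 3) * R x * (((m : K) - 1) • vecMulVec u u)) =
      (u1 ⬝ᵥ (R x *ᵥ u)) • vecMulVec v v := by
    rw [mul_smul_comm, map_smul, mul_vecMulVec, ← mulVec_mulVec, D.b3su hR, ← Bf_apply]
    simp only [map_add, map_smul, LinearMap.add_apply, LinearMap.smul_apply, Bf_comm hR v u,
      D.y2_zero hR, smul_zero, zero_add, D.y1_eq hR]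
    rw [smul_smul, smul_smul]
    congr 1
    field_simp
  rw [e1, e2, e3, e4, zero_add, ← two_smul K] at h5
  have h6 := smul_right_injective (Matrix (Fin n) (Fin n) K) (two_ne_zero (α := K)) h5
  exact smul_left_injective K D.e_ne h6

/-- (ρ) for `x` with `v ⬝ x v = u ⬝ x v = 0`. -/
theorem rho {x : Matrix (Fin n) (Fin n) K} (hx : xᵀ = x) (hg : v ⬝ᵥ (x *ᵥ v) = 0)
    (hd : u ⬝ᵥ (x *ᵥ v) = 0) : ((m : K) - 1) * (v1 ⬝ᵥ (R x *ᵥ v1)) =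
      u ⬝ᵥ (x *ᵥ u) + 2 * ((m : K) - 2) * (u1 ⬝ᵥ (R x *ᵥ u)) := by
  have hm := D.hm
  have hM := D.M_ne
  have h1 := hR.aba (m - 3) (x := x)
  have h2 : m - 3 + 1 = m - 2 := by omega
  rw [h2] at h1
  have hbv1 : (R 1) ^ (m - 2) *ᵥ (R x *ᵥ v1) = (v1 ⬝ᵥ (R x *ᵥ v1)) • v := by
    rw [D.b_mulVec, D.vsv1 hR, D.usv1 hR]
    module
  have hbu : (R 1) ^ (m - 2) *ᵥ (R x *ᵥ u) = 0 := by
    rw [D.bsu hR, D.v1su hR, D.usu hR]
    module
  have hspl : ∀ y : Matrix (Fin n) (Fin n) K, y * (R 1) ^ (m - 2) =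
      vecMulVec (y *ᵥ v) v1 + vecMulVec (y *ᵥ v1) v + vecMulVec (y *ᵥ u) u := by
    intro y
    rw [D.b, Matrix.mul_add, Matrix.mul_add, mul_vecMulVec, mul_vecMulVec, mul_vecMulVec]
  have hvv : Bf R v v = 0 := D.Re hR
  have e1 : (R 1) ^ (m - 2) * R x * (R 1) ^ (m - 2) =
      (v1 ⬝ᵥ (R x *ᵥ v1)) • vecMulVec v v := by
    rw [hspl, ← mulVec_mulVec, ← mulVec_mulVec, ← mulVec_mulVec, D.bsv hR, hbv1, hbu,
      zero_vecMulVec, zero_vecMulVec, zero_add, add_zero, smul_vecMulVec]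
  have hxv1 : v ⬝ᵥ (x *ᵥ u) = 0 := by
    rw [dot_symm' hx, hd]
  have e2 : R ((R 1) ^ (m - 2) * x * (R 1) ^ (m - 2)) =
      (u ⬝ᵥ (x *ᵥ u)) • ((m : K) - 1)⁻¹ • vecMulVec v v := by
    rw [hspl, ← mulVec_mulVec, ← mulVec_mulVec, ← mulVec_mulVec, D.b_mulVec, D.b_mulVec,
      D.b_mulVec, hg, hd, hxv1]
    simp only [map_add, ← Bf_apply, LinearMap.add_apply, map_smul, LinearMap.smul_apply, hvv,
      D.vv1_zero hR, Bf_comm hR v u, Bf_comm hR v1 v, D.y2_zero hR, D.y1_eq hR, smul_zero,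
      zero_smul, zero_add, add_zero]
  have hb3v1 : (R 1) ^ (m - 3) *ᵥ (R x *ᵥ v1) = (v2 ⬝ᵥ (R x *ᵥ v1)) • v +
      (v1 ⬝ᵥ (R x *ᵥ v1)) • v1 + (u1 ⬝ᵥ (R x *ᵥ v1)) • u := by
    rw [D.b3_mulVec, D.vsv1 hR, D.usv1 hR]
    module
  have e3 : R ((R 1) ^ (m - 3) * R x * (R 1) ^ (m - 2)) =
      (u1 ⬝ᵥ (R x *ᵥ u)) • ((m : K) - 1)⁻¹ • vecMulVec v v := by
    rw [hspl, ← mulVec_mulVec, ← mulVec_mulVec, ← mulVec_mulVec, D.b3sv hR, D.b3su hR, hb3v1]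
    simp only [map_add, ← Bf_apply, LinearMap.add_apply, map_smul, LinearMap.smul_apply, hvv,
      D.vv1_zero hR, Bf_comm hR v u, Bf_comm hR v1 v, D.y2_zero hR, D.y1_eq hR, smul_zero,
      zero_add, add_zero]
  rw [e1, e2, e3] at h1
  have h3 : ((m - 3 : ℕ) : K) + 1 = (m : K) - 2 := by
    have h4 : ((m - 3 : ℕ) : K) = (m : K) - 3 := by
      rw [Nat.cast_sub (by omega)]
      norm_num
    rw [h4]
    ring
  rw [h3] at h1
  have h5 : (v1 ⬝ᵥ (R x *ᵥ v1)) • vecMulVec v v =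
      ((u ⬝ᵥ (x *ᵥ u) + 2 * ((m : K) - 2) * (u1 ⬝ᵥ (R x *ᵥ u))) * ((m : K) - 1)⁻¹) •
        vecMulVec v v := by
    rw [h1]
    module
  have h6 := smul_left_injective K D.e_ne h5
  change v1 ⬝ᵥ (R x *ᵥ v1) = _ at h6
  rw [h6]
  field_simp

/-- The numerical relation for `c = u1 ⬝ R (u0 u0ᵀ) u`. -/
theorem rel : 1 + (2 * (m : K) - 6) * (u1 ⬝ᵥ (R (vecMulVec u0 u0) *ᵥ u)) +
    ((m : K) - 2) * (2 * (m : K) - 6) * (u1 ⬝ᵥ (R (vecMulVec u0 u0) *ᵥ u)) ^ 2 = 0 := by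
  have hm := D.hm
  have hM := D.M_ne
  obtain ⟨x, hxd⟩ : ∃ x : Matrix (Fin n) (Fin n) K, x = vecMulVec u0 u0 := ⟨_, rfl⟩
  have hx : xᵀ = x := by rw [hxd, transpose_vecMulVec]
  have hxv : x *ᵥ v = 0 := by rw [hxd, vmv_mulVec, D.u0v, zero_smul]
  have hxu : x *ᵥ u = u0 := by rw [hxd, vmv_mulVec, D.u0u, one_smul]
  have hE5 := D.E5 hR hx hxv
  have hr1 := D.rho hR hx (by rw [hxv, dotProduct_zero]) (by rw [hxv, dotProduct_zero])
  rw [hxu, dotProduct_comm u u0, D.u0u] at hr1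
  obtain ⟨y, hyd⟩ : ∃ y : Matrix (Fin n) (Fin n) K, y = x * (R 1) ^ (m - 3) * R x +
      R x * (R 1) ^ (m - 3) * x + ((m - 3 : ℕ) : K) • (R x * (R 1) ^ (m - 3 - 1) * R x) :=
    ⟨_, rfl⟩
  have hRy : R y = R x * (R 1) ^ (m - 3) * R x := by
    rw [closure_sq hR.rb, hyd]
  have hy : yᵀ = y := by
    rw [hyd]
    simp only [transpose_add, transpose_smul, transpose_mul, hx, hR.tr x, hR.a_tr,
      Matrix.mul_assoc]
    abel
  have hsx : ∀ t t' : Fin n → K, t ⬝ᵥ (x *ᵥ t') = (x *ᵥ t) ⬝ᵥ t' :=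
    fun t t' => (dot_symm hx t t').symm
  have hsR : ∀ t t' : Fin n → K, t ⬝ᵥ (R x *ᵥ t') = (R x *ᵥ t) ⬝ᵥ t' :=
    fun t t' => (dot_symm (hR.tr x) t t').symm
  have hyv : y *ᵥ v = (v2 ⬝ᵥ (R x *ᵥ v)) • (x *ᵥ v) +
      ((m - 3 : ℕ) : K) • (R x *ᵥ ((R 1) ^ (m - 3 - 1) *ᵥ (R x *ᵥ v))) := by
    rw [hyd]
    simp only [add_mulVec, smul_mulVec, ← mulVec_mulVec, hxv, mulVec_zero, add_zero, D.b3sv hR,
      mulVec_smul]
  have hg : v ⬝ᵥ (y *ᵥ v) = 0 := by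
    rw [hyv, hxv, smul_zero, zero_add, dotProduct_smul, hsR, hR.S1_diag (D.vsv hR), smul_zero]
  have hd : u ⬝ᵥ (y *ᵥ v) = 0 := by
    rw [hyv, hxv, smul_zero, zero_add, dotProduct_smul, hsR, hR.S1_same (D.usv hR), smul_zero]
  have hr2 := D.rho hR hy hg hd
  have huu : u ⬝ᵥ (y *ᵥ u) = 2 * (u1 ⬝ᵥ (R x *ᵥ u)) := by
    rw [hyd]
    simp only [add_mulVec, smul_mulVec, ← mulVec_mulVec, dotProduct_add, dotProduct_smul,
      D.b3su hR, hxu]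
    rw [hsx, hxu, hsR u ((R 1) ^ (m - 3) *ᵥ u0),
      hsR u ((R 1) ^ (m - 3 - 1) *ᵥ (R x *ᵥ u)), hR.S1_diag (D.usu hR),
      dot_symm' (hR.a_tr _) _ u0, D.b3su hR]
    simp only [dotProduct_add, dotProduct_smul, D.u0v, D.u0u, smul_eq_mul]
    ring
  have hc2 : u1 ⬝ᵥ (R y *ᵥ u) = (u1 ⬝ᵥ (R x *ᵥ u)) ^ 2 := by
    rw [hRy, ← mulVec_mulVec, ← mulVec_mulVec, D.b3su hR, mulVec_add, mulVec_smul, mulVec_smul,
      dotProduct_add, dotProduct_smul, dotProduct_smul, D.u1sv hR]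
    simp only [smul_eq_mul]
    ring
  have hr : v1 ⬝ᵥ (R y *ᵥ v1) = (v1 ⬝ᵥ (R x *ᵥ v1)) ^ 2 := by
    rw [hRy, ← mulVec_mulVec, ← mulVec_mulVec, D.b3_mulVec, D.vsv1 hR, D.usv1 hR]
    simp only [mulVec_add, mulVec_smul, dotProduct_add, dotProduct_smul, D.v1sv hR, D.v1su hR,
      smul_eq_mul]
    ring
  rw [huu, hc2, hr] at hr2
  rw [← hxd]
  generalize u1 ⬝ᵥ (R x *ᵥ u) = c at hr1 hr2 ⊢
  generalize v1 ⬝ᵥ (R x *ᵥ v1) = ρ at hr1 hr2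
  -- the numerical relation
  linear_combination (-(((m : K) - 1) * ρ) - (1 + 2 * ((m : K) - 2) * c)) * hr1 +
    ((m : K) - 1) * hr2

end BBr

end

section

variable {K : Type*} [Field K] [CharZero K] {n k : ℕ}
  {R : Matrix (Fin n) (Fin n) K →ₗ[K] Matrix (Fin n) (Fin n) K} (hR : SRB R)
  {v v1 v2 u u1 v0 u0 : Fin n → K} (D : BBr (R 1) (k + 4) v v1 v2 u u1 v0 u0)

namespace BBr

include D

omit [CharZero K] in
theorem apow_v (t : ℕ) : (R 1) ^ (t + 1) *ᵥ v = 0 := by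
  rw [pow_succ, ← mulVec_mulVec, D.av, mulVec_zero]

omit [CharZero K] in
theorem z_eq : (R 1) ^ (k + 2) *ᵥ v0 = (v1 ⬝ᵥ v0) • v + v1 := by
  have h := D.b_mulVec v0
  have e : k + 4 - 2 = k + 2 := by omega
  rw [e, dotProduct_comm v v0, D.v0v, dotProduct_comm u v0, D.v0u, one_smul, zero_smul,
    add_zero] at h
  exact h

omit [CharZero K] in
theorem az : R 1 *ᵥ ((R 1) ^ (k + 2) *ᵥ v0) = v := by
  rw [D.z_eq, mulVec_add, mulVec_smul, D.av, D.av1, smul_zero, zero_add]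

omit [CharZero K] in
theorem vv (hR : SRB R) : v ⬝ᵥ v = 0 := by
  nth_rw 2 [← D.av1]
  rw [← dot_symm (hR.tr 1), D.av, zero_dotProduct]

include hR

theorem apow_y (x : Matrix (Fin n) (Fin n) K) (j : ℕ) (hj : k + 2 ≤ j) :
    (R 1) ^ j *ᵥ (R x *ᵥ u) = 0 := by
  have h := D.bsu hR x
  have e : k + 4 - 2 = k + 2 := by omega
  rw [e, D.v1su hR, D.usu hR, zero_smul, zero_smul, add_zero] at h
  obtain ⟨i, rfl⟩ := Nat.exists_eq_add_of_le hj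
  rw [add_comm, pow_add, ← mulVec_mulVec, h, mulVec_zero]

theorem top_y (x : Matrix (Fin n) (Fin n) K) : u0 ⬝ᵥ ((R 1) ^ (k + 1) *ᵥ (R x *ᵥ u)) =
    u1 ⬝ᵥ (R x *ᵥ u) := by
  have h := D.b3su hR x
  have e : k + 4 - 3 = k + 1 := by omega
  rw [e] at h
  rw [h, dotProduct_add, dotProduct_smul, dotProduct_smul, D.u0v, D.u0u]
  simp

/-- The family `a^i (s u)`, `a^(m-2) v0`, `v` is independent if `u1 ⬝ s u ≠ 0`. -/
theorem indep_aux (x : Matrix (Fin n) (Fin n) K) (hc : u1 ⬝ᵥ (R x *ᵥ u) ≠ 0) (α : ℕ → K)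
    (β γ : K) (h : ∑ i ∈ Finset.range (k + 2), α i • ((R 1) ^ i *ᵥ (R x *ᵥ u)) +
      β • ((R 1) ^ (k + 2) *ᵥ v0) + γ • v = 0) :
    (∀ i < k + 2, α i = 0) ∧ β = 0 ∧ γ = 0 := by
  have hv0 : ∀ t : ℕ, u0 ⬝ᵥ ((R 1) ^ t *ᵥ v) = 0 := by
    intro t
    cases t with
    | zero => rw [pow_zero, one_mulVec, D.u0v]
    | succ t => rw [D.apow_v, dotProduct_zero]
  have key : ∀ s : ℕ, ∑ i ∈ Finset.range (k + 2),
      α i * (u0 ⬝ᵥ ((R 1) ^ (i + (s + 1)) *ᵥ (R x *ᵥ u))) = 0 := by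
    intro s
    have h1 := congrArg (fun w => u0 ⬝ᵥ ((R 1) ^ (s + 1) *ᵥ w)) h
    simp only [mulVec_add, mulVec_smul, mulVec_zero, dotProduct_zero, dotProduct_add,
      dotProduct_smul, D.apow_v, smul_eq_mul, mul_zero, add_zero] at h1
    have h2 : (R 1) ^ (s + 1) *ᵥ ((R 1) ^ (k + 2) *ᵥ v0) = (R 1) ^ s *ᵥ v := by
      rw [pow_succ, ← mulVec_mulVec, D.az]
    rw [h2, hv0, mul_zero, add_zero, Matrix.mulVec_sum, dotProduct_sum] at h1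
    rw [← h1]
    refine Finset.sum_congr rfl fun i _ => ?_
    rw [mulVec_smul, dotProduct_smul, smul_eq_mul, add_comm i (s + 1), pow_add,
      ← mulVec_mulVec]
  have h1 : ∀ j : ℕ, j ≤ k → α j = 0 := by
    intro j
    induction j using Nat.strong_induction_on with
    | _ j ih =>
      intro hj
      have h2 := key (k - j)
      rw [Finset.sum_eq_single j] at h2
      · have e : j + (k - j + 1) = k + 1 := by omega
        rw [e, D.top_y hR] at h2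
        exact (mul_eq_zero.1 h2).resolve_right hc
      · intro i hi hij
        rw [Finset.mem_range] at hi
        rcases Nat.lt_or_gt_of_ne hij with h3 | h3
        · rw [ih i h3 (by omega), zero_mul]
        · rw [D.apow_y hR x _ (by omega), dotProduct_zero, mul_zero]
      · intro h3
        exact absurd (Finset.mem_range.2 (by omega)) h3
  have h2 : ∑ i ∈ Finset.range (k + 2), α i • ((R 1) ^ i *ᵥ (R x *ᵥ u)) =
      α (k + 1) • ((R 1) ^ (k + 1) *ᵥ (R x *ᵥ u)) := by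
    rw [Finset.sum_range_succ, Finset.sum_eq_zero, zero_add]
    intro i hi
    rw [Finset.mem_range] at hi
    rw [h1 i (by omega), zero_smul]
  rw [h2] at h
  have h3 : β = 0 := by
    have h4 := congrArg (fun w => R 1 *ᵥ w) h
    simp only [mulVec_add, mulVec_smul, mulVec_zero, D.az, D.av, smul_zero, add_zero] at h4
    rw [mulVec_mulVec, ← pow_succ', D.apow_y hR x _ (by omega), smul_zero, zero_add] at h4
    exact (smul_eq_zero.1 h4).resolve_right D.v_ne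
  rw [h3, zero_smul, add_zero] at h
  have h4 : α (k + 1) = 0 := by
    have h5 := congrArg (fun w => u0 ⬝ᵥ w) h
    simp only [dotProduct_add, dotProduct_smul, dotProduct_zero, D.top_y hR, D.u0v, smul_eq_mul,
      mul_zero, add_zero] at h5
    exact (mul_eq_zero.1 h5).resolve_right hc
  rw [h4, zero_smul, zero_add] at h
  refine ⟨?_, h3, (smul_eq_zero.1 h).resolve_right D.v_ne⟩
  intro i hi
  rcases Nat.lt_or_ge i (k + 1) with h5 | h5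
  · exact h1 i (by omega)
  · have h6 : i = k + 1 := by omega
    rw [h6, h4]

end BBr

end

variable {F K : Type*} [Field F] [Field K] [CharZero K] [Algebra F K] {n m : ℕ}
  {R : Matrix (Fin n) (Fin n) K →ₗ[K] Matrix (Fin n) (Fin n) K}

/-- (B) `κ v`, `lam u`, `μ u0`, `ν v0` are rational. -/
theorem b4_false (hR : SRB R) (Φ : Frame F R (m - 1)) {v v1 v2 u u1 v0 u0 : Fin n → K}
    (D : BBr (R 1) m v v1 v2 u u1 v0 u0) {κ lam μ ν : K} (hκ : κ ≠ 0) (hlam : lam ≠ 0)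
    (hμ : μ ≠ 0) (hν : ν ≠ 0) (hv : κ • v ∈ Φ.V) (hu : lam • u ∈ Φ.V) (hu0 : μ • u0 ∈ Φ.V)
    (hv0 : ν • v0 ∈ Φ.V) : False := by
  obtain ⟨k, rfl⟩ : ∃ k, m = k + 4 := ⟨m - 4, by have := D.hm; omega⟩
  obtain ⟨X, hX⟩ : ∃ X : Matrix (Fin n) (Fin n) K, X = vecMulVec (μ • u0) (μ • u0) := ⟨_, rfl⟩
  have hXM : X ∈ Φ.M := by
    rw [hX]
    exact Φ.vmv _ hu0 _ hu0
  have hRX : R X = (μ * μ) • R (vecMulVec u0 u0) := by
    rw [hX, smul_vecMulVec, vecMulVec_smul, map_smul, map_smul, smul_smul]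
  have hc : u1 ⬝ᵥ (R X *ᵥ u) ≠ 0 := by
    intro h
    rw [hRX, smul_mulVec, dotProduct_smul, smul_eq_mul] at h
    have h1 := (mul_eq_zero.1 h).resolve_left (mul_ne_zero hμ hμ)
    have h2 := D.rel hR
    rw [h1] at h2
    norm_num at h2
  have hRXM : R X ∈ Φ.M := Φ.map X hXM
  -- the family
  obtain ⟨T, hT⟩ : ∃ T : (Fin n → K) → Prop, T = fun z =>
    (∃ i : ℕ, z = (R 1) ^ i *ᵥ (R X *ᵥ (lam • u))) ∨ z = (R 1) ^ (k + 2) *ᵥ (ν • v0) ∨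
      z = κ • v := ⟨_, rfl⟩
  have huy : ∀ i j : ℕ, ((R 1) ^ i *ᵥ (R X *ᵥ (lam • u))) ⬝ᵥ
      ((R 1) ^ j *ᵥ (R X *ᵥ (lam • u))) = 0 := by
    intro i j
    rw [dot_symm (hR.a_tr i), mulVec_mulVec, ← pow_add, mulVec_smul, mulVec_smul,
      smul_dotProduct, dotProduct_smul, hR.S1_diag (D.usu hR), smul_zero, smul_zero]
  have huz : ∀ i : ℕ, ((R 1) ^ i *ᵥ (R X *ᵥ (lam • u))) ⬝ᵥ
      ((R 1) ^ (k + 2) *ᵥ (ν • v0)) = 0 := by
    intro i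
    rw [← dot_symm (hR.a_tr (k + 2)), mulVec_mulVec, ← pow_add, mulVec_smul, mulVec_smul,
      D.apow_y hR X _ (by omega), smul_zero, zero_dotProduct]
  have huv : ∀ i : ℕ, ((R 1) ^ i *ᵥ (R X *ᵥ (lam • u))) ⬝ᵥ (κ • v) = 0 := by
    intro i
    rw [dot_symm (hR.a_tr i), mulVec_smul, mulVec_smul]
    cases i with
    | zero =>
      rw [pow_zero, one_mulVec, smul_dotProduct, dotProduct_smul, dotProduct_comm, D.vsu hR,
        smul_zero, smul_zero]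
    | succ i => rw [D.apow_v, smul_zero, dotProduct_zero]
  have hzz : ((R 1) ^ (k + 2) *ᵥ (ν • v0)) ⬝ᵥ ((R 1) ^ (k + 2) *ᵥ (ν • v0)) = 0 := by
    have h : ∀ w : Fin n → K, R 1 *ᵥ w = v → (R 1) ^ (k + 1 + 1) *ᵥ w = 0 := by
      intro w hw
      rw [pow_succ, ← mulVec_mulVec, hw, D.apow_v]
    have h2 : (R 1) ^ (k + 2) *ᵥ ((R 1) ^ (k + 2) *ᵥ v0) = 0 := h _ D.az
    rw [dot_symm (hR.a_tr _), mulVec_smul, mulVec_smul, h2, smul_zero, dotProduct_zero]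
  have hzv : ((R 1) ^ (k + 2) *ᵥ (ν • v0)) ⬝ᵥ (κ • v) = 0 := by
    rw [dot_symm (hR.a_tr _), mulVec_smul, D.apow_v, smul_zero, dotProduct_zero]
  have hvv : (κ • v) ⬝ᵥ (κ • v) = 0 := by
    rw [smul_dotProduct, dotProduct_smul, D.vv hR, smul_zero, smul_zero]
  have hTT : ∀ z z' : Fin n → K, T z → T z' → z ⬝ᵥ z' = 0 := by
    rw [hT]
    rintro z z' (⟨i, rfl⟩ | rfl | rfl) (⟨j, rfl⟩ | rfl | rfl)
    · exact huy i j
    · exact huz i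
    · exact huv i
    · rw [dotProduct_comm]
      exact huz j
    · exact hzz
    · exact hzv
    · rw [dotProduct_comm]
      exact huv j
    · rw [dotProduct_comm]
      exact hzv
    · exact hvv
  obtain ⟨G, hG⟩ : ∃ G : ℕ → (Fin n → K), G = fun i =>
    if i < k + 2 then (R 1) ^ i *ᵥ (R X *ᵥ (lam • u)) else
      if i = k + 2 then (R 1) ^ (k + 2) *ᵥ (ν • v0) else κ • v := ⟨_, rfl⟩
  have hG1 : ∀ i, i < k + 2 → G i = (R 1) ^ i *ᵥ (R X *ᵥ (lam • u)) := by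
    intro i hi
    rw [hG]
    exact if_pos hi
  have hG2 : G (k + 2) = (R 1) ^ (k + 2) *ᵥ (ν • v0) := by
    rw [hG]
    simp
  have hG3 : G (k + 3) = κ • v := by
    rw [hG]
    simp
  have hGT : ∀ i, T (G i) := by
    intro i
    rw [hT, hG]
    by_cases h1 : i < k + 2
    · exact Or.inl ⟨i, if_pos h1⟩
    · by_cases h2 : i = k + 2
      · right
        left
        simp [h2]
      · right
        right
        simp [h1, h2]
  have hGV : ∀ i, G i ∈ Φ.V := by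
    intro i
    rw [hG]
    change (if i < k + 2 then (R 1) ^ i *ᵥ (R X *ᵥ (lam • u)) else
      if i = k + 2 then (R 1) ^ (k + 2) *ᵥ (ν • v0) else κ • v) ∈ Φ.V
    split_ifs
    · exact Φ.act _ (Φ.a_pow i) _ (Φ.act _ hRXM _ hu)
    · exact Φ.act _ (Φ.a_pow _) _ hv0
    · exact hv
  have hind : LinearIndependent K (fun i : Fin (k + 4) => G i) := by
    rw [Fintype.linearIndependent_iff]
    intro g hg
    obtain ⟨α, hα⟩ : ∃ α : ℕ → K, α = fun i => if h : i < k + 4 then g ⟨i, h⟩ * lam else 0 :=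
      ⟨_, rfl⟩
    have hα1 : ∀ (i : ℕ) (h : i < k + 4), α i = g ⟨i, h⟩ * lam := by
      intro i h
      rw [hα]
      exact dif_pos h
    have h1 := D.indep_aux hR X hc α (g ⟨k + 2, by omega⟩ * ν) (g ⟨k + 3, by omega⟩ * κ) (by
      rw [← hg, Fin.sum_univ_castSucc, Fin.sum_univ_castSucc, Finset.sum_range]
      congr 1
      · congr 1
        · refine Finset.sum_congr rfl fun i _ => ?_
          have h2 : ((i.castSucc.castSucc : Fin (k + 4)) : ℕ) = i := rfl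
          rw [h2, hG1 i i.2, hα1 i (by omega), mulVec_smul, mulVec_smul, smul_smul]
          rfl
        · have h2 : (((Fin.last (k + 2)).castSucc : Fin (k + 4)) : ℕ) = k + 2 := rfl
          rw [h2, hG2, mulVec_smul, smul_smul]
          rfl
      · have h2 : ((Fin.last (k + 3) : Fin (k + 4)) : ℕ) = k + 3 := rfl
        rw [h2, hG3, smul_smul]
        rfl)
    intro i
    obtain ⟨h2, h3, h4⟩ := h1
    rcases Nat.lt_or_ge i (k + 2) with h5 | h5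
    · have h6 := h2 i h5
      rw [hα1 i i.2] at h6
      exact (mul_eq_zero.1 h6).resolve_right hlam
    · rcases Nat.eq_or_lt_of_le h5 with h6 | h6
      · have h7 : i = ⟨k + 2, by omega⟩ := Fin.ext h6.symm
        rw [h7]
        exact (mul_eq_zero.1 h3).resolve_right hν
      · have h7 : i = ⟨k + 3, by omega⟩ := Fin.ext (by have := i.2; simp only; omega)
        rw [h7]
        exact (mul_eq_zero.1 h4).resolve_right hκ
  have h1 := Φ.wi (k + 4) (fun i => G i) (fun i => hGV i) (fun i j => hTT _ _ (hGT i) (hGT j))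
    hind
  omega

end Pool.Agent.MP_f4742e_al
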