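import Pool.Agent.Lib.MP_f4742e_al.X.Struct
import Pool.Agent.Lib.MP_f4742e_al.X.B4

/-!
Normal form of `a^(m-3)` for the type `(m, m-1, 1, ..., 1)`, `m ≥ 4`, Witt index `m - 1`.
-/

set_option autoImplicit false

namespace Pool.Agent.MP_f4742e_al

open Matrix

section

variable {F K : Type*} [Field F] [Field K] [CharZero K] [Algebra F K] {n : ℕ}
  {R : Matrix (Fin n) (Fin n) K →ₗ[K] Matrix (Fin n) (Fin n) K} {m : ℕ}

theorem exists_b3 (Φ : Frame F R (m - 1)) {a : Matrix (Fin n) (Fin n) K} (ha : aᵀ = a)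
    (haM : a ∈ Φ.M) (hm : 4 ≤ m) (h0 : a ^ m = 0) {y g h u t : Fin n → K} {c d k : F}
    (yV : y ∈ Φ.V) (gV : g ∈ Φ.V) (hV : h ∈ Φ.V) (uV : u ∈ Φ.V) (tV : t ∈ Φ.V)
    (hc : c ≠ 0) (hd : d ≠ 0)
    (b : a ^ (m - 2) = vecMulVec y g + vecMulVec g y + algebraMap F K d • vecMulVec u u)
    (ay : a *ᵥ y = 0) (ag : a *ᵥ g = algebraMap F K c • y) (au : a *ᵥ u = 0)
    (hy : h ⬝ᵥ y = 1) (hu : h ⬝ᵥ u = 0) (ty : t ⬝ᵥ y = 0) (tu : t ⬝ᵥ u = 1)
    (eh : a ^ (m - 1) *ᵥ h = algebraMap F K c • y)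
    (bt : a ^ (m - 2) *ᵥ t = algebraMap F K d • u)
    (bh : a ^ (m - 2) *ᵥ h = g + algebraMap F K k • y) :
    ∃ X U : Fin n → K, a *ᵥ U = algebraMap F K d • u ∧
      a ^ (m - 3) = vecMulVec y X + vecMulVec X y + (algebraMap F K c)⁻¹ • vecMulVec g g +
        vecMulVec u U + vecMulVec U u := by
  have hcK : algebraMap F K c ≠ 0 := fun h => hc ((map_eq_zero (algebraMap F K)).1 h)
  have hdK : algebraMap F K d ≠ 0 := fun h => hd ((map_eq_zero (algebraMap F K)).1 h)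
  have hyt : y ⬝ᵥ h = 1 := by rw [dotProduct_comm, hy]
  have huh : u ⬝ᵥ h = 0 := by rw [dotProduct_comm, hu]
  have hyt' : y ⬝ᵥ t = 0 := by rw [dotProduct_comm, ty]
  have hut : u ⬝ᵥ t = 1 := by rw [dotProduct_comm, tu]
  have hab3 : a * a ^ (m - 3) = a ^ (m - 2) := by
    rw [← pow_succ']
    congr 1
    omega
  have h3a : a ^ (m - 3) * a = a ^ (m - 2) := by
    rw [← pow_succ]
    congr 1
    omega
  have h3aa : a ^ (m - 3) * (a * a) = a ^ (m - 1) := by
    rw [← Matrix.mul_assoc, h3a, ← pow_succ]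
    congr 1
    omega
  obtain ⟨X0, hX0⟩ : ∃ X0, X0 = a ^ (m - 3) *ᵥ h - algebraMap F K (k * c⁻¹) • g := ⟨_, rfl⟩
  obtain ⟨U0, hU0⟩ : ∃ U0, U0 = a ^ (m - 3) *ᵥ t := ⟨_, rfl⟩
  have X0V : X0 ∈ Φ.V := by
    rw [hX0]
    exact Φ.V.sub_mem (Φ.act _ (Φ.pow haM _) _ hV) (Φ.smul_mem' gV _)
  have U0V : U0 ∈ Φ.V := by
    rw [hU0]
    exact Φ.act _ (Φ.pow haM _) _ tV
  have aX0 : a *ᵥ X0 = g := by
    rw [hX0, mulVec_sub, mulVec_mulVec, hab3, bh, mulVec_smul, ag, smul_smul, map_mul, map_inv₀,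
      mul_assoc, inv_mul_cancel₀ hcK, mul_one, add_sub_cancel_right]
  have aU0 : a *ᵥ U0 = algebraMap F K d • u := by
    rw [hU0, mulVec_mulVec, hab3, bt]
  obtain ⟨γ, hγ⟩ : ∃ γ, γ = a ^ (m - 3) - (vecMulVec y X0 + vecMulVec X0 y +
    (algebraMap F K c)⁻¹ • vecMulVec g g + vecMulVec u U0 + vecMulVec U0 u) := ⟨_, rfl⟩
  have γtr : γᵀ = γ := by
    rw [hγ, transpose_sub, pow_tr ha]
    simp only [transpose_add, transpose_vecMulVec, transpose_smul]
    abel
  have aγ : a * γ = 0 := by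
    rw [hγ, Matrix.mul_sub, Matrix.mul_add, Matrix.mul_add, Matrix.mul_add, Matrix.mul_add, hab3,
      Matrix.mul_smul, mul_vecMulVec, mul_vecMulVec, mul_vecMulVec, mul_vecMulVec, mul_vecMulVec,
      ay, ag, au, aX0, aU0, zero_vecMulVec, zero_vecMulVec, b, smul_vecMulVec, smul_vecMulVec,
      smul_smul, inv_mul_cancel₀ hcK, one_smul]
    abel
  have cinv : (algebraMap F K c)⁻¹ = algebraMap F K c⁻¹ := (map_inv₀ _ _).symm
  have γM : γ ∈ Φ.M := by
    rw [hγ]
    refine Φ.M.sub_mem (Φ.pow haM _) ?_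
    refine Φ.M.add_mem (Φ.M.add_mem (Φ.M.add_mem (Φ.M.add_mem (Φ.vmv _ yV _ X0V)
      (Φ.vmv _ X0V _ yV)) (Φ.smulM (Φ.vmv _ gV _ gV) ⟨c⁻¹, cinv⟩)) (Φ.vmv _ uV _ U0V))
      (Φ.vmv _ U0V _ uV)
  have hdual : ∀ i j : Fin 2, (![h, t] : Fin 2 → Fin n → K) i ⬝ᵥ
      (![y, u] : Fin 2 → Fin n → K) j = if i = j then 1 else 0 := by
    intro i j
    fin_cases i <;> fin_cases j
    · simpa using hy
    · simpa using hu
    · simpa using ty
    · simpa using tu
  obtain ⟨G, β, hG, hβ, βtr, βh⟩ := polish γtr hdual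
  have γV : ∀ i : Fin 2, γ *ᵥ (![h, t] : Fin 2 → Fin n → K) i ∈ Φ.V := by
    intro i
    fin_cases i
    · exact Φ.act _ γM _ hV
    · exact Φ.act _ γM _ tV
  have yuV : ∀ i : Fin 2, (![y, u] : Fin 2 → Fin n → K) i ∈ Φ.V := by
    intro i
    fin_cases i
    · exact yV
    · exact uV
  have htV : ∀ i : Fin 2, (![h, t] : Fin 2 → Fin n → K) i ∈ Φ.V := by
    intro i
    fin_cases i
    · exact hV
    · exact tV
  have ayu : ∀ i : Fin 2, a *ᵥ (![y, u] : Fin 2 → Fin n → K) i = 0 := by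
    intro i
    fin_cases i
    · exact ay
    · exact au
  have GV : ∀ i, G i ∈ Φ.V := by
    intro i
    rw [hG]
    refine Φ.V.sub_mem (γV i) (Φ.smulK ?_ ⟨2⁻¹, by rw [map_inv₀, map_ofNat]⟩)
    exact Φ.V.sum_mem fun j _ => Φ.smulK (yuV j) (Φ.dot _ (htV j) _ (γV i))
  have aG : ∀ i, a *ᵥ G i = 0 := by
    intro i
    rw [hG, mulVec_sub, mulVec_mulVec, aγ, zero_mulVec, mulVec_smul, mulVec_sum]
    simp only [mulVec_smul, ayu, smul_zero, Finset.sum_const_zero, sub_zero]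
  rw [Fin.sum_univ_two] at hβ
  change γ = vecMulVec y (G 0) + vecMulVec (G 0) y + (vecMulVec u (G 1) + vecMulVec (G 1) u) + β
    at hβ
  have hβe : β = γ - (vecMulVec y (G 0) + vecMulVec (G 0) y +
      (vecMulVec u (G 1) + vecMulVec (G 1) u)) := by
    rw [hβ]
    abel
  have βM : β ∈ Φ.M := by
    rw [hβe]
    exact Φ.M.sub_mem γM (Φ.M.add_mem (Φ.M.add_mem (Φ.vmv _ yV _ (GV 0)) (Φ.vmv _ (GV 0) _ yV))
      (Φ.M.add_mem (Φ.vmv _ uV _ (GV 1)) (Φ.vmv _ (GV 1) _ uV)))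
  have aβ : a * β = 0 := by
    rw [hβe, Matrix.mul_sub, aγ, Matrix.mul_add, Matrix.mul_add, Matrix.mul_add, mul_vecMulVec,
      mul_vecMulVec, mul_vecMulVec, mul_vecMulVec, ay, au, aG, aG]
    simp
  have βh0 : β *ᵥ h = 0 := βh 0
  have βt0 : β *ᵥ t = 0 := βh 1
  have h3 : a ^ (m - 3) = vecMulVec y (X0 + G 0) + vecMulVec (X0 + G 0) y +
      (algebraMap F K c)⁻¹ • vecMulVec g g + vecMulVec u (U0 + G 1) + vecMulVec (U0 + G 1) u +
      β := by
    have h4 : a ^ (m - 3) = γ + (vecMulVec y X0 + vecMulVec X0 y +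
      (algebraMap F K c)⁻¹ • vecMulVec g g + vecMulVec u U0 + vecMulVec U0 u) := by
      rw [hγ]
      abel
    rw [h4, hβ]
    simp only [add_vecMulVec, vecMulVec_add]
    abel
  have hβ0 : β = 0 := by
    obtain ⟨r', x, k', p, xV, kV, hp, hkx, hβd⟩ := Φ.diag βM βtr
    rcases Nat.eq_zero_or_pos r' with hr | hr
    · subst hr
      rw [hβd, Finset.univ_eq_empty, Finset.sum_empty]
    exfalso
    obtain ⟨i0, hi0⟩ : ∃ i0 : Fin r', i0 = ⟨0, hr⟩ := ⟨_, rfl⟩
    have hkx' : ∀ i j, x j ⬝ᵥ k' i = if i = j then 1 else 0 := fun i j => by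
      rw [dotProduct_comm, hkx]
    have βk : β *ᵥ k' i0 = algebraMap F K (p i0) • x i0 := by
      rw [hβd, sum_mulVec]
      simp only [smul_mulVec, vmv_mulVec, hkx', ite_smul, one_smul, zero_smul, smul_ite,
        smul_zero]
      rw [Finset.sum_ite_eq, if_pos (Finset.mem_univ i0)]
    have pK : algebraMap F K (p i0) ≠ 0 := fun h => hp i0 ((map_eq_zero (algebraMap F K)).1 h)
    have ax : a *ᵥ x i0 = 0 := by
      have h1 := congrArg (fun z => a *ᵥ z) βk
      simp only [mulVec_smul, mulVec_mulVec, aβ, zero_mulVec] at h1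
      exact (smul_eq_zero.1 h1.symm).resolve_left pK
    have hx : ∀ z : Fin n → K, β *ᵥ z = 0 → z ⬝ᵥ x i0 = 0 := by
      intro z hz
      have h1 : z ⬝ᵥ (β *ᵥ k' i0) = 0 := by
        rw [← dot_symm βtr, hz, zero_dotProduct]
      rw [βk, dotProduct_smul, smul_eq_mul] at h1
      exact (mul_eq_zero.1 h1).resolve_left pK
    obtain ⟨K1, hK1⟩ : ∃ K1, K1 = k' i0 - (y ⬝ᵥ k' i0) • h - (u ⬝ᵥ k' i0) • t := ⟨_, rfl⟩
    have K1V : K1 ∈ Φ.V := by
      rw [hK1]
      exact Φ.V.sub_mem (Φ.V.sub_mem (kV _) (Φ.smulK hV (Φ.dot _ yV _ (kV _))))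
        (Φ.smulK tV (Φ.dot _ uV _ (kV _)))
    have yK1 : y ⬝ᵥ K1 = 0 := by
      rw [hK1, dotProduct_sub, dotProduct_sub, dotProduct_smul, dotProduct_smul, hyt, hyt']
      simp
    have uK1 : u ⬝ᵥ K1 = 0 := by
      rw [hK1, dotProduct_sub, dotProduct_sub, dotProduct_smul, dotProduct_smul, huh, hut]
      simp
    have xK1 : K1 ⬝ᵥ x i0 = 1 := by
      rw [hK1, sub_dotProduct, sub_dotProduct, smul_dotProduct, smul_dotProduct, hx h βh0,
        hx t βt0, hkx, if_pos rfl]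
      simp
    have βK1 : β *ᵥ K1 = algebraMap F K (p i0) • x i0 := by
      rw [hK1, mulVec_sub, mulVec_sub, mulVec_smul, mulVec_smul, βh0, βt0, βk]
      simp
    obtain ⟨A, hA⟩ := Φ.dot _ (Φ.V.add_mem X0V (GV 0)) _ K1V
    obtain ⟨B, hB⟩ := Φ.dot _ gV _ K1V
    obtain ⟨C, hC⟩ := Φ.dot _ (Φ.V.add_mem U0V (GV 1)) _ K1V
    have a3K1 : a ^ (m - 3) *ᵥ K1 = algebraMap F K A • y +
        (algebraMap F K c)⁻¹ • (algebraMap F K B • g) + algebraMap F K C • u +
        algebraMap F K (p i0) • x i0 := by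
      rw [h3]
      simp only [add_mulVec, smul_mulVec, vmv_mulVec, hA, hB, hC, yK1, uK1, βK1, zero_smul,
        add_zero]
    obtain ⟨K2, hK2⟩ : ∃ K2, K2 = K1 - algebraMap F K (c⁻¹ * B) • (a *ᵥ h) -
      algebraMap F K ((A - c⁻¹ * B * k) * c⁻¹) • (a *ᵥ (a *ᵥ h)) -
      algebraMap F K (C * d⁻¹) • (a *ᵥ t) := ⟨_, rfl⟩
    have ahV : a *ᵥ h ∈ Φ.V := Φ.act _ haM _ hV
    have K2V : K2 ∈ Φ.V := by
      rw [hK2]
      exact Φ.V.sub_mem (Φ.V.sub_mem (Φ.V.sub_mem K1V (Φ.smul_mem' ahV _))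
        (Φ.smul_mem' (Φ.act _ haM _ ahV) _)) (Φ.smul_mem' (Φ.act _ haM _ tV) _)
    have a3K2 : a ^ (m - 3) *ᵥ K2 = algebraMap F K (p i0) • x i0 := by
      have q1 : a ^ (m - 3) *ᵥ (a *ᵥ h) = g + algebraMap F K k • y := by
        rw [mulVec_mulVec, h3a, bh]
      have q2 : a ^ (m - 3) *ᵥ (a *ᵥ (a *ᵥ h)) = algebraMap F K c • y := by
        rw [mulVec_mulVec, mulVec_mulVec, Matrix.mul_assoc, h3aa, eh]
      have q3 : a ^ (m - 3) *ᵥ (a *ᵥ t) = algebraMap F K d • u := by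
        rw [mulVec_mulVec, h3a, bt]
      rw [hK2, mulVec_sub, mulVec_sub, mulVec_sub, mulVec_smul, mulVec_smul, mulVec_smul, q1, q2,
        q3, a3K1]
      simp only [map_mul, map_sub, map_inv₀, smul_add, smul_smul]
      have s1 : (algebraMap F K A - (algebraMap F K c)⁻¹ * algebraMap F K B * algebraMap F K k) *
          (algebraMap F K c)⁻¹ * algebraMap F K c =
          algebraMap F K A - (algebraMap F K c)⁻¹ * algebraMap F K B * algebraMap F K k := by
        rw [mul_assoc, inv_mul_cancel₀ hcK, mul_one]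
      have s2 : algebraMap F K C * (algebraMap F K d)⁻¹ * algebraMap F K d =
          algebraMap F K C := by
        rw [mul_assoc, inv_mul_cancel₀ hdK, mul_one]
      rw [s1, s2]
      module
    have hcount := Φ.count (a := a) ha haM (ι := Fin 3) (y := ![h, t, K2])
      (l := ![m - 1, m - 2, m - 3]) (by
        intro i
        fin_cases i
        · exact hV
        · exact tV
        · exact K2V) (by
        intro i
        fin_cases i
        · change a ^ (m - 1 + 1) *ᵥ h = 0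
          rw [show m - 1 + 1 = m by omega, h0, zero_mulVec]
        · change a ^ (m - 2 + 1) *ᵥ t = 0
          rw [pow_succ', ← mulVec_mulVec, bt, mulVec_smul, au, smul_zero]
        · change a ^ (m - 3 + 1) *ᵥ K2 = 0
          rw [pow_succ', ← mulVec_mulVec, a3K2, mulVec_smul, ax, smul_zero]) (by
        have h2 : (fun j : Fin 3 => a ^ ((![m - 1, m - 2, m - 3] : Fin 3 → ℕ) j) *ᵥ
            (![h, t, K2] : Fin 3 → Fin n → K) j) =
            ![algebraMap F K c • y, algebraMap F K d • u, algebraMap F K (p i0) • x i0] := by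
          funext j
          fin_cases j
          · exact eh
          · exact bt
          · exact a3K2
        rw [h2]
        have K1y : K1 ⬝ᵥ y = 0 := by rw [dotProduct_comm, yK1]
        have K1u : K1 ⬝ᵥ u = 0 := by rw [dotProduct_comm, uK1]
        refine indep_of_dual (h := ![h, t, K1]) ?_ ?_
        · intro i j hij
          fin_cases i <;> fin_cases j
          · exact absurd rfl hij
          · change h ⬝ᵥ (algebraMap F K d • u) = 0
            rw [dotProduct_smul, hu, smul_zero]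
          · change h ⬝ᵥ (algebraMap F K (p i0) • x i0) = 0
            rw [dotProduct_smul, hx h βh0, smul_zero]
          · change t ⬝ᵥ (algebraMap F K c • y) = 0
            rw [dotProduct_smul, ty, smul_zero]
          · exact absurd rfl hij
          · change t ⬝ᵥ (algebraMap F K (p i0) • x i0) = 0
            rw [dotProduct_smul, hx t βt0, smul_zero]
          · change K1 ⬝ᵥ (algebraMap F K c • y) = 0
            rw [dotProduct_smul, K1y, smul_zero]
          · change K1 ⬝ᵥ (algebraMap F K d • u) = 0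
            rw [dotProduct_smul, K1u, smul_zero]
          · exact absurd rfl hij
        · intro i
          fin_cases i
          · change h ⬝ᵥ (algebraMap F K c • y) ≠ 0
            rw [dotProduct_smul, hy, smul_eq_mul, mul_one]
            exact hcK
          · change t ⬝ᵥ (algebraMap F K d • u) ≠ 0
            rw [dotProduct_smul, tu, smul_eq_mul, mul_one]
            exact hdK
          · change K1 ⬝ᵥ (algebraMap F K (p i0) • x i0) ≠ 0
            rw [dotProduct_smul, xK1, smul_eq_mul, mul_one]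
            exact pK)
    rw [Fin.sum_univ_three] at hcount
    change (m - 1 + 1) / 2 + (m - 2 + 1) / 2 + (m - 3 + 1) / 2 ≤ m - 1 at hcount
    omega
  refine ⟨X0 + G 0, U0 + G 1, ?_, ?_⟩
  · rw [mulVec_add, aU0, aG, add_zero]
  · rw [hβ0, add_zero] at h3
    exact h3

end

end Pool.Agent.MP_f4742e_al
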