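import Pool.Agent.Lib.MP_f4742e_al.X.Frame
import Pool.Agent.Lib.MP_f4742e_al.HMu1

/-!
Data of a symmetric matrix with one block of size `m` and one block of size `m - 1`.
-/

set_option autoImplicit false

namespace Pool.Agent.MP_f4742e_al

open Matrix

/-- Data of a symmetric matrix `a` of type `(m, m-1, ...)`. -/
structure BData {K : Type*} [Field K] {n : ℕ} (a : Matrix (Fin n) (Fin n) K) (m : ℕ)
    (v v1 u v0 u0 : Fin n → K) : Prop where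
  hm : 3 ≤ m
  tr : aᵀ = a
  am : a ^ m = 0
  e : a ^ (m - 1) = vecMulVec v v
  b : a ^ (m - 2) = vecMulVec v v1 + vecMulVec v1 v + vecMulVec u u
  av : a *ᵥ v = 0
  au : a *ᵥ u = 0
  av1 : a *ᵥ v1 = v
  v0v : v0 ⬝ᵥ v = 1
  v0u : v0 ⬝ᵥ u = 0
  u0v : u0 ⬝ᵥ v = 0
  u0u : u0 ⬝ᵥ u = 1

end Pool.Agent.MP_f4742e_al
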