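import Pool.Agent.Lib.MP_f4742e_al.X.Struct
import Pool.Agent.Lib.MP_f4742e_al.HBase
import Pool.Agent.Lib.MP_f4742e_al.G.Main

/-!
The frame of a Rota-Baxter operator on the symmetric elements of a quadratic form.
-/

set_option autoImplicit false

namespace Pool.Agent.MP_f4742e_al

open Matrix

section base

variable {F K : Type*} [Field F] [Field K] [Algebra F K] {n : ℕ}

theorem map_mulVec' (x : Matrix (Fin n) (Fin n) F) (u : Fin n → F) :
    x.map (algebraMap F K) *ᵥ (algebraMap F K ∘ u) = algebraMap F K ∘ (x *ᵥ u) := by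
  funext i
  exact (RingHom.map_mulVec (algebraMap F K) x u i).symm

theorem map_dot' (u v : Fin n → F) : (algebraMap F K ∘ u) ⬝ᵥ (algebraMap F K ∘ v) =
    algebraMap F K (u ⬝ᵥ v) :=
  (RingHom.map_dotProduct (algebraMap F K) u v).symm

theorem map_vmv' (u v : Fin n → F) : (vecMulVec u v).map (algebraMap F K) =
    vecMulVec (algebraMap F K ∘ u) (algebraMap F K ∘ v) := by
  ext i j
  simp [vecMulVec_apply]

theorem map_mul' (x y : Matrix (Fin n) (Fin n) F) : (x * y).map (algebraMap F K) =
    x.map (algebraMap F K) * y.map (algebraMap F K) := Matrix.map_mul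

theorem map_one' : (1 : Matrix (Fin n) (Fin n) F).map (algebraMap F K) = 1 := by
  rw [Matrix.map_one _ (map_zero _) (map_one _)]

theorem map_inj' {x y : Matrix (Fin n) (Fin n) F}
    (h : x.map (algebraMap F K) = y.map (algebraMap F K)) : x = y := by
  ext i j
  have h1 := congrFun (congrFun h i) j
  rw [Matrix.map_apply, Matrix.map_apply] at h1
  exact (algebraMap F K).injective h1

/-- A square root of a nondegenerate symmetric matrix. -/
theorem exists_P [IsAlgClosed K] [CharZero K] {G : Matrix (Fin n) (Fin n) K} (hG : Gᵀ = G)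
    {H : Matrix (Fin n) (Fin n) K} (hGH : G * H = 1) :
    ∃ P Q : Matrix (Fin n) (Fin n) K, Pᵀ * P = G ∧ P * Q = 1 ∧ Q * P = 1 := by
  obtain ⟨r, y, hy, he⟩ := symm_decomp hG
  have h1 : r ≤ n := by
    have h2 := hy.fintype_card_le_finrank
    rwa [Fintype.card_fin, Module.finrank_fin_fun] at h2
  have h2 : n ≤ r := by
    have h3 : Function.Surjective (Fintype.linearCombination K y) := by
      intro v
      refine ⟨fun i => y i ⬝ᵥ (H *ᵥ v), ?_⟩
      rw [Fintype.linearCombination_apply]
      have h4 : G *ᵥ (H *ᵥ v) = v := by rw [mulVec_mulVec, hGH, one_mulVec]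
      rw [he, sum_mulVec] at h4
      simpa only [vmv_mulVec] using h4
    have h4 := LinearMap.finrank_le_finrank_of_surjective (f := Fintype.linearCombination K y) h3
    rwa [Module.finrank_fin_fun, Module.finrank_fin_fun] at h4
  have h3 : r = n := le_antisymm h1 h2
  subst h3
  obtain ⟨P, hP⟩ : ∃ P : Matrix (Fin r) (Fin r) K, P = Matrix.of y := ⟨_, rfl⟩
  have h4 : Pᵀ * P = G := by
    rw [he, hP]
    ext a b
    rw [Matrix.mul_apply, Matrix.sum_apply]
    rfl
  have h5 : (H * Pᵀ) * P = 1 := by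
    rw [Matrix.mul_assoc, h4]
    exact mul_eq_one_comm.1 hGH
  exact ⟨P, H * Pᵀ, h4, mul_eq_one_comm.1 h5, h5⟩

theorem baseR_JRB {R : Matrix (Fin n) (Fin n) F →ₗ[F] Matrix (Fin n) (Fin n) F} (hR : JRB R) :
    JRB (baseR K R) := by
  intro X Y
  revert Y
  refine span_map (F := F) (P := fun X => ∀ Y, jp (baseR K R X) (baseR K R Y) =
    baseR K R (jp (baseR K R X) Y + jp X (baseR K R Y))) ?_ ?_ ?_ X
  · intro x Y
    refine span_map (F := F) (P := fun Y => jp (baseR K R (x.map (algebraMap F K)))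
      (baseR K R Y) = baseR K R (jp (baseR K R (x.map (algebraMap F K))) Y +
        jp (x.map (algebraMap F K)) (baseR K R Y))) ?_ ?_ ?_ Y
    · intro y
      have h2 : ∀ y : Matrix (Fin n) (Fin n) F, y.map (algebraMap F K) =
          (Algebra.ofId F K).mapMatrix y := fun _ => rfl
      have h3 : ∀ y z : Matrix (Fin n) (Fin n) F, jp (y.map (algebraMap F K))
          (z.map (algebraMap F K)) = (jp y z).map (algebraMap F K) := by
        intro y z
        unfold jp
        rw [h2, h2, h2, map_add, map_mul, map_mul]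
      rw [baseR_map, baseR_map, h3, h3, h3, hR x y]
      have h4 : (jp (R x) y).map (algebraMap F K) + (jp x (R y)).map (algebraMap F K) =
          (jp (R x) y + jp x (R y)).map (algebraMap F K) := by
        rw [h2, h2, h2, map_add]
      rw [h4, baseR_map]
    · intro X Y hX hY
      simp only [map_add, jp_add] at hX hY ⊢
      rw [hX, hY]
      abel
    · intro c Y hY
      simp only [map_smul, jp_smul, map_add, ← smul_add] at hY ⊢
      rw [hY]
  · intro X X' hX hX' Y
    have h1 := hX Y
    have h2 := hX' Y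
    simp only [map_add, add_jp] at h1 h2 ⊢
    rw [h1, h2]
    abel
  · intro c X hX Y
    have h1 := hX Y
    simp only [map_smul, smul_jp, map_add, ← smul_add] at h1 ⊢
    rw [h1]

/-- Conjugation by `P`, with `Q = P⁻¹`. -/
noncomputable def conjR (P Q : Matrix (Fin n) (Fin n) K)
    (R : Matrix (Fin n) (Fin n) K →ₗ[K] Matrix (Fin n) (Fin n) K) :
    Matrix (Fin n) (Fin n) K →ₗ[K] Matrix (Fin n) (Fin n) K where
  toFun X := P * R (Q * X * P) * Q
  map_add' := by
    intro X Y
    rw [Matrix.mul_add, Matrix.add_mul, map_add, Matrix.mul_add, Matrix.add_mul]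
  map_smul' := by
    intro c X
    rw [Matrix.mul_smul, Matrix.smul_mul, map_smul, Matrix.mul_smul, Matrix.smul_mul,
      RingHom.id_apply]

theorem conjR_apply (P Q : Matrix (Fin n) (Fin n) K)
    (R : Matrix (Fin n) (Fin n) K →ₗ[K] Matrix (Fin n) (Fin n) K) (X : Matrix (Fin n) (Fin n) K) :
    conjR P Q R X = P * R (Q * X * P) * Q := rfl

variable {P Q : Matrix (Fin n) (Fin n) K} (hPQ : P * Q = 1) (hQP : Q * P = 1)
  {R : Matrix (Fin n) (Fin n) K →ₗ[K] Matrix (Fin n) (Fin n) K}

include hPQ hQP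

omit hPQ in
theorem conjR_conj (X : Matrix (Fin n) (Fin n) K) :
    conjR P Q R (P * X * Q) = P * R X * Q := by
  have h1 : Q * (P * X * Q) * P = X := by
    rw [← Matrix.mul_assoc, ← Matrix.mul_assoc, hQP, Matrix.one_mul, Matrix.mul_assoc, hQP,
      Matrix.mul_one]
  rw [conjR_apply, h1]

omit hQP in
theorem exists_conj (X : Matrix (Fin n) (Fin n) K) : ∃ Y, X = P * Y * Q := by
  refine ⟨Q * X * P, ?_⟩
  rw [← Matrix.mul_assoc, ← Matrix.mul_assoc, hPQ, Matrix.one_mul, Matrix.mul_assoc, hPQ,
    Matrix.mul_one]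

omit hPQ in
theorem conjR_pow (N : ℕ) (X : Matrix (Fin n) (Fin n) K) :
    ((conjR P Q R) ^ N) (P * X * Q) = P * (R ^ N) X * Q := by
  induction N with
  | zero => rfl
  | succ N ih => rw [pow_succ', Module.End.mul_apply, ih, conjR_conj hQP, pow_succ',
      Module.End.mul_apply]

omit hPQ in
theorem jp_conj (X Y : Matrix (Fin n) (Fin n) K) :
    jp (P * X * Q) (P * Y * Q) = P * jp X Y * Q := by
  have h1 : ∀ X Y : Matrix (Fin n) (Fin n) K, P * X * Q * (P * Y * Q) = P * (X * Y) * Q := by
    intro X Y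
    calc P * X * Q * (P * Y * Q) = P * X * (Q * P) * Y * Q := by simp only [Matrix.mul_assoc]
      _ = P * (X * Y) * Q := by rw [hQP, Matrix.mul_one, ← Matrix.mul_assoc P X Y]
  unfold jp
  rw [h1, h1, ← Matrix.add_mul, ← Matrix.mul_add]

theorem conjR_SRB (hJ : JRB R) {G : Matrix (Fin n) (Fin n) K} (hPP : Pᵀ * P = G)
    (htr : ∀ Y, G * R Y = (R Y)ᵀ * G) (hti : ∀ Y Y', G * Y' = Yᵀ * G → R Y' = R Y) :
    SRB (conjR P Q R) := by
  have hPt : Pᵀ = G * Q := by rw [← hPP, Matrix.mul_assoc, hPQ, Matrix.mul_one]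
  have hQt : Qᵀ * G = P := by
    rw [← hPP, ← Matrix.mul_assoc, ← transpose_mul, hPQ, transpose_one, Matrix.one_mul]
  refine ⟨?_, ?_, ?_⟩
  · intro X Y
    obtain ⟨x, rfl⟩ := exists_conj hPQ X
    obtain ⟨y, rfl⟩ := exists_conj hPQ Y
    rw [conjR_conj hQP, conjR_conj hQP, jp_conj hQP, jp_conj hQP, jp_conj hQP, hJ x y,
      ← Matrix.add_mul, ← Matrix.mul_add, conjR_conj hQP]
  · intro X
    rw [conjR_apply]
    generalize Q * X * P = Y
    rw [transpose_mul, transpose_mul, hPt, ← Matrix.mul_assoc, ← Matrix.mul_assoc,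
      Matrix.mul_assoc Qᵀ, ← htr, ← Matrix.mul_assoc, hQt]
  · intro X
    rw [conjR_apply, conjR_apply]
    congr 2
    apply hti
    calc G * (Q * Xᵀ * P) = G * Q * Xᵀ * P := by simp only [Matrix.mul_assoc]
      _ = Pᵀ * Xᵀ * (Qᵀ * G) := by rw [← hPt, hQt]
      _ = (Q * X * P)ᵀ * G := by
        rw [transpose_mul, transpose_mul]
        simp only [Matrix.mul_assoc]

end base

section frame

variable {F K : Type*} [Field F] [Field K] [Algebra F K] {n : ℕ}

/-- Rational vectors. -/
noncomputable def ivec (P : Matrix (Fin n) (Fin n) K) : (Fin n → F) →ₗ[F] (Fin n → K) where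
  toFun u := P *ᵥ (algebraMap F K ∘ u)
  map_add' := by
    intro u v
    rw [← mulVec_add]
    congr 1
    funext i
    simp
  map_smul' := by
    intro c u
    rw [RingHom.id_apply, ← mulVec_smul]
    congr 1
    funext i
    simp [Algebra.smul_def]

theorem ivec_apply (P : Matrix (Fin n) (Fin n) K) (u : Fin n → F) :
    ivec P u = P *ᵥ (algebraMap F K ∘ u) := rfl

/-- Rational matrices. -/
noncomputable def imat (P Q : Matrix (Fin n) (Fin n) K) :
    Matrix (Fin n) (Fin n) F →ₗ[F] Matrix (Fin n) (Fin n) K where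
  toFun x := P * x.map (algebraMap F K) * Q
  map_add' := by
    intro x y
    rw [← Matrix.add_mul, ← Matrix.mul_add]
    congr 2
    ext i j
    simp
  map_smul' := by
    intro c x
    rw [RingHom.id_apply, ← Matrix.smul_mul, ← Matrix.mul_smul]
    congr 2
    ext i j
    rw [Matrix.map_apply, Matrix.smul_apply, Matrix.smul_apply, Matrix.map_apply, smul_eq_mul,
      map_mul, Algebra.smul_def]

theorem imat_apply (P Q : Matrix (Fin n) (Fin n) K) (x : Matrix (Fin n) (Fin n) F) :
    imat P Q x = P * x.map (algebraMap F K) * Q := rfl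

variable {P Q : Matrix (Fin n) (Fin n) K} (hPQ : P * Q = 1) (hQP : Q * P = 1)
  {G : Matrix (Fin n) (Fin n) F} (hPP : Pᵀ * P = G.map (algebraMap F K))

theorem ivec_dot (hPP : Pᵀ * P = G.map (algebraMap F K)) (u v : Fin n → F) :
    (ivec P u : Fin n → K) ⬝ᵥ ivec P v = algebraMap F K (u ⬝ᵥ (G *ᵥ v)) := by
  rw [ivec_apply, ivec_apply, dotProduct_mulVec, vecMul_mulVec, ← dotProduct_mulVec, hPP,
    map_mulVec', map_dot']

include hQP in
theorem imat_ivec (x : Matrix (Fin n) (Fin n) F) (u : Fin n → F) :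
    imat P Q x *ᵥ (ivec P u : Fin n → K) = ivec P (x *ᵥ u) := by
  rw [ivec_apply, ivec_apply, imat_apply, mulVec_mulVec, Matrix.mul_assoc, hQP, Matrix.mul_one,
    ← mulVec_mulVec, map_mulVec']

include hQP in
theorem imat_mul (x y : Matrix (Fin n) (Fin n) F) :
    imat P Q x * imat P Q y = imat P Q (x * y) := by
  rw [imat_apply, imat_apply, imat_apply, map_mul']
  calc P * x.map (algebraMap F K) * Q * (P * y.map (algebraMap F K) * Q)
      = P * x.map (algebraMap F K) * (Q * P) * y.map (algebraMap F K) * Q := by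
        simp only [Matrix.mul_assoc]
    _ = P * (x.map (algebraMap F K) * y.map (algebraMap F K)) * Q := by
        rw [hQP, Matrix.mul_one, ← Matrix.mul_assoc P]

include hPQ hPP in
theorem vmv_ivec (u v : Fin n → F) : vecMulVec (ivec P u : Fin n → K) (ivec P v) =
    imat P Q (vecMulVec u (G *ᵥ v)) := by
  have hPt : Pᵀ = G.map (algebraMap F K) * Q := by
    rw [← hPP, Matrix.mul_assoc, hPQ, Matrix.mul_one]
  have hQt : Qᵀ * G.map (algebraMap F K) = P := by
    rw [← hPP, ← Matrix.mul_assoc, ← transpose_mul, hPQ, transpose_one, Matrix.one_mul]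
  rw [imat_apply, map_vmv', mul_vecMulVec, vecMulVec_mul, ← mulVec_transpose, ← map_mulVec',
    mulVec_mulVec, hQt]
  rfl

/-- Rational vectors which are independent over `F` are independent over `K`. -/
theorem indep_map {l : ℕ} {φ : Fin l → (Fin n → F)} (h : LinearIndependent F φ) :
    LinearIndependent K fun i => algebraMap F K ∘ φ i := by
  obtain ⟨ψ, hψ⟩ := exists_dual h
  refine indep_of_dual (h := fun i => algebraMap F K ∘ ψ i) ?_ ?_
  · intro i j hij
    rw [map_dot', hψ, if_neg hij, map_zero]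
  · intro i
    rw [map_dot', hψ, if_pos rfl, map_one]
    exact one_ne_zero

include hQP in
theorem mulVec_inj' {l : ℕ} {g : Fin l → (Fin n → K)} (h : LinearIndependent K g) :
    LinearIndependent K fun i => P *ᵥ g i := by
  have h1 : LinearMap.ker P.mulVecLin = ⊥ := by
    rw [LinearMap.ker_eq_bot']
    intro v hv
    rw [Matrix.mulVecLin_apply] at hv
    have h2 := congrArg (fun t => Q *ᵥ t) hv
    simp only [mulVec_mulVec, hQP, one_mulVec, mulVec_zero] at h2
    exact h2
  exact h.map' P.mulVecLin h1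

/-- The frame. -/
noncomputable def mkFrame {w : ℕ} {R : Matrix (Fin n) (Fin n) K →ₗ[K] Matrix (Fin n) (Fin n) K}
    {R' : Matrix (Fin n) (Fin n) F →ₗ[F] Matrix (Fin n) (Fin n) F}
    (hPQ : P * Q = 1) (hQP : Q * P = 1) (hPP : Pᵀ * P = G.map (algebraMap F K))
    (hRR : ∀ x : Matrix (Fin n) (Fin n) F, R (imat P Q x) = imat P Q (R' x))
    (hwi : ∀ (l : ℕ) (φ : Fin l → (Fin n → F)), LinearIndependent F φ →
      (∀ i j, φ i ⬝ᵥ (G *ᵥ φ j) = 0) → l ≤ w) : Frame F R w where
  V := LinearMap.range (ivec P : (Fin n → F) →ₗ[F] (Fin n → K))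
  M := LinearMap.range (imat P Q : Matrix (Fin n) (Fin n) F →ₗ[F] Matrix (Fin n) (Fin n) K)
  one := ⟨1, by rw [imat_apply, map_one', Matrix.mul_one, hPQ]⟩
  mul := by
    rintro _ ⟨x, rfl⟩ _ ⟨y, rfl⟩
    exact ⟨x * y, (imat_mul hQP x y).symm⟩
  act := by
    rintro _ ⟨x, rfl⟩ _ ⟨v, rfl⟩
    exact ⟨x *ᵥ v, (imat_ivec hQP x v).symm⟩
  vmv := by
    rintro _ ⟨v, rfl⟩ _ ⟨u, rfl⟩
    exact ⟨_, (vmv_ivec hPQ hPP v u).symm⟩
  dot := by
    rintro _ ⟨v, rfl⟩ _ ⟨u, rfl⟩
    exact ⟨_, ivec_dot hPP v u⟩
  map := by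
    rintro _ ⟨x, rfl⟩
    exact ⟨_, (hRR x).symm⟩
  span := by
    rw [eq_top_iff]
    intro v _
    have h1 : v = ∑ i, (Q *ᵥ v) i • (ivec P (Pi.single i (1 : F)) : Fin n → K) := by
      have h2 : v = P *ᵥ (Q *ᵥ v) := by rw [mulVec_mulVec, hPQ, one_mulVec]
      conv_lhs => rw [h2, pi_eq_sum_univ' (Q *ᵥ v)]
      rw [mulVec_sum]
      refine Finset.sum_congr rfl fun i _ => ?_
      rw [mulVec_smul, ivec_apply]
      congr 2
      funext j
      by_cases hij : j = i
      · subst hij
        simp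
      · simp [Pi.single_eq_of_ne hij, hij, Ne.symm hij]
    rw [h1]
    exact Submodule.sum_mem _ fun i _ => Submodule.smul_mem _ _ (Submodule.subset_span ⟨_, rfl⟩)
  indep := by
    intro l g hg hgi
    choose φ hφ using hg
    have h1 : g = fun i => ivec P (φ i) := by
      funext i
      exact (hφ i).symm
    rw [h1] at hgi ⊢
    have h2 : LinearIndependent F φ := hgi.of_comp (ivec P)
    exact mulVec_inj' hQP (indep_map h2)
  wi := by
    intro l g hg hiso hgi
    choose φ hφ using hg
    have h1 : g = fun i => ivec P (φ i) := by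
      funext i
      exact (hφ i).symm
    subst h1
    refine hwi l φ ?_ ?_
    · rw [Fintype.linearIndependent_iff] at hgi ⊢
      intro c hc i
      have h2 := hgi (fun i => algebraMap F K (c i)) (by
        have h3 := congrArg (fun u => (ivec P u : Fin n → K)) hc
        simp only [map_sum, map_smul, map_zero] at h3
        rw [← h3]
        refine Finset.sum_congr rfl fun j _ => ?_
        rw [algebraMap_smul]) i
      exact (map_eq_zero (algebraMap F K)).1 h2
    · intro i j
      have h2 := hiso i j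
      rw [ivec_dot hPP] at h2
      exact (map_eq_zero (algebraMap F K)).1 h2

end frame

section witt

variable {F : Type*} [Field F] {n : ℕ} {G : Matrix (Fin n) (Fin n) F}
  {σ : Involution F (Matrix (Fin n) (Fin n) F)} {w : ℕ}

/-- Isotropic families of vectors are bounded by the Witt index of the involution. -/
theorem witt_le (H : Matrix (Fin n) (Fin n) F) (hHG : H * G = 1)
    (hσ : ∀ x, G * σ.f x = xᵀ * G) (hw : σ.IsWittIndex w) (l : ℕ) (φ : Fin l → (Fin n → F))
    (hφ : LinearIndependent F φ) (hiso : ∀ i j, φ i ⬝ᵥ (G *ᵥ φ j) = 0) : l ≤ w := by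
  obtain ⟨S, hS⟩ : ∃ S : ℕ → Submodule F (Fin n → F), ∀ k, S k =
      Submodule.span F (φ '' {i | (i : ℕ) < k}) := ⟨_, fun _ => rfl⟩
  let I : Fin (l + 1) → Submodule (Matrix (Fin n) (Fin n) F)ᵐᵒᵖ (Matrix (Fin n) (Fin n) F) :=
    fun k =>
    { carrier := {x | ∀ v : Fin n → F, x *ᵥ v ∈ S k}
      add_mem' := by
        intro x y hx hy v
        rw [add_mulVec]
        exact (S k).add_mem (hx v) (hy v)
      zero_mem' := by
        intro v
        rw [zero_mulVec]
        exact (S k).zero_mem
      smul_mem' := by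
        intro c x hx v
        have h1 : (c • x) *ᵥ v = x *ᵥ (c.unop *ᵥ v) := by
          rw [mulVec_mulVec]
          rfl
        rw [h1]
        exact hx _ }
  have hI : ∀ (k : Fin (l + 1)) (x : Matrix (Fin n) (Fin n) F),
      x ∈ I k ↔ ∀ v : Fin n → F, x *ᵥ v ∈ S k := fun _ _ => Iff.rfl
  refine hw.2 ⟨I, ?_, ?_⟩
  · rw [Fin.strictMono_iff_lt_succ]
    intro k
    refine lt_of_le_of_ne ?_ ?_
    · intro x hx
      rw [hI] at hx ⊢
      intro v
      have h1 := hx v
      rw [hS] at h1 ⊢
      refine Submodule.span_mono (Set.image_mono ?_) h1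
      intro i hi
      change (i : ℕ) < k.succ
      have hi' : (i : ℕ) < k.castSucc := hi
      rw [Fin.val_castSucc] at hi'
      rw [Fin.val_succ]
      omega
    · intro heq
      have h0 : φ k ≠ 0 := hφ.ne_zero k
      obtain ⟨b, hb⟩ : ∃ b, φ k b ≠ 0 := by
        by_contra hcon
        push Not at hcon
        exact h0 (funext hcon)
      have h1 : vecMulVec (φ k) (Pi.single b (1 : F)) ∈ I k.succ := by
        rw [hI]
        intro v
        rw [vmv_mulVec, hS]
        refine Submodule.smul_mem _ _ (Submodule.subset_span ⟨k, ?_, rfl⟩)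
        change (k : ℕ) < k.succ
        rw [Fin.val_succ]
        omega
      rw [← heq, hI] at h1
      have h2 := h1 (Pi.single b (1 : F))
      rw [vmv_mulVec, single_dotProduct, Pi.single_eq_same, one_mul, one_smul, hS] at h2
      have h3 := hφ.notMem_span_image (s := {i : Fin l | (i : ℕ) < k.castSucc}) (x := k) (by
        intro h4
        have h5 : (k : ℕ) < k.castSucc := h4
        rw [Fin.val_castSucc] at h5
        omega)
      exact h3 h2
  · intro x hx y hy
    rw [hI] at hx hy
    have h1 : ∀ u ∈ S l, ∀ v ∈ S l, u ⬝ᵥ (G *ᵥ v) = 0 := by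
      intro u hu v hv
      rw [hS] at hu hv
      induction hu using Submodule.span_induction with
      | mem u hu =>
        obtain ⟨i, _, rfl⟩ := hu
        induction hv using Submodule.span_induction with
        | mem v hv =>
          obtain ⟨j, _, rfl⟩ := hv
          exact hiso i j
        | zero => rw [mulVec_zero, dotProduct_zero]
        | add a b _ _ ha hb => rw [mulVec_add, dotProduct_add, ha, hb, add_zero]
        | smul c a _ ha => rw [mulVec_smul, dotProduct_smul, ha, smul_zero]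
      | zero => rw [zero_dotProduct]
      | add a b _ _ ha hb => rw [add_dotProduct, ha, hb, add_zero]
      | smul c a _ ha => rw [smul_dotProduct, ha, smul_zero]
    have h2 : xᵀ * G * y = 0 := by
      ext a b
      have h3 := h1 _ (hx (Pi.single a 1)) _ (hy (Pi.single b 1))
      rw [Matrix.mul_assoc, Matrix.zero_apply]
      rw [mulVec_mulVec, mulVec_single_one, mulVec_single_one] at h3
      exact h3
    have h3 : G * (σ.f x * y) = 0 := by
      rw [← Matrix.mul_assoc, hσ, h2]
    have h4 := congrArg (fun t => H * t) h3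
    simp only [← Matrix.mul_assoc, hHG, Matrix.one_mul, Matrix.mul_zero] at h4
    exact h4

end witt

end Pool.Agent.MP_f4742e_al
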