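import Pool.Agent.Lib.MP_f4742e_al.X.Frame

/-!
More about rational structures: scalars, small isotropic families.
-/

set_option autoImplicit false

namespace Pool.Agent.MP_f4742e_al

open Matrix

namespace Frame

variable {F K : Type*} [Field F] [Field K] [Algebra F K] {n : ℕ}
  {R : Matrix (Fin n) (Fin n) K →ₗ[K] Matrix (Fin n) (Fin n) K} {w : ℕ} (Φ : Frame F R w)

include Φ

/-- Some rational vector has a nonzero product with `v`. -/
theorem exists_ne_dot {v : Fin n → K} (hv : v ≠ 0) : ∃ y ∈ Φ.V, v ⬝ᵥ y ≠ 0 := by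
  by_contra hcon
  push Not at hcon
  apply hv
  have h1 : ∀ y, v ⬝ᵥ y = 0 := by
    refine Φ.vec_ind hcon ?_ ?_
    · intro x y hx hy
      rw [dotProduct_add, hx, hy, add_zero]
    · intro c x hx
      rw [dotProduct_smul, hx, smul_zero]
  exact dotProduct_eq_zero v h1

/-- Two proportional rational vectors are proportional over `F`. -/
theorem prop_rat {v : Fin n → K} (hv : v ∈ Φ.V) (hv0 : v ≠ 0) {c : K} (hc : c • v ∈ Φ.V) :
    ∃ f : F, c = algebraMap F K f := by
  by_contra hcon
  push Not at hcon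
  have h1 : LinearIndependent F ![v, c • v] := by
    rw [LinearIndependent.pair_iff]
    intro s t hst
    have h2 : (algebraMap F K s + algebraMap F K t * c) • v = 0 := by
      rw [add_smul, mul_smul, algebraMap_smul, algebraMap_smul]
      exact hst
    have h3 := (smul_eq_zero.1 h2).resolve_right hv0
    by_cases ht : t = 0
    · rw [ht, map_zero, zero_mul, add_zero] at h3
      exact ⟨(map_eq_zero _).1 h3, ht⟩
    · exfalso
      apply hcon (-s / t)
      have h4 : algebraMap F K t ≠ 0 := by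
        rw [Ne, map_eq_zero]
        exact ht
      rw [map_div₀, map_neg, eq_div_iff h4]
      linear_combination h3
  have h2 := Φ.indep 2 ![v, c • v] (by
    intro i
    fin_cases i
    · exact hv
    · exact hc) h1
  rw [LinearIndependent.pair_iff] at h2
  have h3 := h2 c (-1) (by module)
  exact (neg_ne_zero.2 one_ne_zero) h3.2

/-- If `κ v` is rational and `v vᵀ` is rational then `κ²` is in `F`. -/
theorem sq_rat {v : Fin n → K} (hv0 : v ≠ 0) {κ : K} (hκ : κ ≠ 0) (hv : κ • v ∈ Φ.V)
    (h : vecMulVec v v ∈ Φ.M) : ∃ f : F, f ≠ 0 ∧ κ * κ = algebraMap F K f := by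
  obtain ⟨y, hy, hy0⟩ := Φ.exists_ne_dot hv0
  have h1 := Φ.act _ h y hy
  rw [vmv_mulVec] at h1
  have h2 : ((v ⬝ᵥ y) / κ) • (κ • v) ∈ Φ.V := by
    rw [smul_smul, div_mul_cancel₀ _ hκ]
    exact h1
  obtain ⟨f, hf⟩ := Φ.prop_rat hv (smul_ne_zero hκ hv0) h2
  obtain ⟨g, hg⟩ := Φ.dot _ hv y hy
  rw [smul_dotProduct, smul_eq_mul] at hg
  have hf0 : f ≠ 0 := by
    rintro rfl
    rw [map_zero] at hf
    exact (div_ne_zero hy0 hκ) hf
  have hf0' : algebraMap F K f ≠ 0 := by
    rw [Ne, map_eq_zero]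
    exact hf0
  have h3 : v ⬝ᵥ y = algebraMap F K f * κ := by
    rw [← hf, div_mul_cancel₀ _ hκ]
  have h4 : κ * κ = algebraMap F K (g / f) := by
    rw [map_div₀, eq_div_iff hf0', ← hg, h3]
    ring
  refine ⟨g / f, ?_, h4⟩
  intro h5
  rw [h5, map_zero] at h4
  exact (mul_ne_zero hκ hκ) h4

/-- Multiplication of rational matrices by elements of `F`, in terms of `K`. -/
theorem smul_memM {x : Matrix (Fin n) (Fin n) K} (hx : x ∈ Φ.M) {c : K} {f : F}
    (hc : c = algebraMap F K f) : c • x ∈ Φ.M := by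
  rw [hc, algebraMap_smul]
  exact Φ.M.smul_mem f hx

theorem smul_memV {x : Fin n → K} (hx : x ∈ Φ.V) {c : K} {f : F}
    (hc : c = algebraMap F K f) : c • x ∈ Φ.V := by
  rw [hc, algebraMap_smul]
  exact Φ.V.smul_mem f hx

end Frame

/-- Isotropic rational families of three vectors are dependent if the Witt index is two. -/
theorem Frame.span_two {F K : Type*} [Field F] [Field K] [Algebra F K] {n : ℕ}
    {R : Matrix (Fin n) (Fin n) K →ₗ[K] Matrix (Fin n) (Fin n) K} (Φ : Frame F R 2)
    {p q y : Fin n → K} (hp : p ∈ Φ.V) (hq : q ∈ Φ.V) (hy : y ∈ Φ.V)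
    (hpq : LinearIndependent K ![p, q]) (h1 : p ⬝ᵥ p = 0) (h2 : p ⬝ᵥ q = 0) (h3 : q ⬝ᵥ q = 0)
    (h4 : y ⬝ᵥ p = 0) (h5 : y ⬝ᵥ q = 0) (h6 : y ⬝ᵥ y = 0) : ∃ α β : K, y = α • p + β • q := by
  by_contra hcon
  push Not at hcon
  have h7 : LinearIndependent K ![y, p, q] := by
    refine (linearIndependent_finCons (x := y) (v := ![p, q])).2 ⟨hpq, fun h => ?_⟩
    have h8 : Set.range ![p, q] = {p, q} := by
      rw [Matrix.range_cons, Matrix.range_cons, Matrix.range_empty, Set.union_empty]
      rfl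
    rw [h8, Submodule.mem_span_pair] at h
    obtain ⟨α, β, h⟩ := h
    exact hcon α β h.symm
  have h8 := Φ.wi 3 ![y, p, q] (by
    intro i
    fin_cases i
    · exact hy
    · exact hp
    · exact hq) (by
    intro i j
    fin_cases i <;> fin_cases j
    · exact h6
    · exact h4
    · exact h5
    · exact (dotProduct_comm _ _).trans h4
    · exact h1
    · exact h2
    · exact (dotProduct_comm _ _).trans h5
    · exact (dotProduct_comm _ _).trans h2
    · exact h3) h7
  omega

end Pool.Agent.MP_f4742e_al
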