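import Pool.Agent.Lib.MP_f4742e_al.X.BData
import Pool.Agent.Lib.MP_f4742e_al.X.FrameB
import Pool.Agent.Lib.MP_f4742e_al.X.C32

/-!
The type `(3, 2, 1, ..., 1)` with Witt index two is impossible.
-/

set_option autoImplicit false

namespace Pool.Agent.MP_f4742e_al

open Matrix

variable {F K : Type*} [Field F] [Field K] [CharZero K] [Algebra F K] {n : ℕ}
  {R : Matrix (Fin n) (Fin n) K →ₗ[K] Matrix (Fin n) (Fin n) K}

section

variable {v v1 u v0 u0 : Fin n → K} (D : BData (R 1) 3 v v1 u v0 u0)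

include D

omit [CharZero K] in
theorem BData.v_ne0 : v ≠ 0 := by
  rintro rfl
  have := D.v0v
  rw [dotProduct_zero] at this
  exact zero_ne_one this

omit [CharZero K] in
theorem BData.c3_dots : v ⬝ᵥ v = 0 ∧ v ⬝ᵥ u = 0 ∧ u ⬝ᵥ u = 0 ∧ v1 ⬝ᵥ v = 0 ∧ v1 ⬝ᵥ u = 0 ∧
    v1 ⬝ᵥ v1 = 1 := by
  have hb : ∀ y, R 1 *ᵥ y = (v1 ⬝ᵥ y) • v + (v ⬝ᵥ y) • v1 + (u ⬝ᵥ y) • u := by
    intro y
    have h1 := D.b
    rw [show (3 : ℕ) - 2 = 1 from rfl, pow_one] at h1
    rw [h1, add_mulVec, add_mulVec, vmv_mulVec, vmv_mulVec, vmv_mulVec]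
  have he : ∀ y, R 1 *ᵥ (R 1 *ᵥ y) = (v ⬝ᵥ y) • v := by
    intro y
    have h1 := D.e
    rw [show (3 : ℕ) - 1 = 2 from rfl, pow_two] at h1
    rw [mulVec_mulVec, h1, vmv_mulVec]
  have hvv : v ⬝ᵥ v = 0 := by
    have h1 : v ⬝ᵥ v = (R 1 *ᵥ v1) ⬝ᵥ v := by rw [D.av1]
    rw [h1, dot_symm D.tr, D.av, dotProduct_zero]
  have hvu : v ⬝ᵥ u = 0 := by
    have h1 : v ⬝ᵥ u = (R 1 *ᵥ v1) ⬝ᵥ u := by rw [D.av1]
    rw [h1, dot_symm D.tr, D.au, dotProduct_zero]
  have hvv1 : v ⬝ᵥ v1 = 0 := by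
    have h1 := he v1
    rw [D.av1, D.av] at h1
    exact (smul_eq_zero.1 h1.symm).resolve_right D.v_ne0
  have h1 := hb v1
  rw [D.av1, hvv1, zero_smul, add_zero] at h1
  have h2 := congrArg (fun y => v0 ⬝ᵥ y) h1
  have h3 := congrArg (fun y => u0 ⬝ᵥ y) h1
  simp only [dotProduct_add, dotProduct_smul, D.v0v, D.v0u, D.u0v, D.u0u, smul_eq_mul, mul_one,
    mul_zero, add_zero, zero_add] at h2 h3
  have h4 := hb u
  rw [D.au, hvu, zero_smul, add_zero] at h4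
  have h5 := congrArg (fun y => u0 ⬝ᵥ y) h4
  simp only [dotProduct_add, dotProduct_smul, D.u0v, D.u0u, smul_eq_mul, mul_one,
    mul_zero, zero_add, dotProduct_zero] at h5
  exact ⟨hvv, hvu, h5.symm, (dotProduct_comm _ _).trans hvv1, (dotProduct_comm _ _).trans h3.symm,
    h2.symm⟩

end

/-- The symmetrised argument. -/
theorem SRB.R_half (hR : SRB R) (x : Matrix (Fin n) (Fin n) K) :
    ∃ y, yᵀ = y ∧ R x = R y := by
  refine ⟨(2⁻¹ : K) • (x + xᵀ), ?_, ?_⟩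
  · rw [transpose_smul, transpose_add, transpose_transpose, add_comm]
  · rw [map_smul, map_add, hR.ti, ← two_smul K, smul_smul, inv_mul_cancel₀ two_ne_zero, one_smul]

/-- If all values `s t` are isotropic and orthogonal to `v`, `u` then they lie in the span of
`v`, `u`. -/
theorem c3_span (hR : SRB R) (Φ : Frame F R 2) {v v1 u v0 u0 : Fin n → K}
    (D : BData (R 1) 3 v v1 u v0 u0) {κ lam τ : K} (hκ : κ ≠ 0) (hlam : lam ≠ 0) (hτ : τ ≠ 0)
    (hv : κ • v ∈ Φ.V) (hu : lam • u ∈ Φ.V) {t : Fin n → K} (ht : τ • t ∈ Φ.V)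
    (h1 : ∀ x, v ⬝ᵥ (R x *ᵥ t) = 0) (h2 : ∀ x, u ⬝ᵥ (R x *ᵥ t) = 0)
    (h3 : ∀ x, (R x *ᵥ t) ⬝ᵥ (R x *ᵥ t) = 0) (x : Matrix (Fin n) (Fin n) K) :
    R x *ᵥ t = (v0 ⬝ᵥ (R x *ᵥ t)) • v + (u0 ⬝ᵥ (R x *ᵥ t)) • u := by
  obtain ⟨dvv, dvu, duu, -, -, -⟩ := D.c3_dots
  have hli : LinearIndependent K ![κ • v, lam • u] := by
    rw [LinearIndependent.pair_iff]
    intro a b hab
    have e1 := congrArg (fun y => v0 ⬝ᵥ y) hab
    have e2 := congrArg (fun y => u0 ⬝ᵥ y) hab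
    simp only [dotProduct_add, dotProduct_smul, D.v0v, D.v0u, D.u0v, D.u0u, smul_eq_mul, mul_one,
      mul_zero, add_zero, zero_add, dotProduct_zero] at e1 e2
    exact ⟨(mul_eq_zero.1 e1).resolve_right hκ, (mul_eq_zero.1 e2).resolve_right hlam⟩
  obtain ⟨x', hx', hxx⟩ := hR.R_half x
  rw [hxx]
  refine Φ.sym_ind (P := fun x => R x *ᵥ t = (v0 ⬝ᵥ (R x *ᵥ t)) • v + (u0 ⬝ᵥ (R x *ᵥ t)) • u)
    ?_ ?_ ?_ x' hx'
  · intro x hxM hxs
    have hy : τ • (R x *ᵥ t) ∈ Φ.V := by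
      rw [← mulVec_smul]
      exact Φ.act _ (Φ.map x hxM) _ ht
    obtain ⟨α, β, hab⟩ := Φ.span_two hv hu hy hli
      (by rw [smul_dotProduct, dotProduct_smul, dvv, smul_zero, smul_zero])
      (by rw [smul_dotProduct, dotProduct_smul, dvu, smul_zero, smul_zero])
      (by rw [smul_dotProduct, dotProduct_smul, duu, smul_zero, smul_zero])
      (by rw [smul_dotProduct, dotProduct_smul, dotProduct_comm, h1, smul_zero, smul_zero])
      (by rw [smul_dotProduct, dotProduct_smul, dotProduct_comm, h2, smul_zero, smul_zero])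
      (by rw [smul_dotProduct, dotProduct_smul, h3, smul_zero, smul_zero])
    have h4 : R x *ᵥ t = (τ⁻¹ * (α * κ)) • v + (τ⁻¹ * (β * lam)) • u := by
      have h5 := congrArg (fun y => τ⁻¹ • y) hab
      simp only [smul_smul, inv_mul_cancel₀ hτ, one_smul, smul_add] at h5
      exact h5
    have e1 : v0 ⬝ᵥ (R x *ᵥ t) = τ⁻¹ * (α * κ) := by
      rw [h4, dotProduct_add, dotProduct_smul, dotProduct_smul, D.v0v, D.v0u]
      simp
    have e2 : u0 ⬝ᵥ (R x *ᵥ t) = τ⁻¹ * (β * lam) := by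
      rw [h4, dotProduct_add, dotProduct_smul, dotProduct_smul, D.u0v, D.u0u]
      simp
    rw [e1, e2]
    exact h4
  · intro x y hx hy
    have h4 : R (x + y) *ᵥ t = R x *ᵥ t + R y *ᵥ t := by rw [map_add, add_mulVec]
    rw [h4, dotProduct_add, dotProduct_add, add_smul, add_smul]
    nth_rw 1 [hx, hy]
    abel
  · intro c x hx
    have h4 : R (c • x) *ᵥ t = c • (R x *ᵥ t) := by rw [map_smul, smul_mulVec]
    rw [h4, dotProduct_smul, dotProduct_smul, smul_assoc, smul_assoc, ← smul_add, ← hx]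

/-- (C) `κ v`, `κ v1`, `lam u`, `μ u0` are rational. -/
theorem c3_false (hR : SRB R) (Φ : Frame F R 2) {v v1 u v0 u0 : Fin n → K}
    (D : BData (R 1) 3 v v1 u v0 u0) {κ lam μ : K} (hκ : κ ≠ 0) (hlam : lam ≠ 0) (hμ : μ ≠ 0)
    (hv : κ • v ∈ Φ.V) (hv1 : κ • v1 ∈ Φ.V) (hu : lam • u ∈ Φ.V) (hu0 : μ • u0 ∈ Φ.V) :
    False := by
  obtain ⟨dvv, dvu, duu, dv1v, dv1u, dv1v1⟩ := D.c3_dots
  have hu_ne : u ≠ 0 := by
    rintro rfl
    have := D.u0u
    rw [dotProduct_zero] at this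
    exact zero_ne_one this
  -- the scalars
  have hvM : vecMulVec v v ∈ Φ.M := by
    have h1 := Φ.a_pow 2
    have h2 := D.e
    rw [show (3 : ℕ) - 1 = 2 from rfl] at h2
    rwa [h2] at h1
  obtain ⟨f, hf0, hf⟩ := Φ.sq_rat D.v_ne0 hκ hv hvM
  have hf0' : algebraMap F K f ≠ 0 := by
    rw [Ne, map_eq_zero]
    exact hf0
  have huM : vecMulVec u u ∈ Φ.M := by
    have h1 := Φ.a_pow 1
    have h2 := D.b
    rw [show (3 : ℕ) - 2 = 1 from rfl] at h2
    rw [h2] at h1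
    have h3 : vecMulVec v v1 + vecMulVec v1 v ∈ Φ.M := by
      have h4 : vecMulVec v v1 + vecMulVec v1 v = (algebraMap F K f⁻¹) •
          (vecMulVec (κ • v) (κ • v1) + vecMulVec (κ • v1) (κ • v)) := by
        rw [smul_vecMulVec, vecMulVec_smul, smul_vecMulVec, vecMulVec_smul, smul_smul, smul_smul,
          ← smul_add, smul_smul, hf, ← map_mul, inv_mul_cancel₀ hf0, map_one, one_smul]
      rw [h4]
      exact Φ.smul_memM (Φ.M.add_mem (Φ.vmv _ hv _ hv1) (Φ.vmv _ hv1 _ hv)) rfl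
    have h5 := Φ.M.sub_mem h1 h3
    rwa [add_sub_cancel_left] at h5
  obtain ⟨g, hg0, hg⟩ := Φ.sq_rat hu_ne hlam hu huM
  obtain ⟨h, hh⟩ := Φ.dot _ hu0 _ hu
  rw [smul_dotProduct, dotProduct_smul, D.u0u, smul_eq_mul, smul_eq_mul, mul_one] at hh
  have hx0M : vecMulVec u0 u0 ∈ Φ.M := by
    have hh0 : h ≠ 0 := by
      rintro rfl
      rw [map_zero] at hh
      exact (mul_ne_zero hμ hlam) hh
    have h1 : vecMulVec u0 u0 = (algebraMap F K (g / (h * h))) •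
        vecMulVec (μ • u0) (μ • u0) := by
      rw [smul_vecMulVec, vecMulVec_smul, smul_smul, smul_smul]
      have h2 : algebraMap F K (g / (h * h)) * (μ * μ) = 1 := by
        rw [map_div₀, map_mul, ← hh, ← hg]
        field_simp
      rw [mul_assoc] at *
      rw [h2, one_smul]
    rw [h1]
    exact Φ.smul_memM (Φ.vmv _ hu0 _ hu0) rfl
  refine cb_false hR (m := 3) (v := v) (v1 := v1) (v2 := v0) (u := u) (u1 := u0) (v0 := v0)
    (u0 := u0) ?_
  refine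
    { hm := rfl
      am := D.am
      e := D.e
      b := D.b
      vv := dvv
      vu := dvu
      uu := duu
      v1v := dv1v
      v1u := dv1u
      v1v1 := dv1v1
      v0v := D.v0v
      v0u := D.v0u
      u0v := D.u0v
      u0u := D.u0u
      hv := c3_span hR Φ D hκ hlam hκ hv hu hv
      hu := c3_span hR Φ D hκ hlam hlam hv hu hu
      hz := ?_ }
  intro x z hx hz h1 h2 h3
  have hxM : x ∈ Φ.M := by
    rw [hx]
    exact hx0M
  have hρ : ∃ c : F, v1 ⬝ᵥ (R x *ᵥ v1) = algebraMap F K c := by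
    obtain ⟨c, hc⟩ := Φ.dot _ hv1 _ (Φ.act _ (Φ.map x hxM) _ hv1)
    rw [mulVec_smul, smul_dotProduct, dotProduct_smul, smul_smul, hf, smul_eq_mul] at hc
    refine ⟨c / f, ?_⟩
    rw [map_div₀, ← hc, mul_div_cancel_left₀ _ hf0']
  obtain ⟨c, hc⟩ := hρ
  have hzV : κ • z ∈ Φ.V := by
    rw [hz, smul_sub, ← mulVec_smul, smul_comm κ]
    refine Φ.V.sub_mem (Φ.act _ (Φ.map x hxM) _ hv1) (Φ.smul_memV hv1 (f := c - 2⁻¹) ?_)
    rw [hc, map_sub, map_inv₀, map_ofNat]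
  have hli : LinearIndependent K ![κ • v, lam • u] := by
    rw [LinearIndependent.pair_iff]
    intro a b hab
    have e1 := congrArg (fun y => v0 ⬝ᵥ y) hab
    have e2 := congrArg (fun y => u0 ⬝ᵥ y) hab
    simp only [dotProduct_add, dotProduct_smul, D.v0v, D.v0u, D.u0v, D.u0u, smul_eq_mul, mul_one,
      mul_zero, add_zero, zero_add, dotProduct_zero] at e1 e2
    exact ⟨(mul_eq_zero.1 e1).resolve_right hκ, (mul_eq_zero.1 e2).resolve_right hlam⟩
  obtain ⟨α, β, hab⟩ := Φ.span_two hv hu hzV hli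
      (by rw [smul_dotProduct, dotProduct_smul, dvv, smul_zero, smul_zero])
      (by rw [smul_dotProduct, dotProduct_smul, dvu, smul_zero, smul_zero])
      (by rw [smul_dotProduct, dotProduct_smul, duu, smul_zero, smul_zero])
      (by rw [smul_dotProduct, dotProduct_smul, h1, smul_zero, smul_zero])
      (by rw [smul_dotProduct, dotProduct_smul, h2, smul_zero, smul_zero])
      (by rw [smul_dotProduct, dotProduct_smul, h3, smul_zero, smul_zero])
  refine ⟨κ⁻¹ * (α * κ), κ⁻¹ * (β * lam), ?_⟩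
  have h5 := congrArg (fun y => κ⁻¹ • y) hab
  simp only [smul_smul, inv_mul_cancel₀ hκ, one_smul, smul_add] at h5
  exact h5

end Pool.Agent.MP_f4742e_al
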