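import Pool.Agent.Lib.MP_f4742e_al.X.Frame
import Pool.Agent.Lib.MP_f4742e_al.G.Alg

/-!
The type `(3, 3, 3, 1, ..., 1)` with Witt index three is impossible.

The operator `R` acts on the matrices supported on `L = im e`, `e = (R 1)^2`, `dim L = 3`. Its
image there has a unit `τ`, and `τ = R ζ` with `ζ` of rank two, `ζ = p φ* + φ p*`, `φ` in the kernel
and `p` in the image of `τ`. The operator `Γ` of `a s0` on `L`, `s0 = R x0`, where `x0 φ` is a
preimage of `p`, satisfies `Γ + Γ* = τ / (φ, φ)`, and with `D = Γ - Γ*` the vector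
`p + (φ, φ) D p` is isotropic.
-/

set_option autoImplicit false

namespace Pool.Agent.MP_f4742e_al

open Matrix

section alg

open Polynomial

variable {F A : Type*} [Field F] [CharZero F] [Ring A] [Algebra F A]

omit [CharZero F] in
/-- Some polynomial `q` with `q(0) ≠ 0` and `t q(t) = 0`. -/
theorem e333_poly {t : A} (ht : IsIntegral F t)
    (hnil : ∀ u : A, t * (t * u) = 0 → t * u = 0) :
    ∃ q : F[X], q.coeff 0 ≠ 0 ∧ t * aeval t q = 0 := by
  have hp0 : minpoly F t ≠ 0 := minpoly.ne_zero ht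
  obtain ⟨q, hq, hnd⟩ := exists_eq_pow_rootMultiplicity_mul_and_not_dvd (minpoly F t) hp0 0
  rw [map_zero, sub_zero] at hq hnd
  obtain ⟨k, hk⟩ : ∃ k, k = (minpoly F t).rootMultiplicity 0 := ⟨_, rfl⟩
  rw [← hk] at hq
  refine ⟨q, fun h => hnd (X_dvd_iff.2 h), ?_⟩
  have h1 : t ^ k * aeval t q = 0 := by
    have h4 : t ^ k * aeval t q = aeval t (minpoly F t) := by
      rw [hq, map_mul, map_pow, aeval_X]
    rw [h4, minpoly.aeval]
  have h2 : ∀ j, t ^ (j + 1) * aeval t q = 0 → t * aeval t q = 0 := by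
    intro j
    induction j with
    | zero =>
      intro h
      rwa [zero_add, pow_one] at h
    | succ j ih =>
      intro h
      apply ih
      rw [pow_succ', mul_assoc]
      apply hnil
      rw [← h, pow_succ' t (j + 1), pow_succ' t j]
      noncomm_ring
  cases k with
  | zero =>
    rw [pow_zero, one_mul] at h1
    rw [h1, mul_zero]
  | succ k => exact h2 k h1

omit [CharZero F] in
/-- The idempotent of an element without nilpotent part. -/
theorem e333_idem {t : A} (ht : IsIntegral F t)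
    (hnil : ∀ u : A, t * (t * u) = 0 → t * u = 0) :
    ∃ f : F[X], t * aeval t (X * f) = t ∧ aeval t (X * f) * t = t ∧
      aeval t (X * f) * aeval t (X * f) = aeval t (X * f) := by
  obtain ⟨q, hq0, hq⟩ := e333_poly ht hnil
  refine ⟨-(C (q.coeff 0)⁻¹ * divX q), ?_⟩
  have h3 : aeval t q = aeval t (X * divX q) + aeval t (C (q.coeff 0)) := by
    rw [← map_add, X_mul_divX_add]
  have h4 : aeval t (X * -(C (q.coeff 0)⁻¹ * divX q)) =
      -((q.coeff 0)⁻¹ • aeval t (X * divX q)) := by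
    have h5 : X * -(C (q.coeff 0)⁻¹ * divX q) = -(C (q.coeff 0)⁻¹ * (X * divX q)) := by ring
    rw [h5, map_neg, map_mul, aeval_C, ← Algebra.smul_def]
  have h6 : t * aeval t (X * divX q) = -(q.coeff 0 • t) := by
    rw [h3, aeval_C, mul_add, ← Algebra.commutes, ← Algebra.smul_def] at hq
    exact eq_neg_of_add_eq_zero_left hq
  have h7 : t * aeval t (X * -(C (q.coeff 0)⁻¹ * divX q)) = t := by
    rw [h4, mul_neg, mul_smul_comm, h6, smul_neg, neg_neg, smul_smul, inv_mul_cancel₀ hq0,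
      one_smul]
  have h8 : ∀ g : F[X], aeval t g * t = t * aeval t g := by
    intro g
    have h9 : aeval t g * aeval t (X : F[X]) = aeval t (X : F[X]) * aeval t g := by
      rw [← map_mul, ← map_mul, mul_comm]
    rwa [aeval_X] at h9
  refine ⟨h7, by rw [h8, h7], ?_⟩
  have h9 : ∀ g : F[X], aeval t (X * g) = t * aeval t g := by
    intro g
    rw [map_mul, aeval_X]
  have h10 : aeval t (X * -(C (q.coeff 0)⁻¹ * divX q)) *
      aeval t (X * -(C (q.coeff 0)⁻¹ * divX q)) =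
      (aeval t (X * -(C (q.coeff 0)⁻¹ * divX q)) * t) *
      aeval t (-(C (q.coeff 0)⁻¹ * divX q)) := by
    conv_lhs =>
      rw [h9, mul_assoc]
    rw [h9]
    noncomm_ring
  rw [h10, h8, h7, ← h9]

/-- The image of `R` has a unit. -/
theorem e333_unit [FiniteDimensional F A] {R : A →ₗ[F] A} (h : JRB R) (ad : A → A)
    (hm : ∀ x y, ad (x * y) = ad y * ad x) (hsub : ∀ x y, ad (x - y) = ad x - ad y)
    (h1 : ad 1 = 1) (han : ∀ u, ad u * u = 0 → u = 0) (hs : ∀ x, ad (R x) = R x) :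
    ∃ z, R z * R z = R z ∧ ∀ x, R z * R x = R x ∧ R x * R z = R x := by
  have hj : ∀ x y, ∃ z, R x * R y + R y * R x = R z := fun x y => ⟨_, h x y⟩
  have hpoly : ∀ x (f : F[X]), ∃ z, aeval (R x) (X * f) = R z := by
    intro x f
    obtain ⟨z, hz⟩ := aeval_mem_range h 1 (p := R x) (w := x) (by rw [pow_one]) f
    exact ⟨z, by rw [hz, pow_one]⟩
  have hnil : ∀ x u, R x * (R x * u) = 0 → R x * u = 0 := by
    intro x u hu
    apply han
    rw [hm, hs, mul_assoc, hu, mul_zero]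
  have h2 : (2 : F) ≠ 0 := two_ne_zero
  obtain ⟨N, ⟨z, hz, hN⟩, hmin⟩ := (wellFounded_lt (α := Submodule F A)).has_min
    {N | ∃ z, R z * R z = R z ∧ N = LinearMap.ker (LinearMap.mulLeft F (R z))}
    ⟨_, 0, by rw [map_zero, mul_zero], rfl⟩
  obtain ⟨ε, hε⟩ : ∃ ε, ε = R z := ⟨_, rfl⟩
  rw [← hε] at hz hN
  have hεs : ad ε = ε := by rw [hε, hs]
  have hUt : ∀ x, ∃ y, ε * R x * ε = R y := by
    intro x
    obtain ⟨x1, hx1⟩ := hj z x
    obtain ⟨x2, hx2⟩ := hj z x1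
    rw [← hε] at hx1 hx2
    refine ⟨(2 : F)⁻¹ • (x2 - x1), ?_⟩
    rw [map_smul, map_sub, ← hx2, ← hx1]
    have h3 : ε * (ε * R x + R x * ε) + (ε * R x + R x * ε) * ε - (ε * R x + R x * ε) =
        (2 : F) • (ε * R x * ε) := by
      have h4 : ε * (ε * R x + R x * ε) + (ε * R x + R x * ε) * ε - (ε * R x + R x * ε) =
          (ε * ε) * R x + R x * (ε * ε) + (ε * R x * ε + ε * R x * ε) -
            (ε * R x + R x * ε) := by noncomm_ring
      rw [h4, hz, two_smul]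
      abel
    rw [h3, smul_smul, inv_mul_cancel₀ h2, one_smul]
  have hstep : ∀ x, (1 - ε) * R x * (1 - ε) = 0 := by
    intro x
    by_contra hne
    obtain ⟨x1, hx1⟩ := hj z x
    obtain ⟨x2, hx2⟩ := hUt x
    rw [← hε] at hx1
    have h3 : (1 - ε) * R x * (1 - ε) = R (x - x1 + x2) := by
      rw [map_add, map_sub, ← hx1, ← hx2]
      noncomm_ring
    obtain ⟨t0, ht0⟩ : ∃ t0, t0 = (1 - ε) * R x * (1 - ε) := ⟨_, rfl⟩
    rw [← ht0] at hne h3
    have h4 : ε * t0 = 0 := by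
      have h5 : ε * t0 = (ε - ε * ε) * R x * (1 - ε) := by
        rw [ht0]
        noncomm_ring
      rw [h5, hz, sub_self, zero_mul, zero_mul]
    have h4' : t0 * ε = 0 := by
      have h5 : t0 * ε = (1 - ε) * R x * (ε - ε * ε) := by
        rw [ht0]
        noncomm_ring
      rw [h5, hz, sub_self, mul_zero]
    obtain ⟨f, hf1, hf2, hf3⟩ := e333_idem (F := F) (t := t0)
      (Algebra.IsIntegral.isIntegral _) (by
        intro u hu
        rw [h3] at hu ⊢
        exact hnil _ u hu)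
    obtain ⟨w, hw⟩ := hpoly (x - x1 + x2) f
    rw [← h3] at hw
    obtain ⟨ε', hε'⟩ : ∃ ε', ε' = aeval t0 (X * f) := ⟨_, rfl⟩
    rw [← hε'] at hw hf1 hf2 hf3
    have h5 : ε * ε' = 0 := by
      rw [hε', map_mul, aeval_X, ← mul_assoc, h4, zero_mul]
    have h5' : ε' * ε = 0 := by
      rw [hε', mul_comm X f, map_mul, aeval_X, mul_assoc, h4', mul_zero]
    have h6 : R (z + w) = ε + ε' := by rw [map_add, ← hε, ← hw]
    refine hmin (LinearMap.ker (LinearMap.mulLeft F (ε + ε'))) ⟨z + w, ?_, by rw [h6]⟩ ?_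
    · rw [h6]
      have h7 : (ε + ε') * (ε + ε') = ε * ε + ε' * ε' + ε * ε' + ε' * ε := by noncomm_ring
      rw [h7, h5, h5', hz, hf3, add_zero, add_zero]
    · rw [hN]
      constructor
      · intro u hu
        change (ε + ε') * u = 0 at hu
        change ε * u = 0
        have h8 : ε * u = ε * ((ε + ε') * u) := by
          have h9 : ε * ((ε + ε') * u) = (ε * ε) * u + (ε * ε') * u := by noncomm_ring
          rw [h9, h5, hz, zero_mul, add_zero]
        rw [h8, hu, mul_zero]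
      · intro hle
        have h8 : t0 ∈ LinearMap.ker (LinearMap.mulLeft F ε) := h4
        have h9 : (ε + ε') * t0 = 0 := hle h8
        rw [add_mul, h4, hf2, zero_add] at h9
        exact hne h9
  refine ⟨z, by rw [← hε, hz], ?_⟩
  intro x
  rw [← hε]
  obtain ⟨x2, hx2⟩ := hUt x
  obtain ⟨u, hu⟩ : ∃ u, u = ε * R x * (1 - ε) := ⟨_, rfl⟩
  have hadu : ad u = (1 - ε) * R x * ε := by
    rw [hu, hm, hm, hs, hsub, h1, hεs]
    noncomm_ring
  have h3 : R (x - x2) = u + ad u := by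
    rw [map_sub, ← hx2, hadu, hu]
    have h4 := hstep x
    have h5 : R x - ε * R x * ε = ε * R x * (1 - ε) + (1 - ε) * R x * ε +
        (1 - ε) * R x * (1 - ε) := by noncomm_ring
    rw [h5, h4, add_zero]
  obtain ⟨x3, hx3⟩ := hj (x - x2) (x - x2)
  have h4 := hstep x3
  rw [← hx3, h3] at h4
  have h5 : (1 - ε) * (u + ad u) = ad u := by
    rw [hadu, hu]
    have h6 : (1 - ε) * (ε * R x * (1 - ε) + (1 - ε) * R x * ε) =
        (ε - ε * ε) * R x * (1 - ε) + (1 - ε) * R x * ε - (ε - ε * ε) * R x * ε := by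
      noncomm_ring
    rw [h6, hz, sub_self, zero_mul, zero_mul, zero_mul, zero_add, sub_zero]
  have h6 : (u + ad u) * (1 - ε) = u := by
    rw [hadu, hu]
    have h6 : (ε * R x * (1 - ε) + (1 - ε) * R x * ε) * (1 - ε) =
        ε * R x * (1 - ε) + (1 - ε) * R x * (ε - ε * ε) - ε * R x * (ε - ε * ε) := by
      noncomm_ring
    rw [h6, hz, sub_self, mul_zero, mul_zero, add_zero, sub_zero]
  have h7 : (2 : F) • (ad u * u) = 0 := by
    have h8 : (1 - ε) * ((u + ad u) * (u + ad u) + (u + ad u) * (u + ad u)) * (1 - ε) =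
        ((1 - ε) * (u + ad u)) * ((u + ad u) * (1 - ε)) +
        ((1 - ε) * (u + ad u)) * ((u + ad u) * (1 - ε)) := by noncomm_ring
    rw [h8, h5, h6, ← two_smul F] at h4
    exact h4
  have h8 : u = 0 := han u ((smul_eq_zero.1 h7).resolve_left h2)
  have h9 : ad u = 0 := by
    have h10 := hsub 0 0
    rw [h8]
    simpa using h10
  have h10 : R x = ε * R x * ε := by
    rw [h9, h8, add_zero, map_sub, ← hx2] at h3
    exact sub_eq_zero.1 h3
  constructor
  · conv_lhs => rw [h10]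
    rw [← mul_assoc, ← mul_assoc, hz]
    exact h10.symm
  · conv_lhs => rw [h10]
    rw [mul_assoc, hz]
    exact h10.symm

end alg

section core

variable {F : Type*} [Field F]

/-- The adjoint for the form with Gram matrix `B`. -/
def e333Ad (B C h : Matrix (Fin 3) (Fin 3) F) : Matrix (Fin 3) (Fin 3) F := C * hᵀ * B

/-- The operator `w ↦ (v, w) u`. -/
def e333Dy (B : Matrix (Fin 3) (Fin 3) F) (u v : Fin 3 → F) : Matrix (Fin 3) (Fin 3) F :=
  vecMulVec u (B *ᵥ v)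

/-- An anisotropic form in dimension three. -/
structure E333G (B C : Matrix (Fin 3) (Fin 3) F) : Prop where
  BC : B * C = 1
  CB : C * B = 1
  Bt : Bᵀ = B
  Ct : Cᵀ = C
  an : ∀ u : Fin 3 → F, u ⬝ᵥ (B *ᵥ u) = 0 → u = 0

theorem e333_ext {M N : Matrix (Fin 3) (Fin 3) F} (h : ∀ w : Fin 3 → F, M *ᵥ w = N *ᵥ w) :
    M = N := by
  apply Matrix.toLin'.injective
  apply LinearMap.ext
  intro w
  rw [Matrix.toLin'_apply, Matrix.toLin'_apply, h]

/-- A square-zero matrix of size three has rank at most one. -/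
theorem e333_rank {u : Matrix (Fin 3) (Fin 3) F} (hu : u * u = 0) :
    ∃ v w : Fin 3 → F, u = vecMulVec v w := by
  have h1 := LinearMap.finrank_range_add_finrank_ker (Matrix.toLin' u)
  have h2 : LinearMap.range (Matrix.toLin' u) ≤ LinearMap.ker (Matrix.toLin' u) := by
    rintro _ ⟨x, rfl⟩
    rw [LinearMap.mem_ker, Matrix.toLin'_apply, Matrix.toLin'_apply, mulVec_mulVec, hu,
      zero_mulVec]
  have h3 := Submodule.finrank_mono h2
  rw [Module.finrank_fin_fun] at h1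
  have h4 : Module.finrank F (LinearMap.range (Matrix.toLin' u)) ≤ 1 := by omega
  obtain ⟨v, hv⟩ := finrank_le_one_iff.1 h4
  have h5 : ∀ w : Fin 3 → F, ∃ c : F, u *ᵥ w = c • (v : Fin 3 → F) := by
    intro w
    obtain ⟨c, hc⟩ := hv ⟨Matrix.toLin' u w, w, rfl⟩
    refine ⟨c, ?_⟩
    have h6 := congrArg Subtype.val hc
    rw [← Matrix.toLin'_apply]
    exact h6.symm
  choose c hc using fun j : Fin 3 => h5 (Pi.single j 1)
  refine ⟨v, c, ?_⟩
  ext i j
  have h6 := congrFun (hc j) i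
  rw [Matrix.mulVec_single_one] at h6
  rw [vecMulVec_apply, mul_comm]
  exact h6

namespace E333G

variable {B C : Matrix (Fin 3) (Fin 3) F} (G : E333G B C)

include G

theorem ad_mul (x y : Matrix (Fin 3) (Fin 3) F) :
    e333Ad B C (x * y) = e333Ad B C y * e333Ad B C x := by
  unfold e333Ad
  have h1 : C * yᵀ * B * (C * xᵀ * B) = C * yᵀ * (B * C) * xᵀ * B := by noncomm_ring
  rw [h1, G.BC, transpose_mul, mul_one, ← Matrix.mul_assoc]

theorem ad_ad (x : Matrix (Fin 3) (Fin 3) F) : e333Ad B C (e333Ad B C x) = x := by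
  unfold e333Ad
  rw [transpose_mul, transpose_mul, transpose_transpose, G.Bt, G.Ct]
  have h1 : C * (B * (x * C)) * B = (C * B) * x * (C * B) := by noncomm_ring
  rw [h1, G.CB, one_mul, mul_one]

omit G in
theorem ad_add (x y : Matrix (Fin 3) (Fin 3) F) :
    e333Ad B C (x + y) = e333Ad B C x + e333Ad B C y := by
  unfold e333Ad
  rw [transpose_add, mul_add, add_mul]

omit G in
theorem ad_sub (x y : Matrix (Fin 3) (Fin 3) F) :
    e333Ad B C (x - y) = e333Ad B C x - e333Ad B C y := by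
  unfold e333Ad
  rw [transpose_sub, mul_sub, sub_mul]

omit G in
theorem ad_smul (c : F) (x : Matrix (Fin 3) (Fin 3) F) :
    e333Ad B C (c • x) = c • e333Ad B C x := by
  unfold e333Ad
  rw [transpose_smul, mul_smul_comm, smul_mul_assoc]

theorem ad_one : e333Ad B C 1 = 1 := by
  unfold e333Ad
  rw [transpose_one, mul_one, G.CB]

omit G in
theorem mul_dy (h : Matrix (Fin 3) (Fin 3) F) (u v : Fin 3 → F) :
    h * e333Dy B u v = e333Dy B (h *ᵥ u) v := by
  unfold e333Dy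
  rw [mul_vecMulVec]

theorem dy_mul (h : Matrix (Fin 3) (Fin 3) F) (u v : Fin 3 → F) :
    e333Dy B u v * h = e333Dy B u (e333Ad B C h *ᵥ v) := by
  unfold e333Dy e333Ad
  rw [vecMulVec_mul, mulVec_mulVec]
  have h1 : B * (C * hᵀ * B) = (B * C) * hᵀ * B := by noncomm_ring
  rw [h1, G.BC, one_mul, ← mulVec_mulVec, mulVec_transpose]

theorem gsymm (u v : Fin 3 → F) : u ⬝ᵥ (B *ᵥ v) = v ⬝ᵥ (B *ᵥ u) := by
  rw [dotProduct_mulVec, ← mulVec_transpose, G.Bt, dotProduct_comm]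

theorem dy_mulVec (u v w : Fin 3 → F) : e333Dy B u v *ᵥ w = (v ⬝ᵥ (B *ᵥ w)) • u := by
  unfold e333Dy
  rw [vecMulVec_mulVec, op_smul_eq_smul]
  congr 1
  rw [dotProduct_comm, G.gsymm]

theorem ad_dy (u v : Fin 3 → F) : e333Ad B C (e333Dy B u v) = e333Dy B v u := by
  unfold e333Ad e333Dy
  rw [transpose_vecMulVec, mul_vecMulVec, mulVec_mulVec, G.CB, one_mulVec, vecMulVec_mul,
    ← mulVec_transpose, G.Bt]

theorem gad (h : Matrix (Fin 3) (Fin 3) F) (u v : Fin 3 → F) :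
    u ⬝ᵥ (B *ᵥ (h *ᵥ v)) = (e333Ad B C h *ᵥ u) ⬝ᵥ (B *ᵥ v) := by
  have h1 : e333Dy B v u * h = e333Dy B v (e333Ad B C h *ᵥ u) := G.dy_mul h v u
  have h2 := congrArg (fun M => v ⬝ᵥ (B *ᵥ (M *ᵥ v))) h1
  by_cases hv : v = 0
  · rw [hv, mulVec_zero, mulVec_zero, dotProduct_zero, dotProduct_zero]
  · have h3 : v ⬝ᵥ (B *ᵥ v) ≠ 0 := fun h4 => hv (G.an v h4)
    simp only [← mulVec_mulVec, G.dy_mulVec, mulVec_smul, dotProduct_smul, smul_eq_mul] at h2
    exact mul_right_cancel₀ h3 h2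

theorem ad_an (u : Matrix (Fin 3) (Fin 3) F) (hu : e333Ad B C u * u = 0) : u = 0 := by
  apply e333_ext
  intro w
  rw [zero_mulVec]
  apply G.an
  rw [G.gad, mulVec_mulVec, hu, zero_mulVec, zero_dotProduct]

omit G in
theorem dy_zero (u : Fin 3 → F) : e333Dy B u 0 = 0 := by
  unfold e333Dy
  rw [mulVec_zero, vecMulVec_zero]

omit G in
theorem zero_dy (u : Fin 3 → F) : e333Dy B 0 u = 0 := by
  unfold e333Dy
  rw [zero_vecMulVec]

omit G in
theorem dy_add (u v w : Fin 3 → F) : e333Dy B u (v + w) = e333Dy B u v + e333Dy B u w := by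
  unfold e333Dy
  rw [mulVec_add, vecMulVec_add]

omit G in
theorem add_dy (u v w : Fin 3 → F) : e333Dy B (u + v) w = e333Dy B u w + e333Dy B v w := by
  unfold e333Dy
  rw [add_vecMulVec]

omit G in
theorem dy_smul (c : F) (u v : Fin 3 → F) : e333Dy B u (c • v) = c • e333Dy B u v := by
  unfold e333Dy
  rw [mulVec_smul, vecMulVec_smul]

omit G in
theorem smul_dy (c : F) (u v : Fin 3 → F) : e333Dy B (c • u) v = c • e333Dy B u v := by
  unfold e333Dy
  rw [smul_vecMulVec]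

/-- Three orthogonal vectors form a basis. -/
theorem ortho {a b c v : Fin 3 → F} (ha : a ≠ 0) (hb : b ≠ 0) (hc : c ≠ 0)
    (hab : a ⬝ᵥ (B *ᵥ b) = 0) (hac : a ⬝ᵥ (B *ᵥ c) = 0) (hbc : b ⬝ᵥ (B *ᵥ c) = 0)
    (hvb : b ⬝ᵥ (B *ᵥ v) = 0) (hvc : c ⬝ᵥ (B *ᵥ v) = 0) : ∃ k : F, v = k • a := by
  have haa : a ⬝ᵥ (B *ᵥ a) ≠ 0 := fun h => ha (G.an a h)
  have hbb : b ⬝ᵥ (B *ᵥ b) ≠ 0 := fun h => hb (G.an b h)
  have hcc : c ⬝ᵥ (B *ᵥ c) ≠ 0 := fun h => hc (G.an c h)
  have hba : b ⬝ᵥ (B *ᵥ a) = 0 := by rw [G.gsymm, hab]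
  have hca : c ⬝ᵥ (B *ᵥ a) = 0 := by rw [G.gsymm, hac]
  have hcb : c ⬝ᵥ (B *ᵥ b) = 0 := by rw [G.gsymm, hbc]
  have hli : LinearIndependent F ![a, b, c] := by
    rw [Fintype.linearIndependent_iff]
    intro g hg
    rw [Fin.sum_univ_three] at hg
    have h1 : g 0 • a + g 1 • b + g 2 • c = 0 := hg
    have key : ∀ w : Fin 3 → F, g 0 * (w ⬝ᵥ (B *ᵥ a)) + g 1 * (w ⬝ᵥ (B *ᵥ b)) +
        g 2 * (w ⬝ᵥ (B *ᵥ c)) = 0 := by
      intro w
      have h2 := congrArg (fun v => w ⬝ᵥ (B *ᵥ v)) h1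
      simp only [mulVec_add, mulVec_smul, dotProduct_add, dotProduct_smul, smul_eq_mul,
        mulVec_zero, dotProduct_zero] at h2
      exact h2
    have k1 := key a
    have k2 := key b
    have k3 := key c
    rw [hab, hac, mul_zero, mul_zero, add_zero, add_zero] at k1
    rw [hba, hbc, mul_zero, mul_zero, zero_add, add_zero] at k2
    rw [hca, hcb, mul_zero, mul_zero, zero_add, zero_add] at k3
    intro i
    fin_cases i
    · exact (mul_eq_zero.1 k1).resolve_right haa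
    · exact (mul_eq_zero.1 k2).resolve_right hbb
    · exact (mul_eq_zero.1 k3).resolve_right hcc
  have hcard : Fintype.card (Fin 3) = Module.finrank F (Fin 3 → F) := by
    rw [Module.finrank_fin_fun, Fintype.card_fin]
  obtain ⟨bs, hbs⟩ : ∃ bs : Module.Basis (Fin 3) F (Fin 3 → F), ⇑bs = ![a, b, c] :=
    ⟨basisOfLinearIndependentOfCardEqFinrank hli hcard,
      coe_basisOfLinearIndependentOfCardEqFinrank hli hcard⟩
  have h2 := bs.sum_repr v
  rw [Fin.sum_univ_three, hbs] at h2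
  have h3 : bs.repr v 0 • a + bs.repr v 1 • b + bs.repr v 2 • c = v := h2
  have h4 := hvb
  have h5 := hvc
  rw [← h3] at h4 h5
  simp only [mulVec_add, mulVec_smul, dotProduct_add, dotProduct_smul, smul_eq_mul, hba, hbc,
    hca, hcb, mul_zero, zero_add, add_zero] at h4 h5
  have h6 := (mul_eq_zero.1 h4).resolve_right hbb
  have h7 := (mul_eq_zero.1 h5).resolve_right hcc
  refine ⟨bs.repr v 0, ?_⟩
  rw [h6, h7, zero_smul, zero_smul, add_zero, add_zero] at h3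
  exact h3.symm

end E333G

end core

section core2

variable {F : Type*} [Field F] [CharZero F]

/-- The contradiction in dimension three. -/
theorem e333_core {B C : Matrix (Fin 3) (Fin 3) F} (G : E333G B C)
    {r : Matrix (Fin 3) (Fin 3) F →ₗ[F] Matrix (Fin 3) (Fin 3) F} (hr : JRB r)
    (had : ∀ h, r (e333Ad B C h) = r h) (hsa : ∀ h, e333Ad B C (r h) = r h)
    (h0 : ∃ h, r h ≠ 0)
    (hΓ : ∀ p φ : Fin 3 → F, (∀ h, r h *ᵥ φ = 0) → φ ≠ 0 → ∃ Γ : Matrix (Fin 3) (Fin 3) F,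
      (∀ ψ, (∀ h, r h *ᵥ ψ = 0) → Γ *ᵥ ψ = 0) ∧
      (∀ h, e333Ad B C h = h → Γ * r h + r h * e333Ad B C Γ =
        (2 : F) • r ((φ ⬝ᵥ (B *ᵥ φ))⁻¹ • (e333Dy B p φ * r h) + Γ * h)) ∧
      (∀ h, e333Ad B C h = h → e333Ad B C Γ * r h + r h * Γ =
        (2 : F) • r ((φ ⬝ᵥ (B *ᵥ φ))⁻¹ • (e333Dy B φ p * r h) + e333Ad B C Γ * h))) :
    False := by
  have h2 : (2 : F) ≠ 0 := two_ne_zero
  obtain ⟨z, hzz, hz⟩ := e333_unit hr (e333Ad B C) G.ad_mul E333G.ad_sub G.ad_one G.ad_an hsa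
  obtain ⟨τ, hτ⟩ : ∃ τ, τ = r z := ⟨_, rfl⟩
  rw [← hτ] at hzz
  have hl : ∀ x, τ * r x = r x := fun x => by rw [hτ]; exact (hz x).1
  have hrr : ∀ x, r x * τ = r x := fun x => by rw [hτ]; exact (hz x).2
  have hτa : e333Ad B C τ = τ := by rw [hτ, hsa]
  have hτ0 : τ ≠ 0 := by
    rintro h
    obtain ⟨x, hx⟩ := h0
    apply hx
    rw [← hl, h, zero_mul]
  obtain ⟨ζ0, hζ0⟩ : ∃ ζ0, ζ0 = (2 : F)⁻¹ • (z + e333Ad B C z) := ⟨_, rfl⟩
  have hζ0a : e333Ad B C ζ0 = ζ0 := by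
    rw [hζ0, E333G.ad_smul, E333G.ad_add, G.ad_ad, add_comm z]
  have hζ0r : r ζ0 = τ := by
    rw [hζ0, map_smul, map_add, had, ← hτ, ← two_smul F, smul_smul, inv_mul_cancel₀ h2, one_smul]
  obtain ⟨u, hu⟩ : ∃ u, u = τ * ζ0 * (1 - τ) := ⟨_, rfl⟩
  have hadu : e333Ad B C u = (1 - τ) * ζ0 * τ := by
    rw [hu, G.ad_mul, G.ad_mul, hτa, hζ0a, E333G.ad_sub, G.ad_one, hτa, Matrix.mul_assoc]
  have hζ : r (u + e333Ad B C u) = τ := by
    have k1 := hr ζ0 ζ0
    rw [hζ0r] at k1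
    have k2 : r (τ * ζ0 + ζ0 * τ) = τ := by
      have k3 : jp τ ζ0 + jp ζ0 τ = (2 : F) • (τ * ζ0 + ζ0 * τ) := by
        unfold jp
        rw [two_smul]
        abel
      have k4 : jp τ τ = (2 : F) • τ := by
        unfold jp
        rw [hzz, two_smul]
      rw [k3, k4, map_smul] at k1
      exact (smul_right_injective _ h2 k1).symm
    have k5 : r (ζ0 - (τ * ζ0 + ζ0 * τ)) = 0 := by
      rw [map_sub, k2, hζ0r, sub_self]
    have k6 := K0 hr k5 z
    rw [← hτ] at k6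
    have k7 : jp τ (ζ0 - (τ * ζ0 + ζ0 * τ)) = (-2 : F) • (τ * ζ0 * τ) := by
      have k8 : jp τ (ζ0 - (τ * ζ0 + ζ0 * τ)) = τ * ζ0 + ζ0 * τ - (τ * τ) * ζ0 - ζ0 * (τ * τ) -
          (τ * ζ0 * τ + τ * ζ0 * τ) := by
        unfold jp
        noncomm_ring
      rw [k8, hzz, ← two_smul F]
      module
    rw [k7, map_smul] at k6
    have k8 : r (τ * ζ0 * τ) = 0 := (smul_eq_zero.1 k6).resolve_left (neg_ne_zero.2 h2)
    have k9 : u + e333Ad B C u = (τ * ζ0 + ζ0 * τ) - (2 : F) • (τ * ζ0 * τ) := by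
      rw [hadu, hu, two_smul]
      noncomm_ring
    rw [k9, map_sub, map_smul, k8, smul_zero, sub_zero, k2]
  have huu : u * u = 0 := by
    have k1 : u * u = τ * ζ0 * ((1 - τ) * τ) * ζ0 * (1 - τ) := by
      rw [hu]
      noncomm_ring
    rw [k1, sub_mul, one_mul, hzz, sub_self, mul_zero, zero_mul, zero_mul]
  have hτu : τ * u = u := by
    rw [hu, ← Matrix.mul_assoc, ← Matrix.mul_assoc, hzz]
  have huτ : u * τ = 0 := by
    rw [hu, Matrix.mul_assoc, sub_mul, one_mul, hzz, sub_self, mul_zero]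
  have hu0 : u ≠ 0 := by
    intro h
    apply hτ0
    rw [← hζ, h]
    have k1 : e333Ad B C 0 = 0 := by
      unfold e333Ad
      rw [transpose_zero, mul_zero, zero_mul]
    rw [k1, add_zero, map_zero]
  obtain ⟨p, w, hpw⟩ := e333_rank huu
  obtain ⟨φ, hφw⟩ : ∃ φ, φ = C *ᵥ w := ⟨_, rfl⟩
  have hud : u = e333Dy B p φ := by
    unfold e333Dy
    rw [hφw, mulVec_mulVec, G.BC, one_mulVec, hpw]
  have hp0 : p ≠ 0 := by
    rintro h
    apply hu0
    rw [hud, h, E333G.zero_dy]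
  have hφ0 : φ ≠ 0 := by
    rintro h
    apply hu0
    rw [hud, h, E333G.dy_zero]
  have hg : φ ⬝ᵥ (B *ᵥ φ) ≠ 0 := fun h => hφ0 (G.an φ h)
  have hτp : τ *ᵥ p = p := by
    have k1 := congrArg (fun M => M *ᵥ φ) hτu
    simp only [hud, E333G.mul_dy, G.dy_mulVec] at k1
    exact smul_right_injective _ hg k1
  have hτφ : τ *ᵥ φ = 0 := by
    rw [hud, G.dy_mul, hτa] at huτ
    by_contra hne
    have k1 := congrArg (fun M => M *ᵥ (τ *ᵥ φ)) huτ
    simp only [G.dy_mulVec, zero_mulVec] at k1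
    rcases smul_eq_zero.1 k1 with k2 | k2
    · exact hne (G.an _ k2)
    · exact hp0 k2
  have hφ : ∀ h, r h *ᵥ φ = 0 := by
    intro h
    rw [← hrr h, ← mulVec_mulVec, hτφ, mulVec_zero]
  obtain ⟨Γ, hΓ0, hP, hI⟩ := hΓ p φ hφ hφ0
  obtain ⟨g, hgd⟩ : ∃ g, g = (φ ⬝ᵥ (B *ᵥ φ))⁻¹ := ⟨_, rfl⟩
  have hg0 : g ≠ 0 := by
    rw [hgd]
    exact inv_ne_zero hg
  rw [← hgd] at hP hI
  -- the map `H`
  obtain ⟨H, hH⟩ : ∃ H : (Fin 3 → F) → Matrix (Fin 3) (Fin 3) F,
    ∀ ψ, H ψ = e333Dy B ψ φ + e333Dy B φ ψ := ⟨_, fun _ => rfl⟩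
  have hHa : ∀ ψ, e333Ad B C (H ψ) = H ψ := by
    intro ψ
    rw [hH, E333G.ad_add, G.ad_dy, G.ad_dy, add_comm]
  have hHadd : ∀ ψ ψ', H (ψ + ψ') = H ψ + H ψ' := by
    intro ψ ψ'
    rw [hH, hH, hH, E333G.add_dy, E333G.dy_add]
    abel
  have hHsmul : ∀ (c : F) ψ, H (c • ψ) = c • H ψ := by
    intro c ψ
    rw [hH, hH, E333G.smul_dy, E333G.dy_smul, smul_add]
  have hrd : ∀ ψ, (2 : F) • r (e333Dy B ψ φ) = r (H ψ) := by
    intro ψ
    rw [hH, map_add, ← G.ad_dy ψ φ, had, two_smul]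
  have hrd' : ∀ ψ, (2 : F) • r (e333Dy B φ ψ) = r (H ψ) := by
    intro ψ
    rw [← hrd, ← G.ad_dy ψ φ, had]
  have hHp : r (H p) = τ := by
    rw [hH, ← G.ad_dy p φ, ← hud, hζ]
  have hΓφ : Γ *ᵥ φ = 0 := hΓ0 φ hφ
  have hΓτ : Γ * τ = Γ := by
    apply e333_ext
    intro w
    have k1 : Γ *ᵥ (w - τ *ᵥ w) = 0 := by
      apply hΓ0
      intro h
      rw [mulVec_sub, mulVec_mulVec, hrr, sub_self]
    rw [mulVec_sub, mulVec_mulVec, sub_eq_zero] at k1
    exact k1.symm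
  have hadΓ : τ * e333Ad B C Γ = e333Ad B C Γ := by
    conv_rhs => rw [← hΓτ, G.ad_mul, hτa]
  -- (P2)
  have hP' : ∀ h, e333Ad B C h = h → Γ * r h + r h * e333Ad B C Γ = (2 : F) • r (Γ * h) := by
    intro h hh
    rw [hP h hh, G.dy_mul, hsa, hφ, E333G.dy_zero, smul_zero, zero_add]
  have hΓH : ∀ ψ, Γ * H ψ = e333Dy B (Γ *ᵥ ψ) φ := by
    intro ψ
    rw [hH, mul_add, E333G.mul_dy, E333G.mul_dy, hΓφ, E333G.zero_dy, add_zero]
  have hPH : ∀ ψ, Γ * r (H ψ) + r (H ψ) * e333Ad B C Γ = r (H (Γ *ᵥ ψ)) := by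
    intro ψ
    rw [hP' _ (hHa ψ), hΓH, hrd]
  obtain ⟨S, hS⟩ : ∃ S, S = Γ + e333Ad B C Γ := ⟨_, rfl⟩
  have hS1 : S = r (H (Γ *ᵥ p)) := by
    have k1 := hPH p
    rw [hHp, hΓτ, hadΓ, ← hS] at k1
    exact k1
  have hτΓ : τ * Γ = Γ := by
    have k1 : τ * S = S := by rw [hS1, hl]
    rw [hS, mul_add, hadΓ] at k1
    exact add_right_cancel k1
  have hadΓ' : e333Ad B C Γ * τ = e333Ad B C Γ := by
    conv_rhs => rw [← hτΓ, G.ad_mul, hτa]
  have hadΓφ : e333Ad B C Γ *ᵥ φ = 0 := by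
    rw [← hadΓ', ← mulVec_mulVec, hτφ, mulVec_zero]
  have hSφ : S *ᵥ φ = 0 := by
    rw [hS, add_mulVec, hΓφ, hadΓφ, add_zero]
  have hSa : e333Ad B C S = S := by
    rw [hS, E333G.ad_add, G.ad_ad, add_comm]
  have hS2 : S = g • τ + r (H (e333Ad B C Γ *ᵥ p)) := by
    have k1 := hI (H p) (hHa p)
    rw [hHp, hτΓ, hadΓ', G.dy_mul, hτa, hτp] at k1
    have k2 : e333Ad B C Γ * H p = e333Dy B (e333Ad B C Γ *ᵥ p) φ := by
      rw [hH, mul_add, E333G.mul_dy, E333G.mul_dy, hadΓφ, E333G.zero_dy, add_zero]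
    rw [k2, map_add, map_smul, smul_add, smul_comm, hrd', hrd, hHp, add_comm, ← hS] at k1
    exact k1
  have hS3 : S = r (H (S *ᵥ p)) := by
    have k1 := hr (H (Γ *ᵥ p)) (H p)
    rw [← hS1, hHp] at k1
    have k2 : jp S τ = S + S := by
      unfold jp
      rw [hS1, hl, hrr]
    have k3 : jp S (H p) = H (S *ᵥ p) := by
      unfold jp
      rw [hH, hH, mul_add, add_mul, E333G.mul_dy, E333G.mul_dy, G.dy_mul, G.dy_mul, hSa, hSφ,
        E333G.zero_dy, E333G.dy_zero, add_zero, zero_add]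
    have k4 : τ *ᵥ (Γ *ᵥ p) = Γ *ᵥ p := by
      rw [mulVec_mulVec, hτΓ]
    have k5 : jp (H (Γ *ᵥ p)) τ = H (Γ *ᵥ p) := by
      unfold jp
      rw [hH, mul_add, add_mul, E333G.mul_dy, E333G.mul_dy, G.dy_mul, G.dy_mul, hτa, hτφ,
        E333G.zero_dy, E333G.dy_zero, add_zero, zero_add, k4, add_comm]
    rw [k2, k3, k5, map_add, ← hS1] at k1
    exact add_right_cancel k1
  have hS4 : S = g • τ := by
    have k2 : r (H (S *ᵥ p)) = r (H (Γ *ᵥ p)) + r (H (e333Ad B C Γ *ᵥ p)) := by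
      rw [hS, add_mulVec, hHadd, map_add]
    rw [← hS1, ← hS3] at k2
    have k3 : r (H (e333Ad B C Γ *ᵥ p)) = 0 := left_eq_add.1 k2
    rw [k3, add_zero] at hS2
    exact hS2
  obtain ⟨D, hD⟩ : ∃ D, D = Γ - e333Ad B C Γ := ⟨_, rfl⟩
  have hDa : e333Ad B C D = -D := by
    rw [hD, E333G.ad_sub, G.ad_ad, neg_sub]
  have hτD : τ * D = D := by
    rw [hD, mul_sub, hτΓ, hadΓ]
  have hDτ : D * τ = D := by
    rw [hD, sub_mul, hΓτ, hadΓ']
  have hDφ : D *ᵥ φ = 0 := by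
    rw [← hDτ, ← mulVec_mulVec, hτφ, mulVec_zero]
  have h2Γ : (2 : F) • Γ = g • τ + D := by
    rw [← hS4, hS, hD, two_smul]
    abel
  have h2aΓ : (2 : F) • e333Ad B C Γ = g • τ - D := by
    rw [← hS4, hS, hD, two_smul]
    abel
  have key : ∀ ψ, τ *ᵥ ψ = ψ → r (H (D *ᵥ ψ)) = g • r (H ψ) + (D * r (H ψ) - r (H ψ) * D) := by
    intro ψ hψ
    have k1 : (2 : F) • (Γ * r (H ψ) + r (H ψ) * e333Ad B C Γ) =
        (2 : F) • r (H (Γ *ᵥ ψ)) := by rw [hPH ψ]
    have k2 : (2 : F) • r (H (Γ *ᵥ ψ)) = g • r (H ψ) + r (H (D *ᵥ ψ)) := by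
      rw [← map_smul, ← hHsmul, ← smul_mulVec, h2Γ, add_mulVec, smul_mulVec, hψ, hHadd, map_add,
        hHsmul, map_smul]
    have k3 : (2 : F) • (Γ * r (H ψ) + r (H ψ) * e333Ad B C Γ) =
        (2 : F) • (g • r (H ψ)) + (D * r (H ψ) - r (H ψ) * D) := by
      rw [smul_add, ← smul_mul_assoc, h2Γ, ← mul_smul_comm, h2aΓ, add_mul, mul_sub,
        smul_mul_assoc, mul_smul_comm, hl, hrr, two_smul]
      abel
    rw [k2, k3, two_smul, add_assoc] at k1
    exact (add_left_cancel k1).symm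
  obtain ⟨q, hq⟩ : ∃ q, q = D *ᵥ p := ⟨_, rfl⟩
  have hτq : τ *ᵥ q = q := by
    rw [hq, mulVec_mulVec, hτD]
  have hq1 : r (H q) = g • τ := by
    rw [hq, key p hτp, hHp, hDτ, hτD, sub_self, add_zero]
  have hq0 : q ≠ 0 := by
    intro h
    rw [h] at hq1
    have k1 : H 0 = 0 := by
      rw [hH, E333G.zero_dy, E333G.dy_zero, add_zero]
    rw [k1, map_zero] at hq1
    exact (smul_ne_zero hg0 hτ0) hq1.symm
  have hq2 : r (H (D *ᵥ q)) = (g * g) • τ := by
    rw [key q hτq, hq1, mul_smul_comm, smul_mul_assoc, hDτ, hτD, sub_self, add_zero, smul_smul]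
  -- orthogonality
  have hskew : ∀ v : Fin 3 → F, v ⬝ᵥ (B *ᵥ (D *ᵥ v)) = 0 := by
    intro v
    have k1 := G.gad D v v
    rw [hDa, neg_mulVec, neg_dotProduct, ← G.gsymm v] at k1
    have k2 : (2 : F) * (v ⬝ᵥ (B *ᵥ (D *ᵥ v))) = 0 := by
      rw [two_mul]
      nth_rewrite 1 [k1]
      exact neg_add_cancel _
    exact (mul_eq_zero.1 k2).resolve_left h2
  have hφD : ∀ v : Fin 3 → F, φ ⬝ᵥ (B *ᵥ (D *ᵥ v)) = 0 := by
    intro v
    rw [G.gad, hDa, neg_mulVec, hDφ, neg_zero, zero_dotProduct]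
  have hpφ : p ⬝ᵥ (B *ᵥ φ) = 0 := by
    rw [G.gsymm, ← hτp, G.gad, hτa, hτφ, zero_dotProduct]
  have hpq : p ⬝ᵥ (B *ᵥ q) = 0 := by
    rw [hq]
    exact hskew p
  have hφq : φ ⬝ᵥ (B *ᵥ q) = 0 := by
    rw [hq]
    exact hφD p
  obtain ⟨k, hk⟩ := G.ortho (v := D *ᵥ q) hp0 hφ0 hq0 hpφ hpq hφq (hφD q) (hskew q)
  have hk2 : k = g * g := by
    rw [hk, hHsmul, map_smul, hHp] at hq2
    exact smul_left_injective F hτ0 hq2
  have hqq : q ⬝ᵥ (B *ᵥ q) = -(k * (p ⬝ᵥ (B *ᵥ p))) := by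
    have k1 := G.gad D p q
    rw [hDa, neg_mulVec, neg_dotProduct, ← hq, hk, mulVec_smul, dotProduct_smul,
      smul_eq_mul] at k1
    rw [k1, neg_neg]
  have hgi : g ≠ 0 := hg0
  have hv : p + g⁻¹ • q = 0 := by
    apply G.an
    have hqp : q ⬝ᵥ (B *ᵥ p) = 0 := by rw [G.gsymm, hpq]
    simp only [mulVec_add, mulVec_smul, dotProduct_add, dotProduct_smul, add_dotProduct,
      smul_dotProduct, smul_eq_mul, hpq, hqp, hqq, hk2]
    field_simp
    ring
  apply hp0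
  apply G.an
  have k1 := congrArg (fun v => p ⬝ᵥ (B *ᵥ v)) hv
  simp only [mulVec_add, mulVec_smul, dotProduct_add, dotProduct_smul, smul_eq_mul, hpq,
    mul_zero, add_zero, mulVec_zero, dotProduct_zero] at k1
  exact k1

end core2

section mat

variable {K : Type*} [Field K] {n : ℕ}

/-- The matrix data of type `(3, 3, 3, ...)`. -/
structure E333M (R : Matrix (Fin n) (Fin n) K →ₗ[K] Matrix (Fin n) (Fin n) K)
    (B C : Matrix (Fin 3) (Fin 3) K) (E G T : Matrix (Fin n) (Fin 3) K) : Prop where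
  BC : B * C = 1
  CB : C * B = 1
  Bt : Bᵀ = B
  Ct : Cᵀ = C
  ET : Eᵀ * T = 1
  a : R 1 = E * C * Gᵀ + G * C * Eᵀ
  e : R 1 * R 1 = E * C * Eᵀ
  aE : R 1 * E = 0
  aG : R 1 * G = E
  EG : Eᵀ * G = 0

/-- The embedding of the matrices of size three. -/
def e333J (C : Matrix (Fin 3) (Fin 3) K) (E : Matrix (Fin n) (Fin 3) K)
    (k : Matrix (Fin 3) (Fin 3) K) : Matrix (Fin n) (Fin n) K := E * k * C * Eᵀ

namespace E333M

variable {R : Matrix (Fin n) (Fin n) K →ₗ[K] Matrix (Fin n) (Fin n) K}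
  {B C : Matrix (Fin 3) (Fin 3) K} {E G T : Matrix (Fin n) (Fin 3) K} (M : E333M R B C E G T)

include M

theorem TE : Tᵀ * E = 1 := by
  have h := congrArg Matrix.transpose M.ET
  rw [transpose_mul, transpose_transpose, transpose_one] at h
  exact h

theorem ETa {l : ℕ} (X : Matrix (Fin 3) (Fin l) K) : Eᵀ * (T * X) = X := by
  rw [← Matrix.mul_assoc, M.ET, Matrix.one_mul]

theorem TEa {l : ℕ} (X : Matrix (Fin 3) (Fin l) K) : Tᵀ * (E * X) = X := by
  rw [← Matrix.mul_assoc, M.TE, Matrix.one_mul]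

theorem BCa {l : ℕ} (X : Matrix (Fin 3) (Fin l) K) : B * (C * X) = X := by
  rw [← Matrix.mul_assoc, M.BC, Matrix.one_mul]

theorem CBa {l : ℕ} (X : Matrix (Fin 3) (Fin l) K) : C * (B * X) = X := by
  rw [← Matrix.mul_assoc, M.CB, Matrix.one_mul]

theorem J_mul (k k' : Matrix (Fin 3) (Fin 3) K) :
    e333J C E k * (T * B * Tᵀ) * e333J C E k' = e333J C E (k * k') := by
  unfold e333J
  simp only [Matrix.mul_assoc, M.ETa, M.TEa, M.CBa]

theorem J_inv (k : Matrix (Fin 3) (Fin 3) K) : Tᵀ * e333J C E k * (T * B) = k := by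
  unfold e333J
  simp only [Matrix.mul_assoc, M.ETa, M.TEa, M.CB, Matrix.mul_one]

theorem J_inj {k k' : Matrix (Fin 3) (Fin 3) K} (h : e333J C E k = e333J C E k') : k = k' := by
  rw [← M.J_inv k, h, M.J_inv]

theorem J_one : e333J C E 1 = R 1 * R 1 := by
  unfold e333J
  rw [Matrix.mul_one, M.e]

theorem J_tr (k : Matrix (Fin 3) (Fin 3) K) : (e333J C E k)ᵀ = e333J C E (e333Ad B C k) := by
  unfold e333J e333Ad
  simp only [transpose_mul, transpose_transpose, M.Ct, Matrix.mul_assoc, M.BCa]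

omit M in
theorem J_add (k k' : Matrix (Fin 3) (Fin 3) K) :
    e333J C E (k + k') = e333J C E k + e333J C E k' := by
  unfold e333J
  rw [Matrix.mul_add, Matrix.add_mul, Matrix.add_mul]

omit M in
theorem J_smul (c : K) (k : Matrix (Fin 3) (Fin 3) K) :
    e333J C E (c • k) = c • e333J C E k := by
  unfold e333J
  rw [Matrix.mul_smul, Matrix.smul_mul, Matrix.smul_mul]

/-- `e z e`. -/
theorem eze (z : Matrix (Fin n) (Fin n) K) :
    R 1 * R 1 * z * (R 1 * R 1) = e333J C E (C * (Eᵀ * z * E)) := by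
  rw [M.e]
  unfold e333J
  simp only [Matrix.mul_assoc]

theorem eXe (k : Matrix (Fin 3) (Fin 3) K) :
    R 1 * R 1 * (T * (B * k) * Tᵀ) * (R 1 * R 1) = e333J C E k := by
  rw [M.eze]
  congr 1
  simp only [Matrix.mul_assoc, M.ETa, M.TE, Matrix.mul_one, M.CBa]

theorem E_zero {z : Matrix (Fin n) (Fin n) K} (h : R 1 * R 1 * z * (R 1 * R 1) = 0) :
    Eᵀ * z * E = 0 := by
  rw [M.eze] at h
  have h1 : e333J C E 0 = 0 := by
    unfold e333J
    rw [Matrix.mul_zero, Matrix.zero_mul, Matrix.zero_mul]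
  rw [← h1] at h
  have h2 := M.J_inj h
  rw [← M.BCa (Eᵀ * z * E), h2, Matrix.mul_zero]

theorem a3 : (R 1) ^ 3 = 0 := by
  have h1 : (R 1) ^ 3 = R 1 * (R 1 * R 1) := by noncomm_ring
  rw [h1, M.e, ← Matrix.mul_assoc, ← Matrix.mul_assoc, M.aE, Matrix.zero_mul, Matrix.zero_mul]

section char

variable [CharZero K] (hR : SRB R)

include hR

theorem exe (x : Matrix (Fin n) (Fin n) K) :
    R (R 1 * R 1 * x * (R 1 * R 1)) = R 1 * R 1 * R x * (R 1 * R 1) := by
  have h1 := R_exe hR.rb (m := 3) (by omega) M.a3 x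
  have h2 : (R 1) ^ (3 - 1) = R 1 * R 1 := by
    change (R 1) ^ 2 = R 1 * R 1
    rw [pow_two]
  rw [h2] at h1
  exact h1

theorem kill (w : Matrix (Fin n) (Fin n) K) : R (R 1 * R 1 * R w * (R 1 * R 1)) = 0 := by
  have h2 : (R 1) ^ (3 - 1) = R 1 * R 1 := by
    change (R 1) ^ 2 = R 1 * R 1
    rw [pow_two]
  have h1 := R_e hR.rb (m := 3) (by omega) M.a3
  rw [h2] at h1
  have h3 : (R 1 * R 1)ᵀ = R 1 * R 1 := by rw [transpose_mul, hR.tr]
  have h4 := hR.K h3 h1 2 w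
  rw [pow_two] at h4
  exact h4

/-- `R (J k) = e R(X) e`. -/
theorem RJ (k : Matrix (Fin 3) (Fin 3) K) : R (e333J C E k) =
    R 1 * R 1 * R (T * (B * k) * Tᵀ) * (R 1 * R 1) := by
  rw [← M.exe hR, M.eXe]

theorem RRJ (k : Matrix (Fin 3) (Fin 3) K) : R (R (e333J C E k)) = 0 := by
  rw [M.RJ hR, M.kill hR]

omit [CharZero K] hR M in
theorem aJ {z : Matrix (Fin n) (Fin n) K} {Γ : Matrix (Fin 3) (Fin 3) K}
    (hz : R 1 * z * E = E * Γ) (k : Matrix (Fin 3) (Fin 3) K) :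
    R 1 * z * e333J C E k = e333J C E (Γ * k) := by
  have h1 : R 1 * z * (E * k * C * Eᵀ) = (R 1 * z * E) * k * C * Eᵀ := by
    simp only [Matrix.mul_assoc]
  unfold e333J
  rw [h1, hz]
  simp only [Matrix.mul_assoc]

omit [CharZero K] in
theorem Ja {z : Matrix (Fin n) (Fin n) K} (hzs : zᵀ = z) {Γ : Matrix (Fin 3) (Fin 3) K}
    (hz : R 1 * z * E = E * Γ) (k : Matrix (Fin 3) (Fin 3) K) :
    e333J C E k * z * R 1 = e333J C E (k * e333Ad B C Γ) := by
  have h2 : Eᵀ * z * R 1 = Γᵀ * Eᵀ := by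
    rw [← transpose_mul, ← hz, transpose_mul, transpose_mul, hzs, hR.tr, Matrix.mul_assoc]
  have h1 : E * k * C * Eᵀ * z * R 1 = E * k * C * (Eᵀ * z * R 1) := by
    simp only [Matrix.mul_assoc]
  unfold e333J e333Ad
  rw [h1, h2]
  simp only [Matrix.mul_assoc, M.BCa]

/-- First relation. -/
theorem P2 {x0 : Matrix (Fin n) (Fin n) K} (hx0 : x0ᵀ = x0) {A Γ : Matrix (Fin 3) (Fin 3) K}
    (hA : R 1 * x0 * E = E * A) (hΓ : R 1 * R x0 * E = E * Γ) {h k : Matrix (Fin 3) (Fin 3) K}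
    (hh : e333Ad B C h = h) (hk : R (e333J C E h) = e333J C E k) :
    e333J C E (Γ * k + k * e333Ad B C Γ) = (2 : K) • R (e333J C E (A * k + Γ * h)) := by
  have h1 : (e333J C E h)ᵀ = e333J C E h := by rw [M.J_tr, hh]
  have h2 : R (e333J C E k) = 0 := by rw [← hk, M.RRJ hR]
  have h3 := hR.T1 1 (x := x0) hx0 h2 h1 hk
  rw [pow_one, aJ hΓ, aJ hA, aJ hΓ, M.Ja hR (hR.tr _) hΓ, ← J_add, ← map_add, ← J_add] at h3
  exact h3

/-- Second relation. -/
theorem P3 {x0 : Matrix (Fin n) (Fin n) K} (hx0 : x0ᵀ = x0) {A Γ : Matrix (Fin 3) (Fin 3) K}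
    (hA : R 1 * x0 * E = E * A) (hΓ : R 1 * R x0 * E = E * Γ) {h k : Matrix (Fin 3) (Fin 3) K}
    (hh : e333Ad B C h = h) (hk : R (e333J C E h) = e333J C E k) :
    e333J C E (e333Ad B C Γ * k + k * Γ) =
      (2 : K) • R (e333J C E (e333Ad B C A * k + e333Ad B C Γ * h)) := by
  obtain ⟨x', hx'⟩ : ∃ x', x' = T * (B * h) * Tᵀ := ⟨_, rfl⟩
  have hBh : (B * h)ᵀ = B * h := by
    have h1 : hᵀ * B = B * h := by
      conv_rhs => rw [← hh]
      unfold e333Ad
      simp only [Matrix.mul_assoc, M.BCa]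
    rw [transpose_mul, M.Bt, h1]
  have hx's : x'ᵀ = x' := by
    rw [hx', transpose_mul, transpose_mul, transpose_transpose, hBh]
    simp only [Matrix.mul_assoc]
  have e1 : R 1 * R 1 * x' * (R 1 * R 1) = e333J C E h := by rw [hx', M.eXe]
  have e2 : R 1 * R 1 * R x' * (R 1 * R 1) = e333J C E k := by rw [← hk, M.RJ hR, hx']
  have hJe : ∀ k', e333J C E k' * (T * B * Tᵀ) * (R 1 * R 1) = e333J C E k' := by
    intro k'
    rw [← M.J_one, M.J_mul, Matrix.mul_one]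
  have heJ : ∀ k', R 1 * R 1 * (T * B * Tᵀ) * e333J C E k' = e333J C E k' := by
    intro k'
    rw [← M.J_one, M.J_mul, Matrix.one_mul]
  have hJz : ∀ k' z, e333J C E k' * z * (R 1 * R 1) =
      e333J C E k' * (T * B * Tᵀ) * (R 1 * R 1 * z * (R 1 * R 1)) := by
    intro k' z
    conv_lhs => rw [← hJe k']
    noncomm_ring
  have cl := hR.cl 1 hx0 hx's
  rw [pow_one, Nat.sub_self, pow_zero, Matrix.mul_one, Nat.cast_one, one_smul] at cl
  have c1 : R 1 * R 1 * (R x0 * R 1 * R x') * (R 1 * R 1) =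
      e333J C E (e333Ad B C Γ * k) := by
    have h1 : R 1 * R 1 * (R x0 * R 1 * R x') * (R 1 * R 1) =
        (e333J C E 1 * R x0 * R 1) * R x' * (R 1 * R 1) := by
      rw [M.J_one]
      noncomm_ring
    rw [h1, M.Ja hR (hR.tr _) hΓ, hJz, e2, M.J_mul, Matrix.one_mul]
  have c2 : R 1 * R 1 * (R x' * R 1 * R x0) * (R 1 * R 1) = e333J C E (k * Γ) := by
    have h1 : R 1 * R 1 * (R x' * R 1 * R x0) * (R 1 * R 1) =
        R 1 * R 1 * R x' * (R 1 * R x0 * e333J C E 1) := by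
      rw [M.J_one]
      noncomm_ring
    rw [h1, aJ hΓ, Matrix.mul_one]
    have h2 : R 1 * R 1 * R x' * e333J C E Γ =
        (R 1 * R 1 * R x' * (R 1 * R 1)) * (T * B * Tᵀ) * e333J C E Γ := by
      conv_lhs => rw [← heJ Γ]
      noncomm_ring
    rw [h2, e2, M.J_mul]
  have c3 : R 1 * R 1 * (x0 * R 1 * R x') * (R 1 * R 1) =
      e333J C E (e333Ad B C A * k) := by
    have h1 : R 1 * R 1 * (x0 * R 1 * R x') * (R 1 * R 1) =
        (e333J C E 1 * x0 * R 1) * R x' * (R 1 * R 1) := by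
      rw [M.J_one]
      noncomm_ring
    rw [h1, M.Ja hR hx0 hA, hJz, e2, M.J_mul, Matrix.one_mul]
  have c4 : R 1 * R 1 * (R x0 * R 1 * x') * (R 1 * R 1) =
      e333J C E (e333Ad B C Γ * h) := by
    have h1 : R 1 * R 1 * (R x0 * R 1 * x') * (R 1 * R 1) =
        (e333J C E 1 * R x0 * R 1) * x' * (R 1 * R 1) := by
      rw [M.J_one]
      noncomm_ring
    rw [h1, M.Ja hR (hR.tr _) hΓ, hJz, e1, M.J_mul, Matrix.one_mul]
  have c5 : R (R 1 * R 1 * (R x0 * R x') * (R 1 * R 1)) = 0 := by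
    have h1 := hR.rb x0 x'
    have h2 := M.kill hR (jp (R x0) x' + jp x0 (R x'))
    rw [← h1] at h2
    have h3 : R 1 * R 1 * jp (R x0) (R x') * (R 1 * R 1) =
        R 1 * R 1 * (R x0 * R x') * (R 1 * R 1) +
          (R 1 * R 1 * (R x0 * R x') * (R 1 * R 1))ᵀ := by
      simp only [transpose_mul, hR.tr]
      unfold jp
      noncomm_ring
    rw [h3, map_add, hR.ti, ← two_smul K] at h2
    exact (smul_eq_zero.1 h2).resolve_left two_ne_zero
  have h1 := congrArg (fun Z => R 1 * R 1 * Z * (R 1 * R 1)) cl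
  simp only [Matrix.mul_add, Matrix.add_mul, Matrix.mul_smul, Matrix.smul_mul] at h1
  rw [c1, c2, ← M.exe hR, ← M.exe hR, ← M.exe hR, c3, c4, c5, add_zero, ← map_add, ← J_add,
    ← J_add] at h1
  exact h1

end char

end E333M

end mat

section cols

variable {K : Type*} [Field K] {n : ℕ}

/-- The matrix with given columns. -/
def e333E (v : Fin 3 → (Fin n → K)) : Matrix (Fin n) (Fin 3) K := Matrix.of fun i j => v j i

theorem e333E_mulVec (v : Fin 3 → (Fin n → K)) (x : Fin 3 → K) :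
    e333E v *ᵥ x = ∑ j, x j • v j := by
  ext i
  rw [Finset.sum_apply]
  change ∑ j, e333E v i j * x j = _
  refine Finset.sum_congr rfl fun j _ => ?_
  rw [Pi.smul_apply, smul_eq_mul, mul_comm]
  rfl

theorem e333E_tmulVec (v : Fin 3 → (Fin n → K)) (y : Fin n → K) (i : Fin 3) :
    ((e333E v)ᵀ *ᵥ y) i = v i ⬝ᵥ y := rfl

theorem e333E_mul (v : Fin 3 → (Fin n → K)) (M : Matrix (Fin n) (Fin n) K) :
    M * e333E v = e333E fun j => M *ᵥ v j := by
  ext i j
  rfl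

theorem e333E_entry (v w : Fin 3 → (Fin n → K)) (i j : Fin 3) :
    ((e333E v)ᵀ * e333E w) i j = v i ⬝ᵥ w j := rfl

theorem e333E_sum (v w : Fin 3 → (Fin n → K)) (N : Matrix (Fin 3) (Fin 3) K) :
    e333E v * N * (e333E w)ᵀ = ∑ i, ∑ j, N i j • vecMulVec (v i) (w j) := by
  ext a b
  rw [Matrix.mul_apply, Matrix.sum_apply]
  simp only [Matrix.sum_apply, Matrix.smul_apply, vecMulVec_apply, smul_eq_mul,
    Matrix.mul_apply, Finset.sum_mul]
  rw [Finset.sum_comm]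
  refine Finset.sum_congr rfl fun i _ => Finset.sum_congr rfl fun j _ => ?_
  change v i a * N i j * w j b = _
  ring

theorem e333E_diag (v w : Fin 3 → (Fin n → K)) (d : Fin 3 → K) :
    e333E v * diagonal d * (e333E w)ᵀ = ∑ i, d i • vecMulVec (v i) (w i) := by
  rw [e333E_sum]
  refine Finset.sum_congr rfl fun i _ => ?_
  rw [Finset.sum_eq_single i]
  · rw [diagonal_apply_eq]
  · intro j _ hj
    rw [diagonal_apply_ne _ (Ne.symm hj), zero_smul]
  · intro h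
    exact absurd (Finset.mem_univ i) h

end cols

section frame

variable {F K : Type*} [Field F] [Field K] [CharZero K] [Algebra F K] {n : ℕ}
  {R : Matrix (Fin n) (Fin n) K →ₗ[K] Matrix (Fin n) (Fin n) K} {w : ℕ} (Φ : Frame F R w)

omit [CharZero K] in
theorem e333_theta (F K : Type*) [Field F] [Field K] [Algebra F K] :
    ∃ θ : K →ₗ[F] F, ∀ x : F, θ (algebraMap F K x) = x := by
  obtain ⟨θ, hθ⟩ := LinearMap.exists_leftInverse_of_injective (Algebra.linearMap F K)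
    (LinearMap.ker_eq_bot.2 (algebraMap F K).injective)
  exact ⟨θ, fun x => LinearMap.congr_fun hθ x⟩

omit [CharZero K] in
/-- Rational dual vectors. -/
theorem e333_dual {f : Fin 3 → (Fin n → K)} (hf : ∀ i, f i ∈ Φ.V)
    (ind : LinearIndependent K f) : ∃ t : Fin 3 → (Fin n → K), (∀ j, t j ∈ Φ.V) ∧
      ∀ i j, f i ⬝ᵥ t j = if i = j then 1 else 0 := by
  obtain ⟨θ, hθ⟩ := e333_theta F K
  have hθ' : ∀ i, ∀ v ∈ Φ.V, algebraMap F K (θ (f i ⬝ᵥ v)) = f i ⬝ᵥ v := by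
    intro i v hv
    obtain ⟨x, hx⟩ := Φ.dot (f i) (hf i) v hv
    rw [hx, hθ]
  obtain ⟨Λ, hΛ⟩ : ∃ Λ : Φ.V →ₗ[F] (Fin 3 → F), ∀ v i, Λ v i = θ (f i ⬝ᵥ (v : Fin n → K)) :=
    ⟨{ toFun := fun v i => θ (f i ⬝ᵥ (v : Fin n → K))
       map_add' := fun x y => by
        funext i
        rw [Submodule.coe_add, dotProduct_add, map_add]
        rfl
       map_smul' := fun c x => by
        funext i
        rw [Submodule.coe_smul, dotProduct_smul, map_smul]
        rfl }, fun _ _ => rfl⟩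
  have hrange : LinearMap.range Λ = ⊤ := by
    by_contra hne
    obtain ⟨l, hl0, hl⟩ := Submodule.exists_le_ker_of_lt_top _ (lt_top_iff_ne_top.2 hne)
    apply hl0
    have h1 : ∀ v ∈ Φ.V, (∑ i, algebraMap F K (l fun j => if i = j then 1 else 0) • f i) ⬝ᵥ v =
        0 := by
      intro v hv
      have h2 : l (Λ ⟨v, hv⟩) = 0 := hl ⟨_, rfl⟩
      rw [LinearMap.pi_apply_eq_sum_univ] at h2
      have h3 := congrArg (algebraMap F K) h2
      rw [map_sum, map_zero] at h3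
      rw [sum_dotProduct, ← h3]
      refine Finset.sum_congr rfl fun i _ => ?_
      rw [smul_dotProduct, smul_eq_mul, smul_eq_mul, map_mul, hΛ, hθ' i v hv, mul_comm]
    have h2 : (∑ i, algebraMap F K (l fun j => if i = j then 1 else 0) • f i) = 0 := by
      have h3 : ∀ v : Fin n → K,
          (∑ i, algebraMap F K (l fun j => if i = j then 1 else 0) • f i) ⬝ᵥ v = 0 := by
        refine Φ.vec_ind h1 ?_ ?_
        · intro u v hu hv
          rw [dotProduct_add, hu, hv, add_zero]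
        · intro c u hu
          rw [dotProduct_smul, hu, smul_zero]
      exact dotProduct_eq_zero _ h3
    have h3 := (Fintype.linearIndependent_iff.1 ind) _ h2
    apply LinearMap.ext
    intro x
    rw [LinearMap.pi_apply_eq_sum_univ]
    refine Finset.sum_eq_zero fun i _ => ?_
    have h4 : (l fun j => if i = j then 1 else 0) = 0 := by
      have h5 := h3 i
      exact (map_eq_zero _).1 h5
    rw [h4, smul_zero]
  have h5 : ∀ j : Fin 3, ∃ v : Φ.V, Λ v = Pi.single j 1 := by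
    intro j
    have h6 : (Pi.single j 1 : Fin 3 → F) ∈ LinearMap.range Λ := by
      rw [hrange]
      exact Submodule.mem_top
    exact h6
  choose t ht using h5
  refine ⟨fun j => (t j : Fin n → K), fun j => (t j).2, ?_⟩
  intro i j
  have h6 := congrFun (ht j) i
  rw [hΛ] at h6
  rw [← hθ' i _ (t j).2, h6, Pi.single_apply]
  split_ifs
  · exact map_one _
  · exact map_zero _

end frame

section main

variable {F K : Type*} [Field F] [Field K] [CharZero K] [Algebra F K] {n : ℕ}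
  {R : Matrix (Fin n) (Fin n) K →ₗ[K] Matrix (Fin n) (Fin n) K}

omit [CharZero K] in
/-- The Witt index three. -/
theorem e333_wi (Φ : Frame F R 3) {f : Fin 3 → (Fin n → K)} (hf : ∀ i, f i ∈ Φ.V)
    (ind : LinearIndependent K f) (hff : ∀ i j, f i ⬝ᵥ f j = 0) (af : ∀ i, R 1 *ᵥ f i = 0)
    {y : Fin n → K} (hy : y ∈ Φ.V) (hfy : ∀ i, f i ⬝ᵥ y = 0) (hyy : y ⬝ᵥ y = 0) :
    R 1 *ᵥ y = 0 := by
  have h1 : ¬ LinearIndependent K (Fin.cons y f : Fin 4 → (Fin n → K)) := by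
    intro hli
    have h2 := Φ.wi 4 (Fin.cons y f) ?_ ?_ hli
    · omega
    · intro i
      refine Fin.cases hy (fun i => ?_) i
      exact hf i
    · intro i j
      refine Fin.cases ?_ (fun i => ?_) i
      · refine Fin.cases hyy (fun j => ?_) j
        rw [Fin.cons_zero, Fin.cons_succ, dotProduct_comm, hfy]
      · refine Fin.cases ?_ (fun j => ?_) j
        · rw [Fin.cons_zero, Fin.cons_succ, hfy]
        · rw [Fin.cons_succ, Fin.cons_succ, hff]
  rw [linearIndependent_finCons, not_and, not_not] at h1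
  have h2 := h1 ind
  clear h1 hyy hfy hy
  induction h2 using Submodule.span_induction with
  | mem x hx =>
    obtain ⟨i, rfl⟩ := hx
    exact af i
  | zero => rw [mulVec_zero]
  | add x y _ _ hx hy => rw [mulVec_add, hx, hy, add_zero]
  | smul c x _ hx => rw [mulVec_smul, hx, smul_zero]

omit [CharZero K] in
theorem e333_rat {N : Matrix (Fin 3) (Fin 3) K} (h : ∀ i j, ∃ x : F, N i j = algebraMap F K x) :
    ∃ N' : Matrix (Fin 3) (Fin 3) F, N = N'.map (algebraMap F K) := by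
  choose x hx using h
  refine ⟨Matrix.of x, ?_⟩
  ext i j
  rw [Matrix.map_apply, Matrix.of_apply, hx]

end main

section main1


variable {F K : Type*} [Field F] [Field K] [CharZero K] [Algebra F K] {n : ℕ}
  {R : Matrix (Fin n) (Fin n) K →ₗ[K] Matrix (Fin n) (Fin n) K}

/-- Rational data of type `(3, 3, 3, ...)`: `a = Σ c_i (f_i g_iᵀ + g_i f_iᵀ)`. -/
structure E333 (F : Type*) {K : Type*} [Field F] [Field K] [Algebra F K] {n : ℕ}
    {R : Matrix (Fin n) (Fin n) K →ₗ[K] Matrix (Fin n) (Fin n) K} {w : ℕ} (Φ : Frame F R w)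
    (c : Fin 3 → F) (f g : Fin 3 → (Fin n → K)) : Prop where
  hc : ∀ i, c i ≠ 0
  fV : ∀ i, f i ∈ Φ.V
  gV : ∀ i, g i ∈ Φ.V
  ind : LinearIndependent K f
  a : R 1 = ∑ i, c i • (vecMulVec (f i) (g i) + vecMulVec (g i) (f i))
  e : R 1 * R 1 = ∑ i, c i • vecMulVec (f i) (f i)
  af : ∀ i, R 1 *ᵥ f i = 0
  ag : ∀ i, R 1 *ᵥ g i = f i

end main1

section main2

variable {F K : Type*} [Field F] [Field K] [CharZero K] [Algebra F K] {n : ℕ}
  {R : Matrix (Fin n) (Fin n) K →ₗ[K] Matrix (Fin n) (Fin n) K}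

omit [CharZero K] in
/-- The matrix data. -/
theorem e333_data (hR : SRB R) (Φ : Frame F R 3) {c : Fin 3 → F} {f g : Fin 3 → (Fin n → K)}
    (D : E333 F Φ c f g) : ∃ t : Fin 3 → (Fin n → K), (∀ i, t i ∈ Φ.V) ∧
      E333M R ((diagonal fun i => (c i)⁻¹).map (algebraMap F K))
        ((diagonal c).map (algebraMap F K)) (e333E f) (e333E g) (e333E t) ∧
      (e333E g)ᵀ * e333E g = (diagonal fun i => (c i)⁻¹).map (algebraMap F K) ∧
      (e333E f)ᵀ * e333E f = 0 := by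
  obtain ⟨t, ht, hft⟩ := e333_dual Φ D.fV D.ind
  obtain ⟨E, hE⟩ : ∃ E, E = e333E f := ⟨_, rfl⟩
  obtain ⟨G, hG⟩ : ∃ G, G = e333E g := ⟨_, rfl⟩
  obtain ⟨T, hT⟩ : ∃ T, T = e333E t := ⟨_, rfl⟩
  obtain ⟨B, hB⟩ : ∃ B : Matrix (Fin 3) (Fin 3) K,
    B = (diagonal fun i => (c i)⁻¹).map (algebraMap F K) := ⟨_, rfl⟩
  obtain ⟨C, hC⟩ : ∃ C : Matrix (Fin 3) (Fin 3) K,
    C = (diagonal c).map (algebraMap F K) := ⟨_, rfl⟩
  rw [← hE, ← hG, ← hB, ← hC]
  have hCd : C = diagonal fun i => algebraMap F K (c i) := by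
    rw [hC, diagonal_map (map_zero _)]
  have hBd : B = diagonal fun i => algebraMap F K (c i)⁻¹ := by
    rw [hB, diagonal_map (map_zero _)]
  have hBC : B * C = 1 := by
    rw [hBd, hCd, diagonal_mul_diagonal, ← diagonal_one]
    congr 1
    funext i
    rw [← map_mul, inv_mul_cancel₀ (D.hc i), map_one]
  have hCB : C * B = 1 := by
    rw [hBd, hCd, diagonal_mul_diagonal, ← diagonal_one]
    congr 1
    funext i
    rw [← map_mul, mul_inv_cancel₀ (D.hc i), map_one]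
  have hCt : Cᵀ = C := by rw [hCd, diagonal_transpose]
  have hBt : Bᵀ = B := by rw [hBd, diagonal_transpose]
  have hET : Eᵀ * T = 1 := by
    ext i j
    rw [hE, hT, e333E_entry, hft, Matrix.one_apply]
  have ha : R 1 = E * C * Gᵀ + G * C * Eᵀ := by
    rw [D.a, hE, hG, hCd, e333E_diag, e333E_diag, ← Finset.sum_add_distrib]
    refine Finset.sum_congr rfl fun i _ => ?_
    rw [← smul_add, algebraMap_smul]
  have he : R 1 * R 1 = E * C * Eᵀ := by
    rw [D.e, hE, hCd, e333E_diag]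
    refine Finset.sum_congr rfl fun i _ => ?_
    rw [algebraMap_smul]
  have haE : R 1 * E = 0 := by
    rw [hE, e333E_mul]
    ext i j
    change (R 1 *ᵥ f j) i = 0
    rw [D.af]
    rfl
  have haG : R 1 * G = E := by
    rw [hG, hE, e333E_mul]
    congr 1
    funext j
    exact D.ag j
  have hTE : Tᵀ * E = 1 := by
    have h := congrArg Matrix.transpose hET
    rw [transpose_mul, transpose_transpose, transpose_one] at h
    exact h
  have hTi : ∀ X : Matrix (Fin 3) (Fin 3) K, E * (C * X) = 0 → X = 0 := by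
    intro X hX
    have h1 : B * (Tᵀ * (E * (C * X))) = X := by
      rw [← Matrix.mul_assoc Tᵀ, hTE, Matrix.one_mul, ← Matrix.mul_assoc, hBC, Matrix.one_mul]
    rw [← h1, hX, Matrix.mul_zero, Matrix.mul_zero]
  have hEG : Eᵀ * G = 0 := by
    apply hTi
    have h1 : R 1 * (R 1 * G) = 0 := by rw [haG, haE]
    have h2 : R 1 * G = E * (C * (Gᵀ * G)) + G * (C * (Eᵀ * G)) := by
      conv_lhs => rw [ha]
      rw [Matrix.add_mul]
      simp only [Matrix.mul_assoc]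
    rw [h2, Matrix.mul_add, ← Matrix.mul_assoc, haE, Matrix.zero_mul, zero_add,
      ← Matrix.mul_assoc, haG] at h1
    exact h1
  have hGG : Gᵀ * G = B := by
    have h2 : R 1 * G = E * (C * (Gᵀ * G)) + G * (C * (Eᵀ * G)) := by
      conv_lhs => rw [ha]
      rw [Matrix.add_mul]
      simp only [Matrix.mul_assoc]
    rw [hEG, Matrix.mul_zero, Matrix.mul_zero, add_zero, haG] at h2
    have h3 : E * (C * (Gᵀ * G - B)) = 0 := by
      rw [Matrix.mul_sub, Matrix.mul_sub, ← h2, hCB, Matrix.mul_one, sub_self]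
    exact sub_eq_zero.1 (hTi _ h3)
  have hEE : Eᵀ * E = 0 := by
    have h1 : Eᵀ * E = Gᵀ * (R 1 * E) := by
      conv_lhs =>
        arg 1
        rw [← haG, transpose_mul, hR.tr]
      rw [Matrix.mul_assoc]
    rw [h1, haE, Matrix.mul_zero]
  refine ⟨t, ht, ?_, hGG, hEE⟩
  rw [← hT]
  exact ⟨hBC, hCB, hBt, hCt, hET, ha, he, haE, haG, hEG⟩

end main2

section klevel

variable {K : Type*} [Field K] [CharZero K] {n : ℕ}
  {R : Matrix (Fin n) (Fin n) K →ₗ[K] Matrix (Fin n) (Fin n) K}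
  {B C : Matrix (Fin 3) (Fin 3) K} {E G T : Matrix (Fin n) (Fin 3) K}

omit [CharZero K] in
theorem e333_vz {m l : ℕ} (v : Fin m → K) : vecMulVec v (0 : Fin l → K) = 0 :=
  Matrix.ext fun _ _ => mul_zero _

/-- The Rota-Baxter identity in dimension three. -/
theorem E333M.jrb (M : E333M R B C E G T) (hR : SRB R) {h k h' k' : Matrix (Fin 3) (Fin 3) K}
    (hk : R (e333J C E h) = e333J C E k) (hk' : R (e333J C E h') = e333J C E k') :
    e333J C E (k * k' + k' * k) =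
      R (e333J C E (k * h' + h' * k + (h * k' + k' * h))) := by
  obtain ⟨X, hX⟩ : ∃ X, X = T * (B * h) * Tᵀ := ⟨_, rfl⟩
  obtain ⟨X', hX'⟩ : ∃ X', X' = T * (B * h') * Tᵀ := ⟨_, rfl⟩
  have e1 : R 1 * R 1 * X * (R 1 * R 1) = e333J C E h := by rw [hX, M.eXe]
  have e2 : R 1 * R 1 * R X * (R 1 * R 1) = e333J C E k := by rw [← hk, M.RJ hR, hX]
  have e3 : R 1 * R 1 * X' * (R 1 * R 1) = e333J C E h' := by rw [hX', M.eXe]
  have e4 : R 1 * R 1 * R X' * (R 1 * R 1) = e333J C E k' := by rw [← hk', M.RJ hR, hX']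
  have hee : R 1 * R 1 * (T * B * Tᵀ) * (R 1 * R 1) = R 1 * R 1 := by
    rw [← M.J_one, M.J_mul, Matrix.mul_one]
  have hs : ∀ Y Z : Matrix (Fin n) (Fin n) K,
      R 1 * R 1 * (Y * (R 1 * R 1) * Z) * (R 1 * R 1) =
      (R 1 * R 1 * Y * (R 1 * R 1)) * (T * B * Tᵀ) * (R 1 * R 1 * Z * (R 1 * R 1)) := by
    intro Y Z
    have h5 : (R 1 * R 1 * Y * (R 1 * R 1)) * (T * B * Tᵀ) * (R 1 * R 1 * Z * (R 1 * R 1)) =
        R 1 * R 1 * Y * (R 1 * R 1 * (T * B * Tᵀ) * (R 1 * R 1)) * Z * (R 1 * R 1) := by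
      simp only [Matrix.mul_assoc]
    rw [h5, hee]
    simp only [Matrix.mul_assoc]
  have cl := closure hR.rb 2 X X'
  have cl1 := closure hR.rb 1 X X'
  have h2 : (2 : ℕ) - 1 = 1 := rfl
  rw [h2] at cl
  rw [map_add, map_smul, map_add] at cl
  have hki : R (R 1 * R 1 * tp (R X) ((R 1) ^ 1) (R X') * (R 1 * R 1)) = 0 := by
    rw [cl1, M.kill hR]
  have h1 := congrArg (fun Z => R 1 * R 1 * Z * (R 1 * R 1)) cl
  simp only [Matrix.mul_add, Matrix.add_mul, Matrix.mul_smul, Matrix.smul_mul] at h1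
  rw [← M.exe hR (tp X ((R 1) ^ 2) (R X')), ← M.exe hR (tp (R X) ((R 1) ^ 2) X'),
    ← M.exe hR (tp (R X) ((R 1) ^ 1) (R X')), hki, smul_zero, add_zero, ← map_add] at h1
  have f1 : R 1 * R 1 * tp (R X) ((R 1) ^ 2) (R X') * (R 1 * R 1) =
      e333J C E (k * k' + k' * k) := by
    unfold tp
    rw [pow_two, Matrix.mul_add, Matrix.add_mul, hs, hs, e2, e4, M.J_mul, M.J_mul,
      E333M.J_add]
  have f2 : R 1 * R 1 * tp X ((R 1) ^ 2) (R X') * (R 1 * R 1) =
      e333J C E (h * k' + k' * h) := by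
    unfold tp
    rw [pow_two, Matrix.mul_add, Matrix.add_mul, hs, hs, e1, e4, M.J_mul, M.J_mul,
      E333M.J_add]
  have f3 : R 1 * R 1 * tp (R X) ((R 1) ^ 2) X' * (R 1 * R 1) =
      e333J C E (k * h' + h' * k) := by
    unfold tp
    rw [pow_two, Matrix.mul_add, Matrix.add_mul, hs, hs, e2, e3, M.J_mul, M.J_mul,
      E333M.J_add]
  rw [f1, f2, f3, ← E333M.J_add, add_comm (h * k' + k' * h)] at h1
  exact h1

/-- The operator `Γ`. -/
theorem E333M.gam (M : E333M R B C E G T) (hR : SRB R) (p q : Fin 3 → K)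
    {x0 : Matrix (Fin n) (Fin n) K}
    (hx0 : x0 = vecMulVec (G *ᵥ p) (T *ᵥ q) + vecMulVec (T *ᵥ q) (G *ᵥ p)) :
    x0ᵀ = x0 ∧ R 1 * x0 * E = E * vecMulVec p q ∧
      R 1 * R x0 * E = E * (C * (Gᵀ * R x0 * E)) := by
  have hEGp : Eᵀ *ᵥ (G *ᵥ p) = 0 := by rw [mulVec_mulVec, M.EG, zero_mulVec]
  have hETq : Eᵀ *ᵥ (T *ᵥ q) = q := by rw [mulVec_mulVec, M.ET, one_mulVec]
  refine ⟨?_, ?_, ?_⟩
  · rw [hx0, transpose_add, transpose_vecMulVec, transpose_vecMulVec, add_comm]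
  · rw [hx0, Matrix.mul_add, Matrix.add_mul, mul_vecMulVec, mul_vecMulVec, vecMulVec_mul,
      vecMulVec_mul, ← mulVec_transpose, ← mulVec_transpose, hEGp, hETq, e333_vz,
      add_zero, mulVec_mulVec, M.aG, mul_vecMulVec]
  · have h1 : Eᵀ * x0 * E = 0 := by
      rw [hx0, Matrix.mul_add, Matrix.add_mul, mul_vecMulVec, mul_vecMulVec, vecMulVec_mul,
        vecMulVec_mul, ← mulVec_transpose, ← mulVec_transpose, hEGp, e333_vz,
        zero_vecMulVec, add_zero]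
    have h2 : Eᵀ * R x0 * E = 0 := by
      apply M.E_zero
      rw [← M.exe hR, M.eze, h1, Matrix.mul_zero]
      have h3 : e333J C E 0 = 0 := by
        unfold e333J
        rw [Matrix.mul_zero, Matrix.zero_mul, Matrix.zero_mul]
      rw [h3, map_zero]
    have h3 : R 1 * R x0 * E = E * (C * (Gᵀ * R x0 * E)) + G * (C * (Eᵀ * R x0 * E)) := by
      conv_lhs => rw [M.a]
      simp only [Matrix.add_mul, Matrix.mul_assoc]
    rw [h3, h2, Matrix.mul_zero, Matrix.mul_zero, add_zero]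

end klevel

section flevel

variable {F K : Type*} [Field F] [Field K] [CharZero K] [Algebra F K] {n : ℕ}
  {R : Matrix (Fin n) (Fin n) K →ₗ[K] Matrix (Fin n) (Fin n) K}

omit [CharZero K] in
theorem e333_mem {w : ℕ} (Φ : Frame F R w) {v u : Fin 3 → (Fin n → K)} (hv : ∀ i, v i ∈ Φ.V)
    (hu : ∀ i, u i ∈ Φ.V) (N : Matrix (Fin 3) (Fin 3) F) :
    e333E v * N.map (algebraMap F K) * (e333E u)ᵀ ∈ Φ.M := by
  rw [e333E_sum]
  refine Φ.M.sum_mem fun i _ => Φ.M.sum_mem fun j _ => ?_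
  rw [Matrix.map_apply, algebraMap_smul]
  exact Φ.M.smul_mem _ (Φ.vmv _ (hv i) _ (hu j))

omit [CharZero K] in
theorem e333_vmem {w : ℕ} (Φ : Frame F R w) {v : Fin 3 → (Fin n → K)} (hv : ∀ i, v i ∈ Φ.V)
    (x : Fin 3 → F) : e333E v *ᵥ (fun i => algebraMap F K (x i)) ∈ Φ.V := by
  rw [e333E_mulVec]
  refine Φ.V.sum_mem fun j _ => ?_
  rw [algebraMap_smul]
  exact Φ.V.smul_mem _ (hv j)

omit [CharZero K] in
theorem e333_ent {w : ℕ} (Φ : Frame F R w) {v u : Fin 3 → (Fin n → K)} (hv : ∀ i, v i ∈ Φ.V)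
    (hu : ∀ i, u i ∈ Φ.V) {x : Matrix (Fin n) (Fin n) K} (hx : x ∈ Φ.M) :
    ∃ N : Matrix (Fin 3) (Fin 3) F, (e333E v)ᵀ * x * e333E u = N.map (algebraMap F K) := by
  apply e333_rat
  intro i j
  rw [Matrix.mul_assoc, e333E_mul, e333E_entry]
  exact Φ.dot _ (hv i) _ (Φ.act x hx _ (hu j))

/-- `a s l = 0` for the vectors `l` of the radical. -/
theorem e333_P1 (hR : SRB R) (Φ : Frame F R 3) {c : Fin 3 → F} {f g t : Fin 3 → (Fin n → K)}
    (D : E333 F Φ c f g) {B : Matrix (Fin 3) (Fin 3) K}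
    (M : E333M R B ((diagonal c).map (algebraMap F K)) (e333E f) (e333E g) (e333E t))
    (hEE : (e333E f)ᵀ * e333E f = 0) {ψ : Fin 3 → K} (hψV : e333E f *ᵥ ψ ∈ Φ.V)
    (hψ : ∀ h k : Matrix (Fin 3) (Fin 3) F,
      R (e333J ((diagonal c).map (algebraMap F K)) (e333E f) (h.map (algebraMap F K))) =
        e333J ((diagonal c).map (algebraMap F K)) (e333E f) (k.map (algebraMap F K)) →
      k.map (algebraMap F K) *ᵥ ψ = 0)
    {x0 : Matrix (Fin n) (Fin n) K} (hx0 : x0 ∈ Φ.M) :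
    R 1 *ᵥ (R x0 *ᵥ (e333E f *ᵥ ψ)) = 0 := by
  have k1 : ∀ x ∈ Φ.M, (e333E f)ᵀ *ᵥ (R x *ᵥ (e333E f *ᵥ ψ)) = 0 := by
    intro x hx
    obtain ⟨N, hN⟩ := e333_ent Φ D.fV D.fV hx
    obtain ⟨N', hN'⟩ := e333_ent Φ D.fV D.fV (Φ.map x hx)
    have h1 := M.exe hR x
    rw [M.eze, M.eze, hN, hN', ← Matrix.map_mul, ← Matrix.map_mul] at h1
    have h2 := hψ _ _ h1
    rw [Matrix.map_mul, ← hN', ← mulVec_mulVec] at h2
    rw [mulVec_mulVec, mulVec_mulVec]
    have h3 := congrArg (fun v => B *ᵥ v) h2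
    simp only [mulVec_zero] at h3
    rw [mulVec_mulVec, M.BC, one_mulVec] at h3
    exact h3
  have k2 : ∀ x, xᵀ = x → (e333E f)ᵀ *ᵥ (R x *ᵥ (e333E f *ᵥ ψ)) = 0 := by
    refine Φ.sym_ind (P := fun x => (e333E f)ᵀ *ᵥ (R x *ᵥ (e333E f *ᵥ ψ)) = 0) ?_ ?_ ?_
    · intro x hx _
      exact k1 x hx
    · intro x y hx hy
      rw [map_add, add_mulVec, mulVec_add, hx, hy, add_zero]
    · intro c x hx
      rw [map_smul, smul_mulVec, mulVec_smul, hx, smul_zero]
  have k3 : ∀ x, (e333E f)ᵀ *ᵥ (R x *ᵥ (e333E f *ᵥ ψ)) = 0 := by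
    intro x
    have h1 := k2 (x + xᵀ) (by rw [transpose_add, transpose_transpose, add_comm])
    rw [map_add, hR.ti, ← two_smul K, smul_mulVec, mulVec_smul] at h1
    exact (smul_eq_zero.1 h1).resolve_left two_ne_zero
  have k4 : ∀ x, (e333E f *ᵥ ψ) ⬝ᵥ (R x *ᵥ (e333E f *ᵥ ψ)) = 0 := by
    intro x
    rw [dotProduct_comm, dotProduct_mulVec, ← mulVec_transpose, k3, zero_dotProduct]
  have k5 := hR.S1_diag k4 0 x0 x0
  rw [pow_zero, one_mulVec] at k5
  refine e333_wi Φ D.fV D.ind ?_ D.af (Φ.act _ (Φ.map x0 hx0) _ hψV) ?_ k5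
  · intro i j
    rw [← e333E_entry, hEE]
    rfl
  · intro i
    rw [← e333E_tmulVec, k3]
    rfl

end flevel

section final

variable {F K : Type*} [Field F] [Field K] [CharZero K] [Algebra F K] {n : ℕ}
  {R : Matrix (Fin n) (Fin n) K →ₗ[K] Matrix (Fin n) (Fin n) K}

omit [CharZero K] in
theorem e333_mv (N : Matrix (Fin 3) (Fin 3) F) (ψ : Fin 3 → F) :
    N.map (algebraMap F K) *ᵥ (fun i => algebraMap F K (ψ i)) =
      fun i => algebraMap F K ((N *ᵥ ψ) i) := by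
  funext i
  exact (RingHom.map_mulVec (algebraMap F K) N ψ i).symm

omit [CharZero K] in
theorem e333_mA (h k : Matrix (Fin 3) (Fin 3) F) : (h + k).map (algebraMap F K) =
    h.map (algebraMap F K) + k.map (algebraMap F K) :=
  Matrix.map_add _ (map_add _) h k

omit [CharZero K] in
theorem e333_mS (c : F) (h : Matrix (Fin 3) (Fin 3) F) : (c • h).map (algebraMap F K) =
    algebraMap F K c • h.map (algebraMap F K) := by
  ext i j
  rw [Matrix.smul_apply, Matrix.map_apply, Matrix.smul_apply, Matrix.map_apply, smul_eq_mul,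
    smul_eq_mul, map_mul]

omit [CharZero K] in
theorem e333_mAd (B C h : Matrix (Fin 3) (Fin 3) F) : (e333Ad B C h).map (algebraMap F K) =
    e333Ad (B.map (algebraMap F K)) (C.map (algebraMap F K)) (h.map (algebraMap F K)) := by
  unfold e333Ad
  rw [Matrix.map_mul, Matrix.map_mul, transpose_map]

/-- Some `R x` does not map `L` into the kernel of `a`. -/
theorem e333_T (hR : SRB R) (Φ : Frame F R 3) {B C : Matrix (Fin 3) (Fin 3) K}
    {E G T : Matrix (Fin n) (Fin 3) K} (M : E333M R B C E G T)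
    (h : ∀ x ∈ Φ.M, R 1 * R x * E = 0) : False := by
  have k2 : ∀ x, xᵀ = x → R 1 * R x * E = 0 := by
    refine Φ.sym_ind (P := fun x => R 1 * R x * E = 0) ?_ ?_ ?_
    · intro x hx _
      exact h x hx
    · intro x y hx hy
      rw [map_add, Matrix.mul_add, Matrix.add_mul, hx, hy, add_zero]
    · intro c x hx
      rw [map_smul, Matrix.mul_smul, Matrix.smul_mul, hx, smul_zero]
  have k3 : ∀ x, R 1 * R x * E = 0 := by
    intro x
    have h1 := k2 (x + xᵀ) (by rw [transpose_add, transpose_transpose, add_comm])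
    rw [map_add, hR.ti, ← two_smul K, Matrix.mul_smul, Matrix.smul_mul] at h1
    exact (smul_eq_zero.1 h1).resolve_left two_ne_zero
  have k4 : ∀ x, R 1 * R x * (R 1 * R 1) = 0 := by
    intro x
    rw [M.e, ← Matrix.mul_assoc, ← Matrix.mul_assoc, k3, Matrix.zero_mul, Matrix.zero_mul]
  have k5 : ∀ x, R 1 * R 1 * R x * R 1 = 0 := by
    intro x
    have h1 := congrArg Matrix.transpose (k4 x)
    simp only [transpose_mul, hR.tr, transpose_zero] at h1
    rw [← h1]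
    noncomm_ring
  have hp : (R 1) ^ (3 - 1) = R 1 * R 1 := by
    change (R 1) ^ 2 = R 1 * R 1
    rw [pow_two]
  have hp1 : (R 1) ^ (3 - 2) = R 1 := by
    change (R 1) ^ 1 = R 1
    rw [pow_one]
  have he : (R 1) ^ (3 - 1) ≠ 0 := by
    rw [hp, ← M.J_one]
    intro h0
    have h1 : e333J C E 0 = 0 := by
      unfold e333J
      rw [Matrix.mul_zero, Matrix.zero_mul, Matrix.zero_mul]
    rw [← h1] at h0
    exact one_ne_zero (M.J_inj h0)
  have hρ : ∀ x, (R 1) ^ (3 - 1) * R x * (R 1) ^ (3 - 1) = 0 := by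
    intro x
    rw [hp]
    have h1 : R 1 * R 1 * R x * (R 1 * R 1) = R 1 * (R 1 * R x * (R 1 * R 1)) := by noncomm_ring
    rw [h1, k4, Matrix.mul_zero]
  have g1 : (1 - R 1 * R 1 * (T * B * Tᵀ)) * E = 0 := by
    rw [Matrix.sub_mul, Matrix.one_mul, M.e]
    simp only [Matrix.mul_assoc, M.ETa, M.TE, Matrix.mul_one, M.CB, sub_self]
  have g2 : Eᵀ * (1 - (T * B * Tᵀ) * (R 1 * R 1)) = 0 := by
    rw [Matrix.mul_sub, Matrix.mul_one, M.e]
    simp only [Matrix.mul_assoc, M.ETa, M.TEa]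
    rw [← Matrix.mul_assoc B C, M.BC, Matrix.one_mul, sub_self]
  have hβ : (1 - (R 1) ^ (3 - 1) * (T * B * Tᵀ)) * (R 1) ^ (3 - 2) *
      (1 - (T * B * Tᵀ) * (R 1) ^ (3 - 1)) = 0 := by
    rw [hp, hp1]
    have h1 : (1 - R 1 * R 1 * (T * B * Tᵀ)) * R 1 * (1 - (T * B * Tᵀ) * (R 1 * R 1)) =
        ((1 - R 1 * R 1 * (T * B * Tᵀ)) * E) * C * Gᵀ *
          (1 - (T * B * Tᵀ) * (R 1 * R 1)) +
        (1 - R 1 * R 1 * (T * B * Tᵀ)) * G * C *
          (Eᵀ * (1 - (T * B * Tᵀ) * (R 1 * R 1))) := by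
      obtain ⟨P, hP⟩ : ∃ P, P = 1 - R 1 * R 1 * (T * B * Tᵀ) := ⟨_, rfl⟩
      obtain ⟨Q, hQ⟩ : ∃ Q, Q = 1 - (T * B * Tᵀ) * (R 1 * R 1) := ⟨_, rfl⟩
      rw [← hP, ← hQ, M.a, Matrix.mul_add, Matrix.add_mul]
      simp only [Matrix.mul_assoc]
    rw [h1, g1, g2]
    simp only [Matrix.zero_mul, Matrix.mul_zero, add_zero]
  obtain ⟨x, hx⟩ := exists_bse hR.rb (m := 3) (by omega) M.a3 he hρ hβ
  rw [hp, hp1] at hx
  rcases hx with hx | hx
  · exact hx (k4 x)
  · exact hx (k5 x)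

/-- (E) -/
theorem e333_false (hR : SRB R) (Φ : Frame F R 3) {c : Fin 3 → F} {f g : Fin 3 → (Fin n → K)}
    (D : E333 F Φ c f g) : False := by
  obtain ⟨t, ht, M, hGG, hEE⟩ := e333_data hR Φ D
  have : CharZero F := (algebraMap F K).charZero
  obtain ⟨BF, hBF⟩ : ∃ BF : Matrix (Fin 3) (Fin 3) F, BF = diagonal fun i => (c i)⁻¹ := ⟨_, rfl⟩
  obtain ⟨CF, hCF⟩ : ∃ CF : Matrix (Fin 3) (Fin 3) F, CF = diagonal c := ⟨_, rfl⟩
  have hmi : Function.Injective fun h : Matrix (Fin 3) (Fin 3) F => h.map (algebraMap F K) :=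
    Matrix.map_injective (algebraMap F K).injective
  have GG : E333G BF CF := by
    refine ⟨?_, ?_, ?_, ?_, ?_⟩
    · apply hmi
      change (BF * CF).map _ = (1 : Matrix (Fin 3) (Fin 3) F).map _
      rw [Matrix.map_mul, hBF, hCF, M.BC, Matrix.map_one _ (map_zero _) (map_one _)]
    · apply hmi
      change (CF * BF).map _ = (1 : Matrix (Fin 3) (Fin 3) F).map _
      rw [Matrix.map_mul, hBF, hCF, M.CB, Matrix.map_one _ (map_zero _) (map_one _)]
    · rw [hBF, diagonal_transpose]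
    · rw [hCF, diagonal_transpose]
    · intro u hu
      obtain ⟨uK, huK⟩ : ∃ uK : Fin 3 → K, uK = fun i => algebraMap F K (u i) := ⟨_, rfl⟩
      obtain ⟨y, hy⟩ : ∃ y, y = e333E g *ᵥ uK := ⟨_, rfl⟩
      have hyV : y ∈ Φ.V := by
        rw [hy, huK]
        exact e333_vmem Φ D.gV u
      have hfy : ∀ i, f i ⬝ᵥ y = 0 := by
        intro i
        rw [← e333E_tmulVec, hy, mulVec_mulVec, M.EG, zero_mulVec]
        rfl
      have hyy : y ⬝ᵥ y = 0 := by
        have h1 : y ⬝ᵥ y = ((e333E g)ᵀ *ᵥ y) ⬝ᵥ uK := by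
          conv_lhs =>
            arg 2
            rw [hy]
          rw [dotProduct_mulVec, mulVec_transpose]
        rw [h1, hy, mulVec_mulVec, hGG, ← hBF, huK, e333_mv]
        have h2 := congrArg (algebraMap F K) hu
        rw [map_zero, dotProduct, map_sum] at h2
        rw [dotProduct, ← h2]
        refine Finset.sum_congr rfl fun i _ => ?_
        rw [map_mul, mul_comm]
      have hff : ∀ i j, f i ⬝ᵥ f j = 0 := by
        intro i j
        rw [← e333E_entry, hEE]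
        rfl
      have h1 := e333_wi Φ D.fV D.ind hff D.af hyV hfy hyy
      rw [hy, mulVec_mulVec, M.aG] at h1
      have h2 : uK = 0 := by
        have h3 := congrArg (fun v => (e333E t)ᵀ *ᵥ v) h1
        simp only [mulVec_mulVec, M.TE, one_mulVec, mulVec_zero] at h3
        exact h3
      funext i
      have h3 := congrFun h2 i
      rw [huK] at h3
      exact (map_eq_zero (algebraMap F K)).1 h3
  rw [← hBF, ← hCF] at M
  rw [← hBF] at hGG
  obtain ⟨E, hE⟩ : ∃ E, E = e333E f := ⟨_, rfl⟩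
  obtain ⟨G, hG⟩ : ∃ G, G = e333E g := ⟨_, rfl⟩
  obtain ⟨T, hT⟩ : ∃ T, T = e333E t := ⟨_, rfl⟩
  obtain ⟨B, hB⟩ : ∃ B : Matrix (Fin 3) (Fin 3) K, B = BF.map (algebraMap F K) := ⟨_, rfl⟩
  obtain ⟨C, hC⟩ : ∃ C : Matrix (Fin 3) (Fin 3) K, C = CF.map (algebraMap F K) := ⟨_, rfl⟩
  have M' := M
  rw [← hB, ← hC, ← hE, ← hG, ← hT] at M'
  obtain ⟨JL, hJL⟩ : ∃ JL : Matrix (Fin 3) (Fin 3) F →ₗ[F] Matrix (Fin n) (Fin n) K,
      ∀ h, JL h = e333J C E (h.map (algebraMap F K)) :=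
    ⟨{ toFun := fun h => e333J C E (h.map (algebraMap F K))
       map_add' := fun h k => by rw [e333_mA, E333M.J_add]
       map_smul' := fun c h => by
        rw [e333_mS, E333M.J_smul, algebraMap_smul]
        rfl }, fun _ => rfl⟩
  have hJi : ∀ h k, JL h = JL k → h = k := by
    intro h k hk
    rw [hJL, hJL] at hk
    exact hmi (M'.J_inj hk)
  obtain ⟨Ji, hJi'⟩ := LinearMap.exists_leftInverse_of_injective JL
    (LinearMap.ker_eq_bot.2 fun h k hk => hJi h k hk)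
  have hJi2 : ∀ h, Ji (JL h) = h := fun h => LinearMap.congr_fun hJi' h
  obtain ⟨r, hr⟩ : ∃ r : Matrix (Fin 3) (Fin 3) F →ₗ[F] Matrix (Fin 3) (Fin 3) F,
      ∀ h, r h = Ji (R (JL h)) :=
    ⟨Ji ∘ₗ (R.restrictScalars F) ∘ₗ JL, fun _ => rfl⟩
  have hs : ∀ h, R (JL h) = JL (r h) := by
    intro h
    have h1 : ∃ k, R (JL h) = JL k := by
      rw [hJL, M'.RJ hR, M'.eze]
      have h2 : T * (B * h.map (algebraMap F K)) * Tᵀ ∈ Φ.M := by
        rw [hB, ← Matrix.map_mul, hT]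
        exact e333_mem Φ ht ht _
      obtain ⟨N, hN⟩ := e333_ent Φ D.fV D.fV (Φ.map _ h2)
      refine ⟨CF * N, ?_⟩
      rw [hJL, Matrix.map_mul, ← hN, ← hC, ← hE]
    obtain ⟨k, hk⟩ := h1
    rw [hr, hk, hJi2]
  have hs' : ∀ h k, R (JL h) = JL k → k = r h := by
    intro h k hk
    rw [hs] at hk
    exact (hJi _ _ hk).symm
  have hsJ : ∀ h, R (e333J C E (h.map (algebraMap F K))) =
      e333J C E ((r h).map (algebraMap F K)) := by
    intro h
    rw [← hJL, ← hJL, hs]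
  have hadJ : ∀ h, JL (e333Ad BF CF h) = (JL h)ᵀ := by
    intro h
    rw [hJL, hJL, e333_mAd, ← hB, ← hC, M'.J_tr]
  refine e333_core GG (r := r) ?_ ?_ ?_ ?_ ?_
  · intro x y
    apply hJi
    have h1 := M'.jrb hR (hsJ x) (hsJ y)
    rw [← hs, hJL, hJL]
    unfold jp
    simp only [e333_mA, Matrix.map_mul]
    exact h1
  · intro h
    apply hJi
    rw [← hs, ← hs, hadJ, hR.ti]
  · intro h
    apply hJi
    rw [hadJ, ← hs, hR.tr]
  · by_contra hcon
    push Not at hcon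
    apply e333_T hR Φ M
    intro x hx
    ext i j
    have h1 : R 1 *ᵥ (R x *ᵥ (e333E f *ᵥ
        fun i => algebraMap F K ((Pi.single j 1 : Fin 3 → F) i))) = 0 := by
      refine e333_P1 hR Φ D (B := BF.map (algebraMap F K)) (t := t) (by rw [← hCF]; exact M) hEE
        (e333_vmem Φ D.fV _) ?_ hx
      intro h k hk
      rw [← hCF, ← hC, ← hE, ← hJL, ← hJL] at hk
      rw [hs' h k hk, hcon, e333_mv, zero_mulVec]
      funext i
      exact map_zero _
    have h2 : (fun i => algebraMap F K ((Pi.single j 1 : Fin 3 → F) i)) = Pi.single j 1 := by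
      funext i
      rw [Pi.single_apply, Pi.single_apply]
      split_ifs
      · exact map_one _
      · exact map_zero _
    rw [h2, mulVec_mulVec, mulVec_mulVec, Matrix.mulVec_single_one] at h1
    exact congrFun h1 i
  · intro p φ hφ hφ0
    obtain ⟨g0, hg0⟩ : ∃ g0, g0 = (φ ⬝ᵥ (BF *ᵥ φ))⁻¹ := ⟨_, rfl⟩
    rw [← hg0]
    obtain ⟨x0, hx0⟩ : ∃ x0, x0 = vecMulVec (G *ᵥ fun i => algebraMap F K (p i))
        (T *ᵥ fun i => algebraMap F K ((g0 • (BF *ᵥ φ)) i)) +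
      vecMulVec (T *ᵥ fun i => algebraMap F K ((g0 • (BF *ᵥ φ)) i))
        (G *ᵥ fun i => algebraMap F K (p i)) := ⟨_, rfl⟩
    obtain ⟨hx0t, hA, hΓ⟩ := M'.gam hR _ _ hx0
    have hx0M : x0 ∈ Φ.M := by
      have hv1 : (G *ᵥ fun i => algebraMap F K (p i)) ∈ Φ.V := by
        rw [hG]
        exact e333_vmem Φ D.gV _
      have hv2 : (T *ᵥ fun i => algebraMap F K ((g0 • (BF *ᵥ φ)) i)) ∈ Φ.V := by
        rw [hT]
        exact e333_vmem Φ ht _
      rw [hx0]
      exact Φ.M.add_mem (Φ.vmv _ hv1 _ hv2) (Φ.vmv _ hv2 _ hv1)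
    obtain ⟨N, hN⟩ := e333_ent Φ D.gV D.fV (Φ.map x0 hx0M)
    rw [← hG, ← hE] at hN
    obtain ⟨Γ, hΓd⟩ : ∃ Γ, Γ = CF * N := ⟨_, rfl⟩
    have hΓK : C * (Gᵀ * R x0 * E) = Γ.map (algebraMap F K) := by
      rw [hN, hC, hΓd, Matrix.map_mul]
    rw [hΓK] at hΓ
    have hAK : vecMulVec (fun i => algebraMap F K (p i))
        (fun i => algebraMap F K ((g0 • (BF *ᵥ φ)) i)) =
        (g0 • e333Dy BF p φ).map (algebraMap F K) := by
      ext i j
      rw [vecMulVec_apply, Matrix.map_apply, Matrix.smul_apply, Pi.smul_apply, smul_eq_mul,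
        smul_eq_mul, ← map_mul]
      congr 1
      unfold e333Dy
      rw [vecMulVec_apply]
      ring
    rw [hAK] at hA
    have h2K : algebraMap F K 2 = 2 := map_ofNat _ 2
    refine ⟨Γ, ?_, ?_, ?_⟩
    · intro ψ hψ
      have h1 : R 1 *ᵥ (R x0 *ᵥ (e333E f *ᵥ fun i => algebraMap F K (ψ i))) = 0 := by
        refine e333_P1 hR Φ D (B := BF.map (algebraMap F K)) (t := t) (by rw [← hCF]; exact M)
          hEE (e333_vmem Φ D.fV _) ?_ hx0M
        intro h k hk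
        rw [← hCF, ← hC, ← hE, ← hJL, ← hJL] at hk
        rw [hs' h k hk, e333_mv, hψ]
        funext i
        exact map_zero _
      rw [mulVec_mulVec, mulVec_mulVec, ← hE, hΓ, ← mulVec_mulVec, e333_mv] at h1
      have h2 := congrArg (fun v => Tᵀ *ᵥ v) h1
      simp only [mulVec_mulVec, M'.TE, one_mulVec, mulVec_zero] at h2
      funext i
      exact (map_eq_zero (algebraMap F K)).1 (congrFun h2 i)
    · intro h hh
      have hhK : e333Ad B C (h.map (algebraMap F K)) = h.map (algebraMap F K) := by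
        rw [hB, hC, ← e333_mAd, hh]
      have h1 := M'.P2 hR hx0t hA hΓ hhK (hsJ h)
      apply hJi
      rw [map_smul, ← hs, hJL, hJL, ← algebraMap_smul K (2 : F), h2K]
      rw [← smul_mul_assoc]
      simp only [e333_mA, Matrix.map_mul, e333_mAd, ← hB, ← hC]
      exact h1
    · intro h hh
      have hhK : e333Ad B C (h.map (algebraMap F K)) = h.map (algebraMap F K) := by
        rw [hB, hC, ← e333_mAd, hh]
      have h1 := M'.P3 hR hx0t hA hΓ hhK (hsJ h)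
      have h3 : e333Ad B C ((g0 • e333Dy BF p φ).map (algebraMap F K)) =
          (g0 • e333Dy BF φ p).map (algebraMap F K) := by
        rw [hB, hC, ← e333_mAd, E333G.ad_smul, GG.ad_dy]
      rw [h3] at h1
      apply hJi
      rw [map_smul, ← hs, hJL, hJL, ← algebraMap_smul K (2 : F), h2K]
      rw [← smul_mul_assoc]
      simp only [e333_mA, Matrix.map_mul, e333_mAd, ← hB, ← hC]
      exact h1

end final

end Pool.Agent.MP_f4742e_al
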