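import Pool.Agent.Lib.MP_f4742e_al.X.D3Base
import Pool.Agent.Lib.MP_f4742e_al.X.E333

/-!
The type `(3, 3, 2, 1, ..., 1)` with Witt index three: the data with dual vectors.
-/

set_option autoImplicit false

namespace Pool.Agent.MP_f4742e_al

open Matrix

variable {F K : Type*} [Field F] [Field K] [Algebra F K] {n : ℕ}
  {R : Matrix (Fin n) (Fin n) K →ₗ[K] Matrix (Fin n) (Fin n) K}

/-- The data of `D332` (given by its fields) with dual vectors. -/
theorem d3_conv (hR : SRB R) (Φ : Frame F R 3) {c1 c2 c : F} {f1 f2 g1 g2 u : Fin n → K}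
    (hc1 : c1 ≠ 0) (hc2 : c2 ≠ 0) (hc : c ≠ 0) (f1V : f1 ∈ Φ.V) (f2V : f2 ∈ Φ.V)
    (g1V : g1 ∈ Φ.V) (g2V : g2 ∈ Φ.V) (uV : u ∈ Φ.V)
    (ind : LinearIndependent K ![f1, f2, u])
    (ha : R 1 = c1 • (vecMulVec f1 g1 + vecMulVec g1 f1) +
      c2 • (vecMulVec f2 g2 + vecMulVec g2 f2) + c • vecMulVec u u)
    (he : R 1 * R 1 = c1 • vecMulVec f1 f1 + c2 • vecMulVec f2 f2)
    (af1 : R 1 *ᵥ f1 = 0) (af2 : R 1 *ᵥ f2 = 0) (au : R 1 *ᵥ u = 0)
    (ag1 : R 1 *ᵥ g1 = f1) (ag2 : R 1 *ᵥ g2 = f2) :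
    ∃ (k1 k2 k : K) (h1 h2 u0 : Fin n → K), D3 F Φ k1 k2 k f1 f2 g1 g2 u h1 h2 u0 := by
  have hs := hR.tr 1
  have z1 : ∀ y, R 1 *ᵥ y = 0 → f1 ⬝ᵥ y = 0 := by
    intro y hy
    rw [← ag1, dot_symm hs, hy, dotProduct_zero]
  have z2 : ∀ y, R 1 *ᵥ y = 0 → f2 ⬝ᵥ y = 0 := by
    intro y hy
    rw [← ag2, dot_symm hs, hy, dotProduct_zero]
  have f11 := z1 f1 af1
  have f12 := z1 f2 af2
  have f22 := z2 f2 af2
  have f1u := z1 u au
  have f2u := z2 u au
  have k1n : algebraMap F K c1 ≠ 0 := by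
    rw [Ne, map_eq_zero]
    exact hc1
  have k2n : algebraMap F K c2 ≠ 0 := by
    rw [Ne, map_eq_zero]
    exact hc2
  have kn : algebraMap F K c ≠ 0 := by
    rw [Ne, map_eq_zero]
    exact hc
  have ha' : R 1 = algebraMap F K c1 • (vecMulVec f1 g1 + vecMulVec g1 f1) +
      algebraMap F K c2 • (vecMulVec f2 g2 + vecMulVec g2 f2) +
      algebraMap F K c • vecMulVec u u := by
    rw [ha, algebraMap_smul, algebraMap_smul, algebraMap_smul]
  have he' : R 1 * R 1 = algebraMap F K c1 • vecMulVec f1 f1 +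
      algebraMap F K c2 • vecMulVec f2 f2 := by
    rw [he, algebraMap_smul, algebraMap_smul]
  have aw : ∀ v : Fin n → K, R 1 *ᵥ v =
      algebraMap F K c1 • ((g1 ⬝ᵥ v) • f1 + (f1 ⬝ᵥ v) • g1) +
      algebraMap F K c2 • ((g2 ⬝ᵥ v) • f2 + (f2 ⬝ᵥ v) • g2) +
      algebraMap F K c • (u ⬝ᵥ v) • u := by
    intro v
    rw [ha']
    simp only [add_mulVec, smul_mulVec, vmv_mulVec]
  have lin : ∀ x y z : K, x • f1 + y • f2 + z • u = 0 → x = 0 ∧ y = 0 ∧ z = 0 := by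
    intro x y z h
    have h1 := (Fintype.linearIndependent_iff.1 ind) ![x, y, z] (by
      rw [Fin.sum_univ_three]
      exact h)
    exact ⟨h1 0, h1 1, h1 2⟩
  have w1 := aw f1
  rw [af1, f11, dotProduct_comm f2 f1, f12, dotProduct_comm u f1, f1u] at w1
  have w2 := aw f2
  rw [af2, f12, f22, dotProduct_comm u f2, f2u] at w2
  have w3 := aw u
  rw [au, f1u, f2u] at w3
  obtain ⟨p1, p2, -⟩ := lin (algebraMap F K c1 * (g1 ⬝ᵥ f1)) (algebraMap F K c2 * (g2 ⬝ᵥ f1)) 0 (by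
    rw [w1]
    module)
  obtain ⟨q1, q2, -⟩ := lin (algebraMap F K c1 * (g1 ⬝ᵥ f2)) (algebraMap F K c2 * (g2 ⬝ᵥ f2)) 0 (by
    rw [w2]
    module)
  obtain ⟨r1, r2, r3⟩ := lin (algebraMap F K c1 * (g1 ⬝ᵥ u)) (algebraMap F K c2 * (g2 ⬝ᵥ u))
    (algebraMap F K c * (u ⬝ᵥ u)) (by
    rw [w3]
    module)
  replace p1 := (mul_eq_zero.1 p1).resolve_left k1n
  replace p2 := (mul_eq_zero.1 p2).resolve_left k2n
  replace q1 := (mul_eq_zero.1 q1).resolve_left k1n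
  replace q2 := (mul_eq_zero.1 q2).resolve_left k2n
  replace r1 := (mul_eq_zero.1 r1).resolve_left k1n
  replace r2 := (mul_eq_zero.1 r2).resolve_left k2n
  replace r3 := (mul_eq_zero.1 r3).resolve_left kn
  have w4 := aw g1
  rw [ag1, dotProduct_comm f1 g1, p1, dotProduct_comm f2 g1, q1, dotProduct_comm u g1, r1] at w4
  have w5 := aw g2
  rw [ag2, dotProduct_comm f1 g2, p2, dotProduct_comm f2 g2, q2, dotProduct_comm u g2, r2] at w5
  obtain ⟨s1, s2, -⟩ := lin (algebraMap F K c1 * (g1 ⬝ᵥ g1) - 1)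
    (algebraMap F K c2 * (g2 ⬝ᵥ g1)) 0 (by
    have h5 : (algebraMap F K c1 * (g1 ⬝ᵥ g1) - 1) • f1 +
        (algebraMap F K c2 * (g2 ⬝ᵥ g1)) • f2 + (0 : K) • u =
        (algebraMap F K c1 • ((g1 ⬝ᵥ g1) • f1 + (0 : K) • g1) +
        algebraMap F K c2 • ((g2 ⬝ᵥ g1) • f2 + (0 : K) • g2) +
        algebraMap F K c • (0 : K) • u) - f1 := by
      module
    rw [h5, ← w4, sub_self])
  obtain ⟨-, t2, -⟩ := lin (algebraMap F K c1 * (g1 ⬝ᵥ g2))
    (algebraMap F K c2 * (g2 ⬝ᵥ g2) - 1) 0 (by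
    have h5 : (algebraMap F K c1 * (g1 ⬝ᵥ g2)) • f1 +
        (algebraMap F K c2 * (g2 ⬝ᵥ g2) - 1) • f2 + (0 : K) • u =
        (algebraMap F K c1 • ((g1 ⬝ᵥ g2) • f1 + (0 : K) • g1) +
        algebraMap F K c2 • ((g2 ⬝ᵥ g2) • f2 + (0 : K) • g2) +
        algebraMap F K c • (0 : K) • u) - f2 := by
      module
    rw [h5, ← w5, sub_self])
  replace s2 := (mul_eq_zero.1 s2).resolve_left k2n
  have hfV : ∀ i, (![f1, f2, u] : Fin 3 → (Fin n → K)) i ∈ Φ.V := by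
    intro i
    fin_cases i
    · exact f1V
    · exact f2V
    · exact uV
  obtain ⟨t, htV, ht⟩ := e333_dual (Φ := Φ) hfV ind
  refine ⟨algebraMap F K c1, algebraMap F K c2, algebraMap F K c, t 0, t 1, t 2, ?_⟩
  exact
    { k1r := ⟨c1, rfl⟩
      k2r := ⟨c2, rfl⟩
      k1n := k1n
      k2n := k2n
      kn := kn
      f1V := f1V
      f2V := f2V
      g1V := g1V
      g2V := g2V
      uV := uV
      u0V := htV 2
      a := ha'
      e := he'
      f11 := f11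
      f12 := f12
      f22 := f22
      a11 := by rw [dotProduct_comm, p1]
      a12 := by rw [dotProduct_comm, p2]
      a21 := by rw [dotProduct_comm, q1]
      a22 := by rw [dotProduct_comm, q2]
      f1u := f1u
      f2u := f2u
      uu := r3
      g1u := r1
      g2u := r2
      g11 := sub_eq_zero.1 s1
      g12 := by rw [dotProduct_comm, s2]
      g22 := sub_eq_zero.1 t2
      h11 := by rw [dotProduct_comm]; exact ht 0 0
      h12 := by rw [dotProduct_comm]; exact ht 1 0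
      h1u := by rw [dotProduct_comm]; exact ht 2 0
      h21 := by rw [dotProduct_comm]; exact ht 0 1
      h22 := by rw [dotProduct_comm]; exact ht 1 1
      h2u := by rw [dotProduct_comm]; exact ht 2 1
      u01 := by rw [dotProduct_comm]; exact ht 0 2
      u02 := by rw [dotProduct_comm]; exact ht 1 2
      u0u := by rw [dotProduct_comm]; exact ht 2 2 }

end Pool.Agent.MP_f4742e_al
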