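import Pool.Agent.Lib.MP_f4742e_al.X.D3A
import Pool.Agent.Lib.MP_f4742e_al.X.D3Conv

/-!
The type `(3, 3, 2, 1, ..., 1)` with Witt index three is impossible.
-/

set_option autoImplicit false

namespace Pool.Agent.MP_f4742e_al

open Matrix

variable {F K : Type*} [Field F] [Field K] [CharZero K] [Algebra F K] {n : ℕ}
  {R : Matrix (Fin n) (Fin n) K →ₗ[K] Matrix (Fin n) (Fin n) K}

/-- Rational data of type `(3, 3, 2, ...)`: `a = Σ c_i (f_i g_iᵀ + g_i f_iᵀ) + c u uᵀ`. -/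
structure D332 (F : Type*) {K : Type*} [Field F] [Field K] [Algebra F K] {n : ℕ}
    {R : Matrix (Fin n) (Fin n) K →ₗ[K] Matrix (Fin n) (Fin n) K} {w : ℕ} (Φ : Frame F R w)
    (c1 c2 c : F) (f1 f2 g1 g2 u : Fin n → K) : Prop where
  hc1 : c1 ≠ 0
  hc2 : c2 ≠ 0
  hc : c ≠ 0
  f1V : f1 ∈ Φ.V
  f2V : f2 ∈ Φ.V
  g1V : g1 ∈ Φ.V
  g2V : g2 ∈ Φ.V
  uV : u ∈ Φ.V
  ind : LinearIndependent K ![f1, f2, u]
  a : R 1 = c1 • (vecMulVec f1 g1 + vecMulVec g1 f1) + c2 • (vecMulVec f2 g2 + vecMulVec g2 f2) +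
    c • vecMulVec u u
  e : R 1 * R 1 = c1 • vecMulVec f1 f1 + c2 • vecMulVec f2 f2
  af1 : R 1 *ᵥ f1 = 0
  af2 : R 1 *ᵥ f2 = 0
  au : R 1 *ᵥ u = 0
  ag1 : R 1 *ᵥ g1 = f1
  ag2 : R 1 *ᵥ g2 = f2

/-- (D) -/
theorem d332_false (hR : SRB R) (Φ : Frame F R 3) {c1 c2 c : F} {f1 f2 g1 g2 u : Fin n → K}
    (D : D332 F Φ c1 c2 c f1 f2 g1 g2 u) : False := by
  obtain ⟨k1, k2, k, h1, h2, u0, D'⟩ := d3_conv hR Φ D.hc1 D.hc2 D.hc D.f1V D.f2V D.g1V D.g2V D.uV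
    D.ind D.a D.e D.af1 D.af2 D.au D.ag1 D.ag2
  have he0 : R 1 * R 1 ≠ 0 := by
    intro h0
    have h3 : (R 1 * R 1) *ᵥ h1 = k1 • f1 := by
      rw [D'.ew, dotProduct_comm f1 h1, D'.h11, dotProduct_comm f2 h1, D'.h12, one_smul, zero_smul,
        smul_zero, add_zero]
    rw [h0, zero_mulVec] at h3
    have h4 : h1 ⬝ᵥ (k1 • f1) = 0 := by
      rw [← h3, dotProduct_zero]
    rw [dotProduct_smul, D'.h11, smul_eq_mul, mul_one] at h4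
    exact D'.k1n h4
  by_cases hne : ∃ x, f1 ⬝ᵥ (R x *ᵥ f1) ≠ 0 ∨ f1 ⬝ᵥ (R x *ᵥ f2) ≠ 0 ∨ f2 ⬝ᵥ (R x *ᵥ f2) ≠ 0
  · exact D'.A_false hR he0 hne
  · push Not at hne
    exact D'.B_false hR he0 (fun x => (hne x).1) (fun x => (hne x).2.1) (fun x => (hne x).2.2)

end Pool.Agent.MP_f4742e_al
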