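import Pool.Agent.Lib.MP_f4742e_al.X.F2T2c

/-!
The case `(R 1)^2 = 0`, rank two, Witt index two, isotropic kernel line: conclusion.
-/

set_option autoImplicit false

namespace Pool.Agent.MP_f4742e_al

open Matrix

namespace T2D

variable {F K : Type*} [Field F] [Field K] [CharZero K] [Algebra F K] {n : ℕ}
  {R : Matrix (Fin n) (Fin n) K →ₗ[K] Matrix (Fin n) (Fin n) K} (hR : SRB R) {Φ : Frame F R 2}
  {l p m h : Fin n → K} {x1 : Matrix (Fin n) (Fin n) K} {ε θ1 lam1 : K}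
  (E : T2D Φ l p m h x1 ε θ1 lam1)
  {x0 Y : Matrix (Fin n) (Fin n) K} {ρ : K} (G : YD Φ l p x0 Y ρ)

include E G hR

/-- The relation for `x = h vᵀ + v hᵀ`. -/
theorem rel2' {v : Fin n → K} (hv : v ∈ Φ.V) (hlv : l ⬝ᵥ v = 0) :
    ρ • R (vecMulVec l v) + R (vecMulVec p (Y *ᵥ v)) +
      (p ⬝ᵥ v) • R (vecMulVec l (Y *ᵥ h)) = 0 := by
  have hYt : Yᵀ = Y := by rw [G.hY, hR.tr]
  have h1 := E.T2c hR G (x := vecMulVec h v + vecMulVec v h)
    (Φ.M.add_mem (Φ.vmv _ E.hV _ hv) (Φ.vmv _ hv _ E.hV)) (by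
    rw [transpose_add, transpose_vecMulVec, transpose_vecMulVec, add_comm]) (by
    rw [add_mulVec, vmv_mulVec, vmv_mulVec, dotProduct_add, dotProduct_smul, dotProduct_smul,
      hlv, dotProduct_comm v l, hlv]
    simp)
  have e1 : R 1 * Y * (vecMulVec h v + vecMulVec v h) = ρ • vecMulVec l v := by
    have g1 : R 1 *ᵥ (Y *ᵥ h) = ρ • l := by
      rw [E.av, ← dot_symm hYt, ← dot_symm hYt, G.Yp, G.Yl, smul_dotProduct, E.lh,
        zero_dotProduct, zero_smul, add_zero, smul_eq_mul, mul_one]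
    have g2 : R 1 *ᵥ (Y *ᵥ v) = 0 := by
      rw [E.av, ← dot_symm hYt, ← dot_symm hYt, G.Yp, G.Yl, smul_dotProduct, hlv,
        zero_dotProduct, smul_zero, zero_smul, zero_smul, add_zero]
    rw [Matrix.mul_add, mul_vecMulVec, mul_vecMulVec, ← mulVec_mulVec, ← mulVec_mulVec, g1, g2,
      zero_vecMulVec, add_zero, smul_vecMulVec]
  have e2 : R 1 * (vecMulVec h v + vecMulVec v h) * Y = vecMulVec p (Y *ᵥ v) +
      (p ⬝ᵥ v) • vecMulVec l (Y *ᵥ h) := by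
    have g1 : R 1 *ᵥ h = p := by
      rw [E.av, E.ph, E.lh, zero_smul, zero_add, one_smul]
    have g2 : R 1 *ᵥ v = (p ⬝ᵥ v) • l := by
      rw [E.av, hlv, zero_smul, add_zero]
    rw [Matrix.mul_add, mul_vecMulVec, mul_vecMulVec, Matrix.add_mul, vmv_mul hYt, vmv_mul hYt,
      g1, g2, smul_vecMulVec]
  rw [e1, e2, map_add, map_smul, map_smul, ← add_assoc] at h1
  exact h1

theorem RlYh (hρ : ρ ≠ 0) : R (vecMulVec l (Y *ᵥ h)) = 0 := by
  have hYM : R x0 ∈ Φ.M := Φ.map x0 G.x0M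
  obtain ⟨α, hα⟩ := E.Q hR hYM (hR.tr x0) (by rw [← G.hY]; exact G.Yl)
    (by rw [← G.hY]; exact G.Yp)
  rw [← G.hY] at hα
  have h1 := E.rel2' hR G E.mV E.lm
  rw [E.Rlm hR G hρ, hα, vecMulVec_smul, map_smul, E.Rpl hR, smul_zero, smul_zero, zero_add,
    zero_add, E.pm, one_smul] at h1
  exact h1

theorem rel2 (hρ : ρ ≠ 0) {v : Fin n → K} (hv : v ∈ Φ.V) (hlv : l ⬝ᵥ v = 0) :
    ρ • R (vecMulVec l v) + R (vecMulVec p (Y *ᵥ v)) = 0 := by
  have h1 := E.rel2' hR G hv hlv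
  rw [E.RlYh hR G hρ, smul_zero, add_zero] at h1
  exact h1

theorem rel3 (hρ : ρ ≠ 0) {v : Fin n → K} (hv : v ∈ Φ.V) (hlv : l ⬝ᵥ v = 0) :
    R (vecMulVec l (Y *ᵥ v)) = 0 := by
  have hYt : Yᵀ = Y := by rw [G.hY, hR.tr]
  have hYM : Y ∈ Φ.M := by
    rw [G.hY]
    exact Φ.map _ (Φ.map x0 G.x0M)
  have hsw : ∀ y z : Fin n → K, R (vecMulVec y z) = R (vecMulVec z y) := by
    intro y z
    rw [← Bf_apply, ← Bf_apply, Bf_comm hR]
  have h1 := E.rel2 hR G hρ hv hlv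
  have h2 := E.rel2 hR G hρ (v := Y *ᵥ v) (Φ.act _ hYM _ hv) (by
    rw [← dot_symm hYt, G.Yl, zero_dotProduct])
  obtain ⟨k, hk⟩ : ∃ k, k = ρ • (vecMulVec l v + vecMulVec v l) + (vecMulVec p (Y *ᵥ v) +
      vecMulVec (Y *ᵥ v) p) := ⟨_, rfl⟩
  have hkt : kᵀ = k := by
    rw [hk]
    simp only [transpose_add, transpose_smul, transpose_vecMulVec]
    rw [add_comm (vecMulVec v l), add_comm (vecMulVec (Y *ᵥ v) p)]
  have hRk : R k = 0 := by
    rw [hk, map_add, map_smul, map_add, map_add, hsw v l, hsw (Y *ᵥ v) p]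
    have h3 : ρ • (R (vecMulVec l v) + R (vecMulVec l v)) + (R (vecMulVec p (Y *ᵥ v)) +
        R (vecMulVec p (Y *ᵥ v))) = (2 : K) • (ρ • R (vecMulVec l v) +
        R (vecMulVec p (Y *ᵥ v))) := by
      module
    rw [h3, h1, smul_zero]
  have h3 := hR.K hkt hRk 0 (R x0)
  rw [pow_zero, Matrix.one_mul, ← G.hY, hk, Matrix.mul_add, mul_smul_comm, Matrix.mul_add,
    Matrix.mul_add, mul_vecMulVec, mul_vecMulVec, mul_vecMulVec, mul_vecMulVec, G.Yl, G.Yp,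
    zero_vecMulVec, zero_add, map_add, map_add, map_smul, smul_vecMulVec, map_smul,
    hsw (Y *ᵥ v) l, hsw (Y *ᵥ (Y *ᵥ v)) p] at h3
  have h4 : ρ • R (vecMulVec l (Y *ᵥ v)) = 0 := by
    have h5 : ρ • R (vecMulVec l (Y *ᵥ v)) = (ρ • R (vecMulVec l (Y *ᵥ v)) +
        (ρ • R (vecMulVec l (Y *ᵥ v)) + R (vecMulVec p (Y *ᵥ (Y *ᵥ v))))) -
        (ρ • R (vecMulVec l (Y *ᵥ v)) + R (vecMulVec p (Y *ᵥ (Y *ᵥ v)))) := by
      abel
    rw [h5, h3, h2, sub_zero]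
  exact (smul_eq_zero.1 h4).resolve_left hρ

theorem rho_zero : ρ = 0 := by
  by_contra hρ
  have hYt : Yᵀ = Y := by rw [G.hY, hR.tr]
  have hYM : Y ∈ Φ.M := by
    rw [G.hY]
    exact Φ.map _ (Φ.map x0 G.x0M)
  have hsw : ∀ y z : Fin n → K, R (vecMulVec y z) = R (vecMulVec z y) := by
    intro y z
    rw [← Bf_apply, ← Bf_apply, Bf_comm hR]
  obtain ⟨α, hα⟩ := E.Q hR (Φ.map x0 G.x0M) (hR.tr x0) (by rw [← G.hY]; exact G.Yl)
    (by rw [← G.hY]; exact G.Yp)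
  rw [← G.hY] at hα
  have hll : vecMulVec l l ≠ (0 : Matrix (Fin n) (Fin n) K) :=
    vecMulVec_ne_zero E.D.l_ne E.D.l_ne
  have hYh : Y *ᵥ h ∈ Φ.V := Φ.act _ hYM _ E.hV
  -- z
  obtain ⟨c, hc⟩ : ∃ c, c = (h ⬝ᵥ (Y *ᵥ h)) / 2 := ⟨_, rfl⟩
  have hcl : c • l ∈ Φ.V := by
    obtain ⟨t, ht⟩ := Φ.dot _ E.hV _ hYh
    have h1 : c = algebraMap F K (t / 2) := by
      rw [hc, ht, map_div₀, map_ofNat]
    rw [h1]
    exact Φ.am_smul _ E.D.lV
  obtain ⟨z, hz⟩ : ∃ z, z = Y *ᵥ h - c • l := ⟨_, rfl⟩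
  have hzV : z ∈ Φ.V := by
    rw [hz]
    exact Φ.V.sub_mem hYh hcl
  have hzl : z ⬝ᵥ l = 0 := by
    rw [hz, sub_dotProduct, smul_dotProduct, E.D.ll, dot_symm hYt, G.Yl, dotProduct_zero,
      smul_zero, sub_zero]
  have hzp : z ⬝ᵥ p = ρ := by
    rw [hz, sub_dotProduct, smul_dotProduct, E.D.lp, dot_symm hYt, G.Yp, dotProduct_smul, E.hl,
      smul_zero, sub_zero, smul_eq_mul, mul_one]
  have hzm : z ⬝ᵥ m = α := by
    rw [hz, sub_dotProduct, smul_dotProduct, E.lm, dot_symm hYt, hα, dotProduct_smul, E.hl,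
      smul_zero, sub_zero, smul_eq_mul, mul_one]
  have hzh : z ⬝ᵥ h = c := by
    rw [hz, sub_dotProduct, smul_dotProduct, E.lh, dotProduct_comm, smul_eq_mul, mul_one, hc]
    ring
  -- Y0
  obtain ⟨Y0, hY0⟩ : ∃ Y0, Y0 = Y - vecMulVec l z - vecMulVec z l := ⟨_, rfl⟩
  have hY0t : Y0ᵀ = Y0 := by
    rw [hY0, transpose_sub, transpose_sub, transpose_vecMulVec, transpose_vecMulVec, hYt]
    abel
  have hY0M : Y0 ∈ Φ.M := by
    rw [hY0]
    exact Φ.M.sub_mem (Φ.M.sub_mem hYM (Φ.vmv _ E.D.lV _ hzV)) (Φ.vmv _ hzV _ E.D.lV)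
  have hY0v : ∀ v : Fin n → K, Y0 *ᵥ v = Y *ᵥ v - (z ⬝ᵥ v) • l - (l ⬝ᵥ v) • z := by
    intro v
    rw [hY0, sub_mulVec, sub_mulVec, vmv_mulVec, vmv_mulVec]
  have hY0l : Y0 *ᵥ l = 0 := by
    rw [hY0v, G.Yl, hzl, E.D.ll, zero_smul, zero_smul, sub_zero, sub_zero]
  have hY0p : Y0 *ᵥ p = 0 := by
    rw [hY0v, G.Yp, hzp, E.D.lp, zero_smul, sub_zero, sub_self]
  have hY0m : Y0 *ᵥ m = 0 := by
    rw [hY0v, hα, hzm, E.lm, zero_smul, sub_zero, sub_self]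
  have hY0h : Y0 *ᵥ h = 0 := by
    rw [hY0v, hzh, E.lh, one_smul, hz]
    abel
  -- values at `l (Y0 v)ᵀ`
  have hA : ∀ v ∈ Φ.V, R (vecMulVec l (Y0 *ᵥ v)) = 0 := by
    intro v hv
    obtain ⟨v', hv'⟩ : ∃ v', v' = v - (l ⬝ᵥ v) • h := ⟨_, rfl⟩
    have h1 : v' ∈ Φ.V := by
      rw [hv']
      exact Φ.V.sub_mem hv (Φ.dot_smul E.D.lV hv E.hV)
    have h2 : l ⬝ᵥ v' = 0 := by
      rw [hv', dotProduct_sub, dotProduct_smul, E.lh, smul_eq_mul, mul_one, sub_self]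
    have h3 : Y0 *ᵥ v = Y *ᵥ v' - (z ⬝ᵥ v') • l := by
      have h4 : Y0 *ᵥ v = Y0 *ᵥ v' := by
        rw [hv', mulVec_sub, mulVec_smul, hY0h, smul_zero, sub_zero]
      rw [h4, hY0v, h2, zero_smul, sub_zero]
    rw [h3, vecMulVec_sub, vecMulVec_smul, map_sub, map_smul, E.Rll, smul_zero, sub_zero]
    exact E.rel3 hR G hρ h1 h2
  -- powers
  have hYY : R (Y * Y) = 0 := by
    have h4 := hR.K (k := ρ • vecMulVec p p - ε • Y) (by
      rw [transpose_sub, transpose_smul, transpose_smul, transpose_vecMulVec, hYt])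
      (E.k0 G.RY) 0 (R x0)
    rw [pow_zero, Matrix.one_mul, ← G.hY, Matrix.mul_sub, mul_smul_comm, mul_smul_comm,
      mul_vecMulVec, G.Yp, map_sub, map_smul, map_smul, smul_vecMulVec, map_smul, E.Rlp,
      smul_zero, smul_zero, zero_sub, neg_eq_zero] at h4
    exact (smul_eq_zero.1 h4).resolve_left E.hε
  have hYe : Y = Y0 + vecMulVec l z + vecMulVec z l := by
    rw [hY0]
    abel
  have hpw : ∀ j : ℕ, R (Y0 ^ (j + 2)) = 0 := by
    intro j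
    induction j with
    | zero =>
      have h1 : Y * Y = Y0 ^ 2 + vecMulVec l (Y0 *ᵥ z) + vecMulVec (Y0 *ᵥ z) l +
          (z ⬝ᵥ z) • vecMulVec l l := by
        have hlz0 : l ⬝ᵥ z = 0 := by rw [dotProduct_comm, hzl]
        nth_rw 1 [hYe]
        rw [hYe]
        simp only [Matrix.add_mul, Matrix.mul_add, mul_vecMulVec, vmv_mul hY0t, hY0l,
          zero_vecMulVec, vmv_mulVec, hzl, hlz0, E.D.ll, zero_smul,
          smul_vecMulVec, add_mulVec, add_vecMulVec, vecMulVec_zero, zero_add, add_zero]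
        rw [pow_two]
        abel
      rw [h1, map_add, map_add, map_add, hsw (Y0 *ᵥ z) l, hA z hzV, map_smul, E.Rll, smul_zero,
        add_zero, add_zero, add_zero] at hYY
      exact hYY
    | succ j ih =>
      have h1 := hR.K (k := Y0 ^ (j + 2)) (pow_tr hY0t _) ih 0 (R x0)
      have h2 : Y * Y0 ^ (j + 2) = Y0 ^ (j + 1 + 2) + vecMulVec l (Y0 *ᵥ (Y0 ^ (j + 1) *ᵥ z)) := by
        nth_rw 1 [hYe]
        rw [Matrix.add_mul, Matrix.add_mul, vmv_mul (pow_tr hY0t _), vmv_mul (pow_tr hY0t _),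
          ← pow_succ', mulVec_mulVec, ← pow_succ']
        have h3 : Y0 ^ (j + 2) *ᵥ l = 0 := by
          rw [pow_succ, ← mulVec_mulVec, hY0l, mulVec_zero]
        rw [h3, vecMulVec_zero, add_zero]
      rw [pow_zero, Matrix.one_mul, ← G.hY, h2, map_add, hA _ (Φ.act _ (Φ.pow hY0M _) _ hzV),
        add_zero] at h1
      exact h1
  -- conclusion
  have hfin : R Y0 = 0 := by
    refine Φ.pow_ind hY0M ?_ hpw
    intro v hv h1
    have h2 : Y0 *ᵥ v ∈ Φ.V := Φ.act _ hY0M _ hv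
    obtain ⟨a, b, hab⟩ := Φ.an2 E.D.lV E.mV h2 E.indlm E.D.ll E.lm E.mm (by
      rw [← dot_symm hY0t, hY0l, zero_dotProduct]) (by
      rw [← dot_symm hY0t, hY0m, zero_dotProduct]) (by
      rw [dot_symm hY0t, h1, dotProduct_zero])
    have h3 : p ⬝ᵥ (Y0 *ᵥ v) = 0 := by rw [← dot_symm hY0t, hY0p, zero_dotProduct]
    have h4 : h ⬝ᵥ (Y0 *ᵥ v) = 0 := by rw [← dot_symm hY0t, hY0h, zero_dotProduct]
    rw [hab, dotProduct_add, dotProduct_smul, dotProduct_smul, E.pl, E.pm, smul_zero, zero_add,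
      smul_eq_mul, mul_one] at h3
    rw [hab, dotProduct_add, dotProduct_smul, dotProduct_smul, E.hl, E.hm, smul_zero, add_zero,
      smul_eq_mul, mul_one] at h4
    rw [hab, h3, h4, zero_smul, zero_smul, add_zero]
  have hlz : R (vecMulVec l z) = 0 := by
    rw [hz, vecMulVec_sub, vecMulVec_smul, map_sub, map_smul, E.Rll, smul_zero, sub_zero,
      E.RlYh hR G hρ]
  have h1 := G.RY
  rw [hYe, map_add, map_add, hfin, hlz, hsw z l, hlz, add_zero, add_zero] at h1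
  rcases smul_eq_zero.1 h1.symm with h2 | h2
  · exact hρ h2
  · exact hll h2

omit G in
/-- `R ^ 3` vanishes on the rational matrices. -/
theorem t2 {x : Matrix (Fin n) (Fin n) K} (hx : x ∈ Φ.M) : R (R (R x)) = 0 := by
  obtain ⟨ρ, G⟩ := E.Yform hR hx
  rw [G.RY, E.rho_zero hR G, zero_smul]

end T2D

end Pool.Agent.MP_f4742e_al
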