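import Pool.Agent.Lib.MP_f4742e_al.HLA
import Pool.Agent.Lib.MP_f4742e_al.X.F2T2d

/-!
The case `(R 1)^2 = 0`, rank two, Witt index two: `e (R x) e ≠ 0` for some `x`.
-/

set_option autoImplicit false

namespace Pool.Agent.MP_f4742e_al

open Matrix

variable {F K : Type*} [Field F] [Field K] [IsAlgClosed K] [CharZero K] [Algebra F K] {n : ℕ}
  {R : Matrix (Fin n) (Fin n) K →ₗ[K] Matrix (Fin n) (Fin n) K}

omit [IsAlgClosed K] in
/-- Vanishing on rational symmetric matrices. -/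
theorem f2_ext (hR : SRB R) {w : ℕ} (Φ : Frame F R w)
    (h : ∀ x ∈ Φ.M, xᵀ = x → R (R (R x)) = 0) : R ^ 3 = 0 := by
  have h1 : ∀ x : Matrix (Fin n) (Fin n) K, xᵀ = x → R (R (R x)) = 0 := by
    intro x hx
    refine Φ.sym_ind (P := fun x => R (R (R x)) = 0) h ?_ ?_ x hx
    · intro x y hx hy
      rw [map_add, map_add, map_add, hx, hy, add_zero]
    · intro c x hx
      rw [map_smul, map_smul, map_smul, hx, smul_zero]
  refine LinearMap.ext fun x => ?_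
  have h2 : R x = R ((2 : K)⁻¹ • (x + xᵀ)) := by
    rw [map_smul, map_add, hR.ti, ← two_smul K, smul_smul, inv_mul_cancel₀ two_ne_zero, one_smul]
  rw [pow_succ, pow_succ, pow_one, Module.End.mul_apply, Module.End.mul_apply, h2,
    h1 _ (by rw [transpose_smul, transpose_add, transpose_transpose, add_comm]),
    LinearMap.zero_apply]

/-- (F): T1 and T2 -/
theorem f2_zero (hR : SRB R) (Φ : Frame F R 2) {c1 c2 : F} {f1 f2 : Fin n → K}
    (D : M2 F Φ c1 c2 f1 f2) (hT : ∃ x, R 1 * R x * R 1 ≠ 0) : R ^ 3 = 0 := by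
  obtain ⟨C1, hC1⟩ : ∃ C1, C1 = algebraMap F K c1 := ⟨_, rfl⟩
  obtain ⟨C2, hC2⟩ : ∃ C2, C2 = algebraMap F K c2 := ⟨_, rfl⟩
  obtain ⟨hd, hhd⟩ := exists_dual D.ind
  have hd00 := hhd 0 0
  have hd01 := hhd 0 1
  have hd10 := hhd 1 0
  have hd11 := hhd 1 1
  have B : RK2 R C1 C2 f1 f2 (hd 0) (hd 1) := by
    refine ⟨?_, ?_, ?_, D.ee, ?_, ?_, ?_, ?_⟩
    · rw [hC1, Ne, map_eq_zero]
      exact D.hc1
    · rw [hC2, Ne, map_eq_zero]
      exact D.hc2
    · rw [hC1, hC2, algebraMap_smul, algebraMap_smul]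
      exact D.e
    · simpa using hd00
    · simpa using hd01
    · simpa using hd10
    · simpa using hd11
  obtain ⟨i11, i12, i22⟩ := B.iso
  -- a rational nonzero value
  obtain ⟨x0, hx0, hx0t, hx0n⟩ : ∃ x ∈ Φ.M, xᵀ = x ∧ R 1 * R x * R 1 ≠ 0 := by
    by_contra hcon
    push Not at hcon
    obtain ⟨x, hx⟩ := hT
    have h1 : ∀ x : Matrix (Fin n) (Fin n) K, xᵀ = x → R 1 * R x * R 1 = 0 := by
      intro x hx
      refine Φ.sym_ind (P := fun x => R 1 * R x * R 1 = 0) hcon ?_ ?_ x hx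
      · intro x y hx hy
        rw [map_add, Matrix.mul_add, Matrix.add_mul, hx, hy, add_zero]
      · intro c x hx
        rw [map_smul, mul_smul_comm, smul_mul_assoc, hx, smul_zero]
    apply hx
    have h2 : R x = R ((2 : K)⁻¹ • (x + xᵀ)) := by
      rw [map_smul, map_add, hR.ti, ← two_smul K, smul_smul, inv_mul_cancel₀ two_ne_zero,
        one_smul]
    rw [h2]
    exact h1 _ (by rw [transpose_smul, transpose_add, transpose_transpose, add_comm])
  have hRx0 := Φ.map x0 hx0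
  have hdet := B.det hR hx0n
  obtain ⟨b11, hb11⟩ := Φ.dot _ D.f1V _ (Φ.act _ hRx0 _ D.f1V)
  obtain ⟨b12, hb12⟩ := Φ.dot _ D.f1V _ (Φ.act _ hRx0 _ D.f2V)
  obtain ⟨b22, hb22⟩ := Φ.dot _ D.f2V _ (Φ.act _ hRx0 _ D.f2V)
  rw [hb11, hb12, hb22] at hdet
  obtain ⟨ξ1, ξ2, hξ, k1, k2⟩ : ∃ ξ1 ξ2 : F, (ξ1 ≠ 0 ∨ ξ2 ≠ 0) ∧
      algebraMap F K ξ1 * (f1 ⬝ᵥ (R x0 *ᵥ f1)) + algebraMap F K ξ2 * (f1 ⬝ᵥ (R x0 *ᵥ f2)) = 0 ∧
      algebraMap F K ξ1 * (f1 ⬝ᵥ (R x0 *ᵥ f2)) + algebraMap F K ξ2 * (f2 ⬝ᵥ (R x0 *ᵥ f2)) =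
        0 := by
    by_cases h1 : b11 = 0 ∧ b12 = 0
    · refine ⟨1, 0, Or.inl one_ne_zero, ?_, ?_⟩
      · rw [hb11, h1.1, map_zero]
        ring
      · rw [hb12, h1.2, map_zero]
        ring
    · refine ⟨-b12, b11, ?_, ?_, ?_⟩
      · by_cases h2 : b11 = 0
        · left
          intro h3
          exact h1 ⟨h2, neg_eq_zero.1 h3⟩
        · exact Or.inr h2
      · rw [hb11, hb12, map_neg]
        ring
      · rw [hb12, hb22, map_neg]
        linear_combination hdet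
  have hker := B.ker_all hR hx0n k1 k2
  obtain ⟨Z1, hZ1⟩ : ∃ Z1, Z1 = algebraMap F K ξ1 := ⟨_, rfl⟩
  obtain ⟨Z2, hZ2⟩ : ∃ Z2, Z2 = algebraMap F K ξ2 := ⟨_, rfl⟩
  rw [← hZ1, ← hZ2] at hker
  obtain ⟨l, hl⟩ : ∃ l, l = Z1 • f1 + Z2 • f2 := ⟨_, rfl⟩
  rw [← hl] at hker
  have hlV : l ∈ Φ.V := by
    rw [hl, hZ1, hZ2]
    exact Φ.V.add_mem (Φ.am_smul _ D.f1V) (Φ.am_smul _ D.f2V)
  -- the pair for a second vector
  have hpair : ∀ (t1 t2 : F), ξ1 * t2 - ξ2 * t1 ≠ 0 →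
      LP Φ l (algebraMap F K t1 • f1 + algebraMap F K t2 • f2) := by
    intro t1 t2 ht
    obtain ⟨T1, hT1⟩ : ∃ T1, T1 = algebraMap F K t1 := ⟨_, rfl⟩
    obtain ⟨T2, hT2⟩ : ∃ T2, T2 = algebraMap F K t2 := ⟨_, rfl⟩
    have hdt : Z1 * T2 - Z2 * T1 ≠ 0 := by
      rw [hZ1, hZ2, hT1, hT2, ← map_mul, ← map_mul, ← map_sub, Ne, map_eq_zero]
      exact ht
    rw [← hT1, ← hT2]
    obtain ⟨p, hp⟩ : ∃ p, p = T1 • f1 + T2 • f2 := ⟨_, rfl⟩
    rw [← hp]
    have hf1 : f1 = (Z1 * T2 - Z2 * T1)⁻¹ • (T2 • l - Z2 • p) := by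
      have h1 : T2 • l - Z2 • p = (Z1 * T2 - Z2 * T1) • f1 := by
        rw [hl, hp]
        module
      rw [h1, smul_smul, inv_mul_cancel₀ hdt, one_smul]
    have hf2 : f2 = (Z1 * T2 - Z2 * T1)⁻¹ • (Z1 • p - T1 • l) := by
      have h1 : Z1 • p - T1 • l = (Z1 * T2 - Z2 * T1) • f2 := by
        rw [hl, hp]
        module
      rw [h1, smul_smul, inv_mul_cancel₀ hdt, one_smul]
    refine ⟨hlV, ?_, ?_, D.ee, ?_, ?_, ?_, ?_, ?_, ?_⟩
    · rw [hp, hT1, hT2]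
      exact Φ.V.add_mem (Φ.am_smul _ D.f1V) (Φ.am_smul _ D.f2V)
    · rw [LinearIndependent.pair_iff]
      intro a b hab
      have h1 : (a * Z1 + b * T1) • f1 + (a * Z2 + b * T2) • f2 = 0 := by
        rw [← hab, hl, hp]
        module
      obtain ⟨h2, h3⟩ := (LinearIndependent.pair_iff.1 D.ind) _ _ h1
      have h4 : a * (Z1 * T2 - Z2 * T1) = 0 := by linear_combination T2 * h2 - T1 * h3
      have h5 : b * (Z1 * T2 - Z2 * T1) = 0 := by linear_combination Z1 * h3 - Z2 * h2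
      exact ⟨(mul_eq_zero.1 h4).resolve_right hdt, (mul_eq_zero.1 h5).resolve_right hdt⟩
    · rw [hl]
      simp only [add_dotProduct, dotProduct_add, smul_dotProduct, dotProduct_smul, i11, i12, i22,
        dotProduct_comm f2 f1, smul_zero, add_zero]
    · rw [hl, hp]
      simp only [add_dotProduct, dotProduct_add, smul_dotProduct, dotProduct_smul, i11, i12, i22,
        dotProduct_comm f2 f1, smul_zero, add_zero]
    · rw [hp]
      simp only [add_dotProduct, dotProduct_add, smul_dotProduct, dotProduct_smul, i11, i12, i22,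
        dotProduct_comm f2 f1, smul_zero, add_zero]
    · intro x
      nth_rw 1 [hl]
      rw [add_dotProduct, smul_dotProduct, smul_dotProduct, (hker x).1, (hker x).2, smul_zero,
        smul_zero, add_zero]
    · intro x
      rw [hp, add_dotProduct, smul_dotProduct, smul_dotProduct, (hker x).1, (hker x).2,
        smul_zero, smul_zero, add_zero]
    · refine ⟨x0, hx0, hx0t, ?_⟩
      intro h1
      have hlk : ∀ y : Fin n → K, (y = f1 ∨ y = f2) → y ⬝ᵥ (R x0 *ᵥ l) = 0 := by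
        rintro y (rfl | rfl)
        · exact (hker x0).1
        · exact (hker x0).2
      have hll : l ⬝ᵥ (R x0 *ᵥ l) = 0 := by
        nth_rw 1 [hl]
        rw [add_dotProduct, smul_dotProduct, smul_dotProduct, (hker x0).1, (hker x0).2, smul_zero,
          smul_zero, add_zero]
      have hpl : p ⬝ᵥ (R x0 *ᵥ l) = 0 := by
        rw [hp, add_dotProduct, smul_dotProduct, smul_dotProduct, (hker x0).1, (hker x0).2,
          smul_zero, smul_zero, add_zero]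
      have hlp : l ⬝ᵥ (R x0 *ᵥ p) = 0 := by rw [dot_symm' (hR.tr x0), hpl]
      have hall : ∀ a b c d : K, (a • l + b • p) ⬝ᵥ (R x0 *ᵥ (c • l + d • p)) = 0 := by
        intro a b c d
        simp only [add_dotProduct, smul_dotProduct, mulVec_add, mulVec_smul, dotProduct_add,
          dotProduct_smul, hll, hpl, hlp, h1, smul_zero, add_zero]
      have hf1' : f1 = ((Z1 * T2 - Z2 * T1)⁻¹ * T2) • l + (-((Z1 * T2 - Z2 * T1)⁻¹ * Z2)) •
          p := by
        conv_lhs => rw [hf1]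
        module
      have hf2' : f2 = (-((Z1 * T2 - Z2 * T1)⁻¹ * T1)) • l + ((Z1 * T2 - Z2 * T1)⁻¹ * Z1) •
          p := by
        conv_lhs => rw [hf2]
        module
      apply hx0n
      refine B.U_zero_of hR ?_ ?_
      · have g1 : f1 ⬝ᵥ (R x0 *ᵥ f1) = 0 := by
          rw [hf1']
          exact hall _ _ _ _
        have g2 : f2 ⬝ᵥ (R x0 *ᵥ f2) = 0 := by
          rw [hf2']
          exact hall _ _ _ _
        rw [g1, g2]
        ring
      · have h3 := hall ((Z1 * T2 - Z2 * T1)⁻¹ * T2) (-((Z1 * T2 - Z2 * T1)⁻¹ * Z2))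
          (-((Z1 * T2 - Z2 * T1)⁻¹ * T1)) ((Z1 * T2 - Z2 * T1)⁻¹ * Z1)
        rw [← hf1', ← hf2'] at h3
        exact h3
  have hc1 := D.hc1
  have hc2 := D.hc2
  by_cases hγ : c2 * ξ1 ^ 2 + c1 * ξ2 ^ 2 = 0
  · -- isotropic kernel line
    have h1 : ξ1 ≠ 0 := by
      intro h2
      rw [h2] at hγ hξ
      have h3 : c1 * ξ2 ^ 2 = 0 := by linear_combination hγ
      have h4 := (mul_eq_zero.1 h3).resolve_left hc1
      rcases hξ with h5 | h5
      · exact h5 rfl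
      · exact h5 (pow_eq_zero_iff (two_ne_zero) |>.1 h4)
    have h2 : ξ2 ≠ 0 := by
      intro h2
      rw [h2] at hγ
      have h3 : c2 * ξ1 ^ 2 = 0 := by linear_combination hγ
      have h4 := (mul_eq_zero.1 h3).resolve_left hc2
      exact h1 (pow_eq_zero_iff (two_ne_zero) |>.1 h4)
    have hF2 : (2 : F) ≠ 0 := by
      intro h3
      have h4 := congrArg (algebraMap F K) h3
      rw [map_ofNat, map_zero] at h4
      exact two_ne_zero h4
    obtain ⟨κ, hκ⟩ : ∃ κ, κ = c1 / (2 * ξ1 ^ 2) := ⟨_, rfl⟩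
    have hκ1 : κ * (2 * ξ1 ^ 2) = c1 := by
      rw [hκ]
      field_simp
    have hκ0 : κ ≠ 0 := by
      intro h3
      rw [h3, zero_mul] at hκ1
      exact hc1 hκ1.symm
    have hP := hpair (κ * ξ1) (-(κ * ξ2)) (by
      have h3 : ξ1 * -(κ * ξ2) - ξ2 * (κ * ξ1) = -(2 * κ * ξ1 * ξ2) := by ring
      rw [h3, neg_ne_zero]
      exact mul_ne_zero (mul_ne_zero (mul_ne_zero hF2 hκ0) h1) h2)
    have hκ2 : -(κ * (2 * ξ2 ^ 2)) = c2 := by
      have h3 : ξ1 ^ 2 * (-(κ * (2 * ξ2 ^ 2)) - c2) = 0 := by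
        linear_combination (-ξ2 ^ 2) * hκ1 - hγ
      have h4 := (mul_eq_zero.1 h3).resolve_left (pow_ne_zero 2 h1)
      exact sub_eq_zero.1 h4
    obtain ⟨m, h, x1, ε, θ1, lam1, E⟩ := T2D_exists hR hP (by
      rw [B.e, hl, hC1, hC2, ← hκ1, ← hκ2, map_mul (algebraMap F K) κ ξ1, map_neg, map_neg,
        map_mul (algebraMap F K) κ ξ2, map_mul, map_mul, map_mul, map_mul, map_pow, map_pow,
        map_ofNat, ← hZ1, ← hZ2]
      simp only [vecMulVec_add, add_vecMulVec, smul_vecMulVec, vecMulVec_smul]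
      module)
    exact f2_ext hR Φ fun x hx _ => E.t2 hR hx
  · -- anisotropic kernel line
    have hP := hpair (c1 * ξ2) (-(c2 * ξ1)) (by
      have h3 : ξ1 * -(c2 * ξ1) - ξ2 * (c1 * ξ2) = -(c2 * ξ1 ^ 2 + c1 * ξ2 ^ 2) := by ring
      rw [h3, neg_ne_zero]
      exact hγ)
    obtain ⟨γ, hγd⟩ : ∃ γ, γ = c2 * ξ1 ^ 2 + c1 * ξ2 ^ 2 := ⟨_, rfl⟩
    have hγ0 : algebraMap F K γ ≠ 0 := by
      rw [Ne, map_eq_zero, hγd]
      exact hγ
    have hγ1 : algebraMap F K γ = C2 * Z1 ^ 2 + C1 * Z2 ^ 2 := by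
      rw [hγd, map_add, map_mul, map_mul, map_pow, map_pow, hC1, hC2, hZ1, hZ2]
    refine f2_ext hR Φ fun x hx _ => hP.t1 hR (E0 := C1 * C2 / algebraMap F K γ)
      (E1 := 1 / algebraMap F K γ) ?_ ?_ ?_ hx
    · exact div_ne_zero (mul_ne_zero B.hC1 B.hC2) hγ0
    · exact div_ne_zero one_ne_zero hγ0
    · rw [B.e, hl, map_neg, map_mul, map_mul, ← hZ1, ← hZ2, ← hC1, ← hC2]
      simp only [vecMulVec_add, add_vecMulVec, smul_vecMulVec, vecMulVec_smul, smul_smul,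
        smul_add]
      have h3 : C1 = C1 * C2 / algebraMap F K γ * (Z1 * Z1) + 1 / algebraMap F K γ *
          (C1 * Z2 * (C1 * Z2)) := by
        field_simp
        rw [hγ1]
      have h4 : C2 = C1 * C2 / algebraMap F K γ * (Z2 * Z2) + 1 / algebraMap F K γ *
          (C2 * Z1 * (C2 * Z1)) := by
        field_simp
        rw [hγ1]
        ring
      have h5 : C1 • vecMulVec f1 f1 + C2 • vecMulVec f2 f2 =
          (C1 * C2 / algebraMap F K γ * (Z1 * Z1) + 1 / algebraMap F K γ *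
          (C1 * Z2 * (C1 * Z2))) • vecMulVec f1 f1 +
          (C1 * C2 / algebraMap F K γ * (Z2 * Z2) + 1 / algebraMap F K γ *
          (C2 * Z1 * (C2 * Z1))) • vecMulVec f2 f2 := by
        rw [← h3, ← h4]
      rw [h5]
      module

end Pool.Agent.MP_f4742e_al
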