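import Pool.Agent.Lib.MP_f4742e_al.X.B3
import Pool.Agent.Lib.MP_f4742e_al.X.C3
import Pool.Agent.Lib.MP_f4742e_al.X.D332
import Pool.Agent.Lib.MP_f4742e_al.X.E333
import Pool.Agent.Lib.MP_f4742e_al.X.F2
import Pool.Agent.Lib.MP_f4742e_al.Upper

/-!
The upper bound `R^(2w-1) = 0` over a frame with Witt index `w ≥ 2`.
-/

set_option autoImplicit false

namespace Pool.Agent.MP_f4742e_al

open Matrix

section

variable {F K : Type*} [Field F] [Field K] [CharZero K] [IsAlgClosed K] [Algebra F K] {n : ℕ}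
  {R : Matrix (Fin n) (Fin n) K →ₗ[K] Matrix (Fin n) (Fin n) K} (hR : SRB R) {w m : ℕ}
  {Φ : Frame F R w}

include hR

/-- One block of size `m`. -/
theorem x_mu1 (hm : 2 ≤ m) {q : ℕ} {y g h : Fin 1 → (Fin n → K)} {c : Fin 1 → F}
    {u t : Fin q → (Fin n → K)} {d : Fin q → F} (D : S2 Φ (R 1) m y g h c u t d) :
    R ^ (2 * m - 1) = 0 := by
  obtain ⟨z, hz⟩ := IsAlgClosed.exists_pow_nat_eq (algebraMap F K (c 0)) (n := 2) (by norm_num)
  have hz0 : z ≠ 0 := by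
    rintro rfl
    apply D.cK 0
    rw [← hz]
    ring
  have hy0 : y 0 ≠ 0 := by
    intro h1
    have h2 := D.hy 0 0
    rw [h1, dotProduct_zero, if_pos rfl] at h2
    exact zero_ne_one h2
  refine mu1 hR hm D.am (v := z • y 0) (smul_ne_zero hz0 hy0) ?_
  rw [D.e, Fin.sum_univ_one, smul_vecMulVec, vecMulVec_smul, smul_smul, ← pow_two, hz]

/-- Blocks `(m, ≤ m-2, ...)`. -/
theorem x_b0 (hm : 3 ≤ m) {y g h : Fin 1 → (Fin n → K)} {c : Fin 1 → F}
    {u t : Fin 0 → (Fin n → K)} {d : Fin 0 → F} (D : S2 Φ (R 1) m y g h c u t d) : False := by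
  obtain ⟨z, hz⟩ := IsAlgClosed.exists_pow_nat_eq (algebraMap F K (c 0)) (n := 2) (by norm_num)
  have hz0 : z ≠ 0 := by
    rintro rfl
    apply D.cK 0
    rw [← hz]
    ring
  have hy0 : y 0 ≠ 0 := by
    intro h1
    have h2 := D.hy 0 0
    rw [h1, dotProduct_zero, if_pos rfl] at h2
    exact zero_ne_one h2
  refine b0_false hR hm D.am (v := z • y 0) (v1 := z⁻¹ • g 0) (smul_ne_zero hz0 hy0) ?_ ?_
  · rw [D.e, Fin.sum_univ_one, smul_vecMulVec, vecMulVec_smul, smul_smul, ← pow_two, hz]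
  · rw [D.b, Fin.sum_univ_one, Finset.univ_eq_empty, Finset.sum_empty, add_zero, smul_vecMulVec,
      vecMulVec_smul, smul_smul, smul_vecMulVec, vecMulVec_smul, smul_smul, mul_inv_cancel₀ hz0,
      inv_mul_cancel₀ hz0, one_smul, one_smul]

/-- Blocks `(m, m-1, ...)` with Witt index `m - 1`, `m ≥ 4`. -/
theorem x_b4 {Φ : Frame F R (m - 1)} (hm : 4 ≤ m) {y g h : Fin 1 → (Fin n → K)} {c : Fin 1 → F}
    {u t : Fin 1 → (Fin n → K)} {d : Fin 1 → F} (D : S2 Φ (R 1) m y g h c u t d) : False := by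
  obtain ⟨z, hz⟩ := IsAlgClosed.exists_pow_nat_eq (algebraMap F K (c 0)) (n := 2) (by norm_num)
  obtain ⟨s, hs⟩ := IsAlgClosed.exists_pow_nat_eq (algebraMap F K (d 0)) (n := 2) (by norm_num)
  have hz0 : z ≠ 0 := by
    rintro rfl
    apply D.cK 0
    rw [← hz]
    ring
  have hs0 : s ≠ 0 := by
    rintro rfl
    apply D.dK 0
    rw [← hs]
    ring
  obtain ⟨k, hk⟩ := D.bh 0
  rw [Fin.sum_univ_one] at hk
  have hb := D.b
  rw [Fin.sum_univ_one, Fin.sum_univ_one] at hb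
  have hy := D.hy 0 0
  have tu := D.tu 0 0
  rw [if_pos rfl] at hy tu
  obtain ⟨X, U, hU, h3⟩ := exists_b3 Φ D.tr Φ.R_one hm D.am (D.yV 0) (D.gV 0) (D.hV 0) (D.uV 0)
    (D.tV 0) (D.hc 0) (D.hd 0) hb (D.ay 0) (D.ag 0) (D.au 0) hy (D.hu 0 0) (D.ty 0 0) tu (D.eh 0)
    (D.bt 0) hk
  have hzz : z⁻¹ * algebraMap F K (c 0) = z := by
    rw [← hz]
    field_simp
  have hss : s⁻¹ * algebraMap F K (d 0) = s := by
    rw [← hs]
    field_simp
  have D' : BBr (R 1) m (z • y 0) (z⁻¹ • g 0) (z⁻¹ • X) (s • u 0) (s⁻¹ • U) (z⁻¹ • h 0)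
      (s⁻¹ • t 0) := by
    refine ⟨hm, D.tr, D.am, ?_, ?_, ?_, ?_, ?_, ?_, ?_, ?_, ?_, ?_, ?_⟩
    · rw [D.e, Fin.sum_univ_one, smul_vecMulVec, vecMulVec_smul, smul_smul, ← pow_two, hz]
    · rw [hb, smul_vecMulVec, vecMulVec_smul, smul_smul, smul_vecMulVec, vecMulVec_smul,
        smul_smul, smul_vecMulVec, vecMulVec_smul, smul_smul, mul_inv_cancel₀ hz0,
        inv_mul_cancel₀ hz0, one_smul, one_smul, ← pow_two, hs]
    · rw [h3]
      simp only [smul_vecMulVec, vecMulVec_smul, smul_smul]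
      rw [mul_inv_cancel₀ hz0, inv_mul_cancel₀ hz0, mul_inv_cancel₀ hs0, inv_mul_cancel₀ hs0,
        one_smul, one_smul, one_smul, one_smul]
      have h5 : z⁻¹ * z⁻¹ = (algebraMap F K (c 0))⁻¹ := by
        rw [← hz, pow_two, mul_inv]
      rw [h5]
    · rw [mulVec_smul, D.ay, smul_zero]
    · rw [mulVec_smul, D.au, smul_zero]
    · rw [mulVec_smul, D.ag, smul_smul, hzz]
    · rw [mulVec_smul, hU, smul_smul, hss]
    · rw [smul_dotProduct, dotProduct_smul, hy, smul_eq_mul, smul_eq_mul, mul_one,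
        inv_mul_cancel₀ hz0]
    · rw [smul_dotProduct, dotProduct_smul, D.hu, smul_zero, smul_zero]
    · rw [smul_dotProduct, dotProduct_smul, D.ty, smul_zero, smul_zero]
    · rw [smul_dotProduct, dotProduct_smul, tu, smul_eq_mul, smul_eq_mul, mul_one,
        inv_mul_cancel₀ hs0]
  refine b4_false hR Φ D' (κ := z⁻¹) (lam := s⁻¹) (μ := s) (ν := z) (inv_ne_zero hz0)
    (inv_ne_zero hs0) hs0 hz0 ?_ ?_ ?_ ?_
  · rw [smul_smul, inv_mul_cancel₀ hz0, one_smul]
    exact D.yV 0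
  · rw [smul_smul, inv_mul_cancel₀ hs0, one_smul]
    exact D.uV 0
  · rw [smul_smul, mul_inv_cancel₀ hs0, one_smul]
    exact D.tV 0
  · rw [smul_smul, mul_inv_cancel₀ hz0, one_smul]
    exact D.hV 0

/-- Blocks `(3, 2, ...)` with Witt index two. -/
theorem x_c3 {Φ : Frame F R 2} {y g h : Fin 1 → (Fin n → K)} {c : Fin 1 → F}
    {u t : Fin 1 → (Fin n → K)} {d : Fin 1 → F} (D : S2 Φ (R 1) 3 y g h c u t d) : False := by
  obtain ⟨z, hz⟩ := IsAlgClosed.exists_pow_nat_eq (algebraMap F K (c 0)) (n := 2) (by norm_num)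
  obtain ⟨s, hs⟩ := IsAlgClosed.exists_pow_nat_eq (algebraMap F K (d 0)) (n := 2) (by norm_num)
  have hz0 : z ≠ 0 := by
    rintro rfl
    apply D.cK 0
    rw [← hz]
    ring
  have hs0 : s ≠ 0 := by
    rintro rfl
    apply D.dK 0
    rw [← hs]
    ring
  have hb := D.b
  rw [Fin.sum_univ_one, Fin.sum_univ_one] at hb
  have hy := D.hy 0 0
  have tu := D.tu 0 0
  rw [if_pos rfl] at hy tu
  have hzz : z⁻¹ * algebraMap F K (c 0) = z := by
    rw [← hz]
    field_simp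
  have D' : BData (R 1) 3 (z • y 0) (z⁻¹ • g 0) (s • u 0) (z⁻¹ • h 0) (s⁻¹ • t 0) := by
    refine ⟨le_refl _, D.tr, D.am, ?_, ?_, ?_, ?_, ?_, ?_, ?_, ?_, ?_⟩
    · rw [D.e, Fin.sum_univ_one, smul_vecMulVec, vecMulVec_smul, smul_smul, ← pow_two, hz]
    · rw [hb, smul_vecMulVec, vecMulVec_smul, smul_smul, smul_vecMulVec, vecMulVec_smul,
        smul_smul, smul_vecMulVec, vecMulVec_smul, smul_smul, mul_inv_cancel₀ hz0,
        inv_mul_cancel₀ hz0, one_smul, one_smul, ← pow_two, hs]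
    · rw [mulVec_smul, D.ay, smul_zero]
    · rw [mulVec_smul, D.au, smul_zero]
    · rw [mulVec_smul, D.ag, smul_smul, hzz]
    · rw [smul_dotProduct, dotProduct_smul, hy, smul_eq_mul, smul_eq_mul, mul_one,
        inv_mul_cancel₀ hz0]
    · rw [smul_dotProduct, dotProduct_smul, D.hu, smul_zero, smul_zero]
    · rw [smul_dotProduct, dotProduct_smul, D.ty, smul_zero, smul_zero]
    · rw [smul_dotProduct, dotProduct_smul, tu, smul_eq_mul, smul_eq_mul, mul_one,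
        inv_mul_cancel₀ hs0]
  refine c3_false hR Φ D' (κ := z⁻¹) (lam := s⁻¹) (μ := s) (inv_ne_zero hz0)
    (inv_ne_zero hs0) hs0 ?_ ?_ ?_ ?_
  · rw [smul_smul, inv_mul_cancel₀ hz0, one_smul]
    exact D.yV 0
  · rw [smul_smul, ← mul_inv, ← pow_two, hz]
    exact Φ.smulK (D.gV 0) ⟨(c 0)⁻¹, (map_inv₀ _ _).symm⟩
  · rw [smul_smul, inv_mul_cancel₀ hs0, one_smul]
    exact D.uV 0
  · rw [smul_smul, mul_inv_cancel₀ hs0, one_smul]
    exact D.tV 0

/-- Blocks `(m, m, ...)` with Witt index `m`. -/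
theorem x_a {Φ : Frame F R m} (hm : 3 ≤ m) {y g h : Fin 2 → (Fin n → K)} {c : Fin 2 → F}
    {u t : Fin 0 → (Fin n → K)} {d : Fin 0 → F} (D : S2 Φ (R 1) m y g h c u t d) :
    R ^ (2 * m - 1) = 0 := by
  obtain ⟨z0, hz0⟩ := IsAlgClosed.exists_pow_nat_eq (algebraMap F K (c 0)) (n := 2) (by norm_num)
  obtain ⟨z1, hz1⟩ := IsAlgClosed.exists_pow_nat_eq (algebraMap F K (c 1)) (n := 2) (by norm_num)
  obtain ⟨i, hi⟩ := IsAlgClosed.exists_pow_nat_eq (-1 : K) (n := 2) (by norm_num)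
  have hz0' : z0 ≠ 0 := by
    rintro rfl
    apply D.cK 0
    rw [← hz0]
    ring
  have hz1' : z1 ≠ 0 := by
    rintro rfl
    apply D.cK 1
    rw [← hz1]
    ring
  have hi0 : i ≠ 0 := by
    rintro rfl
    norm_num at hi
  have hb := D.b
  rw [Fin.sum_univ_two, Finset.univ_eq_empty, Finset.sum_empty, add_zero] at hb
  have he := D.e
  rw [Fin.sum_univ_two] at he
  have h00 : h 0 ⬝ᵥ y 0 = 1 := by rw [D.hy, if_pos rfl]
  have h01 : h 0 ⬝ᵥ y 1 = 0 := by rw [D.hy]; simp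
  have h10 : h 1 ⬝ᵥ y 0 = 0 := by rw [D.hy]; simp
  have h11 : h 1 ⬝ᵥ y 1 = 1 := by rw [D.hy, if_pos rfl]
  have hzz0 : z0⁻¹ * algebraMap F K (c 0) = z0 := by
    rw [← hz0]
    field_simp
  have hzz1 : z1⁻¹ * algebraMap F K (c 1) = z1 := by
    rw [← hz1]
    field_simp
  have hA : z0⁻¹ * z0 = 1 := inv_mul_cancel₀ hz0'
  have hB : z1⁻¹ * z1 = 1 := inv_mul_cancel₀ hz1'
  have D' : XN.AD (R 1) m (z0 • y 0 + (i * z1) • y 1) ((2⁻¹ : K) • (z0 • y 0 - (i * z1) • y 1))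
      (z0⁻¹ • g 0 + (i * z1⁻¹) • g 1) ((2⁻¹ : K) • (z0⁻¹ • g 0 - (i * z1⁻¹) • g 1))
      ((2⁻¹ : K) • (z0⁻¹ • h 0 - (i * z1⁻¹) • h 1)) (z0⁻¹ • h 0 + (i * z1⁻¹) • h 1) := by
    refine ⟨hm, D.tr, D.am, ?_, ?_, ?_, ?_, ?_, ?_, ?_, ?_, ?_, ?_⟩
    · rw [he, ← hz0, ← hz1]
      ext p q
      simp only [Matrix.add_apply, Matrix.smul_apply, vecMulVec_apply, Pi.add_apply,
        Pi.sub_apply, Pi.smul_apply, smul_eq_mul]
      linear_combination (z1 ^ 2 * (y 1 p * y 1 q)) * hi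
    · rw [hb]
      ext p q
      simp only [Matrix.add_apply, vecMulVec_apply, Pi.add_apply,
        Pi.sub_apply, Pi.smul_apply, smul_eq_mul]
      linear_combination (-(y 0 p * g 0 q + g 0 p * y 0 q)) * hA +
        ((y 1 p * g 1 q + g 1 p * y 1 q) * i ^ 2) * hB + (y 1 p * g 1 q + g 1 p * y 1 q) * hi
    · rw [mulVec_add, mulVec_smul, mulVec_smul, D.ay, D.ay]
      simp
    · rw [mulVec_smul, mulVec_sub, mulVec_smul, mulVec_smul, D.ay, D.ay]
      simp
    · rw [mulVec_add, mulVec_smul, mulVec_smul, D.ag, D.ag, smul_smul, smul_smul, hzz0,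
        mul_assoc, hzz1]
    · rw [mulVec_smul, mulVec_sub, mulVec_smul, mulVec_smul, D.ag, D.ag, smul_smul, smul_smul,
        hzz0, mul_assoc, hzz1]
    · simp only [smul_dotProduct, sub_dotProduct, dotProduct_add, dotProduct_smul, h00, h01, h10,
        h11, smul_eq_mul]
      linear_combination (2⁻¹ : K) * hA - 2⁻¹ * i ^ 2 * hB - 2⁻¹ * hi
    · simp only [smul_dotProduct, sub_dotProduct, dotProduct_sub, dotProduct_smul, h00, h01, h10,
        h11, smul_eq_mul]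
      linear_combination (4⁻¹ : K) * hA + 4⁻¹ * i ^ 2 * hB + 4⁻¹ * hi
    · simp only [smul_dotProduct, add_dotProduct, dotProduct_add, dotProduct_smul, h00, h01, h10,
        h11, smul_eq_mul]
      linear_combination hA + i ^ 2 * hB + hi
    · simp only [smul_dotProduct, add_dotProduct, dotProduct_sub, dotProduct_smul, h00, h01, h10,
        h11, smul_eq_mul]
      linear_combination (2⁻¹ : K) * hA - 2⁻¹ * i ^ 2 * hB - 2⁻¹ * hi
  refine XN.a_zero hR Φ D' (D.yV 0) (D.yV 1) (α1 := (2 * z0)⁻¹) (β1 := z0⁻¹)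
    (α2 := (2 * (i * z1))⁻¹) (β2 := -(i * z1)⁻¹) ?_ ?_ ?_
  · ext p
    simp only [Pi.add_apply, Pi.sub_apply, Pi.smul_apply, smul_eq_mul]
    field_simp
    ring
  · ext p
    simp only [Pi.add_apply, Pi.sub_apply, Pi.smul_apply, smul_eq_mul]
    field_simp
    ring
  · have h5 : (2 * z0)⁻¹ * -(i * z1)⁻¹ - (2 * (i * z1))⁻¹ * z0⁻¹ = -(z0 * (i * z1))⁻¹ := by
      field_simp
      ring
    rw [h5]
    exact neg_ne_zero.2 (inv_ne_zero (mul_ne_zero hz0' (mul_ne_zero hi0 hz1')))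

omit [IsAlgClosed K] in
/-- Blocks `(3, 3, 2, ...)` with Witt index three. -/
theorem x_d {Φ : Frame F R 3} {y g h : Fin 2 → (Fin n → K)} {c : Fin 2 → F}
    {u t : Fin 1 → (Fin n → K)} {d : Fin 1 → F} (D : S2 Φ (R 1) 3 y g h c u t d) : False := by
  have hb := D.b
  rw [Fin.sum_univ_two, Fin.sum_univ_one] at hb
  have he := D.e
  rw [Fin.sum_univ_two] at he
  have e1 : (R 1) ^ (3 - 2) = R 1 := pow_one _
  have e2 : (R 1) ^ (3 - 1) = R 1 * R 1 := pow_two _
  rw [e1] at hb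
  rw [e2] at he
  have hsm : ∀ (c : F) (X : Matrix (Fin n) (Fin n) K), c • X = algebraMap F K c • X := fun c X =>
    (algebraMap_smul K c X).symm
  have hc0 := D.cK 0
  have hc1 := D.cK 1
  refine d332_false hR Φ (c1 := c 0) (c2 := c 1) (c := d 0) (f1 := y 0) (f2 := y 1)
    (g1 := (algebraMap F K (c 0))⁻¹ • g 0) (g2 := (algebraMap F K (c 1))⁻¹ • g 1) (u := u 0)
    ⟨D.hc 0, D.hc 1, D.hd 0, D.yV 0, D.yV 1, Φ.smulK (D.gV 0) ⟨(c 0)⁻¹, (map_inv₀ _ _).symm⟩,
      Φ.smulK (D.gV 1) ⟨(c 1)⁻¹, (map_inv₀ _ _).symm⟩, D.uV 0, ?_, ?_, ?_, D.ay 0, D.ay 1,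
      D.au 0, ?_, ?_⟩
  · refine indep_of_dual (h := ![h 0, h 1, t 0]) ?_ ?_
    · intro i j hij
      fin_cases i <;> fin_cases j
      · exact absurd rfl hij
      · change h 0 ⬝ᵥ y 1 = 0
        rw [D.hy]; simp
      · exact D.hu 0 0
      · change h 1 ⬝ᵥ y 0 = 0
        rw [D.hy]; simp
      · exact absurd rfl hij
      · exact D.hu 1 0
      · exact D.ty 0 0
      · exact D.ty 0 1
      · exact absurd rfl hij
    · intro i
      fin_cases i
      · change h 0 ⬝ᵥ y 0 ≠ 0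
        rw [D.hy, if_pos rfl]
        exact one_ne_zero
      · change h 1 ⬝ᵥ y 1 ≠ 0
        rw [D.hy, if_pos rfl]
        exact one_ne_zero
      · change t 0 ⬝ᵥ u 0 ≠ 0
        rw [D.tu, if_pos rfl]
        exact one_ne_zero
  · rw [hb, hsm, hsm, hsm, vecMulVec_smul, smul_vecMulVec, vecMulVec_smul, smul_vecMulVec,
      ← smul_add, ← smul_add, smul_smul, smul_smul, mul_inv_cancel₀ hc0, mul_inv_cancel₀ hc1,
      one_smul, one_smul]
  · rw [he, hsm, hsm]
  · rw [mulVec_smul, D.ag, smul_smul, inv_mul_cancel₀ hc0, one_smul]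
  · rw [mulVec_smul, D.ag, smul_smul, inv_mul_cancel₀ hc1, one_smul]

omit [IsAlgClosed K] in
/-- Blocks `(3, 3, 3, ...)` with Witt index three. -/
theorem x_e {Φ : Frame F R 3} {y g h : Fin 3 → (Fin n → K)} {c : Fin 3 → F}
    {u t : Fin 0 → (Fin n → K)} {d : Fin 0 → F} (D : S2 Φ (R 1) 3 y g h c u t d) : False := by
  have hb := D.b
  rw [Finset.univ_eq_empty (α := Fin 0), Finset.sum_empty, add_zero] at hb
  have he := D.e
  have e1 : (R 1) ^ (3 - 2) = R 1 := pow_one _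
  have e2 : (R 1) ^ (3 - 1) = R 1 * R 1 := pow_two _
  rw [e1] at hb
  rw [e2] at he
  have hsm : ∀ (c : F) (X : Matrix (Fin n) (Fin n) K), c • X = algebraMap F K c • X := fun c X =>
    (algebraMap_smul K c X).symm
  refine e333_false hR Φ (c := c) (f := y)
    (g := fun i => (algebraMap F K (c i))⁻¹ • g i)
    ⟨D.hc, D.yV, fun i => Φ.smulK (D.gV i) ⟨(c i)⁻¹, (map_inv₀ _ _).symm⟩, ?_, ?_, ?_, D.ay, ?_⟩
  · refine indep_of_dual (h := h) ?_ ?_
    · intro i j hij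
      rw [D.hy, if_neg hij]
    · intro i
      rw [D.hy, if_pos rfl]
      exact one_ne_zero
  · rw [hb]
    refine Finset.sum_congr rfl fun i _ => ?_
    rw [hsm, vecMulVec_smul, smul_vecMulVec, ← smul_add, smul_smul, mul_inv_cancel₀ (D.cK i),
      one_smul]
  · rw [he]
    refine Finset.sum_congr rfl fun i _ => ?_
    rw [hsm]
  · intro i
    rw [mulVec_smul, D.ag, smul_smul, inv_mul_cancel₀ (D.cK i), one_smul]

omit [IsAlgClosed K] hR in
theorem x_m2 {Φ : Frame F R w} {q : ℕ} {y g h : Fin 2 → (Fin n → K)} {c : Fin 2 → F}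
    {u t : Fin q → (Fin n → K)} {d : Fin q → F} (D : S2 Φ (R 1) 2 y g h c u t d) :
    M2 F Φ (c 0) (c 1) (y 0) (y 1) := by
  have he := D.e
  rw [Fin.sum_univ_two] at he
  have e1 : (R 1) ^ (2 - 1) = R 1 := pow_one _
  rw [e1] at he
  have hsm : ∀ (c : F) (X : Matrix (Fin n) (Fin n) K), c • X = algebraMap F K c • X := fun c X =>
    (algebraMap_smul K c X).symm
  refine ⟨D.hc 0, D.hc 1, D.yV 0, D.yV 1, ?_, ?_, ?_⟩
  · refine indep_of_dual (h := ![h 0, h 1]) ?_ ?_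
    · intro i j hij
      fin_cases i <;> fin_cases j
      · exact absurd rfl hij
      · change h 0 ⬝ᵥ y 1 = 0
        rw [D.hy]; simp
      · change h 1 ⬝ᵥ y 0 = 0
        rw [D.hy]; simp
      · exact absurd rfl hij
    · intro i
      fin_cases i
      · change h 0 ⬝ᵥ y 0 ≠ 0
        rw [D.hy, if_pos rfl]
        exact one_ne_zero
      · change h 1 ⬝ᵥ y 1 ≠ 0
        rw [D.hy, if_pos rfl]
        exact one_ne_zero
  · rw [he, hsm, hsm]
  · have h2 := D.am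
    rwa [pow_two] at h2

/-- The upper bound over a frame. -/
theorem frame_main (Φ : Frame F R w) (hw : 2 ≤ w) (hn : n ≠ 0) (hw0 : (R 1) ^ (w + 1) = 0)
    (hmin : (R 1) ^ w ≠ 0 → ∀ z ∈ Φ.M, (R 1) ^ w * z ≠ 0 → ∃ z', (R 1) ^ w * z * z' = (R 1) ^ w)
    (hG : ∀ (c1 c2 : F) (f1 f2 : Fin n → K), w = 2 → M2 F Φ c1 c2 f1 f2 →
      (∀ x, R 1 * R x * R 1 = 0) → R ^ 3 = 0) : R ^ (2 * w - 1) = 0 := by
  have : Nonempty (Fin n) := ⟨⟨0, by omega⟩⟩
  obtain ⟨m, hm0, h0, h1⟩ := exists_index hR.rb.nilpotent_one one_ne_zero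
  have hmw : m ≤ w + 1 := by
    by_contra hcon
    exact h1 (pow_eq_zero_of_le (by omega) hw0)
  rcases Nat.lt_or_ge m w with hlt | hge
  · exact pow_zero_of_le hR.rb h0 (by omega)
  have hm2 : 2 ≤ m := by omega
  obtain ⟨r, q, y, g, h, c, u, t, d, D⟩ := exists_S2 Φ (hR.tr 1) Φ.R_one hm2 h0
  have hcount := D.count Φ.R_one hm2
  have hr0 : 1 ≤ r := by
    by_contra hcon
    have hr : r = 0 := by omega
    subst hr
    apply h1
    rw [D.e, Finset.univ_eq_empty, Finset.sum_empty]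
  rcases Nat.eq_or_lt_of_le hge with hmeq | hgt
  · -- `m = w`
    subst hmeq
    rcases Nat.eq_or_lt_of_le hr0 with hr1 | hr2
    · subst hr1
      exact x_mu1 hR hm2 D
    have hr3 : r ≤ 3 := by
      by_contra hcon
      have h2 : 4 * (w / 2) ≤ r * (w / 2) := Nat.mul_le_mul_right _ (by omega)
      omega
    rcases Nat.eq_or_lt_of_le (show 2 ≤ r from hr2) with hr | hr
    · subst hr
      rcases Nat.eq_or_lt_of_le hw with hw2 | hw3
      · subst hw2
        by_cases hT : ∀ x, R 1 * R x * R 1 = 0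
        · exact hG _ _ _ _ rfl (x_m2 D) hT
        · push Not at hT
          exact f2_zero hR Φ (x_m2 D) hT
      · rcases Nat.eq_zero_or_pos q with hq | hq
        · subst hq
          exact x_a hR (by omega) D
        · have h3 : 1 * ((w - 1) / 2) ≤ q * ((w - 1) / 2) := Nat.mul_le_mul_right _ hq
          have hw33 : w = 3 := by omega
          subst hw33
          have hq1 : q = 1 := by omega
          subst hq1
          exact (x_d hR D).elim
    · have hr' : r = 3 := by omega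
      subst hr'
      have hw33 : w = 3 := by omega
      subst hw33
      have hq0 : q = 0 := by omega
      subst hq0
      exact (x_e hR D).elim
  · -- `m = w + 1`
    have hm : m = w + 1 := by omega
    subst hm
    exfalso
    have hr1 : r = 1 := by
      by_contra hr
      obtain ⟨i0, hi0⟩ : ∃ i0 : Fin r, i0 = ⟨0, by omega⟩ := ⟨_, rfl⟩
      obtain ⟨i1, hi1⟩ : ∃ i1 : Fin r, i1 = ⟨1, by omega⟩ := ⟨_, rfl⟩
      have hne : i1 ≠ i0 := by
        rw [hi0, hi1]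
        intro h5
        exact absurd (congrArg Fin.val h5) (by norm_num)
      have h2 : (R 1) ^ w * vecMulVec (h i0) (h i0) =
          vecMulVec (algebraMap F K (c i0) • y i0) (h i0) := by
        rw [mul_vecMulVec]
        congr 1
        exact D.eh i0
      obtain ⟨z', hz'⟩ := hmin h1 _ (Φ.vmv _ (D.hV i0) _ (D.hV i0)) (by
        rw [h2]
        intro h3
        have h4 := congrArg (fun M => h i0 ⬝ᵥ (M *ᵥ y i0)) h3
        simp only [vmv_mulVec, zero_mulVec, dotProduct_zero, dotProduct_smul, D.hy, if_pos,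
          smul_eq_mul, mul_one] at h4
        exact D.cK i0 (by simpa using h4))
      rw [h2] at hz'
      have h3 := congrArg (fun M => h i1 ⬝ᵥ (M *ᵥ h i1)) hz'
      have h4 : (R 1) ^ w *ᵥ h i1 = algebraMap F K (c i1) • y i1 := D.eh i1
      rw [← mulVec_mulVec] at h3
      simp only [h4, vmv_mulVec, dotProduct_smul, D.hy, if_neg hne, smul_eq_mul, mul_zero] at h3
      exact D.cK i1 (by simpa using h3.symm)
    subst hr1
    have hq : q ≤ 1 := by
      by_contra hcon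
      have h2 : 2 * ((w + 1 - 1) / 2) ≤ q * ((w + 1 - 1) / 2) := Nat.mul_le_mul_right _ (by omega)
      omega
    interval_cases q
    · exact x_b0 hR (by omega) D
    · rcases Nat.eq_or_lt_of_le hw with hw2 | hw3
      · subst hw2
        exact x_c3 hR D
      · exact x_b4 hR (m := w + 1) (Φ := Φ) (by omega) D

end

end Pool.Agent.MP_f4742e_al
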