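import Pool.Agent.Lib.MP_f4742e_al.X.D3B
import Pool.Agent.Lib.MP_f4742e_al.G.Full

/-!
The type `(3, 3, 2, 1, ..., 1)` with Witt index three: `e (R x) e` of rank one.
-/

set_option autoImplicit false
set_option linter.unusedSectionVars false
set_option linter.unusedSimpArgs false

namespace Pool.Agent.MP_f4742e_al

open Matrix

namespace D3

variable {F K : Type*} [Field F] [Field K] [CharZero K] [Algebra F K] {n : ℕ}
  {R : Matrix (Fin n) (Fin n) K →ₗ[K] Matrix (Fin n) (Fin n) K} (hR : SRB R) {Φ : Frame F R 3}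
  {k1 k2 k : K} {f1 f2 g1 g2 u h1 h2 u0 : Fin n → K}
  (D : D3 F Φ k1 k2 k f1 f2 g1 g2 u h1 h2 u0)

include D hR

theorem A_core (t12 : ∀ x, f1 ⬝ᵥ (R x *ᵥ f2) = 0) (t22 : ∀ x, f2 ⬝ᵥ (R x *ᵥ f2) = 0)
    (t11 : ∃ x, f1 ⬝ᵥ (R x *ᵥ f1) ≠ 0) : False := by
  have t21 : ∀ x, f2 ⬝ᵥ (R x *ᵥ f1) = 0 := fun x => by rw [trsym hR, t12]
  have m2 := D.sf_mem hR D.f2V t12 t22 t22
  have c1 : ∀ {a b : Fin n → K}, a ⬝ᵥ b = b ⬝ᵥ a := fun {a b} => dotProduct_comm a b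
  have as2 : ∀ x, R 1 *ᵥ (R x *ᵥ f2) = 0 := by
    intro x
    rw [m2 x, mulVec_add, mulVec_add, mulVec_smul, mulVec_smul, mulVec_smul, D.af1, D.af2, D.au]
    simp
  have fh11 : f1 ⬝ᵥ h1 = 1 := by rw [c1, D.h11]
  have fh12 : f1 ⬝ᵥ h2 = 0 := by rw [c1, D.h21]
  have fh21 : f2 ⬝ᵥ h1 = 0 := by rw [c1, D.h12]
  have fh22 : f2 ⬝ᵥ h2 = 1 := by rw [c1, D.h22]
  have f1n : f1 ≠ 0 := by
    intro h
    have h' := D.h11
    rw [h, dotProduct_zero] at h'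
    exact zero_ne_one h'
  -- the images
  obtain ⟨P, hP⟩ : ∃ P : (Fin n → K) →ₗ[K] (Fin n → K) →ₗ[K] Matrix (Fin n) (Fin n) K,
      P = Bf R := ⟨_, rfl⟩
  have hPR : ∀ v w, R (vecMulVec v w) = P v w := fun v w => by rw [hP]; rfl
  have Pc : ∀ v w, P v w = P w v := fun v w => by rw [hP]; exact Bf_comm hR v w
  have eh1 : (R 1 * R 1) *ᵥ h1 = k1 • f1 := by
    rw [D.ew, fh11, fh21]
    simp
  have eh2 : (R 1 * R 1) *ᵥ h2 = k2 • f2 := by
    rw [D.ew, fh12, fh22]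
    simp
  have ete : ∀ v w : Fin n → K, R 1 * R 1 * vecMulVec v w * (R 1 * R 1) =
      vecMulVec ((R 1 * R 1) *ᵥ v) ((R 1 * R 1) *ᵥ w) := by
    intro v w
    rw [mul_vecMulVec, vmv_mul (by rw [transpose_mul, hR.tr])]
  have eRe : ∀ x, R 1 * R 1 * R x * (R 1 * R 1) =
      (k1 * k1 * (f1 ⬝ᵥ (R x *ᵥ f1))) • vecMulVec f1 f1 := by
    intro x
    rw [D.e, Matrix.add_mul, Matrix.add_mul, Matrix.smul_mul, Matrix.smul_mul, Matrix.smul_mul,
      Matrix.smul_mul, Matrix.mul_add, Matrix.mul_add, Matrix.mul_smul, Matrix.mul_smul,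
      Matrix.mul_smul, Matrix.mul_smul, vmv_mul (hR.tr x), vmv_mul (hR.tr x),
      vecMulVec_mul_vecMulVec, vecMulVec_mul_vecMulVec, vecMulVec_mul_vecMulVec,
      vecMulVec_mul_vecMulVec, c1 (a := R x *ᵥ f1) (b := f1), c1 (a := R x *ᵥ f1) (b := f2),
      t21, c1 (a := R x *ᵥ f2) (b := f1), t12, c1 (a := R x *ᵥ f2) (b := f2), t22]
    ext i j
    simp [vecMulVec_apply]
    ring
  have hPe : ∀ (i j : Fin n → K) (x : Matrix (Fin n) (Fin n) K) (c : K), c ≠ 0 →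
      R 1 * R 1 * x * (R 1 * R 1) = c • vecMulVec i j →
      P i j = (c⁻¹ * (k1 * k1 * (f1 ⬝ᵥ (R x *ᵥ f1)))) • vecMulVec f1 f1 := by
    intro i j x c hc h
    have h2 := D.Rexe hR x
    rw [h, eRe, map_smul, hPR] at h2
    rw [mul_smul, ← h2, smul_smul, inv_mul_cancel₀ hc, one_smul]
  have P11' := hPe f1 f1 (vecMulVec h1 h1) (k1 * k1) (mul_ne_zero D.k1n D.k1n) (by
    rw [ete, eh1, smul_vecMulVec, vecMulVec_smul, smul_smul])
  have P12' := hPe f1 f2 (vecMulVec h1 h2) (k1 * k2) (mul_ne_zero D.k1n D.k2n) (by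
    rw [ete, eh1, eh2, smul_vecMulVec, vecMulVec_smul, smul_smul])
  obtain ⟨c11, hc11⟩ : ∃ c, c = ((k1 * k1)⁻¹ * (k1 * k1 * (f1 ⬝ᵥ (R (vecMulVec h1 h1) *ᵥ f1)))) :=
    ⟨_, rfl⟩
  obtain ⟨l, hl⟩ : ∃ c, c = ((k1 * k2)⁻¹ * (k1 * k1 * (f1 ⬝ᵥ (R (vecMulVec h1 h2) *ᵥ f1)))) :=
    ⟨_, rfl⟩
  rw [← hc11] at P11'
  rw [← hl] at P12'
  have hff : ∀ c : K, c • vecMulVec f1 f1 = 0 → c = 0 := by
    intro c h
    have h2 := congrArg (fun M => h1 ⬝ᵥ (M *ᵥ h1)) h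
    simp only [smul_mulVec, dotProduct_smul, vmv_mulVec, fh11, D.h11, zero_mulVec,
      dotProduct_zero, smul_eq_mul, mul_one] at h2
    exact h2
  have P11 : P f1 f1 = 0 := by
    have h := hR.rb 1 (vecMulVec f1 f1)
    have h2 : jp (R 1) (vecMulVec f1 f1) = 0 := by
      unfold jp
      rw [mul_vecMulVec, vmv_mul (hR.tr 1), D.af1]
      ext i j
      simp [vecMulVec_apply]
    rw [hPR, P11', h2, zero_add] at h
    have h3 : jp (R 1) (c11 • vecMulVec f1 f1) = 0 := by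
      have : jp (R 1) (c11 • vecMulVec f1 f1) = c11 • jp (R 1) (vecMulVec f1 f1) := by
        unfold jp
        rw [Matrix.mul_smul, Matrix.smul_mul, smul_add]
      rw [this, h2, smul_zero]
    have h4 : jp 1 (c11 • vecMulVec f1 f1) = (2 * c11) • vecMulVec f1 f1 := by
      unfold jp
      rw [Matrix.one_mul, Matrix.mul_one]
      module
    rw [h3, h4, map_smul, hPR, P11', smul_smul] at h
    have h5 := hff _ h.symm
    have h6 : c11 = 0 := by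
      rw [mul_assoc] at h5
      exact mul_self_eq_zero.1 ((mul_eq_zero.1 h5).resolve_left two_ne_zero)
    rw [P11', h6, zero_smul]
  have P22 : P f2 f2 = 0 := by
    have h := D.Re hR
    rw [D.e, map_add, map_smul, map_smul, hPR, hPR, P11, smul_zero, zero_add] at h
    exact (smul_eq_zero.1 h).resolve_left D.k2n
  have P12 : P f1 f2 = l • vecMulVec f1 f1 := P12'
  have P21 : P f2 f1 = l • vecMulVec f1 f1 := by rw [Pc, P12]
  -- the functional `f1 ⬝ R x f1`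
  obtain ⟨lam, hlam⟩ : ∃ lam, lam = k2 * l * k1⁻¹ := ⟨_, rfl⟩
  have hfx : ∀ x, f1 ⬝ᵥ (R x *ᵥ f1) = lam * (f1 ⬝ᵥ (x *ᵥ f2) + f2 ⬝ᵥ (x *ᵥ f1)) := by
    intro x
    have h := D.Rexe hR x
    rw [eRe, D.e] at h
    have h2 : (k1 • vecMulVec f1 f1 + k2 • vecMulVec f2 f2) * x *
        (k1 • vecMulVec f1 f1 + k2 • vecMulVec f2 f2) =
        (k1 * k1 * (f1 ⬝ᵥ (x *ᵥ f1))) • vecMulVec f1 f1 +
        (k1 * k2 * (f1 ⬝ᵥ (x *ᵥ f2))) • vecMulVec f1 f2 +
        (k2 * k1 * (f2 ⬝ᵥ (x *ᵥ f1))) • vecMulVec f2 f1 +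
        (k2 * k2 * (f2 ⬝ᵥ (x *ᵥ f2))) • vecMulVec f2 f2 := by
      rw [Matrix.mul_assoc, Matrix.add_mul, Matrix.smul_mul, Matrix.smul_mul]
      simp only [Matrix.mul_add, Matrix.mul_smul, mul_vecMulVec, vecMulVec_mul_vecMulVec]
      simp only [vmv_mulVec]
      ext i j
      simp [vecMulVec_apply]
      ring
    rw [h2] at h
    simp only [map_add, map_smul, hPR, P11, P12, P21, P22, smul_zero, zero_add, add_zero] at h
    have h3 : (k1 * k2 * (f1 ⬝ᵥ (x *ᵥ f2)) * l + k2 * k1 * (f2 ⬝ᵥ (x *ᵥ f1)) * l -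
        k1 * k1 * (f1 ⬝ᵥ (R x *ᵥ f1))) • vecMulVec f1 f1 = 0 := by
      linear_combination (norm := module) h
    have h4 := hff _ h3
    have hk1 := D.k1n
    rw [hlam]
    field_simp
    apply mul_left_cancel₀ hk1
    linear_combination -h4
  have hlam0 : lam ≠ 0 := by
    intro h
    obtain ⟨x, hx⟩ := t11
    exact hx (by rw [hfx, h, zero_mul])
  have hl0 : l ≠ 0 := by
    intro h
    exact hlam0 (by rw [hlam, h, mul_zero, zero_mul])
  -- the test element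
  obtain ⟨x0, hx0⟩ : ∃ x0, x0 = vecMulVec g1 h2 + vecMulVec h2 g1 := ⟨_, rfl⟩
  have x0s : x0ᵀ = x0 := by
    rw [hx0, transpose_add, transpose_vecMulVec, transpose_vecMulVec, add_comm]
  have x0f1 : x0 *ᵥ f1 = 0 := by
    rw [hx0, add_mulVec, vmv_mulVec, vmv_mulVec, D.h21, c1 (a := g1), D.a11]
    simp
  have x0f2 : x0 *ᵥ f2 = g1 := by
    rw [hx0, add_mulVec, vmv_mulVec, vmv_mulVec, D.h22, c1 (a := g1), D.a21]
    simp
  have hS1 : ∀ x, (R x0 *ᵥ f2) ⬝ᵥ (R x *ᵥ f1) + (R x *ᵥ f2) ⬝ᵥ (R x0 *ᵥ f1) = 0 := by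
    intro x
    have h := hR.S1 (ε := f1) (ε' := f2) t21 0 x x0
    rw [pow_zero, one_mulVec, one_mulVec] at h
    exact h
  have hcl : ∀ x, xᵀ = x → 2 * ((R 1 *ᵥ (R x0 *ᵥ f1)) ⬝ᵥ (R x *ᵥ f1)) =
      2 * lam * ((R 1 *ᵥ (R x0 *ᵥ f1)) ⬝ᵥ (x *ᵥ f2) + f1 ⬝ᵥ (R x *ᵥ f1)) := by
    intro x hx
    have h := congrArg (fun M => f1 ⬝ᵥ (M *ᵥ f1)) (hR.cl 1 x0s hx)
    simp only [pow_one, Nat.sub_self, pow_zero, Matrix.mul_one, Nat.cast_one, one_smul,
      add_mulVec, smul_mulVec, dotProduct_add, dotProduct_smul, smul_eq_mul, hfx,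
      ← mulVec_mulVec] at h
    have ag1 : R 1 *ᵥ g1 = f1 := D.ag1
    have q1 : f1 ⬝ᵥ (R x0 *ᵥ (R 1 *ᵥ (R x *ᵥ f1))) = (R 1 *ᵥ (R x0 *ᵥ f1)) ⬝ᵥ (R x *ᵥ f1) := by
      rw [← dot_symm (hR.tr x0), ← dot_symm (hR.tr 1)]
    have q2 : f1 ⬝ᵥ (R x *ᵥ (R 1 *ᵥ (R x0 *ᵥ f1))) = (R 1 *ᵥ (R x0 *ᵥ f1)) ⬝ᵥ (R x *ᵥ f1) := by
      rw [← dot_symm (hR.tr x), c1]
    have q3 : f2 ⬝ᵥ (x0 *ᵥ (R 1 *ᵥ (R x *ᵥ f1))) = f1 ⬝ᵥ (R x *ᵥ f1) := by
      rw [← dot_symm x0s, x0f2, ← dot_symm (hR.tr 1), ag1]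
    have q4 : f1 ⬝ᵥ (R x0 *ᵥ (R 1 *ᵥ (x *ᵥ f2))) = (R 1 *ᵥ (R x0 *ᵥ f1)) ⬝ᵥ (x *ᵥ f2) := by
      rw [← dot_symm (hR.tr x0), ← dot_symm (hR.tr 1)]
    have q5 : f2 ⬝ᵥ (R x0 *ᵥ (R 1 *ᵥ (x *ᵥ f1))) = 0 := by
      rw [← dot_symm (hR.tr x0), ← dot_symm (hR.tr 1), as2, zero_dotProduct]
    have q6 : f1 ⬝ᵥ (R x0 *ᵥ (R x *ᵥ f2)) = (R x *ᵥ f2) ⬝ᵥ (R x0 *ᵥ f1) := by
      rw [← dot_symm (hR.tr x0), c1]
    have q7 : f2 ⬝ᵥ (R x0 *ᵥ (R x *ᵥ f1)) = (R x0 *ᵥ f2) ⬝ᵥ (R x *ᵥ f1) := by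
      rw [← dot_symm (hR.tr x0)]
    rw [q1, q2, as2, mulVec_zero, dotProduct_zero, q3, q4, q5, q6, q7] at h
    rw [hfx] at h ⊢
    linear_combination h + 2 * lam * hS1 x
  -- `u ⬝ R x0 f1 = 0`
  have asf : ∀ x, R 1 *ᵥ (R x *ᵥ f1) = k1 • ((g1 ⬝ᵥ (R x *ᵥ f1)) • f1 +
      (f1 ⬝ᵥ (R x *ᵥ f1)) • g1) + k2 • (g2 ⬝ᵥ (R x *ᵥ f1)) • f2 +
      k • (u ⬝ᵥ (R x *ᵥ f1)) • u := by
    intro x
    rw [D.aw, t21]
    simp
  have hf0 : f1 ⬝ᵥ (R x0 *ᵥ f1) = 0 := by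
    rw [hfx, x0f1, x0f2, D.a11]
    simp
  have hp : u ⬝ᵥ (R x0 *ᵥ f1) = 0 := by
    have h := hcl x0 x0s
    rw [x0f2, dot_symm (hR.tr 1) (R x0 *ᵥ f1) g1, D.ag1, c1 (a := R x0 *ᵥ f1) (b := f1),
      hf0] at h
    have h2 : (R 1 *ᵥ (R x0 *ᵥ f1)) ⬝ᵥ (R x0 *ᵥ f1) =
        k * (u ⬝ᵥ (R x0 *ᵥ f1)) * (u ⬝ᵥ (R x0 *ᵥ f1)) := by
      rw [asf]
      simp only [add_dotProduct, smul_dotProduct, hf0, t21, smul_eq_mul]
      ring
    rw [h2] at h
    have h3 : (2 * k) * ((u ⬝ᵥ (R x0 *ᵥ f1)) * (u ⬝ᵥ (R x0 *ᵥ f1))) = 0 := by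
      linear_combination h
    exact mul_self_eq_zero.1 ((mul_eq_zero.1 h3).resolve_left (mul_ne_zero two_ne_zero D.kn))
  -- `R 1 * R x0 *ᵥ f1 = 0`
  have hT := hR.T1 (ζ := (2 : K)⁻¹ • (vecMulVec f1 f2 + vecMulVec f2 f1))
    (z := l • vecMulVec f1 f1) 1 x0s (by rw [map_smul, hPR, P11, smul_zero]) (by
      rw [transpose_smul, transpose_add, transpose_vecMulVec, transpose_vecMulVec, add_comm]) (by
      rw [map_smul, map_add, hPR, hPR, P12, P21, ← two_smul K, smul_smul,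
        inv_mul_cancel₀ two_ne_zero, one_smul])
  have hz1 : R 1 * x0 * (l • vecMulVec f1 f1) = 0 := by
    rw [Matrix.mul_smul, mul_vecMulVec, ← mulVec_mulVec, x0f1, mulVec_zero]
    ext i j
    simp [vecMulVec_apply]
  have asf0 : R 1 *ᵥ (R x0 *ᵥ f1) = (k1 * (g1 ⬝ᵥ (R x0 *ᵥ f1))) • f1 +
      (k2 * (g2 ⬝ᵥ (R x0 *ᵥ f1))) • f2 := by
    rw [asf, hf0, hp]
    module
  have hz2 : R (R 1 * R x0 * ((2 : K)⁻¹ • (vecMulVec f1 f2 + vecMulVec f2 f1))) =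
      (2⁻¹ * (k1 * (g1 ⬝ᵥ (R x0 *ᵥ f1)) * l)) • vecMulVec f1 f1 := by
    rw [Matrix.mul_smul, Matrix.mul_add, mul_vecMulVec, mul_vecMulVec, ← mulVec_mulVec,
      ← mulVec_mulVec, as2, asf0, map_smul, map_add, hPR, hPR]
    simp only [map_add, map_smul, LinearMap.add_apply, LinearMap.smul_apply, map_zero,
      LinearMap.zero_apply, P12, P22, smul_zero, add_zero]
    module
  have hz3 : R 1 * R x0 * (l • vecMulVec f1 f1) = (l * (k1 * (g1 ⬝ᵥ (R x0 *ᵥ f1)))) •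
      vecMulVec f1 f1 + (l * (k2 * (g2 ⬝ᵥ (R x0 *ᵥ f1)))) • vecMulVec f2 f1 := by
    rw [Matrix.mul_smul, mul_vecMulVec, ← mulVec_mulVec, asf0]
    ext i j
    simp [vecMulVec_apply]
    ring
  have hz4 : (l • vecMulVec f1 f1) * R x0 * R 1 = (l * (k1 * (g1 ⬝ᵥ (R x0 *ᵥ f1)))) •
      vecMulVec f1 f1 + (l * (k2 * (g2 ⬝ᵥ (R x0 *ᵥ f1)))) • vecMulVec f1 f2 := by
    have h := congrArg Matrix.transpose hz3
    rw [transpose_mul, transpose_mul, hR.tr, hR.tr, transpose_smul, transpose_add,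
      transpose_smul, transpose_smul, transpose_vecMulVec, transpose_vecMulVec] at h
    rw [Matrix.mul_assoc]
    exact h
  rw [pow_one, hz3, hz4, hz1, map_zero, zero_add, hz2] at hT
  have e1 : g1 ⬝ᵥ (R x0 *ᵥ f1) = 0 := by
    have h := congrArg (fun M => h1 ⬝ᵥ (M *ᵥ h1)) hT
    simp only [add_mulVec, smul_mulVec, dotProduct_add, dotProduct_smul, vmv_mulVec, fh11, fh21,
      D.h11, D.h12, smul_eq_mul, mul_one, mul_zero, zero_mul, add_zero] at h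
    have h3 : (k1 * l) * (g1 ⬝ᵥ (R x0 *ᵥ f1)) = 0 := by
      linear_combination h
    exact (mul_eq_zero.1 h3).resolve_left (mul_ne_zero D.k1n hl0)
  have e2 : g2 ⬝ᵥ (R x0 *ᵥ f1) = 0 := by
    have h := congrArg (fun M => h1 ⬝ᵥ (M *ᵥ h2)) hT
    simp only [add_mulVec, smul_mulVec, dotProduct_add, dotProduct_smul, vmv_mulVec, fh12, fh22,
      D.h11, D.h12, smul_eq_mul, mul_one, mul_zero, zero_mul, add_zero, zero_add] at h
    have h3 : (k2 * l) * (g2 ⬝ᵥ (R x0 *ᵥ f1)) = 0 := by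
      linear_combination h
    exact (mul_eq_zero.1 h3).resolve_left (mul_ne_zero D.k2n hl0)
  have has0 : R 1 *ᵥ (R x0 *ᵥ f1) = 0 := by
    rw [asf0, e1, e2]
    simp
  have hfin := hcl (vecMulVec h1 h2 + vecMulVec h2 h1) (by
    rw [transpose_add, transpose_vecMulVec, transpose_vecMulVec, add_comm])
  rw [has0, zero_dotProduct, zero_dotProduct, zero_add, hfx] at hfin
  simp only [add_mulVec, vmv_mulVec, D.h11, D.h12, D.h21, D.h22, fh11, fh12, fh21, fh22,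
    dotProduct_add, dotProduct_smul, smul_eq_mul, mul_one, mul_zero, zero_mul, zero_add,
    add_zero] at hfin
  have h4 : lam * lam = 0 := by linear_combination (-4 : K)⁻¹ * hfin
  exact hlam0 (mul_self_eq_zero.1 h4)

/-- The determinant of the matrix `f_i ⬝ R x f_j` vanishes. -/
theorem det0 (he0 : R 1 * R 1 ≠ 0) (x : Matrix (Fin n) (Fin n) K) :
    (f1 ⬝ᵥ (R x *ᵥ f1)) * (f2 ⬝ᵥ (R x *ᵥ f2)) - (f1 ⬝ᵥ (R x *ᵥ f2)) * (f1 ⬝ᵥ (R x *ᵥ f2)) = 0 := by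
  by_contra hne
  obtain ⟨dt, hdt⟩ : ∃ dt, dt = k1 * k2 * ((f1 ⬝ᵥ (R x *ᵥ f1)) * (f2 ⬝ᵥ (R x *ᵥ f2)) -
      (f1 ⬝ᵥ (R x *ᵥ f2)) * (f1 ⬝ᵥ (R x *ᵥ f2))) := ⟨_, rfl⟩
  have hdt0 : dt ≠ 0 := by
    rw [hdt]
    exact mul_ne_zero (mul_ne_zero D.k1n D.k2n) hne
  obtain ⟨t, ht⟩ : ∃ t, t = k1 * (f1 ⬝ᵥ (R x *ᵥ f1)) + k2 * (f2 ⬝ᵥ (R x *ᵥ f2)) := ⟨_, rfl⟩
  have hesw : ∀ w : Fin n → K, (R 1 * R 1 * R x) *ᵥ w =
      (k1 * (f1 ⬝ᵥ (R x *ᵥ w))) • f1 + (k2 * (f2 ⬝ᵥ (R x *ᵥ w))) • f2 := by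
    intro w
    rw [← mulVec_mulVec, D.ew, smul_smul, smul_smul]
  have hCH : (R 1 * R 1 * R x) * (R 1 * R 1 * R x) * (R 1 * R 1) =
      t • ((R 1 * R 1 * R x) * (R 1 * R 1)) - dt • (R 1 * R 1) := by
    obtain ⟨E, hE⟩ : ∃ E, E = R 1 * R 1 := ⟨_, rfl⟩
    obtain ⟨N, hN⟩ : ∃ N, N = E * R x := ⟨_, rfl⟩
    have hEw := D.ew
    rw [← hE] at hesw hEw ⊢
    rw [← hN] at hesw ⊢
    have h1 : ∀ w : Fin n → K, (N * N * E) *ᵥ w = (t • (N * E) - dt • E) *ᵥ w := by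
      intro w
      have t21 : f2 ⬝ᵥ (R x *ᵥ f1) = f1 ⬝ᵥ (R x *ᵥ f2) := by rw [trsym hR]
      simp only [sub_mulVec, smul_mulVec, ← mulVec_mulVec, hEw, mulVec_add, mulVec_smul, hesw,
        t21, smul_add, smul_smul, dotProduct_add, dotProduct_smul, smul_eq_mul]
      rw [ht, hdt]
      module
    ext i j
    have h2 := congrFun (h1 (Pi.single j 1)) i
    simpa using h2
  obtain ⟨y, hy⟩ := poly_es (F := K) hR.rb (m := 3) x
    (Polynomial.C (-dt⁻¹) * (Polynomial.X - Polynomial.C t))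
  rw [show 3 - 1 = 2 from rfl, ← D.eE] at hy
  have h3 : (Polynomial.aeval (R 1 * R 1 * R x))
      (Polynomial.X * (Polynomial.C (-dt⁻¹) * (Polynomial.X - Polynomial.C t))) =
      (-dt⁻¹) • ((R 1 * R 1 * R x) * (R 1 * R 1 * R x) - t • (R 1 * R 1 * R x)) := by
    rw [map_mul, map_mul, map_sub, Polynomial.aeval_X, Polynomial.aeval_C, Polynomial.aeval_C,
      Algebra.algebraMap_eq_smul_one, Algebra.algebraMap_eq_smul_one, Matrix.smul_mul,
      Matrix.one_mul, Matrix.mul_smul, Matrix.mul_sub, Matrix.mul_smul, Matrix.mul_one]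
  rw [h3, Matrix.smul_mul, Matrix.sub_mul, Matrix.smul_mul, hCH] at hy
  have h4 : (-dt⁻¹) • (t • (R 1 * R 1 * R x * (R 1 * R 1)) - dt • (R 1 * R 1) -
      t • (R 1 * R 1 * R x * (R 1 * R 1))) = R 1 * R 1 := by
    rw [sub_right_comm, sub_self, zero_sub, smul_neg, neg_smul, neg_neg, smul_smul,
      inv_mul_cancel₀ hdt0, one_smul]
  rw [h4] at hy
  have h5 := e_not_mem (F := K) hR.rb (m := 3) (by norm_num) (D.a3 hR) (by
    rw [show 3 - 1 = 2 from rfl, ← D.eE]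
    exact he0) y
  rw [show 3 - 1 = 2 from rfl, ← D.eE] at h5
  exact h5 hy

theorem det2 (he0 : R 1 * R 1 ≠ 0) (x y : Matrix (Fin n) (Fin n) K) :
    (f1 ⬝ᵥ (R x *ᵥ f1)) * (f2 ⬝ᵥ (R y *ᵥ f2)) + (f1 ⬝ᵥ (R y *ᵥ f1)) * (f2 ⬝ᵥ (R x *ᵥ f2)) =
      2 * ((f1 ⬝ᵥ (R x *ᵥ f2)) * (f1 ⬝ᵥ (R y *ᵥ f2))) := by
  have h1 := D.det0 hR he0 (x + y)
  have h2 := D.det0 hR he0 x
  have h3 := D.det0 hR he0 y
  simp only [map_add, add_mulVec, dotProduct_add] at h1
  linear_combination h1 - h2 - h3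

/-- The case `e S e ≠ 0` is impossible. -/
theorem A_false (he0 : R 1 * R 1 ≠ 0) (hne : ∃ x, f1 ⬝ᵥ (R x *ᵥ f1) ≠ 0 ∨
    f1 ⬝ᵥ (R x *ᵥ f2) ≠ 0 ∨ f2 ⬝ᵥ (R x *ᵥ f2) ≠ 0) : False := by
  have c1 : ∀ {a b : Fin n → K}, a ⬝ᵥ b = b ⬝ᵥ a := fun {a b} => dotProduct_comm a b
  -- a rational test element
  have hr : ∃ x ∈ Φ.M, f1 ⬝ᵥ (R x *ᵥ f1) ≠ 0 ∨ f1 ⬝ᵥ (R x *ᵥ f2) ≠ 0 ∨
      f2 ⬝ᵥ (R x *ᵥ f2) ≠ 0 := by
    by_contra hcon
    push Not at hcon
    let T : (v w : Fin n → K) → Matrix (Fin n) (Fin n) K →ₗ[K] K := fun v w =>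
      { toFun := fun M => v ⬝ᵥ (M *ᵥ w)
        map_add' := by
          intro M M'
          rw [add_mulVec, dotProduct_add]
        map_smul' := by
          intro c M
          rw [smul_mulVec, dotProduct_smul]
          rfl }
    obtain ⟨x, hx⟩ := hne
    rcases hx with hx | hx | hx
    · exact hx (Φ.lin_ext hR (T f1 f1) (fun x hx _ => (hcon x hx).1) x)
    · exact hx (Φ.lin_ext hR (T f1 f2) (fun x hx _ => (hcon x hx).2.1) x)
    · exact hx (Φ.lin_ext hR (T f2 f2) (fun x hx _ => (hcon x hx).2.2) x)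
  obtain ⟨x, hxM, hx⟩ := hr
  have hd := D.det0 hR he0 x
  obtain ⟨X1, hX1⟩ := Φ.dot _ D.f1V _ (Φ.act _ (Φ.map _ hxM) _ D.f1V)
  obtain ⟨X2, hX2⟩ := Φ.dot _ D.f1V _ (Φ.act _ (Φ.map _ hxM) _ D.f2V)
  obtain ⟨X3, hX3⟩ := Φ.dot _ D.f2V _ (Φ.act _ (Φ.map _ hxM) _ D.f2V)
  have hab : ∃ (α β : F) (κ : K), κ ≠ 0 ∧ (α ≠ 0 ∨ β ≠ 0) ∧
      f1 ⬝ᵥ (R x *ᵥ f1) = κ * (algebraMap F K α * algebraMap F K α) ∧
      f1 ⬝ᵥ (R x *ᵥ f2) = κ * (algebraMap F K α * algebraMap F K β) ∧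
      f2 ⬝ᵥ (R x *ᵥ f2) = κ * (algebraMap F K β * algebraMap F K β) := by
    rw [hX1, hX2, hX3] at hx hd ⊢
    by_cases h0 : X1 = 0
    · rw [h0, map_zero, zero_mul, zero_sub, neg_eq_zero] at hd
      have h2 : algebraMap F K X2 = 0 := mul_self_eq_zero.1 hd
      rw [h0, h2, map_zero] at hx ⊢
      have h3 : algebraMap F K X3 ≠ 0 := by simpa using hx
      exact ⟨0, 1, algebraMap F K X3, h3, Or.inr one_ne_zero, by simp, by simp, by simp⟩
    · have h1 : algebraMap F K X1 ≠ 0 := by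
        intro h
        exact h0 ((map_eq_zero _).1 h)
      refine ⟨X1, X2, (algebraMap F K X1)⁻¹, inv_ne_zero h1, Or.inl h0, ?_, ?_, ?_⟩
      · rw [← mul_assoc, inv_mul_cancel₀ h1, one_mul]
      · rw [← mul_assoc, inv_mul_cancel₀ h1, one_mul]
      · apply mul_left_cancel₀ h1
        rw [← mul_assoc, mul_inv_cancel₀ h1, one_mul]
        linear_combination hd
  obtain ⟨α', β', κ, hκ, hab0, hx11, hx12, hx22⟩ := hab
  obtain ⟨α, hα⟩ : ∃ α, α = algebraMap F K α' := ⟨_, rfl⟩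
  obtain ⟨β, hβ⟩ : ∃ β, β = algebraMap F K β' := ⟨_, rfl⟩
  rw [← hα] at hx11 hx12
  rw [← hβ] at hx12 hx22
  have hab1 : α ≠ 0 ∨ β ≠ 0 := by
    rcases hab0 with h | h
    · exact Or.inl (by rw [hα]; exact fun h' => h ((map_eq_zero _).1 h'))
    · exact Or.inr (by rw [hβ]; exact fun h' => h ((map_eq_zero _).1 h'))
  have hαr : ∃ d : F, α = algebraMap F K d := ⟨_, hα⟩
  have hβr : ∃ d : F, β = algebraMap F K d := ⟨_, hβ⟩
  have hmulr : ∀ {c d : K}, (∃ p : F, c = algebraMap F K p) → (∃ p : F, d = algebraMap F K p) →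
      ∃ p : F, c * d = algebraMap F K p := by
    rintro c d ⟨p, rfl⟩ ⟨q, rfl⟩
    exact ⟨p * q, by rw [map_mul]⟩
  have g11i : g1 ⬝ᵥ g1 = k1⁻¹ := eq_inv_of_mul_eq_one_right D.g11
  have g22i : g2 ⬝ᵥ g2 = k2⁻¹ := eq_inv_of_mul_eq_one_right D.g22
  have hk1 := D.k1n
  have hk2 := D.k2n
  obtain ⟨N, hN⟩ : ∃ N, N = k1 * (α * α) + k2 * (β * β) := ⟨_, rfl⟩
  have hNr : ∃ d : F, N = algebraMap F K d := by
    obtain ⟨p, hp⟩ := hmulr D.k1r (hmulr hαr hαr)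
    obtain ⟨q, hq⟩ := hmulr D.k2r (hmulr hβr hβr)
    exact ⟨p + q, by rw [hN, hp, hq, map_add]⟩
  have hg1V : (k1 * α) • g1 + (k2 * β) • g2 ∈ Φ.V :=
    Φ.V.add_mem (Φ.smulK D.g1V (hmulr D.k1r hαr)) (Φ.smulK D.g2V (hmulr D.k2r hβr))
  have hN0 : N ≠ 0 := by
    intro h
    have hm := D.mem_of hg1V (by
      rw [dotProduct_add, dotProduct_smul, dotProduct_smul, D.a11, D.a12]
      simp) (by
      rw [dotProduct_add, dotProduct_smul, dotProduct_smul, D.a21, D.a22]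
      simp) (by
      rw [dotProduct_add, dotProduct_smul, dotProduct_smul, c1 (a := u), c1 (a := u), D.g1u,
        D.g2u]
      simp) (by
      simp only [dotProduct_add, add_dotProduct, dotProduct_smul, smul_dotProduct, smul_eq_mul,
        D.g12, c1 (a := g2) (b := g1), g11i, g22i]
      rw [hN] at h
      have i1 := mul_inv_cancel₀ hk1
      have i2 := mul_inv_cancel₀ hk2
      linear_combination h + (k1 * α * α) * i1 + (k2 * β * β) * i2)
    have h1' := congrArg (fun z => g1 ⬝ᵥ z) hm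
    have h2' := congrArg (fun z => g2 ⬝ᵥ z) hm
    simp only [dotProduct_add, dotProduct_smul, smul_eq_mul, g11i, g22i, D.g12, D.g1u, D.g2u,
      c1 (a := g2) (b := g1), c1 (a := g1) (b := f1), c1 (a := g1) (b := f2),
      c1 (a := g2) (b := f1), c1 (a := g2) (b := f2), D.a11, D.a12, D.a21, D.a22,
      mul_zero, add_zero, zero_add] at h1' h2'
    rcases hab1 with h' | h'
    · apply h'
      rw [mul_comm k1 α, mul_assoc, mul_inv_cancel₀ hk1, mul_one] at h1'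
      exact h1'
    · apply h'
      rw [mul_comm k2 β, mul_assoc, mul_inv_cancel₀ hk2, mul_one] at h2'
      exact h2'
  have hNi : N⁻¹ * N = 1 := inv_mul_cancel₀ hN0
  have D' : D3 F Φ N⁻¹ (k1 * k2 * N⁻¹) k ((k1 * α) • f1 + (k2 * β) • f2) ((-β) • f1 + α • f2)
      ((k1 * α) • g1 + (k2 * β) • g2) ((-β) • g1 + α • g2) u
      ((N⁻¹ * α) • h1 + (N⁻¹ * β) • h2) ((N⁻¹ * (-(k2 * β))) • h1 + (N⁻¹ * (k1 * α)) • h2) u0 := by
    have hβn : ∃ d : F, -β = algebraMap F K d := by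
      obtain ⟨p, hp⟩ := hβr
      exact ⟨-p, by rw [hp, map_neg]⟩
    have hNir : ∃ d : F, N⁻¹ = algebraMap F K d := by
      obtain ⟨p, hp⟩ := hNr
      exact ⟨p⁻¹, by rw [hp, map_inv₀]⟩
    exact {
      k1r := hNir
      k2r := hmulr (hmulr D.k1r D.k2r) hNir
      k1n := inv_ne_zero hN0
      k2n := mul_ne_zero (mul_ne_zero hk1 hk2) (inv_ne_zero hN0)
      kn := D.kn
      f1V := Φ.V.add_mem (Φ.smulK D.f1V (hmulr D.k1r hαr)) (Φ.smulK D.f2V (hmulr D.k2r hβr))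
      f2V := Φ.V.add_mem (Φ.smulK D.f1V hβn) (Φ.smulK D.f2V hαr)
      g1V := hg1V
      g2V := Φ.V.add_mem (Φ.smulK D.g1V hβn) (Φ.smulK D.g2V hαr)
      uV := D.uV
      u0V := D.u0V
      a := by
        rw [D.a]
        ext i j
        simp only [Matrix.add_apply, Matrix.smul_apply, vecMulVec_apply, Pi.add_apply,
          Pi.smul_apply, smul_eq_mul]
        have e1 : k1 = N⁻¹ * (k1 * N) := by rw [mul_comm k1, ← mul_assoc, hNi, one_mul]
        have e2 : k2 = N⁻¹ * (k2 * N) := by rw [mul_comm k2, ← mul_assoc, hNi, one_mul]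
        have e3 : ∀ p q : K, k1 * p + k2 * q = N⁻¹ * ((k1 * p + k2 * q) * N) := by
          intro p q
          rw [mul_comm _ N, ← mul_assoc, hNi, one_mul]
        rw [e3, hN]
        ring
      e := by
        rw [D.e]
        ext i j
        simp only [Matrix.add_apply, Matrix.smul_apply, vecMulVec_apply, Pi.add_apply,
          Pi.smul_apply, smul_eq_mul]
        have e3 : ∀ p q : K, k1 * p + k2 * q = N⁻¹ * ((k1 * p + k2 * q) * N) := by
          intro p q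
          rw [mul_comm _ N, ← mul_assoc, hNi, one_mul]
        rw [e3, hN]
        ring
      f11 := by
        simp only [dotProduct_add, add_dotProduct, dotProduct_smul, smul_dotProduct, smul_eq_mul,
          D.f11, D.f12, D.f22, c1 (a := f2) (b := f1)]
        ring
      f12 := by
        simp only [dotProduct_add, add_dotProduct, dotProduct_smul, smul_dotProduct, smul_eq_mul,
          D.f11, D.f12, D.f22, c1 (a := f2) (b := f1)]
        ring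
      f22 := by
        simp only [dotProduct_add, add_dotProduct, dotProduct_smul, smul_dotProduct, smul_eq_mul,
          D.f11, D.f12, D.f22, c1 (a := f2) (b := f1)]
        ring
      a11 := by
        simp only [dotProduct_add, add_dotProduct, dotProduct_smul, smul_dotProduct, smul_eq_mul,
          D.a11, D.a12, D.a21, D.a22]
        ring
      a12 := by
        simp only [dotProduct_add, add_dotProduct, dotProduct_smul, smul_dotProduct, smul_eq_mul,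
          D.a11, D.a12, D.a21, D.a22]
        ring
      a21 := by
        simp only [dotProduct_add, add_dotProduct, dotProduct_smul, smul_dotProduct, smul_eq_mul,
          D.a11, D.a12, D.a21, D.a22]
        ring
      a22 := by
        simp only [dotProduct_add, add_dotProduct, dotProduct_smul, smul_dotProduct, smul_eq_mul,
          D.a11, D.a12, D.a21, D.a22]
        ring
      f1u := by
        simp only [add_dotProduct, smul_dotProduct, smul_eq_mul, D.f1u, D.f2u]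
        ring
      f2u := by
        simp only [add_dotProduct, smul_dotProduct, smul_eq_mul, D.f1u, D.f2u]
        ring
      uu := D.uu
      g1u := by
        simp only [add_dotProduct, smul_dotProduct, smul_eq_mul, D.g1u, D.g2u]
        ring
      g2u := by
        simp only [add_dotProduct, smul_dotProduct, smul_eq_mul, D.g1u, D.g2u]
        ring
      g11 := by
        simp only [dotProduct_add, add_dotProduct, dotProduct_smul, smul_dotProduct, smul_eq_mul,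
          D.g12, c1 (a := g2) (b := g1), g11i, g22i]
        rw [← hNi, hN]
        congr 1
        field_simp
        try ring
      g12 := by
        simp only [dotProduct_add, add_dotProduct, dotProduct_smul, smul_dotProduct, smul_eq_mul,
          D.g12, c1 (a := g2) (b := g1), g11i, g22i]
        field_simp
        try ring
      g22 := by
        simp only [dotProduct_add, add_dotProduct, dotProduct_smul, smul_dotProduct, smul_eq_mul,
          D.g12, c1 (a := g2) (b := g1), g11i, g22i]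
        rw [mul_comm (k1 * k2) N⁻¹, mul_assoc, ← hNi, hN]
        congr 1
        field_simp
        try ring
      h11 := by
        simp only [dotProduct_add, add_dotProduct, dotProduct_smul, smul_dotProduct, smul_eq_mul,
          D.h11, D.h12, D.h21, D.h22]
        linear_combination hNi - N⁻¹ * hN
      h12 := by
        simp only [dotProduct_add, add_dotProduct, dotProduct_smul, smul_dotProduct, smul_eq_mul,
          D.h11, D.h12, D.h21, D.h22]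
        ring
      h1u := by
        simp only [add_dotProduct, smul_dotProduct, smul_eq_mul, D.h1u, D.h2u]
        ring
      h21 := by
        simp only [dotProduct_add, add_dotProduct, dotProduct_smul, smul_dotProduct, smul_eq_mul,
          D.h11, D.h12, D.h21, D.h22]
        ring
      h22 := by
        simp only [dotProduct_add, add_dotProduct, dotProduct_smul, smul_dotProduct, smul_eq_mul,
          D.h11, D.h12, D.h21, D.h22]
        linear_combination hNi - N⁻¹ * hN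
      h2u := by
        simp only [add_dotProduct, smul_dotProduct, smul_eq_mul, D.h1u, D.h2u]
        ring
      u01 := by
        simp only [dotProduct_add, dotProduct_smul, smul_eq_mul, D.u01, D.u02]
        ring
      u02 := by
        simp only [dotProduct_add, dotProduct_smul, smul_eq_mul, D.u01, D.u02]
        ring
      u0u := D.u0u }
  have t21 : f2 ⬝ᵥ (R x *ᵥ f1) = f1 ⬝ᵥ (R x *ᵥ f2) := by rw [trsym hR]
  have n11 : ((k1 * α) • f1 + (k2 * β) • f2) ⬝ᵥ (R x *ᵥ ((k1 * α) • f1 + (k2 * β) • f2)) =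
      κ * (N * N) := by
    simp only [mulVec_add, mulVec_smul, dotProduct_add, add_dotProduct, dotProduct_smul,
      smul_dotProduct, smul_eq_mul, t21, hx11, hx12, hx22]
    rw [hN]
    ring
  have n12 : ((k1 * α) • f1 + (k2 * β) • f2) ⬝ᵥ (R x *ᵥ ((-β) • f1 + α • f2)) = 0 := by
    simp only [mulVec_add, mulVec_smul, dotProduct_add, add_dotProduct, dotProduct_smul,
      smul_dotProduct, smul_eq_mul, t21, hx11, hx12, hx22]
    ring
  have n22 : ((-β) • f1 + α • f2) ⬝ᵥ (R x *ᵥ ((-β) • f1 + α • f2)) = 0 := by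
    simp only [mulVec_add, mulVec_smul, dotProduct_add, add_dotProduct, dotProduct_smul,
      smul_dotProduct, smul_eq_mul, t21, hx11, hx12, hx22]
    ring
  have n11' : κ * (N * N) ≠ 0 := mul_ne_zero hκ (mul_ne_zero hN0 hN0)
  have z22 : ∀ y, ((-β) • f1 + α • f2) ⬝ᵥ (R y *ᵥ ((-β) • f1 + α • f2)) = 0 := by
    intro y
    have h := D'.det2 hR he0 x y
    rw [n11, n12, n22, mul_zero, zero_mul, mul_zero, add_zero] at h
    exact (mul_eq_zero.1 h).resolve_left n11'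
  refine D'.A_core hR ?_ z22 ⟨x, by rw [n11]; exact n11'⟩
  intro y
  have h := D'.det0 hR he0 y
  rw [z22, mul_zero, zero_sub, neg_eq_zero] at h
  exact mul_self_eq_zero.1 h

end D3

end Pool.Agent.MP_f4742e_al
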