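import Pool.Agent.Lib.MP_f4742e_al.X.D3Base

/-!
The type `(3, 3, 2, 1, ..., 1)` with Witt index three: `e (R x) e = 0` for all `x`.
-/

set_option autoImplicit false
set_option linter.unusedSectionVars false
set_option linter.unusedSimpArgs false

namespace Pool.Agent.MP_f4742e_al

open Matrix

namespace D3

variable {F K : Type*} [Field F] [Field K] [CharZero K] [Algebra F K] {n : ℕ}
  {R : Matrix (Fin n) (Fin n) K →ₗ[K] Matrix (Fin n) (Fin n) K} (hR : SRB R) {Φ : Frame F R 3}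
  {k1 k2 k : K} {f1 f2 g1 g2 u h1 h2 u0 : Fin n → K}
  (D : D3 F Φ k1 k2 k f1 f2 g1 g2 u h1 h2 u0)

include D hR

/-- A vector `f` of `{f1, f2}` with `f ⬝ R x f = 0`, `f_i ⬝ R x f = 0`. -/
theorem sf_mem {f : Fin n → K} (hf : f ∈ Φ.V) (t1 : ∀ x, f1 ⬝ᵥ (R x *ᵥ f) = 0)
    (t2 : ∀ x, f2 ⬝ᵥ (R x *ᵥ f) = 0) (t3 : ∀ x, f ⬝ᵥ (R x *ᵥ f) = 0)
    (x : Matrix (Fin n) (Fin n) K) : R x *ᵥ f = (h1 ⬝ᵥ (R x *ᵥ f)) • f1 +
      (h2 ⬝ᵥ (R x *ᵥ f)) • f2 + (u0 ⬝ᵥ (R x *ᵥ f)) • u := by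
  let T : Matrix (Fin n) (Fin n) K →ₗ[K] (Fin n → K) :=
    { toFun := fun M => M *ᵥ f - ((h1 ⬝ᵥ (M *ᵥ f)) • f1 + (h2 ⬝ᵥ (M *ᵥ f)) • f2 +
        (u0 ⬝ᵥ (M *ᵥ f)) • u)
      map_add' := by
        intro M M'
        simp only [add_mulVec, dotProduct_add, add_smul]
        abel
      map_smul' := by
        intro c M
        simp only [smul_mulVec, dotProduct_smul, smul_eq_mul, RingHom.id_apply, smul_sub,
          smul_add, mul_smul] }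
  have h := Φ.lin_ext hR T (by
    intro x hx hxs
    change R x *ᵥ f - _ = 0
    rw [sub_eq_zero]
    have e1 := t1 x
    have e2 := t2 x
    have e3 : (R x *ᵥ f) ⬝ᵥ ((R 1) ^ 1 *ᵥ (R x *ᵥ f)) = 0 := hR.S1_same t3 1 x
    rw [pow_one, D.dot_a e1 e2] at e3
    have e4 : u ⬝ᵥ (R x *ᵥ f) = 0 := by
      rw [mul_assoc] at e3
      exact mul_self_eq_zero.1 ((mul_eq_zero.1 e3).resolve_left D.kn)
    have e5 : (R x *ᵥ f) ⬝ᵥ ((R 1) ^ 0 *ᵥ (R x *ᵥ f)) = 0 := hR.S1_same t3 0 x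
    rw [pow_zero, one_mulVec] at e5
    exact D.mem_of (Φ.act _ (Φ.map x hx) _ hf) e1 e2 e4 e5) x
  exact sub_eq_zero.1 h

omit D hR in
theorem cancelK {M : Type*} [AddCommGroup M] [Module K M] {c : K} (hc : c ≠ 0) {m : M}
    (h : c • m = 0) : m = 0 := (smul_eq_zero.1 h).resolve_left hc

omit D in
theorem trsym {x : Matrix (Fin n) (Fin n) K} (y z : Fin n → K) :
    y ⬝ᵥ (R x *ᵥ z) = z ⬝ᵥ (R x *ᵥ y) := dot_symm' (hR.tr x) y z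

/-- The case `e S e = 0` is impossible. -/
theorem B_false (he0 : R 1 * R 1 ≠ 0) (t11 : ∀ x, f1 ⬝ᵥ (R x *ᵥ f1) = 0)
    (t12 : ∀ x, f1 ⬝ᵥ (R x *ᵥ f2) = 0)
    (t22 : ∀ x, f2 ⬝ᵥ (R x *ᵥ f2) = 0) : False := by
  have t21 : ∀ x, f2 ⬝ᵥ (R x *ᵥ f1) = 0 := fun x => by rw [trsym hR, t12]
  have m1 := D.sf_mem hR D.f1V t11 t21 t11
  have m2 := D.sf_mem hR D.f2V t12 t22 t22
  have c1 : ∀ {a b : Fin n → K}, a ⬝ᵥ b = b ⬝ᵥ a := fun {a b} => dotProduct_comm a b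
  -- orthogonality
  have perp : ∀ {v w : Fin n → K} {α β γ : K}, v = α • f1 + β • f2 + γ • u → f1 ⬝ᵥ w = 0 →
      f2 ⬝ᵥ w = 0 → u ⬝ᵥ w = 0 → w ⬝ᵥ v = 0 := by
    intro v w α β γ hv q1 q2 q3
    rw [hv, dotProduct_add, dotProduct_add, dotProduct_smul, dotProduct_smul, dotProduct_smul,
      c1 (a := w) (b := f1), q1, c1 (a := w) (b := f2), q2, c1 (a := w) (b := u), q3]
    simp
  have us1 : ∀ x, u ⬝ᵥ (R x *ᵥ f1) = 0 := fun x => perp (m1 x) D.f1u D.f2u D.uu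
  have us2 : ∀ x, u ⬝ᵥ (R x *ᵥ f2) = 0 := fun x => perp (m2 x) D.f1u D.f2u D.uu
  have gs11 : ∀ x, g1 ⬝ᵥ (R x *ᵥ f1) = 0 := fun x =>
    perp (m1 x) D.a11 D.a21 (by rw [c1, D.g1u])
  have gs12 : ∀ x, g1 ⬝ᵥ (R x *ᵥ f2) = 0 := fun x =>
    perp (m2 x) D.a11 D.a21 (by rw [c1, D.g1u])
  have gs21 : ∀ x, g2 ⬝ᵥ (R x *ᵥ f1) = 0 := fun x =>
    perp (m1 x) D.a12 D.a22 (by rw [c1, D.g2u])
  have gs22 : ∀ x, g2 ⬝ᵥ (R x *ᵥ f2) = 0 := fun x =>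
    perp (m2 x) D.a12 D.a22 (by rw [c1, D.g2u])
  have as1 : ∀ x, R 1 *ᵥ (R x *ᵥ f1) = 0 := by
    intro x
    rw [D.aw, gs11, t11, gs21, t21, us1]
    simp
  have as2 : ∀ x, R 1 *ᵥ (R x *ᵥ f2) = 0 := by
    intro x
    rw [D.aw, gs12, t12, gs22, t22, us2]
    simp
  have ag1 : ∀ x, R 1 *ᵥ (R x *ᵥ g1) = k1 • (g1 ⬝ᵥ (R x *ᵥ g1)) • f1 +
      k2 • (g2 ⬝ᵥ (R x *ᵥ g1)) • f2 + k • (u ⬝ᵥ (R x *ᵥ g1)) • u := by
    intro x
    rw [D.aw, trsym hR f1 g1, gs11, trsym hR f2 g1, gs12]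
    simp
  have ag2 : ∀ x, R 1 *ᵥ (R x *ᵥ g2) = k1 • (g1 ⬝ᵥ (R x *ᵥ g2)) • f1 +
      k2 • (g2 ⬝ᵥ (R x *ᵥ g2)) • f2 + k • (u ⬝ᵥ (R x *ᵥ g2)) • u := by
    intro x
    rw [D.aw, trsym hR f1 g2, gs21, trsym hR f2 g2, gs22]
    simp
  have asu : ∀ x, R 1 *ᵥ (R x *ᵥ u) = k1 • (g1 ⬝ᵥ (R x *ᵥ u)) • f1 +
      k2 • (g2 ⬝ᵥ (R x *ᵥ u)) • f2 + k • (u ⬝ᵥ (R x *ᵥ u)) • u := by
    intro x
    rw [D.aw, trsym hR f1 u, us1, trsym hR f2 u, us2]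
    simp
  have asa : ∀ (x : Matrix (Fin n) (Fin n) K) (w : Fin n → K),
      R 1 *ᵥ (R x *ᵥ (R 1 *ᵥ w)) = k1 • (f1 ⬝ᵥ w) • (R 1 *ᵥ (R x *ᵥ g1)) +
      k2 • (f2 ⬝ᵥ w) • (R 1 *ᵥ (R x *ᵥ g2)) + k • (u ⬝ᵥ w) • (R 1 *ᵥ (R x *ᵥ u)) := by
    intro x w
    conv_lhs => rw [D.aw w]
    simp only [mulVec_add, mulVec_smul, as1, as2, smul_zero, zero_add, add_zero]
  -- the images
  obtain ⟨P, hP⟩ : ∃ P : (Fin n → K) →ₗ[K] (Fin n → K) →ₗ[K] Matrix (Fin n) (Fin n) K,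
      P = Bf R := ⟨_, rfl⟩
  have hPR : ∀ v w, R (vecMulVec v w) = P v w := fun v w => by rw [hP]; rfl
  have Pc : ∀ v w, P v w = P w v := fun v w => by rw [hP]; exact Bf_comm hR v w
  have eh1 : (R 1 * R 1) *ᵥ h1 = k1 • f1 := by
    rw [D.ew, c1 (a := f1), D.h11, c1 (a := f2), D.h12]
    simp
  have eh2 : (R 1 * R 1) *ᵥ h2 = k2 • f2 := by
    rw [D.ew, c1 (a := f1), D.h21, c1 (a := f2), D.h22]
    simp
  have ete : ∀ v w : Fin n → K, R 1 * R 1 * vecMulVec v w * (R 1 * R 1) =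
      vecMulVec ((R 1 * R 1) *ᵥ v) ((R 1 * R 1) *ᵥ w) := by
    intro v w
    rw [mul_vecMulVec, vmv_mul (by rw [transpose_mul, hR.tr])]
  have eRe : ∀ x, R 1 * R 1 * R x * (R 1 * R 1) = 0 := by
    intro x
    rw [D.e, Matrix.add_mul, Matrix.add_mul, Matrix.smul_mul, Matrix.smul_mul, Matrix.smul_mul,
      Matrix.smul_mul, Matrix.mul_add, Matrix.mul_add, Matrix.mul_smul, Matrix.mul_smul,
      Matrix.mul_smul, Matrix.mul_smul, vmv_mul (hR.tr x), vmv_mul (hR.tr x),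
      vecMulVec_mul_vecMulVec, vecMulVec_mul_vecMulVec, vecMulVec_mul_vecMulVec,
      vecMulVec_mul_vecMulVec, c1 (a := R x *ᵥ f1) (b := f1), t11, c1 (a := R x *ᵥ f1) (b := f2),
      t21, c1 (a := R x *ᵥ f2) (b := f1), t12, c1 (a := R x *ᵥ f2) (b := f2), t22]
    ext i j
    simp [vecMulVec_apply]
  have P11 : P f1 f1 = 0 := by
    have h := D.Rexe hR (vecMulVec h1 h1)
    rw [ete, eRe, eh1, smul_vecMulVec, vecMulVec_smul, smul_smul, map_smul, hPR] at h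
    exact (smul_eq_zero.1 h).resolve_left (mul_ne_zero D.k1n D.k1n)
  have P12 : P f1 f2 = 0 := by
    have h := D.Rexe hR (vecMulVec h1 h2)
    rw [ete, eRe, eh1, eh2, smul_vecMulVec, vecMulVec_smul, smul_smul, map_smul, hPR] at h
    exact (smul_eq_zero.1 h).resolve_left (mul_ne_zero D.k1n D.k2n)
  have P22 : P f2 f2 = 0 := by
    have h := D.Rexe hR (vecMulVec h2 h2)
    rw [ete, eRe, eh2, smul_vecMulVec, vecMulVec_smul, smul_smul, map_smul, hPR] at h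
    exact (smul_eq_zero.1 h).resolve_left (mul_ne_zero D.k2n D.k2n)
  have P21 : P f2 f1 = 0 := by rw [Pc, P12]
  obtain ⟨y1, hy1⟩ : ∃ y1, y1 = P u u := ⟨_, rfl⟩
  obtain ⟨b1, hb1⟩ : ∃ b1, b1 = k1 • P f1 u := ⟨_, rfl⟩
  obtain ⟨b2, hb2⟩ : ∃ b2, b2 = k2 • P f2 u := ⟨_, rfl⟩
  have hb1' : k1 • P u f1 = b1 := by rw [Pc, hb1]
  have hb2' : k2 • P u f2 = b2 := by rw [Pc, hb2]
  obtain ⟨E, hE⟩ : ∃ E, E = R 1 * R 1 := ⟨_, rfl⟩
  have ase : ∀ x, R 1 * R x * E = 0 := by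
    intro x
    rw [hE, D.e, Matrix.mul_add, Matrix.mul_smul, Matrix.mul_smul, mul_vecMulVec, mul_vecMulVec,
      ← mulVec_mulVec, ← mulVec_mulVec, as1, as2]
    ext i j
    simp [vecMulVec_apply]
  have esa : ∀ x, E * R x * R 1 = 0 := by
    intro x
    have h := congrArg Matrix.transpose (ase x)
    rw [transpose_mul, transpose_mul, hR.tr, hR.tr, hE, transpose_mul, hR.tr,
      transpose_zero] at h
    rw [hE, Matrix.mul_assoc]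
    exact h
  have hEt : Eᵀ = E := by rw [hE, transpose_mul, hR.tr]
  have hRE : R ((2 : K) • R 1) = E := by
    rw [map_smul, D.Ra hR, smul_smul, mul_inv_cancel₀ two_ne_zero, one_smul, hE]
  have hRE0 : R E = 0 := by rw [hE, D.Re hR]
  -- first identity
  have LB0 : ∀ x : Matrix (Fin n) (Fin n) K, xᵀ = x →
      R (R 1 * x * E) + (2 : K) • R (R 1 * R x * R 1) = 0 := by
    intro x hx
    have h := hR.T1 1 hx hRE0 (by rw [transpose_smul, hR.tr]) hRE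
    rw [pow_one, ase, esa, add_zero, Matrix.mul_smul, map_smul] at h
    exact (smul_eq_zero.1 h.symm).resolve_left two_ne_zero
  have Raxe : ∀ x : Matrix (Fin n) (Fin n) K, R (R 1 * x * E) =
      (k1 * k1 * (f1 ⬝ᵥ (x *ᵥ f1))) • P g1 f1 + (k1 * k2 * (f2 ⬝ᵥ (x *ᵥ f1))) • P g2 f1 +
      ((k2 * k1 * (f1 ⬝ᵥ (x *ᵥ f2))) • P g1 f2 + (k2 * k2 * (f2 ⬝ᵥ (x *ᵥ f2))) • P g2 f2) +
      ((k * (u ⬝ᵥ (x *ᵥ f1))) • b1 + (k * (u ⬝ᵥ (x *ᵥ f2))) • b2) := by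
    intro x
    rw [hE, D.e, Matrix.mul_add, Matrix.mul_smul, Matrix.mul_smul, mul_vecMulVec, mul_vecMulVec,
      ← mulVec_mulVec, ← mulVec_mulVec, map_add, map_smul, map_smul, hPR, hPR, D.aw, D.aw]
    simp only [map_add, map_smul, LinearMap.add_apply, LinearMap.smul_apply, P11, P12, P21, P22]
    rw [← hb1', ← hb2']
    module
  have Rasa : ∀ x : Matrix (Fin n) (Fin n) K, R (R 1 * R x * R 1) =
      (2 * k * (g1 ⬝ᵥ (R x *ᵥ u))) • b1 + (2 * k * (g2 ⬝ᵥ (R x *ᵥ u))) • b2 +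
      (k * k * (u ⬝ᵥ (R x *ᵥ u))) • y1 := by
    intro x
    have h : R 1 * R x * R 1 = k1 • (vecMulVec (R 1 *ᵥ (R x *ᵥ g1)) f1) +
        k2 • (vecMulVec (R 1 *ᵥ (R x *ᵥ g2)) f2) + k • vecMulVec (R 1 *ᵥ (R x *ᵥ u)) u := by
      have h0 : R 1 * R x * R 1 = R 1 * R x * (k1 • (vecMulVec f1 g1 + vecMulVec g1 f1) +
          k2 • (vecMulVec f2 g2 + vecMulVec g2 f2) + k • vecMulVec u u) := by rw [← D.a]
      rw [h0]
      simp only [Matrix.mul_add, Matrix.mul_smul, mul_vecMulVec, ← mulVec_mulVec, as1, as2]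
      ext i j
      simp [vecMulVec_apply]
    rw [h]
    simp only [map_add, map_smul, hPR, ag1, ag2, asu, LinearMap.add_apply, LinearMap.smul_apply,
      P11, P12, P21, P22, ← hy1]
    rw [trsym hR u g1, trsym hR u g2]
    rw [show k1 • (k1 • (g1 ⬝ᵥ (R x *ᵥ g1)) • (0 : Matrix (Fin n) (Fin n) K) +
      k2 • (g2 ⬝ᵥ (R x *ᵥ g1)) • (0 : Matrix (Fin n) (Fin n) K) +
      k • (g1 ⬝ᵥ (R x *ᵥ u)) • P u f1) = (k * (g1 ⬝ᵥ (R x *ᵥ u))) • (k1 • P u f1) by module,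
      show k2 • (k1 • (g1 ⬝ᵥ (R x *ᵥ g2)) • (0 : Matrix (Fin n) (Fin n) K) +
      k2 • (g2 ⬝ᵥ (R x *ᵥ g2)) • (0 : Matrix (Fin n) (Fin n) K) +
      k • (g2 ⬝ᵥ (R x *ᵥ u)) • P u f2) = (k * (g2 ⬝ᵥ (R x *ᵥ u))) • (k2 • P u f2) by module,
      hb1', hb2', hb1, hb2]
    module
  -- second identity
  have QR0 : ∀ x x' : Matrix (Fin n) (Fin n) K, xᵀ = x →
      R (R 1 * R x' * (R 1 * x * E)) + (4 : K) • R (R 1 * R x' * (R 1 * R x * R 1)) = 0 := by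
    intro x x' hx
    have h := hR.K (k := R 1 * x * E + E * x * R 1 + (4 : K) • (R 1 * R x * R 1)) (by
      rw [transpose_add, transpose_add, transpose_smul]
      simp only [transpose_mul, hR.tr, hx, hEt, Matrix.mul_assoc]
      abel_nf) (by
      have h3 : R (E * x * R 1) = R (R 1 * x * E) := by
        rw [← hR.ti]
        simp only [transpose_mul, hR.tr, hx, hEt, Matrix.mul_assoc]
      rw [map_add, map_add, map_smul, h3]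
      linear_combination (norm := module) (2 : K) • LB0 x hx) 1 x'
    rw [pow_one, Matrix.mul_add, Matrix.mul_add, Matrix.mul_smul, map_add, map_add, map_smul] at h
    have h3 : R 1 * R x' * (E * x * R 1) = 0 := by
      rw [← Matrix.mul_assoc, ← Matrix.mul_assoc, ase, Matrix.zero_mul, Matrix.zero_mul]
    rw [h3, map_zero, add_zero] at h
    exact h
  have Q1 : ∀ x x' : Matrix (Fin n) (Fin n) K, R (R 1 * R x' * (R 1 * x * E)) =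
      (k * (k1 * (g1 ⬝ᵥ (R x' *ᵥ u)) * (f1 ⬝ᵥ (x *ᵥ f1)) +
        k2 * (g2 ⬝ᵥ (R x' *ᵥ u)) * (f2 ⬝ᵥ (x *ᵥ f1)) +
        k * (u ⬝ᵥ (R x' *ᵥ u)) * (u ⬝ᵥ (x *ᵥ f1)))) • b1 +
      (k * (k1 * (g1 ⬝ᵥ (R x' *ᵥ u)) * (f1 ⬝ᵥ (x *ᵥ f2)) +
        k2 * (g2 ⬝ᵥ (R x' *ᵥ u)) * (f2 ⬝ᵥ (x *ᵥ f2)) +
        k * (u ⬝ᵥ (R x' *ᵥ u)) * (u ⬝ᵥ (x *ᵥ f2)))) • b2 := by
    intro x x'
    have h : R 1 * R x' * (R 1 * x * E) =
        k1 • (vecMulVec (R 1 *ᵥ (R x' *ᵥ (R 1 *ᵥ (x *ᵥ f1)))) f1) +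
        k2 • (vecMulVec (R 1 *ᵥ (R x' *ᵥ (R 1 *ᵥ (x *ᵥ f2)))) f2) := by
      rw [hE, D.e]
      simp only [Matrix.mul_add, Matrix.mul_smul, mul_vecMulVec, ← mulVec_mulVec]
    rw [h]
    simp only [map_add, map_smul, hPR, asa, ag1, ag2, asu, LinearMap.add_apply,
      LinearMap.smul_apply, P11, P12, P21, P22, trsym hR u g1, trsym hR u g2]
    rw [hb1, hb2, Pc u f1, Pc u f2]
    module
  have Q2 : ∀ x x' : Matrix (Fin n) (Fin n) K, R (R 1 * R x' * (R 1 * R x * R 1)) =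
      (k * k * (u ⬝ᵥ (R x' *ᵥ u)) * (g1 ⬝ᵥ (R x *ᵥ u)) +
        k * k * (u ⬝ᵥ (R x *ᵥ u)) * (g1 ⬝ᵥ (R x' *ᵥ u))) • b1 +
      (k * k * (u ⬝ᵥ (R x' *ᵥ u)) * (g2 ⬝ᵥ (R x *ᵥ u)) +
        k * k * (u ⬝ᵥ (R x *ᵥ u)) * (g2 ⬝ᵥ (R x' *ᵥ u))) • b2 +
      (k * k * k * (u ⬝ᵥ (R x *ᵥ u)) * (u ⬝ᵥ (R x' *ᵥ u))) • y1 := by
    intro x x'
    have h : R 1 * R x' * (R 1 * R x * R 1) =
        k1 • (vecMulVec (R 1 *ᵥ (R x' *ᵥ (R 1 *ᵥ (R x *ᵥ g1)))) f1) +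
        k2 • (vecMulVec (R 1 *ᵥ (R x' *ᵥ (R 1 *ᵥ (R x *ᵥ g2)))) f2) +
        k • (vecMulVec (R 1 *ᵥ (R x' *ᵥ (R 1 *ᵥ (R x *ᵥ u)))) u) := by
      have h0 : R 1 * R x' * (R 1 * R x * R 1) = R 1 * R x' * (R 1 * R x * (k1 •
          (vecMulVec f1 g1 + vecMulVec g1 f1) +
          k2 • (vecMulVec f2 g2 + vecMulVec g2 f2) + k • vecMulVec u u)) := by rw [← D.a]
      rw [h0]
      simp only [Matrix.mul_add, Matrix.mul_smul, mul_vecMulVec, ← mulVec_mulVec, as1, as2,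
        mulVec_zero]
      ext i j
      simp [vecMulVec_apply]
    rw [h]
    simp only [map_add, map_smul, hPR, mulVec_add, mulVec_smul, as1, as2, ag1, ag2, asu,
      smul_zero, zero_add, LinearMap.add_apply, LinearMap.smul_apply, P11, P12, P21, P22,
      trsym hR u g1, trsym hR u g2, ← hy1]
    rw [hb1, hb2, Pc u f1, Pc u f2]
    module
  have LB : ∀ x : Matrix (Fin n) (Fin n) K, xᵀ = x →
      (k1 * k1 * (f1 ⬝ᵥ (x *ᵥ f1))) • P g1 f1 + (k1 * k2 * (f2 ⬝ᵥ (x *ᵥ f1))) • P g2 f1 +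
      ((k2 * k1 * (f1 ⬝ᵥ (x *ᵥ f2))) • P g1 f2 + (k2 * k2 * (f2 ⬝ᵥ (x *ᵥ f2))) • P g2 f2) +
      ((k * (u ⬝ᵥ (x *ᵥ f1))) • b1 + (k * (u ⬝ᵥ (x *ᵥ f2))) • b2) +
      ((4 * k * (g1 ⬝ᵥ (R x *ᵥ u))) • b1 + (4 * k * (g2 ⬝ᵥ (R x *ᵥ u))) • b2 +
      (2 * k * k * (u ⬝ᵥ (R x *ᵥ u))) • y1) = 0 := by
    intro x hx
    have h := LB0 x hx
    rw [Raxe, Rasa] at h
    linear_combination (norm := module) h
  have QR : ∀ x x' : Matrix (Fin n) (Fin n) K, xᵀ = x →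
      ((k1 * (g1 ⬝ᵥ (R x' *ᵥ u)) * (f1 ⬝ᵥ (x *ᵥ f1)) +
        k2 * (g2 ⬝ᵥ (R x' *ᵥ u)) * (f2 ⬝ᵥ (x *ᵥ f1)) +
        k * (u ⬝ᵥ (R x' *ᵥ u)) * (u ⬝ᵥ (x *ᵥ f1)))) • b1 +
      ((k1 * (g1 ⬝ᵥ (R x' *ᵥ u)) * (f1 ⬝ᵥ (x *ᵥ f2)) +
        k2 * (g2 ⬝ᵥ (R x' *ᵥ u)) * (f2 ⬝ᵥ (x *ᵥ f2)) +
        k * (u ⬝ᵥ (R x' *ᵥ u)) * (u ⬝ᵥ (x *ᵥ f2)))) • b2 +
      (4 * k * ((u ⬝ᵥ (R x' *ᵥ u)) * (g1 ⬝ᵥ (R x *ᵥ u)) +
        (u ⬝ᵥ (R x *ᵥ u)) * (g1 ⬝ᵥ (R x' *ᵥ u)))) • b1 +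
      (4 * k * ((u ⬝ᵥ (R x' *ᵥ u)) * (g2 ⬝ᵥ (R x *ᵥ u)) +
        (u ⬝ᵥ (R x *ᵥ u)) * (g2 ⬝ᵥ (R x' *ᵥ u)))) • b2 +
      (4 * k * k * ((u ⬝ᵥ (R x *ᵥ u)) * (u ⬝ᵥ (R x' *ᵥ u)))) • y1 = 0 := by
    intro x x' hx
    have h := QR0 x x' hx
    rw [Q1, Q2] at h
    refine cancelK D.kn ?_
    linear_combination (norm := module) h
  have hRa : (2 * k1) • P g1 f1 + (2 * k2) • P g2 f2 + k • y1 = (2 : K)⁻¹ • E := by
    have h := D.Ra hR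
    have h0 : R (R 1) = R (k1 • (vecMulVec f1 g1 + vecMulVec g1 f1) +
          k2 • (vecMulVec f2 g2 + vecMulVec g2 f2) + k • vecMulVec u u) := by rw [← D.a]
    rw [h0] at h
    simp only [map_add, map_smul, hPR] at h
    rw [Pc f1 g1, Pc f2 g2, ← hy1, ← hE] at h
    rw [← h]
    module
  -- the test elements
  obtain ⟨x1, hx1⟩ : ∃ x1, x1 = vecMulVec u0 h1 + vecMulVec h1 u0 := ⟨_, rfl⟩
  obtain ⟨x2, hx2⟩ : ∃ x2, x2 = vecMulVec u0 h2 + vecMulVec h2 u0 := ⟨_, rfl⟩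
  obtain ⟨xd, hxd⟩ : ∃ xd, xd = k1⁻¹ • vecMulVec h1 h1 + k2⁻¹ • vecMulVec h2 h2 := ⟨_, rfl⟩
  have x1s : x1ᵀ = x1 := by
    rw [hx1, transpose_add, transpose_vecMulVec, transpose_vecMulVec, add_comm]
  have x2s : x2ᵀ = x2 := by
    rw [hx2, transpose_add, transpose_vecMulVec, transpose_vecMulVec, add_comm]
  have xds : xdᵀ = xd := by
    rw [hxd, transpose_add, transpose_smul, transpose_smul, transpose_vecMulVec,
      transpose_vecMulVec]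
  have x1f1 : x1 *ᵥ f1 = u0 := by
    rw [hx1, add_mulVec, vmv_mulVec, vmv_mulVec, D.h11, D.u01]
    simp
  have x1f2 : x1 *ᵥ f2 = 0 := by
    rw [hx1, add_mulVec, vmv_mulVec, vmv_mulVec, D.h12, D.u02]
    simp
  have x2f1 : x2 *ᵥ f1 = 0 := by
    rw [hx2, add_mulVec, vmv_mulVec, vmv_mulVec, D.h21, D.u01]
    simp
  have x2f2 : x2 *ᵥ f2 = u0 := by
    rw [hx2, add_mulVec, vmv_mulVec, vmv_mulVec, D.h22, D.u02]
    simp
  have xdf1 : xd *ᵥ f1 = k1⁻¹ • h1 := by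
    rw [hxd, add_mulVec, smul_mulVec, smul_mulVec, vmv_mulVec, vmv_mulVec, D.h11, D.h21]
    simp
  have xdf2 : xd *ᵥ f2 = k2⁻¹ • h2 := by
    rw [hxd, add_mulVec, smul_mulVec, smul_mulVec, vmv_mulVec, vmv_mulVec, D.h12, D.h22]
    simp
  have fu01 : f1 ⬝ᵥ u0 = 0 := by rw [c1, D.u01]
  have fu02 : f2 ⬝ᵥ u0 = 0 := by rw [c1, D.u02]
  have uu0 : u ⬝ᵥ u0 = 1 := by rw [c1, D.u0u]
  have fh11 : f1 ⬝ᵥ h1 = 1 := by rw [c1, D.h11]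
  have fh12 : f1 ⬝ᵥ h2 = 0 := by rw [c1, D.h21]
  have fh21 : f2 ⬝ᵥ h1 = 0 := by rw [c1, D.h12]
  have fh22 : f2 ⬝ᵥ h2 = 1 := by rw [c1, D.h22]
  have uh1 : u ⬝ᵥ h1 = 0 := by rw [c1, D.h1u]
  have uh2 : u ⬝ᵥ h2 = 0 := by rw [c1, D.h2u]
  have k1i := inv_mul_cancel₀ D.k1n
  have k2i := inv_mul_cancel₀ D.k2n
  -- for a test element with `X = 0`
  have L1 := LB x1 x1s
  have L2 := LB x2 x2s
  have Ld := LB xd xds
  simp only [x1f1, x1f2, fu01, fu02, uu0, dotProduct_zero, mul_zero, zero_smul, zero_add,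
    add_zero, mul_one] at L1
  simp only [x2f1, x2f2, fu01, fu02, uu0, dotProduct_zero, mul_zero, zero_smul, zero_add,
    add_zero, mul_one] at L2
  simp only [xdf1, xdf2, dotProduct_smul, fh11, fh12, fh21, fh22, uh1, uh2, smul_eq_mul,
    mul_zero, zero_smul, zero_add, add_zero, mul_one] at Ld
  have Ld' : (4 : K)⁻¹ • E - (k * 2⁻¹) • y1 + ((4 * k * (g1 ⬝ᵥ (R xd *ᵥ u))) • b1 +
      (4 * k * (g2 ⬝ᵥ (R xd *ᵥ u))) • b2 + (2 * k * k * (u ⬝ᵥ (R xd *ᵥ u))) • y1) = 0 := by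
    have e1 : k1 * k1 * k1⁻¹ = k1 := by
      field_simp
    have e2 : k2 * k2 * k2⁻¹ = k2 := by
      field_simp
    rw [e1, e2] at Ld
    linear_combination (norm := module) Ld - (2 : K)⁻¹ • hRa
  have Qdd := QR xd xd xds
  simp only [xdf1, xdf2, dotProduct_smul, fh11, fh12, fh21, fh22, uh1, uh2, smul_eq_mul,
    mul_zero, zero_smul, zero_add, add_zero, mul_one] at Qdd
  have hb0 : b1 = 0 ∧ b2 = 0 := by
    by_contra hcon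
    -- `G` of the two test elements vanishes
    have hG : ∀ (b : Matrix (Fin n) (Fin n) K) (y y' : Matrix (Fin n) (Fin n) K), b ≠ 0 →
        (∀ x', b + (4 * (g1 ⬝ᵥ (R y *ᵥ u))) • b1 + (4 * (g2 ⬝ᵥ (R y *ᵥ u))) • b2 +
          (2 * k * (u ⬝ᵥ (R y *ᵥ u))) • y1 = 0 ∧
          (u ⬝ᵥ (R x' *ᵥ u)) • b +
          (4 * ((u ⬝ᵥ (R x' *ᵥ u)) * (g1 ⬝ᵥ (R y *ᵥ u)) +
            (u ⬝ᵥ (R y *ᵥ u)) * (g1 ⬝ᵥ (R x' *ᵥ u)))) • b1 +
          (4 * ((u ⬝ᵥ (R x' *ᵥ u)) * (g2 ⬝ᵥ (R y *ᵥ u)) +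
            (u ⬝ᵥ (R y *ᵥ u)) * (g2 ⬝ᵥ (R x' *ᵥ u)))) • b2 +
          (4 * k * ((u ⬝ᵥ (R y *ᵥ u)) * (u ⬝ᵥ (R x' *ᵥ u)))) • y1 = 0) →
        u ⬝ᵥ (R y *ᵥ u) = 0 := by
      intro b y y' hb h
      obtain ⟨q1, q2⟩ := h y
      have q3 : (u ⬝ᵥ (R y *ᵥ u)) • b = 0 := by
        linear_combination (norm := module) (2 * (u ⬝ᵥ (R y *ᵥ u))) • q1 - q2
      exact (smul_eq_zero.1 q3).resolve_right hb
    have Qx1 : ∀ x', (u ⬝ᵥ (R x' *ᵥ u)) • b1 +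
          (4 * ((u ⬝ᵥ (R x' *ᵥ u)) * (g1 ⬝ᵥ (R x1 *ᵥ u)) +
            (u ⬝ᵥ (R x1 *ᵥ u)) * (g1 ⬝ᵥ (R x' *ᵥ u)))) • b1 +
          (4 * ((u ⬝ᵥ (R x' *ᵥ u)) * (g2 ⬝ᵥ (R x1 *ᵥ u)) +
            (u ⬝ᵥ (R x1 *ᵥ u)) * (g2 ⬝ᵥ (R x' *ᵥ u)))) • b2 +
          (4 * k * ((u ⬝ᵥ (R x1 *ᵥ u)) * (u ⬝ᵥ (R x' *ᵥ u)))) • y1 = 0 := by
      intro x'
      have q := QR x1 x' x1s
      simp only [x1f1, x1f2, fu01, fu02, uu0, dotProduct_zero, mul_zero, zero_smul, zero_add,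
        add_zero, mul_one] at q
      refine cancelK D.kn ?_
      linear_combination (norm := module) q
    have Qx2 : ∀ x', (u ⬝ᵥ (R x' *ᵥ u)) • b2 +
          (4 * ((u ⬝ᵥ (R x' *ᵥ u)) * (g1 ⬝ᵥ (R x2 *ᵥ u)) +
            (u ⬝ᵥ (R x2 *ᵥ u)) * (g1 ⬝ᵥ (R x' *ᵥ u)))) • b1 +
          (4 * ((u ⬝ᵥ (R x' *ᵥ u)) * (g2 ⬝ᵥ (R x2 *ᵥ u)) +
            (u ⬝ᵥ (R x2 *ᵥ u)) * (g2 ⬝ᵥ (R x' *ᵥ u)))) • b2 +
          (4 * k * ((u ⬝ᵥ (R x2 *ᵥ u)) * (u ⬝ᵥ (R x' *ᵥ u)))) • y1 = 0 := by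
      intro x'
      have q := QR x2 x' x2s
      simp only [x2f1, x2f2, fu01, fu02, uu0, dotProduct_zero, mul_zero, zero_smul, zero_add,
        add_zero, mul_one] at q
      refine cancelK D.kn ?_
      linear_combination (norm := module) q
    have L1' : b1 + (4 * (g1 ⬝ᵥ (R x1 *ᵥ u))) • b1 + (4 * (g2 ⬝ᵥ (R x1 *ᵥ u))) • b2 +
          (2 * k * (u ⬝ᵥ (R x1 *ᵥ u))) • y1 = 0 := by
      refine cancelK D.kn ?_
      linear_combination (norm := module) L1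
    have L2' : b2 + (4 * (g1 ⬝ᵥ (R x2 *ᵥ u))) • b1 + (4 * (g2 ⬝ᵥ (R x2 *ᵥ u))) • b2 +
          (2 * k * (u ⬝ᵥ (R x2 *ᵥ u))) • y1 = 0 := by
      refine cancelK D.kn ?_
      linear_combination (norm := module) L2
    -- the final contradiction from a nonzero `b`
    have fin : ∀ (b : Matrix (Fin n) (Fin n) K) (y : Matrix (Fin n) (Fin n) K), b ≠ 0 →
        u ⬝ᵥ (R y *ᵥ u) = 0 →
        b + (4 * (g1 ⬝ᵥ (R y *ᵥ u))) • b1 + (4 * (g2 ⬝ᵥ (R y *ᵥ u))) • b2 +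
          (2 * k * (u ⬝ᵥ (R y *ᵥ u))) • y1 = 0 → False := by
      intro b y hb hGy hLy
      rw [hGy, mul_zero, zero_smul, add_zero] at hLy
      have q := QR xd y xds
      simp only [xdf1, xdf2, dotProduct_smul, fh11, fh12, fh21, fh22, uh1, uh2, smul_eq_mul,
        mul_zero, zero_smul, zero_add, add_zero, mul_one, hGy, zero_mul] at q
      have e1 : k1 * (g1 ⬝ᵥ (R y *ᵥ u)) * k1⁻¹ = g1 ⬝ᵥ (R y *ᵥ u) := by
        rw [mul_right_comm, mul_inv_cancel₀ D.k1n, one_mul]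
      have e2 : k2 * (g2 ⬝ᵥ (R y *ᵥ u)) * k2⁻¹ = g2 ⬝ᵥ (R y *ᵥ u) := by
        rw [mul_right_comm, mul_inv_cancel₀ D.k2n, one_mul]
      rw [e1, e2] at q
      have q2 : (1 + 4 * k * (u ⬝ᵥ (R xd *ᵥ u))) • b = 0 := by
        linear_combination (norm := module)
          (1 + 4 * k * (u ⬝ᵥ (R xd *ᵥ u))) • hLy - (4 : K) • q
      have q3 : 1 + 4 * k * (u ⬝ᵥ (R xd *ᵥ u)) = 0 := (smul_eq_zero.1 q2).resolve_right hb
      have e3 : k1 * (g1 ⬝ᵥ (R xd *ᵥ u)) * k1⁻¹ = g1 ⬝ᵥ (R xd *ᵥ u) := by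
        rw [mul_right_comm, mul_inv_cancel₀ D.k1n, one_mul]
      have e4 : k2 * (g2 ⬝ᵥ (R xd *ᵥ u)) * k2⁻¹ = g2 ⬝ᵥ (R xd *ᵥ u) := by
        rw [mul_right_comm, mul_inv_cancel₀ D.k2n, one_mul]
      have hg : u ⬝ᵥ (R xd *ᵥ u) = -(4 * k)⁻¹ := by
        have hk := D.kn
        field_simp
        linear_combination q3
      rw [e3, e4, hg] at Qdd
      rw [hg] at Ld'
      have e5 : 4 * k * (-(4 * k)⁻¹) = -1 := by
        have hk := D.kn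
        field_simp
      have r1 : y1 = (4 * (g1 ⬝ᵥ (R xd *ᵥ u))) • b1 + (4 * (g2 ⬝ᵥ (R xd *ᵥ u))) • b2 := by
        have e6 : 4 * k * (-(4 * k)⁻¹ * (g1 ⬝ᵥ (R xd *ᵥ u)) +
            -(4 * k)⁻¹ * (g1 ⬝ᵥ (R xd *ᵥ u))) = -(2 * (g1 ⬝ᵥ (R xd *ᵥ u))) := by
          linear_combination (2 * (g1 ⬝ᵥ (R xd *ᵥ u))) * e5
        have e7 : 4 * k * (-(4 * k)⁻¹ * (g2 ⬝ᵥ (R xd *ᵥ u)) +
            -(4 * k)⁻¹ * (g2 ⬝ᵥ (R xd *ᵥ u))) = -(2 * (g2 ⬝ᵥ (R xd *ᵥ u))) := by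
          linear_combination (2 * (g2 ⬝ᵥ (R xd *ᵥ u))) * e5
        have e8 : 4 * k * k * (-(4 * k)⁻¹ * -(4 * k)⁻¹) = 4⁻¹ := by
          have hk := D.kn
          field_simp
          try norm_num
        rw [e6, e7, e8] at Qdd
        linear_combination (norm := module) (4 : K) • Qdd
      have e9 : 2 * k * k * (-(4 * k)⁻¹) = -(k * 2⁻¹) := by
        have hk := D.kn
        field_simp
        try norm_num
      rw [e9] at Ld'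
      have r2 : (4 : K)⁻¹ • E = 0 := by
        linear_combination (norm := module) Ld' + k • r1
      rcases smul_eq_zero.1 r2 with h | h
      · norm_num at h
      · exact he0 (by rw [← hE, h])
    by_cases h1 : b1 = 0
    · have h2 : b2 ≠ 0 := fun h => hcon ⟨h1, h⟩
      exact fin b2 x2 h2 (hG b2 x2 x2 h2 (fun x' => ⟨L2', Qx2 x'⟩)) L2'
    · exact fin b1 x1 h1 (hG b1 x1 x1 h1 (fun x' => ⟨L1', Qx1 x'⟩)) L1'
  obtain ⟨hb10, hb20⟩ := hb0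
  have hy10 : y1 ≠ 0 := by
    intro h
    rw [hb10, hb20, h] at Ld'
    simp only [smul_zero, add_zero, sub_zero] at Ld'
    rcases smul_eq_zero.1 Ld' with h' | h'
    · norm_num at h'
    · exact he0 (by rw [← hE, h'])
  have hG0s : ∀ x : Matrix (Fin n) (Fin n) K, xᵀ = x → u ⬝ᵥ (R x *ᵥ u) = 0 := by
    intro x hx
    have q := QR x x hx
    rw [hb10, hb20] at q
    simp only [smul_zero, zero_add, add_zero] at q
    have q2 := (smul_eq_zero.1 q).resolve_right hy10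
    have q3 : (4 * k * k) ≠ 0 := mul_ne_zero (mul_ne_zero (by norm_num) D.kn) D.kn
    exact mul_self_eq_zero.1 ((mul_eq_zero.1 q2).resolve_left q3)
  have hG0 : ∀ x : Matrix (Fin n) (Fin n) K, u ⬝ᵥ (R x *ᵥ u) = 0 := by
    intro x
    have h2 : R x = R ((2 : K)⁻¹ • (x + xᵀ)) := by
      rw [map_smul, map_add, hR.ti, ← two_smul K, smul_smul, inv_mul_cancel₀ two_ne_zero,
        one_smul]
    rw [h2]
    apply hG0s
    rw [transpose_smul, transpose_add, transpose_transpose, add_comm]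
  have hy1E : (2 * k) • y1 = E := by
    rw [hb10, hb20, hG0] at Ld'
    simp only [smul_zero, mul_zero, zero_smul, add_zero] at Ld'
    linear_combination (norm := module) (-4 : K) • Ld'
  have hPfu1 : P f1 u = 0 := by
    rw [hb10] at hb1
    exact (smul_eq_zero.1 hb1.symm).resolve_left D.k1n
  have hPfu2 : P f2 u = 0 := by
    rw [hb20] at hb2
    exact (smul_eq_zero.1 hb2.symm).resolve_left D.k2n
  -- eta
  obtain ⟨x11, hx11⟩ : ∃ x, x = vecMulVec h1 h1 := ⟨_, rfl⟩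
  obtain ⟨x22, hx22⟩ : ∃ x, x = vecMulVec h2 h2 := ⟨_, rfl⟩
  have hPg1 : P g1 f1 = 0 := by
    have q := LB x11 (by rw [hx11, transpose_vecMulVec])
    have e1 : x11 *ᵥ f1 = h1 := by rw [hx11, vmv_mulVec, D.h11, one_smul]
    have e2 : x11 *ᵥ f2 = 0 := by rw [hx11, vmv_mulVec, D.h12, zero_smul]
    rw [hb10, hb20, hG0, e1, e2, fh11, fh21] at q
    simp only [smul_zero, dotProduct_zero, mul_zero, zero_smul, add_zero, mul_one] at q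
    exact (smul_eq_zero.1 q).resolve_left (mul_ne_zero D.k1n D.k1n)
  have hPg2 : P g2 f2 = 0 := by
    have q := LB x22 (by rw [hx22, transpose_vecMulVec])
    have e1 : x22 *ᵥ f1 = 0 := by rw [hx22, vmv_mulVec, D.h21, zero_smul]
    have e2 : x22 *ᵥ f2 = h2 := by rw [hx22, vmv_mulVec, D.h22, one_smul]
    rw [hb10, hb20, hG0, e1, e2, fh22, fh12] at q
    simp only [smul_zero, dotProduct_zero, mul_zero, zero_smul, add_zero, mul_one,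
      zero_add] at q
    exact (smul_eq_zero.1 q).resolve_left (mul_ne_zero D.k2n D.k2n)
  -- kernel elements
  have hker : ∀ (v w : Fin n → K), P v w = 0 → ∀ x, P (R x *ᵥ v) w + P v (R x *ᵥ w) = 0 := by
    intro v w hvw x
    have h := hR.K (k := vecMulVec v w + vecMulVec w v) (by
      rw [transpose_add, transpose_vecMulVec, transpose_vecMulVec, add_comm]) (by
      rw [map_add, hPR, hPR, Pc w v, hvw, add_zero]) 0 x
    rw [pow_zero, Matrix.one_mul, Matrix.mul_add, mul_vecMulVec, mul_vecMulVec, map_add, hPR,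
      hPR] at h
    rw [Pc v]
    exact h
  have mu := D.sf_mem hR D.uV (fun x => by rw [trsym hR, us1]) (fun x => by rw [trsym hR, us2])
    hG0
  have su1 : ∀ x, u0 ⬝ᵥ (R x *ᵥ f1) = 0 := by
    intro x
    have h := hker f1 u hPfu1 x
    rw [m1 x, mu x] at h
    simp only [map_add, map_smul, LinearMap.add_apply, LinearMap.smul_apply, P11, P12, hPfu1,
      hPfu2, ← hy1, smul_zero, add_zero, zero_add] at h
    exact (smul_eq_zero.1 h).resolve_right hy10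
  have su2 : ∀ x, u0 ⬝ᵥ (R x *ᵥ f2) = 0 := by
    intro x
    have h := hker f2 u hPfu2 x
    rw [m2 x, mu x] at h
    simp only [map_add, map_smul, LinearMap.add_apply, LinearMap.smul_apply, P21, P22, hPfu1,
      hPfu2, ← hy1, smul_zero, add_zero, zero_add] at h
    exact (smul_eq_zero.1 h).resolve_right hy10
  have hPsu : ∀ x, P (R x *ᵥ u) u = (u0 ⬝ᵥ (R x *ᵥ u)) • y1 := by
    intro x
    conv_lhs => rw [mu x]
    simp only [map_add, map_smul, LinearMap.add_apply, LinearMap.smul_apply, hPfu1,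
      hPfu2, ← hy1, smul_zero, add_zero, zero_add]
  have Rsa : ∀ x, R (R x * R 1) = ((u0 ⬝ᵥ (R x *ᵥ u)) * 2⁻¹) • E := by
    intro x
    have h : R x * R 1 = k1 • (vecMulVec (R x *ᵥ f1) g1 + vecMulVec (R x *ᵥ g1) f1) +
        k2 • (vecMulVec (R x *ᵥ f2) g2 + vecMulVec (R x *ᵥ g2) f2) +
        k • vecMulVec (R x *ᵥ u) u := by
      have h0 : R x * R 1 = R x * (k1 • (vecMulVec f1 g1 + vecMulVec g1 f1) +
          k2 • (vecMulVec f2 g2 + vecMulVec g2 f2) + k • vecMulVec u u) := by rw [← D.a]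
      rw [h0]
      simp only [Matrix.mul_add, Matrix.mul_smul, mul_vecMulVec]
    have r1 := hker g1 f1 hPg1 x
    have r2 := hker g2 f2 hPg2 x
    rw [h]
    simp only [map_add, map_smul, hPR, hPsu]
    rw [Pc (R x *ᵥ f1) g1, Pc (R x *ᵥ f2) g2, ← hy1E]
    linear_combination (norm := module) k1 • r1 + k2 • r2
  have key : ∀ x : Matrix (Fin n) (Fin n) K, xᵀ = x → x *ᵥ f1 = 0 → x *ᵥ f2 = 0 →
      k1 * (g1 ⬝ᵥ (R x *ᵥ g1)) = k * 2⁻¹ * (u ⬝ᵥ (x *ᵥ u)) + u0 ⬝ᵥ (R x *ᵥ u) := by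
    intro x hx hx1' hx2'
    have h := hR.aba 0 (x := x)
    rw [zero_add, pow_one, pow_zero, Matrix.one_mul, Rsa] at h
    have hxf : ∀ z, f1 ⬝ᵥ (x *ᵥ z) = 0 := by
      intro z
      rw [dot_symm' hx, hx1', dotProduct_zero]
    have hxf2 : ∀ z, f2 ⬝ᵥ (x *ᵥ z) = 0 := by
      intro z
      rw [dot_symm' hx, hx2', dotProduct_zero]
    have hax : ∀ z, R 1 *ᵥ (x *ᵥ z) = k1 • (g1 ⬝ᵥ (x *ᵥ z)) • f1 +
        k2 • (g2 ⬝ᵥ (x *ᵥ z)) • f2 + k • (u ⬝ᵥ (x *ᵥ z)) • u := by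
      intro z
      rw [D.aw, hxf, hxf2]
      simp
    have h2 : R (R 1 * x * R 1) = (k * k * (u ⬝ᵥ (x *ᵥ u))) • y1 := by
      have h0 : R 1 * x * R 1 = R 1 * x * (k1 • (vecMulVec f1 g1 + vecMulVec g1 f1) +
          k2 • (vecMulVec f2 g2 + vecMulVec g2 f2) + k • vecMulVec u u) := by rw [← D.a]
      rw [h0]
      simp only [Matrix.mul_add, Matrix.mul_smul, mul_vecMulVec, ← mulVec_mulVec, hx1', hx2',
        mulVec_zero, map_add, map_smul, hPR, hax, LinearMap.add_apply, LinearMap.smul_apply,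
        P11, P12, P21, P22, ← hy1, map_zero, LinearMap.zero_apply, Pc u f1, Pc u f2, hPfu1,
        hPfu2]
      module
    rw [h2] at h
    have h3 := congrArg (fun M => h1 ⬝ᵥ (M *ᵥ h1)) h
    have eah : R 1 *ᵥ h1 = (k1 * (g1 ⬝ᵥ h1)) • f1 + k1 • g1 + (k2 * (g2 ⬝ᵥ h1)) • f2 := by
      rw [D.aw, fh11, fh21, uh1]
      module
    have e1 : h1 ⬝ᵥ ((R 1 * R x * R 1) *ᵥ h1) = k1 * k1 * (g1 ⬝ᵥ (R x *ᵥ g1)) := by
      rw [← mulVec_mulVec, ← mulVec_mulVec, ← dot_symm (hR.tr 1), eah]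
      simp only [mulVec_add, mulVec_smul, dotProduct_add, add_dotProduct, dotProduct_smul,
        smul_dotProduct, t11, t12, t21, t22, gs11, gs12, trsym hR f1 g1, trsym hR f2 g1,
        smul_eq_mul, mul_zero, add_zero, zero_add]
      try ring
    have e2 : h1 ⬝ᵥ (E *ᵥ h1) = k1 := by
      rw [hE, eh1, dotProduct_smul, D.h11, smul_eq_mul, mul_one]
    have e3 : 2 * k * (h1 ⬝ᵥ (y1 *ᵥ h1)) = k1 := by
      rw [← e2, ← hy1E, smul_mulVec, dotProduct_smul, smul_eq_mul]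
    simp only [add_mulVec, smul_mulVec, dotProduct_add, dotProduct_smul, smul_eq_mul, e1,
      e2] at h3
    have hk1 := D.k1n
    apply mul_left_cancel₀ hk1
    linear_combination h3 + (k * 2⁻¹ * (u ⬝ᵥ (x *ᵥ u))) * e3
  -- the final contradiction
  obtain ⟨x0, hx0⟩ : ∃ x0, x0 = vecMulVec u0 u0 := ⟨_, rfl⟩
  have x0s : x0ᵀ = x0 := by rw [hx0, transpose_vecMulVec]
  have x0M : x0 ∈ Φ.M := by
    rw [hx0]
    exact Φ.vmv _ D.u0V _ D.u0V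
  have x0f1 : x0 *ᵥ f1 = 0 := by rw [hx0, vmv_mulVec, D.u01, zero_smul]
  have x0f2 : x0 *ᵥ f2 = 0 := by rw [hx0, vmv_mulVec, D.u02, zero_smul]
  have x0u : x0 *ᵥ u = u0 := by rw [hx0, vmv_mulVec, D.u0u, one_smul]
  obtain ⟨κ, hκ⟩ : ∃ κ, κ = u0 ⬝ᵥ (R x0 *ᵥ u) := ⟨_, rfl⟩
  have K1 := key x0 x0s x0f1 x0f2
  rw [x0u, uu0, mul_one, ← hκ] at K1
  have K2 := key (jp x0 (R x0)) (by
    unfold jp
    rw [transpose_add, transpose_mul, transpose_mul, x0s, hR.tr, add_comm]) (by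
    unfold jp
    rw [add_mulVec, ← mulVec_mulVec, ← mulVec_mulVec, x0f1, mulVec_zero, add_zero, hx0,
      vmv_mulVec, ← hx0, su1, zero_smul]) (by
    unfold jp
    rw [add_mulVec, ← mulVec_mulVec, ← mulVec_mulVec, x0f2, mulVec_zero, add_zero, hx0,
      vmv_mulVec, ← hx0, su2, zero_smul])
  rw [← D.sq_mem hR] at K2
  have e1 : u ⬝ᵥ (jp x0 (R x0) *ᵥ u) = 2 * κ := by
    unfold jp
    rw [add_mulVec, dotProduct_add, ← mulVec_mulVec, ← mulVec_mulVec, x0u, dot_symm' x0s, x0u,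
      trsym hR u u0, c1 (a := R x0 *ᵥ u) (b := u0), ← hκ]
    ring
  have e2 : u0 ⬝ᵥ ((R x0 * R x0) *ᵥ u) = κ * κ := by
    rw [← mulVec_mulVec]
    conv_lhs => rw [mu x0]
    simp only [mulVec_add, mulVec_smul, dotProduct_add, dotProduct_smul, su1, su2, ← hκ,
      smul_eq_mul, mul_zero, zero_add]
  rw [e1, e2] at K2
  obtain ⟨v, hv⟩ : ∃ v, v = R x0 *ᵥ g1 - κ • g1 := ⟨_, rfl⟩
  have hvV : v ∈ Φ.V := by
    rw [hv]
    refine Φ.V.sub_mem (Φ.act _ (Φ.map _ x0M) _ D.g1V) (Φ.smulK D.g1V ?_)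
    rw [hκ]
    exact Φ.dot _ D.u0V _ (Φ.act _ (Φ.map _ x0M) _ D.uV)
  have v1 : f1 ⬝ᵥ v = 0 := by
    rw [hv, dotProduct_sub, dotProduct_smul, D.a11, trsym hR f1 g1, gs11]
    simp
  have v2 : f2 ⬝ᵥ v = 0 := by
    rw [hv, dotProduct_sub, dotProduct_smul, D.a21, trsym hR f2 g1, gs12]
    simp
  have v3 : u ⬝ᵥ v = 0 := by
    rw [hv, dotProduct_sub, dotProduct_smul, c1 (a := u) (b := g1), D.g1u, trsym hR u g1,
      perp (mu x0) D.a11 D.a21 (by rw [c1, D.g1u])]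
    simp
  have e3 : g1 ⬝ᵥ v = g1 ⬝ᵥ (R x0 *ᵥ g1) - κ * (g1 ⬝ᵥ g1) := by
    rw [hv, dotProduct_sub, dotProduct_smul, smul_eq_mul]
  have v4 : v ⬝ᵥ v = 0 := by
    have e4 : v ⬝ᵥ v = g1 ⬝ᵥ ((R x0 * R x0) *ᵥ g1) - 2 * κ * (g1 ⬝ᵥ (R x0 *ᵥ g1)) +
        κ * κ * (g1 ⬝ᵥ g1) := by
      rw [hv]
      simp only [dotProduct_sub, sub_dotProduct, dotProduct_smul, smul_dotProduct, smul_eq_mul]
      rw [dot_symm (hR.tr x0), mulVec_mulVec, c1 (a := R x0 *ᵥ g1) (b := g1)]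
      ring
    apply mul_left_cancel₀ D.k1n
    rw [e4, mul_zero]
    linear_combination K2 - 2 * κ * K1 + κ * κ * D.g11
  have hm := D.mem_of hvV v1 v2 v3 v4
  have e5 : g1 ⬝ᵥ v = 0 := perp hm D.a11 D.a21 (by rw [c1, D.g1u])
  have e6 : k * 2⁻¹ = 0 := by
    rw [e3] at e5
    linear_combination k1 * e5 - K1 + κ * D.g11
  exact D.kn ((mul_eq_zero.1 e6).resolve_right (by norm_num))

end D3

end Pool.Agent.MP_f4742e_al
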