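import Pool.Agent.Lib.MP_f4742e_al.X.AMain

/-!
Rational normal forms of `a^(m-1)` and `a^(m-2)` for a rational symmetric matrix with `a^m = 0`.
-/

set_option autoImplicit false

namespace Pool.Agent.MP_f4742e_al

open Matrix

section

variable {K : Type*} [Field K] {n : ℕ}

/-- A family with dual vectors is linearly independent. -/
theorem indep_of_dual {ι : Type*} [Fintype ι] {g h : ι → (Fin n → K)}
    (hd : ∀ i j, i ≠ j → h i ⬝ᵥ g j = 0) (hn : ∀ i, h i ⬝ᵥ g i ≠ 0) : LinearIndependent K g := by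
  classical
  rw [Fintype.linearIndependent_iff]
  intro c hc i
  have h1 := congrArg (fun y => h i ⬝ᵥ y) hc
  simp only [dotProduct_sum, dotProduct_smul, dotProduct_zero, smul_eq_mul] at h1
  rw [Finset.sum_eq_single i] at h1
  · exact (mul_eq_zero.1 h1).resolve_right (hn i)
  · intro j _ hj
    rw [hd i j (Ne.symm hj), mul_zero]
  · intro hi
    exact absurd (Finset.mem_univ i) hi

/-- Removal of the part of a symmetric matrix which is supported on dual vectors. -/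
theorem polish [CharZero K] {β0 : Matrix (Fin n) (Fin n) K} (hβ : β0ᵀ = β0) {r : ℕ}
    {y h : Fin r → (Fin n → K)} (hy : ∀ i j, h i ⬝ᵥ y j = if i = j then 1 else 0) :
    ∃ (g : Fin r → (Fin n → K)) (β : Matrix (Fin n) (Fin n) K),
      (∀ i, g i = β0 *ᵥ h i - (2⁻¹ : K) • ∑ j, (h j ⬝ᵥ (β0 *ᵥ h i)) • y j) ∧
      β0 = ∑ i, (vecMulVec (y i) (g i) + vecMulVec (g i) (y i)) + β ∧ βᵀ = β ∧
      ∀ k, β *ᵥ h k = 0 := by
  have hy' : ∀ i j, y j ⬝ᵥ h i = if i = j then 1 else 0 := by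
    intro i j
    rw [dotProduct_comm, hy]
  obtain ⟨g, hg⟩ : ∃ g : Fin r → (Fin n → K), ∀ i, g i = β0 *ᵥ h i -
      (2⁻¹ : K) • ∑ j, (h j ⬝ᵥ (β0 *ᵥ h i)) • y j := ⟨_, fun _ => rfl⟩
  refine ⟨g, β0 - ∑ i, (vecMulVec (y i) (g i) + vecMulVec (g i) (y i)), hg, ?_, ?_, ?_⟩
  · abel
  · rw [transpose_sub, transpose_sum, hβ]
    congr 1
    refine Finset.sum_congr rfl fun i _ => ?_
    rw [transpose_add, transpose_vecMulVec, transpose_vecMulVec, add_comm]
  · intro k
    have h1 : ∀ i, g i ⬝ᵥ h k = (2⁻¹ : K) * (h i ⬝ᵥ (β0 *ᵥ h k)) := by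
      intro i
      rw [hg, sub_dotProduct, smul_dotProduct, sum_dotProduct]
      simp only [smul_dotProduct, hy', smul_eq_mul, mul_ite, mul_one, mul_zero]
      rw [Finset.sum_ite_eq, if_pos (Finset.mem_univ k), dot_symm hβ, dot_symm' hβ (h k) (h i)]
      ring
    rw [sub_mulVec, sum_mulVec]
    simp only [add_mulVec, vmv_mulVec, hy', h1]
    rw [Finset.sum_add_distrib]
    simp only [ite_smul, one_smul, zero_smul]
    rw [Finset.sum_ite_eq, if_pos (Finset.mem_univ k), hg, Finset.smul_sum]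
    simp only [smul_smul]
    abel

end

namespace Frame

variable {F K : Type*} [Field F] [Field K] [Algebra F K] {n : ℕ}
  {R : Matrix (Fin n) (Fin n) K →ₗ[K] Matrix (Fin n) (Fin n) K} {w : ℕ} (Φ : Frame F R w)

include Φ

theorem smulK {u : Fin n → K} (hu : u ∈ Φ.V) {c : K} (hc : ∃ d : F, c = algebraMap F K d) :
    c • u ∈ Φ.V := by
  obtain ⟨d, rfl⟩ := hc
  exact Φ.smul_mem' hu d

theorem smulM {x : Matrix (Fin n) (Fin n) K} (hx : x ∈ Φ.M) {c : K}
    (hc : ∃ d : F, c = algebraMap F K d) : c • x ∈ Φ.M := by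
  obtain ⟨d, rfl⟩ := hc
  rw [algebraMap_smul]
  exact Φ.M.smul_mem d hx

theorem exists_aniso [CharZero K] {e : Matrix (Fin n) (Fin n) K} (he : eᵀ = e) (h0 : e ≠ 0) :
    ∃ y ∈ Φ.V, y ⬝ᵥ (e *ᵥ y) ≠ 0 := by
  by_contra hcon
  push Not at hcon
  apply h0
  have h1 : ∀ x ∈ Φ.V, ∀ y ∈ Φ.V, x ⬝ᵥ (e *ᵥ y) = 0 := by
    intro x hx y hy
    have h2 := hcon (x + y) (Φ.V.add_mem hx hy)
    rw [mulVec_add, add_dotProduct, dotProduct_add, dotProduct_add, hcon x hx, hcon y hy,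
      zero_add, add_zero, dot_symm' he y x] at h2
    have h4 : (2 : K) * (x ⬝ᵥ (e *ᵥ y)) = 0 := by linear_combination h2
    exact (mul_eq_zero.1 h4).resolve_left two_ne_zero
  have h2 : ∀ x : Fin n → K, ∀ y ∈ Φ.V, x ⬝ᵥ (e *ᵥ y) = 0 := by
    intro x y hy
    refine Φ.vec_ind (P := fun x => x ⬝ᵥ (e *ᵥ y) = 0) (fun x hx => h1 x hx y hy) ?_ ?_ x
    · intro u v hu hv
      change (u + v) ⬝ᵥ _ = 0
      rw [add_dotProduct, hu, hv, add_zero]
    · intro c u hu
      change (c • u) ⬝ᵥ _ = 0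
      rw [smul_dotProduct, hu, smul_zero]
  have h3 : ∀ x y : Fin n → K, x ⬝ᵥ (e *ᵥ y) = 0 := by
    intro x y
    refine Φ.vec_ind (P := fun y => x ⬝ᵥ (e *ᵥ y) = 0) (fun y hy => h2 x y hy) ?_ ?_ y
    · intro u v hu hv
      change x ⬝ᵥ (e *ᵥ (u + v)) = 0
      rw [mulVec_add, dotProduct_add, hu, hv, add_zero]
    · intro c u hu
      change x ⬝ᵥ (e *ᵥ (c • u)) = 0
      rw [mulVec_smul, dotProduct_smul, hu, smul_zero]
  ext i j
  have h4 := h3 (Pi.single i 1) (Pi.single j 1)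
  simpa using h4

theorem diag_aux [CharZero K] (k : ℕ) :
    ∀ (e : Matrix (Fin n) (Fin n) K), e ∈ Φ.M → eᵀ = e →
      n ≤ Module.finrank K (LinearMap.ker e.mulVecLin) + k →
    ∃ (r : ℕ) (y h : Fin r → (Fin n → K)) (c : Fin r → F), (∀ i, y i ∈ Φ.V) ∧
      (∀ i, h i ∈ Φ.V) ∧ (∀ i, c i ≠ 0) ∧ (∀ i j, h i ⬝ᵥ y j = if i = j then 1 else 0) ∧
      e = ∑ i, algebraMap F K (c i) • vecMulVec (y i) (y i) := by
  induction k with
  | zero =>
    intro e _ he hk
    have h1 : LinearMap.ker e.mulVecLin = ⊤ := by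
      apply Submodule.eq_top_of_finrank_eq
      rw [Module.finrank_fin_fun]
      have := Submodule.finrank_le (LinearMap.ker e.mulVecLin)
      rw [Module.finrank_fin_fun] at this
      omega
    have h2 : e = 0 := by
      ext i j
      have h3 : (Pi.single j 1 : Fin n → K) ∈ LinearMap.ker e.mulVecLin := by
        rw [h1]; exact Submodule.mem_top
      rw [LinearMap.mem_ker, Matrix.mulVecLin_apply] at h3
      have := congrFun h3 i
      simpa using this
    exact ⟨0, Fin.elim0, Fin.elim0, Fin.elim0, fun i => i.elim0, fun i => i.elim0,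
      fun i => i.elim0, fun i => i.elim0, by rw [h2]; simp⟩
  | succ k ih =>
    intro e heM he hk
    by_cases h0 : e = 0
    · exact ⟨0, Fin.elim0, Fin.elim0, Fin.elim0, fun i => i.elim0, fun i => i.elim0,
        fun i => i.elim0, fun i => i.elim0, by rw [h0]; simp⟩
    obtain ⟨y, hyV, hy⟩ := Φ.exists_aniso he h0
    obtain ⟨w', hw⟩ : ∃ w', w' = e *ᵥ y := ⟨_, rfl⟩
    have hwV : w' ∈ Φ.V := by rw [hw]; exact Φ.act _ heM _ hyV
    obtain ⟨c, hc⟩ := Φ.dot y hyV w' hwV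
    have hc0 : algebraMap F K c ≠ 0 := by
      rw [← hc, hw]
      exact hy
    have hcF : c ≠ 0 := by
      rintro rfl
      exact hc0 (map_zero _)
    have hwy : w' ⬝ᵥ y = algebraMap F K c := by rw [dotProduct_comm, hc]
    obtain ⟨e', he'⟩ : ∃ e', e' = e - algebraMap F K c⁻¹ • vecMulVec w' w' := ⟨_, rfl⟩
    have he'M : e' ∈ Φ.M := by
      rw [he']
      exact Φ.M.sub_mem heM (Φ.smulM (Φ.vmv _ hwV _ hwV) ⟨_, rfl⟩)
    have hsymm : e'ᵀ = e' := by
      rw [he', transpose_sub, transpose_smul, he, transpose_vecMulVec]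
    have he'y : e' *ᵥ y = 0 := by
      rw [he', sub_mulVec, smul_mulVec, vmv_mulVec, hwy, smul_smul, map_inv₀,
        inv_mul_cancel₀ hc0, one_smul, ← hw, sub_self]
    have hker : LinearMap.ker e.mulVecLin < LinearMap.ker e'.mulVecLin := by
      refine lt_of_le_of_ne ?_ ?_
      · intro x hx
        rw [LinearMap.mem_ker, Matrix.mulVecLin_apply] at hx ⊢
        have h1 : w' ⬝ᵥ x = 0 := by
          rw [hw, dot_symm he, hx, dotProduct_zero]
        rw [he', sub_mulVec, smul_mulVec, vmv_mulVec, h1, hx, zero_smul, smul_zero, sub_zero]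
      · intro h
        have h1 : y ∈ LinearMap.ker e'.mulVecLin := by
          rw [LinearMap.mem_ker, Matrix.mulVecLin_apply]; exact he'y
        rw [← h, LinearMap.mem_ker, Matrix.mulVecLin_apply] at h1
        apply hy
        rw [h1, dotProduct_zero]
    have hlt := Submodule.finrank_lt_finrank_of_lt hker
    obtain ⟨r, g, h, c', hg, hh, hc', hd, hsum⟩ := ih e' he'M hsymm (by omega)
    have hd' : ∀ i j, g j ⬝ᵥ h i = if i = j then 1 else 0 := by
      intro i j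
      rw [dotProduct_comm, hd]
    have hgy : ∀ i, g i ⬝ᵥ y = 0 := by
      intro i
      have h2 : e' *ᵥ h i = algebraMap F K (c' i) • g i := by
        rw [hsum, sum_mulVec]
        simp only [smul_mulVec, vmv_mulVec, hd', ite_smul, one_smul, zero_smul, smul_ite,
          smul_zero]
        rw [Finset.sum_ite_eq, if_pos (Finset.mem_univ i)]
      have h3 : (e' *ᵥ h i) ⬝ᵥ y = 0 := by
        rw [dot_symm hsymm, he'y, dotProduct_zero]
      rw [h2, smul_dotProduct, smul_eq_mul] at h3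
      exact (mul_eq_zero.1 h3).resolve_left fun h4 => hc' i
        ((map_eq_zero (algebraMap F K)).1 h4)
    have hyg : ∀ i, y ⬝ᵥ g i = 0 := fun i => by rw [dotProduct_comm, hgy]
    have hyw : y ⬝ᵥ w' = algebraMap F K c := hc
    refine ⟨r + 1, Fin.cons w' g, Fin.cons (algebraMap F K c⁻¹ • y) (fun i => h i -
      ((h i ⬝ᵥ w') * algebraMap F K c⁻¹) • y), Fin.cons c⁻¹ c', ?_, ?_, ?_, ?_, ?_⟩
    · intro i
      refine Fin.cases ?_ (fun i => ?_) i
      · exact hwV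
      · exact hg i
    · intro i
      refine Fin.cases ?_ (fun i => ?_) i
      · exact Φ.smul_mem' hyV _
      · obtain ⟨d, hd2⟩ := Φ.dot _ (hh i) _ hwV
        exact Φ.V.sub_mem (hh i) (Φ.smulK hyV ⟨d * c⁻¹, by rw [hd2, map_mul]⟩)
    · intro i
      refine Fin.cases ?_ (fun i => ?_) i
      · exact inv_ne_zero hcF
      · exact hc' i
    · intro i j
      refine Fin.cases ?_ (fun i => ?_) i
      · refine Fin.cases ?_ (fun j => ?_) j
        · rw [Fin.cons_zero, Fin.cons_zero, if_pos rfl, smul_dotProduct, hyw, smul_eq_mul,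
            map_inv₀, inv_mul_cancel₀ hc0]
        · rw [Fin.cons_zero, Fin.cons_succ, smul_dotProduct, hyg, smul_zero,
            if_neg (Fin.succ_ne_zero j).symm]
      · refine Fin.cases ?_ (fun j => ?_) j
        · rw [Fin.cons_zero, Fin.cons_succ, sub_dotProduct, smul_dotProduct, hyw, smul_eq_mul,
            mul_assoc, map_inv₀, inv_mul_cancel₀ hc0, mul_one, sub_self,
            if_neg (Fin.succ_ne_zero i)]
        · rw [Fin.cons_succ, Fin.cons_succ, sub_dotProduct, smul_dotProduct, hyg, smul_zero,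
            sub_zero, hd]
          by_cases hij : i = j
          · rw [if_pos hij, if_pos (by rw [hij])]
          · rw [if_neg hij, if_neg (fun h => hij (Fin.succ_injective _ h))]
    · rw [Fin.sum_univ_succ]
      simp only [Fin.cons_zero, Fin.cons_succ]
      rw [← hsum, he']
      abel

/-- Rational diagonalisation with dual vectors. -/
theorem diag [CharZero K] {e : Matrix (Fin n) (Fin n) K} (heM : e ∈ Φ.M) (he : eᵀ = e) :
    ∃ (r : ℕ) (y h : Fin r → (Fin n → K)) (c : Fin r → F), (∀ i, y i ∈ Φ.V) ∧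
      (∀ i, h i ∈ Φ.V) ∧ (∀ i, c i ≠ 0) ∧ (∀ i j, h i ⬝ᵥ y j = if i = j then 1 else 0) ∧
      e = ∑ i, algebraMap F K (c i) • vecMulVec (y i) (y i) :=
  Φ.diag_aux n e heM he (by omega)

end Frame

/-- Rational normal form of `a^(m-1)` and `a^(m-2)`. -/
structure S2 {F K : Type*} [Field F] [Field K] [Algebra F K] {n : ℕ}
    {R : Matrix (Fin n) (Fin n) K →ₗ[K] Matrix (Fin n) (Fin n) K} {w : ℕ} (Φ : Frame F R w)
    (a : Matrix (Fin n) (Fin n) K) (m : ℕ) {r q : ℕ} (y g h : Fin r → (Fin n → K))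
    (c : Fin r → F) (u t : Fin q → (Fin n → K)) (d : Fin q → F) : Prop where
  tr : aᵀ = a
  am : a ^ m = 0
  yV : ∀ i, y i ∈ Φ.V
  gV : ∀ i, g i ∈ Φ.V
  hV : ∀ i, h i ∈ Φ.V
  uV : ∀ i, u i ∈ Φ.V
  tV : ∀ i, t i ∈ Φ.V
  hc : ∀ i, c i ≠ 0
  hd : ∀ i, d i ≠ 0
  e : a ^ (m - 1) = ∑ i, algebraMap F K (c i) • vecMulVec (y i) (y i)
  b : a ^ (m - 2) = ∑ i, (vecMulVec (y i) (g i) + vecMulVec (g i) (y i)) +
    ∑ j, algebraMap F K (d j) • vecMulVec (u j) (u j)
  ay : ∀ i, a *ᵥ y i = 0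
  ag : ∀ i, a *ᵥ g i = algebraMap F K (c i) • y i
  au : ∀ i, a *ᵥ u i = 0
  hy : ∀ i j, h i ⬝ᵥ y j = if i = j then 1 else 0
  hu : ∀ i j, h i ⬝ᵥ u j = 0
  ty : ∀ i j, t i ⬝ᵥ y j = 0
  tu : ∀ i j, t i ⬝ᵥ u j = if i = j then 1 else 0
  eh : ∀ i, a ^ (m - 1) *ᵥ h i = algebraMap F K (c i) • y i
  bt : ∀ i, a ^ (m - 2) *ᵥ t i = algebraMap F K (d i) • u i
  bh : ∀ i, ∃ k : Fin r → F, a ^ (m - 2) *ᵥ h i = g i + ∑ j, algebraMap F K (k j) • y j

section

variable {F K : Type*} [Field F] [Field K] [CharZero K] [Algebra F K] {n : ℕ}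
  {R : Matrix (Fin n) (Fin n) K →ₗ[K] Matrix (Fin n) (Fin n) K} {w : ℕ} (Φ : Frame F R w)

theorem exists_S2 {a : Matrix (Fin n) (Fin n) K} (ha : aᵀ = a) (haM : a ∈ Φ.M) {m : ℕ}
    (hm : 2 ≤ m) (h0 : a ^ m = 0) :
    ∃ (r q : ℕ) (y g h : Fin r → (Fin n → K)) (c : Fin r → F) (u t : Fin q → (Fin n → K))
      (d : Fin q → F), S2 Φ a m y g h c u t d := by
  have hab : a * a ^ (m - 2) = a ^ (m - 1) := by
    rw [← pow_succ']
    congr 1
    omega
  have hba : a ^ (m - 2) * a = a ^ (m - 1) := by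
    rw [← pow_succ]
    congr 1
    omega
  have hae : a * a ^ (m - 1) = 0 := by
    rw [← pow_succ', show m - 1 + 1 = m by omega, h0]
  have hbt : (a ^ (m - 2))ᵀ = a ^ (m - 2) := pow_tr ha _
  have inj : ∀ c : F, c ≠ 0 → algebraMap F K c ≠ 0 := fun c hc h =>
    hc ((map_eq_zero (algebraMap F K)).1 h)
  obtain ⟨r, y, h, c, yV, hV, hc, hy, he⟩ := Φ.diag (Φ.pow haM (m - 1)) (pow_tr ha (m - 1))
  have hy' : ∀ i j, y j ⬝ᵥ h i = if i = j then 1 else 0 := fun i j => by rw [dotProduct_comm, hy]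
  have eh : ∀ i, a ^ (m - 1) *ᵥ h i = algebraMap F K (c i) • y i := by
    intro i
    rw [he, sum_mulVec]
    simp only [smul_mulVec, vmv_mulVec, hy', ite_smul, one_smul, zero_smul, smul_ite, smul_zero]
    rw [Finset.sum_ite_eq, if_pos (Finset.mem_univ i)]
  have ay : ∀ i, a *ᵥ y i = 0 := by
    intro i
    have h1 := congrArg (fun z => a *ᵥ z) (eh i)
    simp only [mulVec_smul, mulVec_mulVec, hae, zero_mulVec] at h1
    exact (smul_eq_zero.1 h1.symm).resolve_left (inj _ (hc i))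
  obtain ⟨g, β, hg, hb, hβt, hβh⟩ := polish hbt hy
  have bhk : ∀ i j, ∃ k : F, h j ⬝ᵥ (a ^ (m - 2) *ᵥ h i) = algebraMap F K k := fun i j =>
    Φ.dot _ (hV j) _ (Φ.act _ (Φ.pow haM _) _ (hV i))
  choose kk hkk using bhk
  have two : (2⁻¹ : K) = algebraMap F K 2⁻¹ := by
    rw [map_inv₀, map_ofNat]
  have bh : ∀ i, a ^ (m - 2) *ᵥ h i = g i + ∑ j, algebraMap F K (2⁻¹ * kk i j) • y j := by
    intro i
    have h1 : ∑ j, algebraMap F K (2⁻¹ * kk i j) • y j =
        (2⁻¹ : K) • ∑ j, (h j ⬝ᵥ (a ^ (m - 2) *ᵥ h i)) • y j := by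
      rw [Finset.smul_sum]
      refine Finset.sum_congr rfl fun j _ => ?_
      rw [hkk, smul_smul, map_mul, ← two]
    rw [h1, hg]
    abel
  have gV : ∀ i, g i ∈ Φ.V := by
    intro i
    have h1 : g i = a ^ (m - 2) *ᵥ h i - ∑ j, algebraMap F K (2⁻¹ * kk i j) • y j := by
      rw [bh]
      abel
    rw [h1]
    exact Φ.V.sub_mem (Φ.act _ (Φ.pow haM _) _ (hV i))
      (Φ.V.sum_mem fun j _ => Φ.smul_mem' (yV j) _)
  have ag : ∀ i, a *ᵥ g i = algebraMap F K (c i) • y i := by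
    intro i
    have h1 : g i = a ^ (m - 2) *ᵥ h i - ∑ j, algebraMap F K (2⁻¹ * kk i j) • y j := by
      rw [bh]
      abel
    rw [h1, mulVec_sub, mulVec_mulVec, hab, eh, mulVec_sum]
    simp only [mulVec_smul, ay, smul_zero, Finset.sum_const_zero, sub_zero]
  have hβM : β ∈ Φ.M := by
    have h1 : β = a ^ (m - 2) - ∑ i, (vecMulVec (y i) (g i) + vecMulVec (g i) (y i)) := by
      rw [hb]
      abel
    rw [h1]
    exact Φ.M.sub_mem (Φ.pow haM _) (Φ.M.sum_mem fun i _ =>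
      Φ.M.add_mem (Φ.vmv _ (yV i) _ (gV i)) (Φ.vmv _ (gV i) _ (yV i)))
  have haβ : a * β = 0 := by
    have h1 : β = a ^ (m - 2) - ∑ i, (vecMulVec (y i) (g i) + vecMulVec (g i) (y i)) := by
      rw [hb]
      abel
    rw [h1, Matrix.mul_sub, hab, Matrix.mul_sum]
    simp only [Matrix.mul_add, mul_vecMulVec, ay, ag, zero_vecMulVec, zero_add, smul_vecMulVec]
    rw [he, sub_self]
  obtain ⟨q, u, t0, d, uV, t0V, hd, htu, hβd⟩ := Φ.diag hβM hβt
  have htu' : ∀ i j, u j ⬝ᵥ t0 i = if i = j then 1 else 0 := fun i j => by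
    rw [dotProduct_comm, htu]
  have βt : ∀ i, β *ᵥ t0 i = algebraMap F K (d i) • u i := by
    intro i
    rw [hβd, sum_mulVec]
    simp only [smul_mulVec, vmv_mulVec, htu', ite_smul, one_smul, zero_smul, smul_ite, smul_zero]
    rw [Finset.sum_ite_eq, if_pos (Finset.mem_univ i)]
  have au : ∀ i, a *ᵥ u i = 0 := by
    intro i
    have h1 := congrArg (fun z => a *ᵥ z) (βt i)
    simp only [mulVec_smul, mulVec_mulVec, haβ, zero_mulVec] at h1
    exact (smul_eq_zero.1 h1.symm).resolve_left (inj _ (hd i))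
  have hu : ∀ i j, h i ⬝ᵥ u j = 0 := by
    intro i j
    have h1 : h i ⬝ᵥ (β *ᵥ t0 j) = 0 := by
      rw [← dot_symm hβt, hβh, zero_dotProduct]
    rw [βt, dotProduct_smul, smul_eq_mul] at h1
    exact (mul_eq_zero.1 h1).resolve_left (inj _ (hd j))
  have hu' : ∀ i j, u j ⬝ᵥ h i = 0 := fun i j => by rw [dotProduct_comm, hu]
  obtain ⟨t1, ht1⟩ : ∃ t1 : Fin q → (Fin n → K), ∀ j, t1 j = t0 j - ∑ i, (y i ⬝ᵥ t0 j) • h i :=
    ⟨_, fun _ => rfl⟩
  have yt1 : ∀ i j, y i ⬝ᵥ t1 j = 0 := by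
    intro i j
    rw [ht1, dotProduct_sub, dotProduct_sum]
    simp only [dotProduct_smul, hy', smul_eq_mul, mul_ite, mul_one, mul_zero]
    rw [Finset.sum_ite_eq', if_pos (Finset.mem_univ i), sub_self]
  have βt1 : ∀ j, β *ᵥ t1 j = algebraMap F K (d j) • u j := by
    intro j
    rw [ht1, mulVec_sub, mulVec_sum, βt]
    simp only [mulVec_smul, hβh, smul_zero, Finset.sum_const_zero, sub_zero]
  have t1V : ∀ j, t1 j ∈ Φ.V := by
    intro j
    rw [ht1]
    exact Φ.V.sub_mem (t0V j) (Φ.V.sum_mem fun i _ => Φ.smulK (hV i) (Φ.dot _ (yV i) _ (t0V j)))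
  obtain ⟨t, ht⟩ : ∃ t : Fin q → (Fin n → K), ∀ j, t j = t1 j -
      ∑ i, ((g i ⬝ᵥ t1 j) * (algebraMap F K (c i))⁻¹) • (a *ᵥ h i) := ⟨_, fun _ => rfl⟩
  have tV : ∀ j, t j ∈ Φ.V := by
    intro j
    rw [ht]
    refine Φ.V.sub_mem (t1V j) (Φ.V.sum_mem fun i _ => Φ.smulK (Φ.act _ haM _ (hV i)) ?_)
    obtain ⟨k, hk⟩ := Φ.dot _ (gV i) _ (t1V j)
    exact ⟨k * (c i)⁻¹, by rw [hk, map_mul, map_inv₀]⟩
  have ty : ∀ i j, t i ⬝ᵥ y j = 0 := by
    intro i j
    rw [dotProduct_comm, ht, dotProduct_sub, yt1, dotProduct_sum, zero_sub, neg_eq_zero]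
    refine Finset.sum_eq_zero fun k _ => ?_
    rw [dotProduct_smul, ← dot_symm ha, ay, zero_dotProduct, smul_zero]
  have tu : ∀ i j, t i ⬝ᵥ u j = if i = j then 1 else 0 := by
    intro i j
    rw [dotProduct_comm, ht, ht1, dotProduct_sub, dotProduct_sub, dotProduct_sum, dotProduct_sum,
      htu']
    rw [Finset.sum_eq_zero (fun k _ => by rw [dotProduct_smul, hu', smul_zero]),
      Finset.sum_eq_zero (fun k _ => by
        rw [dotProduct_smul, ← dot_symm ha, au, zero_dotProduct, smul_zero]), sub_zero, sub_zero]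
  have bt : ∀ i, a ^ (m - 2) *ᵥ t i = algebraMap F K (d i) • u i := by
    intro j
    have h1 : a ^ (m - 2) *ᵥ t1 j = ∑ i, (g i ⬝ᵥ t1 j) • y i + algebraMap F K (d j) • u j := by
      conv_lhs => rw [hb]
      rw [add_mulVec, sum_mulVec, βt1]
      simp only [add_mulVec, vmv_mulVec, yt1, zero_smul, add_zero]
    rw [ht, mulVec_sub, h1, mulVec_sum]
    have h2 : ∑ i, a ^ (m - 2) *ᵥ (((g i ⬝ᵥ t1 j) * (algebraMap F K (c i))⁻¹) • (a *ᵥ h i)) =
        ∑ i, (g i ⬝ᵥ t1 j) • y i := by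
      refine Finset.sum_congr rfl fun i _ => ?_
      rw [mulVec_smul, mulVec_mulVec, hba, eh, smul_smul, mul_assoc,
        inv_mul_cancel₀ (inj _ (hc i)), mul_one]
    rw [h2]
    abel
  refine ⟨r, q, y, g, h, c, u, t, d, ?_⟩
  refine ⟨ha, h0, yV, gV, hV, uV, tV, hc, hd, he, ?_, ay, ag, au, hy, hu, ty, tu, eh, bt,
    fun i => ⟨_, bh i⟩⟩
  rw [hb, ← hβd]

namespace S2

variable {Φ} {a : Matrix (Fin n) (Fin n) K} {m : ℕ} {r q : ℕ} {y g h : Fin r → (Fin n → K)}
    {c : Fin r → F} {u t : Fin q → (Fin n → K)} {d : Fin q → F} (D : S2 Φ a m y g h c u t d)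

include D

omit [CharZero K] in
theorem cK (i : Fin r) : algebraMap F K (c i) ≠ 0 := fun h =>
  D.hc i ((map_eq_zero (algebraMap F K)).1 h)

omit [CharZero K] in
theorem dK (i : Fin q) : algebraMap F K (d i) ≠ 0 := fun h =>
  D.hd i ((map_eq_zero (algebraMap F K)).1 h)

omit [CharZero K] in
/-- The Witt index bounds the number of blocks. -/
theorem count (haM : a ∈ Φ.M) (hm : 2 ≤ m) : r * (m / 2) + q * ((m - 1) / 2) ≤ w := by
  have h1 := Φ.count (a := a) D.tr haM (ι := Fin r ⊕ Fin q) (y := Sum.elim h t)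
    (l := Sum.elim (fun _ => m - 1) (fun _ => m - 2)) (by
      rintro (i | i)
      · exact D.hV i
      · exact D.tV i) (by
      rintro (i | i)
      · change a ^ (m - 1 + 1) *ᵥ h i = 0
        rw [show m - 1 + 1 = m by omega, D.am, zero_mulVec]
      · change a ^ (m - 2 + 1) *ᵥ t i = 0
        rw [pow_succ', ← mulVec_mulVec, D.bt, mulVec_smul, D.au, smul_zero]) (by
      have h2 : (fun j : Fin r ⊕ Fin q => a ^ ((Sum.elim (fun _ => m - 1) (fun _ => m - 2) :
          Fin r ⊕ Fin q → ℕ) j) *ᵥ (Sum.elim h t : Fin r ⊕ Fin q → (Fin n → K)) j) =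
          Sum.elim (fun i => algebraMap F K (c i) • y i) (fun j => algebraMap F K (d j) • u j) := by
        funext j
        rcases j with i | i
        · exact D.eh i
        · exact D.bt i
      rw [h2]
      refine indep_of_dual (h := Sum.elim h t) ?_ ?_
      · rintro (i | i) (j | j) hij
        · change h i ⬝ᵥ (algebraMap F K (c j) • y j) = 0
          rw [dotProduct_smul, D.hy, if_neg (fun h => hij (by rw [h])), smul_zero]
        · change h i ⬝ᵥ (algebraMap F K (d j) • u j) = 0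
          rw [dotProduct_smul, D.hu, smul_zero]
        · change t i ⬝ᵥ (algebraMap F K (c j) • y j) = 0
          rw [dotProduct_smul, D.ty, smul_zero]
        · change t i ⬝ᵥ (algebraMap F K (d j) • u j) = 0
          rw [dotProduct_smul, D.tu, if_neg (fun h => hij (by rw [h])), smul_zero]
      · rintro (i | i)
        · change h i ⬝ᵥ (algebraMap F K (c i) • y i) ≠ 0
          rw [dotProduct_smul, D.hy, if_pos rfl, smul_eq_mul, mul_one]
          exact D.cK i
        · change t i ⬝ᵥ (algebraMap F K (d i) • u i) ≠ 0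
          rw [dotProduct_smul, D.tu, if_pos rfl, smul_eq_mul, mul_one]
          exact D.dK i)
  rw [Fintype.sum_sum_type] at h1
  simp only [Sum.elim_inl, Sum.elim_inr, Finset.sum_const, Finset.card_univ, Fintype.card_fin,
    smul_eq_mul] at h1
  have h2 : m - 1 + 1 = m := by omega
  have h3 : m - 2 + 1 = m - 1 := by omega
  rw [h2, h3] at h1
  exact h1

end S2

end

end Pool.Agent.MP_f4742e_al
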