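import Pool.Agent.Lib.MP_f4742e_al.X.Count
import Pool.Agent.Lib.MP_f4742e_al.X.Struct

/-!
The type `(3, 3, 2, 1, ..., 1)` with Witt index three: data and basic facts.
-/

set_option autoImplicit false
set_option linter.unusedSectionVars false

namespace Pool.Agent.MP_f4742e_al

open Matrix

/-- Data of type `(3, 3, 2, ...)` over `K`, with rational vectors. -/
structure D3 (F : Type*) {K : Type*} [Field F] [Field K] [Algebra F K] {n : ℕ}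
    {R : Matrix (Fin n) (Fin n) K →ₗ[K] Matrix (Fin n) (Fin n) K} {w : ℕ} (Φ : Frame F R w)
    (k1 k2 k : K) (f1 f2 g1 g2 u h1 h2 u0 : Fin n → K) : Prop where
  k1r : ∃ d : F, k1 = algebraMap F K d
  k2r : ∃ d : F, k2 = algebraMap F K d
  k1n : k1 ≠ 0
  k2n : k2 ≠ 0
  kn : k ≠ 0
  f1V : f1 ∈ Φ.V
  f2V : f2 ∈ Φ.V
  g1V : g1 ∈ Φ.V
  g2V : g2 ∈ Φ.V
  uV : u ∈ Φ.V
  u0V : u0 ∈ Φ.V
  a : R 1 = k1 • (vecMulVec f1 g1 + vecMulVec g1 f1) + k2 • (vecMulVec f2 g2 + vecMulVec g2 f2) +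
    k • vecMulVec u u
  e : R 1 * R 1 = k1 • vecMulVec f1 f1 + k2 • vecMulVec f2 f2
  f11 : f1 ⬝ᵥ f1 = 0
  f12 : f1 ⬝ᵥ f2 = 0
  f22 : f2 ⬝ᵥ f2 = 0
  a11 : f1 ⬝ᵥ g1 = 0
  a12 : f1 ⬝ᵥ g2 = 0
  a21 : f2 ⬝ᵥ g1 = 0
  a22 : f2 ⬝ᵥ g2 = 0
  f1u : f1 ⬝ᵥ u = 0
  f2u : f2 ⬝ᵥ u = 0
  uu : u ⬝ᵥ u = 0
  g1u : g1 ⬝ᵥ u = 0
  g2u : g2 ⬝ᵥ u = 0
  g11 : k1 * (g1 ⬝ᵥ g1) = 1
  g12 : g1 ⬝ᵥ g2 = 0
  g22 : k2 * (g2 ⬝ᵥ g2) = 1
  h11 : h1 ⬝ᵥ f1 = 1
  h12 : h1 ⬝ᵥ f2 = 0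
  h1u : h1 ⬝ᵥ u = 0
  h21 : h2 ⬝ᵥ f1 = 0
  h22 : h2 ⬝ᵥ f2 = 1
  h2u : h2 ⬝ᵥ u = 0
  u01 : u0 ⬝ᵥ f1 = 0
  u02 : u0 ⬝ᵥ f2 = 0
  u0u : u0 ⬝ᵥ u = 1

/-- Linear conditions on `R x` have to be checked for rational symmetric `x` only. -/
theorem Frame.lin_ext {F K : Type*} [Field F] [Field K] [Algebra F K] [CharZero K] {n : ℕ}
    {R : Matrix (Fin n) (Fin n) K →ₗ[K] Matrix (Fin n) (Fin n) K} {w : ℕ} (Φ : Frame F R w)
    (hR : SRB R) {W : Type*} [AddCommGroup W] [Module K W]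
    (T : Matrix (Fin n) (Fin n) K →ₗ[K] W)
    (h : ∀ x ∈ Φ.M, xᵀ = x → T (R x) = 0) (x : Matrix (Fin n) (Fin n) K) : T (R x) = 0 := by
  have h1 : ∀ x, xᵀ = x → T (R x) = 0 := by
    intro x hx
    refine Φ.sym_ind (P := fun x => T (R x) = 0) h ?_ ?_ x hx
    · intro x y hx hy
      rw [map_add, map_add, hx, hy, add_zero]
    · intro c x hx
      rw [map_smul, map_smul, hx, smul_zero]
  have h2 : R x = R ((2 : K)⁻¹ • (x + xᵀ)) := by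
    rw [map_smul, map_add, hR.ti, ← two_smul K, smul_smul, inv_mul_cancel₀ two_ne_zero, one_smul]
  rw [h2]
  apply h1
  rw [transpose_smul, transpose_add, transpose_transpose, add_comm]

namespace D3

variable {F K : Type*} [Field F] [Field K] [CharZero K] [Algebra F K] {n : ℕ}
  {R : Matrix (Fin n) (Fin n) K →ₗ[K] Matrix (Fin n) (Fin n) K} (hR : SRB R) {Φ : Frame F R 3}
  {k1 k2 k : K} {f1 f2 g1 g2 u h1 h2 u0 : Fin n → K}
  (D : D3 F Φ k1 k2 k f1 f2 g1 g2 u h1 h2 u0)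

include D

theorem aw (v : Fin n → K) : R 1 *ᵥ v = k1 • ((g1 ⬝ᵥ v) • f1 + (f1 ⬝ᵥ v) • g1) +
    k2 • ((g2 ⬝ᵥ v) • f2 + (f2 ⬝ᵥ v) • g2) + k • (u ⬝ᵥ v) • u := by
  rw [D.a]
  simp only [add_mulVec, smul_mulVec, vmv_mulVec]

theorem ew (v : Fin n → K) : (R 1 * R 1) *ᵥ v = k1 • (f1 ⬝ᵥ v) • f1 + k2 • (f2 ⬝ᵥ v) • f2 := by
  rw [D.e]
  simp only [add_mulVec, smul_mulVec, vmv_mulVec]

theorem af1 : R 1 *ᵥ f1 = 0 := by
  rw [D.aw, dotProduct_comm g1, D.a11, D.f11, dotProduct_comm g2, D.a12, dotProduct_comm f2,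
    D.f12, dotProduct_comm u, D.f1u]
  simp

theorem af2 : R 1 *ᵥ f2 = 0 := by
  rw [D.aw, dotProduct_comm g1, D.a21, D.f12, dotProduct_comm g2, D.a22, D.f22,
    dotProduct_comm u, D.f2u]
  simp

theorem au : R 1 *ᵥ u = 0 := by
  rw [D.aw, D.g1u, D.f1u, D.g2u, D.f2u, D.uu]
  simp

theorem ag1 : R 1 *ᵥ g1 = f1 := by
  rw [D.aw, D.a11, dotProduct_comm g2, D.g12, D.a21, dotProduct_comm u, D.g1u]
  simp only [zero_smul, add_zero, smul_zero]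
  rw [smul_smul, D.g11, one_smul]

theorem eE : R 1 * R 1 = (R 1) ^ 2 := (pow_two _).symm

omit D in
/-- Isotropic rational vectors orthogonal to `f1, f2, u`. -/
theorem mem_of (D : D3 F Φ k1 k2 k f1 f2 g1 g2 u h1 h2 u0) {v : Fin n → K} (hv : v ∈ Φ.V)
    (e1 : f1 ⬝ᵥ v = 0) (e2 : f2 ⬝ᵥ v = 0)
    (e3 : u ⬝ᵥ v = 0) (e4 : v ⬝ᵥ v = 0) :
    v = (h1 ⬝ᵥ v) • f1 + (h2 ⬝ᵥ v) • f2 + (u0 ⬝ᵥ v) • u := by
  obtain ⟨v', hv'⟩ : ∃ v', v' = v - ((h1 ⬝ᵥ v) • f1 + (h2 ⬝ᵥ v) • f2 + (u0 ⬝ᵥ v) • u) := ⟨_, rfl⟩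
  by_contra hne
  have hv0 : v' ≠ 0 := by
    rw [hv']
    exact fun h => hne (sub_eq_zero.1 h)
  have g1' : h1 ⬝ᵥ v' = 0 := by
    rw [hv', dotProduct_sub, dotProduct_add, dotProduct_add, dotProduct_smul, dotProduct_smul,
      dotProduct_smul, D.h11, D.h12, D.h1u]
    simp
  have g2' : h2 ⬝ᵥ v' = 0 := by
    rw [hv', dotProduct_sub, dotProduct_add, dotProduct_add, dotProduct_smul, dotProduct_smul,
      dotProduct_smul, D.h21, D.h22, D.h2u]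
    simp
  have g3' : u0 ⬝ᵥ v' = 0 := by
    rw [hv', dotProduct_sub, dotProduct_add, dotProduct_add, dotProduct_smul, dotProduct_smul,
      dotProduct_smul, D.u01, D.u02, D.u0u]
    simp
  have hind : LinearIndependent K ![f1, f2, u, v] := by
    rw [Fintype.linearIndependent_iff]
    intro c hc
    simp only [Fin.sum_univ_four, Matrix.cons_val_zero, Matrix.cons_val_one, Matrix.cons_val] at hc
    have hv2 : v = v' + ((h1 ⬝ᵥ v) • f1 + (h2 ⬝ᵥ v) • f2 + (u0 ⬝ᵥ v) • u) := by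
      rw [hv']
      abel
    have hc3 : c 3 • v' = -((c 0 + c 3 * (h1 ⬝ᵥ v)) • f1 + (c 1 + c 3 * (h2 ⬝ᵥ v)) • f2 +
        (c 2 + c 3 * (u0 ⬝ᵥ v)) • u) := by
      rw [hv', eq_neg_iff_add_eq_zero, ← hc]
      module
    have q1 := congrArg (fun z => h1 ⬝ᵥ z) hc3
    have q2 := congrArg (fun z => h2 ⬝ᵥ z) hc3
    have q3 := congrArg (fun z => u0 ⬝ᵥ z) hc3
    simp only [dotProduct_smul, dotProduct_neg, dotProduct_add, g1', g2', g3', D.h11, D.h12,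
      D.h1u, D.h21, D.h22, D.h2u, D.u01, D.u02, D.u0u, smul_eq_mul, mul_zero, mul_one, add_zero,
      zero_add] at q1 q2 q3
    rw [neg_eq_zero.1 q1.symm, neg_eq_zero.1 q2.symm, neg_eq_zero.1 q3.symm] at hc3
    simp only [zero_smul, add_zero, neg_zero] at hc3
    have hc3' : c 3 = 0 := (smul_eq_zero.1 hc3).resolve_right hv0
    rw [hc3', zero_mul, add_zero] at q1 q2 q3
    intro i
    fin_cases i
    · exact neg_eq_zero.1 q1.symm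
    · exact neg_eq_zero.1 q2.symm
    · exact neg_eq_zero.1 q3.symm
    · exact hc3'
  have h5 := Φ.wi 4 ![f1, f2, u, v] (by
    intro i
    fin_cases i
    · exact D.f1V
    · exact D.f2V
    · exact D.uV
    · exact hv) (by
    have e1' := e1
    have e2' := e2
    have e3' := e3
    rw [dotProduct_comm] at e1' e2' e3'
    have d1 := D.f12
    have d2 := D.f1u
    have d3 := D.f2u
    rw [dotProduct_comm] at d1 d2 d3
    intro i j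
    fin_cases i <;> fin_cases j
    · exact D.f11
    · exact D.f12
    · exact D.f1u
    · exact e1
    · exact d1
    · exact D.f22
    · exact D.f2u
    · exact e2
    · exact d2
    · exact d3
    · exact D.uu
    · exact e3
    · exact e1'
    · exact e2'
    · exact e3'
    · exact e4) hind
  omega

/-- The value of `a` on vectors orthogonal to `f1, f2`. -/
theorem dot_a {v : Fin n → K} (e1 : f1 ⬝ᵥ v = 0) (e2 : f2 ⬝ᵥ v = 0) :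
    v ⬝ᵥ (R 1 *ᵥ v) = k * (u ⬝ᵥ v) * (u ⬝ᵥ v) := by
  rw [D.aw, e1, e2]
  simp only [dotProduct_add, dotProduct_smul, zero_smul, add_zero, smul_eq_mul]
  rw [dotProduct_comm v f1, dotProduct_comm v f2, e1, e2, dotProduct_comm v u]
  ring

include hR

theorem a3 : (R 1) ^ 3 = 0 := by
  rw [pow_succ, ← D.eE, D.e, add_mul, smul_mul_assoc, smul_mul_assoc, vmv_mul (hR.tr 1),
    vmv_mul (hR.tr 1), D.af1, D.af2]
  have h1 : ∀ v : Fin n → K, vecMulVec v (0 : Fin n → K) = 0 := by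
    intro v
    ext i j
    simp [vecMulVec_apply]
  rw [h1, h1]
  simp

theorem sq_mem (x : Matrix (Fin n) (Fin n) K) : R x * R x = R (jp x (R x)) := by
  have h1 := hR.rb x x
  have h2 : jp (R x) (R x) = (2 : K) • (R x * R x) := by
    unfold jp
    rw [two_smul]
  rw [h2, jp_comm (R x) x, ← two_smul K, map_smul] at h1
  exact smul_right_injective _ (two_ne_zero (α := K)) h1

theorem Ra : R (R 1) = (2 : K)⁻¹ • (R 1 * R 1) := by
  have h1 := R_b hR.rb (m := 3) (by norm_num)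
  rw [show 3 - 2 = 1 from rfl, show 3 - 1 = 2 from rfl, pow_one, ← D.eE] at h1
  rw [h1]
  norm_num

theorem Re : R (R 1 * R 1) = 0 := by
  have h1 := R_e hR.rb (m := 3) (by norm_num) (D.a3 hR)
  rwa [show 3 - 1 = 2 from rfl, ← D.eE] at h1

theorem Rexe (x : Matrix (Fin n) (Fin n) K) :
    R (R 1 * R 1 * x * (R 1 * R 1)) = R 1 * R 1 * R x * (R 1 * R 1) := by
  have h1 := R_exe hR.rb (m := 3) (by norm_num) (D.a3 hR) x
  rwa [show 3 - 1 = 2 from rfl, ← D.eE] at h1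

end D3

end Pool.Agent.MP_f4742e_al
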