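import Pool.Agent.Lib.MP_f4742e_al.X.M2
import Pool.Agent.Lib.MP_f4742e_al.H67RankOne

/-!
The case `(R 1)^2 = 0`, rank two: the kernel line of the forms `f ⬝ (R x) f'` on the image of
`R 1`.
-/

set_option autoImplicit false

namespace Pool.Agent.MP_f4742e_al

open Matrix

section

variable {K : Type*} [Field K] [CharZero K] {n : ℕ}
  {R : Matrix (Fin n) (Fin n) K →ₗ[K] Matrix (Fin n) (Fin n) K} (hR : SRB R)
  (ha : R 1 * R 1 = 0)

include hR ha

namespace F2

/-- `R (a s) = 0`. -/
theorem R_as (x : Matrix (Fin n) (Fin n) K) : R (R 1 * R x) = 0 := by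
  have h1 := H67.R_jp_a hR.rb ha x
  unfold jp at h1
  have h2 : R (R x * R 1) = R (R 1 * R x) := by
    have h3 : R x * R 1 = (R 1 * R x)ᵀ := by
      rw [transpose_mul, hR.tr, hR.tr]
    rw [h3, hR.ti]
  rw [map_add, h2, ← two_smul K] at h1
  exact (smul_eq_zero.1 h1).resolve_left two_ne_zero

theorem R_sa (x : Matrix (Fin n) (Fin n) K) : R (R x * R 1) = 0 := by
  have h3 : R x * R 1 = (R 1 * R x)ᵀ := by
    rw [transpose_mul, hR.tr, hR.tr]
  rw [h3, hR.ti, R_as hR ha]

/-- `a s a = θ a` only for `θ = 0`. -/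
theorem theta_zero (h0 : R 1 ≠ 0) {x : Matrix (Fin n) (Fin n) K} {θ : K}
    (h : R 1 * R x * R 1 = θ • R 1) : θ = 0 := by
  obtain ⟨a, haa⟩ : ∃ a, a = R 1 := ⟨_, rfl⟩
  obtain ⟨s, hs⟩ : ∃ s, s = R x := ⟨_, rfl⟩
  rw [← haa, ← hs] at h
  have h1 : s * a * s = R (x * a * s + s * a * x + s * s) := by
    have h2 := closure_sq hR.rb 1 x
    simp only [pow_one, Nat.cast_one, one_smul, Nat.sub_self, pow_zero, Matrix.mul_one] at h2
    rw [hs, haa]
    exact h2
  have h2 : a * (s * a * s) * a = R (a * (x * a * s + s * a * x + s * s) * a) := by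
    rw [h1, haa]
    exact (H67.R_U hR.rb ha _).symm
  have h3 : a * (x * a * s + s * a * x + s * s) * a =
      θ • (a * x * a) + θ • (a * x * a) + a * s * s * a := by
    have e1 : a * (x * a * s) * a = θ • (a * x * a) := by
      have : a * (x * a * s) * a = a * x * (a * s * a) := by noncomm_ring
      rw [this, h, mul_smul_comm]
    have e2 : a * (s * a * x) * a = θ • (a * x * a) := by
      have : a * (s * a * x) * a = (a * s * a) * (x * a) := by noncomm_ring
      rw [this, h, smul_mul_assoc, Matrix.mul_assoc]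
    have e3 : a * (x * a * s + s * a * x + s * s) * a =
        a * (x * a * s) * a + a * (s * a * x) * a + a * s * s * a := by noncomm_ring
    rw [e3, e1, e2]
  have h4 : R (a * s * s * a) = 0 := by
    have hk : R (s * a + a * s) = 0 := by
      rw [map_add, hs, haa, R_as hR ha, R_sa hR ha, add_zero]
    have hkt : (s * a + a * s)ᵀ = s * a + a * s := by
      rw [transpose_add, transpose_mul, transpose_mul, hs, haa, hR.tr, hR.tr, add_comm]
    have h5 := hR.K hkt hk 1 x
    rw [pow_one, ← haa, ← hs] at h5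
    have e1 : a * s * (s * a + a * s) = a * s * s * a + (a * s * a) * s := by noncomm_ring
    rw [e1, h, smul_mul_assoc, map_add, map_smul] at h5
    have h6 : R (a * s) = 0 := by
      rw [haa, hs]
      exact R_as hR ha x
    rw [h6, smul_zero, add_zero] at h5
    exact h5
  have h5 : R (a * x * a) = θ • a := by
    rw [← h, hs, haa]
    exact H67.R_U hR.rb ha x
  have h6 : a * (s * a * s) * a = (θ * θ) • a := by
    have : a * (s * a * s) * a = (a * s * a) * (s * a) := by noncomm_ring
    rw [this, h, smul_mul_assoc]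
    have : a * (s * a) = a * s * a := by noncomm_ring
    rw [this, h, smul_smul]
  rw [h6, h3, map_add, map_add, map_smul, h4, h5, add_zero, smul_smul] at h2
  have h7 : (θ * θ) • a = 0 := by
    have h8 := congrArg (fun M => M - (θ * θ) • a) h2
    simp only [sub_self, add_sub_cancel_right] at h8
    exact h8.symm
  rcases smul_eq_zero.1 h7 with h8 | h8
  · exact mul_self_eq_zero.1 h8
  · exact absurd (haa ▸ h8) h0

end F2

end

/-- vectors orthogonal to a maximal isotropic pair -/
theorem Frame.an2 {F K : Type*} [Field F] [Field K] [Algebra F K] {n : ℕ}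
    {R : Matrix (Fin n) (Fin n) K →ₗ[K] Matrix (Fin n) (Fin n) K} (Φ : Frame F R 2)
    {u w y : Fin n → K} (hu : u ∈ Φ.V) (hw : w ∈ Φ.V) (hy : y ∈ Φ.V)
    (hi : LinearIndependent K ![u, w]) (huu : u ⬝ᵥ u = 0) (huw : u ⬝ᵥ w = 0) (hww : w ⬝ᵥ w = 0)
    (huy : u ⬝ᵥ y = 0) (hwy : w ⬝ᵥ y = 0) (hyy : y ⬝ᵥ y = 0) : ∃ α β : K, y = α • u + β • w := by
  by_contra hcon
  have hind : LinearIndependent K ![u, w, y] := by
    rw [Fintype.linearIndependent_iff]
    intro g hg
    simp only [Fin.sum_univ_three, cons_val_zero, cons_val_one, cons_val] at hg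
    have h2 : g 2 = 0 := by
      by_contra h3
      apply hcon
      refine ⟨-(g 0 / g 2), -(g 1 / g 2), ?_⟩
      have h4 : g 2 • y = -(g 0 • u) - g 1 • w := by
        rw [eq_sub_iff_add_eq, eq_neg_iff_add_eq_zero, ← hg]
        abel
      have h5 : y = (g 2)⁻¹ • (g 2 • y) := by rw [smul_smul, inv_mul_cancel₀ h3, one_smul]
      rw [h5, h4]
      module
    rw [h2, zero_smul, add_zero] at hg
    rw [LinearIndependent.pair_iff] at hi
    obtain ⟨h3, h4⟩ := hi _ _ hg
    intro i
    fin_cases i
    · exact h3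
    · exact h4
    · exact h2
  have h1 := Φ.wi 3 ![u, w, y] (by
    intro i
    fin_cases i
    · exact hu
    · exact hw
    · exact hy) (by
    intro i j
    fin_cases i <;> fin_cases j
    · exact huu
    · exact huw
    · exact huy
    · exact (dotProduct_comm _ _).trans huw
    · exact hww
    · exact hwy
    · exact (dotProduct_comm _ _).trans huy
    · exact (dotProduct_comm _ _).trans hwy
    · exact hyy) hind
  omega

end Pool.Agent.MP_f4742e_al
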