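import Pool.Agent.Lib.MP_f4742e_al.X.F2Gen

/-!
The case `(R 1)^2 = 0`, rank two: the forms `f ⬝ (R x) f'` on the image of `R 1` are proportional
and degenerate.
-/

set_option autoImplicit false

namespace Pool.Agent.MP_f4742e_al

open Matrix

/-- `R 1` of rank two, with dual vectors. -/
structure RK2 {K : Type*} [Field K] {n : ℕ}
    (R : Matrix (Fin n) (Fin n) K →ₗ[K] Matrix (Fin n) (Fin n) K) (C1 C2 : K)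
    (f1 f2 h1 h2 : Fin n → K) : Prop where
  hC1 : C1 ≠ 0
  hC2 : C2 ≠ 0
  e : R 1 = C1 • vecMulVec f1 f1 + C2 • vecMulVec f2 f2
  ee : R 1 * R 1 = 0
  h11 : h1 ⬝ᵥ f1 = 1
  h12 : h1 ⬝ᵥ f2 = 0
  h21 : h2 ⬝ᵥ f1 = 0
  h22 : h2 ⬝ᵥ f2 = 1

namespace RK2

variable {K : Type*} [Field K] [CharZero K] {n : ℕ}
  {R : Matrix (Fin n) (Fin n) K →ₗ[K] Matrix (Fin n) (Fin n) K} (hR : SRB R)
  {C1 C2 : K} {f1 f2 h1 h2 : Fin n → K} (D : RK2 R C1 C2 f1 f2 h1 h2)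

include D

omit [CharZero K] in
theorem ext3 {x y z x' y' z' : K} (h : x • vecMulVec f1 f1 + y • (vecMulVec f1 f2 +
    vecMulVec f2 f1) + z • vecMulVec f2 f2 = x' • vecMulVec f1 f1 + y' • (vecMulVec f1 f2 +
    vecMulVec f2 f1) + z' • vecMulVec f2 f2) : x = x' ∧ y = y' ∧ z = z' := by
  have key : ∀ u w : Fin n → K, ∀ x y z : K, u ⬝ᵥ ((x • vecMulVec f1 f1 + y • (vecMulVec f1 f2 +
      vecMulVec f2 f1) + z • vecMulVec f2 f2) *ᵥ w) = x * (w ⬝ᵥ f1) * (u ⬝ᵥ f1) +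
        y * ((w ⬝ᵥ f2) * (u ⬝ᵥ f1) + (w ⬝ᵥ f1) * (u ⬝ᵥ f2)) + z * (w ⬝ᵥ f2) * (u ⬝ᵥ f2) := by
    intro u w x y z
    simp only [add_mulVec, smul_mulVec, vmv_mulVec, dotProduct_add, dotProduct_smul, smul_eq_mul,
      dotProduct_comm f1 w, dotProduct_comm f2 w]
    ring
  have e1 := congrArg (fun M => h1 ⬝ᵥ (M *ᵥ h1)) h
  have e2 := congrArg (fun M => h1 ⬝ᵥ (M *ᵥ h2)) h
  have e3 := congrArg (fun M => h2 ⬝ᵥ (M *ᵥ h2)) h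
  simp only [key, D.h11, D.h12, D.h21, D.h22] at e1 e2 e3
  refine ⟨?_, ?_, ?_⟩
  · linear_combination e1
  · linear_combination e2
  · linear_combination e3

omit [CharZero K] in
theorem U_form {M : Matrix (Fin n) (Fin n) K} (hM : Mᵀ = M) : R 1 * M * R 1 =
    (C1 * C1 * (f1 ⬝ᵥ (M *ᵥ f1))) • vecMulVec f1 f1 + (C1 * C2 * (f1 ⬝ᵥ (M *ᵥ f2))) •
      (vecMulVec f1 f2 + vecMulVec f2 f1) + (C2 * C2 * (f2 ⬝ᵥ (M *ᵥ f2))) • vecMulVec f2 f2 := by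
  have h3 : f2 ⬝ᵥ (M *ᵥ f1) = f1 ⬝ᵥ (M *ᵥ f2) := dot_symm' hM _ _
  have h4 : ∀ u w y z : Fin n → K, vecMulVec u w * M * vecMulVec y z =
      (w ⬝ᵥ (M *ᵥ y)) • vecMulVec u z := by
    intro u w y z
    rw [Matrix.mul_assoc, mul_vecMulVec, vecMulVec_mul_vecMulVec, vecMulVec_smul]
  rw [D.e]
  simp only [Matrix.add_mul, Matrix.mul_add, smul_mul_assoc, mul_smul_comm, h4, h3, smul_smul]
  module

omit [CharZero K] in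
theorem ne_zero : R 1 ≠ 0 := by
  intro h
  have h1 : C1 • vecMulVec f1 f1 + (0 : K) • (vecMulVec f1 f2 + vecMulVec f2 f1) +
      C2 • vecMulVec f2 f2 = (0 : K) • vecMulVec f1 f1 + (0 : K) • (vecMulVec f1 f2 +
      vecMulVec f2 f1) + (0 : K) • vecMulVec f2 f2 := by
    rw [zero_smul, zero_smul, zero_smul, add_zero, add_zero, add_zero, ← D.e, h]
  exact D.hC1 (D.ext3 h1).1

include hR

/-- The relation between `R (f1 f1ᵀ)` and `R (f1 f2ᵀ)`. -/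
theorem star (x : Matrix (Fin n) (Fin n) K) :
    (C1 * (f1 ⬝ᵥ (R x *ᵥ f1)) - C2 * (f2 ⬝ᵥ (R x *ᵥ f2))) • Bf R f1 f1 +
      (2 * C2 * (f1 ⬝ᵥ (R x *ᵥ f2))) • Bf R f1 f2 = 0 := by
  have h1 : R (R 1 * R x * R 1) = 0 := by
    have h2 := H67.R_R_U hR.rb D.ee x
    rw [H67.R_U hR.rb D.ee] at h2
    exact h2
  have h3 : C1 • Bf R f1 f1 + C2 • Bf R f2 f2 = 0 := by
    have h4 := H67.R_a hR.rb D.ee
    rw [D.e, map_add, map_smul, map_smul, ← Bf_apply, ← Bf_apply] at h4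
    exact h4
  rw [D.U_form (hR.tr x), map_add, map_add, map_smul, map_smul, map_smul, map_add, ← Bf_apply,
    ← Bf_apply, ← Bf_apply, ← Bf_apply, Bf_comm hR f2 f1] at h1
  have h5 : C1 • ((C1 * (f1 ⬝ᵥ (R x *ᵥ f1)) - C2 * (f2 ⬝ᵥ (R x *ᵥ f2))) • Bf R f1 f1 +
      (2 * C2 * (f1 ⬝ᵥ (R x *ᵥ f2))) • Bf R f1 f2) = 0 := by
    have h6 : C1 • ((C1 * (f1 ⬝ᵥ (R x *ᵥ f1)) - C2 * (f2 ⬝ᵥ (R x *ᵥ f2))) • Bf R f1 f1 +
        (2 * C2 * (f1 ⬝ᵥ (R x *ᵥ f2))) • Bf R f1 f2) =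
        ((C1 * C1 * (f1 ⬝ᵥ (R x *ᵥ f1))) • Bf R f1 f1 + (C1 * C2 * (f1 ⬝ᵥ (R x *ᵥ f2))) •
      (Bf R f1 f2 + Bf R f1 f2) + (C2 * C2 * (f2 ⬝ᵥ (R x *ᵥ f2))) • Bf R f2 f2) -
        (C2 * (f2 ⬝ᵥ (R x *ᵥ f2))) • (C1 • Bf R f1 f1 + C2 • Bf R f2 f2) := by
      module
    rw [h6, h1, h3, smul_zero, sub_zero]
  exact (smul_eq_zero.1 h5).resolve_left D.hC1

theorem U_zero_of {x : Matrix (Fin n) (Fin n) K}
    (hd : C1 * (f1 ⬝ᵥ (R x *ᵥ f1)) - C2 * (f2 ⬝ᵥ (R x *ᵥ f2)) = 0)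
    (he : f1 ⬝ᵥ (R x *ᵥ f2) = 0) : R 1 * R x * R 1 = 0 := by
  have h1 : R 1 * R x * R 1 = (C1 * (f1 ⬝ᵥ (R x *ᵥ f1))) • R 1 := by
    rw [D.U_form (hR.tr x), he]
    have h2 : C2 * (f2 ⬝ᵥ (R x *ᵥ f2)) = C1 * (f1 ⬝ᵥ (R x *ᵥ f1)) := by linear_combination -hd
    rw [D.e, mul_assoc C2 C2, h2]
    module
  have h2 := F2.theta_zero hR D.ee D.ne_zero h1
  rw [h1, h2, zero_smul]

/-- All `a s a` are proportional. -/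
theorem prop {x0 : Matrix (Fin n) (Fin n) K} (h0 : R 1 * R x0 * R 1 ≠ 0)
    (x : Matrix (Fin n) (Fin n) K) : ∃ κ : K, R 1 * R x * R 1 = κ • (R 1 * R x0 * R 1) := by
  have hB : Bf R f1 f1 ≠ 0 ∨ Bf R f1 f2 ≠ 0 := by
    by_contra hcon
    push Not at hcon
    obtain ⟨e1, e2⟩ := hcon
    apply h0
    have h3 : C1 • Bf R f1 f1 + C2 • Bf R f2 f2 = 0 := by
      have h4 := H67.R_a hR.rb D.ee
      rw [D.e, map_add, map_smul, map_smul, ← Bf_apply, ← Bf_apply] at h4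
      exact h4
    rw [e1, smul_zero, zero_add] at h3
    have e3 := (smul_eq_zero.1 h3).resolve_left D.hC2
    obtain ⟨y, hy⟩ : ∃ y, y = (2 : K)⁻¹ • (x0 + x0ᵀ) := ⟨_, rfl⟩
    have hyt : yᵀ = y := by
      rw [hy, transpose_smul, transpose_add, transpose_transpose, add_comm]
    have hRy : R y = R x0 := by
      rw [hy, map_smul, map_add, hR.ti, ← two_smul K, smul_smul, inv_mul_cancel₀ two_ne_zero,
        one_smul]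
    rw [← hRy, ← H67.R_U hR.rb D.ee, D.U_form hyt, map_add, map_add, map_smul, map_smul,
      map_smul, map_add, ← Bf_apply, ← Bf_apply, ← Bf_apply, ← Bf_apply, Bf_comm hR f2 f1, e1, e2,
      e3]
    simp
  have hdet : ∀ x' : Matrix (Fin n) (Fin n) K,
      (C1 * (f1 ⬝ᵥ (R x *ᵥ f1)) - C2 * (f2 ⬝ᵥ (R x *ᵥ f2))) * (f1 ⬝ᵥ (R x' *ᵥ f2)) =
      (C1 * (f1 ⬝ᵥ (R x' *ᵥ f1)) - C2 * (f2 ⬝ᵥ (R x' *ᵥ f2))) * (f1 ⬝ᵥ (R x *ᵥ f2)) := by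
    intro x'
    have e1 := D.star hR x
    have e2 := D.star hR x'
    generalize C1 * (f1 ⬝ᵥ (R x *ᵥ f1)) - C2 * (f2 ⬝ᵥ (R x *ᵥ f2)) = d at e1 ⊢
    generalize C1 * (f1 ⬝ᵥ (R x' *ᵥ f1)) - C2 * (f2 ⬝ᵥ (R x' *ᵥ f2)) = d' at e2 ⊢
    generalize f1 ⬝ᵥ (R x *ᵥ f2) = ε at e1 ⊢
    generalize f1 ⬝ᵥ (R x' *ᵥ f2) = ε' at e2 ⊢
    have h2C : 2 * C2 ≠ 0 := mul_ne_zero two_ne_zero D.hC2
    rcases hB with h | h
    · have h3 : (2 * C2 * (d * ε' - d' * ε)) • Bf R f1 f1 = 0 := by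
        have h4 : (2 * C2 * (d * ε' - d' * ε)) • Bf R f1 f1 =
            (2 * C2 * ε') • (d • Bf R f1 f1 + (2 * C2 * ε) • Bf R f1 f2) -
            (2 * C2 * ε) • (d' • Bf R f1 f1 + (2 * C2 * ε') • Bf R f1 f2) := by
          module
        rw [h4, e1, e2, smul_zero, smul_zero, sub_zero]
      have h4 := (smul_eq_zero.1 h3).resolve_right h
      exact sub_eq_zero.1 ((mul_eq_zero.1 h4).resolve_left h2C)
    · have h3 : (2 * C2 * (d * ε' - d' * ε)) • Bf R f1 f2 = 0 := by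
        have h4 : (2 * C2 * (d * ε' - d' * ε)) • Bf R f1 f2 =
            d • (d' • Bf R f1 f1 + (2 * C2 * ε') • Bf R f1 f2) -
            d' • (d • Bf R f1 f1 + (2 * C2 * ε) • Bf R f1 f2) := by
          module
        rw [h4, e1, e2, smul_zero, smul_zero, sub_zero]
      have h4 := (smul_eq_zero.1 h3).resolve_right h
      exact sub_eq_zero.1 ((mul_eq_zero.1 h4).resolve_left h2C)
  have hd := hdet x0
  obtain ⟨κ, hκ1, hκ2⟩ : ∃ κ : K, C1 * (f1 ⬝ᵥ (R x *ᵥ f1)) - C2 * (f2 ⬝ᵥ (R x *ᵥ f2)) =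
      κ * (C1 * (f1 ⬝ᵥ (R x0 *ᵥ f1)) - C2 * (f2 ⬝ᵥ (R x0 *ᵥ f2))) ∧
      f1 ⬝ᵥ (R x *ᵥ f2) = κ * (f1 ⬝ᵥ (R x0 *ᵥ f2)) := by
    have h3 := fun hd he => h0 (D.U_zero_of hR (x := x0) hd he)
    generalize C1 * (f1 ⬝ᵥ (R x *ᵥ f1)) - C2 * (f2 ⬝ᵥ (R x *ᵥ f2)) = d at hd ⊢
    generalize C1 * (f1 ⬝ᵥ (R x0 *ᵥ f1)) - C2 * (f2 ⬝ᵥ (R x0 *ᵥ f2)) = d' at hd h3 ⊢
    generalize f1 ⬝ᵥ (R x *ᵥ f2) = ε at hd ⊢
    generalize f1 ⬝ᵥ (R x0 *ᵥ f2) = ε' at hd h3 ⊢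
    by_cases h4 : d' = 0
    · have h5 : ε' ≠ 0 := h3 h4
      refine ⟨ε / ε', ?_, ?_⟩
      · field_simp
        linear_combination hd
      · field_simp
    · refine ⟨d / d', ?_, ?_⟩
      · field_simp
      · field_simp
        linear_combination -hd
  refine ⟨κ, ?_⟩
  have h3 := D.U_zero_of hR (x := x - κ • x0) (by
    rw [map_sub, map_smul, sub_mulVec, sub_mulVec, dotProduct_sub, dotProduct_sub, smul_mulVec,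
      smul_mulVec, dotProduct_smul, dotProduct_smul, smul_eq_mul, smul_eq_mul]
    linear_combination hκ1) (by
    rw [map_sub, map_smul, sub_mulVec, dotProduct_sub, smul_mulVec, dotProduct_smul, smul_eq_mul,
      hκ2, sub_self])
  rw [map_sub, map_smul, Matrix.mul_sub, Matrix.sub_mul, mul_smul_comm, smul_mul_assoc,
    sub_eq_zero] at h3
  exact h3

/-- The form is degenerate. -/
theorem det {x0 : Matrix (Fin n) (Fin n) K} (h0 : R 1 * R x0 * R 1 ≠ 0) :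
    (f1 ⬝ᵥ (R x0 *ᵥ f1)) * (f2 ⬝ᵥ (R x0 *ᵥ f2)) = (f1 ⬝ᵥ (R x0 *ᵥ f2)) ^ 2 := by
  have hcl : ∃ y, R x0 * R 1 * R x0 = R y := by
    refine ⟨x0 * (R 1) ^ 1 * R x0 + R x0 * (R 1) ^ 1 * x0 + ((1 : ℕ) : K) •
      (R x0 * (R 1) ^ (1 - 1) * R x0), ?_⟩
    rw [← closure_sq hR.rb 1 x0, pow_one]
  obtain ⟨y, hy⟩ := hcl
  obtain ⟨κ, hκ⟩ := D.prop hR h0 y
  have h21 : f2 ⬝ᵥ (R x0 *ᵥ f1) = f1 ⬝ᵥ (R x0 *ᵥ f2) := dot_symm' (hR.tr x0) _ _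
  have hy2 : ∀ u w : Fin n → K, u ⬝ᵥ (R y *ᵥ w) = C1 * (u ⬝ᵥ (R x0 *ᵥ f1)) *
      (f1 ⬝ᵥ (R x0 *ᵥ w)) + C2 * (u ⬝ᵥ (R x0 *ᵥ f2)) * (f2 ⬝ᵥ (R x0 *ᵥ w)) := by
    intro u w
    rw [← hy, D.e, ← mulVec_mulVec, ← mulVec_mulVec, add_mulVec, smul_mulVec, smul_mulVec,
      vmv_mulVec, vmv_mulVec]
    simp only [mulVec_add, mulVec_smul, dotProduct_add, dotProduct_smul, smul_eq_mul]
    ring
  rw [D.U_form (hR.tr y), D.U_form (hR.tr x0)] at hκ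
  have hκ' : (C1 * C1 * (f1 ⬝ᵥ (R y *ᵥ f1))) • vecMulVec f1 f1 + (C1 * C2 *
      (f1 ⬝ᵥ (R y *ᵥ f2))) • (vecMulVec f1 f2 + vecMulVec f2 f1) + (C2 * C2 *
      (f2 ⬝ᵥ (R y *ᵥ f2))) • vecMulVec f2 f2 =
      (κ * (C1 * C1 * (f1 ⬝ᵥ (R x0 *ᵥ f1)))) • vecMulVec f1 f1 + (κ * (C1 * C2 *
      (f1 ⬝ᵥ (R x0 *ᵥ f2)))) • (vecMulVec f1 f2 + vecMulVec f2 f1) + (κ * (C2 * C2 *
      (f2 ⬝ᵥ (R x0 *ᵥ f2)))) • vecMulVec f2 f2 := by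
    rw [hκ]
    module
  obtain ⟨e1, e2, e3⟩ := D.ext3 hκ'
  rw [hy2] at e1 e2 e3
  rw [h21] at e1 e3
  have hne : ¬ (C1 * (f1 ⬝ᵥ (R x0 *ᵥ f1)) - C2 * (f2 ⬝ᵥ (R x0 *ᵥ f2)) = 0 ∧
      f1 ⬝ᵥ (R x0 *ᵥ f2) = 0) := fun h => h0 (D.U_zero_of hR h.1 h.2)
  have hC1 := D.hC1
  have hC2 := D.hC2
  generalize f1 ⬝ᵥ (R x0 *ᵥ f1) = b11 at e1 e2 e3 hne ⊢
  generalize f1 ⬝ᵥ (R x0 *ᵥ f2) = b12 at e1 e2 e3 hne ⊢
  generalize f2 ⬝ᵥ (R x0 *ᵥ f2) = b22 at e1 e2 e3 hne ⊢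
  have g1 : C1 * b11 * b11 + C2 * b12 * b12 = κ * b11 := by
    have : (C1 * C1) * (C1 * b11 * b11 + C2 * b12 * b12 - κ * b11) = 0 := by
      linear_combination e1
    exact sub_eq_zero.1 ((mul_eq_zero.1 this).resolve_left (mul_ne_zero hC1 hC1))
  have g2 : b12 * (C1 * b11 + C2 * b22 - κ) = 0 := by
    have : (C1 * C2) * (b12 * (C1 * b11 + C2 * b22 - κ)) = 0 := by
      linear_combination e2
    exact (mul_eq_zero.1 this).resolve_left (mul_ne_zero hC1 hC2)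
  have g3 : C1 * b12 * b12 + C2 * b22 * b22 = κ * b22 := by
    have : (C2 * C2) * (C1 * b12 * b12 + C2 * b22 * b22 - κ * b22) = 0 := by
      linear_combination e3
    exact sub_eq_zero.1 ((mul_eq_zero.1 this).resolve_left (mul_ne_zero hC2 hC2))
  rcases mul_eq_zero.1 g2 with g4 | g4
  · rw [g4] at g1 g3 hne ⊢
    have g5 : b11 * (C1 * b11 - κ) = 0 := by linear_combination g1
    have g6 : b22 * (C2 * b22 - κ) = 0 := by linear_combination g3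
    rcases mul_eq_zero.1 g5 with g7 | g7
    · rw [g7]
      ring
    rcases mul_eq_zero.1 g6 with g8 | g8
    · rw [g8]
      ring
    exact absurd ⟨by linear_combination g7 - g8, rfl⟩ hne
  · have g5 : C2 * (b11 * b22 - b12 ^ 2) = 0 := by
      linear_combination b11 * g4 - g1
    exact sub_eq_zero.1 ((mul_eq_zero.1 g5).resolve_left hC2)

/-- A kernel vector of one nonzero form is a kernel vector of all. -/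
theorem ker_all {x0 : Matrix (Fin n) (Fin n) K} (h0 : R 1 * R x0 * R 1 ≠ 0) {ξ1 ξ2 : K}
    (h1 : ξ1 * (f1 ⬝ᵥ (R x0 *ᵥ f1)) + ξ2 * (f1 ⬝ᵥ (R x0 *ᵥ f2)) = 0)
    (h2 : ξ1 * (f1 ⬝ᵥ (R x0 *ᵥ f2)) + ξ2 * (f2 ⬝ᵥ (R x0 *ᵥ f2)) = 0)
    (x : Matrix (Fin n) (Fin n) K) : f1 ⬝ᵥ (R x *ᵥ (ξ1 • f1 + ξ2 • f2)) = 0 ∧
      f2 ⬝ᵥ (R x *ᵥ (ξ1 • f1 + ξ2 • f2)) = 0 := by
  obtain ⟨κ, hκ⟩ := D.prop hR h0 x
  rw [D.U_form (hR.tr x), D.U_form (hR.tr x0)] at hκ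
  have hκ' : (C1 * C1 * (f1 ⬝ᵥ (R x *ᵥ f1))) • vecMulVec f1 f1 + (C1 * C2 *
      (f1 ⬝ᵥ (R x *ᵥ f2))) • (vecMulVec f1 f2 + vecMulVec f2 f1) + (C2 * C2 *
      (f2 ⬝ᵥ (R x *ᵥ f2))) • vecMulVec f2 f2 =
      (κ * (C1 * C1 * (f1 ⬝ᵥ (R x0 *ᵥ f1)))) • vecMulVec f1 f1 + (κ * (C1 * C2 *
      (f1 ⬝ᵥ (R x0 *ᵥ f2)))) • (vecMulVec f1 f2 + vecMulVec f2 f1) + (κ * (C2 * C2 *
      (f2 ⬝ᵥ (R x0 *ᵥ f2)))) • vecMulVec f2 f2 := by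
    rw [hκ]
    module
  obtain ⟨e1, e2, e3⟩ := D.ext3 hκ'
  have hC1 := D.hC1
  have hC2 := D.hC2
  have h21 : f2 ⬝ᵥ (R x *ᵥ f1) = f1 ⬝ᵥ (R x *ᵥ f2) := dot_symm' (hR.tr x) _ _
  have g1 : f1 ⬝ᵥ (R x *ᵥ f1) = κ * (f1 ⬝ᵥ (R x0 *ᵥ f1)) := by
    apply mul_left_cancel₀ (mul_ne_zero hC1 hC1)
    linear_combination e1
  have g2 : f1 ⬝ᵥ (R x *ᵥ f2) = κ * (f1 ⬝ᵥ (R x0 *ᵥ f2)) := by
    apply mul_left_cancel₀ (mul_ne_zero hC1 hC2)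
    linear_combination e2
  have g3 : f2 ⬝ᵥ (R x *ᵥ f2) = κ * (f2 ⬝ᵥ (R x0 *ᵥ f2)) := by
    apply mul_left_cancel₀ (mul_ne_zero hC2 hC2)
    linear_combination e3
  simp only [mulVec_add, mulVec_smul, dotProduct_add, dotProduct_smul, smul_eq_mul, h21, g1, g2,
    g3]
  constructor
  · linear_combination κ * h1
  · linear_combination κ * h2

omit hR [CharZero K] in
/-- The image of `R 1` is isotropic. -/
theorem iso : f1 ⬝ᵥ f1 = 0 ∧ f1 ⬝ᵥ f2 = 0 ∧ f2 ⬝ᵥ f2 = 0 := by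
  have h := D.ee
  have hs : ∀ u w y z : Fin n → K, vecMulVec u w * vecMulVec y z =
      (w ⬝ᵥ y) • vecMulVec u z := by
    intro u w y z
    rw [vecMulVec_mul_vecMulVec, vecMulVec_smul]
  rw [D.e] at h
  simp only [Matrix.add_mul, Matrix.mul_add, smul_mul_assoc, mul_smul_comm, hs, smul_smul,
    dotProduct_comm f2 f1] at h
  have h3 : (C1 * C1 * (f1 ⬝ᵥ f1)) • vecMulVec f1 f1 + (C1 * C2 * (f1 ⬝ᵥ f2)) •
      (vecMulVec f1 f2 + vecMulVec f2 f1) + (C2 * C2 * (f2 ⬝ᵥ f2)) • vecMulVec f2 f2 =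
      (0 : K) • vecMulVec f1 f1 + (0 : K) • (vecMulVec f1 f2 + vecMulVec f2 f1) +
      (0 : K) • vecMulVec f2 f2 := by
    rw [zero_smul, zero_smul, zero_smul, add_zero, add_zero, ← h]
    module
  obtain ⟨e1, e2, e3⟩ := D.ext3 h3
  have hC1 := D.hC1
  have hC2 := D.hC2
  exact ⟨(mul_eq_zero.1 e1).resolve_left (mul_ne_zero hC1 hC1),
    (mul_eq_zero.1 e2).resolve_left (mul_ne_zero hC1 hC2),
    (mul_eq_zero.1 e3).resolve_left (mul_ne_zero hC2 hC2)⟩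

end RK2

end Pool.Agent.MP_f4742e_al
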