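import Pool.Agent.Lib.MP_f4742e_al.X.F2Line

/-!
The case `(R 1)^2 = 0`, rank two, Witt index two: the kernel line is stable, and the case of an
anisotropic kernel line.
-/

set_option autoImplicit false

namespace Pool.Agent.MP_f4742e_al

open Matrix

/-- Rational basis `l, p` of the image of `R 1` such that `l` is in the kernel of all forms
`f ⬝ (R x) f'`. -/
structure LP {F K : Type*} [Field F] [Field K] [Algebra F K] {n : ℕ}
    {R : Matrix (Fin n) (Fin n) K →ₗ[K] Matrix (Fin n) (Fin n) K} (Φ : Frame F R 2)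
    (l p : Fin n → K) : Prop where
  lV : l ∈ Φ.V
  pV : p ∈ Φ.V
  ind : LinearIndependent K ![l, p]
  ee : R 1 * R 1 = 0
  ll : l ⬝ᵥ l = 0
  lp : l ⬝ᵥ p = 0
  pp : p ⬝ᵥ p = 0
  kl : ∀ x, l ⬝ᵥ (R x *ᵥ l) = 0
  kp : ∀ x, p ⬝ᵥ (R x *ᵥ l) = 0
  th : ∃ x ∈ Φ.M, xᵀ = x ∧ p ⬝ᵥ (R x *ᵥ p) ≠ 0

/-- The value of `a M a`. -/
theorem UU_form {K : Type*} [Field K] {n : ℕ} {a M : Matrix (Fin n) (Fin n) K}
    {l p : Fin n → K} {E0 E1 : K} (he : a = E0 • vecMulVec l l + E1 • vecMulVec p p)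
    (hM : Mᵀ = M) : a * M * a =
    (E0 * E0 * (l ⬝ᵥ (M *ᵥ l))) • vecMulVec l l + (E0 * E1 * (l ⬝ᵥ (M *ᵥ p))) •
      (vecMulVec l p + vecMulVec p l) + (E1 * E1 * (p ⬝ᵥ (M *ᵥ p))) • vecMulVec p p := by
  have h3 : p ⬝ᵥ (M *ᵥ l) = l ⬝ᵥ (M *ᵥ p) := dot_symm' hM _ _
  have h4 : ∀ u w y z : Fin n → K, vecMulVec u w * M * vecMulVec y z =
      (w ⬝ᵥ (M *ᵥ y)) • vecMulVec u z := by
    intro u w y z
    rw [Matrix.mul_assoc, mul_vecMulVec, vecMulVec_mul_vecMulVec, vecMulVec_smul]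
  rw [he]
  simp only [Matrix.add_mul, Matrix.mul_add, smul_mul_assoc, mul_smul_comm, h4, h3, smul_smul]
  module

/-- `f k + k f = 2 g g` implies that `g` is a multiple of `f`. -/
theorem rk_one_aux {K : Type*} [Field K] [CharZero K] {n : ℕ} {f k g : Fin n → K} (hf : f ≠ 0)
    (h : vecMulVec f k + vecMulVec k f = (2 : K) • vecMulVec g g) : ∃ c : K, g = c • f := by
  have h6 : ∀ i j, f i * k j + k i * f j = 2 * (g i * g j) := by
    intro i j
    have := congrFun (congrFun h i) j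
    simpa [vecMulVec_apply] using this
  obtain ⟨i, hi⟩ : ∃ i, f i ≠ 0 := by
    by_contra hcon
    push Not at hcon
    exact hf (funext hcon)
  refine ⟨g i / f i, ?_⟩
  funext j
  have e1 := h6 i i
  have e2 := h6 i j
  have e3 := h6 j j
  have e4 : (f j * g i - g j * f i) ^ 2 = 0 := by
    linear_combination (-(f j) ^ 2 / 2) * e1 + (f i * f j) * e2 - (f i ^ 2 / 2) * e3
  have e5 := pow_eq_zero_iff (two_ne_zero) |>.1 e4
  rw [Pi.smul_apply, smul_eq_mul]
  field_simp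
  linear_combination -e5

namespace LP

variable {F K : Type*} [Field F] [Field K] [CharZero K] [Algebra F K] {n : ℕ}
  {R : Matrix (Fin n) (Fin n) K →ₗ[K] Matrix (Fin n) (Fin n) K} (hR : SRB R) {Φ : Frame F R 2}
  {l p : Fin n → K} (D : LP Φ l p)

include D

omit [CharZero K] in
theorem l_ne : l ≠ 0 := by
  have := D.ind.ne_zero 0
  simpa using this

omit [CharZero K] in
theorem p_ne : p ≠ 0 := by
  have := D.ind.ne_zero 1
  simpa using this

include hR

/-- `s l` is a multiple of `l`. -/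
theorem sl {x : Matrix (Fin n) (Fin n) K} (hx : x ∈ Φ.M) : ∃ c : K, R x *ᵥ l = c • l := by
  have S1 : ∀ x ∈ Φ.M, ∃ α β : K, R x *ᵥ l = α • l + β • p := by
    intro x hx
    refine Φ.an2 D.lV D.pV (Φ.act _ (Φ.map x hx) _ D.lV) D.ind D.ll D.lp D.pp (D.kl x) (D.kp x)
      ?_
    rw [dot_symm (hR.tr x), mulVec_mulVec, H67.sq_mem hR.rb]
    exact D.kl _
  have S2 : ∀ x x' : Matrix (Fin n) (Fin n) K, ∀ α β α' β' : K, R x *ᵥ l = α • l + β • p →
      R x' *ᵥ l = α' • l + β' • p → β' * (p ⬝ᵥ (R x *ᵥ p)) + β * (p ⬝ᵥ (R x' *ᵥ p)) = 0 := by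
    intro x x' α β α' β' h1 h2
    have h3 := congrArg (fun M => p ⬝ᵥ (M *ᵥ l)) (hR.rb x x')
    simp only [D.kp] at h3
    unfold jp at h3
    rw [add_mulVec, ← mulVec_mulVec, ← mulVec_mulVec, h1, h2] at h3
    simp only [mulVec_add, mulVec_smul, dotProduct_add, dotProduct_smul, D.kp, smul_eq_mul,
      mul_zero, zero_add] at h3
    exact h3
  obtain ⟨x1, hx1, -, hθ⟩ := D.th
  obtain ⟨α1, β1, h1⟩ := S1 x1 hx1
  obtain ⟨α, β, h2⟩ := S1 x hx
  have h3 := S2 x1 x1 _ _ _ _ h1 h1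
  have h4 : β1 = 0 := by
    have h5 : (2 * β1) * (p ⬝ᵥ (R x1 *ᵥ p)) = 0 := by linear_combination h3
    have h6 := (mul_eq_zero.1 h5).resolve_right hθ
    exact (mul_eq_zero.1 h6).resolve_left two_ne_zero
  have h5 := S2 x x1 _ _ _ _ h2 h1
  rw [h4, zero_mul, zero_add] at h5
  have h6 := (mul_eq_zero.1 h5).resolve_right hθ
  refine ⟨α, ?_⟩
  rw [h2, h6, zero_smul, add_zero]

/-- The case of an anisotropic kernel line. -/
theorem t1 {E0 E1 : K} (hE0 : E0 ≠ 0) (hE1 : E1 ≠ 0)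
    (he : R 1 = E0 • vecMulVec l l + E1 • vecMulVec p p) {x : Matrix (Fin n) (Fin n) K}
    (hx : x ∈ Φ.M) : R (R (R x)) = 0 := by
  have ha := D.ee
  have hpp : vecMulVec p p ≠ (0 : Matrix (Fin n) (Fin n) K) :=
    vecMulVec_ne_zero D.p_ne D.p_ne
  have hlp : ∀ x, l ⬝ᵥ (R x *ᵥ p) = 0 := fun x => by rw [dot_symm' (hR.tr x), D.kp]
  have hU : ∀ x, R 1 * R x * R 1 = (E1 * E1 * (p ⬝ᵥ (R x *ᵥ p))) • vecMulVec p p := by
    intro x
    rw [UU_form he (hR.tr x), D.kl, hlp]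
    simp
  obtain ⟨x1, hx1, hx1t, hθ⟩ := D.th
  -- values on the square of the image
  have hRpp : R (vecMulVec p p) = 0 := by
    have h1 := H67.R_R_U hR.rb ha x1
    rw [H67.R_U hR.rb ha, hU, map_smul] at h1
    exact (smul_eq_zero.1 h1).resolve_left (mul_ne_zero (mul_ne_zero hE1 hE1) hθ)
  have hRll : R (vecMulVec l l) = 0 := by
    have h1 := H67.R_a hR.rb ha
    rw [he, map_add, map_smul, map_smul, hRpp, smul_zero, add_zero] at h1
    exact (smul_eq_zero.1 h1).resolve_left hE0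
  obtain ⟨r, hr0, hr⟩ : ∃ r : K, r ≠ 0 ∧ R (vecMulVec l p) = r • vecMulVec p p := by
    have h1 := H67.R_U hR.rb ha x1
    rw [hU, UU_form he hx1t, map_add, map_add, map_smul, map_smul, map_smul, map_add, hRll, hRpp,
      smul_zero, smul_zero, zero_add, add_zero, ← Bf_apply, ← Bf_apply, Bf_comm hR p l,
      ← two_smul K, smul_smul] at h1
    have h2 : E0 * E1 * (l ⬝ᵥ (x1 *ᵥ p)) * 2 ≠ 0 := by
      intro h3
      rw [h3, zero_smul] at h1
      rcases smul_eq_zero.1 h1.symm with h4 | h4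
      · exact mul_ne_zero (mul_ne_zero hE1 hE1) hθ h4
      · exact hpp h4
    refine ⟨(E0 * E1 * (l ⬝ᵥ (x1 *ᵥ p)) * 2)⁻¹ * (E1 * E1 * (p ⬝ᵥ (R x1 *ᵥ p))),
      mul_ne_zero (inv_ne_zero h2) (mul_ne_zero (mul_ne_zero hE1 hE1) hθ), ?_⟩
    rw [mul_smul, ← h1, smul_smul, inv_mul_cancel₀ h2, one_smul, Bf_apply]
  -- the element `Y`
  obtain ⟨Y, hY⟩ : ∃ Y, Y = R (R x) := ⟨_, rfl⟩
  have hYt : Yᵀ = Y := by rw [hY, hR.tr]
  obtain ⟨lam, hlam⟩ := D.sl hR (Φ.map x hx)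
  rw [← hY] at hlam
  have hYl : Y *ᵥ l = lam • l := hlam
  obtain ⟨c, hc⟩ : ∃ c : K, Y *ᵥ p = c • p := by
    have h1 := H67.comm_sq hR.rb ha hY
    refine rk_one_aux (k := Y *ᵥ (Y *ᵥ p)) D.p_ne ?_
    have e1 : R 1 * Y * Y = E0 • vecMulVec l (Y *ᵥ (Y *ᵥ l)) +
        E1 • vecMulVec p (Y *ᵥ (Y *ᵥ p)) := by
      rw [he, Matrix.mul_assoc, Matrix.add_mul, smul_mul_assoc, smul_mul_assoc,
        ← Matrix.mul_assoc, vmv_mul hYt, vmv_mul hYt, ← Matrix.mul_assoc, vmv_mul hYt,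
        vmv_mul hYt]
    have e2 : Y * Y * R 1 = E0 • vecMulVec (Y *ᵥ (Y *ᵥ l)) l +
        E1 • vecMulVec (Y *ᵥ (Y *ᵥ p)) p := by
      rw [he, Matrix.mul_assoc, Matrix.mul_add, mul_smul_comm, mul_smul_comm, mul_vecMulVec,
        mul_vecMulVec, Matrix.mul_add, mul_smul_comm, mul_smul_comm, mul_vecMulVec,
        mul_vecMulVec]
    have e3 : Y * R 1 * Y = E0 • vecMulVec (Y *ᵥ l) (Y *ᵥ l) +
        E1 • vecMulVec (Y *ᵥ p) (Y *ᵥ p) := by
      rw [he, Matrix.mul_add, mul_smul_comm, mul_smul_comm, mul_vecMulVec, mul_vecMulVec,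
        Matrix.add_mul, smul_mul_assoc, smul_mul_assoc, vmv_mul hYt, vmv_mul hYt]
    rw [e1, e2, e3, hYl, mulVec_smul, hYl] at h1
    have h2 : E1 • (vecMulVec p (Y *ᵥ (Y *ᵥ p)) + vecMulVec (Y *ᵥ (Y *ᵥ p)) p) =
        E1 • ((2 : K) • vecMulVec (Y *ᵥ p) (Y *ᵥ p)) := by
      simp only [smul_vecMulVec, vecMulVec_smul, smul_smul, smul_add] at h1 ⊢
      have h3 : E1 • vecMulVec p (Y *ᵥ (Y *ᵥ p)) + E1 • vecMulVec (Y *ᵥ (Y *ᵥ p)) p =
          (((E0 * (lam * lam)) • vecMulVec l l + E1 • vecMulVec p (Y *ᵥ (Y *ᵥ p))) +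
          ((E0 * (lam * lam)) • vecMulVec l l + E1 • vecMulVec (Y *ᵥ (Y *ᵥ p)) p)) -
            (2 * (E0 * (lam * lam))) • vecMulVec l l := by
        module
      rw [h3, h1]
      module
    exact smul_right_injective _ hE1 h2
  have hcl : c = lam := by
    have h1 := hR.T1 0 (x := R x) (z := vecMulVec p p)
      (ζ := (2 * r)⁻¹ • (vecMulVec l p + vecMulVec p l)) (hR.tr x) hRpp (by
        rw [transpose_smul, transpose_add, transpose_vecMulVec, transpose_vecMulVec, add_comm])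
      (by
        rw [map_smul, map_add, ← Bf_apply R p l, Bf_comm hR p l, Bf_apply, hr, ← add_smul,
          smul_smul]
        have : (2 * r)⁻¹ * (r + r) = 1 := by
          field_simp
          ring
        rw [this, one_smul])
    have h2 := hR.K (k := vecMulVec p p) (by rw [transpose_vecMulVec]) hRpp 0 x
    rw [pow_zero, Matrix.one_mul] at h2
    simp only [pow_zero, Matrix.one_mul, Matrix.mul_one] at h1
    rw [h2, zero_add, ← hY, mul_vecMulVec, vmv_mul hYt, hc, mul_smul_comm, map_smul,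
      Matrix.mul_add, mul_vecMulVec, mul_vecMulVec, hYl, hc, map_add] at h1
    simp only [smul_vecMulVec, vecMulVec_smul, map_smul] at h1
    rw [← Bf_apply R p l, Bf_comm hR p l, Bf_apply, hr] at h1
    have h3 : (c + c) • vecMulVec p p = (c + lam) • vecMulVec p p := by
      rw [add_smul, h1]
      have h4 : (2 : K) • (2 * r)⁻¹ • (lam • r • vecMulVec p p + c • r • vecMulVec p p) =
          (2 * (2 * r)⁻¹ * r * (lam + c)) • vecMulVec p p := by
        module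
      rw [h4]
      congr 1
      field_simp
      ring
    have h4 := smul_left_injective K hpp h3
    exact add_left_cancel h4
  have hRY : R Y = lam • R 1 := by
    have h1 := H67.R_two hR.rb ha x
    rw [← hY] at h1
    unfold jp at h1
    rw [he, Matrix.add_mul, Matrix.mul_add, smul_mul_assoc, smul_mul_assoc, mul_smul_comm,
      mul_smul_comm, vmv_mul hYt, vmv_mul hYt, mul_vecMulVec, mul_vecMulVec, hYl, hc, hcl,
      vecMulVec_smul, vecMulVec_smul, smul_vecMulVec, smul_vecMulVec] at h1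
    apply smul_right_injective (Matrix (Fin n) (Fin n) K) (two_ne_zero (α := K))
    change (2 : K) • R Y = (2 : K) • (lam • R 1)
    rw [h1, he]
    module
  rw [← hY, hRY]
  by_cases h9 : lam = 0
  · rw [h9, zero_smul]
  exfalso
  have h10 := not_range hR.rb 1 (by
    rw [pow_one]
    intro h11
    have h12 := hU x1
    rw [h11, Matrix.mul_zero] at h12
    rcases smul_eq_zero.1 h12.symm with h4 | h4
    · exact mul_ne_zero (mul_ne_zero hE1 hE1) hθ h4
    · exact hpp h4) (lam⁻¹ • x)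
  apply h10
  rw [pow_one, map_smul, pow_succ, pow_succ, pow_one, Module.End.mul_apply, Module.End.mul_apply,
    ← hY, hRY, smul_smul, inv_mul_cancel₀ h9, one_smul]

end LP

end Pool.Agent.MP_f4742e_al
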