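import Pool.Agent.Lib.MP_f4742e_al.X.F2Pair

/-!
The case `(R 1)^2 = 0`, rank two, Witt index two, isotropic kernel line: the vectors `m, h`.
-/

set_option autoImplicit false

namespace Pool.Agent.MP_f4742e_al

open Matrix

namespace Frame

variable {F K : Type*} [Field F] [Field K] [Algebra F K] {n : ℕ}
  {R : Matrix (Fin n) (Fin n) K →ₗ[K] Matrix (Fin n) (Fin n) K} {w : ℕ} (Φ : Frame F R w)

include Φ

theorem am_smul (c : F) {v : Fin n → K} (hv : v ∈ Φ.V) : (algebraMap F K c) • v ∈ Φ.V := by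
  rw [algebraMap_smul]
  exact Φ.V.smul_mem c hv

theorem am_smulM (c : F) {v : Matrix (Fin n) (Fin n) K} (hv : v ∈ Φ.M) :
    (algebraMap F K c) • v ∈ Φ.M := by
  rw [algebraMap_smul]
  exact Φ.M.smul_mem c hv

theorem dot_smul {u v z : Fin n → K} (hu : u ∈ Φ.V) (hv : v ∈ Φ.V) (hz : z ∈ Φ.V) :
    (u ⬝ᵥ v) • z ∈ Φ.V := by
  obtain ⟨c, hc⟩ := Φ.dot u hu v hv
  rw [hc]
  exact Φ.am_smul c hz

theorem dot_inv_smul {u v z : Fin n → K} (hu : u ∈ Φ.V) (hv : v ∈ Φ.V) (hz : z ∈ Φ.V) :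
    (u ⬝ᵥ v)⁻¹ • z ∈ Φ.V := by
  obtain ⟨c, hc⟩ := Φ.dot u hu v hv
  rw [hc, ← map_inv₀]
  exact Φ.am_smul _ hz

theorem dual {v : Fin n → K} (h0 : v ≠ 0) : ∃ u ∈ Φ.V, u ⬝ᵥ v ≠ 0 := by
  by_contra hcon
  push Not at hcon
  apply h0
  funext i
  have h1 : ∀ u : Fin n → K, u ⬝ᵥ v = 0 := Φ.vec_ind hcon
    (fun u u' h1 h2 => by rw [add_dotProduct, h1, h2, add_zero])
    (fun c u h1 => by rw [smul_dotProduct, h1, smul_zero])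
  have h2 := h1 (Pi.single i 1)
  rw [single_one_dotProduct] at h2
  exact h2

theorem dual1 {v : Fin n → K} (h0 : v ≠ 0) (hv : v ∈ Φ.V) : ∃ u ∈ Φ.V, u ⬝ᵥ v = 1 := by
  obtain ⟨u, hu, h1⟩ := Φ.dual h0
  refine ⟨(u ⬝ᵥ v)⁻¹ • u, Φ.dot_inv_smul hu hv hu, ?_⟩
  rw [smul_dotProduct, smul_eq_mul, inv_mul_cancel₀ h1]

/-- the factor of a rational multiple is rational -/
theorem rat {v : Fin n → K} {c : K} (h0 : v ≠ 0) (hv : v ∈ Φ.V) (hc : c • v ∈ Φ.V) :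
    ∃ t : F, c = algebraMap F K t := by
  obtain ⟨u, hu, h1⟩ := Φ.dual1 h0 hv
  obtain ⟨t, ht⟩ := Φ.dot u hu _ hc
  refine ⟨t, ?_⟩
  rw [← ht, _root_.dotProduct_smul, h1, smul_eq_mul, mul_one]

end Frame

/-- Data for the case of an isotropic kernel line. -/
structure T2D {F K : Type*} [Field F] [Field K] [Algebra F K] {n : ℕ}
    {R : Matrix (Fin n) (Fin n) K →ₗ[K] Matrix (Fin n) (Fin n) K} (Φ : Frame F R 2)
    (l p m h : Fin n → K) (x1 : Matrix (Fin n) (Fin n) K) (ε θ1 lam1 : K) : Prop where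
  D : LP Φ l p
  e : R 1 = vecMulVec l p + vecMulVec p l
  Rll : R (vecMulVec l l) = 0
  Rlp : R (vecMulVec l p) = 0
  Rpp : R (vecMulVec p p) = ε • vecMulVec l l
  hε : ε ≠ 0
  th : ∀ x, xᵀ = x → p ⬝ᵥ (R x *ᵥ p) = ε * (l ⬝ᵥ (x *ᵥ l))
  x1M : x1 ∈ Φ.M
  x1t : x1ᵀ = x1
  s1l : R x1 *ᵥ l = lam1 • l
  s1p : R x1 *ᵥ p = lam1 • p + θ1 • m
  hθ : θ1 ≠ 0
  mV : m ∈ Φ.V
  hV : h ∈ Φ.V
  mp : m ⬝ᵥ p = 1
  ml : m ⬝ᵥ l = 0
  mm : m ⬝ᵥ m = 0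
  hl : h ⬝ᵥ l = 1
  hp : h ⬝ᵥ p = 0
  hm : h ⬝ᵥ m = 0

section

variable {F K : Type*} [Field F] [Field K] [CharZero K] [Algebra F K] {n : ℕ}
  {R : Matrix (Fin n) (Fin n) K →ₗ[K] Matrix (Fin n) (Fin n) K} (hR : SRB R) {Φ : Frame F R 2}
  {l p : Fin n → K} (D : LP Φ l p)

/-- The value of `a M a`. -/
theorem UU2 {K : Type*} [Field K] {n : ℕ} {a M : Matrix (Fin n) (Fin n) K}
    {l p : Fin n → K} (he : a = vecMulVec l p + vecMulVec p l)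
    (hM : Mᵀ = M) : a * M * a = (p ⬝ᵥ (M *ᵥ p)) • vecMulVec l l + (l ⬝ᵥ (M *ᵥ p)) •
      (vecMulVec l p + vecMulVec p l) + (l ⬝ᵥ (M *ᵥ l)) • vecMulVec p p := by
  have h3 : p ⬝ᵥ (M *ᵥ l) = l ⬝ᵥ (M *ᵥ p) := dot_symm' hM _ _
  have h4 : ∀ u w y z : Fin n → K, vecMulVec u w * M * vecMulVec y z =
      (w ⬝ᵥ (M *ᵥ y)) • vecMulVec u z := by
    intro u w y z
    rw [Matrix.mul_assoc, mul_vecMulVec, vecMulVec_mul_vecMulVec, vecMulVec_smul]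
  rw [he]
  simp only [Matrix.add_mul, Matrix.mul_add, h4, h3]
  module

include hR D

/-- Orthogonality of the vectors `s p - lam p`. -/
theorem orth_aux {ε : K} (th : ∀ x, xᵀ = x → p ⬝ᵥ (R x *ᵥ p) = ε * (l ⬝ᵥ (x *ᵥ l)))
    {x x' : Matrix (Fin n) (Fin n) K} (hx : xᵀ = x) (hx' : x'ᵀ = x') {lam lam' : K}
    (h : R x *ᵥ l = lam • l) (h' : R x' *ᵥ l = lam' • l) :
    (R x *ᵥ p - lam • p) ⬝ᵥ (R x' *ᵥ p - lam' • p) = 0 := by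
  have h1 := congrArg (fun M => p ⬝ᵥ (M *ᵥ p)) (hR.rb x x')
  have hw : (jp (R x) x' + jp x (R x'))ᵀ = jp (R x) x' + jp x (R x') := by
    unfold jp
    simp only [transpose_add, transpose_mul, hR.tr, hx, hx']
    abel
  simp only [th _ hw] at h1
  have h2 : p ⬝ᵥ (jp (R x) (R x') *ᵥ p) = 2 * ((R x *ᵥ p) ⬝ᵥ (R x' *ᵥ p)) := by
    unfold jp
    rw [add_mulVec, dotProduct_add, ← mulVec_mulVec, ← mulVec_mulVec,
      ← dot_symm (hR.tr x) p (R x' *ᵥ p), ← dot_symm (hR.tr x') p (R x *ᵥ p),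
      dotProduct_comm (R x' *ᵥ p), two_mul]
  have h3 : l ⬝ᵥ ((jp (R x) x' + jp x (R x')) *ᵥ l) =
      2 * (lam * (l ⬝ᵥ (x' *ᵥ l)) + lam' * (l ⬝ᵥ (x *ᵥ l))) := by
    unfold jp
    simp only [add_mulVec, dotProduct_add, ← mulVec_mulVec, h, h', mulVec_smul, dotProduct_smul,
      smul_eq_mul]
    rw [← dot_symm (hR.tr x), ← dot_symm (hR.tr x'), h, h', smul_dotProduct, smul_dotProduct,
      smul_eq_mul, smul_eq_mul]
    ring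
  rw [h2, h3] at h1
  have e1 := th x hx
  have e2 := th x' hx'
  have e3 : (R x *ᵥ p) ⬝ᵥ p = p ⬝ᵥ (R x *ᵥ p) := dotProduct_comm _ _
  simp only [sub_dotProduct, dotProduct_sub, smul_dotProduct, dotProduct_smul, smul_eq_mul, D.pp,
    e3, e1, e2]
  have h4 : (2 : K) * ((R x *ᵥ p) ⬝ᵥ (R x' *ᵥ p) - ε * (lam * (l ⬝ᵥ (x' *ᵥ l)) +
      lam' * (l ⬝ᵥ (x *ᵥ l)))) = 0 := by linear_combination h1
  have h5 := (mul_eq_zero.1 h4).resolve_left two_ne_zero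
  linear_combination h5

theorem T2D_exists (he : R 1 = vecMulVec l p + vecMulVec p l) :
    ∃ (m h : Fin n → K) (x1 : Matrix (Fin n) (Fin n) K) (ε θ1 lam1 : K),
      T2D Φ l p m h x1 ε θ1 lam1 := by
  have ha := D.ee
  have hll : vecMulVec l l ≠ (0 : Matrix (Fin n) (Fin n) K) :=
    vecMulVec_ne_zero D.l_ne D.l_ne
  have hlp : ∀ x, l ⬝ᵥ (R x *ᵥ p) = 0 := fun x => by rw [dot_symm' (hR.tr x), D.kp]
  have hU : ∀ x, R 1 * R x * R 1 = (p ⬝ᵥ (R x *ᵥ p)) • vecMulVec l l := by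
    intro x
    rw [UU2 he (hR.tr x), D.kl, hlp]
    simp
  obtain ⟨x1, hx1, hx1t, hθ⟩ := D.th
  have hRll : R (vecMulVec l l) = 0 := by
    have h1 := H67.R_R_U hR.rb ha x1
    rw [H67.R_U hR.rb ha, hU, map_smul] at h1
    exact (smul_eq_zero.1 h1).resolve_left hθ
  have hRlp : R (vecMulVec l p) = 0 := by
    have h1 := H67.R_a hR.rb ha
    rw [he, map_add, ← Bf_apply, ← Bf_apply, Bf_comm hR p l, ← two_smul K] at h1
    exact (smul_eq_zero.1 h1).resolve_left two_ne_zero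
  have hval : ∀ x, xᵀ = x → (p ⬝ᵥ (R x *ᵥ p)) • vecMulVec l l =
      (l ⬝ᵥ (x *ᵥ l)) • R (vecMulVec p p) := by
    intro x hx
    have h1 := H67.R_U hR.rb ha x
    rw [hU, UU2 he hx, map_add, map_add, map_smul, map_smul, map_smul, map_add, hRll,
      ← Bf_apply R p l, Bf_comm hR p l, Bf_apply, hRlp, smul_zero, add_zero, smul_zero, zero_add,
      zero_add] at h1
    exact h1.symm
  have hq : l ⬝ᵥ (x1 *ᵥ l) ≠ 0 := by
    intro h1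
    have h2 := hval x1 hx1t
    rw [h1, zero_smul] at h2
    rcases smul_eq_zero.1 h2 with h3 | h3
    · exact hθ h3
    · exact hll h3
  obtain ⟨ε, hεd⟩ : ∃ ε, ε = (l ⬝ᵥ (x1 *ᵥ l))⁻¹ * (p ⬝ᵥ (R x1 *ᵥ p)) := ⟨_, rfl⟩
  have hε : ε ≠ 0 := by
    rw [hεd]
    exact mul_ne_zero (inv_ne_zero hq) hθ
  have hRpp : R (vecMulVec p p) = ε • vecMulVec l l := by
    rw [hεd, mul_smul, hval x1 hx1t, smul_smul, inv_mul_cancel₀ hq, one_smul]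
  have hth : ∀ x, xᵀ = x → p ⬝ᵥ (R x *ᵥ p) = ε * (l ⬝ᵥ (x *ᵥ l)) := by
    intro x hx
    have h1 := hval x hx
    rw [hRpp, smul_smul] at h1
    have h2 := smul_left_injective K hll h1
    change p ⬝ᵥ (R x *ᵥ p) = l ⬝ᵥ (x *ᵥ l) * ε at h2
    rw [h2, mul_comm]
  obtain ⟨lam1, hlam1⟩ := D.sl hR hx1
  obtain ⟨θ1, hθ1⟩ : ∃ θ1, θ1 = p ⬝ᵥ (R x1 *ᵥ p) := ⟨_, rfl⟩
  have hs1V : R x1 *ᵥ p ∈ Φ.V := Φ.act _ (Φ.map x1 hx1) _ D.pV
  have hlV : lam1 • p ∈ Φ.V := by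
    obtain ⟨t, ht⟩ := Φ.rat D.l_ne D.lV (c := lam1) (by
      rw [← hlam1]
      exact Φ.act _ (Φ.map x1 hx1) _ D.lV)
    rw [ht]
    exact Φ.am_smul t D.pV
  obtain ⟨m, hmd⟩ : ∃ m, m = θ1⁻¹ • (R x1 *ᵥ p - lam1 • p) := ⟨_, rfl⟩
  have hθ1' : θ1 ≠ 0 := by rw [hθ1]; exact hθ
  have hmV : m ∈ Φ.V := by
    rw [hmd, hθ1]
    exact Φ.dot_inv_smul D.pV hs1V (Φ.V.sub_mem hs1V hlV)
  have hs1p : R x1 *ᵥ p = lam1 • p + θ1 • m := by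
    rw [hmd, smul_smul, mul_inv_cancel₀ hθ1', one_smul]
    abel
  have hmp : m ⬝ᵥ p = 1 := by
    rw [hmd, smul_dotProduct, sub_dotProduct, smul_dotProduct, D.pp, dotProduct_comm, ← hθ1,
      smul_zero, sub_zero, smul_eq_mul, inv_mul_cancel₀ hθ1']
  have hml : m ⬝ᵥ l = 0 := by
    rw [hmd, smul_dotProduct, sub_dotProduct, smul_dotProduct, dot_symm (hR.tr x1), D.kp,
      dotProduct_comm p l, D.lp, smul_zero, sub_zero, smul_zero]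
  have hmm : m ⬝ᵥ m = 0 := by
    rw [hmd, smul_dotProduct, dotProduct_smul, orth_aux hR D hth hx1t hx1t hlam1 hlam1,
      smul_zero, smul_zero]
  obtain ⟨w, hwV, hwl⟩ := Φ.dual1 D.l_ne D.lV
  refine ⟨m, w - (w ⬝ᵥ p) • m - (w ⬝ᵥ m) • p, x1, ε, θ1, lam1, ⟨D, he, hRll, hRlp, hRpp, hε, hth,
    hx1, hx1t, hlam1, hs1p, hθ1', hmV, ?_, hmp, hml, hmm, ?_, ?_, ?_⟩⟩
  · exact Φ.V.sub_mem (Φ.V.sub_mem hwV (Φ.dot_smul hwV D.pV hmV)) (Φ.dot_smul hwV hmV D.pV)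
  · rw [sub_dotProduct, sub_dotProduct, smul_dotProduct, smul_dotProduct, hwl, hml,
      dotProduct_comm p l, D.lp]
    simp
  · rw [sub_dotProduct, sub_dotProduct, smul_dotProduct, smul_dotProduct, hmp, D.pp]
    simp
  · rw [sub_dotProduct, sub_dotProduct, smul_dotProduct, smul_dotProduct, hmm,
      dotProduct_comm p m, hmp]
    simp

end

end Pool.Agent.MP_f4742e_al
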