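import Pool.Agent.Lib.MP_f4742e_al.X.F2T2a

/-!
The case `(R 1)^2 = 0`, rank two, Witt index two, isotropic kernel line: relations.
-/

set_option autoImplicit false

namespace Pool.Agent.MP_f4742e_al

open Matrix

/-- `Y = R (R x0)` with `R Y = ρ l lᵀ`. -/
structure YD {F K : Type*} [Field F] [Field K] [Algebra F K] {n : ℕ}
    {R : Matrix (Fin n) (Fin n) K →ₗ[K] Matrix (Fin n) (Fin n) K} (Φ : Frame F R 2)
    (l p : Fin n → K) (x0 Y : Matrix (Fin n) (Fin n) K) (ρ : K) : Prop where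
  x0M : x0 ∈ Φ.M
  hY : Y = R (R x0)
  Yl : Y *ᵥ l = 0
  Yp : Y *ᵥ p = ρ • l
  RY : R Y = ρ • vecMulVec l l

namespace T2D

variable {F K : Type*} [Field F] [Field K] [CharZero K] [Algebra F K] {n : ℕ}
  {R : Matrix (Fin n) (Fin n) K →ₗ[K] Matrix (Fin n) (Fin n) K} (hR : SRB R) {Φ : Frame F R 2}
  {l p m h : Fin n → K} {x1 : Matrix (Fin n) (Fin n) K} {ε θ1 lam1 : K}
  (E : T2D Φ l p m h x1 ε θ1 lam1)

include E

omit [CharZero K] in
theorem pl : p ⬝ᵥ l = 0 := by rw [dotProduct_comm, E.D.lp]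

omit [CharZero K] in
theorem lm : l ⬝ᵥ m = 0 := by rw [dotProduct_comm, E.ml]

omit [CharZero K] in
theorem pm : p ⬝ᵥ m = 1 := by rw [dotProduct_comm, E.mp]

omit [CharZero K] in
theorem lh : l ⬝ᵥ h = 1 := by rw [dotProduct_comm, E.hl]

omit [CharZero K] in
theorem ph : p ⬝ᵥ h = 0 := by rw [dotProduct_comm, E.hp]

omit [CharZero K] in
theorem mh : m ⬝ᵥ h = 0 := by rw [dotProduct_comm, E.hm]

omit [CharZero K] in
theorem indlm : LinearIndependent K ![l, m] := by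
  rw [LinearIndependent.pair_iff]
  intro a b hab
  have h1 := congrArg (fun v => v ⬝ᵥ p) hab
  simp only [add_dotProduct, smul_dotProduct, E.D.lp, E.mp, mul_zero, zero_add, smul_eq_mul,
    mul_one, zero_dotProduct] at h1
  rw [h1, zero_smul, add_zero] at hab
  exact ⟨(smul_eq_zero.1 hab).resolve_right E.D.l_ne, h1⟩

omit [CharZero K] in
theorem av (v : Fin n → K) : R 1 *ᵥ v = (p ⬝ᵥ v) • l + (l ⬝ᵥ v) • p := by
  rw [E.e, add_mulVec, vmv_mulVec, vmv_mulVec]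

omit [CharZero K] in
theorem jpa {Z : Matrix (Fin n) (Fin n) K} (hZ : Zᵀ = Z) {α β : K} (h1 : Z *ᵥ l = α • l)
    (h2 : Z *ᵥ p = α • p + β • l) : jp (R 1) Z = (2 : K) • (α • R 1 + β • vecMulVec l l) := by
  unfold jp
  rw [E.e, Matrix.add_mul, Matrix.mul_add, vmv_mul hZ, vmv_mul hZ, mul_vecMulVec, mul_vecMulVec,
    h1, h2]
  simp only [vecMulVec_add, add_vecMulVec, smul_vecMulVec, vecMulVec_smul]
  module

include hR

omit [CharZero K] in
theorem Rpl : R (vecMulVec p l) = 0 := by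
  rw [← Bf_apply, Bf_comm hR, Bf_apply, E.Rlp]

omit [CharZero K] hR in
/-- The kernel element `ρ p pᵀ - ε Y`. -/
theorem k0 {Y : Matrix (Fin n) (Fin n) K} {ρ : K} (hY : R Y = ρ • vecMulVec l l) :
    R (ρ • vecMulVec p p - ε • Y) = 0 := by
  rw [map_sub, map_smul, map_smul, hY, E.Rpp, smul_smul, smul_smul, mul_comm, sub_self]

/-- `s p` if `p ⬝ s p = 0`. -/
theorem P {x : Matrix (Fin n) (Fin n) K} (hx : x ∈ Φ.M) (hxt : xᵀ = x) {lam : K}
    (h1 : R x *ᵥ l = lam • l) (h2 : p ⬝ᵥ (R x *ᵥ p) = 0) :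
    ∃ ρ : K, R x *ᵥ p = lam • p + ρ • l := by
  have hsV : R x *ᵥ p ∈ Φ.V := Φ.act _ (Φ.map x hx) _ E.D.pV
  have hlV : lam • p ∈ Φ.V := by
    obtain ⟨t, ht⟩ := Φ.rat E.D.l_ne E.D.lV (c := lam) (by
      rw [← h1]
      exact Φ.act _ (Φ.map x hx) _ E.D.lV)
    rw [ht]
    exact Φ.am_smul t E.D.pV
  have hm : θ1 • m = R x1 *ᵥ p - lam1 • p := by
    rw [E.s1p]
    abel
  obtain ⟨α, β, hab⟩ := Φ.an2 E.D.lV E.mV (Φ.V.sub_mem hsV hlV) E.indlm E.D.ll E.lm E.mm (by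
    rw [dotProduct_sub, dotProduct_smul, ← dot_symm (hR.tr x), h1, smul_dotProduct, sub_self])
    (by
      have h3 := orth_aux hR E.D E.th E.x1t hxt E.s1l h1
      rw [← hm, smul_dotProduct] at h3
      exact (smul_eq_zero.1 h3).resolve_left E.hθ) (orth_aux hR E.D E.th hxt hxt h1 h1)
  have h3 := congrArg (fun v => p ⬝ᵥ v) hab
  simp only [dotProduct_sub, dotProduct_add, dotProduct_smul, h2, E.D.pp, E.pl, E.pm, smul_eq_mul,
    mul_zero, mul_one, sub_zero, zero_add] at h3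
  refine ⟨α, ?_⟩
  rw [← h3, zero_smul, add_zero] at hab
  rw [← hab]
  abel

theorem Q0 {z : Matrix (Fin n) (Fin n) K} (hzt : zᵀ = z) {ρ : K}
    (h1 : R z *ᵥ l = 0) (h2 : R z *ᵥ p = ρ • l) : m ⬝ᵥ (R z *ᵥ m) = 0 := by
  have hm : θ1 • m = R x1 *ᵥ p - lam1 • p := by
    rw [E.s1p]
    abel
  obtain ⟨w, hw⟩ : ∃ w, w = jp (R x1) z + jp x1 (R z) := ⟨_, rfl⟩
  have hwt : wᵀ = w := by
    rw [hw]
    unfold jp
    simp only [transpose_add, transpose_mul, hR.tr, E.x1t, hzt]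
    abel
  have hRw : R w = R x1 * R z + R z * R x1 := by
    rw [hw, ← hR.rb x1 z]
    rfl
  have hwl : R w *ᵥ l = (0 : K) • l := by
    rw [hRw, add_mulVec, ← mulVec_mulVec, ← mulVec_mulVec, h1, E.s1l, mulVec_smul, h1,
      mulVec_zero, smul_zero, add_zero, zero_smul]
  have hwp : R w *ᵥ p = (ρ * lam1 + lam1 * ρ) • l + θ1 • (R z *ᵥ m) := by
    rw [hRw, add_mulVec, ← mulVec_mulVec, ← mulVec_mulVec, h2, E.s1p, mulVec_add, mulVec_smul,
      mulVec_smul, mulVec_smul, h2, E.s1l]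
    module
  have h3 := orth_aux hR E.D E.th E.x1t hwt E.s1l hwl
  rw [← hm, hwp, zero_smul, sub_zero, smul_dotProduct, dotProduct_add, dotProduct_smul, E.ml,
    smul_zero, zero_add, dotProduct_smul] at h3
  exact (smul_eq_zero.1 ((smul_eq_zero.1 h3).resolve_left E.hθ)).resolve_left E.hθ

/-- `Y m` is a multiple of `l`. -/
theorem Q {z : Matrix (Fin n) (Fin n) K} (hz : z ∈ Φ.M) (hzt : zᵀ = z) {ρ : K}
    (h1 : R z *ᵥ l = 0) (h2 : R z *ᵥ p = ρ • l) : ∃ α : K, R z *ᵥ m = α • l := by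
  have hV : R z *ᵥ m ∈ Φ.V := Φ.act _ (Φ.map z hz) _ E.mV
  have hsq : R (jp (R z) z) = R z * R z := (H67.sq_mem hR.rb z).symm
  have hjt : (jp (R z) z)ᵀ = jp (R z) z := by
    unfold jp
    rw [transpose_add, transpose_mul, transpose_mul, hR.tr, hzt, add_comm]
  have h3 : m ⬝ᵥ (R (jp (R z) z) *ᵥ m) = 0 := E.Q0 hR hjt (ρ := 0) (by
    rw [hsq, ← mulVec_mulVec, h1, mulVec_zero]) (by
    rw [hsq, ← mulVec_mulVec, h2, mulVec_smul, h1, smul_zero, zero_smul])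
  obtain ⟨α, β, hab⟩ := Φ.an2 E.D.lV E.mV hV E.indlm E.D.ll E.lm E.mm (by
    rw [← dot_symm (hR.tr z), h1, zero_dotProduct]) (E.Q0 hR hzt h1 h2) (by
    rw [dot_symm (hR.tr z), mulVec_mulVec, ← hsq, h3])
  have h4 := congrArg (fun v => p ⬝ᵥ v) hab
  simp only [dotProduct_add, dotProduct_smul, E.pl, E.pm, smul_eq_mul,
    mul_zero, mul_one, zero_add] at h4
  rw [← dot_symm (hR.tr z), h2, smul_dotProduct, E.lm, smul_zero] at h4
  refine ⟨α, ?_⟩
  rw [← h4, zero_smul, add_zero] at hab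
  exact hab

/-- The form of the elements of the image of `R R`. -/
theorem Yform {x0 : Matrix (Fin n) (Fin n) K} (hx0 : x0 ∈ Φ.M) :
    ∃ ρ : K, YD Φ l p x0 (R (R x0)) ρ := by
  have ha := E.D.ee
  obtain ⟨Y, hY⟩ : ∃ Y, Y = R (R x0) := ⟨_, rfl⟩
  have hYt : Yᵀ = Y := by rw [hY, hR.tr]
  obtain ⟨lam, hlam⟩ := E.D.sl hR (Φ.map x0 hx0)
  have hll : vecMulVec l l ≠ (0 : Matrix (Fin n) (Fin n) K) :=
    vecMulVec_ne_zero E.D.l_ne E.D.l_ne
  have hp0 : p ⬝ᵥ (R (R x0) *ᵥ p) = 0 := by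
    have h1 := H67.U_two hR.rb ha x0
    have h2 : l ⬝ᵥ (R (R x0) *ᵥ p) = 0 := by rw [dot_symm' (hR.tr _), E.D.kp]
    rw [UU2 E.e (hR.tr _), E.D.kl, h2, zero_smul, zero_smul, add_zero, add_zero] at h1
    exact (smul_eq_zero.1 h1).resolve_right hll
  obtain ⟨ρ, hρ⟩ := E.P hR (Φ.map x0 hx0) (hR.tr x0) hlam hp0
  rw [← hY] at hlam hρ
  have hRY : R Y = lam • R 1 + ρ • vecMulVec l l := by
    have h1 := H67.R_two hR.rb ha x0
    rw [← hY, E.jpa hYt hlam hρ] at h1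
    exact smul_right_injective _ (two_ne_zero (α := K)) h1
  obtain ⟨w, hw⟩ := H67.sq_mem2 hR.rb x0
  rw [← hY] at hw
  have hYYt : (Y * Y)ᵀ = Y * Y := by rw [transpose_mul, hYt]
  have hRYY : R (Y * Y) = (lam * lam) • R 1 + (lam * ρ + ρ * lam) • vecMulVec l l := by
    have h1 := H67.R_two hR.rb ha w
    rw [← hw, E.jpa hYYt (α := lam * lam) (β := lam * ρ + ρ * lam) (by
      rw [← mulVec_mulVec, hlam, mulVec_smul, hlam, smul_smul]) (by
      rw [← mulVec_mulVec, hρ, mulVec_add, mulVec_smul, mulVec_smul, hρ, hlam]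
      module)] at h1
    exact smul_right_injective _ (two_ne_zero (α := K)) h1
  have hlam0 : lam = 0 := by
    by_contra h9
    have h1 : R 1 ≠ 0 := by
      intro h2
      have h3 := E.av h
      rw [h2, zero_mulVec, E.ph, E.lh, zero_smul, zero_add, one_smul] at h3
      exact E.D.p_ne h3.symm
    have h10 := not_range hR.rb 1 (by rw [pow_one]; exact h1)
      ((-(lam * lam)⁻¹) • (w - (2 * lam) • x0))
    apply h10
    rw [pow_one, map_smul, pow_succ, pow_succ, pow_one, Module.End.mul_apply,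
      Module.End.mul_apply, map_sub, map_sub, map_sub, ← hw, hRYY, map_smul, map_smul, map_smul,
      ← hY, hRY]
    have h11 : (lam * lam) • R 1 + (lam * ρ + ρ * lam) • vecMulVec l l -
        (2 * lam) • (lam • R 1 + ρ • vecMulVec l l) = (-(lam * lam)) • R 1 := by
      module
    rw [h11, smul_smul]
    have h12 : -(lam * lam)⁻¹ * -(lam * lam) = 1 := by
      field_simp
    rw [h12, one_smul]
  refine ⟨ρ, hx0, rfl, ?_, ?_, ?_⟩
  · rw [← hY, hlam, hlam0, zero_smul]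
  · rw [← hY, hρ, hlam0, zero_smul, zero_add]
  · rw [← hY, hRY, hlam0, zero_smul, zero_add]

variable {x0 Y : Matrix (Fin n) (Fin n) K} {ρ : K} (G : YD Φ l p x0 Y ρ)

include G

/-- `R (s Y)` if `p ⬝ s p = 0`. -/
theorem T2b {x : Matrix (Fin n) (Fin n) K} (hx : x ∈ Φ.M) (hxt : xᵀ = x) {lam : K}
    (h1 : R x *ᵥ l = lam • l) (h2 : p ⬝ᵥ (R x *ᵥ p) = 0) :
    R (R x * Y) = (ρ * lam) • vecMulVec l l := by
  have hYt : Yᵀ = Y := by rw [G.hY, hR.tr]
  obtain ⟨ρ', h3⟩ := E.P hR hx hxt h1 h2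
  have h4 := hR.K (k := ρ • vecMulVec p p - ε • Y) (by
    rw [transpose_sub, transpose_smul, transpose_smul, transpose_vecMulVec, hYt])
    (E.k0 G.RY) 0 x
  rw [pow_zero, Matrix.one_mul, Matrix.mul_sub, mul_smul_comm, mul_smul_comm, mul_vecMulVec, h3,
    map_sub, map_smul, map_smul, add_vecMulVec, map_add, smul_vecMulVec, smul_vecMulVec,
    map_smul, map_smul, E.Rpp, E.Rlp, smul_zero, add_zero, sub_eq_zero] at h4
  apply smul_right_injective _ E.hε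
  change ε • R (R x * Y) = ε • ((ρ * lam) • vecMulVec l l)
  rw [← h4]
  module

/-- The consequence of the relation for `Y ∘ s`. -/
theorem T2c {x : Matrix (Fin n) (Fin n) K} (hx : x ∈ Φ.M) (hxt : xᵀ = x)
    (h1 : l ⬝ᵥ (x *ᵥ l) = 0) : R (R 1 * Y * x) + R (R 1 * x * Y) = 0 := by
  have ha := E.D.ee
  have hYt : Yᵀ = Y := by rw [G.hY, hR.tr]
  obtain ⟨lam, hl⟩ := E.D.sl hR hx
  have hp : p ⬝ᵥ (R x *ᵥ p) = 0 := by rw [E.th x hxt, h1, mul_zero]
  obtain ⟨ρ', h3⟩ := E.P hR hx hxt hl hp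
  have hb := E.T2b hR G hx hxt hl hp
  have hb2 : R (Y * R x) = (ρ * lam) • vecMulVec l l := by
    have h4 : Y * R x = (R x * Y)ᵀ := by rw [transpose_mul, hR.tr, hYt]
    rw [h4, hR.ti, hb]
  obtain ⟨w, hw⟩ : ∃ w, w = jp Y x + jp (R x0) (R x) := ⟨_, rfl⟩
  have hRw : jp Y (R x) = R w := by
    rw [hw, G.hY]
    exact hR.rb (R x0) x
  have h4 := hR.rb 1 w
  have h5 : R (jp (R 1) (jp (R x0) (R x))) = 0 := by
    rw [hR.rb x0 x]
    exact H67.R_jp_a hR.rb ha _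
  have h6 : R (R w) = (2 * (ρ * lam)) • vecMulVec l l := by
    rw [← hRw]
    unfold jp
    rw [map_add, hb, hb2]
    module
  have hZt : (jp Y (R x))ᵀ = jp Y (R x) := by rw [hRw, hR.tr]
  have h7 : jp (R 1) (jp Y (R x)) = (2 : K) • ((0 : K) • R 1 + (2 * (ρ * lam)) •
      vecMulVec l l) := by
    refine E.jpa hZt ?_ ?_
    · unfold jp
      rw [add_mulVec, ← mulVec_mulVec, ← mulVec_mulVec, hl, mulVec_smul, G.Yl, mulVec_zero,
        smul_zero, add_zero, zero_smul]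
    · unfold jp
      rw [add_mulVec, ← mulVec_mulVec, ← mulVec_mulVec, h3, mulVec_add, mulVec_smul, mulVec_smul,
        G.Yl, G.Yp, mulVec_smul, hl]
      module
  rw [← hRw, h7, one_jp, hRw, map_add, map_add, h6, hw, jp_add, map_add, h5, add_zero] at h4
  have h8 : R (jp (R 1) (jp Y x)) = 0 := by
    have h9 : R (jp (R 1) (jp Y x)) = (2 : K) • ((0 : K) • R 1 + (2 * (ρ * lam)) •
      vecMulVec l l) - ((2 * (ρ * lam)) • vecMulVec l l + (2 * (ρ * lam)) • vecMulVec l l) := by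
      rw [h4]
      abel
    rw [h9]
    module
  have e1 : R (x * Y * R 1) = R (R 1 * Y * x) := by
    have : x * Y * R 1 = (R 1 * Y * x)ᵀ := by
      rw [transpose_mul, transpose_mul, hR.tr, hYt, hxt, Matrix.mul_assoc]
    rw [this, hR.ti]
  have e2 : R (Y * x * R 1) = R (R 1 * x * Y) := by
    have : Y * x * R 1 = (R 1 * x * Y)ᵀ := by
      rw [transpose_mul, transpose_mul, hR.tr, hYt, hxt, Matrix.mul_assoc]
    rw [this, hR.ti]
  have e3 : jp (R 1) (jp Y x) = R 1 * Y * x + R 1 * x * Y + (Y * x * R 1 + x * Y * R 1) := by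
    unfold jp
    noncomm_ring
  rw [e3, map_add, map_add, map_add, e1, e2] at h8
  have h9 : (2 : K) • (R (R 1 * Y * x) + R (R 1 * x * Y)) = 0 := by
    rw [← h8]
    module
  exact (smul_eq_zero.1 h9).resolve_left two_ne_zero

/-- `R (l mᵀ) = 0`. -/
theorem Rlm (hρ : ρ ≠ 0) : R (vecMulVec l m) = 0 := by
  have hYt : Yᵀ = Y := by rw [G.hY, hR.tr]
  have hYM : R x0 ∈ Φ.M := Φ.map x0 G.x0M
  have hY := G.hY
  obtain ⟨α, hα⟩ := E.Q hR hYM (hR.tr x0) (by rw [← hY]; exact G.Yl)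
    (by rw [← hY]; exact G.Yp)
  rw [← hY] at hα
  -- t
  obtain ⟨w, hw⟩ : ∃ w, w = jp (R x1) (R x0) + jp x1 (R (R x0)) := ⟨_, rfl⟩
  have hwM : w ∈ Φ.M := by
    rw [hw]
    unfold jp
    have g1 := Φ.map x1 E.x1M
    have g2 := Φ.map (R x0) hYM
    exact Φ.M.add_mem (Φ.M.add_mem (Φ.mul _ g1 _ hYM) (Φ.mul _ hYM _ g1))
      (Φ.M.add_mem (Φ.mul _ E.x1M _ g2) (Φ.mul _ g2 _ E.x1M))
  have hwt : wᵀ = w := by
    rw [hw]
    unfold jp
    simp only [transpose_add, transpose_mul, hR.tr, E.x1t]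
    abel
  have hRw : R w = R x1 * Y + Y * R x1 := by
    rw [hw, ← hR.rb x1 (R x0), hY]
    rfl
  have hwl : R w *ᵥ l = (0 : K) • l := by
    rw [hRw, add_mulVec, ← mulVec_mulVec, ← mulVec_mulVec, G.Yl, E.s1l, mulVec_smul, G.Yl,
      mulVec_zero, smul_zero, add_zero, zero_smul]
  have hwp : p ⬝ᵥ (R w *ᵥ p) = 0 := by
    rw [hRw, add_mulVec, ← mulVec_mulVec, ← mulVec_mulVec, G.Yp, E.s1p, mulVec_add, mulVec_smul,
      mulVec_smul, mulVec_smul, G.Yp, E.s1l, hα]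
    simp only [dotProduct_add, dotProduct_smul, E.pl, smul_zero, add_zero]
  have h1 := E.T2b hR G hwM hwt hwl hwp
  rw [mul_zero, zero_smul] at h1
  have h1' : R (Y * R w) = 0 := by
    have h4 : Y * R w = (R w * Y)ᵀ := by rw [transpose_mul, hR.tr, hYt]
    rw [h4, hR.ti, h1]
  -- kernel
  obtain ⟨k, hk⟩ : ∃ k, k = ρ • vecMulVec p p - ε • Y := ⟨_, rfl⟩
  have hkt : kᵀ = k := by
    rw [hk, transpose_sub, transpose_smul, transpose_smul, transpose_vecMulVec, hYt]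
  have hRk : R k = 0 := by rw [hk]; exact E.k0 G.RY
  have h2 := hR.K hkt hRk 0 x1
  rw [pow_zero, Matrix.one_mul] at h2
  have h2' : R (k * R x1) = 0 := by
    have h4 : k * R x1 = (R x1 * k)ᵀ := by rw [transpose_mul, hR.tr, hkt]
    rw [h4, hR.ti, h2]
  have h3 := hR.K (k := R x1 * k + k * R x1) (by
    rw [transpose_add, transpose_mul, transpose_mul, hR.tr, hkt, add_comm])
    (by rw [map_add, h2, h2', add_zero]) 0 (R x0)
  rw [pow_zero, Matrix.one_mul, ← hY] at h3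
  have e1 : Y * (R x1 * k + k * R x1) = ρ • (Y * (R x1 * vecMulVec p p + vecMulVec p p * R x1)) -
      ε • (Y * (R x1 * Y + Y * R x1)) := by
    rw [hk]
    simp only [Matrix.mul_sub, Matrix.sub_mul, Matrix.mul_add, mul_smul_comm, smul_mul_assoc,
      smul_add]
    abel
  have e2 : Y * (R x1 * vecMulVec p p + vecMulVec p p * R x1) =
      (lam1 * ρ + θ1 * α) • vecMulVec l p + (ρ * lam1) • vecMulVec l p +
        (ρ * θ1) • vecMulVec l m := by
    rw [mul_vecMulVec, vmv_mul (hR.tr x1), Matrix.mul_add, mul_vecMulVec, mul_vecMulVec, E.s1p,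
      mulVec_add, mulVec_smul, mulVec_smul, hα, G.Yp]
    simp only [vecMulVec_add, add_vecMulVec, smul_vecMulVec, vecMulVec_smul]
    module
  rw [e1, ← hRw, map_sub, map_smul, map_smul, h1', smul_zero, sub_zero, e2, map_add, map_add,
    map_smul, map_smul, map_smul, E.Rlp, smul_zero, smul_zero, zero_add, zero_add,
    smul_smul] at h3
  exact (smul_eq_zero.1 h3).resolve_left (mul_ne_zero hρ (mul_ne_zero hρ E.hθ))

end T2D

end Pool.Agent.MP_f4742e_al
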