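import Pool.Agent.Lib.MP_f4742e_al.X.F2T2b

/-!
The case `(R 1)^2 = 0`, rank two, Witt index two, isotropic kernel line: the contradiction.
-/

set_option autoImplicit false

namespace Pool.Agent.MP_f4742e_al

open Matrix Polynomial

/-- The rational vectors form a finite dimensional space. -/
theorem Frame.fd {F K : Type*} [Field F] [Field K] [Algebra F K] {n : ℕ}
    {R : Matrix (Fin n) (Fin n) K →ₗ[K] Matrix (Fin n) (Fin n) K} {w : ℕ} (Φ : Frame F R w) :
    FiniteDimensional F Φ.V := by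
  have h1 : Module.rank F Φ.V ≤ n := by
    apply rank_le
    intro s hs
    have h2 : LinearIndependent F (fun i : Fin s.card => ((s.equivFin.symm i : Φ.V) :
        Fin n → K)) := by
      have h3 := hs.comp _ s.equivFin.symm.injective
      exact h3.map' Φ.V.subtype (Submodule.ker_subtype _)
    have h3 := Φ.indep s.card _ (fun i => (s.equivFin.symm i : Φ.V).2) h2
    have h4 := h3.fintype_card_le_finrank
    rw [Fintype.card_fin, Module.finrank_fin_fun] at h4
    exact h4
  have h2 : Module.rank F Φ.V < Cardinal.aleph0 := lt_of_le_of_lt h1 (Cardinal.natCast_lt_aleph0)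
  exact Module.rank_lt_aleph0_iff.1 h2

/-- The action of a rational matrix on the rational vectors. -/
def Frame.T {F K : Type*} [Field F] [Field K] [Algebra F K] {n : ℕ}
    {R : Matrix (Fin n) (Fin n) K →ₗ[K] Matrix (Fin n) (Fin n) K} {w : ℕ} (Φ : Frame F R w)
    (x : Matrix (Fin n) (Fin n) K) (hx : x ∈ Φ.M) : Module.End F Φ.V where
  toFun v := ⟨x *ᵥ v, Φ.act x hx _ v.2⟩
  map_add' u v := by
    apply Subtype.ext
    simp [mulVec_add]
  map_smul' c v := by
    apply Subtype.ext
    simp [mulVec_smul]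

theorem Frame.T_apply {F K : Type*} [Field F] [Field K] [Algebra F K] {n : ℕ}
    {R : Matrix (Fin n) (Fin n) K →ₗ[K] Matrix (Fin n) (Fin n) K} {w : ℕ} (Φ : Frame F R w)
    (x : Matrix (Fin n) (Fin n) K) (hx : x ∈ Φ.M) (v : Φ.V) :
    ((Φ.T x hx v : Φ.V) : Fin n → K) = x *ᵥ v := rfl

theorem Frame.T_pow {F K : Type*} [Field F] [Field K] [Algebra F K] {n : ℕ}
    {R : Matrix (Fin n) (Fin n) K →ₗ[K] Matrix (Fin n) (Fin n) K} {w : ℕ} (Φ : Frame F R w)
    (x : Matrix (Fin n) (Fin n) K) (hx : x ∈ Φ.M) (k : ℕ) (v : Φ.V) :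
    ((((Φ.T x hx) ^ k) v : Φ.V) : Fin n → K) = x ^ k *ᵥ v := by
  induction k with
  | zero => rw [pow_zero, pow_zero, one_mulVec]; rfl
  | succ k ih =>
    rw [pow_succ', pow_succ', Module.End.mul_apply, Φ.T_apply, ih, mulVec_mulVec]

theorem Frame.T_aeval {F K : Type*} [Field F] [Field K] [Algebra F K] {n : ℕ}
    {R : Matrix (Fin n) (Fin n) K →ₗ[K] Matrix (Fin n) (Fin n) K} {w : ℕ} (Φ : Frame F R w)
    (x : Matrix (Fin n) (Fin n) K) (hx : x ∈ Φ.M) (q : F[X]) (v : Φ.V) :
    (((aeval (Φ.T x hx) q) v : Φ.V) : Fin n → K) = (aeval x q) *ᵥ v := by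
  induction q using Polynomial.induction_on' with
  | add p q hp hq =>
    rw [map_add, map_add, LinearMap.add_apply, add_mulVec, ← hp, ← hq]
    rfl
  | monomial k a =>
    rw [aeval_monomial, aeval_monomial, ← Algebra.smul_def, ← Algebra.smul_def,
      LinearMap.smul_apply, smul_mulVec, ← Φ.T_pow x hx]
    rfl

/-- A rational symmetric matrix which is injective on its image on rational vectors: linear
maps vanishing on its higher powers vanish on it. -/
theorem Frame.pow_ind {F K : Type*} [Field F] [Field K] [Algebra F K] {n : ℕ}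
    {R : Matrix (Fin n) (Fin n) K →ₗ[K] Matrix (Fin n) (Fin n) K} {w : ℕ} (Φ : Frame F R w)
    {x : Matrix (Fin n) (Fin n) K} (hx : x ∈ Φ.M)
    (hinj : ∀ v ∈ Φ.V, x *ᵥ (x *ᵥ v) = 0 → x *ᵥ v = 0)
    (h0 : ∀ j : ℕ, R (x ^ (j + 2)) = 0) : R x = 0 := by
  have := Φ.fd
  have hint : IsIntegral F (Φ.T x hx) := Algebra.IsIntegral.isIntegral _
  have hp0 : minpoly F (Φ.T x hx) ≠ 0 := minpoly.ne_zero hint
  obtain ⟨g, hg, hnd⟩ := exists_eq_pow_rootMultiplicity_mul_and_not_dvd
    (minpoly F (Φ.T x hx)) hp0 0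
  rw [map_zero, sub_zero] at hg hnd
  obtain ⟨e, he⟩ : ∃ e, e = (minpoly F (Φ.T x hx)).rootMultiplicity 0 := ⟨_, rfl⟩
  rw [← he] at hg
  have hg0 : g.coeff 0 ≠ 0 := fun h => hnd (X_dvd_iff.2 h)
  have hk : ∀ (k : ℕ) (v : Fin n → K), v ∈ Φ.V → x ^ k *ᵥ v = 0 → x *ᵥ v = 0 := by
    intro k
    induction k with
    | zero =>
      intro v _ h
      rw [pow_zero, one_mulVec] at h
      rw [h, mulVec_zero]
    | succ k ih =>
      intro v hv h
      rw [pow_succ, ← mulVec_mulVec] at h
      exact hinj v hv (ih _ (Φ.act x hx v hv) h)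
  have h1 : aeval x (X * g) = 0 := by
    have h2 : ∀ v : Fin n → K, (aeval x (X * g)) *ᵥ v = 0 := by
      refine Φ.vec_ind ?_ ?_ ?_
      · intro v hv
        have h3 : ((aeval (Φ.T x hx) g) ⟨v, hv⟩ : Φ.V).1 = (aeval x g) *ᵥ v :=
          Φ.T_aeval x hx g ⟨v, hv⟩
        rw [map_mul, aeval_X, ← mulVec_mulVec, ← h3]
        apply hk e _ (Subtype.property _)
        rw [h3, mulVec_mulVec]
        have h4 := Φ.T_aeval x hx (minpoly F (Φ.T x hx)) ⟨v, hv⟩
        have h5 : aeval (Φ.T x hx) (minpoly F (Φ.T x hx)) = 0 := minpoly.aeval F (Φ.T x hx)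
        rw [h5] at h4
        rw [hg, map_mul, map_pow, aeval_X] at h4
        exact h4.symm
      · intro u v hu hv
        rw [mulVec_add, hu, hv, add_zero]
      · intro c u hu
        rw [mulVec_smul, hu, smul_zero]
    ext i j
    have h3 := congrFun (h2 (Pi.single j 1)) i
    rw [mulVec_single_one] at h3
    exact h3
  have h2 : ∀ q : F[X], R (aeval x (X * (X * q))) = 0 := by
    intro q
    induction q using Polynomial.induction_on' with
    | add p q hp hq => rw [mul_add, mul_add, map_add, map_add, hp, hq, add_zero]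
    | monomial k a =>
      rw [X_mul_monomial, X_mul_monomial, aeval_monomial, ← Algebra.smul_def,
        ← algebraMap_smul K, map_smul, h0 k, smul_zero]
  have h3 : X * g = C (g.coeff 0) * X + X * (X * divX g) := by
    conv_lhs => rw [← X_mul_divX_add g]
    ring
  rw [h3, map_add, map_mul, aeval_C, aeval_X, ← Algebra.smul_def] at h1
  have h4 := congrArg R h1
  rw [map_add, h2, add_zero, map_zero, ← algebraMap_smul K, map_smul] at h4
  refine (smul_eq_zero.1 h4).resolve_left ?_
  rw [map_eq_zero]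
  exact hg0

end Pool.Agent.MP_f4742e_al
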