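import Pool.Agent.Lib.MP_f4742e_al.X.M2
import Pool.Agent.Lib.MP_f4742e_al.H67Gen
import Pool.Agent.Lib.MP_f4742e_al.HLA
import Pool.Agent.Lib.MP_f4742e_al.HMu1

/-!
The case `(R 1)^2 = 0`, rank two: general lemmas and the idempotent case.
-/

set_option autoImplicit false

namespace Pool.Agent.MP_f4742e_al

open Matrix

section

variable {K : Type*} [Field K] {n : ℕ}

/-- `e M e` for `e = C1 f1 f1ᵀ + C2 f2 f2ᵀ`. -/
theorem F2_exe {C1 C2 : K} {f1 f2 : Fin n → K} (M : Matrix (Fin n) (Fin n) K) :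
    (C1 • vecMulVec f1 f1 + C2 • vecMulVec f2 f2) * M *
      (C1 • vecMulVec f1 f1 + C2 • vecMulVec f2 f2) =
      (C1 * C1 * (f1 ⬝ᵥ (M *ᵥ f1))) • vecMulVec f1 f1 +
      (C1 * C2 * (f1 ⬝ᵥ (M *ᵥ f2))) • vecMulVec f1 f2 +
      (C2 * C1 * (f2 ⬝ᵥ (M *ᵥ f1))) • vecMulVec f2 f1 +
      (C2 * C2 * (f2 ⬝ᵥ (M *ᵥ f2))) • vecMulVec f2 f2 := by
  have key : ∀ a b c d : Fin n → K, vecMulVec a b * M * vecMulVec c d =
      (b ⬝ᵥ (M *ᵥ c)) • vecMulVec a d := by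
    intro a b c d
    rw [Matrix.mul_assoc, mul_vecMulVec, vecMulVec_mul_vecMulVec, vecMulVec_smul]
  simp only [add_mul, mul_add, smul_mul_assoc, mul_smul_comm, key, smul_smul]
  module

/-- `e M e` for `e = u vᵀ + v uᵀ`. -/
theorem F2_exe' {u v : Fin n → K} (M : Matrix (Fin n) (Fin n) K) :
    (vecMulVec u v + vecMulVec v u) * M * (vecMulVec u v + vecMulVec v u) =
      (v ⬝ᵥ (M *ᵥ u)) • vecMulVec u v + (v ⬝ᵥ (M *ᵥ v)) • vecMulVec u u +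
      (u ⬝ᵥ (M *ᵥ u)) • vecMulVec v v + (u ⬝ᵥ (M *ᵥ v)) • vecMulVec v u := by
  have key : ∀ a b c d : Fin n → K, vecMulVec a b * M * vecMulVec c d =
      (b ⬝ᵥ (M *ᵥ c)) • vecMulVec a d := by
    intro a b c d
    rw [Matrix.mul_assoc, mul_vecMulVec, vecMulVec_mul_vecMulVec, vecMulVec_smul]
  simp only [add_mul, mul_add, key]
  module

end

section

variable {K : Type*} [Field K] [CharZero K] {n : ℕ}
  {R : Matrix (Fin n) (Fin n) K →ₗ[K] Matrix (Fin n) (Fin n) K} (hR : SRB R)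

include hR

/-- Every value of `R` is the value of a symmetric matrix. -/
theorem F2_sym (x : Matrix (Fin n) (Fin n) K) : ∃ y, yᵀ = y ∧ R y = R x := by
  refine ⟨(2 : K)⁻¹ • (x + xᵀ), ?_, ?_⟩
  · rw [transpose_smul, transpose_add, transpose_transpose, add_comm]
  · rw [map_smul, map_add, hR.ti, ← two_smul K, smul_smul, inv_mul_cancel₀ two_ne_zero, one_smul]

/-- `e s e s e` is in the image of `U_e` on the values of `R`. -/
theorem F2_sq (ha : R 1 * R 1 = 0) {x : Matrix (Fin n) (Fin n) K} (hx : xᵀ = x) :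
    R 1 * (R x * R 1 * R x) * R 1 = R (R 1 * ((2 : K) • (R x * R 1 * x)) * R 1) := by
  have h1 := hR.cl_sq 1 hx
  rw [pow_one, Nat.sub_self, pow_zero, Matrix.mul_one, Nat.cast_one, one_smul] at h1
  rw [h1, ← H67.R_U hR.rb ha, Matrix.mul_add, Matrix.add_mul, map_add, H67.sq_mem hR.rb,
    H67.R_U hR.rb ha (R (jp (R x) x)), H67.U_two hR.rb ha, add_zero]

/-- `e` is not of the form `e s e`. -/
theorem F2_noe (ha : R 1 * R 1 = 0) {x : Matrix (Fin n) (Fin n) K} {c : K}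
    (h : R 1 * R x * R 1 = c • R 1) : c • R 1 = 0 := by
  obtain ⟨y, hy, hyx⟩ := F2_sym hR x
  rw [← hyx] at h
  have h1 := F2_sq hR ha hy
  have h2 : R 1 * (R y * R 1 * R y) * R 1 = (c * c) • R 1 := by
    have : R 1 * (R y * R 1 * R y) * R 1 = (R 1 * R y * R 1) * R y * R 1 := by
      simp only [Matrix.mul_assoc]
    rw [this, h, smul_mul_assoc, smul_mul_assoc, h, smul_smul]
  have h3 : R (R 1 * ((2 : K) • (R y * R 1 * y)) * R 1) = (2 * (c * c)) • R 1 := by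
    have : R 1 * ((2 : K) • (R y * R 1 * y)) * R 1 = (2 : K) • ((R 1 * R y * R 1) * y * R 1) := by
      simp only [Matrix.mul_assoc, mul_smul_comm, smul_mul_assoc]
    rw [this, h, smul_mul_assoc, smul_mul_assoc, map_smul, map_smul, H67.R_U hR.rb ha, h, smul_smul,
      smul_smul]
    congr 1
    ring
  rw [h2, h3] at h1
  have h4 : (c * c) • R 1 = 0 := by
    have h5 : (2 * (c * c)) • R 1 - (c * c) • R 1 = (c * c) • R 1 := by module
    rw [← h5, ← h1, sub_self]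
  rcases smul_eq_zero.1 h4 with h5 | h5
  · rw [mul_self_eq_zero.1 h5, zero_smul]
  · rw [h5, smul_zero]

/-- The values of `R` are degenerate on the image of `e`. -/
theorem F2_det (ha : R 1 * R 1 = 0) (h0 : R 1 ≠ 0) {C1 C2 : K} {f1 f2 : Fin n → K}
    (hC1 : C1 ≠ 0) (hC2 : C2 ≠ 0)
    (he : R 1 = C1 • vecMulVec f1 f1 + C2 • vecMulVec f2 f2) (x : Matrix (Fin n) (Fin n) K) :
    (f1 ⬝ᵥ (R x *ᵥ f1)) * (f2 ⬝ᵥ (R x *ᵥ f2)) = (f1 ⬝ᵥ (R x *ᵥ f2)) ^ 2 := by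
  obtain ⟨y, hy, hyx⟩ := F2_sym hR x
  rw [← hyx]
  have h1 := F2_sq hR ha hy
  rw [H67.R_U hR.rb ha] at h1
  have hs : ∀ a b : Fin n → K, a ⬝ᵥ ((R y * R 1 * R y) *ᵥ b) =
      C1 * ((a ⬝ᵥ (R y *ᵥ f1)) * (f1 ⬝ᵥ (R y *ᵥ b))) +
        C2 * ((a ⬝ᵥ (R y *ᵥ f2)) * (f2 ⬝ᵥ (R y *ᵥ b))) := by
    intro a b
    rw [← mulVec_mulVec, ← mulVec_mulVec, he, add_mulVec, smul_mulVec, smul_mulVec, vmv_mulVec,
      vmv_mulVec, mulVec_add, mulVec_smul, mulVec_smul, mulVec_smul, mulVec_smul, dotProduct_add,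
      dotProduct_smul, dotProduct_smul, dotProduct_smul, dotProduct_smul]
    simp only [smul_eq_mul]
    ring
  have h21 : f2 ⬝ᵥ (R y *ᵥ f1) = f1 ⬝ᵥ (R y *ᵥ f2) := dot_symm' (hR.tr y) _ _
  have h2 : R 1 * (R y * R 1 * R y) * R 1 =
      (C1 * (f1 ⬝ᵥ (R y *ᵥ f1)) + C2 * (f2 ⬝ᵥ (R y *ᵥ f2))) • (R 1 * R y * R 1) -
      (C1 * C2 * ((f1 ⬝ᵥ (R y *ᵥ f1)) * (f2 ⬝ᵥ (R y *ᵥ f2)) - (f1 ⬝ᵥ (R y *ᵥ f2)) ^ 2)) • R 1 := by
    have e1 := F2_exe (C1 := C1) (C2 := C2) (f1 := f1) (f2 := f2) (R y * R 1 * R y)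
    have e2 := F2_exe (C1 := C1) (C2 := C2) (f1 := f1) (f2 := f2) (R y)
    rw [← he] at e1 e2
    rw [e1, e2, hs, hs, hs, hs, h21]
    nth_rw 1 [he]
    module
  have h3 : R 1 * R ((C1 * (f1 ⬝ᵥ (R y *ᵥ f1)) + C2 * (f2 ⬝ᵥ (R y *ᵥ f2))) • y -
      (2 : K) • (R y * R 1 * y)) * R 1 =
      (C1 * C2 * ((f1 ⬝ᵥ (R y *ᵥ f1)) * (f2 ⬝ᵥ (R y *ᵥ f2)) - (f1 ⬝ᵥ (R y *ᵥ f2)) ^ 2)) • R 1 := by
    rw [map_sub, Matrix.mul_sub, Matrix.sub_mul, ← h1, h2, map_smul, mul_smul_comm,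
      smul_mul_assoc]
    abel
  have h4 := F2_noe hR ha h3
  rcases smul_eq_zero.1 h4 with h5 | h5
  · have h6 := (mul_eq_zero.1 h5).resolve_left (mul_ne_zero hC1 hC2)
    exact sub_eq_zero.1 h6
  · exact absurd h5 h0

/-- The idempotent case. -/
theorem F2_T1 (ha : R 1 * R 1 = 0) {l0 l1 : Fin n → K} {a0 a1 : K} (h0 : a0 ≠ 0) (h1 : a1 ≠ 0)
    (hl : LinearIndependent K ![l0, l1])
    (he : R 1 = a0 • vecMulVec l0 l0 + a1 • vecMulVec l1 l1)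
    (hs : ∀ x, ∃ χ : K, R x *ᵥ l0 = χ • l0) (hT : ∃ x, R 1 * R x * R 1 ≠ 0)
    (x : Matrix (Fin n) (Fin n) K) : R (R (R x)) = 0 := by
  obtain ⟨g, hg⟩ := exists_dual hl
  have g00 : g 0 ⬝ᵥ l0 = 1 := hg 0 0
  have g01 : g 0 ⬝ᵥ l1 = 0 := hg 0 1
  have g10 : g 1 ⬝ᵥ l0 = 0 := hg 1 0
  have g11 : g 1 ⬝ᵥ l1 = 1 := hg 1 1
  have hmv : ∀ y, R 1 *ᵥ y = (a0 * (l0 ⬝ᵥ y)) • l0 + (a1 * (l1 ⬝ᵥ y)) • l1 := by
    intro y
    rw [he, add_mulVec, smul_mulVec, smul_mulVec, vmv_mulVec, vmv_mulVec, smul_smul, smul_smul]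
  have eg0 : R 1 *ᵥ g 0 = a0 • l0 := by
    rw [hmv, dotProduct_comm l0, dotProduct_comm l1, g00, g01, mul_one, mul_zero, zero_smul,
      add_zero]
  have eg1 : R 1 *ᵥ g 1 = a1 • l1 := by
    rw [hmv, dotProduct_comm l0, dotProduct_comm l1, g10, g11, mul_one, mul_zero, zero_smul,
      zero_add]
  have el0 : R 1 *ᵥ l0 = 0 := by
    have h2 : R 1 *ᵥ (R 1 *ᵥ g 0) = 0 := by rw [mulVec_mulVec, ha, zero_mulVec]
    rw [eg0, mulVec_smul] at h2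
    exact (smul_eq_zero.1 h2).resolve_left h0
  have el1 : R 1 *ᵥ l1 = 0 := by
    have h2 : R 1 *ᵥ (R 1 *ᵥ g 1) = 0 := by rw [mulVec_mulVec, ha, zero_mulVec]
    rw [eg1, mulVec_smul] at h2
    exact (smul_eq_zero.1 h2).resolve_left h1
  have i00 : l0 ⬝ᵥ l0 = 0 := by
    have h2 := congrArg (fun t => g 0 ⬝ᵥ t) el0
    simp only [hmv, dotProduct_add, dotProduct_smul, g00, g01, smul_eq_mul, mul_one, mul_zero,
      add_zero, dotProduct_zero] at h2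
    exact (mul_eq_zero.1 h2).resolve_left h0
  have i10 : l1 ⬝ᵥ l0 = 0 := by
    have h2 := congrArg (fun t => g 1 ⬝ᵥ t) el0
    simp only [hmv, dotProduct_add, dotProduct_smul, g10, g11, smul_eq_mul, mul_one, mul_zero,
      zero_add, dotProduct_zero] at h2
    exact (mul_eq_zero.1 h2).resolve_left h1
  have i01 : l0 ⬝ᵥ l1 = 0 := by rw [dotProduct_comm, i10]
  have s00 : ∀ y, l0 ⬝ᵥ (R y *ᵥ l0) = 0 := by
    intro y
    obtain ⟨χ, hχ⟩ := hs y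
    rw [hχ, dotProduct_smul, i00, smul_zero]
  have s10 : ∀ y, l1 ⬝ᵥ (R y *ᵥ l0) = 0 := by
    intro y
    obtain ⟨χ, hχ⟩ := hs y
    rw [hχ, dotProduct_smul, i10, smul_zero]
  have s01 : ∀ y, l0 ⬝ᵥ (R y *ᵥ l1) = 0 := by
    intro y
    rw [dot_symm' (hR.tr y), s10]
  have ese : ∀ y, R 1 * R y * R 1 = (a1 * a1 * (l1 ⬝ᵥ (R y *ᵥ l1))) • vecMulVec l1 l1 := by
    intro y
    have h2 := F2_exe (C1 := a0) (C2 := a1) (f1 := l0) (f2 := l1) (R y)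
    rw [← he, s00, s01, s10] at h2
    rw [h2]
    module
  have hl1 : l1 ≠ 0 := by
    rintro rfl
    rw [dotProduct_zero] at g11
    exact zero_ne_one g11
  have hl0 : l0 ≠ 0 := by
    rintro rfl
    rw [dotProduct_zero] at g00
    exact zero_ne_one g00
  have hτ : vecMulVec l1 l1 ≠ 0 := vecMulVec_ne_zero hl1 hl1
  have egg : ∀ i j, R 1 * vecMulVec (g i) (g j) * R 1 =
      vecMulVec (R 1 *ᵥ g i) (R 1 *ᵥ g j) := by
    intro i j
    rw [mul_vecMulVec, vmv_mul (hR.tr 1)]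
  -- the values on the image of `e`
  have r11 : R (vecMulVec l1 l1) = 0 := by
    have h2 : R (vecMulVec l1 l1) = ((a1 * a1)⁻¹ * (a1 * a1 * (l1 ⬝ᵥ
        (R (vecMulVec (g 1) (g 1)) *ᵥ l1)))) • vecMulVec l1 l1 := by
      rw [mul_smul, ← ese, ← H67.R_U hR.rb ha, ← map_smul, egg, eg1, smul_vecMulVec,
        vecMulVec_smul, smul_smul, smul_smul, mul_assoc, inv_mul_cancel₀ (mul_ne_zero h1 h1),
        one_smul]
    have h3 : R (R (vecMulVec l1 l1)) = 0 := by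
      have h4 : vecMulVec l1 l1 = (a1 * a1)⁻¹ • (R 1 * vecMulVec (g 1) (g 1) * R 1) := by
        rw [egg, eg1, smul_vecMulVec, vecMulVec_smul, smul_smul, smul_smul, mul_assoc,
          inv_mul_cancel₀ (mul_ne_zero h1 h1), one_smul]
      rw [h4, map_smul, map_smul, H67.R_R_U hR.rb ha, smul_zero]
    generalize (a1 * a1)⁻¹ * (a1 * a1 * (l1 ⬝ᵥ (R (vecMulVec (g 1) (g 1)) *ᵥ l1))) = k at h2
    rw [h2, map_smul, h2, smul_smul] at h3
    have h4 := (smul_eq_zero.1 h3).resolve_right hτ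
    rw [h2, mul_self_eq_zero.1 h4, zero_smul]
  have r00 : R (vecMulVec l0 l0) = 0 := by
    have h2 := H67.R_a hR.rb ha
    rw [he, map_add, map_smul, map_smul, r11, smul_zero, add_zero] at h2
    exact (smul_eq_zero.1 h2).resolve_left h0
  have r01 : R (vecMulVec l0 l1) = R (vecMulVec l1 l0) := by
    rw [← hR.ti, transpose_vecMulVec]
  obtain ⟨κ, hκ⟩ : ∃ κ : K, R (vecMulVec l1 l0) = κ • vecMulVec l1 l1 := by
    refine ⟨((a1 * a0)⁻¹ * (a1 * a1 * (l1 ⬝ᵥ (R (vecMulVec (g 1) (g 0)) *ᵥ l1)))), ?_⟩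
    rw [mul_smul, ← ese, ← H67.R_U hR.rb ha, ← map_smul, egg, eg1, eg0, smul_vecMulVec,
      vecMulVec_smul, smul_smul, smul_smul, mul_assoc, inv_mul_cancel₀ (mul_ne_zero h1 h0),
      one_smul]
  have hκ0 : κ ≠ 0 := by
    rintro rfl
    rw [zero_smul] at hκ
    obtain ⟨y, hy⟩ := hT
    apply hy
    have h2 := F2_exe (C1 := a0) (C2 := a1) (f1 := l0) (f2 := l1) y
    rw [← he] at h2
    rw [← H67.R_U hR.rb ha, h2, map_add, map_add, map_add, map_smul, map_smul, map_smul, map_smul,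
      r00, r01, hκ, r11]
    simp
  -- the operator `Y`
  obtain ⟨Y, hY⟩ : ∃ Y, Y = R (R x) := ⟨_, rfl⟩
  have hYt : Yᵀ = Y := by rw [hY, hR.tr]
  obtain ⟨lam, hlam⟩ : ∃ lam : K, Y *ᵥ l0 = lam • l0 := by
    rw [hY]
    exact hs _
  have hcs := H67.comm_sq hR.rb ha hY
  obtain ⟨c, hc⟩ : ∃ c : K, Y *ᵥ l1 = c • l1 := by
    apply par_of_rank (r := Y *ᵥ (Y *ᵥ l1)) hl1
    have e1 : R 1 * Y * Y = a0 • vecMulVec l0 (Y *ᵥ (Y *ᵥ l0)) +
        a1 • vecMulVec l1 (Y *ᵥ (Y *ᵥ l1)) := by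
      rw [he, add_mul, add_mul, smul_mul_assoc, smul_mul_assoc, smul_mul_assoc, smul_mul_assoc,
        vmv_mul hYt, vmv_mul hYt, vmv_mul hYt, vmv_mul hYt]
    have e2 : Y * Y * R 1 = a0 • vecMulVec (Y *ᵥ (Y *ᵥ l0)) l0 +
        a1 • vecMulVec (Y *ᵥ (Y *ᵥ l1)) l1 := by
      rw [he, mul_add, mul_smul_comm, mul_smul_comm, mul_vecMulVec, mul_vecMulVec, mulVec_mulVec,
        mulVec_mulVec]
    have e3 : Y * R 1 * Y = a0 • vecMulVec (Y *ᵥ l0) (Y *ᵥ l0) +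
        a1 • vecMulVec (Y *ᵥ l1) (Y *ᵥ l1) := by
      rw [he, mul_add, add_mul, mul_smul_comm, mul_smul_comm, mul_vecMulVec, mul_vecMulVec,
        smul_mul_assoc, smul_mul_assoc, vmv_mul hYt, vmv_mul hYt]
    rw [e1, e2, e3, hlam, mulVec_smul, hlam] at hcs
    simp only [vecMulVec_smul, smul_vecMulVec] at hcs
    have h3 : a1 • (vecMulVec l1 (Y *ᵥ (Y *ᵥ l1)) + vecMulVec (Y *ᵥ (Y *ᵥ l1)) l1) =
        a1 • ((2 : K) • vecMulVec (Y *ᵥ l1) (Y *ᵥ l1)) := by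
      have h4 := sub_eq_zero.2 hcs
      rw [← sub_eq_zero, ← h4]
      module
    exact smul_right_injective _ h1 h3
  have hcl : c = lam := by
    have h2 := hR.rb (R x) (κ⁻¹ • vecMulVec l1 l0)
    rw [map_smul, hκ, smul_smul, inv_mul_cancel₀ hκ0, one_smul, map_add,
      K0 hR.rb r11 x, add_zero, ← hY] at h2
    have e1 : jp Y (vecMulVec l1 l1) = (2 * c) • vecMulVec l1 l1 := by
      unfold jp
      rw [mul_vecMulVec, vmv_mul hYt, hc, smul_vecMulVec, vecMulVec_smul]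
      module
    have e2 : jp Y (κ⁻¹ • vecMulVec l1 l0) = (κ⁻¹ * (c + lam)) • vecMulVec l1 l0 := by
      unfold jp
      rw [mul_smul_comm, smul_mul_assoc, mul_vecMulVec, vmv_mul hYt, hc, hlam, smul_vecMulVec,
        vecMulVec_smul]
      module
    rw [e1, e2, map_smul, hκ, smul_smul] at h2
    have e3 : κ⁻¹ * (c + lam) * κ = c + lam := by
      field_simp
    rw [e3] at h2
    have h3 : (c - lam) • vecMulVec l1 l1 = 0 := by
      have h4 := sub_eq_zero.2 h2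
      rw [← h4]
      module
    exact sub_eq_zero.1 ((smul_eq_zero.1 h3).resolve_right hτ)
  subst hcl
  have hm : (R 1) ^ 2 = 0 := by rw [pow_two, ha]
  have hjp : jp ((R 1) ^ (2 - 1)) ((R ^ 2) x) = (2 * c) • (R 1) ^ (2 - 1) := by
    have h2 : (R ^ 2) x = Y := by
      rw [hY, pow_two, Module.End.mul_apply]
    rw [h2, pow_one]
    unfold jp
    nth_rw 1 2 3 [he]
    rw [add_mul, mul_add, smul_mul_assoc, smul_mul_assoc, mul_smul_comm, mul_smul_comm,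
      vmv_mul hYt, vmv_mul hYt, mul_vecMulVec, mul_vecMulVec, hlam, hc]
    simp only [vecMulVec_smul, smul_vecMulVec]
    module
  have he0 : (R 1) ^ (2 - 1) ≠ 0 := by
    rw [pow_one]
    intro h2
    obtain ⟨y, hy⟩ := hT
    apply hy
    rw [h2]
    simp
  have h2 := jp_e_ne hR.rb (by norm_num : 1 ≤ 2) hm he0 x hjp
  rw [h2, zero_smul] at hjp
  have h3 := last_zero hR.rb (by norm_num : 1 ≤ 2) hm x hjp
  have h4 : R (R (R x)) = (R ^ (2 * 2 - 1)) x := rfl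
  rw [h4, h3]

end

section

variable {F K : Type*} [Field F] [Field K] [CharZero K] [Algebra F K] {n : ℕ}
  {R : Matrix (Fin n) (Fin n) K →ₗ[K] Matrix (Fin n) (Fin n) K}

omit [CharZero K] in
/-- A rational isotropic vector which is orthogonal to a rational isotropic plane. -/
theorem F2_wi (Φ : Frame F R 2) {u1 u2 y : Fin n → K} (h1 : u1 ∈ Φ.V) (h2 : u2 ∈ Φ.V)
    (hy : y ∈ Φ.V) (hl : LinearIndependent K ![u1, u2]) (h11 : u1 ⬝ᵥ u1 = 0)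
    (h12 : u1 ⬝ᵥ u2 = 0) (h22 : u2 ⬝ᵥ u2 = 0) (hy1 : u1 ⬝ᵥ y = 0) (hy2 : u2 ⬝ᵥ y = 0)
    (hyy : y ⬝ᵥ y = 0) : ∃ α β : K, y = α • u1 + β • u2 := by
  by_contra hcon
  have hy' : y ∉ Submodule.span K (Set.range ![u1, u2]) := by
    intro h
    apply hcon
    have h3 : Set.range ![u1, u2] = {u1, u2} := by
      simp [Matrix.range_cons, Matrix.range_empty, Set.pair_comm]
    rw [h3, Submodule.mem_span_pair] at h
    obtain ⟨α, β, h⟩ := h
    exact ⟨α, β, h.symm⟩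
  have hl3 : LinearIndependent K ![y, u1, u2] := linearIndependent_fin_cons.2 ⟨hl, hy'⟩
  have h21 : u2 ⬝ᵥ u1 = 0 := by rw [dotProduct_comm, h12]
  have hy1' : y ⬝ᵥ u1 = 0 := by rw [dotProduct_comm, hy1]
  have hy2' : y ⬝ᵥ u2 = 0 := by rw [dotProduct_comm, hy2]
  have h4 := Φ.wi 3 ![y, u1, u2] (by
    intro i
    fin_cases i
    · exact hy
    · exact h1
    · exact h2) (by
    intro i j
    fin_cases i <;> fin_cases j
    · exact hyy
    · exact hy1'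
    · exact hy2'
    · exact hy1
    · exact h11
    · exact h12
    · exact hy2
    · exact h21
    · exact h22) hl3
  omega

/-- The line is stable. -/
theorem F2_line (hR : SRB R) (Φ : Frame F R 2) {l w : Fin n → K} (hlV : l ∈ Φ.V) (hwV : w ∈ Φ.V)
    (hl : LinearIndependent K ![l, w]) (hll : l ⬝ᵥ l = 0) (hlw : l ⬝ᵥ w = 0) (hww : w ⬝ᵥ w = 0)
    (h1 : ∀ x, l ⬝ᵥ (R x *ᵥ l) = 0) (h2 : ∀ x, w ⬝ᵥ (R x *ᵥ l) = 0)
    (h3 : ∃ x, w ⬝ᵥ (R x *ᵥ w) ≠ 0) (x : Matrix (Fin n) (Fin n) K) :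
    ∃ χ : K, R x *ᵥ l = χ • l := by
  have h4 : ∀ x, ∃ α β : K, R x *ᵥ l = α • l + β • w := by
    intro x
    obtain ⟨y, hy, hyx⟩ := F2_sym hR x
    rw [← hyx]
    refine Φ.sym_ind (P := fun y => ∃ α β : K, R y *ᵥ l = α • l + β • w) ?_ ?_ ?_ y hy
    · intro x hx _
      refine F2_wi Φ hlV hwV (Φ.act _ (Φ.map _ hx) _ hlV) hl hll hlw hww (h1 x) (h2 x) ?_
      have h5 := hR.S1_diag h1 0 x x
      rwa [pow_zero, one_mulVec] at h5
    · rintro x y ⟨α, β, h⟩ ⟨α', β', h'⟩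
      refine ⟨α + α', β + β', ?_⟩
      rw [map_add, add_mulVec, h, h']
      module
    · rintro c x ⟨α, β, h⟩
      refine ⟨c * α, c * β, ?_⟩
      rw [map_smul, smul_mulVec, h]
      module
  choose α β hαβ using h4
  have h5 : ∀ x y, β x * (w ⬝ᵥ (R y *ᵥ w)) + β y * (w ⬝ᵥ (R x *ᵥ w)) = 0 := by
    intro x y
    have h6 := hR.S1 (ε := l) (ε' := w) h2 0 x y
    rw [pow_zero, one_mulVec, one_mulVec, hαβ x, hαβ y, dotProduct_add, dotProduct_add,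
      dotProduct_smul, dotProduct_smul, dotProduct_smul, dotProduct_smul, dot_symm (hR.tr y),
      dot_symm (hR.tr x), h2, h2, dot_symm (hR.tr y), dot_symm (hR.tr x)] at h6
    simpa using h6
  obtain ⟨x0, hx0⟩ := h3
  have h6 : β x0 = 0 := by
    have h7 := h5 x0 x0
    rw [← two_mul] at h7
    exact (mul_eq_zero.1 ((mul_eq_zero.1 h7).resolve_left two_ne_zero)).resolve_right hx0
  refine ⟨α x, ?_⟩
  have h7 := h5 x x0
  rw [h6, zero_mul, add_zero] at h7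
  rw [hαβ x, (mul_eq_zero.1 h7).resolve_right hx0, zero_smul, add_zero]

end

end Pool.Agent.MP_f4742e_al
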