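import Pool.Agent.Lib.MP_f4742e_al.X.F2a

/-!
The case `(R 1)^2 = 0`, rank two: the nilpotent case, first part.
-/

set_option autoImplicit false

namespace Pool.Agent.MP_f4742e_al

open Matrix

/-- Facts in the nilpotent case. -/
structure F2D (F : Type*) {K : Type*} [Field F] [Field K] [Algebra F K] {n : ℕ}
    {R : Matrix (Fin n) (Fin n) K →ₗ[K] Matrix (Fin n) (Fin n) K} (Φ : Frame F R 2)
    (u v g0 U0 : Fin n → K) (ε : K) (ρ : Matrix (Fin n) (Fin n) K) : Prop where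
  hu : u ∈ Φ.V
  hv : v ∈ Φ.V
  hl : LinearIndependent K ![u, v]
  he : R 1 = vecMulVec u v + vecMulVec v u
  uu : u ⬝ᵥ u = 0
  uv : u ⬝ᵥ v = 0
  vv : v ⬝ᵥ v = 0
  hε : ε ≠ 0
  gV : g0 ∈ Φ.V
  gu : g0 ⬝ᵥ u = 1
  UV : U0 ∈ Φ.V
  uU : u ⬝ᵥ U0 = 0
  vU : v ⬝ᵥ U0 = ε
  Ru : ∀ x, R x *ᵥ u = (g0 ⬝ᵥ (R x *ᵥ u)) • u
  mu : ∀ x, v ⬝ᵥ (R x *ᵥ v) = ε * (u ⬝ᵥ (x *ᵥ u))
  dd : ∀ x y, (R x *ᵥ v) ⬝ᵥ (R y *ᵥ v) = (g0 ⬝ᵥ (R x *ᵥ u)) * (v ⬝ᵥ (R y *ᵥ v)) +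
    (g0 ⬝ᵥ (R y *ᵥ u)) * (v ⬝ᵥ (R x *ᵥ v))
  Rv : ∀ x, ∃ α : K, R x *ᵥ v = (g0 ⬝ᵥ (R x *ᵥ u)) • v + ((v ⬝ᵥ (R x *ᵥ v)) / ε) • U0 + α • u
  Rz : ∀ z, R (vecMulVec z u) = (z ⬝ᵥ u) • ρ
  R0 : ∃ x0, R x0 *ᵥ v = (g0 ⬝ᵥ (R x0 *ᵥ u)) • v + U0

variable {F K : Type*} [Field F] [Field K] [CharZero K] [Algebra F K] {n : ℕ}
  {R : Matrix (Fin n) (Fin n) K →ₗ[K] Matrix (Fin n) (Fin n) K}

/-- A rational vector which is not orthogonal to a given nonzero rational vector. -/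
theorem F2_dual (Φ : Frame F R 2) {u : Fin n → K} (hu : u ∈ Φ.V) (h0 : u ≠ 0) :
    ∃ g ∈ Φ.V, g ⬝ᵥ u = 1 := by
  by_contra hcon
  push Not at hcon
  have h1 : ∀ w ∈ Φ.V, w ⬝ᵥ u = 0 := by
    intro w hw
    by_contra h2
    obtain ⟨c, hc⟩ := Φ.dot w hw u hu
    refine hcon (c⁻¹ • w) (Φ.V.smul_mem _ hw) ?_
    have h3 : c⁻¹ • w = (algebraMap F K c⁻¹) • w := (algebraMap_smul K c⁻¹ w).symm
    rw [h3, smul_dotProduct, hc, smul_eq_mul, ← map_mul, inv_mul_cancel₀, map_one]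
    rintro rfl
    rw [map_zero] at hc
    exact h2 hc
  have h2 : ∀ w : Fin n → K, w ⬝ᵥ u = 0 := by
    refine Φ.vec_ind (P := fun w => w ⬝ᵥ u = 0) h1 ?_ ?_
    · intro x y hx hy
      rw [add_dotProduct, hx, hy, add_zero]
    · intro c x hx
      rw [smul_dotProduct, hx, smul_zero]
  apply h0
  funext i
  have h3 := h2 (Pi.single i 1)
  rwa [single_dotProduct, one_mul] at h3

theorem F2_D (hR : SRB R) (Φ : Frame F R 2) (ha : R 1 * R 1 = 0) {u v : Fin n → K}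
    (hu : u ∈ Φ.V) (hv : v ∈ Φ.V) (hl : LinearIndependent K ![u, v])
    (he : R 1 = vecMulVec u v + vecMulVec v u) (hs : ∀ x, ∃ χ : K, R x *ᵥ u = χ • u)
    (hT : ∃ x, R 1 * R x * R 1 ≠ 0) : ∃ g0 U0 ε ρ, F2D F Φ u v g0 U0 ε ρ := by
  obtain ⟨g, hg⟩ := exists_dual hl
  have g00 : g 0 ⬝ᵥ u = 1 := hg 0 0
  have g01 : g 0 ⬝ᵥ v = 0 := hg 0 1
  have g10 : g 1 ⬝ᵥ u = 0 := hg 1 0
  have g11 : g 1 ⬝ᵥ v = 1 := hg 1 1
  have hmv : ∀ y, R 1 *ᵥ y = (v ⬝ᵥ y) • u + (u ⬝ᵥ y) • v := by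
    intro y
    rw [he, add_mulVec, vmv_mulVec, vmv_mulVec]
  have eg0 : R 1 *ᵥ g 0 = v := by
    rw [hmv, dotProduct_comm v, dotProduct_comm u, g00, g01, zero_smul, one_smul, zero_add]
  have eg1 : R 1 *ᵥ g 1 = u := by
    rw [hmv, dotProduct_comm v, dotProduct_comm u, g10, g11, zero_smul, one_smul, add_zero]
  have eu : R 1 *ᵥ u = 0 := by
    rw [← eg1, mulVec_mulVec, ha, zero_mulVec]
  have ev : R 1 *ᵥ v = 0 := by
    rw [← eg0, mulVec_mulVec, ha, zero_mulVec]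
  have vu : v ⬝ᵥ u = 0 := by
    have h2 := congrArg (fun t => g 0 ⬝ᵥ t) eu
    simpa only [hmv, dotProduct_add, dotProduct_smul, g00, g01, smul_eq_mul, mul_one, mul_zero,
      add_zero, dotProduct_zero] using h2
  have uu : u ⬝ᵥ u = 0 := by
    have h2 := congrArg (fun t => g 1 ⬝ᵥ t) eu
    simpa only [hmv, dotProduct_add, dotProduct_smul, g10, g11, smul_eq_mul, mul_one, mul_zero,
      zero_add, dotProduct_zero] using h2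
  have vv : v ⬝ᵥ v = 0 := by
    have h2 := congrArg (fun t => g 0 ⬝ᵥ t) ev
    simpa only [hmv, dotProduct_add, dotProduct_smul, g00, g01, smul_eq_mul, mul_one, mul_zero,
      add_zero, dotProduct_zero] using h2
  have uv : u ⬝ᵥ v = 0 := by rw [dotProduct_comm, vu]
  have suu : ∀ y, u ⬝ᵥ (R y *ᵥ u) = 0 := by
    intro y
    obtain ⟨χ, hχ⟩ := hs y
    rw [hχ, dotProduct_smul, uu, smul_zero]
  have svu : ∀ y, v ⬝ᵥ (R y *ᵥ u) = 0 := by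
    intro y
    obtain ⟨χ, hχ⟩ := hs y
    rw [hχ, dotProduct_smul, vu, smul_zero]
  have suv : ∀ y, u ⬝ᵥ (R y *ᵥ v) = 0 := by
    intro y
    rw [dot_symm' (hR.tr y), svu]
  have ese : ∀ y, R 1 * R y * R 1 = (v ⬝ᵥ (R y *ᵥ v)) • vecMulVec u u := by
    intro y
    have h2 := F2_exe' (u := u) (v := v) (R y)
    rw [← he, suu, suv, svu] at h2
    rw [h2]
    module
  have hu0 : u ≠ 0 := by
    rintro rfl
    rw [dotProduct_zero] at g00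
    exact zero_ne_one g00
  have hτ : vecMulVec u u ≠ 0 := vecMulVec_ne_zero hu0 hu0
  have egg : ∀ i j, R 1 * vecMulVec (g i) (g j) * R 1 =
      vecMulVec (R 1 *ᵥ g i) (R 1 *ᵥ g j) := by
    intro i j
    rw [mul_vecMulVec, vmv_mul (hR.tr 1)]
  have rvu : R (vecMulVec v u) = R (vecMulVec u v) := by
    rw [← hR.ti, transpose_vecMulVec]
  have ruv : R (vecMulVec u v) = 0 := by
    have h2 := H67.R_a hR.rb ha
    rw [he, map_add, rvu, ← two_smul K] at h2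
    exact (smul_eq_zero.1 h2).resolve_left two_ne_zero
  obtain ⟨ε, hε⟩ : ∃ ε : K, R (vecMulVec v v) = ε • vecMulVec u u := by
    refine ⟨v ⬝ᵥ (R (vecMulVec (g 0) (g 0)) *ᵥ v), ?_⟩
    rw [← ese, ← H67.R_U hR.rb ha, egg, eg0]
  have ruu : R (vecMulVec u u) = 0 := by
    obtain ⟨k, hk⟩ : ∃ k : K, R (vecMulVec u u) = k • vecMulVec u u := by
      refine ⟨v ⬝ᵥ (R (vecMulVec (g 1) (g 1)) *ᵥ v), ?_⟩
      rw [← ese, ← H67.R_U hR.rb ha, egg, eg1]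
    have h3 : R (R (vecMulVec u u)) = 0 := by
      have h4 : vecMulVec u u = R 1 * vecMulVec (g 1) (g 1) * R 1 := by
        rw [egg, eg1]
      rw [h4, H67.R_R_U hR.rb ha]
    rw [hk, map_smul, hk, smul_smul] at h3
    have h4 := (smul_eq_zero.1 h3).resolve_right hτ
    rw [hk, mul_self_eq_zero.1 h4, zero_smul]
  have hmu : ∀ x, v ⬝ᵥ (R x *ᵥ v) = ε * (u ⬝ᵥ (x *ᵥ u)) := by
    intro x
    have h2 := F2_exe' (u := u) (v := v) x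
    rw [← he] at h2
    have h3 : R (R 1 * x * R 1) = ((u ⬝ᵥ (x *ᵥ u)) * ε) • vecMulVec u u := by
      rw [h2, map_add, map_add, map_add, map_smul, map_smul, map_smul, map_smul, ruv, ruu, hε,
        rvu, ruv, smul_zero, smul_zero, smul_zero, smul_smul, zero_add, zero_add, add_zero]
    rw [H67.R_U hR.rb ha, ese] at h3
    have h4 := sub_eq_zero.2 h3
    rw [← sub_smul] at h4
    have h5 := sub_eq_zero.1 ((smul_eq_zero.1 h4).resolve_right hτ)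
    rw [h5, mul_comm]
  have hε0 : ε ≠ 0 := by
    rintro rfl
    obtain ⟨y, hy⟩ := hT
    apply hy
    rw [ese, hmu, zero_mul, zero_smul]
  obtain ⟨g0, gV, gu⟩ := F2_dual Φ hu hu0
  have Ru : ∀ x, R x *ᵥ u = (g0 ⬝ᵥ (R x *ᵥ u)) • u := by
    intro x
    obtain ⟨χ, hχ⟩ := hs x
    rw [hχ, dotProduct_smul, gu, smul_eq_mul, mul_one]
  have dd : ∀ x y, (R x *ᵥ v) ⬝ᵥ (R y *ᵥ v) = (g0 ⬝ᵥ (R x *ᵥ u)) * (v ⬝ᵥ (R y *ᵥ v)) +
      (g0 ⬝ᵥ (R y *ᵥ u)) * (v ⬝ᵥ (R x *ᵥ v)) := by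
    intro x y
    have h2 := congrArg (fun M => v ⬝ᵥ (M *ᵥ v)) (hR.rb x y)
    simp only [hmu] at h2
    unfold jp at h2
    simp only [add_mulVec, ← mulVec_mulVec, dotProduct_add] at h2
    have e1 : v ⬝ᵥ (R x *ᵥ (R y *ᵥ v)) = (R x *ᵥ v) ⬝ᵥ (R y *ᵥ v) := (dot_symm (hR.tr x) _ _).symm
    have e2 : v ⬝ᵥ (R y *ᵥ (R x *ᵥ v)) = (R x *ᵥ v) ⬝ᵥ (R y *ᵥ v) := by
      rw [← dot_symm (hR.tr y), dotProduct_comm]
    have e3 : u ⬝ᵥ (R x *ᵥ (y *ᵥ u)) = (g0 ⬝ᵥ (R x *ᵥ u)) * (u ⬝ᵥ (y *ᵥ u)) := by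
      rw [← dot_symm (hR.tr x)]
      nth_rw 1 [Ru x]
      rw [smul_dotProduct, smul_eq_mul]
    have e4 : u ⬝ᵥ (R y *ᵥ (x *ᵥ u)) = (g0 ⬝ᵥ (R y *ᵥ u)) * (u ⬝ᵥ (x *ᵥ u)) := by
      rw [← dot_symm (hR.tr y)]
      nth_rw 1 [Ru y]
      rw [smul_dotProduct, smul_eq_mul]
    have e5 : u ⬝ᵥ (y *ᵥ (R x *ᵥ u)) = (g0 ⬝ᵥ (R x *ᵥ u)) * (u ⬝ᵥ (y *ᵥ u)) := by
      nth_rw 1 [Ru x]
      rw [mulVec_smul, dotProduct_smul, smul_eq_mul]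
    have e6 : u ⬝ᵥ (x *ᵥ (R y *ᵥ u)) = (g0 ⬝ᵥ (R y *ᵥ u)) * (u ⬝ᵥ (x *ᵥ u)) := by
      nth_rw 1 [Ru y]
      rw [mulVec_smul, dotProduct_smul, smul_eq_mul]
    rw [e1, e2, e3, e4, e5, e6] at h2
    have h3 : (2 : K) * ((R x *ᵥ v) ⬝ᵥ (R y *ᵥ v)) = 2 * ((g0 ⬝ᵥ (R x *ᵥ u)) *
        (v ⬝ᵥ (R y *ᵥ v)) + (g0 ⬝ᵥ (R y *ᵥ u)) * (v ⬝ᵥ (R x *ᵥ v))) := by
      rw [hmu x, hmu y]
      linear_combination h2
    exact mul_left_cancel₀ two_ne_zero h3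
  -- the special element
  obtain ⟨x0, hx0⟩ : ∃ x0, x0 = vecMulVec g0 g0 := ⟨_, rfl⟩
  have hx0M : x0 ∈ Φ.M := by
    rw [hx0]
    exact Φ.vmv _ gV _ gV
  have mu0 : v ⬝ᵥ (R x0 *ᵥ v) = ε := by
    rw [hmu, hx0, vmv_mulVec, gu, one_smul, dotProduct_comm, gu, mul_one]
  have sm : ∀ (c : F) (w : Fin n → K), (algebraMap F K c) • w = c • w := fun c w =>
    algebraMap_smul K c w
  have hlamF : ∀ x ∈ Φ.M, ∃ c : F, g0 ⬝ᵥ (R x *ᵥ u) = algebraMap F K c := fun x hx =>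
    Φ.dot _ gV _ (Φ.act _ (Φ.map _ hx) _ hu)
  have hmuF : ∀ x ∈ Φ.M, ∃ c : F, v ⬝ᵥ (R x *ᵥ v) = algebraMap F K c := fun x hx =>
    Φ.dot _ hv _ (Φ.act _ (Φ.map _ hx) _ hv)
  obtain ⟨U, hU⟩ : ∃ U : Matrix (Fin n) (Fin n) K → (Fin n → K),
      U = fun x => R x *ᵥ v - (g0 ⬝ᵥ (R x *ᵥ u)) • v := ⟨_, rfl⟩
  have hUV : ∀ x ∈ Φ.M, U x ∈ Φ.V := by
    intro x hx
    obtain ⟨c, hc⟩ := hlamF x hx
    rw [hU]
    change R x *ᵥ v - (g0 ⬝ᵥ (R x *ᵥ u)) • v ∈ Φ.V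
    rw [hc, sm]
    exact Φ.V.sub_mem (Φ.act _ (Φ.map _ hx) _ hv) (Φ.V.smul_mem _ hv)
  have uU : ∀ x, u ⬝ᵥ U x = 0 := by
    intro x
    rw [hU]
    change u ⬝ᵥ (R x *ᵥ v - (g0 ⬝ᵥ (R x *ᵥ u)) • v) = 0
    rw [dotProduct_sub, dotProduct_smul, suv, uv, smul_zero, sub_zero]
  have vU : ∀ x, v ⬝ᵥ U x = v ⬝ᵥ (R x *ᵥ v) := by
    intro x
    rw [hU]
    change v ⬝ᵥ (R x *ᵥ v - (g0 ⬝ᵥ (R x *ᵥ u)) • v) = _
    rw [dotProduct_sub, dotProduct_smul, vv, smul_zero, sub_zero]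
  have UU : ∀ x y, U x ⬝ᵥ U y = 0 := by
    intro x y
    rw [hU]
    change (R x *ᵥ v - (g0 ⬝ᵥ (R x *ᵥ u)) • v) ⬝ᵥ (R y *ᵥ v - (g0 ⬝ᵥ (R y *ᵥ u)) • v) = 0
    rw [sub_dotProduct, dotProduct_sub, dotProduct_sub, smul_dotProduct, smul_dotProduct,
      dotProduct_smul, dotProduct_smul, vv, dd, dotProduct_comm (R x *ᵥ v) v]
    simp only [smul_eq_mul]
    ring
  have claim1 : ∀ x ∈ Φ.M, v ⬝ᵥ (R x *ᵥ v) = 0 → ∃ α : K, U x = α • u := by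
    intro x hx h0
    obtain ⟨α, β, h⟩ := F2_wi Φ hu hv (hUV x hx) hl uu uv vv (uU x) (by rw [vU, h0]) (UU x x)
    have h2 := UU x0 x
    rw [h, dotProduct_add, dotProduct_smul, dotProduct_smul, dotProduct_comm (U x0) u,
      dotProduct_comm (U x0) v, uU, vU, mu0, smul_zero, zero_add, smul_eq_mul] at h2
    refine ⟨α, ?_⟩
    rw [h, (mul_eq_zero.1 h2).resolve_right hε0, zero_smul, add_zero]
  have claim2 : ∀ x, ∃ α : K, R x *ᵥ v = (g0 ⬝ᵥ (R x *ᵥ u)) • v +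
      ((v ⬝ᵥ (R x *ᵥ v)) / ε) • U x0 + α • u := by
    intro x
    obtain ⟨y, hy, hyx⟩ := F2_sym hR x
    rw [← hyx]
    refine Φ.sym_ind (P := fun y => ∃ α : K, R y *ᵥ v = (g0 ⬝ᵥ (R y *ᵥ u)) • v +
      ((v ⬝ᵥ (R y *ᵥ v)) / ε) • U x0 + α • u) ?_ ?_ ?_ y hy
    · intro x hx _
      obtain ⟨m, hm⟩ := hmuF x hx
      obtain ⟨m0, hm0⟩ := hmuF x0 hx0M
      have hc : algebraMap F K (m / m0) = (v ⬝ᵥ (R x *ᵥ v)) / ε := by
        rw [map_div₀, ← hm, ← hm0, mu0]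
      have e0 : (m / m0) • x0 = ((v ⬝ᵥ (R x *ᵥ v)) / ε) • x0 := by
        rw [← hc, algebraMap_smul]
      have hyM : x - (m / m0) • x0 ∈ Φ.M := Φ.M.sub_mem hx (Φ.M.smul_mem _ hx0M)
      obtain ⟨α, h⟩ := claim1 _ hyM (by
        rw [e0, map_sub, map_smul, sub_mulVec, smul_mulVec, dotProduct_sub, dotProduct_smul, mu0,
          smul_eq_mul, div_mul_cancel₀ _ hε0, sub_self])
      refine ⟨α, ?_⟩
      rw [e0, hU] at h
      rw [hU]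
      simp only [map_sub, map_smul, sub_mulVec, smul_mulVec, dotProduct_sub, dotProduct_smul,
        smul_eq_mul] at h ⊢
      rw [← h]
      module
    · rintro x y ⟨α, h⟩ ⟨α', h'⟩
      refine ⟨α + α', ?_⟩
      simp only [map_add, add_mulVec, dotProduct_add]
      nth_rw 1 [h, h']
      rw [add_div]
      module
    · rintro c x ⟨α, h⟩
      refine ⟨c * α, ?_⟩
      simp only [map_smul, smul_mulVec, dotProduct_smul, smul_eq_mul]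
      nth_rw 1 [h]
      rw [mul_div_assoc]
      module
  refine ⟨g0, U x0, ε, -(ε⁻¹ • R (vecMulVec (U x0) v)), ?_⟩
  refine ⟨hu, hv, hl, he, uu, uv, vv, hε0, gV, gu, hUV x0 hx0M, uU x0, by rw [vU, mu0], Ru, hmu,
    dd, claim2, ?_, ?_⟩
  · intro z
    obtain ⟨x, hx⟩ : ∃ x, x = vecMulVec z g0 + vecMulVec g0 z - (z ⬝ᵥ u) • vecMulVec g0 g0 :=
      ⟨_, rfl⟩
    have hxt : xᵀ = x := by
      rw [hx, transpose_sub, transpose_add, transpose_smul, transpose_vecMulVec,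
        transpose_vecMulVec, transpose_vecMulVec]
      abel
    have hxu : x *ᵥ u = z := by
      rw [hx, sub_mulVec, add_mulVec, smul_mulVec, vmv_mulVec, vmv_mulVec, vmv_mulVec, gu,
        one_smul, one_smul, add_sub_cancel_right]
    obtain ⟨α, hα⟩ := claim2 x
    have h2 := hR.T1 0 (x := x) (z := vecMulVec u u) (ζ := ε⁻¹ • vecMulVec v v) hxt ruu
      (by rw [transpose_smul, transpose_vecMulVec])
      (by rw [map_smul, hε, smul_smul, inv_mul_cancel₀ hε0, one_smul])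
    rw [pow_zero, Matrix.one_mul, Matrix.mul_one, Matrix.one_mul] at h2
    have e1 : R x * vecMulVec u u = (g0 ⬝ᵥ (R x *ᵥ u)) • vecMulVec u u := by
      rw [mul_vecMulVec]
      nth_rw 1 [Ru x]
      rw [smul_vecMulVec]
    have e2 : vecMulVec u u * R x = (g0 ⬝ᵥ (R x *ᵥ u)) • vecMulVec u u := by
      rw [vmv_mul (hR.tr x)]
      nth_rw 1 [Ru x]
      rw [vecMulVec_smul]
    have e3 : x * vecMulVec u u = vecMulVec z u := by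
      rw [mul_vecMulVec, hxu]
    have e4 : R (R x * ε⁻¹ • vecMulVec v v) = (g0 ⬝ᵥ (R x *ᵥ u)) • vecMulVec u u +
        (ε⁻¹ * (u ⬝ᵥ z)) • R (vecMulVec (U x0) v) := by
      rw [mul_smul_comm, mul_vecMulVec, hα, map_smul, add_vecMulVec, add_vecMulVec, map_add,
        map_add, smul_vecMulVec, smul_vecMulVec, smul_vecMulVec, map_smul, map_smul, map_smul, ruv,
        hε, hmu, hxu, smul_zero, add_zero, smul_add, smul_smul, smul_smul, smul_smul]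
      congr 2
      · field_simp
      · field_simp
    rw [e1, e2, e3, e4] at h2
    have h3 : (2 : K) • R (vecMulVec z u) =
        (2 : K) • ((z ⬝ᵥ u) • -(ε⁻¹ • R (vecMulVec (U x0) v))) := by
      rw [dotProduct_comm z u]
      have h4 := sub_eq_zero.2 h2
      rw [← sub_eq_zero, ← neg_eq_zero, ← h4]
      module
    exact smul_right_injective _ (two_ne_zero (α := K)) h3
  · refine ⟨x0, ?_⟩
    rw [hU]
    change _ = _ + (R x0 *ᵥ v - (g0 ⬝ᵥ (R x0 *ᵥ u)) • v)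
    rw [add_sub_cancel]

end Pool.Agent.MP_f4742e_al
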