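import Pool.Agent.Lib.MP_f4742e_al.X.F2b

/-!
The nilpotent part of a rational matrix is a rational polynomial in the matrix.
-/

set_option autoImplicit false

namespace Pool.Agent.MP_f4742e_al

open Matrix Polynomial

variable {F K : Type*} [Field F] [Field K] [Algebra F K] {n w : ℕ}
  {R : Matrix (Fin n) (Fin n) K →ₗ[K] Matrix (Fin n) (Fin n) K}

theorem F2_fin (Φ : Frame F R w) : Module.Finite F Φ.V := by
  have h1 : Module.rank F Φ.V ≤ (n : Cardinal) := by
    apply rank_le
    intro s hs
    have h2 : LinearIndependent F (fun i : Fin s.card =>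
        (((s.equivFin.symm i : s) : Φ.V) : Fin n → K)) := by
      have h3 := (hs.comp (fun i : Fin s.card => s.equivFin.symm i)
        s.equivFin.symm.injective).map' Φ.V.subtype (Submodule.ker_subtype _)
      exact h3
    have h4 := Φ.indep _ _ (fun i => ((s.equivFin.symm i : s) : Φ.V).2) h2
    have h5 := h4.fintype_card_le_finrank
    simpa using h5
  exact Module.rank_lt_aleph0_iff.1 (h1.trans_lt (Cardinal.nat_lt_aleph0 n))

theorem F2_fit (Φ : Frame F R w) {Y : Matrix (Fin n) (Fin n) K} (hY : Y ∈ Φ.M) :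
    ∃ (q : F[X]) (k : ℕ), ∀ z ∈ Φ.V, ((aeval Y (X - X ^ 2 * q)) ^ k) *ᵥ z = 0 := by
  have hfin := F2_fin Φ
  obtain ⟨T, hT⟩ : ∃ T : Module.End F Φ.V, ∀ z : Φ.V, ((T z : Φ.V) : Fin n → K) = Y *ᵥ z := by
    refine ⟨{ toFun := fun z => ⟨Y *ᵥ z, Φ.act Y hY z z.2⟩, map_add' := ?_, map_smul' := ?_ },
      fun z => rfl⟩
    · intro x y
      apply Subtype.ext
      change Y *ᵥ ((x : Fin n → K) + y) = _
      rw [mulVec_add]
      rfl
    · intro c x
      apply Subtype.ext
      change Y *ᵥ (c • (x : Fin n → K)) = c • (Y *ᵥ (x : Fin n → K))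
      rw [← algebraMap_smul K c (x : Fin n → K), mulVec_smul, algebraMap_smul]
  have hTf : ∀ (f : F[X]) (z : Φ.V), ((aeval T f z : Φ.V) : Fin n → K) =
      (aeval Y f) *ᵥ (z : Fin n → K) := by
    intro f
    induction f using Polynomial.induction_on' with
    | add f g hf hg =>
      intro z
      rw [map_add, map_add, LinearMap.add_apply, Submodule.coe_add, hf, hg, add_mulVec]
    | monomial i a =>
      intro z
      have hi : ∀ (i : ℕ) (z : Φ.V), (((T ^ i) z : Φ.V) : Fin n → K) =
          (Y ^ i) *ᵥ (z : Fin n → K) := by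
        intro i
        induction i with
        | zero =>
          intro z
          rw [pow_zero, pow_zero, one_mulVec]
          rfl
        | succ i ih =>
          intro z
          rw [pow_succ, pow_succ, Module.End.mul_apply, ih, hT, mulVec_mulVec]
      rw [aeval_monomial, aeval_monomial, ← Algebra.smul_def, ← Algebra.smul_def,
        LinearMap.smul_apply, Submodule.coe_smul, hi, ← algebraMap_smul K a ((Y ^ i)),
        smul_mulVec, algebraMap_smul]
  have hp0 : minpoly F T ≠ 0 := minpoly.ne_zero (Algebra.IsIntegral.isIntegral T)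
  obtain ⟨g, hg, hnd⟩ := exists_eq_pow_rootMultiplicity_mul_and_not_dvd (minpoly F T) hp0 0
  rw [map_zero, sub_zero] at hg hnd
  obtain ⟨e, he⟩ : ∃ e, e = (minpoly F T).rootMultiplicity 0 := ⟨_, rfl⟩
  rw [← he] at hg
  have hcop : IsCoprime (X ^ (e + 1)) g := by
    apply IsCoprime.pow_left
    exact (prime_X.irreducible.coprime_iff_not_dvd).2 hnd
  obtain ⟨a, b, hab⟩ := hcop
  refine ⟨a * X ^ e, e + 1, fun z hz => ?_⟩
  have h1 : (X - X ^ 2 * (a * X ^ e)) ^ (e + 1) = (X ^ e * g) * (X * b ^ (e + 1) * g ^ e) := by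
    have h2 : X - X ^ 2 * (a * X ^ e) = X * b * g := by
      linear_combination (-X : F[X]) * hab
    rw [h2]
    ring
  have h3 := hTf ((X - X ^ 2 * (a * X ^ e)) ^ (e + 1)) ⟨z, hz⟩
  rw [map_pow (aeval Y)] at h3
  have h4 : aeval T ((X - X ^ 2 * (a * X ^ e)) ^ (e + 1)) = 0 := by
    have h5 := minpoly.aeval F T
    rw [h1, ← hg, map_mul, h5, zero_mul]
  rw [← h3, h4]
  rfl

/-- Rational polynomials in a rational matrix are rational. -/
theorem F2_aeval_mem (Φ : Frame F R w) {Y : Matrix (Fin n) (Fin n) K} (hY : Y ∈ Φ.M) (f : F[X]) :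
    aeval Y f ∈ Φ.M := by
  induction f using Polynomial.induction_on' with
  | add f g hf hg =>
    rw [map_add]
    exact Φ.M.add_mem hf hg
  | monomial i a =>
    rw [aeval_monomial, ← Algebra.smul_def]
    exact Φ.M.smul_mem _ (Φ.pow hY i)

theorem F2_aeval_tr {Y : Matrix (Fin n) (Fin n) K} (hY : Yᵀ = Y) (f : F[X]) :
    (aeval Y f)ᵀ = aeval Y f := by
  induction f using Polynomial.induction_on' with
  | add f g hf hg =>
    rw [map_add, transpose_add, hf, hg]
  | monomial i a =>
    rw [aeval_monomial, ← Algebra.smul_def, transpose_smul, transpose_pow, hY]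

end Pool.Agent.MP_f4742e_al
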