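import Pool.Agent.Lib.MP_f4742e_al.X.F2b
import Pool.Agent.Lib.MP_f4742e_al.X.F2c

/-!
The case `(R 1)^2 = 0`, rank two: the nilpotent case, second part.
-/

set_option autoImplicit false

namespace Pool.Agent.MP_f4742e_al

open Matrix Polynomial

variable {F K : Type*} [Field F] [Field K] [CharZero K] [Algebra F K] {n : ℕ}
  {R : Matrix (Fin n) (Fin n) K →ₗ[K] Matrix (Fin n) (Fin n) K}

/-- A rational nilpotent element with `N u = 0`, `N v = α u`, `N U0 = c u` is killed by `R`. -/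
theorem F2_N {Φ : Frame F R 2} {u v g0 U0 : Fin n → K} {ε : K} {ρ : Matrix (Fin n) (Fin n) K}
    (D : F2D F Φ u v g0 U0 ε ρ) (hR : SRB R) {N : Matrix (Fin n) (Fin n) K} (hN : N ∈ Φ.M)
    (hNt : Nᵀ = N) {α c : K} (hNu : N *ᵥ u = 0) (hNv : N *ᵥ v = α • u) (hNU : N *ᵥ U0 = c • u)
    {k : ℕ} (hk : ∀ z ∈ Φ.V, (N ^ k) *ᵥ z = 0) : R N = 0 := by
  have vu : v ⬝ᵥ u = 0 := by rw [dotProduct_comm, D.uv]
  have hpu : ∀ i, (N ^ (i + 1)) *ᵥ u = 0 := by
    intro i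
    rw [pow_succ, ← mulVec_mulVec, hNu, mulVec_zero]
  have hpv : ∀ i, ∃ b : K, (N ^ (i + 1)) *ᵥ v = b • u := by
    intro i
    rw [pow_succ, ← mulVec_mulVec, hNv, mulVec_smul]
    cases i with
    | zero => exact ⟨α, by rw [pow_zero, one_mulVec]⟩
    | succ i => exact ⟨0, by rw [hpu, smul_zero, zero_smul]⟩
  have hps : ∀ i (a b : K), ∃ a' b' : K, (N ^ i) *ᵥ (a • u + b • v) = a' • u + b' • v := by
    intro i a b
    cases i with
    | zero => exact ⟨a, b, by rw [pow_zero, one_mulVec]⟩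
    | succ i =>
      obtain ⟨b', hb'⟩ := hpv i
      refine ⟨b * b', 0, ?_⟩
      rw [mulVec_add, mulVec_smul, mulVec_smul, hpu, hb']
      module
  -- descent
  have hstep : ∀ i, (∀ z ∈ Φ.V, u ⬝ᵥ z = 0 → v ⬝ᵥ z = 0 →
      ∃ a b : K, (N ^ (i + 2)) *ᵥ z = a • u + b • v) → (∀ z ∈ Φ.V, u ⬝ᵥ z = 0 → v ⬝ᵥ z = 0 →
      ∃ a b : K, (N ^ (i + 1)) *ᵥ z = a • u + b • v) := by
    intro i h z hz h1 h2
    have hNit : (N ^ (i + 1))ᵀ = N ^ (i + 1) := by rw [transpose_pow, hNt]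
    refine F2_wi Φ D.hu D.hv (Φ.act _ (Φ.pow hN _) _ hz) D.hl D.uu D.uv D.vv ?_ ?_ ?_
    · rw [← dot_symm hNit, hpu, zero_dotProduct]
    · obtain ⟨b, hb⟩ := hpv i
      rw [← dot_symm hNit, hb, smul_dotProduct, h1, smul_zero]
    · rw [dot_symm hNit, mulVec_mulVec, ← pow_add]
      have e1 : i + 1 + (i + 1) = i + (i + 2) := by ring
      obtain ⟨a, b, hab⟩ := h z hz h1 h2
      obtain ⟨a', b', hab'⟩ := hps i a b
      rw [e1, pow_add, ← mulVec_mulVec, hab, hab', dotProduct_add, dotProduct_smul,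
        dotProduct_smul, dotProduct_comm z u, dotProduct_comm z v, h1, h2, smul_zero, smul_zero,
        add_zero]
  have hall : ∀ i, (∀ z ∈ Φ.V, u ⬝ᵥ z = 0 → v ⬝ᵥ z = 0 →
      ∃ a b : K, (N ^ (i + 1)) *ᵥ z = a • u + b • v) → (∀ z ∈ Φ.V, u ⬝ᵥ z = 0 → v ⬝ᵥ z = 0 →
      ∃ a b : K, (N ^ 1) *ᵥ z = a • u + b • v) := by
    intro i
    induction i with
    | zero => exact fun h => h
    | succ i ih => exact fun h => ih (hstep i h)
  have hL : ∀ z ∈ Φ.V, u ⬝ᵥ z = 0 → v ⬝ᵥ z = 0 → ∃ a : K, N *ᵥ z = a • u := by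
    intro z hz h1 h2
    obtain ⟨a, b, hab⟩ := hall k (fun z hz _ _ => ⟨0, 0, by
      rw [pow_succ', ← mulVec_mulVec, hk z hz, mulVec_zero, zero_smul, zero_smul, add_zero]⟩)
      z hz h1 h2
    rw [pow_one] at hab
    refine ⟨a, ?_⟩
    have h3 : U0 ⬝ᵥ (N *ᵥ z) = 0 := by
      rw [← dot_symm hNt, hNU, smul_dotProduct, h1, smul_zero]
    rw [hab, dotProduct_add, dotProduct_smul, dotProduct_smul, dotProduct_comm U0 u,
      dotProduct_comm U0 v, D.uU, D.vU, smul_zero, zero_add, smul_eq_mul] at h3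
    rw [hab, (mul_eq_zero.1 h3).resolve_right D.hε, zero_smul, add_zero]
  have sm : ∀ (c : F) (w : Fin n → K), (algebraMap F K c) • w = c • w := fun c w =>
    algebraMap_smul K c w
  have hU : ∀ z ∈ Φ.V, u ⬝ᵥ z = 0 → ∃ a : K, N *ᵥ z = a • u := by
    intro z hz h1
    obtain ⟨m, hm⟩ := Φ.dot v D.hv z hz
    obtain ⟨m0, hm0⟩ := Φ.dot v D.hv U0 D.UV
    have hc : algebraMap F K (m / m0) = (v ⬝ᵥ z) / ε := by
      rw [map_div₀, ← hm, ← hm0, D.vU]
    have hy : z - ((v ⬝ᵥ z) / ε) • U0 ∈ Φ.V := by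
      rw [← hc, sm]
      exact Φ.V.sub_mem hz (Φ.V.smul_mem _ D.UV)
    obtain ⟨a, ha⟩ := hL _ hy (by
      rw [dotProduct_sub, dotProduct_smul, h1, D.uU, smul_zero, sub_zero]) (by
      rw [dotProduct_sub, dotProduct_smul, D.vU, smul_eq_mul, div_mul_cancel₀ _ D.hε, sub_self])
    refine ⟨a + ((v ⬝ᵥ z) / ε) * c, ?_⟩
    rw [mulVec_sub, mulVec_smul, hNU] at ha
    rw [add_smul, ← ha, mul_smul, sub_add_cancel]
  have hV : ∀ z, ∃ a : K, N *ᵥ z - (u ⬝ᵥ z) • (N *ᵥ g0) = a • u := by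
    refine Φ.vec_ind (P := fun z => ∃ a : K, N *ᵥ z - (u ⬝ᵥ z) • (N *ᵥ g0) = a • u) ?_ ?_ ?_
    · intro z hz
      obtain ⟨m, hm⟩ := Φ.dot u D.hu z hz
      have hy : z - (u ⬝ᵥ z) • g0 ∈ Φ.V := by
        rw [hm, sm]
        exact Φ.V.sub_mem hz (Φ.V.smul_mem _ D.gV)
      obtain ⟨a, ha⟩ := hU _ hy (by
        rw [dotProduct_sub, dotProduct_smul, dotProduct_comm u g0, D.gu, smul_eq_mul, mul_one,
          sub_self])
      rw [mulVec_sub, mulVec_smul] at ha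
      exact ⟨a, ha⟩
    · rintro x y ⟨a, h⟩ ⟨a', h'⟩
      refine ⟨a + a', ?_⟩
      rw [mulVec_add, dotProduct_add, add_smul a, ← h, ← h']
      module
    · rintro b x ⟨a, h⟩
      refine ⟨b * a, ?_⟩
      rw [mulVec_smul, dotProduct_smul, mul_smul b a, ← h, smul_eq_mul]
      module
  obtain ⟨κ, hκ⟩ : ∃ κ, κ = N *ᵥ g0 - (g0 ⬝ᵥ (N *ᵥ g0)) • u := ⟨_, rfl⟩
  have hform : N = vecMulVec u κ + vecMulVec (N *ᵥ g0) u := by
    apply Matrix.ext_of_mulVec_single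
    intro i
    obtain ⟨a, ha⟩ := hV (Pi.single i 1)
    have h3 := congrArg (fun t => g0 ⬝ᵥ t) ha
    simp only [dotProduct_sub, dotProduct_smul, D.gu, smul_eq_mul, mul_one] at h3
    have h4 : g0 ⬝ᵥ (N *ᵥ Pi.single i 1) = (N *ᵥ g0) ⬝ᵥ Pi.single i 1 :=
      (dot_symm hNt _ _).symm
    rw [h4] at h3
    rw [add_mulVec, vmv_mulVec, vmv_mulVec, hκ, sub_dotProduct, smul_dotProduct, smul_eq_mul,
      ← sub_eq_iff_eq_add, ha, ← h3]
    congr 1
    ring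
  have h5 : (N *ᵥ g0) ⬝ᵥ u = 0 := by
    rw [dot_symm hNt, hNu, dotProduct_zero]
  have h6 : κ ⬝ᵥ u = 0 := by
    rw [hκ, sub_dotProduct, smul_dotProduct, h5, D.uu, smul_zero, sub_zero]
  have h7 : R (vecMulVec u κ) = R (vecMulVec κ u) := by
    rw [← hR.ti, transpose_vecMulVec]
  rw [hform, map_add, h7, D.Rz, D.Rz, h5, h6, zero_smul, add_zero]

/-- The nilpotent case. -/
theorem F2_T2 {Φ : Frame F R 2} {u v g0 U0 : Fin n → K} {ε : K} {ρ : Matrix (Fin n) (Fin n) K}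
    (D : F2D F Φ u v g0 U0 ε ρ) (hR : SRB R) (ha : R 1 * R 1 = 0)
    {x : Matrix (Fin n) (Fin n) K} (hx : x ∈ Φ.M) : R (R (R x)) = 0 := by
  have vu : v ⬝ᵥ u = 0 := by rw [dotProduct_comm, D.uv]
  have hu0 : u ≠ 0 := by
    intro h
    have h1 := D.gu
    rw [h, dotProduct_zero] at h1
    exact zero_ne_one h1
  have hτ : vecMulVec u u ≠ 0 := vecMulVec_ne_zero hu0 hu0
  have ruu : R (vecMulVec u u) = 0 := by rw [D.Rz, D.uu, zero_smul]
  have he0 : R 1 ≠ 0 := by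
    intro h
    have h1 := D.mu 1
    have h2 := D.Rz u
    obtain ⟨g, hg⟩ := exists_dual D.hl
    have g00 : g 0 ⬝ᵥ u = 1 := hg 0 0
    have g01 : g 0 ⬝ᵥ v = 0 := hg 0 1
    have h3 : R 1 *ᵥ g 0 = v := by
      rw [D.he, add_mulVec, vmv_mulVec, vmv_mulVec, dotProduct_comm v, dotProduct_comm u, g00,
        g01, zero_smul, one_smul, zero_add]
    have g11 : g 1 ⬝ᵥ v = 1 := hg 1 1
    rw [h, zero_mulVec] at h3
    rw [← h3, dotProduct_zero] at g11
    exact zero_ne_one g11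
  have hjp : ∀ (M : Matrix (Fin n) (Fin n) K) (a b : K), Mᵀ = M → M *ᵥ u = a • u →
      M *ᵥ v = a • v + b • u → jp (R 1) M = (2 * a) • R 1 + (2 * b) • vecMulVec u u := by
    intro M a b hM h1 h2
    unfold jp
    rw [D.he, add_mul, mul_add, vmv_mul hM, vmv_mul hM, mul_vecMulVec, mul_vecMulVec, h1, h2]
    simp only [vecMulVec_smul, smul_vecMulVec, vecMulVec_add, add_vecMulVec]
    module
  obtain ⟨Y, hY⟩ : ∃ Y, Y = R (R x) := ⟨_, rfl⟩
  have hYt : Yᵀ = Y := by rw [hY, hR.tr]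
  have hYM : Y ∈ Φ.M := by
    rw [hY]
    exact Φ.map _ (Φ.map _ hx)
  have hYp : Y = (R ^ 2) x := by rw [hY, pow_two, Module.End.mul_apply]
  obtain ⟨lam, hlam⟩ : ∃ lam : K, Y *ᵥ u = lam • u := by
    rw [hY]
    exact ⟨_, D.Ru _⟩
  obtain ⟨α, hα⟩ : ∃ α : K, Y *ᵥ v = lam • v + α • u := by
    obtain ⟨α, hα⟩ := D.Rv (R x)
    refine ⟨α, ?_⟩
    have h1 : u ⬝ᵥ (R x *ᵥ u) = 0 := by
      rw [D.Ru x, dotProduct_smul, D.uu, smul_zero]
    have h2 : g0 ⬝ᵥ (R (R x) *ᵥ u) = lam := by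
      rw [← hY, hlam, dotProduct_smul, D.gu, smul_eq_mul, mul_one]
    rw [D.mu, h1, mul_zero, zero_div, zero_smul, add_zero, h2, ← hY] at hα
    exact hα
  have hm : (R 1) ^ 2 = 0 := by rw [pow_two, ha]
  have hlam0 : lam = 0 := by
    by_contra hne
    obtain ⟨z, hz⟩ := sq_mem hR.rb 2 x
    rw [← hYp] at hz
    obtain ⟨M, hMd⟩ : ∃ M, M = (2 * lam⁻¹) • Y - (lam⁻¹ * lam⁻¹) • (Y * Y) := ⟨_, rfl⟩
    have hMt : Mᵀ = M := by
      rw [hMd, transpose_sub, transpose_smul, transpose_smul, transpose_mul, hYt]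
    have hMu : M *ᵥ u = (1 : K) • u := by
      rw [hMd, sub_mulVec, smul_mulVec, smul_mulVec, ← mulVec_mulVec, hlam, mulVec_smul, hlam,
        smul_smul, smul_smul, smul_smul, ← sub_smul]
      congr 1
      field_simp
      ring
    have hMv : M *ᵥ v = (1 : K) • v + (0 : K) • u := by
      rw [hMd, sub_mulVec, smul_mulVec, smul_mulVec, ← mulVec_mulVec, hα, mulVec_add,
        mulVec_smul, mulVec_smul, hlam, hα]
      have e1 : (2 * lam⁻¹) • (lam • v + α • u) - (lam⁻¹ * lam⁻¹) •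
          (lam • (lam • v + α • u) + α • lam • u) =
          (2 * (lam⁻¹ * lam) - (lam⁻¹ * lam) * (lam⁻¹ * lam)) • v +
          (2 * lam⁻¹ * α - 2 * lam⁻¹ * (lam⁻¹ * lam) * α) • u := by
        module
      rw [e1, inv_mul_cancel₀ hne]
      module
    have h1 := hjp M 1 0 hMt hMu hMv
    have h2 : M = (R ^ 2) ((2 * lam⁻¹) • x - (lam⁻¹ * lam⁻¹) • z) := by
      rw [map_sub, map_smul, map_smul, ← hYp, ← hz, hMd]
    have h3 : jp ((R 1) ^ (2 - 1)) ((R ^ 2) ((2 * lam⁻¹) • x - (lam⁻¹ * lam⁻¹) • z)) =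
        (2 : K) • (R 1) ^ (2 - 1) := by
      rw [← h2, pow_one, h1]
      module
    have h4 := jp_e_ne hR.rb (by norm_num : 1 ≤ 2) hm (by rw [pow_one]; exact he0) _ h3
    exact two_ne_zero h4
  subst hlam0
  rw [zero_smul] at hlam
  rw [zero_smul, zero_add] at hα
  have hRY : R Y = α • vecMulVec u u := by
    have h1 := H67.R_two hR.rb ha x
    rw [← hY, hjp Y 0 α hYt (by rw [hlam, zero_smul]) (by rw [hα, zero_smul, zero_add])] at h1
    have h2 : (2 : K) • R Y = (2 : K) • (α • vecMulVec u u) := by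
      rw [h1]
      module
    exact smul_right_injective _ (two_ne_zero (α := K)) h2
  have hpu : ∀ i, (Y ^ (i + 1)) *ᵥ u = 0 := by
    intro i
    rw [pow_succ, ← mulVec_mulVec, hlam, mulVec_zero]
  have hpow : ∀ i, R (Y ^ (i + 2)) = 0 := by
    intro i
    obtain ⟨z, hz⟩ := pow_mem_range hR.rb 2 hYp i
    have hz' : Y ^ (i + 1) = R (R z) := by rw [hz, pow_two, Module.End.mul_apply]
    have h2 := hR.T1 0 (x := R z) (z := α • vecMulVec u u) (ζ := Y) (hR.tr z)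
      (by rw [map_smul, ruu, smul_zero]) hYt hRY
    rw [pow_zero, Matrix.one_mul, Matrix.mul_one, Matrix.one_mul, ← hz', mul_smul_comm,
      smul_mul_assoc, mul_vecMulVec, vmv_mul (by rw [transpose_pow, hYt]), hpu, mul_smul_comm,
      mul_vecMulVec, map_smul, D.Rz] at h2
    have h3 : (R z *ᵥ u) ⬝ᵥ u = 0 := by
      rw [D.Ru z, smul_dotProduct, D.uu, smul_zero]
    rw [h3, zero_smul, smul_zero, zero_add, vecMulVec_zero, zero_vecMulVec, smul_zero, add_zero]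
      at h2
    have h4 := (smul_eq_zero.1 h2.symm).resolve_left two_ne_zero
    rw [pow_succ]
    exact h4
  have hpoly : ∀ f : F[X], R (aeval Y (X ^ 2 * f)) = 0 := by
    intro f
    induction f using Polynomial.induction_on' with
    | add f g hf hg =>
      rw [mul_add, map_add, map_add, hf, hg, add_zero]
    | monomial i a =>
      have h1 : (X : F[X]) ^ 2 * monomial i a = monomial (i + 2) a := by
        rw [← C_mul_X_pow_eq_monomial, ← C_mul_X_pow_eq_monomial]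
        ring
      rw [h1, aeval_monomial, ← Algebra.smul_def, ← algebraMap_smul K a (Y ^ (i + 2)), map_smul,
        hpow, smul_zero]
  by_contra hne
  rw [← hY] at hne
  obtain ⟨q, k, hq⟩ := F2_fit Φ hYM
  obtain ⟨N, hN⟩ : ∃ N, N = aeval Y (X - X ^ 2 * q) := ⟨_, rfl⟩
  rw [← hN] at hq
  have hNM : N ∈ Φ.M := by
    rw [hN]
    exact F2_aeval_mem Φ hYM _
  have hNt : Nᵀ = N := by
    rw [hN]
    exact F2_aeval_tr hYt _
  have hNY : N = Y - aeval Y (X * q) * Y := by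
    rw [hN, map_sub, aeval_X]
    congr 1
    have h1 : X ^ 2 * q = (X * q) * X := by ring
    rw [h1, map_mul, aeval_X]
  have hNu : N *ᵥ u = 0 := by
    rw [hNY, sub_mulVec, ← mulVec_mulVec, hlam, mulVec_zero, sub_zero]
  have hNv : N *ᵥ v = α • u := by
    have h1 : aeval Y (X * q) = aeval Y q * Y := by
      rw [mul_comm, map_mul, aeval_X]
    rw [hNY, sub_mulVec, ← mulVec_mulVec, hα, mulVec_smul, h1, ← mulVec_mulVec, hlam, mulVec_zero,
      smul_zero, sub_zero]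
  have hRN : R N = R Y := by
    rw [hN, map_sub, aeval_X, map_sub, hpoly, sub_zero]
  obtain ⟨z, hz⟩ : ∃ z, N = R (R z) := by
    obtain ⟨z, hz⟩ := aeval_mem_range hR.rb 2 hYp ((1 - X * q).map (algebraMap F K))
    refine ⟨z, ?_⟩
    have h1 : N = aeval Y (((X - X ^ 2 * q) : F[X]).map (algebraMap F K)) := by
      rw [hN, aeval_map_algebraMap]
    have h2 : ((X - X ^ 2 * q) : F[X]).map (algebraMap F K) =
        X * ((1 - X * q).map (algebraMap F K)) := by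
      simp only [Polynomial.map_sub, Polynomial.map_mul, Polynomial.map_pow, Polynomial.map_X,
        Polynomial.map_one]
      ring
    rw [h1, h2, hz, pow_two, Module.End.mul_apply]
  obtain ⟨x0, hx0⟩ := D.R0
  have hNU : ∃ c : K, N *ᵥ U0 = c • u := by
    have hrb := hR.rb (R z) x0
    rw [← hz] at hrb
    obtain ⟨J, hJ⟩ : ∃ J, J = jp N x0 + jp (R z) (R x0) := ⟨_, rfl⟩
    rw [← hJ] at hrb
    unfold jp at hrb
    have hJu : R J *ᵥ u = 0 := by
      rw [← hrb, add_mulVec, ← mulVec_mulVec, ← mulVec_mulVec, D.Ru x0, mulVec_smul, hNu,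
        mulVec_zero, smul_zero, add_zero]
    have hJv : R J *ᵥ v = N *ᵥ (R x0 *ᵥ v) + R x0 *ᵥ (α • u) := by
      rw [← hrb, add_mulVec, ← mulVec_mulVec, ← mulVec_mulVec, hNv]
    have hmuJ : v ⬝ᵥ (R J *ᵥ v) = 0 := by
      rw [hJv, dotProduct_add, ← dot_symm hNt, hNv, smul_dotProduct, ← dot_symm (hR.tr x0) u v,
        mulVec_smul, dotProduct_smul, D.Ru x0, smul_dotProduct, dotProduct_smul, vu, D.uv]
      simp
    obtain ⟨β, hβ⟩ := D.Rv J
    obtain ⟨l0, hl0⟩ : ∃ l0 : K, R x0 *ᵥ u = l0 • u := ⟨_, D.Ru x0⟩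
    have hl0' : g0 ⬝ᵥ (R x0 *ᵥ u) = l0 := by
      rw [hl0, dotProduct_smul, D.gu, smul_eq_mul, mul_one]
    rw [hmuJ, hJu, dotProduct_zero, zero_div, zero_smul, zero_smul, add_zero, zero_add, hJv, hx0,
      hl0', mulVec_add, mulVec_smul, hNv, mulVec_smul, hl0] at hβ
    refine ⟨β - 2 * l0 * α, ?_⟩
    rw [sub_smul, ← hβ]
    module
  obtain ⟨c, hc⟩ := hNU
  exact hne (by rw [← hRN, F2_N D hR hNM hNt hNu hNv hc hq])

end Pool.Agent.MP_f4742e_al
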