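import Pool.Agent.Lib.MP_f4742e_al.X.Build
import Pool.Agent.Lib.MP_f4742e_al.X.Cases
import Pool.Agent.Lib.MP_f4742e_al.G.NonMin

/-!
The upper bound `R^(2w-1) = 0` for the symmetric elements of a quadratic form.
-/

set_option autoImplicit false

namespace Pool.Agent.MP_f4742e_al

open Matrix

section

variable {F : Type*} [Field F] [CharZero F] {n : ℕ}

/-- The case `m = 2`, rank two, `e R(x) e = 0`, over `F`. -/
def G2Prop (G : Matrix (Fin n) (Fin n) F)
    (R : Matrix (Fin n) (Fin n) F →ₗ[F] Matrix (Fin n) (Fin n) F) : Prop :=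
  R 1 * R 1 = 0 → Module.finrank F (LinearMap.range (R 1).mulVecLin) = 2 →
    (∀ v, R 1 *ᵥ v = 0 → v ⬝ᵥ (G *ᵥ v) = 0 → ∃ t, v = R 1 *ᵥ t) →
    (∀ x, R 1 * R x * R 1 = 0) → R ^ 3 = 0

omit [CharZero F] in
theorem rank_two {e : Matrix (Fin n) (Fin n) F} {c1 c2 : F} (hc1 : c1 ≠ 0) (hc2 : c2 ≠ 0)
    {φ1 φ2 γ1 γ2 : Fin n → F} (hφ : LinearIndependent F ![φ1, φ2])
    (hγ : LinearIndependent F ![γ1, γ2])
    (he : e = c1 • vecMulVec φ1 γ1 + c2 • vecMulVec φ2 γ2) :
    Module.finrank F (LinearMap.range e.mulVecLin) = 2 ∧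
      ∀ a b : F, ∃ t, a • φ1 + b • φ2 = e *ᵥ t := by
  obtain ⟨h, hh⟩ := exists_dual hγ
  have h00 : γ1 ⬝ᵥ h 0 = 1 := by
    have h1 := hh 0 0
    rw [dotProduct_comm]
    simpa using h1
  have h01 : γ2 ⬝ᵥ h 0 = 0 := by
    have h1 := hh 0 1
    rw [dotProduct_comm]
    simpa using h1
  have h10 : γ1 ⬝ᵥ h 1 = 0 := by
    have h1 := hh 1 0
    rw [dotProduct_comm]
    simpa using h1
  have h11 : γ2 ⬝ᵥ h 1 = 1 := by
    have h1 := hh 1 1
    rw [dotProduct_comm]
    simpa using h1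
  have hev : ∀ v, e *ᵥ v = (c1 * (γ1 ⬝ᵥ v)) • φ1 + (c2 * (γ2 ⬝ᵥ v)) • φ2 := by
    intro v
    rw [he, add_mulVec, smul_mulVec, smul_mulVec, vmv_mulVec, vmv_mulVec, smul_smul, smul_smul]
  have hrg : ∀ a b : F, ∃ t, a • φ1 + b • φ2 = e *ᵥ t := by
    intro a b
    refine ⟨(a * c1⁻¹) • h 0 + (b * c2⁻¹) • h 1, ?_⟩
    rw [hev, dotProduct_add, dotProduct_add, dotProduct_smul, dotProduct_smul, dotProduct_smul,
      dotProduct_smul, h00, h01, h10, h11]
    simp only [smul_eq_mul, mul_one, mul_zero, add_zero, zero_add]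
    rw [mul_comm a, mul_comm b, mul_inv_cancel_left₀ hc1, mul_inv_cancel_left₀ hc2]
  refine ⟨?_, hrg⟩
  have h1 : LinearMap.range e.mulVecLin = Submodule.span F (Set.range ![φ1, φ2]) := by
    apply le_antisymm
    · rintro _ ⟨v, rfl⟩
      rw [Matrix.mulVecLin_apply, hev]
      exact Submodule.add_mem _ (Submodule.smul_mem _ _ (Submodule.subset_span ⟨0, rfl⟩))
        (Submodule.smul_mem _ _ (Submodule.subset_span ⟨1, rfl⟩))
    · rw [Submodule.span_le]
      rintro _ ⟨i, rfl⟩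
      fin_cases i
      · obtain ⟨t, ht⟩ := hrg 1 0
        refine ⟨t, ?_⟩
        rw [Matrix.mulVecLin_apply, ← ht]
        simp
      · obtain ⟨t, ht⟩ := hrg 0 1
        refine ⟨t, ?_⟩
        rw [Matrix.mulVecLin_apply, ← ht]
        simp
  rw [h1, finrank_span_eq_card hφ, Fintype.card_fin]

omit [CharZero F] in
theorem imat_pow {K : Type*} [Field K] [Algebra F K] {P Q : Matrix (Fin n) (Fin n) K}
    (hPQ : P * Q = 1) (hQP : Q * P = 1) (x : Matrix (Fin n) (Fin n) F) (j : ℕ) :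
    (imat P Q x) ^ j = imat P Q (x ^ j) := by
  induction j with
  | zero => rw [pow_zero, pow_zero, imat_apply, map_one', Matrix.mul_one, hPQ]
  | succ j ih => rw [pow_succ, ih, imat_mul hQP, pow_succ]

omit [CharZero F] in
theorem imat_inj {K : Type*} [Field K] [Algebra F K] {P Q : Matrix (Fin n) (Fin n) K}
    (hPQ : P * Q = 1) (hQP : Q * P = 1) {x y : Matrix (Fin n) (Fin n) F}
    (h : imat P Q x = imat P Q y) : x = y := by
  apply map_inj' (K := K)
  have h1 := congrArg (fun t => Q * t * P) h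
  simp only [imat_apply, ← Matrix.mul_assoc, hQP, Matrix.one_mul] at h1
  rw [Matrix.mul_assoc _ Q P, hQP, Matrix.mul_one, Matrix.mul_assoc _ Q P, hQP,
    Matrix.mul_one] at h1
  exact h1

variable {G H : Matrix (Fin n) (Fin n) F} {σ : Involution F (Matrix (Fin n) (Fin n) F)} {w : ℕ}
  {R : Matrix (Fin n) (Fin n) F →ₗ[F] Matrix (Fin n) (Fin n) F}

/-- The index of `R 1`, and minimality. -/
theorem x_index_le (hn : n ≠ 0) (hw : σ.IsWittIndex w) (hw2 : 2 ≤ w) (hJ : JRB R)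
    (hs : ∀ x, σ.f (R x) = R x) : (R 1) ^ (w + 1) = 0 ∧
    ((R 1) ^ w ≠ 0 → ∀ z, (R 1) ^ w * z ≠ 0 → ∃ z', (R 1) ^ w * z * z' = (R 1) ^ w) := by
  have : Nonempty (Fin n) := ⟨⟨0, by omega⟩⟩
  have h0 : (R 1) ^ (w + 1) = 0 := by
    obtain ⟨m, hm, hm0, hm1⟩ := exists_index hJ.nilpotent_one one_ne_zero
    by_cases hm2 : m < 2
    · exact pow_eq_zero_of_le (by omega) hm0
    · obtain ⟨I, hI, hh⟩ := exists_iso σ hJ hs (by omega) hm0 hm1
      obtain ⟨J, hJ', hJl⟩ := exists_chain hh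
      have h1 : m - 1 ≤ w := hw.2 ⟨J, hJ', by rw [hJl]; exact hI⟩
      exact pow_eq_zero_of_le (by omega) hm0
  refine ⟨h0, fun h1 z hz => ?_⟩
  by_contra hcon
  push Not at hcon
  have h2 : rid ((R 1) ^ w * z) < rid ((R 1) ^ w) := by
    refine lt_of_le_of_ne ?_ ?_
    · intro y hy
      obtain ⟨w', rfl⟩ := mem_rid.1 hy
      rw [mul_assoc]
      exact mul_mem_rid _ _
    · intro h2
      have h3 := self_mem_rid ((R 1) ^ w)
      rw [← h2] at h3
      obtain ⟨w', h4⟩ := mem_rid.1 h3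
      exact hcon w' h4.symm
  obtain ⟨I, hI, hh⟩ := exists_iso_nonmin σ hJ hs (m := w + 1) (by omega) h0 h1 (bot_lt_rid hz) h2
  obtain ⟨J, hJ', hJl⟩ := exists_chain hh
  have h3 : w + 1 ≤ w := hw.2 ⟨J, hJ', by rw [hJl]; exact hI⟩
  omega

theorem upper_sym (hG : Gᵀ = G) (hGH : G * H = 1) (hσ : ∀ x, G * σ.f x = xᵀ * G)
    (hw : σ.IsWittIndex w) (hw2 : 2 ≤ w) (hJ : JRB R) (hs : ∀ x, σ.f (R x) = R x)
    (ht : ∀ x, R (σ.f x) = R x) (hG2 : G2Prop G R) : R ^ (2 * w - 1) = 0 := by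
  rcases Nat.eq_zero_or_pos n with hn | hn
  · subst hn
    apply LinearMap.ext
    intro x
    exact Subsingleton.elim _ _
  have hn' : n ≠ 0 := by omega
  have hHG : H * G = 1 := mul_eq_one_comm.1 hGH
  have : CharZero (AlgebraicClosure F) :=
    charZero_of_injective_algebraMap (algebraMap F (AlgebraicClosure F)).injective
  obtain ⟨K, hK1, hK2, hK3, hK4⟩ : ∃ (K : Type _) (_ : Field K) (_ : Algebra F K),
      CharZero K ∧ IsAlgClosed K :=
    ⟨AlgebraicClosure F, inferInstance, inferInstance, this, inferInstance⟩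
  obtain ⟨P, Q, hPP, hPQ, hQP⟩ := exists_P (K := K) (G := G.map (algebraMap F K))
    (H := H.map (algebraMap F K)) (by rw [← Matrix.transpose_map, hG])
    (by rw [← map_mul', hGH, map_one'])
  have htr : ∀ Y : Matrix (Fin n) (Fin n) K, G.map (algebraMap F K) * baseR K R Y =
      (baseR K R Y)ᵀ * G.map (algebraMap F K) := by
    refine span_map (F := F) ?_ ?_ ?_
    · intro x
      rw [baseR_map, ← Matrix.transpose_map, ← map_mul', ← map_mul', ← hσ, hs]
    · intro X Y hX hY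
      rw [map_add, Matrix.mul_add, transpose_add, Matrix.add_mul, hX, hY]
    · intro c X hX
      rw [map_smul, Matrix.mul_smul, transpose_smul, Matrix.smul_mul, hX]
  have hti0 : ∀ Y : Matrix (Fin n) (Fin n) K, baseR K R (H.map (algebraMap F K) * Yᵀ *
      G.map (algebraMap F K)) = baseR K R Y := by
    refine span_map (F := F) ?_ ?_ ?_
    · intro x
      have h1 : H * xᵀ * G = σ.f x := by
        rw [Matrix.mul_assoc, ← hσ, ← Matrix.mul_assoc, hHG, Matrix.one_mul]
      rw [← Matrix.transpose_map, ← map_mul', ← map_mul', h1, baseR_map, baseR_map, ht]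
    · intro X Y hX hY
      rw [transpose_add, Matrix.mul_add, Matrix.add_mul, map_add, map_add, hX, hY]
    · intro c X hX
      rw [transpose_smul, Matrix.mul_smul, Matrix.smul_mul, map_smul, map_smul, hX]
  have hti : ∀ Y Y' : Matrix (Fin n) (Fin n) K, G.map (algebraMap F K) * Y' =
      Yᵀ * G.map (algebraMap F K) → baseR K R Y' = baseR K R Y := by
    intro Y Y' h
    rw [← hti0 Y, Matrix.mul_assoc, ← h, ← Matrix.mul_assoc, ← map_mul', hHG, map_one',
      Matrix.one_mul]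
  have hS := conjR_SRB hPQ hQP (baseR_JRB (K := K) hJ) hPP htr hti
  obtain ⟨RK, hRK⟩ : ∃ RK, RK = conjR P Q (baseR K R) := ⟨_, rfl⟩
  rw [← hRK] at hS
  have hRR : ∀ x : Matrix (Fin n) (Fin n) F, RK (imat P Q x) = imat P Q (R x) := by
    intro x
    rw [hRK, imat_apply, conjR_conj hQP, baseR_map, imat_apply]
  obtain ⟨Φ, hV, hM⟩ : ∃ Φ : Frame F RK w,
      Φ.V = LinearMap.range (ivec P : (Fin n → F) →ₗ[F] (Fin n → K)) ∧
      Φ.M = LinearMap.range (imat P Q : Matrix (Fin n) (Fin n) F →ₗ[F]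
        Matrix (Fin n) (Fin n) K) :=
    ⟨mkFrame hPQ hQP hPP hRR (witt_le H hHG hσ hw), rfl, rfl⟩
  have h1m : (1 : Matrix (Fin n) (Fin n) K) = imat P Q (1 : Matrix (Fin n) (Fin n) F) := by
    rw [imat_apply, map_one', Matrix.mul_one, hPQ]
  have hR1 : RK 1 = imat P Q (R 1) := by rw [h1m, hRR]
  have hpow : ∀ j, (RK 1) ^ j = imat P Q ((R 1) ^ j) := fun j => by
    rw [hR1, imat_pow hPQ hQP]
  obtain ⟨i1, i2⟩ := x_index_le hn' hw hw2 hJ hs
  have hRpow : ∀ (N : ℕ) (x : Matrix (Fin n) (Fin n) F), (RK ^ N) (imat P Q x) =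
      imat P Q ((R ^ N) x) := by
    intro N x
    induction N with
    | zero => rfl
    | succ N ih => rw [pow_succ', Module.End.mul_apply, ih, hRR, pow_succ', Module.End.mul_apply]
  have hback : ∀ N : ℕ, RK ^ N = 0 → R ^ N = 0 := by
    intro N h
    apply LinearMap.ext
    intro x
    have h2 := hRpow N x
    rw [h, LinearMap.zero_apply] at h2
    rw [LinearMap.zero_apply]
    apply imat_inj hPQ hQP
    rw [← h2, map_zero]
  apply hback
  by_cases h3 : R ^ 3 = 0 ∧ w = 2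
  · obtain ⟨h3, rfl⟩ := h3
    have hx : ∀ X : Matrix (Fin n) (Fin n) K, (RK ^ 3) X = 0 := by
      intro X
      obtain ⟨Y, rfl⟩ := exists_conj (Q := Q) hPQ X
      refine span_map (F := F) (P := fun Y => (RK ^ 3) (P * Y * Q) = 0) ?_ ?_ ?_ Y
      · intro y
        have h4 := hRpow 3 y
        rw [h3, LinearMap.zero_apply, map_zero] at h4
        exact h4
      · intro X Y hX hY
        rw [Matrix.mul_add, Matrix.add_mul, map_add, hX, hY, add_zero]
      · intro c X hX
        rw [Matrix.mul_smul, Matrix.smul_mul, map_smul, hX, smul_zero]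
    apply LinearMap.ext
    intro X
    exact hx X
  refine frame_main hS Φ hw2 hn' ?_ ?_ ?_
  · rw [hpow, i1, map_zero]
  · intro h4 z hz hez
    rw [hM] at hz
    obtain ⟨ζ, rfl⟩ := hz
    rw [hpow] at h4 hez ⊢
    rw [imat_mul hQP] at hez ⊢
    obtain ⟨z', hz'⟩ := i2 (by
      intro h5
      rw [h5, map_zero] at h4
      exact h4 rfl) ζ (by
      intro h5
      rw [h5, map_zero] at hez
      exact hez rfl)
    exact ⟨imat P Q z', by rw [imat_mul hQP, hz']⟩
  · intro c1 c2 f1 f2 hw22 D hT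
    exfalso
    apply h3
    refine ⟨?_, hw22⟩
    subst hw22
    have hf1 := D.f1V
    have hf2 := D.f2V
    rw [hV] at hf1 hf2
    obtain ⟨φ1, rfl⟩ := hf1
    obtain ⟨φ2, rfl⟩ := hf2
    have hφ : LinearIndependent F ![φ1, φ2] := by
      have h4 := D.ind
      rw [LinearIndependent.pair_iff] at h4 ⊢
      intro s t hst
      have h5 := h4 (algebraMap F K s) (algebraMap F K t) (by
        have h6 := congrArg (fun u => (ivec P u : Fin n → K)) hst
        simp only [map_add, map_smul, map_zero] at h6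
        rw [algebraMap_smul, algebraMap_smul]
        exact h6)
      exact ⟨(map_eq_zero (algebraMap F K)).1 h5.1, (map_eq_zero (algebraMap F K)).1 h5.2⟩
    have hγ : LinearIndependent F ![G *ᵥ φ1, G *ᵥ φ2] := by
      rw [LinearIndependent.pair_iff] at hφ ⊢
      intro s t hst
      apply hφ
      have h6 := congrArg (fun u => H *ᵥ u) hst
      simp only [mulVec_add, mulVec_smul, mulVec_mulVec, hHG, one_mulVec, mulVec_zero] at h6
      exact h6
    have he : R 1 = c1 • vecMulVec φ1 (G *ᵥ φ1) + c2 • vecMulVec φ2 (G *ᵥ φ2) := by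
      apply imat_inj hPQ hQP
      rw [← hR1, D.e, map_add, map_smul, map_smul, vmv_ivec hPQ hPP, vmv_ivec hPQ hPP]
    obtain ⟨hrk, hrg⟩ := rank_two D.hc1 D.hc2 hφ hγ he
    have hee : R 1 * R 1 = 0 := by
      apply imat_inj hPQ hQP
      rw [← imat_mul hQP, ← hR1, D.ee, map_zero]
    have hev : ∀ v, R 1 *ᵥ v = (c1 * ((G *ᵥ φ1) ⬝ᵥ v)) • φ1 + (c2 * ((G *ᵥ φ2) ⬝ᵥ v)) • φ2 := by
      intro v
      rw [he, add_mulVec, smul_mulVec, smul_mulVec, vmv_mulVec, vmv_mulVec, smul_smul, smul_smul]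
    have hker : ∀ v, R 1 *ᵥ v = 0 → (G *ᵥ φ1) ⬝ᵥ v = 0 ∧ (G *ᵥ φ2) ⬝ᵥ v = 0 := by
      intro v hv
      rw [hev] at hv
      have h4 := LinearIndependent.pair_iff.1 hφ _ _ hv
      exact ⟨(mul_eq_zero.1 h4.1).resolve_left D.hc1, (mul_eq_zero.1 h4.2).resolve_left D.hc2⟩
    have hk1 : R 1 *ᵥ φ1 = 0 := by
      obtain ⟨t, ht⟩ := hrg 1 0
      rw [one_smul, zero_smul, add_zero] at ht
      rw [ht, mulVec_mulVec, hee, zero_mulVec]
    have hk2 : R 1 *ᵥ φ2 = 0 := by
      obtain ⟨t, ht⟩ := hrg 0 1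
      rw [one_smul, zero_smul, zero_add] at ht
      rw [ht, mulVec_mulVec, hee, zero_mulVec]
    refine hG2 hee hrk ?_ ?_
    · intro v hv hvv
      by_contra hcon
      have h4 : LinearIndependent F ![φ1, φ2, v] := by
        have h5 : LinearIndependent F (Fin.cons v ![φ1, φ2] : Fin 3 → (Fin n → F)) := by
          rw [linearIndependent_finCons]
          refine ⟨hφ, ?_⟩
          rw [Matrix.range_cons, Matrix.range_cons, Matrix.range_empty, Set.union_empty,
            Set.singleton_union, Submodule.mem_span_pair]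
          rintro ⟨a, b, hab⟩
          obtain ⟨t, ht⟩ := hrg a b
          exact hcon ⟨t, by rw [← ht, hab]⟩
        rw [Fintype.linearIndependent_iff] at h5 ⊢
        intro g hg
        have h6 := h5 ![g 2, g 0, g 1] (by
          rw [Fin.sum_univ_three] at hg ⊢
          change g 2 • v + g 0 • φ1 + g 1 • φ2 = 0
          change g 0 • φ1 + g 1 • φ2 + g 2 • v = 0 at hg
          rw [← hg]
          abel)
        intro i
        fin_cases i
        · exact h6 1
        · exact h6 2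
        · exact h6 0
      obtain ⟨a1, a2⟩ := hker v hv
      obtain ⟨b1, b2⟩ := hker φ1 hk1
      obtain ⟨d1, d2⟩ := hker φ2 hk2
      have hsw : ∀ x y : Fin n → F, x ⬝ᵥ (G *ᵥ y) = (G *ᵥ x) ⬝ᵥ y := fun x y =>
        (dot_symm hG x y).symm
      have hsw' : ∀ x y : Fin n → F, x ⬝ᵥ (G *ᵥ y) = (G *ᵥ y) ⬝ᵥ x := fun x y =>
        dotProduct_comm _ _
      have h5 := witt_le H hHG hσ hw 3 ![φ1, φ2, v] h4 (by
        intro i j
        fin_cases i <;> fin_cases j
        · exact (hsw _ _).trans b1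
        · exact (hsw _ _).trans d1
        · exact (hsw _ _).trans a1
        · exact (hsw _ _).trans b2
        · exact (hsw _ _).trans d2
        · exact (hsw _ _).trans a2
        · exact (hsw' _ _).trans a1
        · exact (hsw' _ _).trans a2
        · exact hvv)
      omega
    · intro x
      apply imat_inj hPQ hQP
      rw [← imat_mul hQP, ← imat_mul hQP, ← hR1, ← hRR, hT, map_zero]

/-- The RB-index of the symmetric elements of a quadratic form with Witt index at least two. -/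
theorem rb_sym (hG : Gᵀ = G) (hGH : G * H = 1) (hσ : ∀ x, G * σ.f x = xᵀ * G)
    (hw : σ.IsWittIndex w) (hw2 : 2 ≤ w)
    (hG2 : ∀ R : Matrix (Fin n) (Fin n) F →ₗ[F] Matrix (Fin n) (Fin n) F, JRB R →
      (∀ x, σ.f (R x) = R x) → (∀ x, R (σ.f x) = R x) → G2Prop G R) :
    HasRBIndex F σ.H (2 * w - 1) := by
  constructor
  · intro R hR
    exact σ.pow_eq_zero_of_ext (upper_sym hG hGH hσ hw hw2 (σ.ext_jrb hR) (σ.ext_sym R)
      (σ.ext_f R) (hG2 _ (σ.ext_jrb hR) (σ.ext_sym R) (σ.ext_f R)))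
  · intro N hN
    obtain ⟨m, rfl⟩ : ∃ m, w = m + 1 := ⟨w - 1, by omega⟩
    obtain ⟨I, hI, hIso⟩ := hw.1
    have hh : ((m + 1 : ℕ) : ℕ∞) ≤ Order.height (I (Fin.last (m + 1))) := by
      have h1 := Order.length_le_height_last (p := LTSeries.mk (m + 1) I hI)
      exact h1
    have hn : n ≠ 0 := by
      rintro rfl
      have h1 : I 0 < I 1 := hI (by
        rw [Fin.lt_def]
        have h2 : ((1 : Fin (m + 1 + 1)) : ℕ) = 1 := by
          rw [Fin.val_one']
          exact Nat.mod_eq_of_lt (by omega)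
        rw [h2]
        exact Nat.one_pos)
      exact absurd (Subsingleton.elim (I 0) (I 1)) (ne_of_lt h1)
    have : Nonempty (Fin n) := ⟨⟨0, by omega⟩⟩
    obtain ⟨R, hR, hne⟩ := lower_H hIso hh
    by_contra hcon
    exact hne (pow_eq_zero_of_le (by omega) (hN R hR))

end

end Pool.Agent.MP_f4742e_al
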