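import Pool.Agent.Lib.MP_f4742e_al.HData

/-!
Symmetric-valued Rota-Baxter operators with a rational structure.
-/

set_option autoImplicit false

namespace Pool.Agent.MP_f4742e_al

open Matrix

/-- `R` is defined over the subfield `F` of `K`: `V` are the rational vectors, `M` the rational
matrices. Rational isotropic families of vectors have at most `w` members. -/
structure Frame (F : Type*) {K : Type*} [Field F] [Field K] [Algebra F K] {n : ℕ}
    (R : Matrix (Fin n) (Fin n) K →ₗ[K] Matrix (Fin n) (Fin n) K) (w : ℕ) where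
  /-- the rational vectors -/
  V : Submodule F (Fin n → K)
  /-- the rational matrices -/
  M : Submodule F (Matrix (Fin n) (Fin n) K)
  one : (1 : Matrix (Fin n) (Fin n) K) ∈ M
  mul : ∀ x ∈ M, ∀ y ∈ M, x * y ∈ M
  act : ∀ x ∈ M, ∀ v ∈ V, x *ᵥ v ∈ V
  vmv : ∀ v ∈ V, ∀ u ∈ V, vecMulVec v u ∈ M
  dot : ∀ v ∈ V, ∀ u ∈ V, ∃ c : F, v ⬝ᵥ u = algebraMap F K c
  map : ∀ x ∈ M, R x ∈ M
  span : Submodule.span K (V : Set (Fin n → K)) = ⊤
  indep : ∀ (l : ℕ) (g : Fin l → (Fin n → K)), (∀ i, g i ∈ V) → LinearIndependent F g →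
    LinearIndependent K g
  wi : ∀ (l : ℕ) (g : Fin l → (Fin n → K)), (∀ i, g i ∈ V) → (∀ i j, g i ⬝ᵥ g j = 0) →
    LinearIndependent K g → l ≤ w

namespace Frame

variable {F K : Type*} [Field F] [Field K] [Algebra F K] {n : ℕ}
  {R : Matrix (Fin n) (Fin n) K →ₗ[K] Matrix (Fin n) (Fin n) K} {w : ℕ} (Φ : Frame F R w)

include Φ

theorem R_one : R 1 ∈ Φ.M := Φ.map 1 Φ.one

theorem pow {x : Matrix (Fin n) (Fin n) K} (hx : x ∈ Φ.M) (j : ℕ) : x ^ j ∈ Φ.M := by
  induction j with
  | zero => exact Φ.one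
  | succ j ih =>
    rw [pow_succ]
    exact Φ.mul _ ih _ hx

theorem a_pow (j : ℕ) : (R 1) ^ j ∈ Φ.M := Φ.pow Φ.R_one j

/-- Induction on the span of the rational vectors. -/
theorem vec_ind {P : (Fin n → K) → Prop} (h1 : ∀ v ∈ Φ.V, P v) (h2 : ∀ u v, P u → P v → P (u + v))
    (h3 : ∀ (c : K) u, P u → P (c • u)) (v : Fin n → K) : P v := by
  have h4 : v ∈ Submodule.span K (Φ.V : Set (Fin n → K)) := by
    rw [Φ.span]
    exact Submodule.mem_top
  induction h4 using Submodule.span_induction with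
  | mem x hx => exact h1 x hx
  | zero => exact h1 0 Φ.V.zero_mem
  | add x y _ _ hx hy => exact h2 x y hx hy
  | smul c x _ hx => exact h3 c x hx

/-- Induction on the span of the rational symmetric matrices. -/
theorem sym_ind [CharZero K] {P : Matrix (Fin n) (Fin n) K → Prop}
    (h1 : ∀ x ∈ Φ.M, xᵀ = x → P x) (h2 : ∀ x y, P x → P y → P (x + y))
    (h3 : ∀ (c : K) x, P x → P (c • x)) (x : Matrix (Fin n) (Fin n) K) (hx : xᵀ = x) : P x := by
  have h0 : P 0 := h1 0 Φ.M.zero_mem transpose_zero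
  have h4 : ∀ u v : Fin n → K, P (vecMulVec u v + vecMulVec v u) := by
    intro u
    refine Φ.vec_ind ?_ ?_ ?_
    · intro v hv
      refine Φ.vec_ind (P := fun u => P (vecMulVec u v + vecMulVec v u)) ?_ ?_ ?_ u
      · intro u hu
        refine h1 _ (Φ.M.add_mem (Φ.vmv u hu v hv) (Φ.vmv v hv u hu)) ?_
        rw [transpose_add, transpose_vecMulVec, transpose_vecMulVec, add_comm]
      · intro u u' hu hu'
        have h5 := h2 _ _ hu hu'
        have h6 : vecMulVec (u + u') v + vecMulVec v (u + u') =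
            (vecMulVec u v + vecMulVec v u) + (vecMulVec u' v + vecMulVec v u') := by
          rw [add_vecMulVec, vecMulVec_add]
          abel
        change P (vecMulVec (u + u') v + vecMulVec v (u + u'))
        rw [h6]
        exact h5
      · intro c u hu
        have h5 := h3 c _ hu
        have h6 : vecMulVec (c • u) v + vecMulVec v (c • u) =
            c • (vecMulVec u v + vecMulVec v u) := by
          rw [smul_vecMulVec, vecMulVec_smul, smul_add]
        change P (vecMulVec (c • u) v + vecMulVec v (c • u))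
        rw [h6]
        exact h5
    · intro v v' hv hv'
      have h5 := h2 _ _ hv hv'
      have h6 : vecMulVec u (v + v') + vecMulVec (v + v') u =
          (vecMulVec u v + vecMulVec v u) + (vecMulVec u v' + vecMulVec v' u) := by
        rw [add_vecMulVec, vecMulVec_add]
        abel
      rw [h6]
      exact h5
    · intro c v hv
      have h5 := h3 c _ hv
      have h6 : vecMulVec u (c • v) + vecMulVec (c • v) u =
          c • (vecMulVec u v + vecMulVec v u) := by
        rw [smul_vecMulVec, vecMulVec_smul, smul_add]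
      rw [h6]
      exact h5
  have h7 : x = ∑ i, ∑ j, (2⁻¹ * x i j) •
      (vecMulVec (Pi.single i (1 : K)) (Pi.single j (1 : K)) +
        vecMulVec (Pi.single j (1 : K)) (Pi.single i (1 : K))) := by
    have h8 : ∀ i j : Fin n, vecMulVec (Pi.single i (1 : K)) (Pi.single j (1 : K)) =
        Matrix.single i j (1 : K) := by
      intro i j
      rw [Matrix.single_eq_single_vecMulVec_single]
    have h9 : ∑ i, ∑ j, (2⁻¹ * x i j) • Matrix.single i j (1 : K) = (2⁻¹ : K) • x := by
      conv_rhs => rw [Matrix.matrix_eq_sum_single x]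
      rw [Finset.smul_sum]
      refine Finset.sum_congr rfl fun i _ => ?_
      rw [Finset.smul_sum]
      refine Finset.sum_congr rfl fun j _ => ?_
      rw [Matrix.smul_single, Matrix.smul_single, smul_eq_mul, smul_eq_mul, mul_one]
    have h10 : ∑ i, ∑ j, (2⁻¹ * x i j) • Matrix.single j i (1 : K) = (2⁻¹ : K) • x := by
      rw [Finset.sum_comm]
      have h11 : ∀ i j, x i j = x j i := fun i j => by
        conv_lhs => rw [← hx]
        rfl
      rw [← h9]
      refine Finset.sum_congr rfl fun i _ => Finset.sum_congr rfl fun j _ => ?_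
      rw [h11 j i]
    simp only [h8, smul_add, Finset.sum_add_distrib]
    rw [h9, h10, ← add_smul]
    have h12 : (2⁻¹ : K) + 2⁻¹ = 1 := by norm_num
    rw [h12, one_smul]
  rw [h7]
  refine Finset.sum_induction _ P h2 h0 ?_
  intro i _
  refine Finset.sum_induction _ P h2 h0 ?_
  intro j _
  exact h3 _ _ (h4 _ _)

/-- If the product of two linear forms vanishes on the rational symmetric matrices then one of them
vanishes on the symmetric matrices. -/
theorem prod_zero [CharZero K] (f g : Matrix (Fin n) (Fin n) K →ₗ[K] K)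
    (h : ∀ x ∈ Φ.M, xᵀ = x → f x * g x = 0) :
    (∀ x, xᵀ = x → f x = 0) ∨ ∀ x, xᵀ = x → g x = 0 := by
  by_contra hcon
  push Not at hcon
  obtain ⟨⟨x, hx, hfx⟩, y, hy, hgy⟩ := hcon
  have h1 : ∃ x ∈ Φ.M, xᵀ = x ∧ f x ≠ 0 := by
    by_contra h2
    push Not at h2
    refine hfx (Φ.sym_ind (P := fun x => f x = 0) h2 ?_ ?_ x hx)
    · intro x y hx hy
      rw [map_add, hx, hy, add_zero]
    · intro c x hx
      rw [map_smul, hx, smul_zero]
  have h1' : ∃ x ∈ Φ.M, xᵀ = x ∧ g x ≠ 0 := by
    by_contra h2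
    push Not at h2
    refine hgy (Φ.sym_ind (P := fun x => g x = 0) h2 ?_ ?_ y hy)
    · intro x y hx hy
      rw [map_add, hx, hy, add_zero]
    · intro c x hx
      rw [map_smul, hx, smul_zero]
  obtain ⟨x1, hx1, hx2, hx3⟩ := h1
  obtain ⟨y1, hy1, hy2, hy3⟩ := h1'
  have h3 : g x1 = 0 := (mul_eq_zero.1 (h x1 hx1 hx2)).resolve_left hx3
  have h4 : f y1 = 0 := (mul_eq_zero.1 (h y1 hy1 hy2)).resolve_right hy3
  have h5 := h (x1 + y1) (Φ.M.add_mem hx1 hy1) (by rw [transpose_add, hx2, hy2])
  rw [map_add, map_add, h3, h4, add_zero, zero_add] at h5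
  rcases mul_eq_zero.1 h5 with h6 | h6
  · exact hx3 h6
  · exact hy3 h6

end Frame

end Pool.Agent.MP_f4742e_al
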