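import Pool.Agent.Lib.MP_f4742e_al.X.Frame

/-!
The case `(R 1)^2 = 0`, rank two, Witt index two: data.
-/

set_option autoImplicit false

namespace Pool.Agent.MP_f4742e_al

open Matrix

/-- Rational data for `m = 2`: `R 1 = Σ c_i f_i f_iᵀ`, `(R 1)^2 = 0`. -/
structure M2 (F : Type*) {K : Type*} [Field F] [Field K] [Algebra F K] {n : ℕ}
    {R : Matrix (Fin n) (Fin n) K →ₗ[K] Matrix (Fin n) (Fin n) K} {w : ℕ} (Φ : Frame F R w)
    (c1 c2 : F) (f1 f2 : Fin n → K) : Prop where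
  hc1 : c1 ≠ 0
  hc2 : c2 ≠ 0
  f1V : f1 ∈ Φ.V
  f2V : f2 ∈ Φ.V
  ind : LinearIndependent K ![f1, f2]
  e : R 1 = c1 • vecMulVec f1 f1 + c2 • vecMulVec f2 f2
  ee : R 1 * R 1 = 0

end Pool.Agent.MP_f4742e_al
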