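import Pool.Agent.Lib.MP_f4742e_al.X.T0Main

/-!
The bridge from matrices over `F` with a Gram matrix.
-/

set_option autoImplicit false
set_option linter.unusedSectionVars false

namespace Pool.Agent.MP_f4742e_al

open Matrix

section

variable {F : Type*} [Field F] {n : ℕ}

/-- The bilinear form of a Gram matrix. -/
def gramB (G : Matrix (Fin n) (Fin n) F) : (Fin n → F) →ₗ[F] (Fin n → F) →ₗ[F] F :=
  LinearMap.mk₂ F (fun u v => u ⬝ᵥ (G *ᵥ v))
    (fun u u' v => by rw [add_dotProduct])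
    (fun c u v => by rw [smul_dotProduct])
    (fun u v v' => by rw [mulVec_add, dotProduct_add])
    (fun c u v => by rw [mulVec_smul, dotProduct_smul])

theorem gramB_apply (G : Matrix (Fin n) (Fin n) F) (u v : Fin n → F) :
    gramB G u v = u ⬝ᵥ (G *ᵥ v) := rfl

/-- Transport of `R` to endomorphisms. -/
noncomputable def toEnd (R : Matrix (Fin n) (Fin n) F →ₗ[F] Matrix (Fin n) (Fin n) F) :
    Module.End F (Fin n → F) →ₗ[F] Module.End F (Fin n → F) :=
  (Matrix.toLinAlgEquiv' (R := F) (n := Fin n)).toLinearMap ∘ₗ R ∘ₗ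
    (Matrix.toLinAlgEquiv' (R := F) (n := Fin n)).symm.toLinearMap

theorem toEnd_apply (R : Matrix (Fin n) (Fin n) F →ₗ[F] Matrix (Fin n) (Fin n) F)
    (f : Module.End F (Fin n → F)) : toEnd R f =
      Matrix.toLinAlgEquiv' (R (Matrix.toLinAlgEquiv'.symm f)) := rfl

theorem toEnd_mat (R : Matrix (Fin n) (Fin n) F →ₗ[F] Matrix (Fin n) (Fin n) F)
    (x : Matrix (Fin n) (Fin n) F) : toEnd R (Matrix.toLinAlgEquiv' x) =
      Matrix.toLinAlgEquiv' (R x) := by
  rw [toEnd_apply, AlgEquiv.symm_apply_apply]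

theorem toLin_jp (x y : Matrix (Fin n) (Fin n) F) :
    jp (Matrix.toLinAlgEquiv' x) (Matrix.toLinAlgEquiv' y) =
      Matrix.toLinAlgEquiv' (jp x y) := by
  unfold jp
  rw [map_add, map_mul, map_mul]

theorem tens_mat {G : Matrix (Fin n) (Fin n) F} (hG : Gᵀ = G) (u v : Fin n → F) :
    tens (gramB G) u v = Matrix.toLinAlgEquiv' (vecMulVec u (G *ᵥ v)) := by
  apply LinearMap.ext
  intro w
  rw [tens_apply, gramB_apply, Matrix.toLinAlgEquiv'_apply, vecMulVec_mulVec, op_smul_eq_smul,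
    dotProduct_mulVec, ← mulVec_transpose, hG]

end

/-- `(R 1)^2 = 0`, `R 1` of rank two, `(R 1) (R x) (R 1) = 0`, anisotropic kernel: `R^3 = 0`. -/
theorem t0_matrix {F : Type*} [Field F] [CharZero F] {n : ℕ} {G : Matrix (Fin n) (Fin n) F}
    (hG : Gᵀ = G) (hdet : IsUnit G.det)
    {R : Matrix (Fin n) (Fin n) F →ₗ[F] Matrix (Fin n) (Fin n) F} (hrb : JRB R)
    (hfix : ∀ x, G⁻¹ * (R x)ᵀ * G = R x) (hinv : ∀ x, R (G⁻¹ * xᵀ * G) = R x)
    (h2 : R 1 * R 1 = 0)
    (hrank : Module.finrank F (LinearMap.range (R 1).mulVecLin) = 2)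
    (han : ∀ v, R 1 *ᵥ v = 0 → v ⬝ᵥ (G *ᵥ v) = 0 → ∃ q, R 1 *ᵥ q = v)
    (hT : ∀ x, R 1 * R x * R 1 = 0) : R ^ 3 = 0 := by
  have hinvG : G⁻¹ * G = 1 := Matrix.nonsing_inv_mul G hdet
  have hinvG' : G * G⁻¹ = 1 := Matrix.mul_nonsing_inv G hdet
  have hGi : (G⁻¹)ᵀ = G⁻¹ := by rw [transpose_nonsing_inv, hG]
  have hone : toEnd R 1 = Matrix.toLinAlgEquiv' (R 1) := by
    have h1 : (1 : Module.End F (Fin n → F)) = Matrix.toLinAlgEquiv' 1 := (map_one _).symm
    rw [h1, toEnd_mat]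
  have happ : ∀ (x : Matrix (Fin n) (Fin n) F) (v : Fin n → F),
      (Matrix.toLinAlgEquiv' x : Module.End F (Fin n → F)) v = x *ᵥ v := fun x v =>
    Matrix.toLinAlgEquiv'_apply x v
  have hsurj : ∀ f : Module.End F (Fin n → F), ∃ x, f = Matrix.toLinAlgEquiv' x := fun f =>
    ⟨Matrix.toLinAlgEquiv'.symm f, by rw [AlgEquiv.apply_symm_apply]⟩
  have hsa0 : ∀ x : Matrix (Fin n) (Fin n) F, G⁻¹ * xᵀ * G = x → ∀ u v : Fin n → F,
      gramB G (x *ᵥ u) v = gramB G u (x *ᵥ v) := by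
    intro x hx u v
    have h1 : xᵀ * G = G * x := by
      conv_rhs => rw [← hx]
      rw [← Matrix.mul_assoc, ← Matrix.mul_assoc, hinvG', Matrix.one_mul]
    rw [gramB_apply, gramB_apply, dotProduct_comm, dotProduct_mulVec, ← mulVec_transpose,
      mulVec_mulVec, h1, mulVec_mulVec, dotProduct_comm]
  obtain ⟨b⟩ : Nonempty (Module.Basis (Fin 2) F (LinearMap.range (R 1).mulVecLin)) :=
    ⟨Module.finBasisOfFinrankEq F _ hrank⟩
  have hspan : LinearMap.range (toEnd R 1) =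
      Submodule.span F {((b 0 : LinearMap.range (R 1).mulVecLin) : Fin n → F),
        ((b 1 : LinearMap.range (R 1).mulVecLin) : Fin n → F)} := by
    have h1 : LinearMap.range (toEnd R 1) = LinearMap.range (R 1).mulVecLin := by
      rw [hone]
      rfl
    rw [h1]
    apply le_antisymm
    · intro y hy
      have h3 := b.sum_repr ⟨y, hy⟩
      have h4 := congrArg (fun z : LinearMap.range (R 1).mulVecLin => (z : Fin n → F)) h3
      rw [Fin.sum_univ_two] at h4
      exact Submodule.mem_span_pair.2 ⟨_, _, h4⟩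
    · rw [Submodule.span_le]
      rintro y (rfl | rfl)
      · exact (b 0).2
      · exact (b 1).2
  have hi : ∀ p q : F, p • ((b 0 : LinearMap.range (R 1).mulVecLin) : Fin n → F) +
      q • ((b 1 : LinearMap.range (R 1).mulVecLin) : Fin n → F) = 0 → p = 0 ∧ q = 0 := by
    intro p q hpq
    have h1 : p • b 0 + q • b 1 = 0 := Subtype.ext hpq
    have h3 := Fintype.linearIndependent_iff.1 b.linearIndependent ![p, q] (by
      rw [Fin.sum_univ_two]
      exact h1)
    exact ⟨h3 0, h3 1⟩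
  have key := t0_pow_zero (B := gramB G) (R := toEnd R) ?_ ?_ ?_ ?_ ?_ ?_ ?_ ?_ ?_ hspan hi
  · apply LinearMap.ext
    intro x
    have h1 := congrArg (fun T : Module.End F (Fin n → F) →ₗ[F] Module.End F (Fin n → F) =>
      T (Matrix.toLinAlgEquiv' x)) key
    simp only [pow_succ, pow_zero, one_mul, Module.End.mul_apply, toEnd_mat,
      LinearMap.zero_apply] at h1
    rw [pow_succ, pow_two, Module.End.mul_apply, Module.End.mul_apply, LinearMap.zero_apply]
    exact (map_eq_zero_iff _ (Matrix.toLinAlgEquiv' (R := F) (n := Fin n)).injective).1 h1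
  · intro f g
    obtain ⟨x, rfl⟩ := hsurj f
    obtain ⟨y, rfl⟩ := hsurj g
    rw [toEnd_mat, toEnd_mat, toLin_jp, hrb, toLin_jp, toLin_jp, ← map_add, toEnd_mat]
  · intro u v
    rw [gramB_apply, gramB_apply, dotProduct_mulVec, ← mulVec_transpose, hG, dotProduct_comm]
  · intro u hu
    have h1 : ∀ w : Fin n → F, u ⬝ᵥ w = 0 := by
      intro w
      have h3 := hu (G⁻¹ *ᵥ w)
      rw [gramB_apply, mulVec_mulVec, hinvG', one_mulVec] at h3
      exact h3
    exact dotProduct_eq_zero u h1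
  · intro f u v
    obtain ⟨x, rfl⟩ := hsurj f
    rw [toEnd_mat, happ, happ]
    exact hsa0 _ (hfix x) u v
  · intro u v
    rw [tens_mat hG, tens_mat hG, toEnd_mat, toEnd_mat]
    congr 1
    rw [← hinv (vecMulVec v (G *ᵥ u)), transpose_vecMulVec]
    congr 1
    rw [mul_vecMulVec, vecMulVec_mul, mulVec_mulVec, hinvG, one_mulVec, ← mulVec_transpose, hG]
  · intro f
    obtain ⟨x, rfl⟩ := hsurj f
    refine ⟨Matrix.toLinAlgEquiv' ((2 : F)⁻¹ • (x + G⁻¹ * xᵀ * G)), ?_, ?_⟩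
    · intro u v
      rw [happ, happ]
      apply hsa0
      rw [transpose_smul, transpose_add, transpose_mul, transpose_mul, transpose_transpose, hG,
        hGi, Matrix.mul_smul, Matrix.smul_mul]
      congr 1
      rw [Matrix.mul_add, Matrix.add_mul, add_comm x]
      congr 1
      rw [← Matrix.mul_assoc G, ← Matrix.mul_assoc G⁻¹, ← Matrix.mul_assoc G⁻¹, hinvG,
        Matrix.one_mul, Matrix.mul_assoc, hinvG, Matrix.mul_one]
    · rw [toEnd_mat, toEnd_mat, map_smul, map_add, hinv, ← two_smul F, smul_smul,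
        inv_mul_cancel₀ two_ne_zero, one_smul]
  · intro f v
    obtain ⟨x, rfl⟩ := hsurj f
    rw [hone, toEnd_mat, happ, happ, happ, mulVec_mulVec, mulVec_mulVec, hT,
      zero_mulVec]
  · intro v
    rw [hone, happ, happ, mulVec_mulVec, h2, zero_mulVec]
  · intro v h1 h3
    rw [hone, happ] at h1
    obtain ⟨q, hq⟩ := han v h1 h3
    exact ⟨q, by rw [hone, happ, hq]⟩

end Pool.Agent.MP_f4742e_al
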