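import Pool.Agent.Lib.MP_f4742e_al.X.Final
import Pool.Agent.Lib.MP_f4742e_al.X.T0Bridge

/-!
The RB-index of `{x | G x symmetric}` for a symmetric invertible matrix `G` of Witt index at
least two, over every field of characteristic zero.
-/

set_option autoImplicit false

namespace Pool.Agent.MP_f4742e_al

open Matrix

section

variable {F : Type*} [Field F] [CharZero F] {n : ℕ} {G : Matrix (Fin n) (Fin n) F}

/-- The RB-index of the symmetric elements of a quadratic form. -/
theorem rb_quadratic (hG : Gᵀ = G) (hdet : IsUnit G.det)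
    {σ : Involution F (Matrix (Fin n) (Fin n) F)} (hσ : ∀ x, σ.f x = G⁻¹ * xᵀ * G) {w : ℕ}
    (hw : σ.IsWittIndex w) (hw2 : 2 ≤ w) : HasRBIndex F σ.H (2 * w - 1) := by
  have hGH : G * G⁻¹ = 1 := Matrix.mul_nonsing_inv G hdet
  refine rb_sym hG hGH (fun x => ?_) hw hw2 ?_
  · rw [hσ, ← Matrix.mul_assoc, ← Matrix.mul_assoc, hGH, Matrix.one_mul]
  · intro R hJ hs ht h2 hrank han hT
    refine t0_matrix hG hdet hJ (fun x => ?_) (fun x => ?_) h2 hrank (fun v hv hvv => ?_) hT
    · rw [← hσ, hs]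
    · rw [← hσ, ht]
    · obtain ⟨t, ht⟩ := han v hv hvv
      exact ⟨t, ht.symm⟩

end

section transport

variable {F A B : Type*} [Field F] [Ring A] [Algebra F A] [Ring B] [Algebra F B]

/-- Transport of an involution. -/
def Involution.trans (σ : Involution F A) (φ : A ≃ₐ[F] B) : Involution F B where
  f := (φ.toLinearMap.comp σ.f).comp φ.symm.toLinearMap
  map_mul := by
    intro x y
    change φ (σ.f (φ.symm (x * y))) = φ (σ.f (φ.symm y)) * φ (σ.f (φ.symm x))
    rw [_root_.map_mul, σ.map_mul, _root_.map_mul]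
  invol := by
    intro x
    change φ (σ.f (φ.symm (φ (σ.f (φ.symm x))))) = x
    rw [AlgEquiv.symm_apply_apply, σ.invol, AlgEquiv.apply_symm_apply]

theorem Involution.trans_f (σ : Involution F A) (φ : A ≃ₐ[F] B) (x : B) :
    (σ.trans φ).f x = φ (σ.f (φ.symm x)) := rfl

/-- Transport of right ideals. -/
def transI (φ : A ≃ₐ[F] B) (I : Submodule Aᵐᵒᵖ A) : Submodule Bᵐᵒᵖ B where
  carrier := {y | φ.symm y ∈ I}
  add_mem' := by
    intro x y hx hy
    change φ.symm (x + y) ∈ I
    rw [map_add]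
    exact I.add_mem hx hy
  zero_mem' := by
    change φ.symm 0 ∈ I
    rw [map_zero]
    exact I.zero_mem
  smul_mem' := by
    intro c x hx
    change φ.symm (x * c.unop) ∈ I
    rw [map_mul]
    exact I.smul_mem (MulOpposite.op (φ.symm c.unop)) hx

theorem mem_transI (φ : A ≃ₐ[F] B) (I : Submodule Aᵐᵒᵖ A) (y : B) :
    y ∈ transI φ I ↔ φ.symm y ∈ I := Iff.rfl

theorem transI_lt (φ : A ≃ₐ[F] B) {I J : Submodule Aᵐᵒᵖ A} (h : I < J) :
    transI φ I < transI φ J := by
  obtain ⟨h1, x, hx, hx'⟩ := SetLike.lt_iff_le_and_exists.1 h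
  refine SetLike.lt_iff_le_and_exists.2 ⟨fun y hy => h1 hy, φ x, ?_, ?_⟩
  · rw [mem_transI, AlgEquiv.symm_apply_apply]
    exact hx
  · rw [mem_transI, AlgEquiv.symm_apply_apply]
    exact hx'

theorem trans_iso (σ : Involution F A) (φ : A ≃ₐ[F] B) {I : Submodule Aᵐᵒᵖ A} (h : σ.Iso I) :
    (σ.trans φ).Iso (transI φ I) := by
  intro x hx y hy
  rw [mem_transI] at hx hy
  have h1 := h _ hx _ hy
  have h2 : y = φ (φ.symm y) := (φ.apply_symm_apply y).symm
  rw [Involution.trans_f, h2, ← map_mul, h1, map_zero]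

theorem trans_trans_f (σ : Involution F A) (φ : A ≃ₐ[F] B) (x : A) :
    ((σ.trans φ).trans φ.symm).f x = σ.f x := by
  rw [Involution.trans_f, Involution.trans_f, AlgEquiv.symm_symm, AlgEquiv.symm_apply_apply,
    AlgEquiv.symm_apply_apply]

theorem trans_witt (σ : Involution F A) (φ : A ≃ₐ[F] B) {w : ℕ} (h : σ.IsWittIndex w) :
    (σ.trans φ).IsWittIndex w := by
  refine ⟨?_, ?_⟩
  · obtain ⟨I, hI, hI'⟩ := h.1
    exact ⟨fun k => transI φ (I k), fun a b hab => transI_lt φ (hI hab), trans_iso σ φ hI'⟩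
  · rintro l ⟨I, hI, hI'⟩
    refine h.2 ⟨fun k => transI φ.symm (I k), fun a b hab => transI_lt φ.symm (hI hab), ?_⟩
    have h1 := trans_iso (σ.trans φ) φ.symm hI'
    intro x hx y hy
    have h2 := h1 x hx y hy
    rw [trans_trans_f] at h2
    exact h2

variable [CharZero F]

/-- Transport of the symmetric elements. -/
def transH (σ : Involution F A) (φ : A ≃ₐ[F] B) : σ.H ≃ₗ[F] (σ.trans φ).H where
  toFun x := ⟨φ x, by
    have hx : σ.f (x : A) = x := x.2
    change φ (σ.f (φ.symm (φ x))) = φ x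
    rw [AlgEquiv.symm_apply_apply, hx]⟩
  map_add' x y := Subtype.ext (map_add φ (x : A) (y : A))
  map_smul' c x := Subtype.ext (map_smul φ c (x : A))
  invFun y := ⟨φ.symm y, by
    have hy : φ (σ.f (φ.symm (y : B))) = y := y.2
    change σ.f (φ.symm y) = φ.symm y
    rw [AlgEquiv.eq_symm_apply]
    exact hy⟩
  left_inv x := Subtype.ext (φ.symm_apply_apply (x : A))
  right_inv y := Subtype.ext (φ.apply_symm_apply (y : B))

omit [CharZero F] in
theorem transH_coe (σ : Involution F A) (φ : A ≃ₐ[F] B) (x : σ.H) :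
    ((transH σ φ x : (σ.trans φ).H) : B) = φ x := rfl

theorem transH_mul (σ : Involution F A) (φ : A ≃ₐ[F] B) (x y : σ.H) :
    transH σ φ (x * y) = transH σ φ x * transH σ φ y := by
  apply Subtype.ext
  rw [transH_coe, Involution.coe_mul, Involution.coe_mul, transH_coe, transH_coe, map_smul,
    map_add, map_mul, map_mul]

theorem rb_trans (σ : Involution F A) (φ : A ≃ₐ[F] B) {r : ℕ}
    (h : HasRBIndex F (σ.trans φ).H r) : HasRBIndex F σ.H r := by
  have key : ∀ (R : (σ.trans φ).H →ₗ[F] (σ.trans φ).H), IsRotaBaxter R →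
      IsRotaBaxter ((transH σ φ).symm.conj R) := by
    intro R hR x y
    apply (transH σ φ).injective
    simp only [LinearEquiv.conj_apply, LinearEquiv.symm_symm, LinearMap.comp_apply,
      LinearEquiv.coe_coe, transH_mul, LinearEquiv.apply_symm_apply, map_add]
    rw [← map_add]
    exact hR _ _
  have key2 : ∀ (R : σ.H →ₗ[F] σ.H), IsRotaBaxter R →
      IsRotaBaxter ((transH σ φ).conj R) := by
    intro R hR x y
    obtain ⟨x, rfl⟩ := (transH σ φ).surjective x
    obtain ⟨y, rfl⟩ := (transH σ φ).surjective y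
    simp only [LinearEquiv.conj_apply, LinearMap.comp_apply, LinearEquiv.coe_coe,
      LinearEquiv.symm_apply_apply, ← transH_mul, ← map_add, hR x y]
  refine ⟨?_, ?_⟩
  · intro R hR
    have h1 := h.1 _ (key2 R hR)
    have h2 : (transH σ φ).conj (R ^ r) = ((transH σ φ).conj R) ^ r :=
      map_pow (transH σ φ).conjRingEquiv R r
    rw [h1] at h2
    have h3 := (transH σ φ).conj.injective (h2.trans (map_zero _).symm)
    exact h3
  · intro N hN
    refine h.2 fun R hR => ?_
    have h1 := hN _ (key R hR)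
    have h2 : (transH σ φ).symm.conj (R ^ N) = ((transH σ φ).symm.conj R) ^ N :=
      map_pow (transH σ φ).symm.conjRingEquiv R N
    rw [h1] at h2
    exact (transH σ φ).symm.conj.injective (h2.trans (map_zero _).symm)

end transport

/-- `A = M_n(F)`, the involution is adjoint to a nondegenerate symmetric bilinear form. -/
theorem rb_orthogonal {F A : Type*} [Field F] [CharZero F] [Ring A] [Algebra F A]
    (σ : Involution F A) {n : ℕ} (φ : A ≃ₐ[F] Matrix (Fin n) (Fin n) F)
    {G : Matrix (Fin n) (Fin n) F} (hG : Gᵀ = G) (hdet : IsUnit G.det)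
    (hσ : ∀ x, φ (σ.f x) = G⁻¹ * (φ x)ᵀ * G) {w : ℕ} (hw : σ.IsWittIndex w) (hw2 : 2 ≤ w) :
    HasRBIndex F σ.H (2 * w - 1) := by
  refine rb_trans σ φ (rb_quadratic hG hdet (fun x => ?_) (trans_witt σ φ hw) hw2)
  rw [Involution.trans_f, hσ, AlgEquiv.apply_symm_apply]

end Pool.Agent.MP_f4742e_al
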