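import Pool.Agent.Lib.MP_f4742e_al.X.Rb

/-!
The RB-index if there is a symmetric element of rank one.
-/

set_option autoImplicit false

namespace Pool.Agent.MP_f4742e_al

open Matrix

section

variable {F A : Type*} [Field F] [CharZero F] [Ring A] [Algebra F A] [FiniteDimensional F A]
  [IsSimpleRing A]

omit [CharZero F] in
/-- A simple algebra with an involution and a symmetric element of rank one is a matrix algebra
over the ground field with the adjoint involution of a symmetric bilinear form. -/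
theorem exists_matrix_form (σ : Involution F A) {p : A} (hp0 : p ≠ 0) (hps : σ.f p = p)
    (hpx : ∀ x, ∃ c : F, p * x * p = c • p) :
    ∃ (n : ℕ) (φ : A ≃ₐ[F] Matrix (Fin n) (Fin n) F) (G : Matrix (Fin n) (Fin n) F),
      Gᵀ = G ∧ IsUnit G.det ∧ ∀ x, φ (σ.f x) = G⁻¹ * (φ x)ᵀ * G := by
  classical
  have hdual : ∃ lam : A →ₗ[F] F, lam p = 1 := by
    have h1 : ∃ f : Module.Dual F A, f p ≠ 0 := by
      by_contra hcon
      push Not at hcon
      exact hp0 ((Module.forall_dual_apply_eq_zero_iff F p).1 hcon)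
    obtain ⟨f, hf⟩ := h1
    exact ⟨(f p)⁻¹ • f, by rw [LinearMap.smul_apply, smul_eq_mul, inv_mul_cancel₀ hf]⟩
  obtain ⟨lam, hlam⟩ := hdual
  have hpx' : ∀ x, p * x * p = lam (p * x * p) • p := by
    intro x
    obtain ⟨c, hc⟩ := hpx x
    rw [hc, map_smul, hlam, smul_eq_mul, mul_one]
  obtain ⟨V, hV⟩ : ∃ V : Submodule F A, V = LinearMap.range (LinearMap.mulRight F p) := ⟨_, rfl⟩
  have memV : ∀ v, v ∈ V ↔ ∃ x, x * p = v := by
    intro v
    rw [hV]
    exact Iff.rfl
  have mulV : ∀ a : A, ∀ v ∈ V, a * v ∈ V := by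
    intro a v hv
    obtain ⟨x, rfl⟩ := (memV v).1 hv
    exact (memV _).2 ⟨a * x, mul_assoc _ _ _⟩
  have key : ∀ u ∈ V, ∀ v ∈ V, σ.f u * v = lam (σ.f u * v) • p := by
    intro u hu v hv
    obtain ⟨x, rfl⟩ := (memV u).1 hu
    obtain ⟨y, rfl⟩ := (memV v).1 hv
    have h1 : σ.f (x * p) * (y * p) = p * (σ.f x * y) * p := by
      rw [σ.map_mul, hps]
      noncomm_ring
    rw [h1]
    exact hpx' _
  let B : V →ₗ[F] V →ₗ[F] F := LinearMap.mk₂ F (fun u v => lam (σ.f (u : A) * (v : A)))
    (fun u u' v => by rw [Submodule.coe_add, map_add, add_mul, map_add])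
    (fun c u v => by rw [Submodule.coe_smul, map_smul, smul_mul_assoc, map_smul])
    (fun u v v' => by rw [Submodule.coe_add, mul_add, map_add])
    (fun c u v => by rw [Submodule.coe_smul, mul_smul_comm, map_smul])
  have hB : ∀ u v : V, B u v = lam (σ.f (u : A) * (v : A)) := fun _ _ => rfl
  have hBp : ∀ u v : V, σ.f (u : A) * (v : A) = B u v • p := fun u v => key u u.2 v v.2
  have hsymm : ∀ u v : V, B u v = B v u := by
    intro u v
    have h1 := congrArg σ.f (hBp u v)
    rw [σ.map_mul, σ.invol, map_smul, hps, hBp v u] at h1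
    have h2 : (B v u - B u v) • p = 0 := by rw [sub_smul, h1, sub_self]
    exact (sub_eq_zero.1 ((smul_eq_zero.1 h2).resolve_right hp0)).symm
  have hnd : ∀ u : V, (∀ v, B u v = 0) → u = 0 := by
    intro u hu
    by_contra hu0
    have h1 : σ.f (u : A) ≠ 0 := by
      intro h2
      apply hu0
      apply Subtype.ext
      rw [← σ.invol (u : A), h2, map_zero]
      rfl
    obtain ⟨x, hx⟩ := prime_of_simple h1 hp0
    apply hx
    have h2 := hBp u ⟨x * p, (memV _).2 ⟨x, rfl⟩⟩
    rw [hu, zero_smul] at h2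
    rw [mul_assoc]
    exact h2
  have pV : p ∈ V := (memV p).2 ⟨1, one_mul p⟩
  have hVnt : Nontrivial V := ⟨⟨⟨p, pV⟩, 0, fun h => hp0 (congrArg Subtype.val h)⟩⟩
  -- the action
  let ρ : A →ₐ[F] Module.End F V := AlgHom.ofLinearMap
    { toFun := fun a => (LinearMap.mulLeft F a).restrict (mulV a)
      map_add' := fun a b => by
        apply LinearMap.ext
        intro v
        apply Subtype.ext
        change (a + b) * (v : A) = a * v + b * v
        rw [add_mul]
      map_smul' := fun c a => by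
        apply LinearMap.ext
        intro v
        apply Subtype.ext
        change (c • a) * (v : A) = c • (a * v)
        rw [smul_mul_assoc] }
    (by
      apply LinearMap.ext
      intro v
      apply Subtype.ext
      change (1 : A) * (v : A) = v
      rw [one_mul])
    (by
      intro a b
      apply LinearMap.ext
      intro v
      apply Subtype.ext
      change (a * b) * (v : A) = a * (b * v)
      rw [mul_assoc])
  have hρ : ∀ (a : A) (v : V), ((ρ a v : V) : A) = a * v := fun _ _ => rfl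
  have hinj : Function.Injective ρ := RingHom.injective (ρ : A →+* Module.End F V)
  -- a basis
  obtain ⟨n, hn⟩ : ∃ n, n = Module.finrank F V := ⟨_, rfl⟩
  let b : Module.Basis (Fin n) F V := Module.finBasisOfFinrankEq F V hn.symm
  let G : Matrix (Fin n) (Fin n) F := Matrix.of fun i j => B (b i) (b j)
  have hG : ∀ i j, G i j = B (b i) (b j) := fun _ _ => rfl
  have hGt : Gᵀ = G := by
    ext i j
    rw [transpose_apply, hG, hG, hsymm]
  have hdet : IsUnit G.det := by
    rw [isUnit_iff_ne_zero]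
    intro h0
    obtain ⟨v, hv0, hv⟩ := Matrix.exists_mulVec_eq_zero_iff.2 h0
    have h1 : ∑ j, v j • b j = 0 := by
      apply hnd
      intro x
      rw [← b.sum_repr x, map_sum]
      refine Finset.sum_eq_zero fun i _ => ?_
      have h2 : (∑ j, B (b i) (b j) * v j) = 0 := congrFun hv i
      rw [map_smul, hsymm, map_sum]
      simp only [map_smul, smul_eq_mul]
      have h3 : ∑ j, v j * B (b i) (b j) = 0 := by
        rw [← h2]
        exact Finset.sum_congr rfl fun j _ => mul_comm _ _
      rw [h3, mul_zero]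
    apply hv0
    funext j
    exact Fintype.linearIndependent_iff.1 b.linearIndependent v h1 j
  have hGG : G⁻¹ * G = 1 := Matrix.nonsing_inv_mul G hdet
  have hGG' : G * G⁻¹ = 1 := Matrix.mul_nonsing_inv G hdet
  obtain ⟨d, hd⟩ : ∃ d : Fin n → V, ∀ i, d i = ∑ k, (G⁻¹) i k • b k := ⟨_, fun _ => rfl⟩
  have hdb : ∀ i j, B (d i) (b j) = if i = j then 1 else 0 := by
    intro i j
    rw [hd, map_sum, LinearMap.sum_apply]
    have h1 := congrFun (congrFun hGG i) j
    rw [Matrix.mul_apply, Matrix.one_apply] at h1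
    rw [← h1]
    refine Finset.sum_congr rfl fun k _ => ?_
    rw [map_smul, LinearMap.smul_apply, smul_eq_mul, hG]
  have hsurj : Function.Surjective ρ := by
    intro T
    choose x hx using fun i => (memV _).1 (T (b i)).2
    choose y hy using fun i => (memV _).1 (d i).2
    refine ⟨∑ i, x i * p * σ.f (y i), ?_⟩
    apply b.ext
    intro j
    apply Subtype.ext
    rw [hρ, Finset.sum_mul]
    have h1 : ∀ i, x i * p * σ.f (y i) * (b j : A) = (if i = j then 1 else 0 : F) • (x i * p) := by
      intro i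
      have h2 : p * σ.f (y i) = σ.f (d i : A) := by
        rw [← hy i, σ.map_mul, hps]
      rw [mul_assoc (x i), h2, mul_assoc, hBp, hdb, mul_smul_comm]
    simp only [h1, ite_smul, one_smul, zero_smul]
    rw [Finset.sum_ite_eq', if_pos (Finset.mem_univ j), hx]
  let φ : A ≃ₐ[F] Matrix (Fin n) (Fin n) F :=
    (AlgEquiv.ofBijective ρ ⟨hinj, hsurj⟩).trans (LinearMap.toMatrixAlgEquiv b)
  have hφ : ∀ (a : A) (i j : Fin n), φ a i j = b.repr (ρ a (b j)) i := by
    intro a i j
    exact LinearMap.toMatrixAlgEquiv_apply b (ρ a) i j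
  have hadj : ∀ (a : A) (u v : V), B u (ρ (σ.f a) v) = B (ρ a u) v := by
    intro a u v
    rw [hB, hB, hρ, hρ, σ.map_mul, mul_assoc]
  refine ⟨n, φ, G, hGt, hdet, fun a => ?_⟩
  have h1 : G * φ (σ.f a) = (φ a)ᵀ * G := by
    ext i j
    rw [Matrix.mul_apply, Matrix.mul_apply]
    have h2 : ∑ k, G i k * φ (σ.f a) k j = B (b i) (ρ (σ.f a) (b j)) := by
      conv_rhs => rw [← b.sum_repr (ρ (σ.f a) (b j)), map_sum]
      refine Finset.sum_congr rfl fun k _ => ?_
      rw [map_smul, smul_eq_mul, hG, hφ, mul_comm]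
    have h3 : ∑ k, (φ a)ᵀ i k * G k j = B (ρ a (b i)) (b j) := by
      conv_rhs => rw [← b.sum_repr (ρ a (b i)), map_sum, LinearMap.sum_apply]
      refine Finset.sum_congr rfl fun k _ => ?_
      rw [map_smul, LinearMap.smul_apply, smul_eq_mul, transpose_apply, hG, hφ]
    rw [h2, h3, hadj]
  calc φ (σ.f a) = G⁻¹ * (G * φ (σ.f a)) := by rw [← Matrix.mul_assoc, hGG, Matrix.one_mul]
    _ = G⁻¹ * (φ a)ᵀ * G := by rw [h1, Matrix.mul_assoc]

/-- A simple algebra with an involution and a symmetric element of rank one, of Witt index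
`w ≥ 2`. -/
theorem split_exact {σ : Involution F A} {w : ℕ} (hw : σ.IsWittIndex w) (h2 : 2 ≤ w)
    (hs : ∃ p : A, p ≠ 0 ∧ σ.f p = p ∧ ∀ x, ∃ c : F, p * x * p = c • p) :
    HasRBIndex F σ.H (2 * w - 1) := by
  obtain ⟨p, hp0, hps, hpx⟩ := hs
  obtain ⟨n, φ, G, hG, hdet, hσ⟩ := exists_matrix_form σ hp0 hps hpx
  exact rb_orthogonal σ φ hG hdet hσ hw h2

end

end Pool.Agent.MP_f4742e_al
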