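import Pool.Agent.Lib.MP_f4742e_al.HCore

/-!
Rota-Baxter operators on the self-adjoint endomorphisms of a space with a symmetric bilinear form:
`(R 1)^2 = 0`, `R 1` of rank two, `(R 1) (R x) (R 1) = 0`. Basic facts.
-/

set_option autoImplicit false
set_option linter.unusedSectionVars false

namespace Pool.Agent.MP_f4742e_al

section defs

variable {F V : Type*} [Field F] [AddCommGroup V] [Module F V]

/-- The rank one endomorphism `w ↦ B v w • u`. -/
def tens (B : V →ₗ[F] V →ₗ[F] F) (u v : V) : Module.End F V := (B v).smulRight u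

theorem tens_apply (B : V →ₗ[F] V →ₗ[F] F) (u v w : V) : tens B u v w = B v w • u := rfl

theorem tens_add_left (B : V →ₗ[F] V →ₗ[F] F) (u u' v : V) :
    tens B (u + u') v = tens B u v + tens B u' v := by
  ext w
  simp [tens_apply]

theorem tens_add_right (B : V →ₗ[F] V →ₗ[F] F) (u v v' : V) :
    tens B u (v + v') = tens B u v + tens B u v' := by
  ext w
  simp [tens_apply, add_smul]

theorem tens_smul_left (B : V →ₗ[F] V →ₗ[F] F) (c : F) (u v : V) :
    tens B (c • u) v = c • tens B u v := by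
  ext w
  simp [tens_apply, smul_smul, mul_comm]

theorem tens_smul_right (B : V →ₗ[F] V →ₗ[F] F) (c : F) (u v : V) :
    tens B u (c • v) = c • tens B u v := by
  ext w
  simp [tens_apply, smul_smul]

/-- Data: `e = R 1`, `e^2 = 0`, the range `L` of `e` has the basis `l1, l2`; `d1, d2` are dual
vectors. -/
structure T0D (B : V →ₗ[F] V →ₗ[F] F) (R : Module.End F V →ₗ[F] Module.End F V)
    (e : Module.End F V) (l1 l2 d1 d2 : V) : Prop where
  rb : JRB R
  one : R 1 = e
  sym : ∀ u v, B u v = B v u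
  nd : ∀ u, (∀ v, B u v = 0) → u = 0
  sa : ∀ x u v, B (R x u) v = B u (R x v)
  tr : ∀ u v, R (tens B u v) = R (tens B v u)
  hT : ∀ x v, e (R x (e v)) = 0
  ee : ∀ v, e (e v) = 0
  han : ∀ v, e v = 0 → B v v = 0 → v ∈ Submodule.span F {l1, l2}
  ran : ∀ v, e v ∈ Submodule.span F {l1, l2}
  l1r : ∃ p, e p = l1
  l2r : ∃ p, e p = l2
  b11 : B l1 d1 = 1
  b12 : B l1 d2 = 0
  b21 : B l2 d1 = 0
  b22 : B l2 d2 = 1

end defs

namespace T0D

variable {F V : Type*} [Field F] [CharZero F] [AddCommGroup V] [Module F V]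
  {B : V →ₗ[F] V →ₗ[F] F} {R : Module.End F V →ₗ[F] Module.End F V}
  {e : Module.End F V} {l1 l2 d1 d2 : V} (D : T0D B R e l1 l2 d1 d2)

include D

omit [CharZero F] in
theorem esa (u v : V) : B (e u) v = B u (e v) := by rw [← D.one, D.sa]

omit [CharZero F] in
theorem L_e {l : V} (hl : l ∈ Submodule.span F {l1, l2}) : ∃ p, e p = l := by
  obtain ⟨a, b, rfl⟩ := Submodule.mem_span_pair.1 hl
  obtain ⟨p, hp⟩ := D.l1r
  obtain ⟨q, hq⟩ := D.l2r
  exact ⟨a • p + b • q, by rw [map_add, map_smul, map_smul, hp, hq]⟩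

omit [CharZero F] in
theorem eL {l : V} (hl : l ∈ Submodule.span F {l1, l2}) : e l = 0 := by
  obtain ⟨p, rfl⟩ := D.L_e hl
  exact D.ee p

omit [CharZero F] D in
theorem l1L : l1 ∈ Submodule.span F {l1, l2} := Submodule.subset_span (by simp)

omit [CharZero F] D in
theorem l2L : l2 ∈ Submodule.span F {l1, l2} := Submodule.subset_span (by simp)

omit [CharZero F] in
/-- `L` and `ker e` are orthogonal. -/
theorem LK {l v : V} (hl : l ∈ Submodule.span F {l1, l2}) (hv : e v = 0) : B l v = 0 := by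
  obtain ⟨p, rfl⟩ := D.L_e hl
  rw [D.esa, hv, map_zero]

omit [CharZero F] in
theorem LK' {l v : V} (hl : l ∈ Submodule.span F {l1, l2}) (hv : e v = 0) : B v l = 0 := by
  rw [D.sym, D.LK hl hv]

omit [CharZero F] in
theorem ker_iff {v : V} (h1 : B l1 v = 0) (h2 : B l2 v = 0) : e v = 0 := by
  apply D.nd
  intro w
  rw [D.esa]
  obtain ⟨a, b, hab⟩ := Submodule.mem_span_pair.1 (D.ran w)
  rw [← hab, map_add, map_smul, map_smul, D.sym v l1, D.sym v l2, h1, h2, smul_zero, smul_zero,
    add_zero]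

omit [CharZero F] in
theorem expL {l : V} (hl : l ∈ Submodule.span F {l1, l2}) : l = B d1 l • l1 + B d2 l • l2 := by
  obtain ⟨a, b, rfl⟩ := Submodule.mem_span_pair.1 hl
  rw [map_add, map_smul, map_smul, map_add, map_smul, map_smul, D.sym d1 l1, D.sym d1 l2,
    D.sym d2 l1, D.sym d2 l2, D.b11, D.b12, D.b21, D.b22]
  simp

omit [CharZero F] in
theorem exp_ker (v : V) : e (v - (B l1 v • d1 + B l2 v • d2)) = 0 := by
  apply D.ker_iff
  · rw [map_sub, map_add, map_smul, map_smul, D.b11, D.b12]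
    simp
  · rw [map_sub, map_add, map_smul, map_smul, D.b21, D.b22]
    simp

omit [CharZero F] in
/-- Elements killing `ker e`. -/
theorem rep_of {x : Module.End F V} (h2 : ∀ v, e v = 0 → x v = 0) :
    x = tens B (x d1) l1 + tens B (x d2) l2 := by
  ext v
  have h3 := h2 _ (D.exp_ker v)
  rw [map_sub, map_add, map_smul, map_smul, sub_eq_zero] at h3
  rw [h3, LinearMap.add_apply, tens_apply, tens_apply]

omit [CharZero F] in
theorem e_tens (u v : V) : e * tens B u v = tens B (e u) v := by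
  ext w
  rw [Module.End.mul_apply, tens_apply, tens_apply, map_smul]

omit [CharZero F] in
theorem tens_mul {s : Module.End F V} (hs : ∀ u v, B (s u) v = B u (s v)) (u v : V) :
    tens B u v * s = tens B u (s v) := by
  ext w
  rw [Module.End.mul_apply, tens_apply, tens_apply, hs]

omit [CharZero F] D in
theorem mul_tens (s : Module.End F V) (u v : V) : s * tens B u v = tens B (s u) v := by
  ext w
  rw [Module.End.mul_apply, tens_apply, tens_apply, map_smul]

omit [CharZero F] in
theorem ee' : e * e = 0 := by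
  ext v
  exact D.ee v

theorem BL {l l' : V} (hl : l ∈ Submodule.span F {l1, l2}) (hl' : l' ∈ Submodule.span F {l1, l2}) :
    R (tens B l l') = 0 := by
  obtain ⟨p, rfl⟩ := D.L_e hl
  obtain ⟨q, rfl⟩ := D.L_e hl'
  have h1 : tens B (e p) (e q) = e * tens B p q * e := by
    rw [D.e_tens, D.tens_mul D.esa]
  have h2 := R_exe D.rb (le_refl 2) (by rw [D.one, pow_two, D.ee']) (tens B p q)
  rw [show 2 - 1 = 1 from rfl, pow_one, D.one] at h2
  rw [h1, h2]
  ext v
  exact D.hT _ _

theorem Z0 {x : Module.End F V} (h1 : ∀ v, x v ∈ Submodule.span F {l1, l2})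
    (h2 : ∀ v, e v = 0 → x v = 0) : R x = 0 := by
  rw [D.rep_of h2, map_add, D.BL (h1 _) l1L, D.BL (h1 _) l2L, add_zero]

theorem sq (x : Module.End F V) : R x * R x = R (jp x (R x)) := by
  have h1 := D.rb x x
  have h2 : jp (R x) (R x) = (2 : F) • (R x * R x) := by
    unfold jp
    rw [two_smul]
  rw [h2, jp_comm (R x) x, ← two_smul F, map_smul] at h1
  exact smul_right_injective _ (two_ne_zero (α := F)) h1

theorem SL (x : Module.End F V) {l : V} (hl : l ∈ Submodule.span F {l1, l2}) :
    R x l ∈ Submodule.span F {l1, l2} := by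
  obtain ⟨p, rfl⟩ := D.L_e hl
  apply D.han _ (D.hT x p)
  rw [D.sa, ← Module.End.mul_apply, D.sq, D.esa, D.hT, map_zero]

theorem SK (x : Module.End F V) {v : V} (hv : e v = 0) : e (R x v) = 0 := by
  apply D.ker_iff
  · rw [← D.sa, D.LK (D.SL x l1L) hv]
  · rw [← D.sa, D.LK (D.SL x l2L) hv]

theorem Re : R e = 0 := by
  have h1 := D.rb 1 1
  rw [D.one, jp_one] at h1
  have h2 : jp 1 e = (2 : F) • e := by
    unfold jp
    rw [one_mul, mul_one, two_smul]
  have h3 : e + e = (2 : F) • e := by rw [two_smul]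
  have h4 : jp e e = 0 := by
    unfold jp
    rw [D.ee', add_zero]
  rw [h4, h2, h3, ← add_smul, map_smul] at h1
  exact ((smul_eq_zero.1 h1.symm).resolve_left (by norm_num))

/-- `R (e ∘ z) = e ∘ R z - 2 R (R z)`. -/
theorem star (z : Module.End F V) : R (jp e z) = jp e (R z) - (2 : F) • R (R z) := by
  have h1 := D.rb 1 z
  have h2 : jp 1 (R z) = (2 : F) • R z := by
    unfold jp
    rw [one_mul, mul_one, two_smul]
  rw [D.one, h2, map_add, map_smul] at h1
  rw [h1]
  abel

theorem Kst {k : Module.End F V} (hk : R k = 0) (x : Module.End F V) : R (jp (R x) k) = 0 :=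
  K0 D.rb hk x

/-- `e ∘ Y = 2 R Y` for `Y = R (R x)`. -/
theorem eY (x : Module.End F V) : jp e (R (R x)) = (2 : F) • R (R (R x)) := by
  have h1 := D.star (R x)
  rw [jp_comm, D.Kst D.Re] at h1
  exact (sub_eq_zero.1 h1.symm)

theorem RT (y : Module.End F V) (u v : V) : jp (R y) (R (tens B u v)) =
    R (jp y (R (tens B u v))) + R (tens B (R y u) v) + R (tens B u (R y v)) := by
  rw [D.rb y (tens B u v), map_add]
  have h1 : jp (R y) (tens B u v) = tens B (R y u) v + tens B u (R y v) := by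
    unfold jp
    rw [mul_tens, D.tens_mul (D.sa y)]
  rw [h1, map_add]
  abel

omit [CharZero F] in
theorem jpT {y : Module.End F V} (hy : ∀ u v, B (y u) v = B u (y v)) (u v : V) :
    jp y (tens B u v) = tens B (y u) v + tens B u (y v) := by
  unfold jp
  rw [mul_tens, D.tens_mul hy]

end T0D

end Pool.Agent.MP_f4742e_al
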