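import Pool.Agent.Lib.MP_f4742e_al.X.T0Base

/-!
The case `(R 1) (R x) (R 1) = 0`: the action on `L`, and the image of `L ∘ (ker e)`.
-/

set_option autoImplicit false
set_option linter.unusedSectionVars false

namespace Pool.Agent.MP_f4742e_al

namespace T0D

variable {F V : Type*} [Field F] [CharZero F] [AddCommGroup V] [Module F V]
  {B : V →ₗ[F] V →ₗ[F] F} {R : Module.End F V →ₗ[F] Module.End F V}
  {e : Module.End F V} {l1 l2 d1 d2 : V} (D : T0D B R e l1 l2 d1 d2)

include D

theorem sq2 (x : Module.End F V) : ∃ z, R (R x) * R (R x) = R (R z) := by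
  refine ⟨jp x (R (R x)) + jp (R x) (R x), ?_⟩
  rw [D.sq (R x), D.rb x (R x), add_comm]

/-- `2 u e u = e u u + u u e` for `u = R (R x)`. -/
theorem comm_sq (x : Module.End F V) : R (R x) * e * R (R x) + R (R x) * e * R (R x) =
    e * R (R x) * R (R x) + R (R x) * R (R x) * e := by
  obtain ⟨u, hu⟩ : ∃ u, u = R (R x) := ⟨_, rfl⟩
  obtain ⟨z, hz⟩ := D.sq2 x
  have h1 : jp (R u) u = R (jp u u) := by
    have h2 := D.rb u (R x)
    rw [← hu] at h2
    have h3 : R (jp (R u) (R x)) = 0 := by
      rw [jp_comm]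
      apply D.Kst
      have h4 := D.eY x
      rw [← hu] at h4
      have h5 : R (jp e u) = 0 := by
        rw [jp_comm, hu]
        exact D.Kst D.Re _
      rw [h4, map_smul] at h5
      exact (smul_eq_zero.1 h5).resolve_left two_ne_zero
    rw [h2, map_add, h3, zero_add]
  have h2 : jp u u = (2 : F) • R (R z) := by
    rw [← hz, ← hu]
    unfold jp
    rw [two_smul]
  have h3 : jp (jp e u) u = jp e (jp u u) := by
    have h4 := D.eY x
    rw [← hu] at h4
    rw [h4, smul_jp, h1, h2, jp_smul, D.eY z, map_smul]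
  rw [← hu]
  unfold jp at h3
  have h4 : u * e * u + u * e * u - (e * u * u + u * u * e) =
      (e * u + u * e) * u + u * (e * u + u * e) - (e * (u * u + u * u) + (u * u + u * u) * e) := by
    noncomm_ring
  rw [← sub_eq_zero, h4, h3, sub_self]

/-- `Y e = e Y` for `Y = R (R x)`. -/
theorem comm (x : Module.End F V) (v : V) : R (R x) (e v) = e (R (R x) v) := by
  obtain ⟨u, hu⟩ : ∃ u, u = R (R x) := ⟨_, rfl⟩
  have hsa : ∀ p q, B (u p) q = B p (u q) := by
    intro p q
    rw [hu, D.sa]
  have hL : ∀ l ∈ Submodule.span F {l1, l2}, u l ∈ Submodule.span F {l1, l2} := by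
    intro l hl
    rw [hu]
    exact D.SL _ hl
  have hK : ∀ v, e v = 0 → e (u v) = 0 := by
    intro v hv
    rw [hu]
    exact D.SK _ hv
  have hc := D.comm_sq x
  rw [← hu] at hc
  rw [← hu]
  obtain ⟨w, hw⟩ : ∃ w, w = u * e - e * u := ⟨_, rfl⟩
  have hwv : ∀ v, w v = u (e v) - e (u v) := by
    intro v
    rw [hw]
    rfl
  have huw : ∀ v, u (w v) = w (u v) := by
    intro v
    have h1 := congrArg (fun f : Module.End F V => f v) hc
    simp only [LinearMap.add_apply, Module.End.mul_apply] at h1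
    rw [hwv, hwv, map_sub]
    rw [← sub_eq_zero]
    have h2 : u (u (e v)) - u (e (u v)) - (u (e (u v)) - e (u (u v))) =
        e (u (u v)) + u (u (e v)) - (u (e (u v)) + u (e (u v))) := by abel
    rw [h2, h1, sub_self]
  have hskew : ∀ p q, B (w p) q = - B p (w q) := by
    intro p q
    rw [hwv, hwv, map_sub, LinearMap.sub_apply, map_sub, hsa, D.esa, D.esa, hsa]
    ring
  have hwL : ∀ v, w v ∈ Submodule.span F {l1, l2} := by
    intro v
    rw [hwv]
    exact Submodule.sub_mem _ (hL _ (D.ran v)) (D.ran _)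
  have hwK : ∀ v, e v = 0 → w v = 0 := by
    intro v hv
    rw [hwv, hv, map_zero, hK v hv, sub_zero]
  have hself : ∀ p, B (w p) p = 0 := by
    intro p
    have h1 := hskew p p
    rw [D.sym p (w p)] at h1
    have h2 : (2 : F) * B (w p) p = 0 := by linear_combination h1
    exact (mul_eq_zero.1 h2).resolve_left two_ne_zero
  obtain ⟨κ, hκ⟩ : ∃ κ, κ = B (w d2) d1 := ⟨_, rfl⟩
  have hw2 : w d2 = κ • l1 := by
    rw [D.expL (hwL d2), D.sym d1, ← hκ, D.sym d2, hself, zero_smul, add_zero]
  have hw1 : w d1 = -(κ • l2) := by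
    rw [D.expL (hwL d1), D.sym d1, hself, zero_smul, zero_add, D.sym d2, hskew d1 d2,
      D.sym d1, ← hκ, neg_smul]
  have hκ0 : κ = 0 := by
    by_contra hne
    have hsy : ∀ p q, B (u p) q = B (u q) p := by
      intro p q
      rw [hsa, D.sym]
    have e1 : B (u l1) d1 = B (u l2) d2 := by
      have h1 := congrArg (fun v => B v d1) (huw d2)
      beta_reduce at h1
      rw [hw2, map_smul, map_smul, LinearMap.smul_apply, smul_eq_mul, hskew, hw1, map_neg,
        map_smul, smul_eq_mul] at h1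
      have h2 : κ * (B (u l1) d1 - B (u l2) d2) = 0 := by
        linear_combination h1 + κ * hsy d2 l2
      exact sub_eq_zero.1 ((mul_eq_zero.1 h2).resolve_left hne)
    have e2 : B (u l1) d2 = 0 := by
      have h1 := congrArg (fun v => B v d2) (huw d2)
      beta_reduce at h1
      rw [hw2, map_smul, map_smul, LinearMap.smul_apply, smul_eq_mul, hskew, hw2,
        map_smul, smul_eq_mul] at h1
      have h2 : κ * (2 * B (u l1) d2) = 0 := by linear_combination h1 - κ * hsy d2 l1
      exact (mul_eq_zero.1 ((mul_eq_zero.1 h2).resolve_left hne)).resolve_left two_ne_zero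
    have e3 : B (u l2) d1 = 0 := by
      have h1 := congrArg (fun v => B v d1) (huw d1)
      beta_reduce at h1
      rw [hw1, map_neg, map_smul, map_neg, map_smul, LinearMap.neg_apply, LinearMap.smul_apply,
        smul_eq_mul, hskew, hw1, map_neg, map_smul, smul_eq_mul] at h1
      have h2 : κ * (2 * B (u l2) d1) = 0 := by linear_combination -h1 - κ * hsy d1 l2
      exact (mul_eq_zero.1 ((mul_eq_zero.1 h2).resolve_left hne)).resolve_left two_ne_zero
    obtain ⟨α, hα⟩ : ∃ α, α = B (u l1) d1 := ⟨_, rfl⟩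
    have f1 : u l1 = α • l1 := by
      rw [D.expL (hL _ l1L), D.sym d1, ← hα, D.sym d2, e2, zero_smul, add_zero]
    have f2 : u l2 = α • l2 := by
      rw [D.expL (hL _ l2L), D.sym d1, e3, D.sym d2, ← e1, ← hα, zero_smul, zero_add]
    have f3 : ∀ l ∈ Submodule.span F {l1, l2}, u l = α • l := by
      intro l hl
      obtain ⟨p, q, rfl⟩ := Submodule.mem_span_pair.1 hl
      rw [map_add, map_smul, map_smul, f1, f2, smul_add, smul_comm p, smul_comm q]
    apply hne
    rw [hκ, hwv, map_sub, LinearMap.sub_apply, f3 _ (D.ran _), D.esa, hsa, f3 _ (D.ran _),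
      map_smul, map_smul, LinearMap.smul_apply, D.esa, sub_self]
  have hw0 : w = 0 := by
    rw [D.rep_of hwK, hw1, hw2, hκ0, zero_smul, neg_zero]
    ext v
    simp [tens_apply]
  have h1 := hwv v
  rw [hw0, LinearMap.zero_apply] at h1
  exact (sub_eq_zero.1 h1.symm)

/-- No `R (R x)` is the identity on `L`. -/
theorem not_one (x : Module.End F V)
    (h : ∀ l ∈ Submodule.span F {l1, l2}, R (R x) l = l) : False := by
  obtain ⟨u, hu⟩ : ∃ u, u = R (R x) := ⟨_, rfl⟩
  rw [← hu] at h
  have h1 : jp e u = (2 : F) • e := by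
    ext v
    unfold jp
    have h2 := D.comm x v
    rw [← hu] at h2
    rw [LinearMap.add_apply, Module.End.mul_apply, Module.End.mul_apply, ← h2, h _ (D.ran v),
      two_smul, LinearMap.add_apply]
  have h2 := D.eY x
  rw [← hu, h1] at h2
  have h3 : e = R u := smul_right_injective _ (two_ne_zero (α := F)) h2
  have h4 : R (u - 1) = 0 := by rw [map_sub, D.one, ← h3, sub_self]
  have h5 := D.Kst h4 x
  rw [jp_sub, jp_one, ← two_smul F, map_sub, map_smul, ← hu, sub_eq_zero] at h5
  have h6 := D.sq (R x)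
  rw [← hu, h5] at h6
  have h7 := congrArg (fun f : Module.End F V => f l1) h6
  simp only [Module.End.mul_apply, LinearMap.smul_apply] at h7
  rw [h _ l1L, h _ l1L, two_smul] at h7
  have h8 : l1 = 0 := by simpa using h7
  have h9 := D.b11
  rw [h8, map_zero, LinearMap.zero_apply] at h9
  exact zero_ne_one h9

/-- Cayley-Hamilton on `L`. -/
theorem CH {s : Module.End F V}
    (hs : ∀ l ∈ Submodule.span F {l1, l2}, s l ∈ Submodule.span F {l1, l2}) :
    ∃ t Δ : F, ∀ l ∈ Submodule.span F {l1, l2}, s (s l) = t • s l - Δ • l := by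
  obtain ⟨α, γ, h1⟩ := Submodule.mem_span_pair.1 (hs _ l1L)
  obtain ⟨β, δ, h2⟩ := Submodule.mem_span_pair.1 (hs _ l2L)
  refine ⟨α + δ, α * δ - β * γ, ?_⟩
  intro l hl
  obtain ⟨p, q, rfl⟩ := Submodule.mem_span_pair.1 hl
  simp only [map_add, map_smul, ← h1, ← h2]
  module

/-- `Y^2 = t Y` on `L` for `Y = R (R x)`. -/
theorem YY (x : Module.End F V) : ∃ t : F, ∀ l ∈ Submodule.span F {l1, l2},
    R (R x) (R (R x) l) = t • R (R x) l := by
  obtain ⟨t, Δ, h⟩ := D.CH (s := R (R x)) (fun l hl => D.SL _ hl)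
  refine ⟨t, ?_⟩
  by_cases hΔ : Δ = 0
  · intro l hl
    rw [h l hl, hΔ, zero_smul, sub_zero]
  · exfalso
    obtain ⟨z, hz⟩ := D.sq2 x
    apply D.not_one (Δ⁻¹ • (t • x - z))
    intro l hl
    have h1 : R (R z) l = R (R x) (R (R x) l) := by
      rw [← hz]
      rfl
    rw [map_smul, map_smul, map_sub, map_sub, map_smul, map_smul, LinearMap.smul_apply,
      LinearMap.sub_apply, LinearMap.smul_apply, h1, h l hl, sub_sub_cancel, smul_smul,
      inv_mul_cancel₀ hΔ, one_smul]

/-- The identity behind the symmetry modulo `L ⊗ L`. -/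
theorem I1 (y y0 : Module.End F V) :
    R (jp y (jp e (R y0)) - jp e (jp y (R y0))) =
      (jp (R y) (jp e (R y0)) - jp e (jp (R y) (R y0))) +
        R (jp e (jp (R y) y0) - jp (R y) (jp e y0)) := by
  have A1 : R (jp y (R y0)) = jp (R y) (R y0) - R (jp (R y) y0) := by
    rw [D.rb y y0, map_add]
    abel
  have A2 := D.star y0
  have A3 : ∀ h, R (jp y (R h)) = jp (R y) (R h) - R (jp (R y) h) := by
    intro h
    rw [D.rb y h, map_add]
    abel
  replace A3 := A3 ((2 : F) • R y0 + jp e y0)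
  have A2' : R ((2 : F) • R y0 + jp e y0) = jp e (R y0) := by
    rw [map_add, A2, map_smul]
    abel
  have A4 := D.star (jp y (R y0))
  have A5 := D.star (jp (R y) y0)
  rw [A2', jp_add, map_add, jp_smul, map_smul] at A3
  rw [A1, jp_sub, map_sub, smul_sub] at A4
  rw [map_sub, map_sub, A3, A4, A5]
  abel

/-- `B(s l, v) = B(l, s v)` on `L` and on `ker e`, for `s = R y0`, `y0` stabilizing `L`. -/
theorem I1' {y0 : Module.End F V} (hy : ∀ u v, B (y0 u) v = B u (y0 v))
    (hyL : ∀ l ∈ Submodule.span F {l1, l2}, y0 l ∈ Submodule.span F {l1, l2}) {l v : V}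
    (hl : l ∈ Submodule.span F {l1, l2}) (hv : e v = 0) :
    (∀ l' ∈ Submodule.span F {l1, l2}, R (tens B (R y0 l) v) l' = R (tens B l (R y0 v)) l') ∧
    (∀ v', e v' = 0 → R (tens B (R y0 l) v) v' = R (tens B l (R y0 v)) v') := by
  obtain ⟨p, rfl⟩ := D.L_e hl
  obtain ⟨s, hs⟩ : ∃ s, s = R y0 := ⟨_, rfl⟩
  have hssa : ∀ u v, B (s u) v = B u (s v) := by
    intro u v
    rw [hs, D.sa]
  obtain ⟨y, hyd⟩ : ∃ y, y = tens B p v + tens B v p := ⟨_, rfl⟩
  obtain ⟨w, hw⟩ : ∃ w, w = e * R y - R y * e := ⟨_, rfl⟩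
  have hwv : ∀ v, w v = e (R y v) - R y (e v) := by
    intro v
    rw [hw]
    rfl
  have hwL : ∀ v, w v ∈ Submodule.span F {l1, l2} := by
    intro v
    rw [hwv]
    exact Submodule.sub_mem _ (D.ran _) (D.SL _ (D.ran v))
  have hwK : ∀ v, e v = 0 → w v = 0 := by
    intro v hv
    rw [hwv, hv, map_zero, D.SK _ hv, sub_zero]
  have h1 := D.I1 y y0
  have h2 : jp e (jp (R y) y0) - jp (R y) (jp e y0) = w * y0 - y0 * w := by
    rw [hw]
    unfold jp
    noncomm_ring
  have h3 : jp (R y) (jp e (R y0)) - jp e (jp (R y) (R y0)) = R y0 * w - w * R y0 := by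
    rw [hw]
    unfold jp
    noncomm_ring
  have h4 : R (w * y0 - y0 * w) = 0 := by
    apply D.Z0
    · intro v
      rw [LinearMap.sub_apply]
      exact Submodule.sub_mem _ (hwL _) (hyL _ (hwL _))
    · intro v hv
      have h5 : e (y0 v) = 0 := by
        apply D.ker_iff
        · rw [← hy, D.LK (hyL _ l1L) hv]
        · rw [← hy, D.LK (hyL _ l2L) hv]
      rw [LinearMap.sub_apply, Module.End.mul_apply, Module.End.mul_apply, hwK _ h5, hwK _ hv,
        map_zero, sub_zero]
  have h5 : jp y (jp e (R y0)) - jp e (jp y (R y0)) = tens B (s (e p)) v - tens B (s v) (e p) -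
      tens B (e p) (s v) + tens B v (s (e p)) := by
    have h6 : jp y (jp e (R y0)) - jp e (jp y (R y0)) =
        R y0 * (e * y - y * e) - (e * y - y * e) * R y0 := by
      unfold jp
      noncomm_ring
    have h7 : e * y - y * e = tens B (e p) v - tens B v (e p) := by
      rw [hyd, mul_add, add_mul, D.e_tens, D.e_tens, D.tens_mul D.esa, D.tens_mul D.esa, hv]
      ext w
      simp [tens_apply]
    rw [h6, h7, ← hs, mul_sub, sub_mul, mul_tens, mul_tens, D.tens_mul hssa, D.tens_mul hssa]
    abel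
  rw [h2, h3, h4, h5, add_zero, map_add, map_sub, map_sub, D.tr (s v) (e p), D.tr v (s (e p)),
    ← hs] at h1
  have h6 : (2 : F) • (R (tens B (s (e p)) v) - R (tens B (e p) (s v))) = s * w - w * s := by
    rw [← h1, two_smul]
    abel
  rw [← hs]
  constructor
  · intro l' hl'
    have h7 := congrArg (fun f : Module.End F V => f l') h6
    simp only [LinearMap.smul_apply, LinearMap.sub_apply, Module.End.mul_apply] at h7
    have h8 : w l' = 0 := hwK _ (D.eL hl')
    have h9 : w (s l') = 0 := by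
      rw [hs]
      exact hwK _ (D.eL (D.SL _ hl'))
    rw [h8, h9, map_zero, sub_zero] at h7
    exact sub_eq_zero.1 ((smul_eq_zero.1 h7).resolve_left two_ne_zero)
  · intro v' hv'
    have h7 := congrArg (fun f : Module.End F V => f v') h6
    simp only [LinearMap.smul_apply, LinearMap.sub_apply, Module.End.mul_apply] at h7
    have h8 : w v' = 0 := hwK _ hv'
    have h9 : w (s v') = 0 := by
      rw [hs]
      exact hwK _ (D.SK _ hv')
    rw [h8, h9, map_zero, sub_zero] at h7
    exact sub_eq_zero.1 ((smul_eq_zero.1 h7).resolve_left two_ne_zero)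

end T0D

end Pool.Agent.MP_f4742e_al
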