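import Pool.Agent.Lib.MP_f4742e_al.X.T0C

/-!
The case `(R 1) (R x) (R 1) = 0`: the image of `L ∘ (ker e)` is nil.
-/

set_option autoImplicit false
set_option linter.unusedSectionVars false

namespace Pool.Agent.MP_f4742e_al

/-- `c` is the image of an element of `L ∘ ker e`. -/
def InC {F V : Type*} [Field F] [AddCommGroup V] [Module F V] (B : V →ₗ[F] V →ₗ[F] F)
    (R : Module.End F V →ₗ[F] Module.End F V) (e : Module.End F V) (l1 l2 : V)
    (c : Module.End F V) : Prop :=
  ∃ a b, e a = 0 ∧ e b = 0 ∧ c = R (tens B l1 a) + R (tens B l2 b)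

section

variable {F V : Type*} [Field F] [AddCommGroup V] [Module F V]
  {B : V →ₗ[F] V →ₗ[F] F} {R : Module.End F V →ₗ[F] Module.End F V}
  {e : Module.End F V} {l1 l2 : V}

theorem InC.add {c c' : Module.End F V} (h : InC B R e l1 l2 c) (h' : InC B R e l1 l2 c') :
    InC B R e l1 l2 (c + c') := by
  obtain ⟨a, b, ha, hb, rfl⟩ := h
  obtain ⟨a', b', ha', hb', rfl⟩ := h'
  refine ⟨a + a', b + b', by rw [map_add, ha, ha', add_zero], by rw [map_add, hb, hb', add_zero],
    ?_⟩
  rw [tens_add_right, tens_add_right, map_add, map_add]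
  abel

theorem InC.smul {c : Module.End F V} (h : InC B R e l1 l2 c) (k : F) :
    InC B R e l1 l2 (k • c) := by
  obtain ⟨a, b, ha, hb, rfl⟩ := h
  refine ⟨k • a, k • b, by rw [map_smul, ha, smul_zero], by rw [map_smul, hb, smul_zero], ?_⟩
  rw [tens_smul_right, tens_smul_right, map_smul, map_smul, smul_add]

theorem InC.sub {c c' : Module.End F V} (h : InC B R e l1 l2 c) (h' : InC B R e l1 l2 c') :
    InC B R e l1 l2 (c - c') := by
  have h1 := h.add (h'.smul (-1))
  rw [neg_one_smul, ← sub_eq_add_neg] at h1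
  exact h1

theorem InC.T {l a : V} (hl : l ∈ Submodule.span F {l1, l2}) (ha : e a = 0) :
    InC B R e l1 l2 (R (tens B l a)) := by
  obtain ⟨p, q, rfl⟩ := Submodule.mem_span_pair.1 hl
  refine ⟨p • a, q • a, by rw [map_smul, ha, smul_zero], by rw [map_smul, ha, smul_zero], ?_⟩
  rw [tens_add_left, map_add, tens_smul_left, tens_smul_left, tens_smul_right, tens_smul_right]

end

namespace T0D

variable {F V : Type*} [Field F] [CharZero F] [AddCommGroup V] [Module F V]
  {B : V →ₗ[F] V →ₗ[F] F} {R : Module.End F V →ₗ[F] Module.End F V}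
  {e : Module.End F V} {l1 l2 d1 d2 : V} (D : T0D B R e l1 l2 d1 d2)

include D

theorem C_y0 {c : Module.End F V} (h : InC B R e l1 l2 c) : ∃ y0 : Module.End F V,
    (∀ u v, B (y0 u) v = B u (y0 v)) ∧
    (∀ l ∈ Submodule.span F {l1, l2}, y0 l = 0) ∧ c = R y0 := by
  obtain ⟨a, b, ha, hb, rfl⟩ := h
  refine ⟨(2 : F)⁻¹ • (tens B l1 a + tens B a l1 + tens B l2 b + tens B b l2), ?_, ?_, ?_⟩
  · intro u v
    simp only [LinearMap.smul_apply, LinearMap.add_apply, tens_apply, map_smul, map_add,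
      smul_eq_mul]
    rw [D.sym u l1, D.sym u a, D.sym u l2, D.sym u b]
    ring
  · intro l hl
    simp only [LinearMap.smul_apply, LinearMap.add_apply, tens_apply]
    rw [D.LK' hl ha, D.LK' hl hb, D.LK l1L (D.eL hl), D.LK l2L (D.eL hl)]
    simp
  · rw [map_smul, map_add, map_add, map_add, D.tr a l1, D.tr b l2]
    module

theorem C_I1 {c : Module.End F V} (h : InC B R e l1 l2 c) {l v : V}
    (hl : l ∈ Submodule.span F {l1, l2}) (hv : e v = 0) :
    (∀ l' ∈ Submodule.span F {l1, l2}, R (tens B (c l) v) l' = R (tens B l (c v)) l') ∧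
    (∀ v', e v' = 0 → R (tens B (c l) v) v' = R (tens B l (c v)) v') := by
  obtain ⟨y0, h1, h2, rfl⟩ := D.C_y0 h
  exact D.I1' h1 (fun l hl => by rw [h2 l hl]; exact Submodule.zero_mem _) hl hv

theorem C_sa {c : Module.End F V} (h : InC B R e l1 l2 c) (u v : V) : B (c u) v = B u (c v) := by
  obtain ⟨y0, h1, h2, rfl⟩ := D.C_y0 h
  exact D.sa _ _ _

theorem C_L {c : Module.End F V} (h : InC B R e l1 l2 c) {l : V}
    (hl : l ∈ Submodule.span F {l1, l2}) : c l ∈ Submodule.span F {l1, l2} := by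
  obtain ⟨y0, h1, h2, rfl⟩ := D.C_y0 h
  exact D.SL _ hl

theorem C_K {c : Module.End F V} (h : InC B R e l1 l2 c) {v : V} (hv : e v = 0) :
    e (c v) = 0 := by
  obtain ⟨y0, h1, h2, rfl⟩ := D.C_y0 h
  exact D.SK _ hv

theorem C_sq {a b : V} : (R (tens B l1 a) + R (tens B l2 b)) *
    (R (tens B l1 a) + R (tens B l2 b)) =
    R (tens B ((R (tens B l1 a) + R (tens B l2 b)) l1) a) +
    R (tens B l1 ((R (tens B l1 a) + R (tens B l2 b)) a)) +
    (R (tens B ((R (tens B l1 a) + R (tens B l2 b)) l2) b) +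
    R (tens B l2 ((R (tens B l1 a) + R (tens B l2 b)) b))) := by
  have h1 := D.sq (tens B l1 a + tens B l2 b)
  rw [jp_comm, map_add, jp_add] at h1
  have hsa : ∀ u v, B ((R (tens B l1 a) + R (tens B l2 b)) u) v =
      B u ((R (tens B l1 a) + R (tens B l2 b)) v) := by
    intro u v
    rw [← map_add, D.sa]
  rw [h1, D.jpT hsa, D.jpT hsa, map_add, map_add, map_add]

theorem C_sq_mem {c : Module.End F V} (h : InC B R e l1 l2 c) : InC B R e l1 l2 (c * c) := by
  have h0 := h
  obtain ⟨a, b, ha, hb, hc⟩ := h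
  rw [hc, D.C_sq, ← hc]
  exact ((InC.T (D.C_L h0 l1L) ha).add (InC.T l1L (D.C_K h0 ha))).add
    ((InC.T (D.C_L h0 l2L) hb).add (InC.T l2L (D.C_K h0 hb)))

/-- No element of `C` is a nonzero scalar on `L`. -/
theorem C_scal {c : Module.End F V} (h : InC B R e l1 l2 c) {r : F}
    (hr : ∀ l ∈ Submodule.span F {l1, l2}, c l = r • l) : r = 0 := by
  have h0 := h
  obtain ⟨a, b, ha, hb, hc⟩ := h
  have h1 := congrArg (fun f : Module.End F V => f l1) (D.C_sq (a := a) (b := b))
  rw [← hc] at h1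
  simp only [Module.End.mul_apply, LinearMap.add_apply] at h1
  rw [← (D.C_I1 h0 l1L ha).1 l1 l1L, ← (D.C_I1 h0 l2L hb).1 l1 l1L, hr l1 l1L, hr l2 l2L,
    map_smul, hr l1 l1L, tens_smul_left, tens_smul_left, map_smul, map_smul] at h1
  simp only [LinearMap.smul_apply] at h1
  have h2 : R (tens B l1 a) l1 + R (tens B l2 b) l1 = r • l1 := by
    rw [← hr l1 l1L, hc]
    rfl
  have h3 : (r * r) • l1 = 0 := by
    have h4 : r • r • l1 = (2 * r) • (R (tens B l1 a) l1 + R (tens B l2 b) l1) := by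
      rw [h1]
      module
    rw [h2] at h4
    have h5 : (r * r) • l1 = (2 * r) • r • l1 - r • r • l1 := by module
    rw [h5, ← h4, sub_self]
  have h4 : l1 ≠ 0 := by
    intro h5
    have h6 := D.b11
    rw [h5, map_zero, LinearMap.zero_apply] at h6
    exact zero_ne_one h6
  have h5 := (smul_eq_zero.1 h3).resolve_right h4
  exact mul_self_eq_zero.1 h5

theorem C_tr {c : Module.End F V} (h : InC B R e l1 l2 c) : ∃ t : F,
    ∀ l ∈ Submodule.span F {l1, l2}, c (c l) = t • c l := by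
  obtain ⟨t, Δ, h1⟩ := D.CH (s := c) (fun l hl => D.C_L h hl)
  refine ⟨t, ?_⟩
  have h2 : -Δ = 0 := by
    apply D.C_scal ((D.C_sq_mem h).sub (h.smul t))
    intro l hl
    rw [LinearMap.sub_apply, Module.End.mul_apply, h1 l hl, LinearMap.smul_apply, neg_smul]
    abel
  intro l hl
  rw [h1 l hl, neg_eq_zero.1 h2, zero_smul, sub_zero]

theorem C_cube {a b : V} (ha : e a = 0) (hb : e b = 0) {c : Module.End F V}
    (hc : c = R (tens B l1 a) + R (tens B l2 b)) :
    c * (c * c) = (R (tens B (c (c l1)) a) + R (tens B (c l1) (c a)) + R (tens B l1 (c (c a)))) +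
      (R (tens B (c (c l2)) b) + R (tens B (c l2) (c b)) + R (tens B l2 (c (c b)))) := by
  have h0 : InC B R e l1 l2 c := ⟨a, b, ha, hb, hc⟩
  have hsa := D.C_sa h0
  have hsa2 : ∀ u v, B ((c * c) u) v = B u ((c * c) v) := by
    intro u v
    rw [Module.End.mul_apply, Module.End.mul_apply, hsa, hsa]
  obtain ⟨x, hx⟩ : ∃ x, x = tens B l1 a + tens B l2 b := ⟨_, rfl⟩
  have hRx : R x = c := by rw [hx, map_add, hc]
  have h1 := D.sq x
  rw [hRx] at h1
  have h2 := D.rb x (jp x c)
  rw [hRx, ← h1] at h2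
  have h3 : jp c (c * c) = (2 : F) • (c * (c * c)) := by
    unfold jp
    rw [two_smul, mul_assoc]
  have h4 : jp x c = tens B (c l1) a + tens B l1 (c a) + (tens B (c l2) b + tens B l2 (c b)) := by
    rw [jp_comm, hx, jp_add, D.jpT hsa, D.jpT hsa]
  have h5 : jp x (c * c) = tens B (c (c l1)) a + tens B l1 (c (c a)) +
      (tens B (c (c l2)) b + tens B l2 (c (c b))) := by
    rw [jp_comm, hx, jp_add, D.jpT hsa2, D.jpT hsa2]
    rfl
  rw [h3, h4, h5, jp_add, jp_add, jp_add, D.jpT hsa, D.jpT hsa, D.jpT hsa, D.jpT hsa] at h2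
  apply smul_right_injective _ (two_ne_zero (α := F))
  change (2 : F) • _ = (2 : F) • _
  rw [h2]
  simp only [map_add]
  module

/-- Elements of `C` have square zero on `L` and map `ker e` to `L`. -/
theorem C_all {c : Module.End F V} (h : InC B R e l1 l2 c) :
    (∀ l ∈ Submodule.span F {l1, l2}, c (c l) = 0) ∧
    ∀ v, e v = 0 → c v ∈ Submodule.span F {l1, l2} := by
  have h0 := h
  obtain ⟨t, ht⟩ := D.C_tr h
  obtain ⟨a, b, ha, hb, hc⟩ := h
  have hsq := D.C_sq (a := a) (b := b)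
  rw [← hc] at hsq
  have hcu := D.C_cube ha hb hc
  have hcuL : ∀ l ∈ Submodule.span F {l1, l2}, c (c (c l)) =
      (3 : F) • (R (tens B (c (c l1)) a) l + R (tens B (c (c l2)) b) l) := by
    intro l hl
    have h1 := congrArg (fun f : Module.End F V => f l) hcu
    simp only [Module.End.mul_apply, LinearMap.add_apply] at h1
    rw [h1, ← (D.C_I1 h0 l1L (D.C_K h0 ha)).1 l hl, ← (D.C_I1 h0 l2L (D.C_K h0 hb)).1 l hl,
      ← (D.C_I1 h0 (D.C_L h0 l1L) ha).1 l hl, ← (D.C_I1 h0 (D.C_L h0 l2L) hb).1 l hl]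
    module
  have hcuK : ∀ v, e v = 0 → c (c (c v)) =
      (3 : F) • (R (tens B (c (c l1)) a) v + R (tens B (c (c l2)) b) v) := by
    intro l hl
    have h1 := congrArg (fun f : Module.End F V => f l) hcu
    simp only [Module.End.mul_apply, LinearMap.add_apply] at h1
    rw [h1, ← (D.C_I1 h0 l1L (D.C_K h0 ha)).2 l hl, ← (D.C_I1 h0 l2L (D.C_K h0 hb)).2 l hl,
      ← (D.C_I1 h0 (D.C_L h0 l1L) ha).2 l hl, ← (D.C_I1 h0 (D.C_L h0 l2L) hb).2 l hl]
    module
  have hsqL : ∀ l ∈ Submodule.span F {l1, l2}, c (c l) =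
      (2 : F) • (R (tens B (c l1) a) l + R (tens B (c l2) b) l) := by
    intro l hl
    have h1 := congrArg (fun f : Module.End F V => f l) hsq
    simp only [Module.End.mul_apply, LinearMap.add_apply] at h1
    rw [h1, ← (D.C_I1 h0 l1L ha).1 l hl, ← (D.C_I1 h0 l2L hb).1 l hl]
    module
  have hL : ∀ l ∈ Submodule.span F {l1, l2}, c (c l) = 0 := by
    intro l hl
    have h1 := hcuL l hl
    rw [ht l1 l1L, ht l2 l2L, tens_smul_left, tens_smul_left, map_smul, map_smul,
      LinearMap.smul_apply, LinearMap.smul_apply, ← smul_add] at h1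
    have h2 : (2 : F) • c (c (c l)) = (3 * t) • c (c l) := by
      rw [h1, hsqL l hl]
      module
    rw [ht l hl, map_smul, ht l hl] at h2
    have h3 : (t * t) • c l = 0 := by
      have h4 : (t * t) • c l = (3 * t) • t • c l - (2 : F) • t • t • c l := by module
      rw [h4, h2, sub_self]
    rw [ht l hl]
    rcases smul_eq_zero.1 h3 with h4 | h4
    · rw [mul_self_eq_zero.1 h4, zero_smul]
    · rw [h4, smul_zero]
  refine ⟨hL, ?_⟩
  have hsa := D.C_sa h0
  have h3 : ∀ v, e v = 0 → c (c (c v)) = 0 := by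
    intro v hv
    rw [hcuK v hv, hL l1 l1L, hL l2 l2L]
    have h4 : ∀ b, tens B (0 : V) b = 0 := by
      intro b
      ext w
      simp [tens_apply]
    rw [h4, h4]
    simp
  intro v hv
  have h4 : c (c v) ∈ Submodule.span F {l1, l2} := by
    apply D.han _ (D.C_K h0 (D.C_K h0 hv))
    rw [hsa, hsa, h3 v hv, map_zero, map_zero]
  apply D.han _ (D.C_K h0 hv)
  rw [hsa]
  exact D.LK' h4 hv

end T0D

end Pool.Agent.MP_f4742e_al
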