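import Pool.Agent.Lib.MP_f4742e_al.X.T0N

/-!
`(R 1)^2 = 0`, `R 1` of rank two, `(R 1) (R x) (R 1) = 0` and `ker (R 1)` anisotropic modulo the
range of `R 1`: then `R^3 = 0`.
-/

set_option autoImplicit false
set_option linter.unusedSectionVars false

namespace Pool.Agent.MP_f4742e_al

section

variable {F V : Type*} [Field F] [AddCommGroup V] [Module F V]

/-- Dual vectors. -/
theorem t0_exists_dual {B : V →ₗ[F] V →ₗ[F] F} (nd : ∀ u, (∀ v, B u v = 0) → u = 0) {m1 m2 : V}
    (hi : ∀ a b : F, a • m1 + b • m2 = 0 → a = 0 ∧ b = 0) :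
    ∃ d1 d2, B m1 d1 = 1 ∧ B m1 d2 = 0 ∧ B m2 d1 = 0 ∧ B m2 d2 = 1 := by
  have h1 : m1 ≠ 0 := by
    intro h
    have h2 := (hi 1 0 (by rw [h]; simp)).1
    exact one_ne_zero h2
  obtain ⟨v1, hv1⟩ : ∃ v1, B m1 v1 ≠ 0 := by
    by_contra h
    push Not at h
    exact h1 (nd _ h)
  obtain ⟨m, hm⟩ : ∃ m, m = m2 - (B m2 v1 / B m1 v1) • m1 := ⟨_, rfl⟩
  have hm0 : m ≠ 0 := by
    intro h
    have h2 := (hi (-(B m2 v1 / B m1 v1)) 1 (by rw [← h, hm]; module)).2
    exact one_ne_zero h2
  obtain ⟨v2, hv2⟩ : ∃ v2, B m v2 ≠ 0 := by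
    by_contra h
    push Not at h
    exact hm0 (nd _ h)
  have hmv1 : B m v1 = 0 := by
    rw [hm, map_sub, map_smul, LinearMap.sub_apply, LinearMap.smul_apply, smul_eq_mul]
    field_simp
    ring
  obtain ⟨d2, hd2⟩ : ∃ d2, d2 = (B m v2)⁻¹ • (v2 - (B m1 v2 / B m1 v1) • v1) := ⟨_, rfl⟩
  have e1 : B m1 d2 = 0 := by
    rw [hd2, map_smul, map_sub, map_smul, smul_eq_mul, smul_eq_mul]
    field_simp
    ring
  have e2 : B m d2 = 1 := by
    rw [hd2, map_smul, map_sub, map_smul, smul_eq_mul, smul_eq_mul, hmv1, mul_zero, sub_zero,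
      inv_mul_cancel₀ hv2]
  have e3 : B m2 d2 = 1 := by
    have h2 : m2 = m + (B m2 v1 / B m1 v1) • m1 := by rw [hm]; abel
    rw [h2, map_add, map_smul, LinearMap.add_apply, LinearMap.smul_apply, e1, e2, smul_zero,
      add_zero]
  refine ⟨(B m1 v1)⁻¹ • v1 - (B m2 v1 / B m1 v1) • d2, d2, ?_, e1, ?_, e3⟩
  · rw [map_sub, map_smul, map_smul, e1, smul_eq_mul, inv_mul_cancel₀ hv1, smul_zero, sub_zero]
  · rw [map_sub, map_smul, map_smul, e3, smul_eq_mul, smul_eq_mul]
    field_simp
    ring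

end

namespace T0D

variable {F V : Type*} [Field F] [CharZero F] [AddCommGroup V] [Module F V]
  {B : V →ₗ[F] V →ₗ[F] F} {R : Module.End F V →ₗ[F] Module.End F V}
  {e : Module.End F V} {l1 l2 d1 d2 : V} (D : T0D B R e l1 l2 d1 d2)

include D

theorem rebase {m1 m2 : V} (h1 : m1 ∈ Submodule.span F {l1, l2})
    (h2 : m2 ∈ Submodule.span F {l1, l2})
    (hi : ∀ a b : F, a • m1 + b • m2 = 0 → a = 0 ∧ b = 0) :
    ∃ d1' d2', T0D B R e m1 m2 d1' d2' := by
  obtain ⟨d1', d2', e1, e2, e3, e4⟩ := t0_exists_dual D.nd hi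
  have hspan : Submodule.span F {l1, l2} = Submodule.span F {m1, m2} := by
    obtain ⟨p, q, hpq⟩ := Submodule.mem_span_pair.1 h1
    obtain ⟨r, s, hrs⟩ := Submodule.mem_span_pair.1 h2
    have hΔ : p * s - q * r ≠ 0 := by
      intro h
      have h3 := hi s (-q) (by
        rw [← hpq, ← hrs]
        have : s • (p • l1 + q • l2) + -q • (r • l1 + s • l2) = (p * s - q * r) • l1 := by
          module
        rw [this, h, zero_smul])
      have h4 := hi (-r) p (by
        rw [← hpq, ← hrs]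
        have : -r • (p • l1 + q • l2) + p • (r • l1 + s • l2) = (p * s - q * r) • l2 := by
          module
        rw [this, h, zero_smul])
      have h5 : m1 = 0 := by
        rw [← hpq, h4.2, neg_eq_zero.1 h3.2]
        simp
      have h6 := (hi 1 0 (by rw [h5]; simp)).1
      exact one_ne_zero h6
    apply le_antisymm
    · rw [Submodule.span_le]
      rintro x (rfl | rfl)
      · refine Submodule.mem_span_pair.2 ⟨s / (p * s - q * r), -q / (p * s - q * r), ?_⟩
        rw [← hpq, ← hrs]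
        have : (s / (p * s - q * r)) • (p • x + q • l2) +
            (-q / (p * s - q * r)) • (r • x + s • l2) =
            ((p * s - q * r) / (p * s - q * r)) • x := by
          match_scalars <;> ring
        rw [this, div_self hΔ, one_smul]
      · refine Submodule.mem_span_pair.2 ⟨-r / (p * s - q * r), p / (p * s - q * r), ?_⟩
        rw [← hpq, ← hrs]
        have : (-r / (p * s - q * r)) • (p • l1 + q • x) +
            (p / (p * s - q * r)) • (r • l1 + s • x) =
            ((p * s - q * r) / (p * s - q * r)) • x := by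
          match_scalars <;> ring
        rw [this, div_self hΔ, one_smul]
    · rw [Submodule.span_le]
      rintro x (rfl | rfl)
      · exact h1
      · exact h2
  refine ⟨d1', d2', ?_⟩
  exact
    { rb := D.rb
      one := D.one
      sym := D.sym
      nd := D.nd
      sa := D.sa
      tr := D.tr
      hT := D.hT
      ee := D.ee
      han := fun v h3 h4 => by rw [← hspan]; exact D.han v h3 h4
      ran := fun v => by rw [← hspan]; exact D.ran v
      l1r := D.L_e h1
      l2r := D.L_e h2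
      b11 := e1
      b12 := e2
      b21 := e3
      b22 := e4 }

theorem P_false (hsy : ∀ x, ∃ y : Module.End F V, (∀ u v, B (y u) v = B u (y v)) ∧ R y = R x)
    (hU : ∀ p q r : F, ∃ y : Module.End F V, (∀ u v, B (y u) v = B u (y v)) ∧
      B l1 (y l1) = p ∧ B l1 (y l2) = q ∧ B l2 (y l2) = r ∧
      (∀ l ∈ Submodule.span F {l1, l2}, R y l = 0) ∧
      ∀ v, e v = 0 → R y v ∈ Submodule.span F {l1, l2}) {x : Module.End F V}
    (hY1 : R (R x) l1 = l1) : False := by
  obtain ⟨c, hc, hcL, -⟩ := D.RR_C hsy hU x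
  have h1 := (D.C_all hc).1 l1 l1L
  rw [← hcL l1 l1L, hY1, ← hcL l1 l1L, hY1] at h1
  exact D.l1_ne h1

theorem t0_zero [FiniteDimensional F V]
    (hsy : ∀ x, ∃ y : Module.End F V, (∀ u v, B (y u) v = B u (y v)) ∧ R y = R x)
    (x : Module.End F V) : R (R (R x)) = 0 := by
  by_contra hne
  obtain ⟨t, ht⟩ := D.YY x
  obtain ⟨l0, hl0, hYl0⟩ : ∃ l ∈ Submodule.span F {l1, l2}, R (R x) l ≠ 0 := by
    by_contra h
    push Not at h
    apply hne
    have h1 := D.eY x
    have h2 : jp e (R (R x)) = 0 := by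
      ext v
      unfold jp
      rw [LinearMap.add_apply, Module.End.mul_apply, Module.End.mul_apply, ← D.comm,
        h _ (D.ran v), add_zero, LinearMap.zero_apply]
    rw [h2] at h1
    exact (smul_eq_zero.1 h1.symm).resolve_left two_ne_zero
  by_cases ht0 : t = 0
  · -- nilpotent
    subst ht0
    simp only [zero_smul] at ht
    have hi : ∀ a b : F, a • R (R x) l0 + b • l0 = 0 → a = 0 ∧ b = 0 := by
      intro a b hab
      have h1 := congrArg (fun v => R (R x) v) hab
      simp only [map_add, map_smul, ht l0 hl0, smul_zero, zero_add, map_zero] at h1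
      have hb : b = 0 := (smul_eq_zero.1 h1).resolve_right hYl0
      rw [hb, zero_smul, add_zero] at hab
      exact ⟨(smul_eq_zero.1 hab).resolve_right hYl0, hb⟩
    obtain ⟨m1, hm1⟩ : ∃ m1, m1 = R (R x) l0 := ⟨_, rfl⟩
    have hm1L : m1 ∈ Submodule.span F {l1, l2} := by
      rw [hm1]
      exact D.SL _ hl0
    have hYm1 : R (R x) m1 = 0 := by rw [hm1, ht l0 hl0]
    rw [← hm1] at hi hYl0
    obtain ⟨a1, a2, D1⟩ := D.rebase hm1L hl0 hi
    obtain ⟨p, q, hpq⟩ := Submodule.mem_span_pair.1 (D1.ran a2)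
    obtain ⟨p', q', hpq'⟩ := Submodule.mem_span_pair.1 (D1.ran a1)
    have e11 : B a1 m1 = 1 := by rw [D1.sym, D1.b11]
    have e12 : B a1 l0 = 0 := by rw [D1.sym, D1.b21]
    have e21 : B a2 m1 = 0 := by rw [D1.sym, D1.b12]
    have e22 : B a2 l0 = 1 := by rw [D1.sym, D1.b22]
    have hq : q = 0 := by
      have h1 := D1.comm x a2
      rw [← hpq, map_add, map_smul, map_smul, hYm1, ← hm1, smul_zero, zero_add] at h1
      have h2 := congrArg (fun v => B v a1) h1
      simp only [map_smul, LinearMap.smul_apply, D1.b11, smul_eq_mul, mul_one] at h2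
      rw [D1.esa, D1.sa, ← hpq', map_add, map_smul, map_smul, hYm1, ← hm1, smul_zero, zero_add,
        map_smul, e21, smul_zero] at h2
      exact h2
    rw [hq, zero_smul, add_zero] at hpq
    have hq' : q' = p := by
      have h1 := D1.esa a1 a2
      rw [← hpq, ← hpq', map_add, map_smul, map_smul, map_smul, LinearMap.add_apply,
        LinearMap.smul_apply, LinearMap.smul_apply, D1.b12, D1.b22, e11] at h1
      simpa using h1
    have he1 : e = p' • tens B m1 m1 + p • (tens B l0 m1 + tens B m1 l0) := by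
      rw [D1.rep_of (x := e) (fun v hv => hv), ← hpq, ← hpq', hq', tens_add_left, tens_smul_left,
        tens_smul_left, tens_smul_left]
      module
    have hp0 : p ≠ 0 := by
      intro h
      rw [h, zero_smul, add_zero] at he1
      obtain ⟨w, hw⟩ := D1.l2r
      rw [he1, LinearMap.smul_apply, tens_apply, smul_smul] at hw
      have h1 := (hi (p' * B m1 w) (-1) (by rw [hw]; module)).2
      exact one_ne_zero (neg_eq_zero.1 h1)
    obtain ⟨m2, hm2⟩ : ∃ m2, m2 = p • l0 + (p' / 2) • m1 := ⟨_, rfl⟩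
    have hm2L : m2 ∈ Submodule.span F {m1, l0} :=
      Submodule.mem_span_pair.2 ⟨p' / 2, p, by rw [hm2, add_comm]⟩
    have hi2 : ∀ a b : F, a • m1 + b • m2 = 0 → a = 0 ∧ b = 0 := by
      intro a b hab
      have h1 := hi (a + b * (p' / 2)) (b * p) (by rw [← hab, hm2]; module)
      have h2 : b = 0 := (mul_eq_zero.1 h1.2).resolve_right hp0
      rw [h2, zero_mul, add_zero] at h1
      exact ⟨h1.1, h2⟩
    obtain ⟨b1, b2, D2⟩ := D1.rebase (Submodule.subset_span (by simp)) hm2L hi2
    have he2 : e = tens B m1 m2 + tens B m2 m1 := by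
      rw [he1, hm2, tens_add_left, tens_add_right, tens_smul_left, tens_smul_right,
        tens_smul_left, tens_smul_right]
      match_scalars <;> ring
    have hx1 : R (R (p⁻¹ • x)) m1 = 0 := by
      rw [map_smul, map_smul, LinearMap.smul_apply, hYm1, smul_zero]
    have hx2 : R (R (p⁻¹ • x)) m2 = m1 := by
      rw [map_smul, map_smul, LinearMap.smul_apply, hm2, map_add, map_smul, map_smul, hYm1,
        ← hm1, smul_zero, add_zero, smul_smul, inv_mul_cancel₀ hp0, one_smul]
    refine D2.N_false he2 hsy (D2.U_all (D2.qsp.nilp ?_)) hx1 hx2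
    refine ⟨R (p⁻¹ • x), D2.sa _, ?_, ?_, ?_, ?_, ?_⟩
    · rw [hx1]
      simp
    · rw [hx2]
      simp
    · exact D2.LL l1L (D2.SL _ l1L)
    · exact D2.LL l1L (D2.SL _ l2L)
    · exact D2.LL l2L (D2.SL _ l2L)
  · -- idempotent
    obtain ⟨x', hx'⟩ : ∃ x', x' = t⁻¹ • x := ⟨_, rfl⟩
    have hY' : ∀ v, R (R x') v = t⁻¹ • R (R x) v := by
      intro v
      rw [hx', map_smul, map_smul, LinearMap.smul_apply]
    have hid : ∀ l ∈ Submodule.span F {l1, l2}, R (R x') (R (R x') l) = R (R x') l := by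
      intro l hl
      rw [hY', hY', map_smul, ht l hl, smul_smul t⁻¹ t, inv_mul_cancel₀ ht0, one_smul]
    obtain ⟨l3, hl3, hne3⟩ : ∃ l ∈ Submodule.span F {l1, l2}, l - R (R x') l ≠ 0 := by
      by_contra h
      push Not at h
      exact D.not_one x' (fun l hl => (sub_eq_zero.1 (h l hl)).symm)
    obtain ⟨m1, hm1⟩ : ∃ m1, m1 = R (R x') l0 := ⟨_, rfl⟩
    obtain ⟨m2, hm2⟩ : ∃ m2, m2 = l3 - R (R x') l3 := ⟨_, rfl⟩
    rw [← hm2] at hne3
    have hm10 : m1 ≠ 0 := by
      rw [hm1, hY']
      exact smul_ne_zero (inv_ne_zero ht0) hYl0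
    have f1 : R (R x') m1 = m1 := by rw [hm1, hid l0 hl0]
    have f2 : R (R x') m2 = 0 := by rw [hm2, map_sub, hid l3 hl3, sub_self]
    have hi : ∀ a b : F, a • m1 + b • m2 = 0 → a = 0 ∧ b = 0 := by
      intro a b hab
      have h1 := congrArg (fun v => R (R x') v) hab
      simp only [map_add, map_smul, f1, f2, smul_zero, add_zero, map_zero] at h1
      have ha : a = 0 := (smul_eq_zero.1 h1).resolve_right hm10
      rw [ha, zero_smul, zero_add] at hab
      exact ⟨ha, (smul_eq_zero.1 hab).resolve_right hne3⟩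
    have hm1L : m1 ∈ Submodule.span F {l1, l2} := by
      rw [hm1]
      exact D.SL _ hl0
    have hm2L : m2 ∈ Submodule.span F {l1, l2} := by
      rw [hm2]
      exact Submodule.sub_mem _ hl3 (D.SL _ hl3)
    obtain ⟨a1, a2, D1⟩ := D.rebase hm1L hm2L hi
    refine D1.P_false hsy (D1.U_all (D1.qsp.idem ?_)) f1
    refine ⟨R x', D1.sa _, ?_, ?_, ?_, ?_, ?_⟩
    · rw [f1]
      simp
    · rw [f2]
      simp
    · exact D1.LL l1L (D1.SL _ l1L)
    · exact D1.LL l1L (D1.SL _ l2L)
    · exact D1.LL l2L (D1.SL _ l2L)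

end T0D

/-- `(R 1)^2 = 0`, `R 1` of rank two, `(R 1) (R x) (R 1) = 0`, and `ker (R 1)` anisotropic modulo
the range of `R 1`: then `R^3 = 0`. -/
theorem t0_pow_zero {F V : Type*} [Field F] [CharZero F] [AddCommGroup V] [Module F V]
    [FiniteDimensional F V] {B : V →ₗ[F] V →ₗ[F] F}
    {R : Module.End F V →ₗ[F] Module.End F V} (hrb : JRB R) (sym : ∀ u v, B u v = B v u)
    (nd : ∀ u, (∀ v, B u v = 0) → u = 0) (sa : ∀ x u v, B (R x u) v = B u (R x v))
    (tr : ∀ u v, R (tens B u v) = R (tens B v u))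
    (hsy : ∀ x, ∃ y : Module.End F V, (∀ u v, B (y u) v = B u (y v)) ∧ R y = R x)
    (hT : ∀ x v, R 1 (R x (R 1 v)) = 0) (ee : ∀ v, R 1 (R 1 v) = 0)
    (han : ∀ v, R 1 v = 0 → B v v = 0 → ∃ q, R 1 q = v) {l1 l2 : V}
    (hspan : LinearMap.range (R 1) = Submodule.span F {l1, l2})
    (hi : ∀ a b : F, a • l1 + b • l2 = 0 → a = 0 ∧ b = 0) : R ^ 3 = 0 := by
  obtain ⟨d1, d2, e1, e2, e3, e4⟩ := t0_exists_dual nd hi
  have D : T0D B R (R 1) l1 l2 d1 d2 :=
    { rb := hrb
      one := rfl
      sym := sym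
      nd := nd
      sa := sa
      tr := tr
      hT := hT
      ee := ee
      han := fun v h1 h2 => by
        rw [← hspan]
        exact han v h1 h2
      ran := fun v => by
        rw [← hspan]
        exact ⟨v, rfl⟩
      l1r := by
        have h1 : l1 ∈ LinearMap.range (R 1) := by
          rw [hspan]
          exact Submodule.subset_span (by simp)
        exact h1
      l2r := by
        have h1 : l2 ∈ LinearMap.range (R 1) := by
          rw [hspan]
          exact Submodule.subset_span (by simp)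
        exact h1
      b11 := e1
      b12 := e2
      b21 := e3
      b22 := e4 }
  apply LinearMap.ext
  intro x
  rw [pow_succ, pow_two, Module.End.mul_apply, Module.End.mul_apply, LinearMap.zero_apply]
  exact D.t0_zero hsy x

end Pool.Agent.MP_f4742e_al
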