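import Pool.Agent.Lib.MP_f4742e_al.X.T0U

/-!
The case `(R 1) (R x) (R 1) = 0`: no `R (R x)` is nilpotent and nonzero on `L`.
-/

set_option autoImplicit false
set_option linter.unusedSectionVars false

namespace Pool.Agent.MP_f4742e_al

namespace T0D

variable {F V : Type*} [Field F] [CharZero F] [AddCommGroup V] [Module F V]
  {B : V →ₗ[F] V →ₗ[F] F} {R : Module.End F V →ₗ[F] Module.End F V}
  {e : Module.End F V} {l1 l2 d1 d2 : V} (D : T0D B R e l1 l2 d1 d2)

include D

theorem l1_ne : l1 ≠ 0 := by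
  intro h5
  have h6 := D.b11
  rw [h5, map_zero, LinearMap.zero_apply] at h6
  exact zero_ne_one h6

theorem perpK {u : V} (hu : ∀ v, e v = 0 → B u v = 0) : u ∈ Submodule.span F {l1, l2} := by
  have h1 : e u = 0 := by
    apply D.ker_iff
    · rw [D.sym, hu _ (D.eL l1L)]
    · rw [D.sym, hu _ (D.eL l2L)]
  exact D.han _ h1 (hu _ h1)

theorem SZ {f : Module.End F V} (hf : ∀ u v, B (f u) v = B u (f v))
    (hL : ∀ l ∈ Submodule.span F {l1, l2}, f l = 0)
    (hK : ∀ v, e v = 0 → f v ∈ Submodule.span F {l1, l2}) (hff : ∀ v, f (f v) = 0) :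
    f d1 ∈ Submodule.span F {l1, l2} ∧ f d2 ∈ Submodule.span F {l1, l2} ∧
      ∀ v, e v = 0 → f v = 0 := by
  have h1 : ∀ d, f d ∈ Submodule.span F {l1, l2} := by
    intro d
    apply D.han
    · apply D.ker_iff
      · rw [← hf, hL _ l1L, map_zero, LinearMap.zero_apply]
      · rw [← hf, hL _ l2L, map_zero, LinearMap.zero_apply]
    · rw [hf, hff, map_zero]
  refine ⟨h1 _, h1 _, ?_⟩
  intro v hv
  rw [D.expL (hK v hv), ← hf, ← hf, D.LK (h1 _) hv, D.LK (h1 _) hv]
  simp

theorem F1dec {f : Module.End F V} (hf : ∀ u v, B (f u) v = B u (f v))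
    (hK : ∀ v, e v = 0 → f v ∈ Submodule.span F {l1, l2}) :
    f = tens B (f d1) l1 + tens B (f d2) l2 + (tens B l1 (f d1) + tens B l2 (f d2)) -
        (B (f d1) d1 • tens B l1 l1 + B (f d1) d2 • tens B l1 l2 +
          (B (f d2) d1 • tens B l2 l1 + B (f d2) d2 • tens B l2 l2)) := by
  ext w
  have h2 := D.exp_ker w
  have h3 := D.expL (hK _ h2)
  rw [← hf, ← hf] at h3
  simp only [map_sub, map_add, map_smul] at h3
  rw [sub_eq_iff_eq_add] at h3
  simp only [LinearMap.sub_apply, LinearMap.add_apply, LinearMap.smul_apply, tens_apply]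
  rw [h3]
  simp only [smul_eq_mul]
  module

theorem R_of_K {f : Module.End F V} (hf : ∀ u v, B (f u) v = B u (f v))
    (hK : ∀ v, e v = 0 → f v ∈ Submodule.span F {l1, l2}) :
    R f = (2 : F) • R (tens B l1 (f d1)) + (2 : F) • R (tens B l2 (f d2)) := by
  have h4 : R f = R (tens B (f d1) l1 + tens B (f d2) l2 +
        (tens B l1 (f d1) + tens B l2 (f d2)) -
        (B (f d1) d1 • tens B l1 l1 + B (f d1) d2 • tens B l1 l2 +
          (B (f d2) d1 • tens B l2 l1 + B (f d2) d2 • tens B l2 l2))) := by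
    rw [← D.F1dec hf hK]
  rw [h4]
  simp only [map_sub, map_add, map_smul]
  rw [D.BL l1L l1L, D.BL l1L l2L, D.BL l2L l1L, D.BL l2L l2L, D.tr (f d1) l1, D.tr (f d2) l2]
  module

theorem R_jp_of_K {f s : Module.End F V} (hf : ∀ u v, B (f u) v = B u (f v))
    (hK : ∀ v, e v = 0 → f v ∈ Submodule.span F {l1, l2})
    (hs : ∀ u v, B (s u) v = B u (s v))
    (hsL : ∀ l ∈ Submodule.span F {l1, l2}, s l ∈ Submodule.span F {l1, l2}) :
    R (jp s f) = (2 : F) • (R (tens B (s l1) (f d1)) + R (tens B l1 (s (f d1)))) +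
      (2 : F) • (R (tens B (s l2) (f d2)) + R (tens B l2 (s (f d2)))) := by
  have h4 : R (jp s f) = R (jp s (tens B (f d1) l1 + tens B (f d2) l2 +
        (tens B l1 (f d1) + tens B l2 (f d2)) -
        (B (f d1) d1 • tens B l1 l1 + B (f d1) d2 • tens B l1 l2 +
          (B (f d2) d1 • tens B l2 l1 + B (f d2) d2 • tens B l2 l2)))) := by
    rw [← D.F1dec hf hK]
  rw [h4]
  simp only [jp_sub, jp_add, jp_smul, D.jpT hs, map_sub, map_add, map_smul]
  rw [D.BL l1L (hsL _ l1L), D.BL l1L (hsL _ l2L), D.BL l2L (hsL _ l1L), D.BL l2L (hsL _ l2L),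
    D.BL (hsL _ l1L) l1L, D.BL (hsL _ l1L) l2L, D.BL (hsL _ l2L) l1L, D.BL (hsL _ l2L) l2L,
    D.tr (s (f d1)) l1, D.tr (f d1) (s l1), D.tr (s (f d2)) l2, D.tr (f d2) (s l2)]
  module

/-- There is no `R (R x0)` that maps `l2` to `l1` and `l1` to `0`. -/
theorem N_false (he : e = tens B l1 l2 + tens B l2 l1)
    (hsy : ∀ x, ∃ y : Module.End F V, (∀ u v, B (y u) v = B u (y v)) ∧ R y = R x)
    (hU : ∀ p q r : F, ∃ y : Module.End F V, (∀ u v, B (y u) v = B u (y v)) ∧
      B l1 (y l1) = p ∧ B l1 (y l2) = q ∧ B l2 (y l2) = r ∧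
      (∀ l ∈ Submodule.span F {l1, l2}, R y l = 0) ∧
      ∀ v, e v = 0 → R y v ∈ Submodule.span F {l1, l2}) {x0 : Module.End F V}
    (hY1 : R (R x0) l1 = 0) (hY2 : R (R x0) l2 = l1) : False := by
  have hl1 := D.l1_ne
  obtain ⟨c0, hc0, hc0L, hc0K⟩ := D.RR_C hsy hU x0
  obtain ⟨s0, hs0⟩ : ∃ s0, s0 = R x0 := ⟨_, rfl⟩
  obtain ⟨Y, hY⟩ : ∃ Y, Y = R s0 := ⟨_, rfl⟩
  rw [← hs0, ← hY] at hY1 hY2 hc0L hc0K
  have hYsa : ∀ u v, B (Y u) v = B u (Y v) := by
    intro u v
    rw [hY, D.sa]
  have hssa : ∀ u v, B (s0 u) v = B u (s0 v) := by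
    intro u v
    rw [hs0, D.sa]
  have hsL : ∀ l ∈ Submodule.span F {l1, l2}, s0 l ∈ Submodule.span F {l1, l2} := by
    intro l hl
    rw [hs0]
    exact D.SL _ hl
  have hsK : ∀ v, e v = 0 → e (s0 v) = 0 := by
    intro l hl
    rw [hs0]
    exact D.SK _ hl
  have hYL : ∀ l ∈ Submodule.span F {l1, l2}, Y l ∈ Submodule.span F {l1, l2} := by
    intro l hl
    rw [hY]
    exact D.SL _ hl
  have hYK : ∀ v, e v = 0 → Y v ∈ Submodule.span F {l1, l2} := by
    intro v hv
    rw [hc0K v hv]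
    exact (D.C_all hc0).2 v hv
  have hYe : ∀ v, Y (e v) = e (Y v) := by
    intro v
    rw [hY, hs0]
    exact D.comm x0 v
  have e11 : B d1 l1 = 1 := by rw [D.sym, D.b11]
  have e12 : B d1 l2 = 0 := by rw [D.sym, D.b21]
  have e21 : B d2 l1 = 0 := by rw [D.sym, D.b12]
  have e22 : B d2 l2 = 1 := by rw [D.sym, D.b22]
  have hed1 : e d1 = l2 := by
    rw [he, LinearMap.add_apply, tens_apply, tens_apply, D.b11, D.b21]
    simp
  have hed2 : e d2 = l1 := by
    rw [he, LinearMap.add_apply, tens_apply, tens_apply, D.b12, D.b22]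
    simp
  -- all elements of `C` are multiples of `Y` on `L`
  have hC : ∀ c, InC B R e l1 l2 c → c l1 = 0 ∧ ∃ k : F, c l2 = k • l1 := by
    intro c hc
    have g1 := (D.C_all hc).1
    have g2 := (D.C_all hc0).1
    have g3 := (D.C_all (hc.add hc0)).1
    have f1 : c0 l1 = 0 := by rw [← hc0L _ l1L, hY1]
    have f2 : c0 l2 = l1 := by rw [← hc0L _ l2L, hY2]
    have f3 : c0 (c l1) = 0 := by
      have h1 := g3 l1 l1L
      simp only [LinearMap.add_apply] at h1
      rw [f1, add_zero, g1 l1 l1L, zero_add] at h1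
      exact h1
    obtain ⟨p, q, hpq⟩ := Submodule.mem_span_pair.1 (D.C_L hc l1L)
    rw [← hpq, map_add, map_smul, map_smul, f1, f2, smul_zero, zero_add] at f3
    have hq : q = 0 := (smul_eq_zero.1 f3).resolve_right hl1
    rw [hq, zero_smul, add_zero] at hpq
    have f4 := g1 l1 l1L
    rw [← hpq, map_smul, ← hpq, smul_smul] at f4
    have hp : p = 0 := mul_self_eq_zero.1 ((smul_eq_zero.1 f4).resolve_right hl1)
    rw [hp, zero_smul] at hpq
    refine ⟨hpq.symm, ?_⟩
    obtain ⟨p', q', hpq'⟩ := Submodule.mem_span_pair.1 (D.C_L hc l2L)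
    have f5 := g3 l2 l2L
    rw [LinearMap.add_apply, LinearMap.add_apply, f2, ← hpq'] at f5
    simp only [map_add, map_smul, f1, f2, ← hpq, smul_zero, zero_add, add_zero] at f5
    rw [← hpq'] at f5
    simp only [smul_add, smul_smul] at f5
    have f6 : B d1 (c (c l2)) = 0 := by rw [g1 l2 l2L, map_zero]
    rw [← hpq', map_add, map_smul, map_smul, ← hpq, smul_zero, zero_add, ← hpq', map_smul,
      map_add, map_smul, map_smul, e11, e12] at f6
    have f7 := congrArg (fun v => B d1 v) f5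
    have f8 := congrArg (fun v => B d2 v) f5
    simp only [map_add, map_smul, e11, e12, e21, e22, smul_eq_mul, map_zero] at f6 f7 f8
    have hq' : q' = 0 := by
      have : q' * q' = 0 := by linear_combination f8
      exact mul_self_eq_zero.1 this
    exact ⟨p', by rw [← hpq', hq', zero_smul, add_zero]⟩
  -- `Y d2 ∈ L`
  have hYYL : ∀ l ∈ Submodule.span F {l1, l2}, Y (Y l) = 0 := by
    intro l hl
    obtain ⟨a, b, rfl⟩ := Submodule.mem_span_pair.1 hl
    simp only [map_add, map_smul, hY1, hY2, smul_zero, zero_add]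
  have hb : e (Y d2) = 0 := by rw [← hYe, hed2, hY1]
  have hYd2 : Y d2 ∈ Submodule.span F {l1, l2} := by
    obtain ⟨u, hu⟩ : ∃ u, u = jp s0 Y := ⟨_, rfl⟩
    have hu1 : R u = Y * Y := by rw [hu, hY, D.sq s0]
    obtain ⟨u', hu'⟩ : ∃ u', R u' = u := ⟨jp (R x0) s0 + jp x0 (R s0), by
      rw [← D.rb, hu, hs0, hY, hs0]⟩
    obtain ⟨f, hfd⟩ : ∃ f, f = Y * Y := ⟨_, rfl⟩
    have hfv : ∀ v, f v = Y (Y v) := by
      intro v
      rw [hfd]
      rfl
    have hf : ∀ u v, B (f u) v = B u (f v) := by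
      intro u v
      rw [hfv, hfv, hYsa, hYsa]
    have hfL : ∀ l ∈ Submodule.span F {l1, l2}, f l = 0 := by
      intro l hl
      rw [hfv, hYYL l hl]
    have hfK : ∀ v, e v = 0 → f v ∈ Submodule.span F {l1, l2} := by
      intro v hv
      rw [hfv]
      exact hYL _ (hYK v hv)
    have hRf : R f = 0 := by
      have h1 := D.eY u'
      rw [hu', hu1, ← hfd] at h1
      have h2 : jp e f = 0 := by
        ext v
        unfold jp
        rw [LinearMap.add_apply, Module.End.mul_apply, Module.End.mul_apply, hfL _ (D.ran v),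
          hfv, ← hYe, ← hYe, hYYL _ (D.ran v), add_zero, LinearMap.zero_apply]
      rw [h2] at h1
      exact (smul_eq_zero.1 h1.symm).resolve_left two_ne_zero
    have hfd2 : f d2 ∈ Submodule.span F {l1, l2} := by
      rw [hfv]
      exact hYK _ hb
    have hTa : R (tens B l1 (f d1)) = 0 := by
      have h1 := D.R_of_K hf hfK
      rw [hRf, D.BL l2L hfd2, smul_zero, add_zero] at h1
      exact (smul_eq_zero.1 h1.symm).resolve_left two_ne_zero
    have hab : f d1 - Y d2 ∈ Submodule.span F {l1, l2} := by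
      apply D.perpK
      intro v hv
      rw [map_sub, LinearMap.sub_apply, hf, hfv, hYsa]
      obtain ⟨p, q, hpq⟩ := Submodule.mem_span_pair.1 (hYK v hv)
      rw [← hpq, map_add, map_smul, map_smul, hY1, hY2, map_add, map_add, map_smul, map_smul,
        map_smul, map_smul, map_zero, e11, e21, e22]
      simp
    have huL : ∀ l ∈ Submodule.span F {l1, l2}, u l ∈ Submodule.span F {l1, l2} := by
      intro l hl
      rw [← hu']
      exact D.SL _ hl
    have husa : ∀ p q, B (u p) q = B p (u q) := by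
      intro p q
      rw [← hu', D.sa]
    have hua : u (f d1) ∈ Submodule.span F {l1, l2} := by
      have h1 : f d1 = Y d2 + (f d1 - Y d2) := by abel
      rw [h1, map_add]
      refine Submodule.add_mem _ ?_ (huL _ hab)
      rw [hu]
      unfold jp
      rw [LinearMap.add_apply, Module.End.mul_apply, Module.End.mul_apply]
      exact Submodule.add_mem _ (hsL _ (hYK _ hb)) (hYK _ (hsK _ hb))
    obtain ⟨q, hq⟩ : ∃ q : F, u l1 = q • l1 := by
      obtain ⟨p, q, hpq⟩ := Submodule.mem_span_pair.1 (hsL _ l1L)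
      refine ⟨q, ?_⟩
      rw [hu]
      unfold jp
      rw [LinearMap.add_apply, Module.End.mul_apply, Module.End.mul_apply, hY1, map_zero,
        zero_add, ← hpq, map_add, map_smul, map_smul, hY1, hY2, smul_zero, zero_add]
    have hff : f * f = 0 := by
      have h1 := D.sq u
      rw [hu1, ← hfd, D.R_jp_of_K hf hfK husa huL, hq, tens_smul_left, map_smul, hTa,
        D.BL l1L hua, D.BL (huL _ l2L) hfd2, D.BL l2L (huL _ hfd2)] at h1
      simpa using h1
    have h1 := (D.SZ hf hfL hfK (fun v => by rw [← Module.End.mul_apply, hff]; rfl)).1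
    have h2 := Submodule.sub_mem _ h1 hab
    rwa [sub_sub_cancel] at h2
  have hYd1 : e (Y d1 - d2) = 0 := by
    apply D.ker_iff
    · rw [map_sub, ← hYsa, hY1, map_zero, LinearMap.zero_apply, D.b12, sub_zero]
    · rw [map_sub, ← hYsa, hY2, D.b11, D.b22, sub_self]
  have hRY : R Y = tens B l1 l1 := by
    have h1 := D.eY x0
    rw [← hs0, ← hY] at h1
    have h2 : jp e Y = (2 : F) • tens B l1 l1 := by
      ext v
      unfold jp
      rw [LinearMap.add_apply, Module.End.mul_apply, Module.End.mul_apply, ← hYe, he,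
        LinearMap.add_apply, tens_apply, tens_apply, map_add, map_smul, map_smul, hY1, hY2,
        LinearMap.smul_apply, tens_apply]
      module
    rw [h2] at h1
    exact (smul_right_injective _ (two_ne_zero (α := F)) h1).symm
  have hRY2 : (2 : F) • R (tens B l1 (Y d1)) = tens B l1 l1 := by
    have h1 := D.R_of_K hYsa hYK
    rw [D.BL l2L hYd2, smul_zero, add_zero, hRY] at h1
    exact h1.symm
  have hν : tens B l1 l1 ≠ 0 := by
    intro h1
    have h2 := congrArg (fun f : Module.End F V => f d1) h1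
    simp only [tens_apply, D.b11, one_smul, LinearMap.zero_apply] at h2
    exact hl1 h2
  -- images which kill `L`
  have hSY : ∀ r : Module.End F V, (∀ u v, B (r u) v = B u (r v)) →
      (∀ v, e v = 0 → r v = 0) → r d1 ∈ Submodule.span F {l1, l2} →
      r d2 ∈ Submodule.span F {l1, l2} → jp Y r = 0 → ∃ x : F, r = x • tens B l1 l1 := by
    intro r hr hrK h1 h2 hj
    have hjv : ∀ v, Y (r v) + r (Y v) = 0 := by
      intro v
      have h3 := congrArg (fun f : Module.End F V => f v) hj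
      unfold jp at h3
      exact h3
    have g1 := hjv d2
    rw [hrK _ (D.eL hYd2), add_zero, D.expL h2, map_add, map_smul, map_smul, hY1, hY2,
      smul_zero, zero_add] at g1
    have g2 : B d2 (r d2) = 0 := (smul_eq_zero.1 g1).resolve_right hl1
    have g3 := hjv d1
    have g4 : r (Y d1) = r d2 := by
      have h3 := hrK _ hYd1
      rw [map_sub, sub_eq_zero] at h3
      exact h3
    have g5 : B d2 (r d1) = B d1 (r d2) := by rw [← hr, D.sym]
    rw [g4, D.expL h1, D.expL h2, g2, map_add, map_smul, map_smul, hY1, hY2, g5] at g3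
    simp only [smul_zero, zero_add, zero_smul, add_zero, ← add_smul] at g3
    have g6 : B d1 (r d2) = 0 := by
      have h3 := (smul_eq_zero.1 g3).resolve_right hl1
      have h4 : (2 : F) * B d1 (r d2) = 0 := by linear_combination h3
      exact (mul_eq_zero.1 h4).resolve_left two_ne_zero
    have h5 : r d1 = B d1 (r d1) • l1 := by
      conv_lhs => rw [D.expL h1, g5, g6, zero_smul, add_zero]
    have h6 : r d2 = 0 := by
      rw [D.expL h2, g2, g6]
      simp
    refine ⟨B d1 (r d1), ?_⟩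
    ext w
    have h7 := congrArg (fun f : Module.End F V => f w) (D.rep_of hrK)
    simp only [LinearMap.add_apply, tens_apply, h6, smul_zero, add_zero] at h7
    rw [h7, LinearMap.smul_apply, tens_apply]
    conv_lhs => rw [h5]
    rw [smul_comm]
  -- `r` kills `L`, `r r = 0`, `Y r = 0` imply ...
  have hone : ∀ (l v : V), l ∈ Submodule.span F {l1, l2} → e v = 0 →
      R (tens B l v) l2 = 0 → R (tens B (Y l) v) = 0 → ∃ x : F, R (tens B l v) = x • tens B l1 l1 := by
    intro l v hl hv h2 hYl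
    obtain ⟨r, hrd⟩ : ∃ r, r = R (tens B l v) := ⟨_, rfl⟩
    have hrC : InC B R e l1 l2 r := by
      rw [hrd]
      exact InC.T hl hv
    have hrL : ∀ l ∈ Submodule.span F {l1, l2}, r l = 0 := by
      intro l hl
      obtain ⟨a, b, rfl⟩ := Submodule.mem_span_pair.1 hl
      rw [map_add, map_smul, map_smul, (hC r hrC).1, hrd, h2]
      simp
    have hrK := (D.C_all hrC).2
    have hrsa := D.C_sa hrC
    have hrr : r * r = 0 := by
      have h3 := D.sq (tens B l v)
      rw [← hrd] at h3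
      have h4 : jp (tens B l v) r = tens B (r l) v + tens B l (r v) := by
        rw [jp_comm, D.jpT hrsa]
      rw [h3, h4, map_add, hrL l hl, D.BL hl (hrK v hv), add_zero]
      have h5 : tens B (0 : V) v = 0 := by
        ext w
        simp [tens_apply]
      rw [h5, map_zero]
    obtain ⟨k1, k2, k3⟩ := D.SZ hrsa hrL hrK (fun v => by rw [← Module.End.mul_apply, hrr]; rfl)
    have hjY : jp Y r = 0 := by
      have h3 := D.RT s0 l v
      rw [← hY, ← hrd, hYl, D.BL hl (hYK v hv), add_zero, add_zero] at h3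
      rw [h3, D.rep_of k3, jp_add, D.jpT hssa, D.jpT hssa, map_add, map_add, map_add,
        D.BL (hsL _ k1) l1L, D.BL k1 (hsL _ l1L), D.BL (hsL _ k2) l2L, D.BL k2 (hsL _ l2L)]
      simp
    obtain ⟨x, hx⟩ := hSY r hrsa k3 k1 k2 hjY
    exact ⟨x, by rw [← hrd, hx]⟩
  have hT0 : ∀ v : V, tens B (0 : V) v = 0 := by
    intro v
    ext w
    simp [tens_apply]
  -- a nonzero multiple gives an element of the kernel
  have htwo : ∀ (l v : V), l ∈ Submodule.span F {l1, l2} → e v = 0 →
      ∀ x : F, R (tens B l v) = x • tens B l1 l1 → x ≠ 0 →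
      ∀ y : Module.End F V, (∀ u v, B (y u) v = B u (y v)) →
      (∀ l ∈ Submodule.span F {l1, l2}, R y l = 0) →
      (∀ v, e v = 0 → R y v ∈ Submodule.span F {l1, l2}) → R (tens B l1 (y l1)) = 0 := by
    intro l v hl hv x hx hx0 y hy hyL hyK
    have h3 := D.RT y l v
    rw [hyL l hl, hT0, map_zero, add_zero, D.BL hl (hyK v hv), add_zero, hx, jp_smul, jp_smul,
      D.jpT (D.sa y), D.jpT hy, hyL _ l1L, hT0, zero_add] at h3
    have h4 : tens B l1 (0 : V) = 0 := by
      ext w
      simp [tens_apply]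
    rw [h4, smul_zero, map_smul, map_add, D.tr (y l1) l1, ← two_smul F, smul_smul] at h3
    exact (smul_eq_zero.1 h3.symm).resolve_left (mul_ne_zero hx0 two_ne_zero)
  have S2 : ∀ v, e v = 0 → R (tens B l1 v) = 0 := by
    intro v hv
    obtain ⟨r, hrd⟩ : ∃ r, r = R (tens B l1 v) := ⟨_, rfl⟩
    obtain ⟨q, hqd⟩ : ∃ q, q = R (tens B l2 v) := ⟨_, rfl⟩
    have hrC : InC B R e l1 l2 r := by
      rw [hrd]
      exact InC.T l1L hv
    have hqC : InC B R e l1 l2 q := by
      rw [hqd]
      exact InC.T l2L hv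
    obtain ⟨hr1, k, hk⟩ := hC r hrC
    obtain ⟨hq1, k', hk'⟩ := hC q hqC
    have hk0 : k = 0 := by
      have h3 := D.RT (tens B l1 v) l2 v
      rw [← hrd, ← hqd, hk, tens_smul_left, map_smul, ← hrd,
        D.BL l2L ((D.C_all hrC).2 v hv), add_zero, jp_comm (tens B l1 v) q,
        D.jpT (D.C_sa hqC), hq1, hT0, zero_add, D.BL l1L ((D.C_all hqC).2 v hv), zero_add] at h3
      have h4 := congrArg (fun f : Module.End F V => f l2) h3
      unfold jp at h4
      simp only [LinearMap.add_apply, Module.End.mul_apply, LinearMap.smul_apply, hk, hk',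
        map_smul, hr1, hq1, smul_zero, add_zero] at h4
      rw [smul_smul] at h4
      exact mul_self_eq_zero.1 ((smul_eq_zero.1 h4.symm).resolve_right hl1)
    obtain ⟨x, hx⟩ := hone l1 v l1L hv (by rw [← hrd, hk, hk0, zero_smul]) (by rw [hY1, hT0,
      map_zero])
    by_cases hx0 : x = 0
    · rw [hx, hx0, zero_smul]
    · exfalso
      obtain ⟨y, hy, g1, g2, g3, hyL, hyK⟩ := hU 1 0 0
      have h3 := htwo l1 v l1L hv x hx hx0 y hy hyL hyK
      have h4 := D.Kst h3 s0
      rw [← hY, D.jpT hYsa, hY1, hT0, zero_add] at h4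
      have h5 : e (y l1 - d1) = 0 := by
        apply D.ker_iff
        · rw [map_sub, g1, D.b11, sub_self]
        · rw [map_sub, ← hy, D.sym, g2, D.b21, sub_self]
      have h6 : Y (y l1) = Y d1 + Y (y l1 - d1) := by
        rw [map_sub]
        abel
      rw [h6, tens_add_right, map_add, D.BL l1L (hYK _ h5), add_zero] at h4
      rw [h4, smul_zero] at hRY2
      exact hν hRY2.symm
  have S2' : (2 : F) • R (tens B l1 d2) = tens B l1 l1 := by
    rw [← hRY2]
    have h1 : Y d1 = d2 + (Y d1 - d2) := by abel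
    rw [h1, tens_add_right, map_add, S2 _ hYd1, add_zero]
  have S3 : ∀ v, e v = 0 → R (tens B l2 v) l2 = 0 → R (tens B l2 v) = 0 := by
    intro v hv h2
    obtain ⟨x, hx⟩ := hone l2 v l2L hv h2 (by rw [hY2, S2 v hv])
    by_cases hx0 : x = 0
    · rw [hx, hx0, zero_smul]
    · exfalso
      obtain ⟨y, hy, g1, g2, g3, hyL, hyK⟩ := hU 0 1 0
      have h3 := htwo l2 v l2L hv x hx hx0 y hy hyL hyK
      have h5 : e (y l1 - d2) = 0 := by
        apply D.ker_iff
        · rw [map_sub, g1, D.b12, sub_self]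
        · rw [map_sub, ← hy, D.sym, g2, D.b22, sub_self]
      have h6 : y l1 = d2 + (y l1 - d2) := by abel
      rw [h6, tens_add_right, map_add, S2 _ h5, add_zero] at h3
      rw [h3, smul_zero] at S2'
      exact hν S2'.symm
  -- the end
  obtain ⟨t, ht, g1, g2, g3, htL, htK⟩ := hU 0 0 1
  obtain ⟨f, hfd⟩ : ∃ f, f = R t := ⟨_, rfl⟩
  rw [← hfd] at htL htK
  have hfsa : ∀ u v, B (f u) v = B u (f v) := by
    intro u v
    rw [hfd, D.sa]
  obtain ⟨k1, k2, k3⟩ := D.F1rep hfsa htL htK
  have h1 := D.star t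
  rw [← hfd] at h1
  have h2 : jp e f = 0 := by
    ext v
    unfold jp
    have h3 : e (f v) = 0 := by
      apply D.ker_iff
      · rw [← hfsa, htL _ l1L, map_zero, LinearMap.zero_apply]
      · rw [← hfsa, htL _ l2L, map_zero, LinearMap.zero_apply]
    rw [LinearMap.add_apply, Module.End.mul_apply, Module.End.mul_apply, h3, htL _ (D.ran v),
      add_zero, LinearMap.zero_apply]
  have h3 : jp e t = tens B l1 (t l2) + tens B l2 (t l1) +
      (tens B (t l1) l2 + tens B (t l2) l1) := by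
    unfold jp
    conv_lhs => rw [he]
    rw [add_mul, mul_add, D.tens_mul ht, D.tens_mul ht, mul_tens, mul_tens]
  have ht1 : e (t l1) = 0 := by
    apply D.ker_iff
    · rw [g1]
    · rw [← ht, D.sym, g2]
  have ht2 : e (t l2 - d2) = 0 := by
    apply D.ker_iff
    · rw [map_sub, g2, D.b12, sub_self]
    · rw [map_sub, g3, D.b22, sub_self]
  have ht2' : R (tens B l1 (t l2)) = R (tens B l1 d2) := by
    have h6 : t l2 = d2 + (t l2 - d2) := by abel
    rw [h6, tens_add_right, map_add, S2 _ ht2, add_zero]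
  rw [h2, h3, k3, S2 _ k1, map_add, map_add, map_add, D.tr (t l1) l2, D.tr (t l2) l1, ht2'] at h1
  have h4 : tens B l1 l1 = R (tens B l2 ((-2 : F) • t l1 + (-4 : F) • f d2)) := by
    rw [tens_add_right, tens_smul_right, tens_smul_right, map_add, map_smul, map_smul, ← S2']
    have h5 : (2 : F) • R (tens B l1 d2) =
        (R (tens B l1 d2) + R (tens B l2 (t l1)) + (R (tens B l2 (t l1)) + R (tens B l1 d2))) -
        (2 : F) • R (tens B l2 (t l1)) := by module
    rw [h5, h1]
    module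
  have h5 : e ((-2 : F) • t l1 + (-4 : F) • f d2) = 0 := by
    rw [map_add, map_smul, map_smul, ht1, k2, smul_zero, smul_zero, add_zero]
  have h6 := S3 _ h5 (by rw [← h4, tens_apply, D.LL l1L l2L, zero_smul])
  rw [h6] at h4
  exact hν h4

end T0D

end Pool.Agent.MP_f4742e_al
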