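import Mathlib.Tactic

/-!
Algebra for the leading parts: a linear space of pairs of a `2 × 2` matrix and a symmetric form,
closed under the Jordan product.
-/

set_option autoImplicit false
set_option linter.unusedSectionVars false

namespace Pool.Agent.MP_f4742e_al

/-- A space of pairs (matrix `[[a, c], [b, d]]`, form `(p, q, r)`). -/
structure QSp (F : Type*) [Field F] (Q : F → F → F → F → F → F → F → Prop) : Prop where
  lin : ∀ (k k' : F) {a b c d p q r a' b' c' d' p' q' r' : F}, Q a b c d p q r →
    Q a' b' c' d' p' q' r' → Q (k * a + k' * a') (k * b + k' * b') (k * c + k' * c')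
      (k * d + k' * d') (k * p + k' * p') (k * q + k' * q') (k * r + k' * r')
  jp : ∀ {a b c d p q r a' b' c' d' p' q' r' : F}, Q a b c d p q r →
    Q a' b' c' d' p' q' r' → Q (2 * (a * a') + c * b' + c' * b)
      (b * a' + d * b' + b' * a + d' * b) (a * c' + c * d' + a' * c + c' * d)
      (2 * (d * d') + b * c' + b' * c)
      (2 * (a * p' + b * q') + 2 * (a' * p + b' * q))
      (a * q' + b * r' + c * p' + d * q' + (a' * q + b' * r + c' * p + d' * q))
      (2 * (c * q' + d * r') + 2 * (c' * q + d' * r))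
  ex : ∀ p q r : F, ∃ a b c d, Q a b c d p q r

variable {F : Type*} [Field F] [CharZero F] {Q : F → F → F → F → F → F → F → Prop}

theorem QSp.comb (h : QSp F Q) (h1 : Q 0 0 0 0 1 0 0) (h2 : Q 0 0 0 0 0 1 0)
    (h3 : Q 0 0 0 0 0 0 1) (p q r : F) : Q 0 0 0 0 p q r := by
  have e1 := h.lin p q h1 h2
  have e2 := h.lin 1 r e1 h3
  convert e2 using 1 <;> ring

/-- The case of an idempotent. -/
theorem QSp.idem (h : QSp F Q) (hY : Q 1 0 0 0 0 0 0) (p q r : F) : Q 0 0 0 0 p q r := by
  have h2 : (2 : F) ≠ 0 := two_ne_zero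
  have H1 : Q 0 0 0 0 1 0 0 := by
    obtain ⟨a, b, c, d, hA⟩ := h.ex 1 0 0
    have t1 := h.jp hY hA
    have t2 := h.jp hY t1
    have t3 := h.lin (1 / 2) (-1 / 2) t2 t1
    have t4 := h.lin 1 (-a) t3 hY
    convert t4 using 1 <;> ring
  have H3 : Q 0 0 0 0 0 0 1 := by
    obtain ⟨a, b, c, d, hA⟩ := h.ex 0 0 1
    have t1 := h.jp hY hA
    have t2 := h.lin 1 (-1) hA t1
    have t3 := h.lin 1 a t2 hY
    have t4 : Q 0 0 0 d 0 0 1 := by
      convert t3 using 1 <;> ring
    by_cases hd : d = 0
    · rw [hd] at t4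
      exact t4
    · have t5 := h.jp t4 t4
      have t6 := h.lin (1 / (2 * d)) (-1) t5 t4
      convert t6 using 1 <;> (field_simp; try ring)
  have H2 : Q 0 0 0 0 0 1 0 := by
    obtain ⟨a, b, c, d, hA⟩ := h.ex 0 1 0
    have t1 := h.jp hY hA
    have t2 := h.lin 1 (-2 * a) t1 hY
    have t3 : Q 0 b c 0 0 1 0 := by
      convert t2 using 1 <;> ring
    by_cases hb : b = 0
    · by_cases hc : c = 0
      · rw [hb, hc] at t3
        exact t3
      · have t4 := h.jp t3 H1
        have t5 := h.lin (1 / c) 0 t4 H1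
        convert t5 using 1 <;> (field_simp; try ring)
    · have t4 := h.jp t3 H3
      have t5 := h.lin (1 / b) 0 t4 H1
      convert t5 using 1 <;> (field_simp; try ring)
  exact h.comb H1 H2 H3 p q r

/-- The case of a nilpotent. -/
theorem QSp.nilp (h : QSp F Q) (hY : Q 0 0 1 0 0 0 0) (p q r : F) : Q 0 0 0 0 p q r := by
  have h2 : (2 : F) ≠ 0 := two_ne_zero
  obtain ⟨a, b, c, d, hA⟩ := h.ex 1 0 0
  have t1 := h.jp hY hA
  have t1' : Q b 0 (a + d) b 0 1 0 := by
    convert t1 using 1 <;> ring
  have H3 : Q 0 0 0 0 0 0 1 := by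
    have t2 := h.jp hY t1'
    have t3 := h.lin (1 / 2) (-b) t2 hY
    convert t3 using 1 <;> ring
  have H2 : Q 0 0 0 0 0 1 0 := by
    have t2 := h.lin 1 (-(a + d)) t1' hY
    have t3 : Q b 0 0 b 0 1 0 := by
      convert t2 using 1 <;> ring
    by_cases hb : b = 0
    · rw [hb] at t3
      exact t3
    · have t4 := h.jp t3 t3
      have t5 := h.lin (1 / (2 * b)) (-1) t4 t3
      convert t5 using 1 <;> (field_simp; try ring)
  have key : ∀ {x y z : F}, x ≠ 0 → Q 0 0 0 0 x y z → Q 0 0 0 0 1 0 0 := by
    intro x y z hx hQ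
    have t2 := h.lin 1 (-y) hQ H2
    have t3 := h.lin 1 (-z) t2 H3
    have t4 := h.lin (1 / x) 0 t3 H3
    convert t4 using 1 <;> (field_simp; try ring)
  have H1 : Q 0 0 0 0 1 0 0 := by
    by_cases hb : b = 0
    · subst hb
      by_cases ha : a = 0
      · subst ha
        by_cases hd : d = 0
        · subst hd
          have t2 := h.lin 1 (-c) hA hY
          convert t2 using 1 <;> ring
        · have t2 := h.jp hA hA
          have t3 := h.lin (1 / 2) (-d) t2 hA
          refine key (neg_ne_zero.2 hd) (y := c) (z := 0) ?_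
          convert t3 using 1 <;> ring
      · have t2 := h.jp hA hA
        have t3 := h.lin (1 / 2) (-a) t2 hA
        have t4 : Q 0 0 (c * d) (d * (d - a)) a c 0 := by
          convert t3 using 1 <;> ring
        by_cases hd : d * (d - a) = 0
        · rw [hd] at t4
          have t5 := h.lin 1 (-(c * d)) t4 hY
          refine key ha (y := c) (z := 0) ?_
          convert t5 using 1 <;> ring
        · have t5 := h.jp hA t4
          have t6 := h.lin (1 / 2) (-d) t5 t4
          have hx : a * (a - d) ≠ 0 := by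
            apply mul_ne_zero ha
            intro h5
            apply hd
            rw [← neg_sub, h5, neg_zero, mul_zero]
          refine key hx (y := (a * c + c * a + d * c + c * d) / 2 - d * c)
            (z := c * c + c * d * 0) ?_
          convert t6 using 1 <;> ring
    · have t2 := h.jp hA H2
      refine key (mul_ne_zero h2 hb) (y := a + d) (z := 2 * c) ?_
      convert t2 using 1 <;> ring
  exact h.comb H1 H2 H3 p q r

end Pool.Agent.MP_f4742e_al
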