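import Pool.Agent.Lib.MP_f4742e_al.X.T0D
import Pool.Agent.Lib.MP_f4742e_al.X.T0Q

/-!
The case `(R 1) (R x) (R 1) = 0`: leading parts.
-/

set_option autoImplicit false
set_option linter.unusedSectionVars false
set_option linter.unusedSimpArgs false

namespace Pool.Agent.MP_f4742e_al

open Polynomial

namespace T0D

variable {F V : Type*} [Field F] [CharZero F] [AddCommGroup V] [Module F V]
  {B : V →ₗ[F] V →ₗ[F] F} {R : Module.End F V →ₗ[F] Module.End F V}
  {e : Module.End F V} {l1 l2 d1 d2 : V} (D : T0D B R e l1 l2 d1 d2)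

include D

theorem jp_sa {x y : Module.End F V} (hx : ∀ u v, B (x u) v = B u (x v))
    (hy : ∀ u v, B (y u) v = B u (y v)) (u v : V) : B (jp x y u) v = B u (jp x y v) := by
  unfold jp
  simp only [LinearMap.add_apply, Module.End.mul_apply, map_add]
  rw [hx, hy, hy, hx, add_comm]

theorem LL {l l' : V} (hl : l ∈ Submodule.span F {l1, l2})
    (hl' : l' ∈ Submodule.span F {l1, l2}) : B l l' = 0 := D.LK hl (D.eL hl')

/-- The space of leading parts. -/
theorem qsp : QSp F (fun a b c d p q r => ∃ y : Module.End F V,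
    (∀ u v, B (y u) v = B u (y v)) ∧ R y l1 = a • l1 + b • l2 ∧ R y l2 = c • l1 + d • l2 ∧
    B l1 (y l1) = p ∧ B l1 (y l2) = q ∧ B l2 (y l2) = r) where
  lin := by
    rintro k k' a b c d p q r a' b' c' d' p' q' r' ⟨y, hy, h1, h2, h3, h4, h5⟩
      ⟨y', hy', h1', h2', h3', h4', h5'⟩
    refine ⟨k • y + k' • y', ?_, ?_, ?_, ?_, ?_, ?_⟩
    · intro u v
      simp only [LinearMap.add_apply, LinearMap.smul_apply, map_add, map_smul, hy, hy']
    · simp only [map_add, map_smul, LinearMap.add_apply, LinearMap.smul_apply, h1, h1']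
      module
    · simp only [map_add, map_smul, LinearMap.add_apply, LinearMap.smul_apply, h2, h2']
      module
    · simp only [map_add, map_smul, LinearMap.add_apply, LinearMap.smul_apply, h3, h3',
        smul_eq_mul]
    · simp only [map_add, map_smul, LinearMap.add_apply, LinearMap.smul_apply, h4, h4',
        smul_eq_mul]
    · simp only [map_add, map_smul, LinearMap.add_apply, LinearMap.smul_apply, h5, h5',
        smul_eq_mul]
  jp := by
    rintro a b c d p q r a' b' c' d' p' q' r' ⟨y, hy, h1, h2, h3, h4, h5⟩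
      ⟨y', hy', h1', h2', h3', h4', h5'⟩
    have h6 : B l2 (y l1) = q := by rw [← hy, D.sym, h4]
    have h6' : B l2 (y' l1) = q' := by rw [← hy', D.sym, h4']
    have hR : R (jp (R y) y' + jp y (R y')) = jp (R y) (R y') := (D.rb y y').symm
    refine ⟨jp (R y) y' + jp y (R y'), ?_, ?_, ?_, ?_, ?_, ?_⟩
    · intro u v
      simp only [LinearMap.add_apply, map_add]
      rw [D.jp_sa (D.sa y) hy', D.jp_sa hy (D.sa y')]
    · rw [hR]
      unfold jp
      simp only [LinearMap.add_apply, Module.End.mul_apply, h1, h2, h1', h2', map_add, map_smul]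
      module
    · rw [hR]
      unfold jp
      simp only [LinearMap.add_apply, Module.End.mul_apply, h1, h2, h1', h2', map_add, map_smul]
      module
    · unfold jp
      simp only [LinearMap.add_apply, Module.End.mul_apply, map_add, ← D.sa y, ← D.sa y', h1, h2,
        h1', h2', map_smul, LinearMap.smul_apply, h3, h4, h5, h6, h3', h4', h5', h6', smul_eq_mul]
      ring
    · unfold jp
      simp only [LinearMap.add_apply, Module.End.mul_apply, map_add, ← D.sa y, ← D.sa y', h1, h2,
        h1', h2', map_smul, LinearMap.smul_apply, h3, h4, h5, h6, h3', h4', h5', h6', smul_eq_mul]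
      ring
    · unfold jp
      simp only [LinearMap.add_apply, Module.End.mul_apply, map_add, ← D.sa y, ← D.sa y', h1, h2,
        h1', h2', map_smul, LinearMap.smul_apply, h3, h4, h5, h6, h3', h4', h5', h6', smul_eq_mul]
      ring
  ex := by
    intro p q r
    obtain ⟨y, hy⟩ : ∃ y, y = p • tens B d1 d1 + q • (tens B d1 d2 + tens B d2 d1) +
      r • tens B d2 d2 := ⟨_, rfl⟩
    obtain ⟨a, b, h1⟩ := Submodule.mem_span_pair.1 (D.SL y l1L)
    obtain ⟨c, d, h2⟩ := Submodule.mem_span_pair.1 (D.SL y l2L)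
    have e11 : B d1 l1 = 1 := by rw [D.sym, D.b11]
    have e12 : B d1 l2 = 0 := by rw [D.sym, D.b21]
    have e21 : B d2 l1 = 0 := by rw [D.sym, D.b12]
    have e22 : B d2 l2 = 1 := by rw [D.sym, D.b22]
    refine ⟨a, b, c, d, y, ?_, h1.symm, h2.symm, ?_, ?_, ?_⟩
    · intro u v
      rw [hy]
      simp only [LinearMap.add_apply, LinearMap.smul_apply, tens_apply, map_add, map_smul,
        smul_eq_mul]
      rw [D.sym u d1, D.sym u d2]
      ring
    · rw [hy]
      simp only [LinearMap.add_apply, LinearMap.smul_apply, tens_apply, map_add, map_smul,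
        smul_eq_mul, D.b11, D.b12, e11, e12, e21, e22]
      ring
    · rw [hy]
      simp only [LinearMap.add_apply, LinearMap.smul_apply, tens_apply, map_add, map_smul,
        smul_eq_mul, D.b11, D.b12, e11, e12, e21, e22]
      ring
    · rw [hy]
      simp only [LinearMap.add_apply, LinearMap.smul_apply, tens_apply, map_add, map_smul,
        smul_eq_mul, D.b21, D.b22, e11, e12, e21, e22]
      ring

theorem pw {y : Module.End F V} (hy : ∀ u v, B (y u) v = B u (y v))
    (h0 : ∀ l ∈ Submodule.span F {l1, l2}, R y l = 0) (n : ℕ) : ∃ z : Module.End F V,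
    (∀ u v, B (z u) v = B u (z v)) ∧ R z = (R y) ^ (n + 2) ∧
    ∀ l ∈ Submodule.span F {l1, l2}, ∀ l' ∈ Submodule.span F {l1, l2}, B l (z l') = 0 := by
  induction n with
  | zero =>
    refine ⟨jp y (R y), D.jp_sa hy (D.sa y), ?_, ?_⟩
    · rw [← D.sq, pow_two]
    · intro l hl l' hl'
      unfold jp
      simp only [LinearMap.add_apply, Module.End.mul_apply, map_add]
      rw [h0 l' hl', map_zero, map_zero, zero_add, ← D.sa, h0 l hl, map_zero,
        LinearMap.zero_apply]
  | succ n ih =>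
    obtain ⟨z, hz1, hz2, hz3⟩ := ih
    have h1 := D.rb y z
    rw [hz2] at h1
    have h2 : jp (R y) ((R y) ^ (n + 2)) = (2 : F) • (R y) ^ (n + 1 + 2) := by
      unfold jp
      rw [← pow_succ, ← pow_succ', two_smul]
    rw [h2] at h1
    have hT : ∀ l ∈ Submodule.span F {l1, l2}, ((R y) ^ (n + 2)) l = 0 := by
      intro l hl
      rw [pow_succ, Module.End.mul_apply, h0 l hl, map_zero]
    have hTsa : ∀ u v, B (((R y) ^ (n + 2)) u) v = B u (((R y) ^ (n + 2)) v) := by
      intro u v
      rw [← hz2, D.sa]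
    refine ⟨(2 : F)⁻¹ • (jp (R y) z + jp y ((R y) ^ (n + 2))), ?_, ?_, ?_⟩
    · intro u v
      simp only [LinearMap.smul_apply, LinearMap.add_apply, map_smul, map_add]
      rw [D.jp_sa (D.sa y) hz1, D.jp_sa hy hTsa]
    · rw [map_smul, ← h1, smul_smul, inv_mul_cancel₀ two_ne_zero, one_smul]
    · intro l hl l' hl'
      unfold jp
      simp only [LinearMap.smul_apply, LinearMap.add_apply, Module.End.mul_apply, map_smul,
        map_add]
      rw [← D.sa, h0 l hl, h0 l' hl', hT l' hl', ← hTsa l, hT l hl]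
      simp

/-- If `R y` kills `L` then a modification of `y` with the same leading part has image
in `L ∘ ker e`. -/
theorem PP [FiniteDimensional F V] {y : Module.End F V} (hy : ∀ u v, B (y u) v = B u (y v))
    (h0 : ∀ l ∈ Submodule.span F {l1, l2}, R y l = 0) : ∃ y' : Module.End F V,
    (∀ u v, B (y' u) v = B u (y' v)) ∧
    (∀ l ∈ Submodule.span F {l1, l2}, ∀ l' ∈ Submodule.span F {l1, l2},
      B l (y' l') = B l (y l')) ∧
    (∀ l ∈ Submodule.span F {l1, l2}, R y' l = 0) ∧
    ∀ v, e v = 0 → R y' v ∈ Submodule.span F {l1, l2} := by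
  obtain ⟨s, hs⟩ : ∃ s, s = R y := ⟨_, rfl⟩
  have hint : IsIntegral F s := Algebra.IsIntegral.isIntegral s
  have hp0 : minpoly F s ≠ 0 := minpoly.ne_zero hint
  obtain ⟨q, hq, hnd⟩ := exists_eq_pow_rootMultiplicity_mul_and_not_dvd (minpoly F s) hp0 0
  rw [map_zero, sub_zero] at hq hnd
  obtain ⟨k, hk⟩ : ∃ k, k = (minpoly F s).rootMultiplicity 0 := ⟨_, rfl⟩
  rw [← hk] at hq
  have hq0 : q.coeff 0 ≠ 0 := by
    intro h1
    exact hnd (X_dvd_iff.2 h1)
  -- the polynomial part
  have hpol : ∀ f : F[X], ∃ z : Module.End F V, (∀ u v, B (z u) v = B u (z v)) ∧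
      R z = s * s * aeval s f ∧
      ∀ l ∈ Submodule.span F {l1, l2}, ∀ l' ∈ Submodule.span F {l1, l2}, B l (z l') = 0 := by
    intro f
    induction f using Polynomial.induction_on' with
    | add f g hf hg =>
      obtain ⟨z, h1, h2, h3⟩ := hf
      obtain ⟨z', h1', h2', h3'⟩ := hg
      refine ⟨z + z', ?_, ?_, ?_⟩
      · intro u v
        simp only [LinearMap.add_apply, map_add, h1, h1']
      · rw [map_add, h2, h2', map_add, mul_add]
      · intro l hl l' hl'
        rw [LinearMap.add_apply, map_add, h3 l hl l' hl', h3' l hl l' hl', add_zero]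
    | monomial n c =>
      obtain ⟨z, h1, h2, h3⟩ := D.pw hy h0 n
      refine ⟨c • z, ?_, ?_, ?_⟩
      · intro u v
        simp only [LinearMap.smul_apply, map_smul, h1]
      · rw [map_smul, h2, aeval_monomial, ← hs, ← Algebra.smul_def, mul_smul_comm, ← pow_two,
          ← pow_add, add_comm 2 n]
      · intro l hl l' hl'
        rw [LinearMap.smul_apply, map_smul, h3 l hl l' hl', smul_zero]
  obtain ⟨q1, hq1⟩ : ∃ q1 : F[X], q1 = C (q.coeff 0)⁻¹ * q := ⟨_, rfl⟩
  obtain ⟨g, hg⟩ : ∃ g : F[X], q1 = 1 + X * g := by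
    refine ⟨C (q.coeff 0)⁻¹ * divX q, ?_⟩
    have h1 := X_mul_divX_add q
    have h2 : C (q.coeff 0)⁻¹ * C (q.coeff 0) = (1 : F[X]) := by
      rw [← C_mul, inv_mul_cancel₀ hq0, C_1]
    rw [hq1]
    linear_combination (-C (q.coeff 0)⁻¹) * h1 + h2
  obtain ⟨z, hz1, hz2, hz3⟩ := hpol g
  have hx : R (y + z) = s * aeval s q1 := by
    rw [map_add, hz2, hg, map_add, map_one, map_mul, aeval_X, mul_add, mul_one, ← hs, mul_assoc]
  have hx' : R (y + z) = aeval s q1 * s := by
    rw [hx]
    have h1 : s * aeval s q1 = aeval s (X * q1) := by rw [map_mul, aeval_X]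
    rw [h1, mul_comm X q1, map_mul, aeval_X]
  obtain ⟨x, hxd⟩ : ∃ x, x = R (y + z) := ⟨_, rfl⟩
  have hxL : ∀ l ∈ Submodule.span F {l1, l2}, x l = 0 := by
    intro l hl
    rw [hxd, hx', Module.End.mul_apply, hs, h0 l hl, map_zero]
  have hxsa : ∀ u v, B (x u) v = B u (x v) := by
    intro u v
    rw [hxd, D.sa]
  have hxK : ∀ v, e v = 0 → e (x v) = 0 := by
    intro v hv
    rw [hxd]
    exact D.SK _ hv
  have hnil : x ^ (k + 1) = 0 := by
    rw [hxd, hx]
    have h1 : s * aeval s q1 = aeval s (X * q1) := by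
      rw [map_mul, aeval_X]
    rw [h1, ← map_pow]
    have h2 : (X * q1) ^ (k + 1) =
        (X ^ k * q) * (X * (C (q.coeff 0)⁻¹) ^ (k + 1) * q ^ k) := by
      rw [hq1]
      ring
    rw [h2, ← hq, map_mul, minpoly.aeval, zero_mul]
  have hpsa : ∀ (n : ℕ) (u v : V), B ((x ^ n) u) v = B u ((x ^ n) v) := by
    intro n
    induction n with
    | zero =>
      intro u v
      rfl
    | succ n ih =>
      intro u v
      rw [pow_succ, Module.End.mul_apply, ih, hxsa, ← Module.End.mul_apply, ← pow_succ', pow_succ]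
  have hpK : ∀ (n : ℕ) (v : V), e v = 0 → e ((x ^ n) v) = 0 := by
    intro n
    induction n with
    | zero =>
      intro v hv
      exact hv
    | succ n ih =>
      intro v hv
      rw [pow_succ, Module.End.mul_apply]
      exact ih _ (hxK v hv)
  have hdesc : ∀ j : ℕ, (∀ v, e v = 0 → (x ^ (2 ^ j)) v ∈ Submodule.span F {l1, l2}) →
      ∀ v, e v = 0 → x v ∈ Submodule.span F {l1, l2} := by
    intro j
    induction j with
    | zero =>
      intro h v hv
      have h1 := h v hv
      rw [pow_zero, pow_one] at h1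
      exact h1
    | succ j ih =>
      intro h
      apply ih
      intro v hv
      apply D.han _ (hpK _ _ hv)
      rw [hpsa, ← Module.End.mul_apply, ← pow_add, ← two_mul, ← pow_succ']
      exact D.LK' (h v hv) hv
  refine ⟨y + z, ?_, ?_, ?_, ?_⟩
  · intro u v
    simp only [LinearMap.add_apply, map_add, hy, hz1]
  · intro l hl l' hl'
    rw [LinearMap.add_apply, map_add, hz3 l hl l' hl', add_zero]
  · intro l hl
    rw [← hxd]
    exact hxL l hl
  · intro v hv
    rw [← hxd]
    apply hdesc (k + 1) _ v hv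
    intro v hv
    have h1 : x ^ (2 ^ (k + 1)) = 0 := pow_eq_zero_of_le (Nat.lt_two_pow_self).le hnil
    rw [h1, LinearMap.zero_apply]
    exact Submodule.zero_mem _

/-- All leading parts occur. -/
theorem U_all [FiniteDimensional F V] (hQ : ∀ p q r : F, ∃ y : Module.End F V,
    (∀ u v, B (y u) v = B u (y v)) ∧ R y l1 = (0 : F) • l1 + (0 : F) • l2 ∧
    R y l2 = (0 : F) • l1 + (0 : F) • l2 ∧
    B l1 (y l1) = p ∧ B l1 (y l2) = q ∧ B l2 (y l2) = r) (p q r : F) :
    ∃ y : Module.End F V, (∀ u v, B (y u) v = B u (y v)) ∧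
      B l1 (y l1) = p ∧ B l1 (y l2) = q ∧ B l2 (y l2) = r ∧
      (∀ l ∈ Submodule.span F {l1, l2}, R y l = 0) ∧
      ∀ v, e v = 0 → R y v ∈ Submodule.span F {l1, l2} := by
  obtain ⟨y, hy, h1, h2, h3, h4, h5⟩ := hQ p q r
  have h0 : ∀ l ∈ Submodule.span F {l1, l2}, R y l = 0 := by
    intro l hl
    obtain ⟨a, b, rfl⟩ := Submodule.mem_span_pair.1 hl
    rw [map_add, map_smul, map_smul, h1, h2]
    simp
  obtain ⟨y', hy', hb, hL, hK⟩ := D.PP hy h0
  exact ⟨y', hy', by rw [hb _ l1L _ l1L, h3], by rw [hb _ l1L _ l2L, h4],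
    by rw [hb _ l2L _ l2L, h5], hL, hK⟩

/-- Images of elements of `L ∘ ker e`. -/
theorem F1rep {f : Module.End F V} (hf : ∀ u v, B (f u) v = B u (f v))
    (hL : ∀ l ∈ Submodule.span F {l1, l2}, f l = 0)
    (hK : ∀ v, e v = 0 → f v ∈ Submodule.span F {l1, l2}) :
    e (f d1) = 0 ∧ e (f d2) = 0 ∧
      R f = (2 : F) • R (tens B l1 (f d1)) + (2 : F) • R (tens B l2 (f d2)) := by
  refine ⟨?_, ?_, ?_⟩
  · apply D.ker_iff
    · rw [← hf, hL _ l1L, map_zero, LinearMap.zero_apply]
    · rw [← hf, hL _ l2L, map_zero, LinearMap.zero_apply]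
  · apply D.ker_iff
    · rw [← hf, hL _ l1L, map_zero, LinearMap.zero_apply]
    · rw [← hf, hL _ l2L, map_zero, LinearMap.zero_apply]
  · have h1 : f = tens B (f d1) l1 + tens B (f d2) l2 + (tens B l1 (f d1) + tens B l2 (f d2)) -
        (B (f d1) d1 • tens B l1 l1 + B (f d1) d2 • tens B l1 l2 +
          (B (f d2) d1 • tens B l2 l1 + B (f d2) d2 • tens B l2 l2)) := by
      ext w
      have h2 := D.exp_ker w
      have h3 := D.expL (hK _ h2)
      rw [← hf, ← hf] at h3
      simp only [map_sub, map_add, map_smul] at h3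
      rw [sub_eq_iff_eq_add] at h3
      simp only [LinearMap.sub_apply, LinearMap.add_apply, LinearMap.smul_apply, tens_apply]
      rw [h3]
      simp only [smul_eq_mul]
      module
    have h4 : R f = R (tens B (f d1) l1 + tens B (f d2) l2 +
        (tens B l1 (f d1) + tens B l2 (f d2)) -
        (B (f d1) d1 • tens B l1 l1 + B (f d1) d2 • tens B l1 l2 +
          (B (f d2) d1 • tens B l2 l1 + B (f d2) d2 • tens B l2 l2))) := by rw [← h1]
    rw [h4]
    simp only [map_sub, map_add, map_smul]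
    rw [D.BL l1L l1L, D.BL l1L l2L, D.BL l2L l1L, D.BL l2L l2L, D.tr (f d1) l1, D.tr (f d2) l2]
    module

theorem F1_InC {f : Module.End F V} (hf : ∀ u v, B (f u) v = B u (f v))
    (hL : ∀ l ∈ Submodule.span F {l1, l2}, f l = 0)
    (hK : ∀ v, e v = 0 → f v ∈ Submodule.span F {l1, l2}) : InC B R e l1 l2 (R f) := by
  obtain ⟨h1, h2, h3⟩ := D.F1rep hf hL hK
  rw [h3]
  exact ((InC.T l1L h1).smul 2).add ((InC.T l2L h2).smul 2)

/-- `R (R x)` is in `C` modulo `L ⊗ L`. -/
theorem RR_C (hsy : ∀ x, ∃ y : Module.End F V, (∀ u v, B (y u) v = B u (y v)) ∧ R y = R x)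
    (hU : ∀ p q r : F, ∃ y : Module.End F V, (∀ u v, B (y u) v = B u (y v)) ∧
      B l1 (y l1) = p ∧ B l1 (y l2) = q ∧ B l2 (y l2) = r ∧
      (∀ l ∈ Submodule.span F {l1, l2}, R y l = 0) ∧
      ∀ v, e v = 0 → R y v ∈ Submodule.span F {l1, l2}) (x : Module.End F V) :
    ∃ c, InC B R e l1 l2 c ∧ (∀ l ∈ Submodule.span F {l1, l2}, R (R x) l = c l) ∧
      ∀ v, e v = 0 → R (R x) v = c v := by
  obtain ⟨x', hx', hxx⟩ := hsy x
  obtain ⟨y, hy, h1, h2, h3, hL, hK⟩ := hU (B l1 (x' l1)) (B l1 (x' l2)) (B l2 (x' l2))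
  have hc1 : InC B R e l1 l2 (R (R y)) := D.F1_InC (D.sa y) hL hK
  obtain ⟨z, hz⟩ : ∃ z, z = x' - y := ⟨_, rfl⟩
  have hzsa : ∀ u v, B (z u) v = B u (z v) := by
    intro u v
    rw [hz, LinearMap.sub_apply, LinearMap.sub_apply, map_sub, map_sub, LinearMap.sub_apply, hx',
      hy]
  have hzL : ∀ l ∈ Submodule.span F {l1, l2}, e (z l) = 0 := by
    intro l hl
    obtain ⟨a, b, rfl⟩ := Submodule.mem_span_pair.1 hl
    have f1 : B l1 (z l1) = 0 := by rw [hz, LinearMap.sub_apply, map_sub, h1, sub_self]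
    have f2 : B l1 (z l2) = 0 := by rw [hz, LinearMap.sub_apply, map_sub, h2, sub_self]
    have f3 : B l2 (z l2) = 0 := by rw [hz, LinearMap.sub_apply, map_sub, h3, sub_self]
    have f4 : B l2 (z l1) = 0 := by rw [← hzsa, D.sym, f2]
    apply D.ker_iff
    · rw [map_add, map_smul, map_smul, map_add, map_smul, map_smul, f1, f2, smul_zero, smul_zero,
        add_zero]
    · rw [map_add, map_smul, map_smul, map_add, map_smul, map_smul, f3, f4, smul_zero, smul_zero,
        add_zero]
  have hc2 : InC B R e l1 l2 (R (jp e z)) := by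
    apply D.F1_InC (D.jp_sa D.esa hzsa)
    · intro l hl
      unfold jp
      rw [LinearMap.add_apply, Module.End.mul_apply, Module.End.mul_apply, hzL l hl, D.eL hl,
        map_zero, add_zero]
    · intro v hv
      unfold jp
      rw [LinearMap.add_apply, Module.End.mul_apply, Module.End.mul_apply, hv, map_zero, add_zero]
      exact D.ran _
  have hst := D.star z
  have hRz : R (R z) = (2 : F)⁻¹ • (jp e (R z) - R (jp e z)) := by
    rw [hst, sub_sub_cancel, smul_smul, inv_mul_cancel₀ two_ne_zero, one_smul]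
  have hRx : R (R x) = R (R y) + R (R z) := by
    rw [hz, map_sub, map_sub, hxx]
    abel
  refine ⟨R (R y) - (2 : F)⁻¹ • R (jp e z), hc1.sub (hc2.smul _), ?_, ?_⟩
  · intro l hl
    rw [hRx, hRz]
    have h5 : jp e (R z) l = 0 := by
      unfold jp
      rw [LinearMap.add_apply, Module.End.mul_apply, Module.End.mul_apply, D.eL hl, map_zero,
        add_zero, D.eL (D.SL _ hl)]
    simp only [LinearMap.add_apply, LinearMap.smul_apply, LinearMap.sub_apply, h5]
    module
  · intro v hv
    rw [hRx, hRz]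
    have h5 : jp e (R z) v = 0 := by
      unfold jp
      rw [LinearMap.add_apply, Module.End.mul_apply, Module.End.mul_apply, hv, map_zero,
        add_zero, D.SK _ hv]
    simp only [LinearMap.add_apply, LinearMap.smul_apply, LinearMap.sub_apply, h5]
    module

end T0D

end Pool.Agent.MP_f4742e_al
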